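import Pool.Agent.Work.MP_8a95ee_gt.Setup
import Pool.Agent.Work.MP_8a95ee_gt.B3

/-! Bundle of small proof modules (one section per former module). -/

section

/-!
Item A1: elementary facts on flag complexes and edge subdivisions.
-/

namespace MP8a95ee

theorem FlagC.mono {L : Finset (Finset ℕ)} (hf : FlagC L) {s t : Finset ℕ} (hs : s ∈ L)
    (hts : t ⊆ s) : t ∈ L := by
  rw [hf]
  intro x hx y hy
  exact (hf s).mp hs x (hts hx) y (hts hy)

theorem FlagC.empty_mem {L : Finset (Finset ℕ)} (hf : FlagC L) : ∅ ∈ L := by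
  rw [hf]
  intro x hx
  exact absurd hx (Finset.notMem_empty x)

theorem subdiv_comm (L : Finset (Finset ℕ)) (u v w : ℕ) : subdiv L u v w = subdiv L v u w := by
  unfold subdiv
  have h1 : (L.filter fun σ => ¬ (u ∈ σ ∧ v ∈ σ)) = L.filter fun σ => ¬ (v ∈ σ ∧ u ∈ σ) :=
    Finset.filter_congr fun σ _ => by rw [and_comm]
  have h2 : (L.filter fun τ => ¬ (u ∈ τ ∧ v ∈ τ) ∧ insert u (insert v τ) ∈ L) =
      L.filter fun τ => ¬ (v ∈ τ ∧ u ∈ τ) ∧ insert v (insert u τ) ∈ L :=
    Finset.filter_congr fun τ _ => by rw [and_comm (a := u ∈ τ), Finset.insert_comm]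
  rw [h1, h2]

theorem verts_mem_iff {L : Finset (Finset ℕ)} (hf : FlagC L) (x : ℕ) :
    x ∈ verts L ↔ ({x} : Finset ℕ) ∈ L := by
  unfold verts
  rw [Finset.mem_biUnion]
  constructor
  · rintro ⟨σ, hσ, hx⟩
    exact hf.mono hσ (Finset.singleton_subset_iff.mpr hx)
  · intro h
    exact ⟨{x}, h, Finset.mem_singleton_self x⟩

namespace A1

lemma subset_verts {L : Finset (Finset ℕ)} {σ : Finset ℕ} (hσ : σ ∈ L) : σ ⊆ verts L := by
  intro x hx
  exact Finset.mem_biUnion.mpr ⟨σ, hσ, hx⟩

lemma pair_subset {a b : ℕ} {s : Finset ℕ} (ha : a ∈ s) (hb : b ∈ s) : ({a, b} : Finset ℕ) ⊆ s := by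
  intro x hx
  rw [Finset.mem_insert, Finset.mem_singleton] at hx
  rcases hx with rfl | rfl
  · exact ha
  · exact hb

/-- Membership of sets without the new vertex. -/
lemma mem_subdiv_of_notMem {L : Finset (Finset ℕ)} {u v w : ℕ} {s : Finset ℕ} (hws : w ∉ s) :
    s ∈ subdiv L u v w ↔ s ∈ L ∧ ¬ (u ∈ s ∧ v ∈ s) := by
  unfold subdiv
  rw [Finset.mem_union, Finset.mem_filter, Finset.mem_image]
  constructor
  · rintro (h | ⟨τ, -, h⟩)
    · exact h
    · exact absurd (h ▸ Finset.mem_insert_self w τ) hws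
  · intro h
    exact Or.inl h

/-- Membership of sets with the new vertex. -/
lemma mem_subdiv_of_mem {L : Finset (Finset ℕ)} {u v w : ℕ} (hf : FlagC L)
    (he : ({u, v} : Finset ℕ) ∈ L) (hw : w ∉ verts L) {s : Finset ℕ} (hws : w ∈ s) :
    s ∈ subdiv L u v w ↔ ¬ (u ∈ s ∧ v ∈ s) ∧ insert u (insert v (s.erase w)) ∈ L := by
  have huw : u ≠ w := by
    rintro rfl
    exact hw (subset_verts he (Finset.mem_insert_self _ _))
  have hvw : v ≠ w := by
    rintro rfl
    exact hw (subset_verts he (Finset.mem_insert_of_mem (Finset.mem_singleton_self _)))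
  unfold subdiv
  rw [Finset.mem_union, Finset.mem_filter, Finset.mem_image]
  constructor
  · rintro (⟨h, -⟩ | ⟨τ, hτ, h⟩)
    · exact absurd (subset_verts h hws) hw
    · rw [Finset.mem_filter] at hτ
      have hwτ : w ∉ τ := fun h' => hw (subset_verts hτ.1 h')
      subst h
      rw [Finset.erase_insert hwτ]
      refine ⟨?_, hτ.2.2⟩
      rintro ⟨h1, h2⟩
      exact hτ.2.1 ⟨Finset.mem_of_mem_insert_of_ne h1 huw, Finset.mem_of_mem_insert_of_ne h2 hvw⟩
  · rintro ⟨h1, h2⟩
    refine Or.inr ⟨s.erase w, ?_, Finset.insert_erase hws⟩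
    rw [Finset.mem_filter]
    refine ⟨hf.mono h2 ((Finset.subset_insert _ _).trans (Finset.subset_insert _ _)), ?_, h2⟩
    rintro ⟨h3, h4⟩
    exact h1 ⟨Finset.mem_of_mem_erase h3, Finset.mem_of_mem_erase h4⟩

end A1

theorem flagC_lk {L : Finset (Finset ℕ)} (hf : FlagC L) {τ : Finset ℕ} (hτ : τ ∈ L) :
    FlagC (lk L τ) := by
  intro σ
  unfold lk
  simp only [Finset.mem_filter]
  constructor
  · rintro ⟨h1, h2, h3⟩ x hx y hy
    have hsub := A1.pair_subset hx hy
    exact ⟨hf.mono h1 hsub, Finset.disjoint_of_subset_left hsub h2,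
      hf.mono h3 (Finset.union_subset_union_left hsub)⟩
  · intro h
    refine ⟨(hf σ).mpr fun x hx y hy => (h x hx y hy).1, ?_, ?_⟩
    · rw [Finset.disjoint_left]
      intro x hx hxτ
      exact Finset.disjoint_left.mp (h x hx x hx).2.1 (Finset.mem_insert_self _ _) hxτ
    · rw [hf]
      intro a ha b hb
      rw [Finset.mem_union] at ha hb
      rcases ha with ha | ha <;> rcases hb with hb | hb
      · exact (h a ha b hb).1
      · refine hf.mono (h a ha a ha).2.2 (A1.pair_subset ?_ ?_)
        · exact Finset.mem_union_left _ (Finset.mem_insert_self _ _)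
        · exact Finset.mem_union_right _ hb
      · refine hf.mono (h b hb b hb).2.2 (A1.pair_subset ?_ ?_)
        · exact Finset.mem_union_right _ ha
        · exact Finset.mem_union_left _ (Finset.mem_insert_self _ _)
      · exact hf.mono hτ (A1.pair_subset ha hb)

theorem flagC_cross (n : ℕ) : FlagC (cross n) ∧ ∀ σ ∈ cross n, σ.card ≤ n := by
  have hmem : ∀ σ : Finset ℕ, σ ∈ cross n ↔ (∀ x ∈ σ, x < 2 * n) ∧
      ∀ i < n, ¬ (2 * i ∈ σ ∧ 2 * i + 1 ∈ σ) := by
    intro σ
    unfold cross
    rw [Finset.mem_filter, Finset.mem_powerset]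
    simp only [Finset.mem_range]
    constructor
    · rintro ⟨h1, h2⟩
      exact ⟨fun x hx => Finset.mem_range.mp (h1 hx), h2⟩
    · rintro ⟨h1, h2⟩
      exact ⟨fun x hx => Finset.mem_range.mpr (h1 x hx), h2⟩
  constructor
  · intro σ
    constructor
    · intro h x hx y hy
      rw [hmem] at h ⊢
      have hsub := A1.pair_subset hx hy
      exact ⟨fun z hz => h.1 z (hsub hz), fun i hi hcon => h.2 i hi ⟨hsub hcon.1, hsub hcon.2⟩⟩
    · intro h
      rw [hmem]
      refine ⟨fun x hx => ?_, fun i hi hcon => ?_⟩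
      · exact ((hmem _).mp (h x hx x hx)).1 x (Finset.mem_insert_self _ _)
      · exact ((hmem _).mp (h _ hcon.1 _ hcon.2)).2 i hi ⟨Finset.mem_insert_self _ _,
          Finset.mem_insert_of_mem (Finset.mem_singleton_self _)⟩
  · intro σ hσ
    rw [hmem] at hσ
    have h1 : σ.card ≤ (Finset.range n).card := by
      refine Finset.card_le_card_of_injOn (fun x => x / 2) ?_ ?_
      · intro x hx
        have := hσ.1 x hx
        simp only [Finset.coe_range, Set.mem_Iio]
        omega
      · intro x hx y hy hxy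
        have hxy' : x / 2 = y / 2 := hxy
        by_contra hne
        have hx2 := hσ.1 x hx
        have h3 := hσ.2 (x / 2) (by omega)
        apply h3
        rcases Nat.mod_two_eq_zero_or_one x with hx' | hx' <;>
          rcases Nat.mod_two_eq_zero_or_one y with hy' | hy'
        · exact absurd (by omega) hne
        · refine ⟨?_, ?_⟩
          · have : 2 * (x / 2) = x := by omega
            rw [this]; exact hx
          · have : 2 * (x / 2) + 1 = y := by omega
            rw [this]; exact hy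
        · refine ⟨?_, ?_⟩
          · have : 2 * (x / 2) = y := by omega
            rw [this]; exact hy
          · have : 2 * (x / 2) + 1 = x := by omega
            rw [this]; exact hx
        · exact absurd (by omega) hne
    simpa using h1

theorem flagC_subdiv {n : ℕ} {L : Finset (Finset ℕ)} {u v w : ℕ} (hf : FlagC L)
    (hd : ∀ σ ∈ L, σ.card ≤ n) (huv : u ≠ v) (he : ({u, v} : Finset ℕ) ∈ L) (hw : w ∉ verts L) :
    FlagC (subdiv L u v w) ∧ ∀ σ ∈ subdiv L u v w, σ.card ≤ n := by
  have huw : u ≠ w := by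
    rintro rfl
    exact hw (A1.subset_verts he (Finset.mem_insert_self _ _))
  have hvw : v ≠ w := by
    rintro rfl
    exact hw (A1.subset_verts he (Finset.mem_insert_of_mem (Finset.mem_singleton_self _)))
  have hA : ∀ {s : Finset ℕ}, w ∉ s → (s ∈ subdiv L u v w ↔ s ∈ L ∧ ¬ (u ∈ s ∧ v ∈ s)) :=
    fun h => A1.mem_subdiv_of_notMem h
  have hB : ∀ {s : Finset ℕ}, w ∈ s → (s ∈ subdiv L u v w ↔
      ¬ (u ∈ s ∧ v ∈ s) ∧ insert u (insert v (s.erase w)) ∈ L) :=
    fun h => A1.mem_subdiv_of_mem hf he hw h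
  have hwuv : w ∉ ({u, v} : Finset ℕ) := by
    rw [Finset.mem_insert, Finset.mem_singleton]
    rintro (h | h)
    · exact huw h.symm
    · exact hvw h.symm
  have huvn : ({u, v} : Finset ℕ) ∉ subdiv L u v w := by
    rw [hA hwuv]
    rintro ⟨-, h⟩
    exact h ⟨Finset.mem_insert_self _ _, Finset.mem_insert_of_mem (Finset.mem_singleton_self _)⟩
  constructor
  · intro s
    by_cases hws : w ∈ s
    · constructor
      · intro hs x hx y hy
        rw [hB hws] at hs
        have hsub := A1.pair_subset hx hy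
        by_cases hwp : w ∈ ({x, y} : Finset ℕ)
        · rw [hB hwp]
          refine ⟨fun h => hs.1 ⟨hsub h.1, hsub h.2⟩, hf.mono hs.2 ?_⟩
          exact Finset.insert_subset_insert _ (Finset.insert_subset_insert _
            (Finset.erase_subset_erase _ hsub))
        · rw [hA hwp]
          refine ⟨hf.mono hs.2 ?_, fun h => hs.1 ⟨hsub h.1, hsub h.2⟩⟩
          intro z hz
          refine Finset.mem_insert_of_mem (Finset.mem_insert_of_mem (Finset.mem_erase.mpr ⟨?_, hsub hz⟩))
          rintro rfl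
          exact hwp hz
      · intro h
        rw [hB hws]
        refine ⟨fun hc => huvn (h u hc.1 v hc.2), ?_⟩
        have hpair : ∀ a ∈ ({u, v} : Finset ℕ), ∀ b ∈ s.erase w, ({a, b} : Finset ℕ) ∈ L := by
          intro a ha b hb
          rw [Finset.mem_erase] at hb
          have h1 := h w hws b hb.2
          rw [hB (Finset.mem_insert_self _ _)] at h1
          refine hf.mono h1.2 (A1.pair_subset ?_ ?_)
          · rw [Finset.mem_insert, Finset.mem_singleton] at ha
            rcases ha with rfl | rfl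
            · exact Finset.mem_insert_self _ _
            · exact Finset.mem_insert_of_mem (Finset.mem_insert_self _ _)
          · refine Finset.mem_insert_of_mem (Finset.mem_insert_of_mem (Finset.mem_erase.mpr
              ⟨hb.1, Finset.mem_insert_of_mem (Finset.mem_singleton_self _)⟩))
        have hset : insert u (insert v (s.erase w)) = ({u, v} : Finset ℕ) ∪ s.erase w := by
          ext z
          simp only [Finset.mem_insert, Finset.mem_union, Finset.mem_singleton]
          tauto
        rw [hset, hf]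
        intro a ha b hb
        rw [Finset.mem_union] at ha hb
        rcases ha with ha | ha <;> rcases hb with hb | hb
        · exact hf.mono he (A1.pair_subset ha hb)
        · exact hpair a ha b hb
        · rw [Finset.pair_comm]
          exact hpair b hb a ha
        · rw [Finset.mem_erase] at ha hb
          have h1 := h a ha.2 b hb.2
          rw [hA (by
            rw [Finset.mem_insert, Finset.mem_singleton]
            rintro (h | h)
            · exact ha.1 h.symm
            · exact hb.1 h.symm)] at h1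
          exact h1.1
    · constructor
      · intro hs x hx y hy
        rw [hA hws] at hs
        have hsub := A1.pair_subset hx hy
        rw [hA (fun h => hws (hsub h))]
        exact ⟨hf.mono hs.1 hsub, fun h => hs.2 ⟨hsub h.1, hsub h.2⟩⟩
      · intro h
        rw [hA hws]
        refine ⟨(hf s).mpr fun x hx y hy => ?_, fun hc => huvn (h u hc.1 v hc.2)⟩
        have h1 := h x hx y hy
        rw [hA (fun h => hws (A1.pair_subset hx hy h))] at h1
        exact h1.1
  · intro s hs
    by_cases hws : w ∈ s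
    · rw [hB hws] at hs
      have h1 := hd _ hs.2
      have h2 : (s.erase w).card < (insert u (insert v (s.erase w))).card := by
        refine Finset.card_lt_card ⟨(Finset.subset_insert _ _).trans (Finset.subset_insert _ _), ?_⟩
        intro hcon
        have hu : u ∈ s.erase w := hcon (Finset.mem_insert_self _ _)
        have hv : v ∈ s.erase w := hcon (Finset.mem_insert_of_mem (Finset.mem_insert_self _ _))
        exact hs.1 ⟨Finset.mem_of_mem_erase hu, Finset.mem_of_mem_erase hv⟩
      have h3 := Finset.card_erase_add_one hws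
      omega
    · rw [hA hws] at hs
      exact hd s hs.1

theorem eulerChar_eq (L : Finset (Finset ℕ)) :
    (eulerChar L : ℚ) = 2 ^ (verts L).card * kap L := by
  unfold eulerChar kap
  push_cast
  rw [Finset.mul_sum]
  refine Finset.sum_congr rfl fun σ hσ => ?_
  have h1 : σ.card ≤ (verts L).card := Finset.card_le_card (A1.subset_verts hσ)
  have h2 : (2 : ℚ) ^ (verts L).card = 2 ^ ((verts L).card - σ.card) * 2 ^ σ.card := by
    rw [← pow_add]
    congr 1
    omega
  rw [h2, div_pow]
  field_simp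

end MP8a95ee

end

section

/-!
Parallel frames exist over simply connected, locally path connected spaces.
-/

namespace MP8a95ee

variable {X G ι : Type} [TopologicalSpace X] [Group G]

/-- the fibre bundle with discrete fibre `G` defined by the constant transition elements -/
def B1.core (D : FlatData X G ι) : @FiberBundleCore ι X _ G ⊥ :=
  letI : TopologicalSpace G := ⊥
  { baseSet := D.U
    isOpen_baseSet := D.isOpen_U
    indexAt := D.idx
    mem_baseSet_at := D.mem_idx
    coordChange := fun i j _ v => v * D.tr i j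
    coordChange_self := fun i x hx v => by rw [D.tr_self i x hx, mul_one]
    continuousOn_coordChange := fun i j => by
      haveI : DiscreteTopology G := ⟨rfl⟩
      exact ((continuous_of_discreteTopology (f := fun v : G => v * D.tr i j)).comp
        continuous_snd).continuousOn
    coordChange_comp := fun i j k x hx v => by
      rw [mul_assoc, D.tr_comp i j k x hx.1.1 hx.1.2 hx.2] }

theorem exists_lift (D : FlatData X G ι) {A : Type} [TopologicalSpace A]
    [SimplyConnectedSpace A] [LocallyPathConnectedSpace A] (f : C(A, X)) (a₀ : A) (g₀ : G) :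
    ∃ g : A → G, D.IsLift f g ∧ g a₀ = g₀ := by
  letI : TopologicalSpace G := ⊥
  haveI : DiscreteTopology G := ⟨rfl⟩
  let Z : FiberBundleCore ι X G := B1.core D
  have hcov : IsCoveringMap Z.proj :=
    IsFiberBundle.isCoveringMap fun x => ⟨Z.localTrivAt x, Z.mem_localTrivAt_baseSet x⟩
  obtain ⟨F, ⟨hF0, hF⟩, -⟩ := hcov.existsUnique_continuousMap_lifts f a₀
    (⟨f a₀, g₀⟩ : Z.TotalSpace) rfl
  have hpr : ∀ b, (F b).1 = f b := fun b => congrFun hF b
  refine ⟨fun a => (F a).2, ?_, ?_⟩
  · intro a j haj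
    have hsrc : F a ∈ (Z.localTriv j).source := by
      rw [FiberBundleCore.mem_localTriv_source]
      change (F a).1 ∈ D.U j
      rw [hpr a]
      exact haj
    have hc : ContinuousAt (fun b => ((Z.localTriv j) (F b)).2) a :=
      continuousAt_snd.comp
        (((Z.localTriv j).continuousAt hsrc).comp F.continuous.continuousAt)
    have hev : ∀ᶠ b in nhds a, ((Z.localTriv j) (F b)).2 = ((Z.localTriv j) (F a)).2 :=
      hc.eventually (p := fun v => v = ((Z.localTriv j) (F a)).2)
        (by rw [nhds_discrete]; exact Filter.mem_pure.mpr rfl)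
    filter_upwards [hev] with b hb
    rw [← hpr a, ← hpr b]
    exact hb
  · change (F a₀).2 = g₀
    rw [hF0]

end MP8a95ee

end

section

/-!
Item B4: charts of the real moment-angle complex around the corners of the cube, and the parallel
frames along the affine simplices.
-/

namespace MP8a95ee

section B

variable {X G ι : Type} [TopologicalSpace X] [Group G]

theorem B4.mem_verts {L : Finset (Finset ℕ)} {σ : Finset ℕ} (hσ : σ ∈ L) {i : ℕ} (hi : i ∈ σ) :
    i ∈ verts L := by
  unfold verts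
  rw [Finset.mem_biUnion]
  exact ⟨σ, hσ, hi⟩

/-- two charts containing a point differ by flips of coordinates of absolute value `< 1` -/
theorem B4.abs_lt {L : Finset (Finset ℕ)} {x : RZ L} {T T' : Finset ℕ} (hT : x ∈ chartU L T)
    (hT' : x ∈ chartU L T') {i : ℕ} (hi : i ∈ symmDiff T T') : |(x : ℕ → ℝ) i| < 1 := by
  have key : ∀ A B : Finset ℕ, x ∈ chartU L A → x ∈ chartU L B → i ∈ A → i ∉ B →
      |(x : ℕ → ℝ) i| < 1 := by
    intro A B hA hB hiA hiB
    have h1 : (x : ℕ → ℝ) i ≠ 1 := hA.1 i hiA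
    have hv : i ∈ verts L := by
      by_contra hv
      exact h1 (x.2.2.1 i hv)
    have h2 : (x : ℕ → ℝ) i ≠ -1 := hB.2 i hv hiB
    refine lt_of_le_of_ne (x.2.1 i) fun h => ?_
    rcases (abs_eq zero_le_one).1 h with h | h
    · exact h1 h
    · exact h2 h
  rw [Finset.mem_symmDiff] at hi
  rcases hi with h | h
  · exact key T T' hT hT' h.1 h.2
  · exact key T' T hT' hT h.1 h.2

theorem B4.mem_negSet {L : Finset (Finset ℕ)} {x : RZ L} {i : ℕ} :
    i ∈ negSet L x ↔ i ∈ verts L ∧ (x : ℕ → ℝ) i < 0 := by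
  classical
  unfold negSet
  rw [Finset.mem_filter]

theorem B4.mem_idx (L : Finset (Finset ℕ)) (x : RZ L) : x ∈ chartU L (negSet L x) := by
  refine ⟨fun i hi h => ?_, fun i hv hi h => ?_⟩
  · have := (B4.mem_negSet.1 hi).2
    rw [h] at this
    linarith
  · apply hi
    rw [B4.mem_negSet]
    exact ⟨hv, by rw [h]; norm_num⟩

theorem B4.isOpen_chartU (L : Finset (Finset ℕ)) (T : Finset ℕ) : IsOpen (chartU L T) := by
  have h : chartU L T = (⋂ i ∈ T, {x : RZ L | (x : ℕ → ℝ) i ≠ 1}) ∩
      ⋂ i ∈ verts L \ T, {x : RZ L | (x : ℕ → ℝ) i ≠ -1} := by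
    ext x
    simp only [chartU, Set.mem_ofPred_eq, Set.mem_inter_iff, Set.mem_iInter, Finset.mem_sdiff,
      and_imp]
  have hc : ∀ i : ℕ, Continuous fun x : RZ L => (x : ℕ → ℝ) i := fun i =>
    (continuous_apply i).comp continuous_subtype_val
  rw [h]
  refine IsOpen.inter (isOpen_biInter_finset fun i _ => ?_) (isOpen_biInter_finset fun i _ => ?_)
  · exact isOpen_ne_fun (hc i) continuous_const
  · exact isOpen_ne_fun (hc i) continuous_const

theorem flatRZ_exists (L : Finset (Finset ℕ)) (r : ℕ → G)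
    (hsq : ∀ i ∈ verts L, r i * r i = 1)
    (hcomm : ∀ σ ∈ L, ∀ i ∈ σ, ∀ j ∈ σ, r i * r j = r j * r i) :
    ∃ D : FlatData (RZ L) G (Finset ℕ), D.U = chartU L ∧ D.idx = negSet L ∧
      D.tr = fun T T' => prodR r (symmDiff T T') := by
  refine ⟨⟨chartU L, B4.isOpen_chartU L, negSet L, B4.mem_idx L,
    fun T T' => prodR r (symmDiff T T'), ?_, ?_⟩, rfl, rfl, rfl⟩
  · intro T _ _
    rw [symmDiff_self]
    simp [prodR]
  · intro T T' T'' x hT hT' hT''
    obtain ⟨σ, hσ, hx⟩ := x.2.2.2
    have h1 : symmDiff T T' ⊆ σ := fun i hi => hx i (B4.abs_lt hT hT' hi)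
    have h2 : symmDiff T' T'' ⊆ σ := fun i hi => hx i (B4.abs_lt hT' hT'' hi)
    rw [prodR_mul r σ (fun i hi => hsq i (B4.mem_verts hσ hi)) (hcomm σ hσ) _ _ h1 h2]
    congr 1
    rw [symmDiff_assoc, ← symmDiff_assoc T' T' T'', symmDiff_self, bot_symmDiff]

/-- an affine simplex is constant in the coordinates in which its corners agree -/
theorem B4.affMap_agree {n : ℕ} (c : Fin (n + 1) → Finset ℕ) (i : ℕ)
    (h : ∀ k, i ∉ symmDiff (c 0) (c k)) (t : stdSimplex ℝ (Fin (n + 1))) :
    affMap c t i = corner (c 0) i := by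
  have hagree : ∀ k, corner (c k) i = corner (c 0) i := by
    intro k
    have h1 := h k
    rw [Finset.mem_symmDiff] at h1
    unfold corner
    by_cases hk : i ∈ c k <;> by_cases h0 : i ∈ c 0 <;> simp_all
  unfold affMap
  simp only [hagree]
  rw [← Finset.sum_mul]
  have hsum : ∑ k, t k = (1 : ℝ) := t.2.2
  rw [hsum, one_mul]

theorem isLift_aff (L : Finset (Finset ℕ)) (hf : FlagC L) (r : ℕ → G)
    (hsq : ∀ i ∈ verts L, r i * r i = 1)
    (hcomm : ∀ σ ∈ L, ∀ i ∈ σ, ∀ j ∈ σ, r i * r j = r j * r i)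
    (D : FlatData (RZ L) G (Finset ℕ)) (hU : D.U = chartU L) (hidx : D.idx = negSet L)
    (htr : D.tr = fun T T' => prodR r (symmDiff T T')) {n : ℕ}
    (c : Fin (n + 1) → Finset ℕ) (hc : Allowed L c) (a : SSimplex (RZ L) n)
    (ha : ∀ t, ((a t : RZ L) : ℕ → ℝ) = affMap c t) :
    D.IsLift a (fun t => prodR r (symmDiff (c 0) (negSet L (a t)))) ∧
    ∀ k, negSet L (a (vtx k)) = c k := by
  classical
  obtain ⟨hcv, σ, hσ, hcσ⟩ := hc
  have hout : ∀ (t : stdSimplex ℝ (Fin (n + 1))) (i : ℕ), i ∉ σ →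
      ((a t : RZ L) : ℕ → ℝ) i = corner (c 0) i := by
    intro t i hi
    rw [ha t]
    exact B4.affMap_agree c i (fun k hk => hi (hcσ 0 k hk)) t
  -- the coordinates of absolute value less than one are in `σ`
  have hlt : ∀ (t : stdSimplex ℝ (Fin (n + 1))) (i : ℕ),
      |((a t : RZ L) : ℕ → ℝ) i| < 1 → i ∈ σ := by
    intro t i hi
    by_contra hiσ
    rw [hout t i hiσ] at hi
    unfold corner at hi
    split_ifs at hi <;> simp at hi
  have hc0 : ∀ t : stdSimplex ℝ (Fin (n + 1)), symmDiff (c 0) (negSet L (a t)) ⊆ σ := by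
    intro t i hi
    by_contra hiσ
    have h1 := hout t i hiσ
    rw [Finset.mem_symmDiff] at hi
    rcases hi with ⟨h2, h3⟩ | ⟨h2, h3⟩
    · apply h3
      rw [B4.mem_negSet]
      refine ⟨hcv 0 h2, ?_⟩
      rw [h1]
      unfold corner
      rw [if_pos h2]
      norm_num
    · have h4 := (B4.mem_negSet.1 h2).2
      rw [h1] at h4
      unfold corner at h4
      rw [if_neg h3] at h4
      linarith
  have hsqσ : ∀ i ∈ σ, r i * r i = 1 := fun i hi => hsq i (B4.mem_verts hσ hi)
  have hval : ∀ (t : stdSimplex ℝ (Fin (n + 1))) (j : Finset ℕ), a t ∈ chartU L j →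
      prodR r (symmDiff (c 0) (negSet L (a t))) * prodR r (symmDiff (negSet L (a t)) j) =
        prodR r (symmDiff (c 0) j) := by
    intro t j hj
    have h1 : symmDiff (negSet L (a t)) j ⊆ σ := fun i hi =>
      hlt t i (B4.abs_lt (B4.mem_idx L (a t)) hj hi)
    rw [prodR_mul r σ hsqσ (hcomm σ hσ) _ _ (hc0 t) h1]
    congr 1
    rw [symmDiff_assoc, ← symmDiff_assoc (negSet L (a t)), symmDiff_self, bot_symmDiff]
  constructor
  · intro t j hj
    have hopen : IsOpen (a ⁻¹' D.U j) := (D.isOpen_U j).preimage a.continuous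
    filter_upwards [hopen.mem_nhds hj] with b hb
    rw [Set.mem_preimage, hU] at hb
    rw [hU] at hj
    rw [htr, hidx]
    simp only
    rw [hval b j hb, hval t j hj]
  · intro k
    have hx : ∀ i, ((a (vtx k) : RZ L) : ℕ → ℝ) i = corner (c k) i := by
      intro i
      rw [ha]
      unfold affMap
      rw [Finset.sum_eq_single k]
      · simp [vtx]
      · intro l _ hl
        simp [vtx, hl]
      · intro h
        exact absurd (Finset.mem_univ k) h
    ext i
    rw [B4.mem_negSet, hx]
    unfold corner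
    constructor
    · rintro ⟨_, h⟩
      by_contra hi
      rw [if_neg hi] at h
      linarith
    · intro hi
      rw [if_pos hi]
      exact ⟨hcv k hi, by norm_num⟩

end B

end MP8a95ee

end

section

/-!
Item B5: the explicit chain `zchain` is a cycle.
-/

namespace MP8a95ee.B5

theorem o_eq_zero {L : Finset (Finset ℕ)} {n : ℕ} {o : (Fin n → ℕ) → ℤ} (ho : IsOrient L n o)
    {s : Fin n → ℕ} (hs : ¬ Function.Injective s) : o s = 0 := by
  simp only [Function.Injective] at hs
  push Not at hs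
  obtain ⟨i, j, hij, hne⟩ := hs
  have h := ho.1 s i j hne
  have h2 : s ∘ Equiv.swap i j = s := by
    funext k
    simp only [Function.comp]
    by_cases hk : k = i
    · subst hk
      rw [Equiv.swap_apply_left]
      exact hij.symm
    · by_cases hk' : k = j
      · subst hk'
        rw [Equiv.swap_apply_right]
        exact hij
      · rw [Equiv.swap_apply_of_ne_of_ne hk hk']
  rw [h2] at h
  omega

theorem flips_succ {n : ℕ} (T : Finset ℕ) (s : Fin (n + 1) → ℕ) (hs : Function.Injective s)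
    (k : Fin (n + 1)) :
    flips T s k.succ = flips (symmDiff T {s 0}) (Fin.tail s) k := by
  unfold flips
  rw [symmDiff_assoc]
  congr 1
  ext x
  simp only [Finset.mem_image, Finset.mem_filter, Finset.mem_univ, true_and,
    Finset.mem_symmDiff, Finset.mem_singleton, Fin.val_succ, Fin.tail]
  rw [Fin.exists_fin_succ]
  constructor
  · rintro (⟨_, h⟩ | ⟨j, hj, h⟩)
    · left
      refine ⟨h.symm, ?_⟩
      rintro ⟨j, _, h'⟩
      have := hs (h'.trans h.symm)
      exact Fin.succ_ne_zero j this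
    · right
      refine ⟨⟨j, ?_, h⟩, ?_⟩
      · rw [Fin.val_succ] at hj
        omega
      · intro h'
        have := hs (h.trans h')
        exact Fin.succ_ne_zero j this
  · rintro (⟨h, _⟩ | ⟨⟨j, hj, h⟩, _⟩)
    · left
      refine ⟨?_, h.symm⟩
      simp
    · right
      refine ⟨j, ?_, h⟩
      rw [Fin.val_succ]
      omega

theorem flips_castSucc {n : ℕ} (T : Finset ℕ) (s : Fin (n + 1) → ℕ) (k : Fin (n + 1)) :
    flips T s k.castSucc = flips T (Fin.init s) k := by
  unfold flips
  congr 1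
  ext x
  simp only [Finset.mem_image, Finset.mem_filter, Finset.mem_univ, true_and,
    Fin.val_castSucc, Fin.init]
  constructor
  · rintro ⟨j, hj, h⟩
    have hjn : (j : ℕ) < n := by omega
    refine ⟨⟨j, hjn⟩, hj, ?_⟩
    rw [← h]
    congr 1
  · rintro ⟨j, hj, h⟩
    exact ⟨j.castSucc, hj, h⟩

theorem flips_swap {n : ℕ} (T : Finset ℕ) (s : Fin n → ℕ) (p q : Fin n)
    (hpq : (q : ℕ) = (p : ℕ) + 1) (k : Fin (n + 1)) (hk : (k : ℕ) ≠ (q : ℕ)) :
    flips T (s ∘ Equiv.swap p q) k = flips T s k := by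
  unfold flips
  congr 1
  have key : ∀ j : Fin n, ((Equiv.swap p q j : Fin n) : ℕ) < (k : ℕ) ↔ (j : ℕ) < (k : ℕ) := by
    intro j
    by_cases h1 : j = p
    · subst h1
      rw [Equiv.swap_apply_left]
      omega
    · by_cases h2 : j = q
      · subst h2
        rw [Equiv.swap_apply_right]
        omega
      · rw [Equiv.swap_apply_of_ne_of_ne h1 h2]
  ext x
  simp only [Finset.mem_image, Finset.mem_filter, Finset.mem_univ, true_and, Function.comp]
  constructor
  · rintro ⟨j, hj, h⟩
    exact ⟨Equiv.swap p q j, (key j).2 hj, h⟩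
  · rintro ⟨j, hj, h⟩
    refine ⟨Equiv.swap p q j, (key j).2 hj, ?_⟩
    rw [Equiv.swap_apply_self]
    exact h

section sums

variable {M : Type*} [AddCommGroup M] [Module ℝ M]

/-- reindexing of the corner -/
theorem sum_shift (V : Finset ℕ) (x : ℕ) (hx : x ∈ V) (Ψ : Finset ℕ → M) :
    ∑ T ∈ V.powerset, ((-1 : ℝ) ^ T.card) • Ψ (symmDiff T {x}) =
      - ∑ T ∈ V.powerset, ((-1 : ℝ) ^ T.card) • Ψ T := by
  rw [← Finset.sum_neg_distrib]
  refine Finset.sum_bij' (fun T _ => symmDiff T {x}) (fun T _ => symmDiff T {x}) ?_ ?_ ?_ ?_ ?_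
  · intro T hT
    rw [Finset.mem_powerset] at hT ⊢
    intro y hy
    rw [Finset.mem_symmDiff, Finset.mem_singleton] at hy
    rcases hy with ⟨h, _⟩ | ⟨h, _⟩
    · exact hT h
    · rw [h]; exact hx
  · intro T hT
    rw [Finset.mem_powerset] at hT ⊢
    intro y hy
    rw [Finset.mem_symmDiff, Finset.mem_singleton] at hy
    rcases hy with ⟨h, _⟩ | ⟨h, _⟩
    · exact hT h
    · rw [h]; exact hx
  · intro T _
    exact symmDiff_symmDiff_cancel_right _ _
  · intro T _
    exact symmDiff_symmDiff_cancel_right _ _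
  · intro T _
    have hc : ((-1 : ℝ) ^ T.card) = - ((-1 : ℝ) ^ (symmDiff T {x}).card) := by
      by_cases hxT : x ∈ T
      · have h1 : symmDiff T {x} = T.erase x := by
          ext y
          rw [Finset.mem_symmDiff, Finset.mem_singleton, Finset.mem_erase]
          constructor
          · rintro (⟨h, h'⟩ | ⟨h, h'⟩)
            · exact ⟨h', h⟩
            · exact absurd (h ▸ hxT) h'
          · rintro ⟨h, h'⟩
            exact Or.inl ⟨h', h⟩
        rw [h1]
        have h2 : T.card = (T.erase x).card + 1 := (Finset.card_erase_add_one hxT).symm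
        rw [h2, pow_succ]
        ring
      · have h1 : symmDiff T {x} = insert x T := by
          ext y
          rw [Finset.mem_symmDiff, Finset.mem_singleton, Finset.mem_insert]
          constructor
          · rintro (⟨h, h'⟩ | ⟨h, h'⟩)
            · exact Or.inr h
            · exact Or.inl h
          · rintro (h | h)
            · exact Or.inr ⟨h, h ▸ hxT⟩
            · exact Or.inl ⟨h, fun h' => hxT (h' ▸ h)⟩
        rw [h1, Finset.card_insert_of_notMem hxT, pow_succ]
        ring
    rw [hc, neg_smul]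

variable {L : Finset (Finset ℕ)} {n : ℕ} {o : (Fin (n + 1) → ℕ) → ℤ}

theorem o_sum_cons (ho : IsOrient L (n + 1) o) (s : Fin n → ℕ) :
    ∑ x ∈ verts L, o (Fin.cons x s) = 0 := by
  have h := ho.2.2.2 (Fin.cons 0 s) 0
  simpa only [Fin.update_cons_zero] using h

theorem o_sum_snoc (ho : IsOrient L (n + 1) o) (s : Fin n → ℕ) :
    ∑ x ∈ verts L, o (Fin.snoc s x) = 0 := by
  have h := ho.2.2.2 (Fin.snoc s 0) (Fin.last n)
  simpa only [Fin.update_snoc_last] using h

omit [Module ℝ M] in
theorem sum_cons (V : Finset ℕ) (f : (Fin (n + 1) → ℕ) → M) :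
    ∑ s ∈ Fintype.piFinset (fun _ : Fin (n + 1) => V), f s =
      ∑ s ∈ Fintype.piFinset (fun _ : Fin n => V), ∑ x ∈ V, f (Fin.cons x s) := by
  rw [← Finset.sum_product']
  refine Finset.sum_bij' (fun s _ => (Fin.tail s, s 0)) (fun p _ => Fin.cons p.2 p.1)
    ?_ ?_ ?_ ?_ ?_
  · intro s hs
    rw [Fintype.mem_piFinset] at hs
    rw [Finset.mem_product, Fintype.mem_piFinset]
    exact ⟨fun j => hs j.succ, hs 0⟩
  · intro p hp
    rw [Finset.mem_product, Fintype.mem_piFinset] at hp
    rw [Fintype.mem_piFinset]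
    intro j
    refine Fin.cases ?_ ?_ j
    · exact hp.2
    · exact fun i => hp.1 i
  · intro s _
    exact Fin.cons_self_tail s
  · intro p _
    simp
  · intro s _
    simp

omit [Module ℝ M] in
theorem sum_snoc (V : Finset ℕ) (f : (Fin (n + 1) → ℕ) → M) :
    ∑ s ∈ Fintype.piFinset (fun _ : Fin (n + 1) => V), f s =
      ∑ s ∈ Fintype.piFinset (fun _ : Fin n => V), ∑ x ∈ V, f (Fin.snoc s x) := by
  rw [← Finset.sum_product']
  refine Finset.sum_bij' (fun s _ => (Fin.init s, s (Fin.last n)))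
    (fun p _ => Fin.snoc (α := fun _ => ℕ) p.1 p.2) ?_ ?_ ?_ ?_ ?_
  · intro s hs
    rw [Fintype.mem_piFinset] at hs
    rw [Finset.mem_product, Fintype.mem_piFinset]
    exact ⟨fun j => hs j.castSucc, hs (Fin.last n)⟩
  · intro p hp
    rw [Finset.mem_product, Fintype.mem_piFinset] at hp
    rw [Fintype.mem_piFinset]
    intro j
    refine Fin.lastCases ?_ ?_ j
    · rw [Fin.snoc_last]; exact hp.2
    · intro i
      rw [Fin.snoc_castSucc]; exact hp.1 i
  · intro s _
    exact Fin.snoc_init_self s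
  · intro p _
    simp
  · intro s _
    simp

/-- the face opposite to the first vertex -/
theorem case_zero (ho : IsOrient L (n + 1) o) (Φ : (Fin (n + 1) → Finset ℕ) → M) :
    ∑ T ∈ (verts L).powerset, ∑ s ∈ Fintype.piFinset (fun _ : Fin (n + 1) => verts L),
      ((-1 : ℝ) ^ T.card * (o s : ℝ)) • Φ (fun k => flips T s (Fin.succAbove 0 k)) = 0 := by
  have h1 : ∀ T : Finset ℕ, ∀ s : Fin (n + 1) → ℕ,
      ((-1 : ℝ) ^ T.card * (o s : ℝ)) • Φ (fun k => flips T s (Fin.succAbove 0 k)) =
      (o s : ℝ) • (((-1 : ℝ) ^ T.card) • Φ (flips (symmDiff T {s 0}) (Fin.tail s))) := by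
    intro T s
    rw [smul_smul, mul_comm]
    by_cases hs : Function.Injective s
    · congr 2
      funext k
      rw [Fin.zero_succAbove]
      exact flips_succ T s hs k
    · rw [o_eq_zero ho hs]
      simp
  simp_rw [h1]
  rw [Finset.sum_comm]
  simp_rw [← Finset.smul_sum]
  have h2 : ∀ s ∈ Fintype.piFinset (fun _ : Fin (n + 1) => verts L),
      (o s : ℝ) • ∑ T ∈ (verts L).powerset,
        ((-1 : ℝ) ^ T.card) • Φ (flips (symmDiff T {s 0}) (Fin.tail s)) =
      (o s : ℝ) • - ∑ T ∈ (verts L).powerset,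
        ((-1 : ℝ) ^ T.card) • Φ (flips T (Fin.tail s)) := by
    intro s hs
    rw [Fintype.mem_piFinset] at hs
    rw [sum_shift (verts L) (s 0) (hs 0) (fun T => Φ (flips T (Fin.tail s)))]
  rw [Finset.sum_congr rfl h2, sum_cons]
  refine Finset.sum_eq_zero fun s _ => ?_
  simp only [Fin.tail_cons]
  rw [← Finset.sum_smul]
  have := o_sum_cons ho s
  have h3 : ∑ x ∈ verts L, (o (Fin.cons x s) : ℝ) = 0 := by exact_mod_cast this
  rw [h3, zero_smul]

/-- the face opposite to the last vertex -/
theorem case_last (ho : IsOrient L (n + 1) o) (Φ : (Fin (n + 1) → Finset ℕ) → M) :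
    ∑ T ∈ (verts L).powerset, ∑ s ∈ Fintype.piFinset (fun _ : Fin (n + 1) => verts L),
      ((-1 : ℝ) ^ T.card * (o s : ℝ)) •
        Φ (fun k => flips T s (Fin.succAbove (Fin.last (n + 1)) k)) = 0 := by
  refine Finset.sum_eq_zero fun T _ => ?_
  have h1 : ∀ s : Fin (n + 1) → ℕ,
      (fun k => flips T s (Fin.succAbove (Fin.last (n + 1)) k)) = flips T (Fin.init s) := by
    intro s
    funext k
    rw [Fin.succAbove_last]
    exact flips_castSucc T s k
  simp_rw [h1]
  rw [sum_snoc]
  refine Finset.sum_eq_zero fun s _ => ?_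
  simp only [Fin.init_snoc]
  rw [← Finset.sum_smul, ← Finset.mul_sum]
  have := o_sum_snoc ho s
  have h3 : ∑ x ∈ verts L, (o (Fin.snoc s x) : ℝ) = 0 := by exact_mod_cast this
  rw [h3, mul_zero, zero_smul]

/-- the other faces -/
theorem case_mid (ho : IsOrient L (n + 1) o) (Φ : (Fin (n + 1) → Finset ℕ) → M)
    (i : Fin (n + 2)) (p q : Fin (n + 1)) (hpq : (q : ℕ) = (p : ℕ) + 1) (hi : (i : ℕ) = (q : ℕ)) :
    ∑ T ∈ (verts L).powerset, ∑ s ∈ Fintype.piFinset (fun _ : Fin (n + 1) => verts L),
      ((-1 : ℝ) ^ T.card * (o s : ℝ)) • Φ (fun k => flips T s (i.succAbove k)) = 0 := by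
  refine Finset.sum_eq_zero fun T _ => ?_
  have hne : p ≠ q := by
    intro h
    rw [h] at hpq
    omega
  have key : ∑ s ∈ Fintype.piFinset (fun _ : Fin (n + 1) => verts L),
      ((-1 : ℝ) ^ T.card * (o s : ℝ)) • Φ (fun k => flips T s (i.succAbove k)) =
      - ∑ s ∈ Fintype.piFinset (fun _ : Fin (n + 1) => verts L),
      ((-1 : ℝ) ^ T.card * (o s : ℝ)) • Φ (fun k => flips T s (i.succAbove k)) := by
    rw [← Finset.sum_neg_distrib]
    refine Finset.sum_bij' (fun s _ => s ∘ Equiv.swap p q) (fun s _ => s ∘ Equiv.swap p q)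
      ?_ ?_ ?_ ?_ ?_
    · intro s hs
      rw [Fintype.mem_piFinset] at hs ⊢
      exact fun j => hs _
    · intro s hs
      rw [Fintype.mem_piFinset] at hs ⊢
      exact fun j => hs _
    · intro s _
      funext j
      simp
    · intro s _
      funext j
      simp
    · intro s _
      have h1 : (fun k => flips T (s ∘ Equiv.swap p q) (i.succAbove k)) =
          fun k => flips T s (i.succAbove k) := by
        funext k
        refine flips_swap T s p q hpq _ ?_
        intro h
        exact Fin.succAbove_ne i k (Fin.ext (h.trans hi.symm))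
      rw [h1, ho.1 s p q hne, Int.cast_neg, mul_neg, neg_smul, neg_neg]
  have h2 : (2 : ℝ) • ∑ s ∈ Fintype.piFinset (fun _ : Fin (n + 1) => verts L),
      ((-1 : ℝ) ^ T.card * (o s : ℝ)) • Φ (fun k => flips T s (i.succAbove k)) = 0 := by
    rw [two_smul]
    nth_rewrite 1 [key]
    exact neg_add_cancel _
  exact (smul_eq_zero.1 h2).resolve_left two_ne_zero

theorem case_all (ho : IsOrient L (n + 1) o) (Φ : (Fin (n + 1) → Finset ℕ) → M)
    (i : Fin (n + 2)) :
    ∑ T ∈ (verts L).powerset, ∑ s ∈ Fintype.piFinset (fun _ : Fin (n + 1) => verts L),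
      ((-1 : ℝ) ^ T.card * (o s : ℝ)) • Φ (fun k => flips T s (i.succAbove k)) = 0 := by
  by_cases h0 : i = 0
  · subst h0
    exact case_zero ho Φ
  · by_cases hl : i = Fin.last (n + 1)
    · subst hl
      exact case_last ho Φ
    · have h0' : (i : ℕ) ≠ 0 := fun h => h0 (Fin.ext h)
      have hl' : (i : ℕ) ≠ n + 1 := fun h => hl (Fin.ext h)
      have hi := i.isLt
      exact case_mid ho Φ i ⟨(i : ℕ) - 1, by omega⟩ ⟨(i : ℕ), by omega⟩
        (by simp only; omega) rfl

end sums

/-! ### The boundary -/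

theorem bd_single {X : Type} [TopologicalSpace X] {n : ℕ} (σ : SSimplex X (n + 1)) (r : ℝ) :
    bd (Finsupp.single σ r) =
      ∑ i : Fin (n + 2), Finsupp.single (face σ i) ((-1 : ℝ) ^ (i : ℕ) * r) := by
  unfold bd
  rw [Finsupp.sum_single_index]
  simp

theorem bd_sum {X : Type} [TopologicalSpace X] {n : ℕ} {κ : Type*} (S : Finset κ)
    (f : κ → SChain X (n + 1)) : bd (∑ k ∈ S, f k) = ∑ k ∈ S, bd (f k) := by
  unfold bd
  rw [← Finsupp.sum_finsetSum_index]
  · intro σ
    simp
  · intro σ r r'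
    rw [← Finset.sum_add_distrib]
    refine Finset.sum_congr rfl fun i _ => ?_
    rw [mul_add, Finsupp.single_add]

theorem affMap_map {n : ℕ} (c : Fin (n + 2) → Finset ℕ) (i : Fin (n + 2))
    (t : stdSimplex ℝ (Fin (n + 1))) :
    affMap c (stdSimplex.map i.succAbove t) = affMap (fun k => c (i.succAbove k)) t := by
  funext x
  unfold affMap
  rw [stdSimplex.map_coe]
  simp_rw [FunOnFinite.linearMap_apply_apply, Finset.sum_mul]
  rw [← Finset.sum_fiberwise Finset.univ i.succAbove
    (fun j => t j * corner (c (i.succAbove j)) x)]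
  refine Finset.sum_congr rfl fun k _ => ?_
  refine Finset.sum_congr rfl fun j hj => ?_
  rw [(Finset.mem_filter.1 hj).2]

theorem face_eq (L : Finset (Finset ℕ)) {n : ℕ}
    (a : (Fin (n + 1 + 1) → Finset ℕ) → SSimplex (RZ L) (n + 1)) (ha : IsAff L a)
    (b : (Fin (n + 1) → Finset ℕ) → SSimplex (RZ L) n) (hb : IsAff L b)
    (c : Fin (n + 1 + 1) → Finset ℕ) (hc : Allowed L c) (i : Fin (n + 2)) :
    face (a c) i = b (fun k => c (i.succAbove k)) := by
  have hc' : Allowed L (fun k => c (i.succAbove k)) := by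
    refine ⟨fun k => hc.1 _, ?_⟩
    obtain ⟨σ, hσ, h⟩ := hc.2
    exact ⟨σ, hσ, fun j k => h _ _⟩
  refine ContinuousMap.ext fun t => ?_
  apply Subtype.ext
  rw [hb _ hc' t, ← affMap_map]
  exact ha c hc _

theorem flips_allowed (L : Finset (Finset ℕ)) {n : ℕ} (T : Finset ℕ)
    (hT : T ⊆ verts L) (s : Fin n → ℕ) (hs : Finset.univ.image s ∈ L) :
    Allowed L (flips T s) := by
  refine ⟨fun k x hx => ?_, Finset.univ.image s, hs, fun j k x hx => ?_⟩
  · unfold flips at hx
    rw [Finset.mem_symmDiff] at hx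
    rcases hx with ⟨h, _⟩ | ⟨h, _⟩
    · exact hT h
    · unfold verts
      rw [Finset.mem_biUnion]
      refine ⟨_, hs, ?_⟩
      rw [Finset.mem_image] at h
      obtain ⟨j, _, h⟩ := h
      exact Finset.mem_image.2 ⟨j, Finset.mem_univ _, h⟩
  · unfold flips at hx
    rw [symmDiff_comm T, symmDiff_assoc, symmDiff_symmDiff_cancel_left] at hx
    rw [Finset.mem_symmDiff] at hx
    rcases hx with ⟨h, _⟩ | ⟨h, _⟩ <;>
    · rw [Finset.mem_image] at h
      obtain ⟨j, _, h⟩ := h
      exact Finset.mem_image.2 ⟨j, Finset.mem_univ _, h⟩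

end MP8a95ee.B5

namespace MP8a95ee

theorem bd_zchain (L : Finset (Finset ℕ)) (hf : FlagC L) {n : ℕ}
    (a : (Fin (n + 1 + 1) → Finset ℕ) → SSimplex (RZ L) (n + 1)) (ha : IsAff L a)
    (o : (Fin (n + 1) → ℕ) → ℤ) (ho : IsOrient L (n + 1) o) :
    bd (zchain L a o) = 0 := by
  obtain ⟨b, hb⟩ := exists_aff L hf n
  unfold zchain
  rw [B5.bd_sum]
  simp_rw [B5.bd_sum, B5.bd_single]
  have h : ∀ T ∈ (verts L).powerset, ∀ s : Fin (n + 1) → ℕ, ∀ i : Fin (n + 2),
      Finsupp.single (face (a (flips T s)) i)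
        ((-1 : ℝ) ^ (i : ℕ) * ((-1 : ℝ) ^ T.card * (o s : ℝ))) =
      ((-1 : ℝ) ^ (i : ℕ)) • (((-1 : ℝ) ^ T.card * (o s : ℝ)) •
        (Finsupp.single (b (fun k => flips T s (i.succAbove k))) (1 : ℝ))) := by
    intro T hT s i
    rw [Finsupp.smul_single, Finsupp.smul_single, smul_eq_mul, smul_eq_mul, mul_one]
    by_cases h0 : o s = 0
    · rw [h0]
      simp
    · rw [B5.face_eq L a ha b hb _
        (B5.flips_allowed L T (Finset.mem_powerset.1 hT) s (ho.2.1 s h0)) i]
  have h' : ∑ T ∈ (verts L).powerset, ∑ s ∈ Fintype.piFinset (fun _ : Fin (n + 1) => verts L),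
      ∑ i : Fin (n + 2), Finsupp.single (face (a (flips T s)) i)
        ((-1 : ℝ) ^ (i : ℕ) * ((-1 : ℝ) ^ T.card * (o s : ℝ))) =
      ∑ i : Fin (n + 2), ((-1 : ℝ) ^ (i : ℕ)) • ∑ T ∈ (verts L).powerset,
        ∑ s ∈ Fintype.piFinset (fun _ : Fin (n + 1) => verts L),
        ((-1 : ℝ) ^ T.card * (o s : ℝ)) •
        (Finsupp.single (b (fun k => flips T s (i.succAbove k))) (1 : ℝ)) := by
    rw [Finset.sum_congr rfl fun T hT => Finset.sum_congr rfl fun s _ =>
      Finset.sum_congr rfl fun i _ => h T hT s i]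
    rw [Finset.sum_congr rfl fun T _ => Finset.sum_comm]
    rw [Finset.sum_comm]
    refine Finset.sum_congr rfl fun i _ => ?_
    rw [Finset.smul_sum]
    refine Finset.sum_congr rfl fun T _ => ?_
    rw [Finset.smul_sum]
  rw [h']
  refine Finset.sum_eq_zero fun i _ => ?_
  rw [B5.case_all ho (fun c => Finsupp.single (b c) (1 : ℝ)) i, smul_zero]

end MP8a95ee

end
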