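import Pool.Agent.Work.MP_8a95ee_gt.Eu.Stmts

/-! Bundle of small proof modules (one section per former module). -/

section

namespace MP8a95ee.Eu

open Classical

theorem prfDG1 : S_DG1 := by
  intro n y
  funext k
  have h0 : Matrix.det (Matrix.of fun i : Fin (n + 1) =>
      (Fin.cons (y i k) (y i) : Fin (n + 1) → ℝ)) = 0 := by
    apply Matrix.det_zero_of_column_eq (i := 0) (j := k.succ) (Fin.succ_ne_zero k).symm
    intro i
    simp
  rw [Matrix.det_succ_column_zero] at h0
  rw [Finset.sum_apply]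
  simp only [Pi.smul_apply, smul_eq_mul, Pi.zero_apply]
  rw [← h0]
  refine Finset.sum_congr rfl fun i _ => ?_
  simp only [Matrix.of_apply, Fin.cons_zero]
  have : (Matrix.of fun i : Fin (n + 1) =>
      (Fin.cons (y i k) (y i) : Fin (n + 1) → ℝ)).submatrix i.succAbove Fin.succ
      = fun j : Fin n => y (i.succAbove j) := by
    ext a b
    simp [Matrix.submatrix_apply]
  rw [this]
  ring

end MP8a95ee.Eu

end

section

/-!
# DG4: existence of generic points
-/

namespace MP8a95ee

namespace Eu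

open Classical

namespace DG4

/-- The span of fewer than `n` vectors is not everything. -/
theorem span_ne_top {n : ℕ} (hn : 0 < n) (A : Finset (Fin n → ℝ)) (hA : A.card ≤ n - 1) :
    Submodule.span ℝ (A : Set (Fin n → ℝ)) ≠ ⊤ := by
  intro h
  have h1 : Module.finrank ℝ (Submodule.span ℝ (A : Set (Fin n → ℝ))) ≤ A.card :=
    finrank_span_finset_le_card A
  rw [h, finrank_top, Module.finrank_fin_fun] at h1
  omega

end DG4

theorem prfDG4 : S_DG4 := by
  intro n F _ _ hn S
  set P : Finset (Finset (Fin n → ℝ)) :=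
    ((S.image Prod.fst).powerset).filter (fun A => A.card ≤ n - 1) with hP
  set T : Finset (Submodule ℝ (Fin n → ℝ)) :=
    P.image (fun A : Finset (Fin n → ℝ) => Submodule.span ℝ (A : Set (Fin n → ℝ))) with hT
  have htop : (⊤ : Submodule ℝ (Fin n → ℝ)) ∉ T := by
    intro h
    rw [hT, Finset.mem_image] at h
    obtain ⟨A, hA, hAt⟩ := h
    rw [hP, Finset.mem_filter] at hA
    exact DG4.span_ne_top hn A hA.2 hAt
  have hne := Subspace.biUnion_ne_univ_of_top_notMem htop
  obtain ⟨p, hp⟩ := (Set.ne_univ_iff_exists_notMem _).1 hne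
  refine ⟨p, ?_⟩
  intro l hl hlS i hmem
  apply hp
  set A : Finset (Fin n → ℝ) :=
    (Finset.univ.erase i).image (fun j : Fin n => (l.getD j 0).1) with hA
  have hcoe : (A : Set (Fin n → ℝ)) = (fun j : Fin n => (l.getD j 0).1) '' {j | j ≠ i} := by
    rw [hA, Finset.coe_image]
    congr 1
    ext j
    simp
  have hAP : A ∈ P := by
    rw [hP, Finset.mem_filter, Finset.mem_powerset]
    constructor
    · intro x hx
      rw [hA, Finset.mem_image] at hx
      obtain ⟨j, -, rfl⟩ := hx
      rw [Finset.mem_image]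
      refine ⟨l.getD j 0, hlS _ ?_, rfl⟩
      have hj : (j : ℕ) < l.length := by rw [hl]; exact j.2
      rw [List.getD_eq_getElem _ _ hj]
      exact List.getElem_mem hj
    · refine le_trans Finset.card_image_le ?_
      rw [Finset.card_erase_of_mem (Finset.mem_univ i), Finset.card_univ, Fintype.card_fin]
  rw [Set.mem_iUnion₂]
  refine ⟨Submodule.span ℝ (A : Set (Fin n → ℝ)), ?_, ?_⟩
  · rw [hT, Finset.mem_image]
    exact ⟨A, hAP, rfl⟩
  · rw [hcoe]
    exact hmem

end Eu

end MP8a95ee

end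

section

/-!
# DG5: the degree of cycles
-/

namespace MP8a95ee

namespace Eu

open Classical

namespace DG5

section

variable {n : ℕ} {F : Type} [NormedAddCommGroup F] [InnerProductSpace ℝ F]

/-- The set of all entries of the lists in the support. -/
noncomputable def ent (z : List (E n F) →₀ ℝ) : Finset (E n F) :=
  z.support.biUnion fun l => l.toFinset

theorem mem_ent {z : List (E n F) →₀ ℝ} {l : List (E n F)} (hl : l ∈ z.support) {x : E n F}
    (hx : x ∈ l) : x ∈ ent z := by
  unfold ent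
  rw [Finset.mem_biUnion]
  exact ⟨l, hl, List.mem_toFinset.2 hx⟩

theorem posL_sub {l l' : List (E n F)} (h : PosL l) (hs : ∀ x ∈ l', x ∈ l) : PosL l' := by
  intro w hw
  exact h w (convexHull_mono (fun x hx => hs x hx) hw)

theorem D_le (p : Fin n → ℝ) (l : List (E n F)) : |D p l| ≤ 1 := by
  unfold D
  split_ifs with h
  · rcases SignType.trichotomy (SignType.sign (mat l).det) with h1 | h1 | h1 <;> rw [h1] <;> simp
  · simp

theorem mem_support_lin {R : Type} [CommRing R] {α : Type} (f : List α → (List α →₀ R))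
    (w : List α →₀ R) {l : List α} (hl : l ∈ (Finsupp.linearCombination R f w).support) :
    ∃ l0 ∈ w.support, l ∈ (f l0).support := by
  by_contra hcon
  push Not at hcon
  rw [Finsupp.mem_support_iff] at hl
  apply hl
  rw [Finsupp.linearCombination_apply, Finsupp.sum, Finsupp.finsetSum_apply]
  apply Finset.sum_eq_zero
  intro l0 h0
  have h2 := hcon l0 h0
  rw [Finsupp.notMem_support_iff] at h2
  rw [Finsupp.smul_apply, h2, smul_zero]

theorem zc_bd (h1 : S_LC1) (w : List (E n F) →₀ ℝ) (hw : PosC (n + 1) w) : Zc (bd ℝ w) := by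
  obtain ⟨-, h12, -, h14, -⟩ := h1 ℝ (E n F) (E n F)
  refine ⟨?_, h12 w⟩
  intro l hl
  obtain ⟨l0, h0, h0'⟩ := mem_support_lin (faces ℝ) w hl
  obtain ⟨h2, h3⟩ := h14 l0 l h0'
  have h4 := hw l0 h0
  refine ⟨by omega, posL_sub h4.2 fun x hx => h3.subset hx⟩

theorem mem_bd (h1 : S_LC1) (w : List (E n F) →₀ ℝ) {l : List (E n F)}
    (hl : l ∈ (bd ℝ w).support) : ∀ x ∈ l, x ∈ ent w := by
  obtain ⟨-, -, -, h14, -⟩ := h1 ℝ (E n F) (E n F)
  obtain ⟨l0, h0, h0'⟩ := mem_support_lin (faces ℝ) w hl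
  obtain ⟨-, h3⟩ := h14 l0 l h0'
  intro x hx
  exact mem_ent h0 (h3.subset hx)

theorem zc_add {z z' : List (E n F) →₀ ℝ} (hz : Zc z) (hz' : Zc z') : Zc (z + z') := by
  refine ⟨?_, ?_⟩
  · intro l hl
    have := Finsupp.support_add hl
    rw [Finset.mem_union] at this
    rcases this with h | h
    · exact hz.1 l h
    · exact hz'.1 l h
  · rw [map_add, hz.2, hz'.2, add_zero]

theorem zc_smul (c : ℝ) {z : List (E n F) →₀ ℝ} (hz : Zc z) : Zc (c • z) := by
  refine ⟨?_, ?_⟩
  · intro l hl
    exact hz.1 l (Finsupp.support_smul hl)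
  · rw [map_smul, hz.2, smul_zero]

/-- A generic point for the entries of a chain. -/
noncomputable def pt (h4 : S_DG4) (hn : 0 < n) (z : List (E n F) →₀ ℝ) : Fin n → ℝ :=
  Classical.choose (h4 n F hn (ent z))

theorem pt_spec (h4 : S_DG4) (hn : 0 < n) (z : List (E n F) →₀ ℝ) (l : List (E n F))
    (hl : l.length = n) (hx : ∀ x ∈ l, x ∈ ent z) : Gen (pt h4 hn z) l :=
  Classical.choose_spec (h4 n F hn (ent z)) l hl hx

theorem pt_gen (h4 : S_DG4) (hn : 0 < n) (z : List (E n F) →₀ ℝ) (hz : Zc z) :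
    ∀ l ∈ z.support, Gen (pt h4 hn z) l := by
  intro l hl
  exact pt_spec h4 hn z l (hz.1 l hl).1 fun x hx => mem_ent hl hx

/-- The degree. -/
noncomputable def dg (h4 : S_DG4) (hn : 0 < n) (z : List (E n F) →₀ ℝ) : ℝ :=
  if Zc z then z.sum fun l a => a * D (pt h4 hn z) l else 0

theorem dg_formula (h3 : S_DG3) (h4 : S_DG4) (hn : 0 < n) (z : List (E n F) →₀ ℝ) (hz : Zc z)
    (p : Fin n → ℝ) (hp : ∀ l ∈ z.support, Gen p l) :
    dg h4 hn z = z.sum fun l a => a * D p l := by
  unfold dg
  rw [if_pos hz]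
  exact (h3 n F hn).1 z hz _ _ (pt_gen h4 hn z hz) hp

end

end DG5

open DG5 in
theorem prfDG5 (h1 : S_LC1) (h3 : S_DG3) (h4 : S_DG4) : S_DG5 := by
  intro n F _ _ hn
  refine ⟨dg h4 hn, dg_formula h3 h4 hn, ?_, ?_, ?_, ?_⟩
  · intro w hw
    have hz := zc_bd h1 w hw
    rw [dg_formula h3 h4 hn (bd ℝ w) hz (pt h4 hn w) ?_]
    · apply (h3 n F hn).2 w hw
      intro l hl l' hl' hx
      exact pt_spec h4 hn w l' hl' fun x h => mem_ent hl (hx x h)
    · intro l hl
      exact pt_spec h4 hn w l (hz.1 l hl).1 (mem_bd h1 w hl)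
  · intro z z' hz hz'
    obtain ⟨p, hp⟩ := h4 n F hn (ent z ∪ ent z')
    have hg : ∀ l ∈ z.support, Gen p l := fun l hl =>
      hp l (hz.1 l hl).1 fun x hx => Finset.mem_union_left _ (mem_ent hl hx)
    have hg' : ∀ l ∈ z'.support, Gen p l := fun l hl =>
      hp l (hz'.1 l hl).1 fun x hx => Finset.mem_union_right _ (mem_ent hl hx)
    have hg'' : ∀ l ∈ (z + z').support, Gen p l := by
      intro l hl
      have := Finsupp.support_add hl
      rw [Finset.mem_union] at this
      rcases this with h | h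
      · exact hg l h
      · exact hg' l h
    rw [dg_formula h3 h4 hn z hz p hg, dg_formula h3 h4 hn z' hz' p hg',
      dg_formula h3 h4 hn (z + z') (zc_add hz hz') p hg'']
    rw [Finsupp.sum_add_index']
    · intro l
      rw [zero_mul]
    · intro l a b
      rw [add_mul]
  · intro c z hz
    have hg := pt_gen h4 hn z hz
    rw [dg_formula h3 h4 hn z hz _ hg,
      dg_formula h3 h4 hn (c • z) (zc_smul c hz) (pt h4 hn z)
        (fun l hl => hg l (Finsupp.support_smul hl))]
    rw [Finsupp.sum_smul_index' (fun l => by rw [zero_mul]), Finsupp.sum, Finsupp.sum,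
      Finset.mul_sum]
    apply Finset.sum_congr rfl
    intro l _
    rw [smul_eq_mul, mul_assoc]
  · intro z hz
    rw [dg_formula h3 h4 hn z hz _ (pt_gen h4 hn z hz), Finsupp.sum, Finsupp.sum]
    refine le_trans (Finset.abs_sum_le_sum_abs _ _) ?_
    apply Finset.sum_le_sum
    intro l _
    rw [abs_mul]
    calc |z l| * |D (pt h4 hn z) l| ≤ |z l| * 1 :=
          mul_le_mul_of_nonneg_left (D_le _ _) (abs_nonneg _)
      _ = |z l| := mul_one _

end Eu

end MP8a95ee

end

section

namespace MP8a95ee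

namespace Eu

open Classical

namespace HO

theorem lin_single {M : Type} [AddCommGroup M] [Module ℝ M] {α : Type} (f : List α → M)
    (l : List α) : lin ℝ f (Finsupp.single l 1) = f l := by
  simp [lin]

theorem bd_single {α : Type} (l : List α) :
    bd ℝ (Finsupp.single l (1 : ℝ)) = faces ℝ l := by
  simp [bd]

theorem mapm_single {α β : Type} (f : α → β) (l : List α) :
    mapm ℝ f (Finsupp.single l (1 : ℝ)) = Finsupp.single (l.map f) 1 := by
  simp [mapm]

theorem prism {α β : Type} (γ γ' : α → β) (P : List α → (List β →₀ ℝ))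
    (h : ∀ l, bd ℝ (P l) + lin ℝ P (faces ℝ l) =
      Finsupp.single (l.map γ') 1 - Finsupp.single (l.map γ) 1) (z : List α →₀ ℝ) :
    bd ℝ (lin ℝ P z) + lin ℝ P (bd ℝ z) = mapm ℝ γ' z - mapm ℝ γ z := by
  have key : (bd ℝ).comp (lin ℝ P) + (lin ℝ P).comp (bd ℝ) = mapm ℝ γ' - mapm ℝ γ := by
    apply Finsupp.lhom_ext'
    intro l
    apply LinearMap.ext_ring
    simp only [LinearMap.comp_apply, LinearMap.add_apply, LinearMap.sub_apply,
      Finsupp.lsingle_apply]
    rw [lin_single, bd_single, mapm_single, mapm_single]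
    exact h l
  have := congrArg (fun f => f z) key
  simpa using this

theorem supp_lin {α β : Type} (P : List α → (List β →₀ ℝ)) (z : List α →₀ ℝ) (l' : List β)
    (h : l' ∈ (lin ℝ P z).support) : ∃ l ∈ z.support, l' ∈ (P l).support := by
  rw [lin, Finsupp.linearCombination_apply] at h
  have := Finsupp.support_sum h
  rw [Finset.mem_biUnion] at this
  obtain ⟨l, hl, hl'⟩ := this
  exact ⟨l, hl, Finsupp.support_smul hl'⟩

theorem supp_sum {α : Type} (K : ℕ) (f : ℕ → (List α →₀ ℝ)) (l : List α)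
    (h : l ∈ (∑ i ∈ Finset.range K, f i).support) : ∃ i < K, l ∈ (f i).support := by
  by_contra hc
  push Not at hc
  rw [Finsupp.mem_support_iff] at h
  apply h
  rw [Finsupp.finsetSum_apply]
  apply Finset.sum_eq_zero
  intro i hi
  have := hc i (Finset.mem_range.1 hi)
  rwa [Finsupp.notMem_support_iff] at this

theorem unif {ι : Type} (S : Finset ι) (Q : ι → ℝ → Prop)
    (h : ∀ i ∈ S, ∃ δ : ℝ, 0 < δ ∧ Q i δ) (hm : ∀ i δ δ', 0 < δ' → δ' ≤ δ → Q i δ → Q i δ') :
    ∃ δ : ℝ, 0 < δ ∧ ∀ i ∈ S, Q i δ := by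
  induction S using Finset.induction_on with
  | empty => exact ⟨1, one_pos, by simp⟩
  | insert a S haS ih =>
    obtain ⟨δ, h1, h2⟩ := ih (fun i hi => h i (Finset.mem_insert_of_mem hi))
    obtain ⟨δ', h1', h2'⟩ := h a (Finset.mem_insert_self _ _)
    refine ⟨min δ δ', lt_min h1 h1', ?_⟩
    intro i hi
    rcases Finset.mem_insert.1 hi with rfl | hi
    · exact hm _ _ _ (lt_min h1 h1') (min_le_right _ _) h2'
    · exact hm _ _ _ (lt_min h1 h1') (min_le_left _ _) (h2 i hi)

end HO

theorem prfHO (_h1 : S_LC1) (ha : S_HO1) (hb : S_HO2) : S_HO := by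
  intro n F _ _ d γ z hγ hz hbd
  obtain ⟨Pm, hPm⟩ := ha (E n F) (E n F)
  obtain ⟨δ, hδ, hδ2⟩ := HO.unif z.support (fun l δ => ∀ s ∈ Set.Icc (0 : ℝ) 1,
    ∀ s' ∈ Set.Icc (0 : ℝ) 1, |s - s'| ≤ δ → PosL (l.map (γ s) ++ l.map (γ s')))
    (fun l hl => hb n F γ l hγ (hz l hl).2)
    (fun l δ δ' _ h2 h s hs s' hs' hss => h s hs s' hs' (hss.trans h2))
  obtain ⟨K, hK⟩ := exists_nat_gt (1 / δ)
  have hK0 : (0 : ℝ) < K := lt_trans (by positivity) hK
  have hKδ : 1 / (K : ℝ) ≤ δ := by
    rw [div_le_iff₀ hK0]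
    rw [div_lt_iff₀ hδ] at hK
    linarith
  have hmem : ∀ i : ℕ, i ≤ K → ((i : ℝ) / K) ∈ Set.Icc (0 : ℝ) 1 := by
    intro i hi
    refine ⟨by positivity, ?_⟩
    rw [div_le_one hK0]
    exact_mod_cast hi
  refine ⟨∑ i ∈ Finset.range K, lin ℝ (Pm (γ ((i : ℝ) / K)) (γ (((i + 1 : ℕ) : ℝ) / K))) z,
    ?_, ?_⟩
  · intro l' hl'
    obtain ⟨i, hi, hl'⟩ := HO.supp_sum _ _ _ hl'
    obtain ⟨l, hl, hl'⟩ := HO.supp_lin _ _ _ hl'
    obtain ⟨h1, h2⟩ := (hPm (γ ((i : ℝ) / K)) (γ (((i + 1 : ℕ) : ℝ) / K)) l).2 l' hl'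
    refine ⟨by rw [h1, (hz l hl).1], ?_⟩
    have h3 := hδ2 l hl ((i : ℝ) / K) (hmem i hi.le) (((i + 1 : ℕ) : ℝ) / K) (hmem (i + 1) hi)
      (by
        have : (i : ℝ) / K - ((i + 1 : ℕ) : ℝ) / K = - (1 / K) := by
          push_cast
          ring
        rw [this, abs_neg, abs_of_pos (by positivity)]
        exact hKδ)
    intro w hw
    exact h3 w (convexHull_mono (fun x hx => h2 x hx) hw)
  · rw [map_sum]
    have h1 : ∀ i ∈ Finset.range K,
        bd ℝ (lin ℝ (Pm (γ ((i : ℝ) / K)) (γ (((i + 1 : ℕ) : ℝ) / K))) z) =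
        mapm ℝ (γ (((i + 1 : ℕ) : ℝ) / K)) z - mapm ℝ (γ ((i : ℝ) / K)) z := by
      intro i _
      have := HO.prism (γ ((i : ℝ) / K)) (γ (((i + 1 : ℕ) : ℝ) / K)) _
        (fun l => (hPm (γ ((i : ℝ) / K)) (γ (((i + 1 : ℕ) : ℝ) / K)) l).1) z
      rw [hbd, map_zero, add_zero] at this
      exact this
    rw [Finset.sum_congr rfl h1, Finset.sum_range_sub (fun i : ℕ => mapm ℝ (γ ((i : ℝ) / K)) z)]
    rw [div_self hK0.ne', Nat.cast_zero, zero_div]

end Eu

end MP8a95ee

end

section

/-!
# HO2: uniformity of positivity along a path of maps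
-/

namespace MP8a95ee.Eu

open Classical

namespace HO2

variable {n : ℕ} {F : Type} [NormedAddCommGroup F] [InnerProductSpace ℝ F]

theorem B_cont : Continuous fun w : E n F => B w w := by
  unfold B
  have h1 : Continuous fun w : E n F => w.1 ⬝ᵥ w.1 := by
    unfold dotProduct
    fun_prop
  have h2 : Continuous fun w : E n F => inner ℝ w.2 w.2 := by fun_prop
  exact h1.sub h2

/-- points of the convex hull of a finite family -/
theorem hull_range {ι : Type} [Fintype ι] (v : ι → E n F) {w : E n F}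
    (h : w ∈ convexHull ℝ (Set.range v)) : ∃ t ∈ stdSimplex ℝ ι, w = ∑ i, t i • v i := by
  have h1 : convexHull ℝ (Set.range v) ⊆ (fun t : ι → ℝ => ∑ i, t i • v i) '' stdSimplex ℝ ι := by
    refine convexHull_min ?_ ?_
    · rintro _ ⟨i, rfl⟩
      refine ⟨Pi.single i 1, single_mem_stdSimplex ℝ i, ?_⟩
      simp [Pi.single_apply, ite_smul]
    · have : IsLinearMap ℝ (fun t : ι → ℝ => ∑ i, t i • v i) := by
        refine ⟨fun x y => ?_, fun c x => ?_⟩
        · simp [add_smul, Finset.sum_add_distrib]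
        · simp [Finset.smul_sum, mul_smul]
      exact (convex_stdSimplex ℝ ι).is_linear_image this
  obtain ⟨t, ht, hw⟩ := h1 h
  exact ⟨t, ht, hw.symm⟩

end HO2

open HO2 in
theorem prfHO2 : S_HO2 := by
  intro n F _ _ γ l hc hp
  set d := l.length with hd
  let v : ℝ × ℝ → Fin d ⊕ Fin d → E n F := fun p i =>
    Sum.elim (fun i : Fin d => γ p.1 (l.get i)) (fun i : Fin d => γ p.2 (l.get i)) i
  have hset : ∀ s s' : ℝ, {x | x ∈ l.map (γ s) ++ l.map (γ s')} = Set.range (v (s, s')) := by
    intro s s'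
    ext x
    simp only [Set.mem_ofPred_eq, List.mem_append, List.mem_map, Set.mem_range, Sum.exists,
      Sum.elim_inl, Sum.elim_inr, v]
    constructor
    · rintro (⟨a, ha, rfl⟩ | ⟨a, ha, rfl⟩)
      · obtain ⟨i, rfl⟩ := List.get_of_mem ha
        exact Or.inl ⟨i, rfl⟩
      · obtain ⟨i, rfl⟩ := List.get_of_mem ha
        exact Or.inr ⟨i, rfl⟩
    · rintro (⟨i, rfl⟩ | ⟨i, rfl⟩)
      · exact Or.inl ⟨_, List.get_mem l i, rfl⟩
      · exact Or.inr ⟨_, List.get_mem l i, rfl⟩
  let f : (ℝ × ℝ) × (Fin d ⊕ Fin d → ℝ) → ℝ := fun p =>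
    B (∑ i, p.2 i • v p.1 i) (∑ i, p.2 i • v p.1 i)
  let K : Set ((ℝ × ℝ) × (Fin d ⊕ Fin d → ℝ)) :=
    (Set.Icc 0 1 ×ˢ Set.Icc 0 1) ×ˢ stdSimplex ℝ (Fin d ⊕ Fin d)
  have hK : IsCompact K := (isCompact_Icc.prod isCompact_Icc).prod (isCompact_stdSimplex ℝ _)
  have hv : ∀ i, ContinuousOn (fun p : (ℝ × ℝ) × (Fin d ⊕ Fin d → ℝ) => v p.1 i) K := by
    rintro (i | i)
    · refine (hc (l.get i)).comp (f := fun p : (ℝ × ℝ) × (Fin d ⊕ Fin d → ℝ) => p.1.1)
        (by fun_prop) ?_
      rintro p hp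
      exact hp.1.1
    · refine (hc (l.get i)).comp (f := fun p : (ℝ × ℝ) × (Fin d ⊕ Fin d → ℝ) => p.1.2)
        (by fun_prop) ?_
      rintro p hp
      exact hp.1.2
  have hf : ContinuousOn f K := by
    have h1 : ContinuousOn (fun p : (ℝ × ℝ) × (Fin d ⊕ Fin d → ℝ) => ∑ i, p.2 i • v p.1 i) K := by
      refine continuousOn_finsetSum _ fun i _ => ?_
      have h2 : ContinuousOn (fun p : (ℝ × ℝ) × (Fin d ⊕ Fin d → ℝ) => p.2 i) K := by fun_prop
      exact h2.smul (hv i)
    exact B_cont.comp_continuousOn h1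
  have hK0 : IsCompact (K ∩ f ⁻¹' Set.Iic 0) :=
    hK.of_isClosed_subset (hf.preimage_isClosed_of_isClosed hK.isClosed isClosed_Iic)
      Set.inter_subset_left
  have key : ∀ s ∈ Set.Icc (0:ℝ) 1, ∀ s' ∈ Set.Icc (0:ℝ) 1,
      (∀ t ∈ stdSimplex ℝ (Fin d ⊕ Fin d), 0 < f ((s, s'), t)) →
      PosL (l.map (γ s) ++ l.map (γ s')) := by
    intro s hs s' hs' h w hw
    rw [hset] at hw
    obtain ⟨t, ht, rfl⟩ := hull_range _ hw
    exact h t ht
  rcases (K ∩ f ⁻¹' Set.Iic 0).eq_empty_or_nonempty with he | hne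
  · refine ⟨1, one_pos, fun s hs s' hs' _ => key s hs s' hs' fun t ht => ?_⟩
    by_contra hcon
    have : ((s, s'), t) ∈ K ∩ f ⁻¹' Set.Iic 0 := ⟨⟨⟨hs, hs'⟩, ht⟩, not_lt.1 hcon⟩
    rw [he] at this
    exact this
  · obtain ⟨p0, hp0, hmin⟩ := hK0.exists_isMinOn hne
      (f := fun p : (ℝ × ℝ) × (Fin d ⊕ Fin d → ℝ) => |p.1.1 - p.1.2|) (by fun_prop)
    have hpos : 0 < |p0.1.1 - p0.1.2| := by
      by_contra hcon
      have h0 : p0.1.1 = p0.1.2 := by
        have := le_antisymm (not_lt.1 hcon) (abs_nonneg _)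
        exact sub_eq_zero.1 (abs_eq_zero.1 this)
      have h1 : 0 < f p0 := by
        refine hp p0.1.1 hp0.1.1.1 _ ?_
        have h2 : Convex ℝ (convexHull ℝ {x | x ∈ l.map (γ p0.1.1)}) := convex_convexHull _ _
        refine h2.sum_mem (fun i _ => hp0.1.2.1 i) hp0.1.2.2 fun i _ => subset_convexHull _ _ ?_
        rcases i with i | i
        · exact List.mem_map.2 ⟨_, List.get_mem l i, rfl⟩
        · refine List.mem_map.2 ⟨_, List.get_mem l i, ?_⟩
          simp only [v, Sum.elim_inr, h0]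
      exact absurd hp0.2 (not_le.2 h1)
    refine ⟨|p0.1.1 - p0.1.2| / 2, by positivity, fun s hs s' hs' hle => key s hs s' hs'
      fun t ht => ?_⟩
    by_contra hcon
    have h3 : ((s, s'), t) ∈ K ∩ f ⁻¹' Set.Iic 0 := ⟨⟨⟨hs, hs'⟩, ht⟩, not_lt.1 hcon⟩
    have h4 := hmin h3
    simp only [Set.mem_ofPred_eq] at h4
    linarith

end MP8a95ee.Eu

end

section

/-!
# LC1: list chains, boundary identities
-/

namespace MP8a95ee.Eu

open Classical

namespace LC1

variable (R : Type) [CommRing R] {α β : Type}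

theorem bd_single (l : List α) (r : R) : bd R (Finsupp.single l r) = r • faces R l := by
  simp [bd, Finsupp.linearCombination_single]

theorem consm_single (a : α) (l : List α) (r : R) :
    consm R a (Finsupp.single l r) = Finsupp.single (a :: l) r := by
  simp [consm, Finsupp.lmapDomain_apply, Finsupp.mapDomain_single]

theorem faces_cons (a : α) (l : List α) :
    faces R (a :: l) = Finsupp.single l 1 - consm R a (faces R l) := rfl

theorem bd_consm (a : α) (z : List α →₀ R) : bd R (consm R a z) = z - consm R a (bd R z) := by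
  induction z using Finsupp.induction_linear with
  | zero => simp
  | add f g hf hg => rw [map_add, map_add, map_add, map_add, hf, hg]; abel
  | single l r =>
    rw [consm_single, bd_single, bd_single, faces_cons, map_smul, smul_sub]
    simp

theorem bd_faces (l : List α) : bd R (faces R l) = 0 := by
  induction l with
  | nil => simp [faces]
  | cons a l ih => rw [faces_cons, map_sub, bd_single, bd_consm, ih]; simp

theorem bd_bd (z : List α →₀ R) : bd R (bd R z) = 0 := by
  induction z using Finsupp.induction_linear with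
  | zero => simp
  | add f g hf hg => rw [map_add, map_add, hf, hg, add_zero]
  | single l r => rw [bd_single, map_smul, bd_faces, smul_zero]

theorem mapm_single (f : α → β) (l : List α) (r : R) :
    mapm R f (Finsupp.single l r) = Finsupp.single (l.map f) r := by
  simp [mapm, Finsupp.lmapDomain_apply, Finsupp.mapDomain_single]

theorem mapm_consm (f : α → β) (a : α) (z : List α →₀ R) :
    mapm R f (consm R a z) = consm R (f a) (mapm R f z) := by
  induction z using Finsupp.induction_linear with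
  | zero => simp
  | add f g hf hg => simp only [map_add, hf, hg]
  | single l r => simp only [consm_single, mapm_single, List.map_cons]

theorem mapm_faces (f : α → β) (l : List α) : mapm R f (faces R l) = faces R (l.map f) := by
  induction l with
  | nil => simp [faces]
  | cons a l ih =>
    rw [faces_cons, map_sub, mapm_single, mapm_consm, ih, List.map_cons, faces_cons]

theorem bd_mapm (f : α → β) (z : List α →₀ R) : bd R (mapm R f z) = mapm R f (bd R z) := by
  induction z using Finsupp.induction_linear with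
  | zero => simp
  | add f g hf hg => simp only [map_add, hf, hg]
  | single l r => rw [mapm_single, bd_single, bd_single, map_smul, mapm_faces]

theorem supp_faces (l l' : List α) (h : l' ∈ (faces R l).support) :
    l'.length + 1 = l.length ∧ l'.Sublist l := by
  induction l generalizing l' with
  | nil => simp [faces] at h
  | cons a l ih =>
    rw [faces] at h
    have h1 := Finsupp.support_sub h
    rw [Finset.mem_union] at h1
    rcases h1 with h1 | h1
    · have h2 := Finsupp.support_single_subset h1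
      rw [Finset.mem_singleton] at h2
      subst h2
      exact ⟨rfl, List.sublist_cons_self a l'⟩
    · have h2 := Finsupp.mapDomain_support h1
      rw [Finset.mem_image] at h2
      obtain ⟨l'', h3, rfl⟩ := h2
      obtain ⟨h4, h5⟩ := ih l'' h3
      exact ⟨by simp [h4], h5.cons_cons a⟩

theorem faces_sum (l : List α) : faces R l = ∑ i ∈ Finset.range l.length,
    Finsupp.single (l.eraseIdx i) ((-1 : R) ^ i) := by
  induction l with
  | nil => simp [faces]
  | cons a l ih =>
    rw [faces_cons, List.length_cons, Finset.sum_range_succ', ih, map_sum]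
    simp only [consm_single, List.eraseIdx_cons_succ, List.eraseIdx_cons_zero, pow_zero, pow_succ,
      mul_neg, mul_one, Finsupp.single_neg, Finset.sum_neg_distrib]
    abel

end LC1

theorem prfLC1 : S_LC1 := fun R _ _ _ =>
  ⟨LC1.bd_consm R, LC1.bd_bd R, LC1.bd_mapm R, LC1.supp_faces R, LC1.faces_sum R⟩

end MP8a95ee.Eu

end

section

/-!
# List chains: evaluation lemmas (helper7)
-/

namespace MP8a95ee.Eu

open Classical

namespace LCBase

variable {α β : Type}

theorem mapCons_apply (b a : α) (w : List α →₀ ℤ) (l : List α) :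
    (Finsupp.mapDomain (List.cons b) w) (a :: l) = if a = b then w l else 0 := by
  split_ifs with h
  · subst h
    exact Finsupp.mapDomain_apply List.cons_injective w l
  · apply Finsupp.mapDomain_of_notMem_range
    rintro ⟨m, hm⟩
    exact h (List.cons.inj hm).1.symm

theorem mapCons_nil (b : α) (w : List α →₀ ℤ) :
    (Finsupp.mapDomain (List.cons b) w) [] = 0 := by
  apply Finsupp.mapDomain_of_notMem_range
  rintro ⟨m, hm⟩
  cases hm

theorem link_apply (x : α) (z : List α →₀ ℤ) (l : List α) : link ℤ x z l = z (x :: l) :=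
  Finsupp.comapDomain_apply _ _ _ _

theorem link_add (x : α) (z w : List α →₀ ℤ) :
    link ℤ x (z + w) = link ℤ x z + link ℤ x w := by
  ext l
  simp only [link_apply, Finsupp.add_apply]

theorem link_neg (x : α) (z : List α →₀ ℤ) : link ℤ x (-z) = - link ℤ x z := by
  ext l
  simp only [link_apply, Finsupp.neg_apply]

theorem link_zero (x : α) : link ℤ x (0 : List α →₀ ℤ) = 0 := by
  ext l
  simp only [link_apply, Finsupp.zero_apply]

theorem link_sum {ι : Type} (x : α) (s : Finset ι) (f : ι → (List α →₀ ℤ)) :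
    link ℤ x (∑ i ∈ s, f i) = ∑ i ∈ s, link ℤ x (f i) := by
  ext l
  simp only [link_apply, Finsupp.finsetSum_apply]

theorem ins_nil_apply (x : α) (l : List α) : (ins ℤ x l) [] = 0 := by
  cases l with
  | nil => simp [ins]
  | cons a l =>
    rw [ins, Finsupp.sub_apply, mapCons_nil]
    simp

theorem ins_cons_apply (x a : α) (m l : List α) :
    (ins ℤ x m) (a :: l) = (if a = x ∧ l = m then 1 else 0) -
      (match m with
        | [] => 0
        | b :: m' => if a = b then ins ℤ x m' l else 0) := by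
  cases m with
  | nil =>
    rw [ins, Finsupp.single_apply]
    by_cases h : a = x ∧ l = []
    · rw [if_pos h, if_pos (by rw [h.1, h.2])]
      simp
    · rw [if_neg h, if_neg]
      · simp
      · intro h'
        have := List.cons.inj h'
        exact h ⟨this.1.symm, this.2.symm⟩
  | cons b m' =>
    rw [ins, Finsupp.sub_apply, mapCons_apply, Finsupp.single_apply]
    congr 1
    by_cases h : a = x ∧ l = b :: m'
    · rw [if_pos h, if_pos (by rw [h.1, h.2])]
    · rw [if_neg h, if_neg]
      intro h'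
      have := List.cons.inj h'
      exact h ⟨this.1.symm, this.2.symm⟩

theorem cone_single (x : α) (m : List α) (c : ℤ) :
    cone ℤ x (Finsupp.single m c) = c • ins ℤ x m := by
  unfold cone
  rw [Finsupp.linearCombination_single]

theorem cone_nil (x : α) (z : List α →₀ ℤ) : (cone ℤ x z) [] = 0 := by
  induction z using Finsupp.induction_linear with
  | zero => simp
  | add f g hf hg => rw [map_add, Finsupp.add_apply, hf, hg, add_zero]
  | single m c => rw [cone_single, Finsupp.smul_apply, ins_nil_apply, smul_zero]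

theorem link_single_nil (a : α) (c : ℤ) : link ℤ a (Finsupp.single [] c) = 0 := by
  ext l
  rw [link_apply, Finsupp.single_apply, if_neg (by simp), Finsupp.zero_apply]

theorem link_single_cons (a b : α) (m : List α) (c : ℤ) :
    link ℤ a (Finsupp.single (b :: m) c) = if a = b then Finsupp.single m c else 0 := by
  ext l
  rw [link_apply, Finsupp.single_apply]
  split_ifs with h1 h2 h2
  · have := List.cons.inj h1
    rw [this.2, Finsupp.single_eq_same]
  · exact absurd (List.cons.inj h1).1.symm h2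
  · rw [Finsupp.single_apply, if_neg]
    intro h
    exact h1 (by rw [h2, h])
  · rfl

theorem cone_cons (x a : α) (z : List α →₀ ℤ) (l : List α) :
    (cone ℤ x z) (a :: l) = (if a = x then z l else 0) - (cone ℤ x (link ℤ a z)) l := by
  induction z using Finsupp.induction_linear with
  | zero => simp [link_zero]
  | add f g hf hg =>
    rw [map_add, Finsupp.add_apply, hf, hg, link_add, map_add, Finsupp.add_apply,
      Finsupp.add_apply]
    split_ifs
    · ring
    · ring
  | single m c =>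
    rw [cone_single, Finsupp.smul_apply, ins_cons_apply]
    cases m with
    | nil =>
      rw [link_single_nil, map_zero]
      by_cases h1 : a = x
      · by_cases h2 : l = []
        · simp [h1, h2]
        · simp [h1, h2, Finsupp.single_apply, Ne.symm h2]
      · simp [h1]
    | cons b m =>
      rw [link_single_cons]
      simp only []
      by_cases h1 : a = x
      · by_cases h2 : a = b
        · rw [if_pos h2, if_pos h2, cone_single, if_pos h1, Finsupp.smul_apply]
          by_cases h3 : l = b :: m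
          · simp [h1, h3, mul_sub]
          · simp [h1, h3, Finsupp.single_apply, Ne.symm h3]
        · rw [if_neg h2, if_neg h2, map_zero, if_pos h1]
          by_cases h3 : l = b :: m
          · simp [h1, h3]
          · simp [h1, h3, Finsupp.single_apply, Ne.symm h3]
      · by_cases h2 : a = b
        · rw [if_pos h2, if_pos h2, cone_single, if_neg h1, Finsupp.smul_apply,
            if_neg (fun h => h1 h.1)]
          simp
        · rw [if_neg h2, if_neg h2, map_zero, if_neg h1, if_neg (fun h => h1 h.1)]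
          simp

theorem alt_link {z : List α →₀ ℤ} (h : Alt z) (x : α) : Alt (link ℤ x z) := by
  intro l₁ a b l₂
  rw [link_apply, link_apply]
  exact h (x :: l₁) a b l₂

theorem link_link {z : List α →₀ ℤ} (h : Alt z) (a b : α) :
    link ℤ a (link ℤ b z) = - link ℤ b (link ℤ a z) := by
  ext l
  rw [Finsupp.neg_apply, link_apply, link_apply, link_apply, link_apply]
  exact h [] b a l

theorem alt_cone_aux (x : α) : ∀ (l₁ : List α) (z : List α →₀ ℤ), Alt z → ∀ (a b : α)
    (l₂ : List α), (cone ℤ x z) (l₁ ++ a :: b :: l₂) = - (cone ℤ x z) (l₁ ++ b :: a :: l₂) := by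
  intro l₁
  induction l₁ with
  | nil =>
    intro z h a b l₂
    rw [List.nil_append, List.nil_append, cone_cons, cone_cons, cone_cons, cone_cons,
      link_link h a b, map_neg, Finsupp.neg_apply, link_apply, link_apply]
    split_ifs <;> ring
  | cons c l₁ ih =>
    intro z h a b l₂
    rw [List.cons_append, List.cons_append, cone_cons, cone_cons,
      ih _ (alt_link h c) a b l₂, h l₁ a b l₂]
    split_ifs <;> ring

theorem alt_cone (x : α) {z : List α →₀ ℤ} (h : Alt z) : Alt (cone ℤ x z) :=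
  fun l₁ a b l₂ => alt_cone_aux x l₁ z h a b l₂

theorem nrm_eq_sum_of_subset (z : List α →₀ ℤ) (s : Finset (List α)) (h : z.support ⊆ s) :
    nrm z = ∑ l ∈ s, (z l).natAbs := by
  unfold nrm
  rw [Finsupp.sum]
  apply Finset.sum_subset h
  intro l _ hl
  rw [Finsupp.notMem_support_iff.1 hl, Int.natAbs_zero]

theorem nrm_add_le (z w : List α →₀ ℤ) : nrm (z + w) ≤ nrm z + nrm w := by
  rw [nrm_eq_sum_of_subset (z + w) (z.support ∪ w.support) Finsupp.support_add,
    nrm_eq_sum_of_subset z (z.support ∪ w.support) Finset.subset_union_left,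
    nrm_eq_sum_of_subset w (z.support ∪ w.support) Finset.subset_union_right,
    ← Finset.sum_add_distrib]
  apply Finset.sum_le_sum
  intro l _
  rw [Finsupp.add_apply]
  exact Int.natAbs_add_le _ _

theorem nrm_neg (z : List α →₀ ℤ) : nrm (-z) = nrm z := by
  unfold nrm
  rw [Finsupp.sum, Finsupp.sum, Finsupp.support_neg]
  apply Finset.sum_congr rfl
  intro l _
  rw [Finsupp.neg_apply, Int.natAbs_neg]

theorem nrm_zero : nrm (0 : List α →₀ ℤ) = 0 := by
  unfold nrm
  rw [Finsupp.sum_zero_index]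

theorem nrm_single (m : List α) (c : ℤ) : nrm (Finsupp.single m c) = c.natAbs := by
  unfold nrm
  rw [Finsupp.sum_single_index Int.natAbs_zero]

theorem nrm_smul (c : ℤ) (z : List α →₀ ℤ) : nrm (c • z) = c.natAbs * nrm z := by
  rw [nrm_eq_sum_of_subset (c • z) z.support Finsupp.support_smul,
    nrm_eq_sum_of_subset z z.support (Finset.Subset.refl _), Finset.mul_sum]
  apply Finset.sum_congr rfl
  intro l _
  rw [Finsupp.smul_apply, smul_eq_mul, Int.natAbs_mul]

theorem nrm_sum_le {ι : Type} (s : Finset ι) (f : ι → (List α →₀ ℤ)) :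
    nrm (∑ i ∈ s, f i) ≤ ∑ i ∈ s, nrm (f i) := by
  induction s using Finset.induction_on with
  | empty => simp [nrm_zero]
  | insert a s ha ih =>
    rw [Finset.sum_insert ha, Finset.sum_insert ha]
    exact (nrm_add_le _ _).trans (Nat.add_le_add_left ih _)

theorem nrm_mapDomain_le (f : List α → List β) (z : List α →₀ ℤ) :
    nrm (z.mapDomain f) ≤ nrm z := by
  rw [Finsupp.mapDomain, Finsupp.sum]
  refine (nrm_sum_le _ _).trans ?_
  rw [nrm_eq_sum_of_subset z z.support (Finset.Subset.refl _)]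
  apply Finset.sum_le_sum
  intro l _
  rw [nrm_single]

theorem nrm_mapDomain_inj {f : List α → List β} (hf : Function.Injective f)
    (z : List α →₀ ℤ) : nrm (z.mapDomain f) = nrm z := by
  unfold nrm
  rw [Finsupp.sum_mapDomain_index_inj hf]

/-! heads -/

/-- The heads of the lists in the support. -/
noncomputable def heads (z : List α →₀ ℤ) : Finset α :=
  z.support.biUnion fun l => match l with
    | [] => ∅
    | a :: _ => {a}

theorem mem_heads {z : List α →₀ ℤ} {a : α} {l : List α} (h : z (a :: l) ≠ 0) :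
    a ∈ heads z := by
  unfold heads
  rw [Finset.mem_biUnion]
  exact ⟨a :: l, Finsupp.mem_support_iff.2 h, by simp⟩

theorem link_eq_zero {z : List α →₀ ℤ} {a : α} (h : a ∉ heads z) : link ℤ a z = 0 := by
  ext l
  rw [link_apply, Finsupp.zero_apply]
  by_contra h'
  exact h (mem_heads h')

theorem decomp (z : List α →₀ ℤ) (H : Finset α) (hH : heads z ⊆ H)
    (hz : ∀ l ∈ z.support, l ≠ []) : z = ∑ a ∈ H, consm ℤ a (link ℤ a z) := by
  ext l
  rw [Finsupp.finsetSum_apply]
  cases l with
  | nil =>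
    have h0 : z [] = 0 := by
      by_contra h
      exact hz [] (Finsupp.mem_support_iff.2 h) rfl
    rw [h0]
    symm
    apply Finset.sum_eq_zero
    intro a _
    exact mapCons_nil a _
  | cons b l =>
    have : ∀ a ∈ H, (consm ℤ a (link ℤ a z)) (b :: l) = if b = a then z (b :: l) else 0 := by
      intro a _
      have h1 : (consm ℤ a (link ℤ a z)) (b :: l) =
        (Finsupp.mapDomain (List.cons a) (link ℤ a z)) (b :: l) := rfl
      rw [h1, mapCons_apply, link_apply]
      split_ifs with h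
      · rw [h]
      · rfl
    rw [Finset.sum_congr rfl this, Finset.sum_ite_eq]
    split_ifs with h
    · rfl
    · by_contra h'
      exact h (hH (mem_heads h'))

theorem tl_consm (a : α) (y : List α →₀ ℤ) : tl ℤ (consm ℤ a y) = y := by
  have : tl ℤ (consm ℤ a y) =
      Finsupp.mapDomain List.tail (Finsupp.mapDomain (List.cons a) y) := rfl
  rw [this, ← Finsupp.mapDomain_comp]
  have h : (List.tail ∘ List.cons a) = id := by
    funext l
    rfl
  rw [h, Finsupp.mapDomain_id]

theorem tl_eq_sum (z : List α →₀ ℤ) (H : Finset α) (hH : heads z ⊆ H)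
    (hz : ∀ l ∈ z.support, l ≠ []) : tl ℤ z = ∑ a ∈ H, link ℤ a z := by
  conv_lhs => rw [decomp z H hH hz]
  rw [map_sum]
  exact Finset.sum_congr rfl fun a _ => tl_consm a _

theorem tl_apply_eq (z : List α →₀ ℤ) (H : Finset α) (hH : heads z ⊆ H)
    (hz : ∀ l ∈ z.support, l ≠ []) (m : List α) : (tl ℤ z) m = ∑ a ∈ H, z (a :: m) := by
  rw [tl_eq_sum z H hH hz, Finsupp.finsetSum_apply]
  exact Finset.sum_congr rfl fun a _ => link_apply a z m

theorem ne_nil_of_len {z : List α →₀ ℤ} {k : ℕ} (hk : 0 < k)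
    (hz : ∀ l ∈ z.support, k ≤ l.length) : ∀ l ∈ z.support, l ≠ [] := by
  intro l hl h
  have := hz l hl
  rw [h, List.length_nil] at this
  omega

theorem link_len {z : List α →₀ ℤ} {P : ℕ → Prop}
    (hz : ∀ l ∈ z.support, P l.length) (a : α) :
    ∀ l ∈ (link ℤ a z).support, P (l.length + 1) := by
  intro l hl
  rw [Finsupp.mem_support_iff, link_apply] at hl
  exact hz (a :: l) (Finsupp.mem_support_iff.2 hl)

end LCBase

end MP8a95ee.Eu

end

section

/-!
# The equivariant chain map from lists of group elements to integral orthogonal chains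
-/

namespace MP8a95ee.Eu

open Classical

namespace PHI

variable {n : ℕ} {F : Type} [NormedAddCommGroup F] [InnerProductSpace ℝ F]

theorem idx_empty : Idx (∅ : Finset (E n F)) n := by
  refine ⟨LinearMap.range (LinearMap.inl ℝ (Fin n → ℝ) F), ?_, ?_, ?_⟩
  · rw [LinearMap.finrank_range_of_inj LinearMap.inl_injective]
    simp
  · rintro x ⟨a, rfl⟩ hx
    have ha : a ≠ 0 := by
      rintro rfl
      exact hx (map_zero _)
    have h1 : B (LinearMap.inl ℝ (Fin n → ℝ) F a) (LinearMap.inl ℝ (Fin n → ℝ) F a)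
        = a ⬝ᵥ a := by
      unfold B
      simp
    rw [h1]
    have h2 : 0 ≤ a ⬝ᵥ a := Finset.sum_nonneg (fun i _ => mul_self_nonneg (a i))
    exact lt_of_le_of_ne h2 (fun h => ha (dotProduct_self_eq_zero.1 h.symm))
  · intro x _ t ht
    simp at ht

theorem good_zero (d : ℕ) : Good ∅ d (0 : List (E n F) →₀ ℤ) := by
  constructor
  · intro l₁ a b l₂
    simp
  · intro l hl
    simp at hl

theorem good_add {d : ℕ} {z z' : List (E n F) →₀ ℤ} (h : Good ∅ d z) (h' : Good ∅ d z') :
    Good ∅ d (z + z') := by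
  constructor
  · intro l₁ a b l₂
    rw [Finsupp.add_apply, Finsupp.add_apply, h.1 l₁ a b l₂, h'.1 l₁ a b l₂]
    ring
  · intro l hl
    rcases Finset.mem_union.1 (Finsupp.support_add hl) with h1 | h1
    · exact h.2 l h1
    · exact h'.2 l h1

theorem good_smul {d : ℕ} {z : List (E n F) →₀ ℤ} (c : ℤ) (h : Good ∅ d z) :
    Good ∅ d (c • z) := by
  constructor
  · intro l₁ a b l₂
    rw [Finsupp.smul_apply, Finsupp.smul_apply, h.1 l₁ a b l₂, smul_neg]
  · intro l hl
    exact h.2 l (Finsupp.support_smul hl)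

theorem good_sum {d : ℕ} {ι : Type} (s : Finset ι) (f : ι → (List (E n F) →₀ ℤ))
    (h : ∀ i ∈ s, Good ∅ d (f i)) : Good ∅ d (∑ i ∈ s, f i) := by
  induction s using Finset.induction_on with
  | empty => simpa using good_zero d
  | insert a s ha ih =>
    rw [Finset.sum_insert ha]
    exact good_add (h a (Finset.mem_insert_self _ _))
      (ih (fun i hi => h i (Finset.mem_insert_of_mem hi)))

theorem nrm_zero {α : Type} : nrm (0 : List α →₀ ℤ) = 0 := by
  unfold nrm
  rw [Finsupp.sum_zero_index]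

theorem nrm_sum (h6 : S_LC6) {α ι : Type} (s : Finset ι) (f : ι → (List α →₀ ℤ)) (M : ℕ)
    (h : ∀ i ∈ s, nrm (f i) ≤ M) : nrm (∑ i ∈ s, f i) ≤ s.card * M := by
  induction s using Finset.induction_on with
  | empty => simp [nrm_zero]
  | insert a s ha ih =>
    rw [Finset.sum_insert ha, Finset.card_insert_of_notMem ha]
    have h1 := h6.1 α (f a) (∑ i ∈ s, f i)
    have h2 := h a (Finset.mem_insert_self _ _)
    have h3 := ih (fun i hi => h i (Finset.mem_insert_of_mem hi))
    have h4 : (s.card + 1) * M = s.card * M + M := by ring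
    omega

theorem nrm_pm (h6 : S_LC6) {α : Type} (i : ℕ) (z : List α →₀ ℤ) :
    nrm (((-1 : ℤ) ^ i) • z) = nrm z := by
  rcases neg_one_pow_eq_or ℤ i with h | h
  · rw [h, one_smul]
  · rw [h, neg_one_smul]
    exact h6.2.1 α z

theorem gact_inj (g : G n F) : Function.Injective (fun x => (g.1.1 : E n F → E n F) x) :=
  g.1.1.injective

theorem act_mul (g h : G n F) (z : List (E n F) →₀ ℤ) :
    act ℤ (g * h) z = act ℤ g (act ℤ h z) := by
  unfold act mapm
  simp only [Finsupp.lmapDomain_apply]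
  rw [← Finsupp.mapDomain_comp]
  congr 1
  funext l
  simp only [Function.comp_apply, List.map_map]
  rfl

theorem act_single (g : G n F) (l : List (E n F)) (c : ℤ) :
    act ℤ g (Finsupp.single l c) = Finsupp.single (l.map (fun x => g.1.1 x)) c := by
  unfold act mapm
  rw [Finsupp.lmapDomain_apply, Finsupp.mapDomain_single]

theorem good_act (h6 : S_LC6) (hp : S_PO) {d : ℕ} (g : G n F) {z : List (E n F) →₀ ℤ}
    (h : Good ∅ d z) : Good ∅ d (act ℤ g z) := by
  obtain ⟨ha, -, -⟩ := h6.2.2.2.2 (E n F) (E n F) (fun x => g.1.1 x) (gact_inj g) z h.1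
  refine ⟨ha, ?_⟩
  intro l hl
  unfold act mapm at hl
  rw [Finsupp.lmapDomain_apply] at hl
  have hl' := Finsupp.mapDomain_support hl
  obtain ⟨l', hl1, rfl⟩ := Finset.mem_image.1 hl'
  obtain ⟨h1, h2, h3⟩ := h.2 l' hl1
  have hB := (hp n F).2.2.2 g
  refine ⟨by rw [List.length_map, h1], ?_, ?_⟩
  · rw [List.pairwise_map]
    exact h2.imp (fun {a b} hab => by rw [hB]; exact hab)
  · intro x hx
    obtain ⟨y, hy, rfl⟩ := List.mem_map.1 hx
    refine ⟨?_, ?_⟩
    · rw [hB]
      exact (h3 y hy).1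
    · intro t ht
      simp at ht

theorem nrm_act (h6 : S_LC6) {d : ℕ} (g : G n F) {z : List (E n F) →₀ ℤ}
    (h : Good ∅ d z) : nrm (act ℤ g z) = nrm z :=
  (h6.2.2.2.2 (E n F) (E n F) (fun x => g.1.1 x) (gact_inj g) z h.1).2.1

theorem tl_act (h6 : S_LC6) {d : ℕ} (g : G n F) {z : List (E n F) →₀ ℤ}
    (h : Good ∅ d z) : tl ℤ (act ℤ g z) = act ℤ g (tl ℤ z) :=
  (h6.2.2.2.2 (E n F) (E n F) (fun x => g.1.1 x) (gact_inj g) z h.1).2.2

/-- the linear extension depends only on the values on the support -/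
theorem lin_congr {α M : Type} [AddCommGroup M] (f f' : List α → M)
    (z : List α →₀ ℤ) (h : ∀ l ∈ z.support, f l = f' l) : lin ℤ f z = lin ℤ f' z := by
  unfold lin
  rw [Finsupp.linearCombination_apply, Finsupp.linearCombination_apply]
  exact Finsupp.sum_congr (fun l hl => by rw [h l hl])

theorem lin_faces (h1 : S_LC1) {α M : Type} [AddCommGroup M] (f : List α → M) (l : List α) :
    lin ℤ f (faces ℤ l) = ∑ i ∈ Finset.range l.length, ((-1 : ℤ) ^ i) • f (l.eraseIdx i) := by
  rw [(h1 ℤ α α).2.2.2.2 l, map_sum]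
  apply Finset.sum_congr rfl
  intro i _
  unfold lin
  rw [Finsupp.linearCombination_single]

theorem bd_single {α : Type} (l : List α) : bd ℤ (Finsupp.single l 1) = faces ℤ l := by
  unfold bd
  rw [Finsupp.linearCombination_single, one_smul]

theorem faces_map (h1 : S_LC1) {α β : Type} (f : α → β) (l : List α) :
    faces ℤ (l.map f) = mapm ℤ f (faces ℤ l) := by
  have h := (h1 ℤ α β).2.2.1 f (Finsupp.single l 1)
  rw [bd_single] at h
  rw [← h]
  unfold mapm
  rw [Finsupp.lmapDomain_apply, Finsupp.mapDomain_single, bd_single]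

/-- equivariance of the right hand side -/
theorem lin_equiv (h1 : S_LC1) (φ : List (G n F) → (List (E n F) →₀ ℤ)) (k : ℕ)
    (he : ∀ l : List (G n F), l.length ≤ k → ∀ g : G n F,
      φ (l.map (g * ·)) = act ℤ g (φ l)) (l : List (G n F)) (hl : l.length = k + 1)
    (g : G n F) : lin ℤ φ (faces ℤ (l.map (g * ·))) = act ℤ g (lin ℤ φ (faces ℤ l)) := by
  rw [lin_faces h1, lin_faces h1, List.length_map, map_sum]
  apply Finset.sum_congr rfl
  intro i hi
  have h2 : (l.map (g * ·)).eraseIdx i = (l.eraseIdx i).map (g * ·) := by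
    rw [List.eraseIdx_map]
  rw [h2, map_zsmul]
  congr 1
  apply he
  have := List.length_eraseIdx_of_lt (Finset.mem_range.1 hi)
  omega

/-- the boundary of the right hand side -/
theorem lin_cycle (h1 : S_LC1) (φ : List (G n F) → (List (E n F) →₀ ℤ)) (k : ℕ) (hk : 0 < k)
    (ht : ∀ l : List (G n F), l.length ≤ k → l ≠ [] → tl ℤ (φ l) = lin ℤ φ (faces ℤ l))
    (l : List (G n F)) (hl : l.length = k + 1) : tl ℤ (lin ℤ φ (faces ℤ l)) = 0 := by
  have h2 : bd ℤ (faces ℤ l) = 0 := by
    have := (h1 ℤ (G n F) (G n F)).2.1 (Finsupp.single l 1)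
    rwa [bd_single] at this
  have h3 : bd ℤ (faces ℤ l) = ∑ i ∈ Finset.range l.length,
      ((-1 : ℤ) ^ i) • faces ℤ (l.eraseIdx i) := lin_faces h1 (faces ℤ) l
  rw [lin_faces h1, map_sum]
  have h4 : ∀ i ∈ Finset.range l.length,
      tl ℤ (((-1 : ℤ) ^ i) • φ (l.eraseIdx i))
        = lin ℤ φ (((-1 : ℤ) ^ i) • faces ℤ (l.eraseIdx i)) := by
    intro i hi
    have h5 := List.length_eraseIdx_of_lt (Finset.mem_range.1 hi)
    rw [map_zsmul, map_zsmul, ht _ (by omega)]
    intro h0
    rw [h0, List.length_nil] at h5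
    omega
  rw [Finset.sum_congr rfl h4, ← map_sum, ← h3, h2, map_zero]

/-- the properties of the chain map up to length `k` -/
def Pk (n : ℕ) (F : Type) [NormedAddCommGroup F] [InnerProductSpace ℝ F] (k : ℕ) : Prop :=
  ∃ (φ : List (G n F) → (List (E n F) →₀ ℤ)) (M : ℕ), φ [] = Finsupp.single [] 1 ∧
    ∀ l : List (G n F), l.length ≤ k →
      Good ∅ l.length (φ l) ∧ nrm (φ l) ≤ M ∧
      (l ≠ [] → tl ℤ (φ l) = lin ℤ φ (faces ℤ l)) ∧
      ∀ g : G n F, φ (l.map (g * ·)) = act ℤ g (φ l)

theorem pk_zero : Pk n F 0 := by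
  refine ⟨fun _ => Finsupp.single [] 1, 1, rfl, ?_⟩
  intro l hl
  have hl0 : l = [] := List.length_eq_zero_iff.1 (Nat.le_zero.1 hl)
  subst hl0
  refine ⟨⟨?_, ?_⟩, ?_, ?_, ?_⟩
  · intro l₁ a b l₂
    have e : ∀ a b : E n F, (Finsupp.single [] 1 : List (E n F) →₀ ℤ)
        (l₁ ++ a :: b :: l₂) = 0 := by
      intro a b
      apply Finsupp.single_eq_of_ne
      intro h
      have := congrArg List.length h
      simp at this
    rw [e, e, neg_zero]
  · intro l hl
    have hl' := Finsupp.support_single_subset hl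
    rw [Finset.mem_singleton] at hl'
    subst hl'
    exact ⟨rfl, List.Pairwise.nil, by simp⟩
  · unfold nrm
    rw [Finsupp.sum_single_index] <;> simp
  · intro h
    exact absurd rfl h
  · intro g
    rw [act_single]
    rfl

theorem pk_succ (h1 : S_LC1) (h6 : S_LC6) (hp : S_PO) (k : ℕ) (hu : UFp n F n k)
    (h : Pk n F k) : Pk n F (k + 1) := by
  obtain ⟨φ, M, h0, hφ⟩ := h
  obtain ⟨M', hM'⟩ := hu ((k + 1) * M)
  -- existence of the filling
  have hex : ∀ l : List (G n F), l.length = k + 1 → ∃ w : List (E n F) →₀ ℤ,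
      Good ∅ (k + 1) w ∧ tl ℤ w = lin ℤ φ (faces ℤ l) ∧ nrm w ≤ M' := by
    intro l hl
    have hi : ∀ i ∈ Finset.range l.length, (l.eraseIdx i).length = k := by
      intro i hi
      have := List.length_eraseIdx_of_lt (Finset.mem_range.1 hi)
      omega
    apply hM' ∅ idx_empty
    · rw [lin_faces h1]
      apply good_sum
      intro i hi'
      apply good_smul
      have := (hφ (l.eraseIdx i) (by rw [hi i hi'])).1
      rwa [hi i hi'] at this
    · intro hk
      exact lin_cycle h1 φ k hk (fun l hl => (hφ l hl).2.2.1) l hl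
    · rw [lin_faces h1]
      have := nrm_sum h6 (Finset.range l.length)
        (fun i => ((-1 : ℤ) ^ i) • φ (l.eraseIdx i)) M (by
          intro i hi'
          rw [nrm_pm h6]
          exact (hφ (l.eraseIdx i) (by rw [hi i hi'])).2.1)
      rw [Finset.card_range] at this
      refine this.trans ?_
      rw [hl]
  choose! c hc using hex
  set φ' : List (G n F) → (List (E n F) →₀ ℤ) := fun l =>
    if l.length = k + 1 then act ℤ (l.headD 1) (c (l.map ((l.headD 1)⁻¹ * ·))) else φ l
    with hφ'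
  have hsm : ∀ l : List (G n F), l.length ≤ k → φ' l = φ l := by
    intro l hl
    rw [hφ']
    simp only
    rw [if_neg (by omega)]
  have hlin : ∀ l : List (G n F), l.length ≤ k + 1 →
      lin ℤ φ' (faces ℤ l) = lin ℤ φ (faces ℤ l) := by
    intro l hl
    apply lin_congr
    intro l' hl'
    have := ((h1 ℤ (G n F) (G n F)).2.2.2.1 l l' hl').1
    exact hsm l' (by omega)
  refine ⟨φ', max M M', ?_, ?_⟩
  · rw [hsm [] (Nat.zero_le _)]
    exact h0
  intro l hl
  rcases Nat.lt_or_ge k l.length with hlt | hge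
  · have hlk : l.length = k + 1 := by omega
    obtain ⟨g, t, rfl⟩ : ∃ g t, l = g :: t := by
      cases l with
      | nil => simp at hlk
      | cons g t => exact ⟨g, t, rfl⟩
    have hval : φ' (g :: t) = act ℤ g (c ((g :: t).map (g⁻¹ * ·))) := by
      rw [hφ']
      simp only
      rw [if_pos hlk]
      rfl
    have hlen : ((g :: t).map (g⁻¹ * ·)).length = k + 1 := by
      rw [List.length_map, hlk]
    obtain ⟨hg, ht, hn⟩ := hc _ hlen
    refine ⟨?_, ?_, ?_, ?_⟩
    · rw [hval, hlk]
      exact good_act h6 hp g hg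
    · rw [hval, nrm_act h6 g hg]
      exact hn.trans (le_max_right _ _)
    · intro _
      rw [hlin _ hl, hval, tl_act h6 g hg, ht]
      rw [← lin_equiv h1 φ k (fun l hl => (hφ l hl).2.2.2) _ hlen g]
      have e : ((g :: t).map (g⁻¹ * ·)).map (g * ·) = g :: t := by
        rw [List.map_map]
        have e2 : ((g * ·) ∘ (g⁻¹ * ·) : G n F → G n F) = id := by
          funext x
          simp
        rw [e2, List.map_id]
      rw [e]
    · intro s
      have hlen2 : ((g :: t).map (s * ·)).length = k + 1 := by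
        rw [List.length_map, hlk]
      have hval2 : φ' ((g :: t).map (s * ·))
          = act ℤ (s * g) (c (((g :: t).map (s * ·)).map ((s * g)⁻¹ * ·))) := by
        rw [hφ']
        simp only
        rw [if_pos hlen2]
        rfl
      rw [hval2, hval, act_mul]
      congr 3
      rw [List.map_map]
      apply List.map_congr_left
      intro x _
      simp [mul_assoc]
  · obtain ⟨ha, hb, hd, he⟩ := hφ l hge
    refine ⟨?_, ?_, ?_, ?_⟩
    · rw [hsm l hge]
      exact ha
    · rw [hsm l hge]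
      exact hb.trans (le_max_left _ _)
    · intro hne
      rw [hsm l hge, hlin l hl]
      exact hd hne
    · intro s
      rw [hsm l hge, hsm _ (by rw [List.length_map]; exact hge)]
      exact he s

end PHI

theorem prfPHI (h1 : S_LC1) (h6 : S_LC6) (hu : S_UF) (hp : S_PO) : S_PHI := by
  intro n F _ _ hF
  have key : ∀ k : ℕ, k ≤ n → PHI.Pk n F k := by
    intro k
    induction k with
    | zero => exact fun _ => PHI.pk_zero
    | succ k ih =>
      intro hk
      exact PHI.pk_succ h1 h6 hp k (hu n F hF n k (by omega)) (ih (by omega))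
  exact key n le_rfl

end MP8a95ee.Eu

end

section

/-!
# PO: orthogonal lists are positive, isometries
-/

set_option autoImplicit false

namespace MP8a95ee.Eu

open Classical

namespace PO

variable {n : ℕ} {F : Type} [NormedAddCommGroup F] [InnerProductSpace ℝ F]

theorem B_sum_left {ι : Type} (s : Finset ι) (f : ι → E n F) (z : E n F) :
    B (∑ i ∈ s, f i) z = ∑ i ∈ s, B (f i) z := by
  induction s using Finset.induction_on with
  | empty => simp [B_zero_left]
  | insert a s ha ih => rw [Finset.sum_insert ha, Finset.sum_insert ha, B_add_left, ih]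

theorem B_sum_right {ι : Type} (s : Finset ι) (f : ι → E n F) (z : E n F) :
    B z (∑ i ∈ s, f i) = ∑ i ∈ s, B z (f i) := by
  rw [B_comm, B_sum_left]
  exact Finset.sum_congr rfl fun i _ => B_comm _ _

theorem orth_pos (l : List (E n F)) (h : Orth ∅ l) : PosL l := by
  intro w hw
  have hset : {x | x ∈ l} = ((l.toFinset : Finset (E n F)) : Set (E n F)) := by
    ext x
    simp
  rw [hset, Finset.mem_convexHull'] at hw
  obtain ⟨t, ht0, ht1, rfl⟩ := hw
  have hp : ∀ x ∈ l, ∀ y ∈ l, x ≠ y → B x y = 0 := by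
    intro x hx y hy hxy
    have : Std.Symm (fun x y : E n F => B x y = 0) :=
      ⟨fun a b hab => by rw [B_comm]; exact hab⟩
    exact h.1.forall hx hy hxy
  have hcalc : B (∑ y ∈ l.toFinset, t y • y) (∑ y ∈ l.toFinset, t y • y) =
      ∑ y ∈ l.toFinset, t y ^ 2 * B y y := by
    rw [B_sum_left]
    refine Finset.sum_congr rfl fun y hy => ?_
    rw [B_sum_right, Finset.sum_eq_single y]
    · rw [B_smul_left, B_smul_right]
      ring
    · intro z hz hzy
      rw [B_smul_left, B_smul_right, hp y (by simpa using hy) z (by simpa using hz) (Ne.symm hzy)]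
      ring
    · intro hy'
      exact absurd hy hy'
  rw [hcalc]
  have hex : ∃ y ∈ l.toFinset, t y ≠ 0 := by
    by_contra hcon
    push Not at hcon
    rw [Finset.sum_eq_zero hcon] at ht1
    exact zero_ne_one ht1
  obtain ⟨y, hy, hty⟩ := hex
  refine Finset.sum_pos' (fun z hz => ?_) ⟨y, hy, ?_⟩
  · exact mul_nonneg (sq_nonneg _) (h.2 z (by simpa using hz)).1.le
  · exact mul_pos (by positivity) (h.2 y (by simpa using hy)).1

theorem refl_iso (e : E n F) (he : 0 < B e e) (x y : E n F) :
    B (refl e x) (refl e y) = B x y := by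
  rw [refl_apply, refl_apply, B_sub_left, B_sub_right, B_sub_right, B_smul_left, B_smul_right,
    B_smul_left, B_smul_right, B_comm e y]
  have := he.ne'
  field_simp
  ring

theorem iso (g : (E n F ≃ₗ[ℝ] E n F) × ℤˣ) (hg : g ∈ Gs n F) (x y : E n F) :
    B (g.1 x) (g.1 y) = B x y := by
  induction hg using Subgroup.closure_induction generalizing x y with
  | mem g hg =>
    obtain ⟨e, he, rfl⟩ := hg
    exact refl_iso e he x y
  | one => rfl
  | mul g g' _ _ ih ih' =>
    rw [Prod.fst_mul, LinearEquiv.mul_apply, LinearEquiv.mul_apply, ih, ih']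
  | inv g _ ih =>
    have h := ih (g.1⁻¹ x) (g.1⁻¹ y)
    rw [Prod.fst_inv, ← h, ← LinearEquiv.mul_apply, ← LinearEquiv.mul_apply, mul_inv_cancel]
    rfl

theorem map_set {α β : Type} (f : α → β) (l : List α) :
    {x | x ∈ l.map f} = f '' {x | x ∈ l} := by
  ext x
  simp

end PO

theorem prfPO : S_PO := by
  intro n F _ _
  refine ⟨PO.orth_pos, ?_, ?_, ?_⟩
  · intro l g hl w hw
    have h1 : convexHull ℝ {x | x ∈ l.map (fun x => (g.1.1 : E n F → E n F) x)} =
        (g.1.1 : E n F ≃ₗ[ℝ] E n F).toLinearMap '' convexHull ℝ {x | x ∈ l} := by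
      rw [LinearMap.image_convexHull, PO.map_set]
      rfl
    rw [h1] at hw
    obtain ⟨v, hv, rfl⟩ := hw
    have h2 : B ((g.1.1 : E n F ≃ₗ[ℝ] E n F).toLinearMap v)
        ((g.1.1 : E n F ≃ₗ[ℝ] E n F).toLinearMap v) = B v v := PO.iso g.1 g.2 v v
    rw [h2]
    exact hl v hv
  · intro l l' hsub hl w hw
    exact hl w (convexHull_mono hsub hw)
  · intro g x y
    exact PO.iso g.1 g.2 x y

end MP8a95ee.Eu

end

section

namespace MP8a95ee

namespace Eu

open Classical

namespace U2

open Filter Topology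

theorem small {ι : Type} (S : Finset ι) (a b : ι → ℝ) (ha : ∀ y ∈ S, 0 < a y) :
    ∃ t : ℝ, 0 < t ∧ ∀ y ∈ S, t * b y < a y := by
  have h1 : ∀ᶠ t : ℝ in 𝓝[>] 0, ∀ y ∈ S, t * b y < a y := by
    rw [eventually_all_finset]
    intro y hy
    have hc : Tendsto (fun t : ℝ => t * b y) (𝓝[>] 0) (𝓝 (0 * b y)) :=
      ((continuous_id.mul continuous_const).tendsto 0).mono_left nhdsWithin_le_nhds
    rw [zero_mul] at hc
    exact hc.eventually_lt_const (ha y hy)
  have h2 : ∀ᶠ t : ℝ in 𝓝[>] 0, 0 < t := self_mem_nhdsWithin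
  obtain ⟨t, ht1, ht2⟩ := (h2.and h1).exists
  exact ⟨t, ht1, ht2⟩

variable {n : ℕ} {F : Type} [NormedAddCommGroup F] [InnerProductSpace ℝ F]

theorem stepA (T : Finset (E n F)) (hT : Idx T 1) (S : Finset (E n F)) :
    (∀ x ∈ S, 0 < B x x ∧ ∀ t ∈ T, B x t = 0) →
    ∃ e : E n F, 0 < B e e ∧ (∀ t ∈ T, B e t = 0) ∧ ∀ x ∈ S, B x e ≠ 0 := by
  induction S using Finset.induction_on with
  | empty =>
    intro _
    obtain ⟨W, hW, hpos, hort⟩ := hT
    have : Nontrivial W := Module.nontrivial_of_finrank_pos (R := ℝ) (by omega)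
    obtain ⟨w, hw⟩ := exists_ne (0 : W)
    refine ⟨w, hpos _ w.2 ?_, hort _ w.2, by simp⟩
    intro h
    exact hw (by ext1; exact h)
  | insert x S hxS ih =>
    intro h
    obtain ⟨e, he, heT, heS⟩ := ih (fun y hy => h y (Finset.mem_insert_of_mem hy))
    obtain ⟨hxx, hxT⟩ := h x (Finset.mem_insert_self _ _)
    by_cases hxe : B x e = 0
    · obtain ⟨t, ht, ht2⟩ := small S (fun y => |B y e|) (fun y => |B y x|)
        (fun y hy => abs_pos.2 (heS y hy))
      refine ⟨e + t • x, ?_, ?_, ?_⟩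
      · rw [B_add_left, B_add_right, B_add_right, B_smul_left, B_smul_left, B_smul_right,
          B_smul_right, B_comm e x, hxe]
        have : 0 < t * (t * B x x) := by positivity
        linarith
      · intro s hs
        rw [B_add_left, B_smul_left, heT s hs, hxT s hs]; ring
      · intro y hy
        rw [B_add_right, B_smul_right]
        rcases Finset.mem_insert.1 hy with rfl | hy
        · rw [hxe, zero_add]
          positivity
        · intro h0
          have h1 : B y e = - (t * B y x) := by linarith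
          have h2 := ht2 y hy
          rw [h1, abs_neg, abs_mul, abs_of_pos ht] at h2
          exact lt_irrefl _ h2
    · refine ⟨e, he, heT, ?_⟩
      intro y hy
      rcases Finset.mem_insert.1 hy with rfl | hy
      · exact hxe
      · exact heS y hy

theorem stepB (hF : ¬ FiniteDimensional ℝ F) (K : Finset F) :
    ∃ g : F, ‖g‖ = 1 ∧ ∀ y ∈ K, inner ℝ y g = 0 := by
  let V : Submodule ℝ F := Submodule.span ℝ (K : Set F)
  have : FiniteDimensional ℝ V := FiniteDimensional.span_finset ℝ K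
  have hV : Vᗮ ≠ ⊥ := by
    intro h
    rw [Submodule.orthogonal_eq_bot_iff] at h
    apply hF
    have h2 : FiniteDimensional ℝ (⊤ : Submodule ℝ F) := h ▸ this
    exact Module.finite_def.2 (Module.Finite.iff_fg.1 h2)
  obtain ⟨u, hu, hu0⟩ := Submodule.exists_mem_ne_zero_of_ne_bot hV
  refine ⟨‖u‖⁻¹ • u, ?_, ?_⟩
  · rw [norm_smul, norm_inv, norm_norm, inv_mul_cancel₀ (norm_ne_zero_iff.2 hu0)]
  · intro y hy
    rw [inner_smul_right, Submodule.inner_right_of_mem_orthogonal (Submodule.subset_span hy) hu,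
      mul_zero]

theorem B_g (x : E n F) (g : F) : B x ((0, g) : E n F) = - inner ℝ x.2 g := by
  unfold B
  simp

end U2

theorem prfU2 : S_U2 := by
  intro n F _ _ hF T S hT hS
  obtain ⟨e, he, heT, heS⟩ := U2.stepA T hT S hS
  obtain ⟨g, hg, hgK⟩ := U2.stepB hF (insert e.2 (T.image Prod.snd ∪ S.image Prod.snd))
  obtain ⟨ε, hε, hε2⟩ := U2.small S (fun x => B x e ^ 2) (fun x => B x x)
    (fun y hy => by have := heS y hy; positivity)
  set δ : ℝ := min ε (B e e / 2) with hδ
  have hδ0 : 0 < δ := lt_min hε (by linarith)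
  have hδ1 : δ < B e e := lt_of_le_of_lt (min_le_right _ _) (by linarith)
  set s : ℝ := Real.sqrt (B e e - δ) with hs
  have hs2 : s * s = B e e - δ := Real.mul_self_sqrt (by linarith)
  have hge : B e ((0, g) : E n F) = 0 := by
    rw [U2.B_g, hgK _ (Finset.mem_insert_self _ _), neg_zero]
  have hgT : ∀ t ∈ T, B ((0, g) : E n F) t = 0 := by
    intro t ht
    rw [B_comm, U2.B_g, hgK _ (Finset.mem_insert_of_mem (Finset.mem_union_left _
      (Finset.mem_image_of_mem _ ht))), neg_zero]
  have hgS : ∀ x ∈ S, B x ((0, g) : E n F) = 0 := by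
    intro t ht
    rw [U2.B_g, hgK _ (Finset.mem_insert_of_mem (Finset.mem_union_right _
      (Finset.mem_image_of_mem _ ht))), neg_zero]
  have hgg : B ((0, g) : E n F) ((0, g) : E n F) = -1 := by
    rw [U2.B_g]
    simp [hg]
  have hvv : B (e + s • ((0, g) : E n F)) (e + s • ((0, g) : E n F)) = δ := by
    rw [B_add_left, B_add_right, B_add_right, B_smul_left, B_smul_left, B_smul_right,
      B_smul_right, B_comm ((0, g) : E n F) e, hge, hgg]
    linarith
  refine ⟨e + s • ((0, g) : E n F), ?_, ?_, ?_⟩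
  · rw [hvv]; exact hδ0
  · intro t ht
    rw [B_add_left, B_smul_left, heT t ht, hgT t ht]; ring
  · intro x hx
    rw [hvv, B_add_right, B_smul_right, hgS x hx, mul_zero, add_zero]
    have h1 := hε2 x hx
    have h2 : δ * B x x ≤ ε * B x x :=
      mul_le_mul_of_nonneg_right (min_le_left _ _) (hS x hx).1.le
    rw [mul_comm]
    exact lt_of_le_of_lt h2 h1

end Eu

end MP8a95ee

end

section

/-!
# The push lemma
-/

namespace MP8a95ee.Eu

open Classical

namespace UA1

variable {n : ℕ} {F : Type} [NormedAddCommGroup F] [InnerProductSpace ℝ F]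

theorem orth_mono {T T' : Finset (E n F)} (h : T ⊆ T') {l : List (E n F)} (hl : Orth T' l) :
    Orth T l :=
  ⟨hl.1, fun x hx => ⟨(hl.2 x hx).1, fun t ht => (hl.2 x hx).2 t (h ht)⟩⟩

theorem good_mono {T T' : Finset (E n F)} (h : T ⊆ T') {d : ℕ} {z : List (E n F) →₀ ℤ}
    (hz : Good T' d z) : Good T d z :=
  ⟨hz.1, fun l hl => ⟨(hz.2 l hl).1, orth_mono h (hz.2 l hl).2⟩⟩

theorem good_add (h6 : S_LC6) {T : Finset (E n F)} {d : ℕ} {z z' : List (E n F) →₀ ℤ}
    (h : Good T d z) (h' : Good T d z') : Good T d (z + z') := by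
  refine ⟨(h6.2.2.2.1 _ z z' h.1 h'.1).1, fun l hl => ?_⟩
  rcases Finset.mem_union.1 (Finsupp.support_add hl) with h1 | h1
  · exact h.2 l h1
  · exact h'.2 l h1

theorem good_neg (h6 : S_LC6) {T : Finset (E n F)} {d : ℕ} {z : List (E n F) →₀ ℤ}
    (h : Good T d z) : Good T d (-z) := by
  refine ⟨(h6.2.2.2.1 _ z z h.1 h.1).2, fun l hl => ?_⟩
  rw [Finsupp.support_neg] at hl
  exact h.2 l hl

theorem idx_mono {T T' : Finset (E n F)} (h : T ⊆ T') {m : ℕ} (hI : Idx T' m) : Idx T m := by
  obtain ⟨W, h1, h2, h3⟩ := hI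
  exact ⟨W, h1, h2, fun x hx t ht => h3 x hx t (h ht)⟩

theorem good_cone (h2 : S_LC2) {T : Finset (E n F)} {d : ℕ} {x : E n F}
    {q : List (E n F) →₀ ℤ} (hx : 0 < B x x) (hxT : ∀ t ∈ T, B x t = 0)
    (hq : Good (insert x T) d q) : Good T (d + 1) (cone ℤ x q) := by
  refine ⟨(h2 _ x q).2.2.1 hq.1, fun l hl => ?_⟩
  obtain ⟨l', hl', hp⟩ := (h2 _ x q).2.2.2.1 l hl
  obtain ⟨hlen, hor⟩ := hq.2 l' hl'
  refine ⟨by rw [hp.length_eq, List.length_cons, hlen], ?_, ?_⟩
  · refine (hp.pairwise_iff (fun {a b} h => by rw [B_comm, h])).2 ?_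
    refine List.pairwise_cons.2 ⟨fun y hy => ?_, hor.1⟩
    rw [B_comm]
    exact (hor.2 y hy).2 x (Finset.mem_insert_self _ _)
  · intro y hy
    rcases List.mem_cons.1 (hp.mem_iff.1 hy) with h | h
    · rw [h]
      exact ⟨hx, hxT⟩
    · exact ⟨(hor.2 y h).1, fun t ht => (hor.2 y h).2 t (Finset.mem_insert_of_mem ht)⟩

theorem mem_link {α : Type} {x : α} {z : List α →₀ ℤ} {l : List α}
    (h : l ∈ (link ℤ x z).support) : (x :: l) ∈ z.support := by
  rw [Finsupp.mem_support_iff] at h ⊢
  exact h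

theorem lc3' (h3 : S_LC3) {α : Type} (x : α) (z : List α →₀ ℤ) (hz : Alt z) :
    ∃ z1 : List α →₀ ℤ, Alt (link ℤ x z) ∧
    ((∀ l ∈ z.support, 2 ≤ l.length) → tl ℤ (link ℤ x z) = - link ℤ x (tl ℤ z)) ∧
    nrm (link ℤ x z) ≤ nrm z ∧ z = z1 + cone ℤ x (link ℤ x z) ∧
    Alt z1 ∧ nrm z1 ≤ nrm z ∧ ∀ l ∈ z1.support, l ∈ z.support ∧ x ∉ l := by
  obtain ⟨h1, h2, h4, h5, h6, h7⟩ := h3 α x z hz
  refine ⟨_, h1, h2, h4, h5, h6, h7, fun l hl => ?_⟩
  rw [Finsupp.support_filter, Finset.mem_filter] at hl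
  exact hl

/-- The bad vertices. -/
noncomputable def bad (z : List (E n F) →₀ ℤ) (v : E n F) : Finset (E n F) :=
  z.support.biUnion fun l => l.toFinset.filter fun x => B x v ≠ 0

theorem mem_bad {z : List (E n F) →₀ ℤ} {v x : E n F} :
    x ∈ bad z v ↔ B x v ≠ 0 ∧ ∃ l ∈ z.support, x ∈ l := by
  unfold bad
  rw [Finset.mem_biUnion]
  constructor
  · rintro ⟨l, hl, hx⟩
    rw [Finset.mem_filter, List.mem_toFinset] at hx
    exact ⟨hx.2, l, hl, hx.1⟩
  · rintro ⟨h, l, hl, hx⟩
    exact ⟨l, hl, Finset.mem_filter.2 ⟨List.mem_toFinset.2 hx, h⟩⟩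

theorem card_support_le {α : Type} (z : List α →₀ ℤ) : z.support.card ≤ nrm z := by
  unfold nrm Finsupp.sum
  rw [Finset.card_eq_sum_ones]
  refine Finset.sum_le_sum fun l hl => ?_
  rw [Finsupp.mem_support_iff] at hl
  exact Nat.one_le_iff_ne_zero.2 (Int.natAbs_ne_zero.2 hl)

theorem card_bad {T : Finset (E n F)} {d : ℕ} {z : List (E n F) →₀ ℤ} {v : E n F}
    (hz : Good T d z) : (bad z v).card ≤ d * nrm z := by
  have h1 : (bad z v).card ≤ z.support.card * d := by
    unfold bad
    refine Finset.card_biUnion_le_card_mul _ _ _ fun l hl => ?_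
    refine (Finset.card_filter_le _ _).trans ?_
    rw [← (hz.2 l hl).1]
    exact List.toFinset_card_le l
  rw [mul_comm]
  exact h1.trans (Nat.mul_le_mul_right _ (card_support_le z))

/-- The conclusion. -/
def Concl (T : Finset (E n F)) (d : ℕ) (v : E n F) (z : List (E n F) →₀ ℤ) (M : ℕ) : Prop :=
  ∃ z' w : List (E n F) →₀ ℤ, Good (insert v T) d z' ∧ Good T (d + 1) w ∧
    z = z' + tl ℤ w ∧ nrm z' ≤ M ∧ nrm w ≤ M ∧
    ∀ l ∈ w.support, ∀ x ∈ l, B x v = 0 ∨ ∃ l' ∈ z.support, x ∈ l'

theorem Concl.mono {T : Finset (E n F)} {d : ℕ} {v : E n F} {z : List (E n F) →₀ ℤ} {M M' : ℕ}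
    (hM : M ≤ M') (h : Concl T d v z M) : Concl T d v z M' := by
  obtain ⟨z', w, h1, h2, h3, h4, h5, h6⟩ := h
  exact ⟨z', w, h1, h2, h3, h4.trans hM, h5.trans hM, h6⟩

theorem step (h2 : S_LC2) (h3 : S_LC3) (h4 : S_LC4) (h6 : S_LC6) (hu : S_U1) {m d : ℕ}
    (hUF : UFp n F m d) (hPA : PAp n F m d) (b : ℕ) :
    ∀ N : ℕ, ∃ M : ℕ, ∀ T : Finset (E n F), Idx T (m + 1) → ∀ v : E n F,
      (∀ t ∈ T, B v t = 0) → ∀ z : List (E n F) →₀ ℤ, Good T (d + 1) z → tl ℤ z = 0 →
      nrm z ≤ N →
      (∀ l ∈ z.support, ∀ x ∈ l, B x v = 0 ∨ B x x * B v v < B x v ^ 2) →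
      (bad z v).card ≤ b → Concl T (d + 1) v z M := by
  induction b with
  | zero =>
    intro N
    refine ⟨N, fun T hT v hv z hz htl hN hc hb => ?_⟩
    have hemp : bad z v = ∅ := Finset.card_eq_zero.1 (Nat.le_zero.1 hb)
    refine ⟨z, 0, ⟨hz.1, fun l hl => ⟨(hz.2 l hl).1, (hz.2 l hl).2.1, fun x hx =>
      ⟨((hz.2 l hl).2.2 x hx).1, fun t ht => ?_⟩⟩⟩, ?_, ?_, hN, ?_, ?_⟩
    · rcases Finset.mem_insert.1 ht with h | h
      · rw [h]
        by_contra hne
        have : x ∈ bad z v := mem_bad.2 ⟨hne, l, hl, hx⟩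
        rw [hemp] at this
        exact absurd this (Finset.notMem_empty _)
      · exact ((hz.2 l hl).2.2 x hx).2 t h
    · refine ⟨fun l₁ a b l₂ => by simp, fun l hl => ?_⟩
      simp at hl
    · simp
    · simp [nrm]
    · intro l hl
      simp at hl
  | succ b ih =>
    intro N
    obtain ⟨M1, hM1⟩ := hPA N
    obtain ⟨M2, hM2⟩ := hUF M1
    obtain ⟨M3, hM3⟩ := ih (N + (M2 + M1))
    obtain ⟨M4, hM4⟩ := ih N
    refine ⟨M4 + (M3 + (d + 2) * (M2 + M1)), fun T hT v hv z hz htl hN hc hb => ?_⟩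
    by_cases hb' : (bad z v).card ≤ b
    · exact (hM4 T hT v hv z hz htl hN hc hb').mono (Nat.le_add_right _ _)
    have hpos : 0 < (bad z v).card := by omega
    obtain ⟨x, hxb⟩ := Finset.card_pos.1 hpos
    obtain ⟨hxv, lx, hlx, hxl⟩ := mem_bad.1 hxb
    have hx0 : 0 < B x x := ((hz.2 lx hlx).2.2 x hxl).1
    have hxT : ∀ t ∈ T, B x t = 0 := ((hz.2 lx hlx).2.2 x hxl).2
    have hxc : B x x * B v v < B x v ^ 2 := (hc lx hlx x hxl).resolve_left hxv
    set v' : E n F := v - (B x v / B x x) • x with hv'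
    set T' : Finset (E n F) := insert x T with hT'
    have hTT' : T ⊆ T' := Finset.subset_insert _ _
    have hI : Idx (insert v' T') m := hu n F m T x v hT hxT hv hx0 hxc
    have hI' : Idx T' m := idx_mono (Finset.subset_insert _ _) hI
    have hBv' : ∀ y : E n F, B y v' = B y v - (B x v / B x x) * B y x := by
      intro y
      rw [hv', B_sub_right, B_smul_right]
    have hv'T : ∀ t ∈ T', B v' t = 0 := by
      intro t ht
      rw [B_comm, hBv']
      rcases Finset.mem_insert.1 ht with h | h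
      · rw [h]
        field_simp
        ring
      · rw [B_comm t v, hv t h, B_comm t x, hxT t h]
        ring
    have hv'v' : B v' v' < 0 := by
      rw [hBv', B_comm v' v, hBv', hv'T x (Finset.mem_insert_self _ _), B_comm v x]
      have : B v v - B x v / B x x * B x v - B x v / B x x * 0
          = (B x x * B v v - B x v ^ 2) / B x x := by
        field_simp
        ring
      rw [this]
      exact div_neg_of_neg_of_pos (by linarith) hx0
    obtain ⟨z1, hL1, hL2, hL3, hL4, hL5, hL6, hz1⟩ := lc3' h3 x z hz.1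
    set l0 : List (E n F) →₀ ℤ := link ℤ x z with hl0
    have hgl0 : Good T' d l0 := by
      refine ⟨hL1, fun l hl => ?_⟩
      have hm := mem_link hl
      obtain ⟨hlen, hor⟩ := hz.2 _ hm
      refine ⟨by simpa using hlen, (List.pairwise_cons.1 hor.1).2, fun y hy =>
        ⟨(hor.2 y (List.mem_cons_of_mem _ hy)).1, fun t ht => ?_⟩⟩
      rcases Finset.mem_insert.1 ht with h | h
      · rw [h, B_comm]
        exact (List.pairwise_cons.1 hor.1).1 y hy
      · exact (hor.2 y (List.mem_cons_of_mem _ hy)).2 t h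
    have htl0 : 0 < d → tl ℤ l0 = 0 := by
      intro hd
      rw [hL2 (fun l hl => by rw [(hz.2 l hl).1]; omega), htl]
      ext l
      simp [link]
    obtain ⟨l', w', hl', hw', hdec, hnl', hnw', hent⟩ := hM1 T' hI' v' hv'T l0 hgl0 htl0
      (hL3.trans hN) (fun l hl y hy => Or.inr (by
        have h1 : 0 < B y y := ((hgl0.2 l hl).2.2 y hy).1
        have h2 : B y y * B v' v' < 0 := mul_neg_of_pos_of_neg h1 hv'v'
        exact lt_of_lt_of_le h2 (sq_nonneg _)))
    have htl' : 0 < d → tl ℤ l' = 0 := by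
      intro hd
      have h1 := (h4 _ w' hw'.1 (fun l hl => by rw [(hw'.2 l hl).1]; omega)).1
      have h2 := htl0 hd
      rw [hdec, map_add, h1, add_zero] at h2
      exact h2
    obtain ⟨u', hu', htu', hnu'⟩ := hM2 (insert v' T') hI l' hl' htl' hnl'
    have hu'T' : Good T' (d + 1) u' := good_mono (Finset.subset_insert _ _) hu'
    set q : List (E n F) →₀ ℤ := u' + w' with hq
    have hgq : Good T' (d + 1) q := good_add h6 hu'T' hw'
    have htq : tl ℤ q = l0 := by rw [hq, map_add, htu', hdec]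
    have hnq : nrm q ≤ M2 + M1 := (h6.1 _ u' w').trans (Nat.add_le_add hnu' hnw')
    -- entries of q
    have hqent : ∀ l ∈ q.support, ∀ y ∈ l, B y v = 0 ∨ ∃ l' ∈ z.support, y ∈ l' := by
      intro l hl y hy
      have hyx : B y x = 0 := ((hgq.2 l hl).2.2 y hy).2 x (Finset.mem_insert_self _ _)
      have key : B y v' = 0 → B y v = 0 := by
        intro h
        rw [hBv', hyx] at h
        linarith
      rcases Finset.mem_union.1 (Finsupp.support_add hl) with h1 | h1
      · exact Or.inl (key (((hu'.2 l h1).2.2 y hy).2 v' (Finset.mem_insert_self _ _)))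
      · rcases hent l h1 y hy with h | ⟨l'', hl'', hy''⟩
        · exact Or.inl (key h)
        · exact Or.inr ⟨x :: l'', mem_link hl'', List.mem_cons_of_mem _ hy''⟩
    have hqne : ∀ l ∈ q.support, x ∉ l := by
      intro l hl hxl'
      have : B x x = 0 := ((hgq.2 l hl).2.2 x hxl').2 x (Finset.mem_insert_self _ _)
      exact absurd this (ne_of_gt hx0)
    have hgz1 : Good T (d + 1) z1 := by
      exact ⟨hL5, fun l hl => hz.2 l (hz1 l hl).1⟩
    set zn : List (E n F) →₀ ℤ := z1 + q with hzn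
    have hgzn : Good T (d + 1) zn := good_add h6 hgz1 (good_mono hTT' hgq)
    have htc : tl ℤ (cone ℤ x l0) = l0 := by
      rcases Nat.eq_zero_or_pos d with hd | hd
      · refine (h2 _ x l0).2.1 fun l hl => ?_
        have := (hgl0.2 l hl).1
        rw [hd] at this
        exact List.length_eq_zero_iff.1 this
      · rw [(h2 _ x l0).1 (fun l hl hnil => ?_), htl0 hd, map_zero, sub_zero]
        have := (hgl0.2 l hl).1
        rw [hnil] at this
        simp at this
        omega
    have htzn : tl ℤ zn = 0 := by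
      have h1 : tl ℤ z1 + l0 = 0 := by
        rw [← htc, ← map_add, ← hL4, htl]
      rw [hzn, map_add, htq, h1]
    have hnzn : nrm zn ≤ N + (M2 + M1) :=
      (h6.1 _ z1 q).trans (Nat.add_le_add (hL6.trans hN) hnq)
    have hznent : ∀ l ∈ zn.support, ∀ y ∈ l, y ≠ x ∧ (B y v = 0 ∨ ∃ l' ∈ z.support, y ∈ l') := by
      intro l hl y hy
      rcases Finset.mem_union.1 (Finsupp.support_add hl) with h1 | h1
      · exact ⟨fun h => (hz1 l h1).2 (h ▸ hy), Or.inr ⟨l, (hz1 l h1).1, hy⟩⟩
      · exact ⟨fun h => hqne l h1 (h ▸ hy), hqent l h1 y hy⟩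
    have hczn : ∀ l ∈ zn.support, ∀ y ∈ l, B y v = 0 ∨ B y y * B v v < B y v ^ 2 := by
      intro l hl y hy
      rcases (hznent l hl y hy).2 with h | ⟨l'', hl'', hy''⟩
      · exact Or.inl h
      · exact hc l'' hl'' y hy''
    have hbzn : (bad zn v).card ≤ b := by
      have hsub : bad zn v ⊆ (bad z v).erase x := by
        intro y hy
        obtain ⟨hyv, l, hl, hyl⟩ := mem_bad.1 hy
        obtain ⟨hyx, hor⟩ := hznent l hl y hyl
        refine Finset.mem_erase.2 ⟨hyx, mem_bad.2 ⟨hyv, ?_⟩⟩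
        exact hor.resolve_left hyv
      have h1 := Finset.card_le_card hsub
      rw [Finset.card_erase_of_mem hxb] at h1
      omega
    obtain ⟨z'', w1, hz'', hw1, hdec1, hn1, hn2, hent1⟩ :=
      hM3 T hT v hv zn hgzn htzn hnzn hczn hbzn
    have hgc : Good T (d + 1 + 1) (cone ℤ x q) := good_cone h2 hx0 hxT hgq
    have htcq : tl ℤ (cone ℤ x q) = q - cone ℤ x l0 := by
      rw [(h2 _ x q).1 (fun l hl hnil => ?_), htq]
      have := (hgq.2 l hl).1
      rw [hnil] at this
      simp at this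
    have hnc : nrm (cone ℤ x q) ≤ (d + 2) * (M2 + M1) :=
      ((h2 _ x q).2.2.2.2 (d + 1) (fun l hl => (hgq.2 l hl).1)).trans
        (Nat.mul_le_mul_left _ hnq)
    refine ⟨z'', w1 + -(cone ℤ x q), hz'', good_add h6 hw1 (good_neg h6 hgc), ?_, ?_, ?_, ?_⟩
    · rw [map_add, map_neg, htcq]
      have e1 : z'' + (tl ℤ w1 + -(q - cone ℤ x l0)) = (z'' + tl ℤ w1) - q + cone ℤ x l0 := by
        abel
      rw [e1, ← hdec1, hzn, add_sub_cancel_right]
      exact hL4
    · exact hn1.trans (by omega)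
    · refine (h6.1 _ _ _).trans ?_
      rw [h6.2.1]
      omega
    · intro l hl y hy
      rcases Finset.mem_union.1 (Finsupp.support_add hl) with h1 | h1
      · rcases hent1 l h1 y hy with h | ⟨l'', hl'', hy''⟩
        · exact Or.inl h
        · exact (hznent l'' hl'' y hy'').2
      · rw [Finsupp.support_neg] at h1
        obtain ⟨l'', hl'', hp⟩ := (h2 _ x q).2.2.2.1 l h1
        rcases List.mem_cons.1 (hp.mem_iff.1 hy) with h | h
        · exact Or.inr ⟨lx, hlx, h ▸ hxl⟩
        · exact hqent l'' hl'' y h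

end UA1

theorem prfUA1 (h2 : S_LC2) (h3 : S_LC3) (h4 : S_LC4) (h6 : S_LC6) (hu : S_U1) : S_UA1 := by
  intro n F _ _ m d _ hUF hPA N
  obtain ⟨M, hM⟩ := UA1.step h2 h3 h4 h6 hu hUF hPA ((d + 1) * N) N
  refine ⟨M, fun T hT v hv z hz htl hN hc => ?_⟩
  exact hM T hT v hv z hz (htl (Nat.succ_pos d)) hN hc
    ((UA1.card_bad hz).trans (Nat.mul_le_mul_left _ hN))

end MP8a95ee.Eu

end

section

/-!
# Filling after pushing
-/

namespace MP8a95ee.Eu

open Classical

namespace UA2

variable {n : ℕ} {F : Type} [NormedAddCommGroup F] [InnerProductSpace ℝ F]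

theorem good_add (h6 : S_LC6) {T : Finset (E n F)} {d : ℕ} {z z' : List (E n F) →₀ ℤ}
    (h : Good T d z) (h' : Good T d z') : Good T d (z + z') := by
  refine ⟨(h6.2.2.2.1 _ z z' h.1 h'.1).1, fun l hl => ?_⟩
  rcases Finset.mem_union.1 (Finsupp.support_add hl) with h1 | h1
  · exact h.2 l h1
  · exact h'.2 l h1

theorem good_cone (h2 : S_LC2) {T : Finset (E n F)} {d : ℕ} {x : E n F}
    {q : List (E n F) →₀ ℤ} (hx : 0 < B x x) (hxT : ∀ t ∈ T, B x t = 0)
    (hq : Good (insert x T) d q) : Good T (d + 1) (cone ℤ x q) := by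
  refine ⟨(h2 _ x q).2.2.1 hq.1, fun l hl => ?_⟩
  obtain ⟨l', hl', hp⟩ := (h2 _ x q).2.2.2.1 l hl
  obtain ⟨hlen, hor⟩ := hq.2 l' hl'
  refine ⟨by rw [hp.length_eq, List.length_cons, hlen], ?_, ?_⟩
  · refine (hp.pairwise_iff (fun {a b} h => by rw [B_comm, h])).2 ?_
    refine List.pairwise_cons.2 ⟨fun y hy => ?_, hor.1⟩
    rw [B_comm]
    exact (hor.2 y hy).2 x (Finset.mem_insert_self _ _)
  · intro y hy
    rcases List.mem_cons.1 (hp.mem_iff.1 hy) with h | h
    · rw [h]
      exact ⟨hx, hxT⟩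
    · exact ⟨(hor.2 y h).1, fun t ht => (hor.2 y h).2 t (Finset.mem_insert_of_mem ht)⟩

end UA2

theorem prfUA2 (h2 : S_LC2) (h4 : S_LC4) (h6 : S_LC6) (hu : S_U2) : S_UA2 := by
  intro n F _ _ hF m d hd hdm hPA N
  obtain ⟨M, hM⟩ := hPA N
  refine ⟨(d + 1) * M + M, fun T hT z hz htl hN => ?_⟩
  have hT1 : Idx T 1 := by
    obtain ⟨W, hW1, hW2, hW3⟩ := hT
    exact ⟨W, by omega, hW2, hW3⟩
  obtain ⟨v, hv0, hvT, hvS⟩ := hu n F hF T (z.support.biUnion fun l => l.toFinset) hT1 (by
    intro x hx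
    obtain ⟨l, hl, hxl⟩ := Finset.mem_biUnion.1 hx
    exact (hz.2 l hl).2.2 x (List.mem_toFinset.1 hxl))
  obtain ⟨z', w1, hz', hw1, hdec, hn1, hn2, -⟩ := hM T hT v hvT z hz htl hN (by
    intro l hl x hx
    exact Or.inr (hvS x (Finset.mem_biUnion.2 ⟨l, hl, List.mem_toFinset.2 hx⟩)))
  have htz' : tl ℤ z' = 0 := by
    have h1 := (h4 _ w1 hw1.1 (fun l hl => by rw [(hw1.2 l hl).1]; omega)).1
    have h3 := htl hd
    rw [hdec, map_add, h1, add_zero] at h3
    exact h3
  have htc : tl ℤ (cone ℤ v z') = z' := by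
    rw [(h2 _ v z').1 (fun l hl hnil => ?_), htz', map_zero, sub_zero]
    have := (hz'.2 l hl).1
    rw [hnil] at this
    simp at this
    omega
  refine ⟨cone ℤ v z' + w1, UA2.good_add h6 (UA2.good_cone h2 hv0 hvT hz') hw1, ?_, ?_⟩
  · rw [map_add, htc, ← hdec]
  · refine (h6.1 _ _ _).trans (Nat.add_le_add ?_ hn2)
    exact ((h2 _ v z').2.2.2.2 d (fun l hl => (hz'.2 l hl).1)).trans (Nat.mul_le_mul_left _ hn1)

end MP8a95ee.Eu

end

section

/-!
# Uniform fillings: the induction
-/

namespace MP8a95ee.Eu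

open Classical

namespace UF

theorem idx_exists {n : ℕ} {F : Type} [NormedAddCommGroup F] [InnerProductSpace ℝ F]
    {T : Finset (E n F)} {m : ℕ} (hm : 0 < m) (h : Idx T m) :
    ∃ x : E n F, 0 < B x x ∧ ∀ t ∈ T, B x t = 0 := by
  obtain ⟨W, hW, h1, h2⟩ := h
  have hne : W ≠ ⊥ := by
    intro h0
    rw [h0, finrank_bot] at hW
    omega
  obtain ⟨x, hx, hx0⟩ := W.exists_mem_ne_zero_of_ne_bot hne
  exact ⟨x, h1 x hx hx0, h2 x hx⟩

theorem good_single {n : ℕ} {F : Type} [NormedAddCommGroup F] [InnerProductSpace ℝ F]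
    {T : Finset (E n F)} {x : E n F} (h1 : 0 < B x x) (h2 : ∀ t ∈ T, B x t = 0) (c : ℤ) :
    Good T 1 (Finsupp.single [x] c) := by
  constructor
  · intro l₁ a b l₂
    have e : ∀ a b : E n F, (Finsupp.single [x] c : List (E n F) →₀ ℤ)
        (l₁ ++ a :: b :: l₂) = 0 := by
      intro a b
      apply Finsupp.single_eq_of_ne
      intro h
      have := congrArg List.length h
      simp at this
      omega
    rw [e, e, neg_zero]
  · intro l hl
    have hl' := Finsupp.support_single_subset hl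
    rw [Finset.mem_singleton] at hl'
    subst hl'
    refine ⟨rfl, List.pairwise_singleton _ _, ?_⟩
    intro y hy
    rw [List.mem_singleton] at hy
    subst hy
    exact ⟨h1, h2⟩

theorem good_zero {n : ℕ} {F : Type} [NormedAddCommGroup F] [InnerProductSpace ℝ F]
    (T : Finset (E n F)) (d : ℕ) : Good T d (0 : List (E n F) →₀ ℤ) := by
  constructor
  · intro l₁ a b l₂
    simp
  · intro l hl
    simp at hl

theorem eq_single {α : Type} {z : List α →₀ ℤ} (h : ∀ l ∈ z.support, l.length = 0) :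
    z = Finsupp.single [] (z []) := by
  ext l
  by_cases hl : l = []
  · subst hl
    rw [Finsupp.single_eq_same]
  · rw [Finsupp.single_eq_of_ne hl]
    by_contra h0
    exact hl (List.length_eq_zero_iff.1 (h l (Finsupp.mem_support_iff.2 h0)))

theorem nrm_single {α : Type} (l : List α) (c : ℤ) :
    nrm (Finsupp.single l c : List α →₀ ℤ) = c.natAbs := by
  unfold nrm
  rw [Finsupp.sum_single_index]
  rfl

theorem nrm_zero {α : Type} : nrm (0 : List α →₀ ℤ) = 0 := by
  unfold nrm
  rw [Finsupp.sum_zero_index]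

theorem uf_zero (n : ℕ) (F : Type) [NormedAddCommGroup F] [InnerProductSpace ℝ F] (m : ℕ)
    (hm : 0 < m) : UFp n F m 0 := by
  intro N
  refine ⟨N, ?_⟩
  intro T hT z hz _ hN
  obtain ⟨x, hx1, hx2⟩ := idx_exists hm hT
  have hz1 : z = Finsupp.single [] (z []) := eq_single (fun l hl => (hz.2 l hl).1)
  refine ⟨Finsupp.single [x] (z []), good_single hx1 hx2 _, ?_, ?_⟩
  · unfold tl
    rw [Finsupp.lmapDomain_apply, Finsupp.mapDomain_single]
    exact hz1.symm
  · rw [nrm_single]
    rw [hz1, nrm_single] at hN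
    exact hN

theorem pa_zero (n : ℕ) (F : Type) [NormedAddCommGroup F] [InnerProductSpace ℝ F] (m : ℕ) :
    PAp n F m 0 := by
  intro N
  refine ⟨N, ?_⟩
  intro T hT v hv z hz _ hN _
  refine ⟨z, 0, ⟨hz.1, ?_⟩, good_zero T 1, ?_, hN, ?_, ?_⟩
  · intro l hl
    have h0 := (hz.2 l hl).1
    have h1 : l = [] := List.length_eq_zero_iff.1 h0
    subst h1
    exact ⟨rfl, List.Pairwise.nil, by simp⟩
  · rw [map_zero, add_zero]
  · rw [nrm_zero]
    exact Nat.zero_le _
  · intro l hl
    simp at hl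

end UF

theorem prfUF (h1 : S_UA1) (h2 : S_UA2) : S_UF := by
  intro n F _ _ hF
  have key : ∀ d m : ℕ, d < m → UFp n F m d ∧ PAp n F m d := by
    intro d
    induction d with
    | zero =>
      intro m hm
      exact ⟨UF.uf_zero n F m hm, UF.pa_zero n F m⟩
    | succ d ih =>
      intro m hm
      obtain ⟨m', rfl⟩ : ∃ m', m = m' + 1 := ⟨m - 1, by omega⟩
      have hd : d < m' := by omega
      obtain ⟨ha, hb⟩ := ih m' hd
      have hp : PAp n F (m' + 1) (d + 1) := h1 n F m' d hd ha hb
      exact ⟨h2 n F hF (m' + 1) (d + 1) (Nat.succ_pos d) hm hp, hp⟩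
  intro m d hd
  exact (key d m hd).1

end MP8a95ee.Eu

end

section

/-!
# LC2: the alternating cone
-/

namespace MP8a95ee.Eu

open Classical

namespace LC2

variable {α : Type}

theorem cone_eq (x : α) (z : List α →₀ ℤ) :
    cone ℤ x z = ∑ l ∈ z.support, z l • ins ℤ x l := by
  unfold cone
  rw [Finsupp.linearCombination_apply, Finsupp.sum]

theorem self_eq (z : List α →₀ ℤ) :
    z = ∑ l ∈ z.support, z l • Finsupp.single l (1 : ℤ) := by
  conv_lhs => rw [← Finsupp.sum_single z]
  rw [Finsupp.sum]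
  apply Finset.sum_congr rfl
  intro l _
  rw [Finsupp.smul_single, smul_eq_mul, mul_one]

theorem tl_single (l : List α) (c : ℤ) : tl ℤ (Finsupp.single l c) = Finsupp.single l.tail c := by
  have : tl ℤ (Finsupp.single l c) = Finsupp.mapDomain List.tail (Finsupp.single l c) := rfl
  rw [this, Finsupp.mapDomain_single]

theorem tl_eq (z : List α →₀ ℤ) :
    tl ℤ z = ∑ l ∈ z.support, z l • Finsupp.single l.tail (1 : ℤ) := by
  conv_lhs => rw [self_eq z]
  rw [map_sum]
  apply Finset.sum_congr rfl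
  intro l _
  rw [map_smul, tl_single]

theorem tl_ins_cons (x a : α) (l : List α) :
    tl ℤ (ins ℤ x (a :: l)) = Finsupp.single (a :: l) 1 - ins ℤ x l := by
  have : ins ℤ x (a :: l) = Finsupp.single (x :: a :: l) 1 - consm ℤ a (ins ℤ x l) := rfl
  rw [this, map_sub, tl_single, LCBase.tl_consm]
  rfl

theorem tl_ins_nil (x : α) : tl ℤ (ins ℤ x []) = Finsupp.single [] 1 := by
  rw [ins, tl_single]
  rfl

theorem cone_single_one (x : α) (l : List α) : cone ℤ x (Finsupp.single l 1) = ins ℤ x l := by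
  rw [LCBase.cone_single, one_smul]

theorem perm_ins (x : α) : ∀ (m l : List α), (ins ℤ x m) l ≠ 0 → l.Perm (x :: m) := by
  intro m
  induction m with
  | nil =>
    intro l h
    rw [ins, Finsupp.single_apply] at h
    split_ifs at h with h1
    · rw [h1]
    · exact absurd rfl h
  | cons b m ih =>
    intro l h
    cases l with
    | nil => exact absurd (LCBase.ins_nil_apply x _) h
    | cons a l =>
      rw [ins, Finsupp.sub_apply, LCBase.mapCons_apply] at h
      by_cases h1 : a = b
      · rw [if_pos h1] at h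
        by_cases h2 : x :: b :: m = a :: l
        · rw [h2]
        · rw [Finsupp.single_apply, if_neg h2, zero_sub, neg_ne_zero] at h
          have := ih l h
          rw [h1]
          exact (this.cons b).trans (List.Perm.swap _ _ _)
      · rw [if_neg h1, sub_zero, Finsupp.single_apply] at h
        split_ifs at h with h2
        · rw [h2]
        · exact absurd rfl h

theorem nrm_ins (x : α) (m : List α) : nrm (ins ℤ x m) ≤ m.length + 1 := by
  induction m with
  | nil =>
    rw [ins, LCBase.nrm_single]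
    simp
  | cons b m ih =>
    rw [ins, sub_eq_add_neg, List.length_cons]
    refine (LCBase.nrm_add_le _ _).trans ?_
    rw [LCBase.nrm_neg, LCBase.nrm_single]
    have := LCBase.nrm_mapDomain_le (List.cons b) (ins ℤ x m)
    have h1 : (1 : ℤ).natAbs = 1 := rfl
    rw [h1]
    omega

end LC2

open LC2 in
theorem prfLC2 : S_LC2 := by
  intro α x z
  refine ⟨?_, ?_, fun h => LCBase.alt_cone x h, ?_, ?_⟩
  · intro hz
    rw [cone_eq, map_sum]
    have h1 : z - cone ℤ x (tl ℤ z) = ∑ l ∈ z.support, (z l • Finsupp.single l (1 : ℤ) -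
        z l • ins ℤ x l.tail) := by
      rw [Finset.sum_sub_distrib, ← self_eq, tl_eq, map_sum]
      congr 1
      apply Finset.sum_congr rfl
      intro l _
      rw [map_smul, cone_single_one]
    rw [h1]
    apply Finset.sum_congr rfl
    intro l hl
    rw [map_smul]
    cases l with
    | nil => exact absurd rfl (hz [] hl)
    | cons a l => rw [tl_ins_cons, smul_sub]; rfl
  · intro hz
    rw [cone_eq, map_sum]
    conv_rhs => rw [self_eq z]
    apply Finset.sum_congr rfl
    intro l hl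
    rw [map_smul, hz l hl, tl_ins_nil]
  · intro l hl
    rw [Finsupp.mem_support_iff, cone_eq, Finsupp.finsetSum_apply] at hl
    obtain ⟨l', h1, h2⟩ := Finset.exists_ne_zero_of_sum_ne_zero hl
    refine ⟨l', h1, perm_ins x l' l ?_⟩
    intro h
    rw [Finsupp.smul_apply, h, smul_zero] at h2
    exact h2 rfl
  · intro d hd
    rw [cone_eq]
    refine (LCBase.nrm_sum_le _ _).trans ?_
    rw [LCBase.nrm_eq_sum_of_subset z z.support (Finset.Subset.refl _), Finset.mul_sum]
    apply Finset.sum_le_sum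
    intro l hl
    rw [LCBase.nrm_smul, mul_comm]
    apply Nat.mul_le_mul_right
    have := nrm_ins x l
    rw [hd l hl] at this
    exact this

end MP8a95ee.Eu

end

section

/-!
# LC3: the link
-/

namespace MP8a95ee.Eu

open Classical

namespace LC3

variable {α : Type}

theorem nrm_link (x : α) (z : List α →₀ ℤ) : nrm (link ℤ x z) ≤ nrm z := by
  rw [LCBase.nrm_eq_sum_of_subset (link ℤ x z) _ (Finset.Subset.refl _),
    LCBase.nrm_eq_sum_of_subset z _ (Finset.Subset.refl _)]
  have h1 : ∑ l ∈ (link ℤ x z).support, ((link ℤ x z) l).natAbs =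
      ∑ l ∈ (link ℤ x z).support.image (List.cons x), (z l).natAbs := by
    rw [Finset.sum_image (fun _ _ _ _ h => List.cons_injective h)]
    apply Finset.sum_congr rfl
    intro l _
    rw [LCBase.link_apply]
  rw [h1]
  apply Finset.sum_le_sum_of_subset
  intro l hl
  obtain ⟨m, hm, rfl⟩ := Finset.mem_image.1 hl
  rw [Finsupp.mem_support_iff, LCBase.link_apply] at hm
  exact Finsupp.mem_support_iff.2 hm

theorem cone_notMem (x : α) : ∀ (m : List α) (w : List α →₀ ℤ), x ∉ m → (cone ℤ x w) m = 0 := by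
  intro m
  induction m with
  | nil => intro w _; exact LCBase.cone_nil x w
  | cons a l ih =>
    intro w h
    rw [List.mem_cons, not_or] at h
    rw [LCBase.cone_cons, if_neg (fun h' => h.1 h'.symm), ih _ h.2, sub_zero]

theorem link_self {z : List α →₀ ℤ} (h : Alt z) (x : α) : link ℤ x (link ℤ x z) = 0 := by
  have := LCBase.link_link h x x
  ext l
  have h1 := DFunLike.congr_fun this l
  rw [Finsupp.neg_apply] at h1
  rw [Finsupp.zero_apply]
  omega

theorem cone_link (x : α) : ∀ (m : List α) (z : List α →₀ ℤ), Alt z → x ∈ m →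
    (cone ℤ x (link ℤ x z)) m = z m := by
  intro m
  induction m with
  | nil => intro z _ h; simp at h
  | cons a l ih =>
    intro z hz h
    rw [LCBase.cone_cons]
    by_cases h1 : a = x
    · subst h1
      rw [if_pos rfl, LCBase.link_apply, link_self hz, map_zero, Finsupp.zero_apply, sub_zero]
    · have h2 : x ∈ l := by
        rcases List.mem_cons.1 h with h2 | h2
        · exact absurd h2.symm h1
        · exact h2
      rw [if_neg h1, LCBase.link_link hz a x, map_neg, Finsupp.neg_apply,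
        ih _ (LCBase.alt_link hz a) h2, LCBase.link_apply]
      ring

theorem mem_swap (x : α) (l₁ l₂ : List α) (a b : α) :
    x ∉ l₁ ++ a :: b :: l₂ ↔ x ∉ l₁ ++ b :: a :: l₂ := by
  simp only [List.mem_append, List.mem_cons]
  tauto

end LC3

open LC3 in
theorem prfLC3 : S_LC3 := by
  intro α x z hz
  refine ⟨LCBase.alt_link hz x, ?_, nrm_link x z, ?_, ?_, ?_⟩
  · intro hl
    have h1 : ∀ l ∈ z.support, l ≠ [] := LCBase.ne_nil_of_len (by norm_num) hl
    have h2 : ∀ l ∈ (link ℤ x z).support, l ≠ [] := by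
      intro l hl' h
      have := LCBase.link_len (P := fun k => 2 ≤ k) hl x l hl'
      rw [h] at this
      simp at this
    rw [LCBase.tl_eq_sum (link ℤ x z) (LCBase.heads z ∪ LCBase.heads (link ℤ x z))
        Finset.subset_union_right h2,
      LCBase.tl_eq_sum z (LCBase.heads z ∪ LCBase.heads (link ℤ x z))
        Finset.subset_union_left h1, LCBase.link_sum, ← Finset.sum_neg_distrib]
    apply Finset.sum_congr rfl
    intro a _
    exact LCBase.link_link hz a x
  · ext m
    rw [Finsupp.add_apply, Finsupp.filter_apply]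
    by_cases h : x ∉ m
    · rw [if_pos h, cone_notMem x m _ h, add_zero]
    · rw [if_neg h, cone_link x m z hz (not_not.1 h), zero_add]
  · intro l₁ a b l₂
    rw [Finsupp.filter_apply, Finsupp.filter_apply]
    by_cases h : x ∉ l₁ ++ a :: b :: l₂
    · rw [if_pos h, if_pos ((mem_swap x l₁ l₂ a b).1 h)]
      exact hz l₁ a b l₂
    · rw [if_neg h, if_neg (fun h' => h ((mem_swap x l₁ l₂ a b).2 h')), neg_zero]
  · rw [LCBase.nrm_eq_sum_of_subset (z.filter (fun l => x ∉ l)) z.support
      (by rw [Finsupp.support_filter]; exact Finset.filter_subset _ _),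
      LCBase.nrm_eq_sum_of_subset z _ (Finset.Subset.refl _)]
    apply Finset.sum_le_sum
    intro l _
    rw [Finsupp.filter_apply]
    by_cases h : x ∉ l
    · rw [if_pos h]
    · rw [if_neg h, Int.natAbs_zero]
      exact Nat.zero_le _

end MP8a95ee.Eu

end

section

/-!
# LC4, LC5: removing entries of an alternating chain
-/

namespace MP8a95ee.Eu

open Classical

namespace LC45

variable {α : Type}

theorem tl_len {z : List α →₀ ℤ} {k : ℕ} (hz : ∀ l ∈ z.support, k + 1 ≤ l.length) :
    ∀ l ∈ (tl ℤ z).support, k ≤ l.length := by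
  intro l hl
  have h1 : ∀ l ∈ z.support, l ≠ [] := LCBase.ne_nil_of_len (Nat.succ_pos k) hz
  rw [Finsupp.mem_support_iff,
    LCBase.tl_apply_eq z (LCBase.heads z) (Finset.Subset.refl _) h1] at hl
  obtain ⟨a, _, h2⟩ := Finset.exists_ne_zero_of_sum_ne_zero hl
  have := hz (a :: l) (Finsupp.mem_support_iff.2 h2)
  rw [List.length_cons] at this
  omega

theorem alt_tl {z : List α →₀ ℤ} (hz : Alt z) (h : ∀ l ∈ z.support, l ≠ []) :
    Alt (tl ℤ z) := by
  intro l₁ a b l₂
  rw [LCBase.tl_apply_eq z (LCBase.heads z) (Finset.Subset.refl _) h,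
    LCBase.tl_apply_eq z (LCBase.heads z) (Finset.Subset.refl _) h, ← Finset.sum_neg_distrib]
  apply Finset.sum_congr rfl
  intro c _
  exact hz (c :: l₁) a b l₂

theorem tl_tl {z : List α →₀ ℤ} (hz : Alt z) (h : ∀ l ∈ z.support, 2 ≤ l.length) :
    tl ℤ (tl ℤ z) = 0 := by
  have h1 : ∀ l ∈ z.support, l ≠ [] := LCBase.ne_nil_of_len (by norm_num) h
  have h2 : ∀ l ∈ (tl ℤ z).support, l ≠ [] :=
    LCBase.ne_nil_of_len Nat.one_pos (tl_len (k := 1) h)
  ext m
  rw [LCBase.tl_apply_eq (tl ℤ z) (LCBase.heads z ∪ LCBase.heads (tl ℤ z))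
    Finset.subset_union_right h2]
  have h3 : ∀ b ∈ LCBase.heads z ∪ LCBase.heads (tl ℤ z), (tl ℤ z) (b :: m) =
      ∑ a ∈ LCBase.heads z ∪ LCBase.heads (tl ℤ z), z (a :: b :: m) := by
    intro b _
    exact LCBase.tl_apply_eq z _ Finset.subset_union_left h1 (b :: m)
  rw [Finset.sum_congr rfl h3, Finsupp.zero_apply]
  set H := LCBase.heads z ∪ LCBase.heads (tl ℤ z)
  have h4 : ∑ b ∈ H, ∑ a ∈ H, z (a :: b :: m) = - ∑ b ∈ H, ∑ a ∈ H, z (a :: b :: m) := by
    conv_lhs => rw [Finset.sum_comm]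
    rw [← Finset.sum_neg_distrib]
    apply Finset.sum_congr rfl
    intro a _
    rw [← Finset.sum_neg_distrib]
    apply Finset.sum_congr rfl
    intro b _
    exact hz [] a b m
  omega

theorem bd_single (l : List α) (c : ℤ) : bd ℤ (Finsupp.single l c) = c • faces ℤ l := by
  unfold bd
  rw [Finsupp.linearCombination_single]

theorem bd_consm (a : α) (y : List α →₀ ℤ) :
    bd ℤ (consm ℤ a y) = y - consm ℤ a (bd ℤ y) := by
  induction y using Finsupp.induction_linear with
  | zero => simp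
  | add f g hf hg => rw [map_add, map_add, hf, hg, map_add, map_add]; abel
  | single m c =>
    have h1 : consm ℤ a (Finsupp.single m c) = Finsupp.single (a :: m) c := by
      have : consm ℤ a (Finsupp.single m c) =
        Finsupp.mapDomain (List.cons a) (Finsupp.single m c) := rfl
      rw [this, Finsupp.mapDomain_single]
    rw [h1, bd_single, bd_single, map_smul, faces, smul_sub, Finsupp.smul_single,
      smul_eq_mul, mul_one]
    rfl

theorem bd_eq : ∀ (k : ℕ) (z : List α →₀ ℤ), Alt z →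
    (∀ l ∈ z.support, l.length = k + 1) → bd ℤ z = ((k + 1 : ℕ) : ℤ) • tl ℤ z := by
  intro k
  induction k with
  | zero =>
    intro z _ hl
    have h1 : ∀ l ∈ z.support, l ≠ [] := by
      intro l hl' h
      have := hl l hl'
      rw [h] at this
      simp at this
    have h2 : ∀ a, ∀ l ∈ (link ℤ a z).support, l = [] := by
      intro a l hl'
      have := LCBase.link_len (P := fun k => k = 1) hl a l hl'
      exact List.length_eq_zero_iff.1 (by simpa using this)
    have h3 : ∀ a, bd ℤ (link ℤ a z) = 0 := by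
      intro a
      have h4 : link ℤ a z = Finsupp.single [] ((link ℤ a z) []) := by
        ext l
        rw [Finsupp.single_apply]
        split_ifs with h
        · rw [h]
        · by_contra h'
          exact h (h2 a l (Finsupp.mem_support_iff.2 h')).symm
      rw [h4, bd_single, faces, smul_zero]
    have h5 := LCBase.decomp z (LCBase.heads z) (Finset.Subset.refl _) h1
    rw [LCBase.tl_eq_sum z (LCBase.heads z) (Finset.Subset.refl _) h1]
    conv_lhs => rw [h5]
    rw [map_sum]
    have : ∀ a ∈ LCBase.heads z, bd ℤ (consm ℤ a (link ℤ a z)) = link ℤ a z := by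
      intro a _
      rw [bd_consm, h3, map_zero, sub_zero]
    rw [Finset.sum_congr rfl this]
    simp
  | succ k ih =>
    intro z hz hl
    have hl2 : ∀ l ∈ z.support, 2 ≤ l.length := by
      intro l hl'
      rw [hl l hl']
      omega
    have h1 : ∀ l ∈ z.support, l ≠ [] := LCBase.ne_nil_of_len (by norm_num) hl2
    have h2 : ∀ a, ∀ l ∈ (link ℤ a z).support, l.length = k + 1 := by
      intro a l hl'
      have := LCBase.link_len (P := fun j => j = k + 1 + 1) hl a l hl'
      simpa using this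
    have h2' : ∀ a, ∀ l ∈ (link ℤ a z).support, l ≠ [] := by
      intro a l hl' h
      have := h2 a l hl'
      rw [h] at this
      simp at this
    have htl : ∀ l ∈ (tl ℤ z).support, l ≠ [] :=
      LCBase.ne_nil_of_len Nat.one_pos (tl_len (k := 1) hl2)
    set H := LCBase.heads z ∪ LCBase.heads (tl ℤ z) with hH
    have h5 := LCBase.decomp z H Finset.subset_union_left h1
    have h6 : tl ℤ z = ∑ a ∈ H, link ℤ a z :=
      LCBase.tl_eq_sum z H Finset.subset_union_left h1
    have h7 : ∀ a, tl ℤ (link ℤ a z) = - link ℤ a (tl ℤ z) := by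
      intro a
      rw [LCBase.tl_eq_sum (link ℤ a z) (H ∪ LCBase.heads (link ℤ a z))
          Finset.subset_union_right (h2' a),
        LCBase.tl_eq_sum z (H ∪ LCBase.heads (link ℤ a z))
          (Finset.subset_union_left.trans Finset.subset_union_left) h1,
        LCBase.link_sum, ← Finset.sum_neg_distrib]
      apply Finset.sum_congr rfl
      intro b _
      exact LCBase.link_link hz b a
    have h8 : ∀ a ∈ H, bd ℤ (consm ℤ a (link ℤ a z)) =
        link ℤ a z + ((k + 1 : ℕ) : ℤ) • consm ℤ a (link ℤ a (tl ℤ z)) := by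
      intro a _
      rw [bd_consm, ih _ (LCBase.alt_link hz a) (h2 a), h7, smul_neg, map_neg, map_smul,
        sub_neg_eq_add]
    have h9 : tl ℤ z = ∑ a ∈ H, consm ℤ a (link ℤ a (tl ℤ z)) :=
      LCBase.decomp (tl ℤ z) H Finset.subset_union_right htl
    conv_lhs => rw [h5]
    rw [map_sum, Finset.sum_congr rfl h8, Finset.sum_add_distrib, ← h6, ← Finset.smul_sum,
      ← h9]
    push_cast
    module

end LC45

open LC45 in
theorem prfLC4 : S_LC4 := by
  intro α z hz h
  exact ⟨tl_tl hz h, alt_tl hz (LCBase.ne_nil_of_len (by norm_num) h)⟩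

open LC45 in
theorem prfLC5 : S_LC5 := by
  intro α k z hk hz h
  obtain ⟨j, rfl⟩ : ∃ j, k = j + 1 := ⟨k - 1, by omega⟩
  exact bd_eq j z hz h

end MP8a95ee.Eu

end
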