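import Pool.Agent.Work.MP_8a95ee_gt.Bd.B02
import Pool.Agent.Work.MP_8a95ee_gt.Eu.Stmts2
import Pool.Agent.Work.MP_8a95ee_gt.Bd.B01
import Pool.Agent.Work.MP_8a95ee_gt.A2
import Pool.Agent.Work.MP_8a95ee_gt.A3

/-! Bundle of small proof modules (one section per former module). -/

section

/-!
# LC6: simple facts on the norm and on sums
-/

namespace MP8a95ee.Eu

open Classical

namespace LC6

variable {α β : Type}

theorem map_inj {f : α → β} (hf : Function.Injective f) : Function.Injective (List.map f) :=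
  List.map_injective_iff.2 hf

theorem mapm_apply {f : α → β} (hf : Function.Injective f) (z : List α →₀ ℤ) (l : List α) :
    (mapm ℤ f z) (l.map f) = z l :=
  Finsupp.mapDomain_apply (map_inj hf) z l

theorem mapm_zero {f : α → β} (z : List α →₀ ℤ) (l : List β)
    (h : ∀ m : List α, m.map f ≠ l) : (mapm ℤ f z) l = 0 := by
  have : (mapm ℤ f z) l = (Finsupp.mapDomain (List.map f) z) l := rfl
  rw [this]
  apply Finsupp.mapDomain_of_notMem_range
  rintro ⟨m, hm⟩
  exact h m hm

theorem alt_mapm {f : α → β} (hf : Function.Injective f) {z : List α →₀ ℤ} (h : Alt z) :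
    Alt (mapm ℤ f z) := by
  intro l₁ a b l₂
  by_cases hr : ∃ m : List α, m.map f = l₁ ++ a :: b :: l₂
  · obtain ⟨m, hm⟩ := hr
    obtain ⟨m₁, m', rfl, h1, h2⟩ := List.map_eq_append_iff.1 hm
    obtain ⟨a', m'', rfl, h3, h4⟩ := List.map_eq_cons_iff.1 h2
    obtain ⟨b', m₂, rfl, h5, h6⟩ := List.map_eq_cons_iff.1 h4
    have e1 : l₁ ++ a :: b :: l₂ = (m₁ ++ a' :: b' :: m₂).map f := hm.symm
    have e2 : l₁ ++ b :: a :: l₂ = (m₁ ++ b' :: a' :: m₂).map f := by
      rw [List.map_append, List.map_cons, List.map_cons, h1, h3, h5, h6]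
    rw [e1, e2, mapm_apply hf, mapm_apply hf]
    exact h m₁ a' b' m₂
  · have hr' : ¬ ∃ m : List α, m.map f = l₁ ++ b :: a :: l₂ := by
      rintro ⟨m, hm⟩
      obtain ⟨m₁, m', rfl, h1, h2⟩ := List.map_eq_append_iff.1 hm
      obtain ⟨a', m'', rfl, h3, h4⟩ := List.map_eq_cons_iff.1 h2
      obtain ⟨b', m₂, rfl, h5, h6⟩ := List.map_eq_cons_iff.1 h4
      exact hr ⟨m₁ ++ b' :: a' :: m₂, by
        rw [List.map_append, List.map_cons, List.map_cons, h1, h3, h5, h6]⟩
    rw [mapm_zero z _ (fun m hm => hr ⟨m, hm⟩), mapm_zero z _ (fun m hm => hr' ⟨m, hm⟩), neg_zero]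

theorem tl_mapm (f : α → β) (z : List α →₀ ℤ) :
    tl ℤ (mapm ℤ f z) = mapm ℤ f (tl ℤ z) := by
  have h1 : tl ℤ (mapm ℤ f z) =
    Finsupp.mapDomain List.tail (Finsupp.mapDomain (List.map f) z) := rfl
  have h2 : mapm ℤ f (tl ℤ z) =
    Finsupp.mapDomain (List.map f) (Finsupp.mapDomain List.tail z) := rfl
  rw [h1, h2, ← Finsupp.mapDomain_comp, ← Finsupp.mapDomain_comp]
  congr 1
  funext l
  cases l <;> rfl

end LC6

theorem prfLC6 : S_LC6 := by
  refine ⟨fun α z z' => LCBase.nrm_add_le z z', fun α z => LCBase.nrm_neg z,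
    fun α β f z => LCBase.nrm_mapDomain_le f z, fun α z z' h h' => ⟨?_, ?_⟩,
    fun α β f hf z h => ⟨LC6.alt_mapm hf h, LCBase.nrm_mapDomain_inj (LC6.map_inj hf) z,
      LC6.tl_mapm f z⟩⟩
  · intro l₁ a b l₂
    rw [Finsupp.add_apply, Finsupp.add_apply, h l₁ a b l₂, h' l₁ a b l₂]
    ring
  · intro l₁ a b l₂
    rw [Finsupp.neg_apply, Finsupp.neg_apply, h l₁ a b l₂]

end MP8a95ee.Eu

end

section

/-!
# BC: the bounded cocycle of a package
-/

namespace MP8a95ee.Eu

open Classical

namespace BC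

section

variable {R : Type} [CommRing R] {α β : Type}

theorem bd_single (l : List α) (r : R) : bd R (Finsupp.single l r) = r • faces R l := by
  simp [bd, Finsupp.linearCombination_single]

theorem lin_single {M : Type} [AddCommGroup M] [Module R M] (f : List α → M) (l : List α) (r : R) :
    lin R f (Finsupp.single l r) = r • f l := by
  simp [lin, Finsupp.linearCombination_single]

theorem lin_apply {M : Type} [AddCommGroup M] [Module R M] (f : List α → M) (z : List α →₀ R) :
    lin R f z = ∑ l ∈ z.support, z l • f l := by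
  rw [lin, Finsupp.linearCombination_apply, Finsupp.sum]

theorem faces_support_length (h1 : S_LC1) (l l' : List α) (h : l' ∈ (faces R l).support) :
    l'.length + 1 = l.length := ((h1 R α α).2.2.2.1 l l' h).1

theorem faces_ofFn (h1 : S_LC1) {m : ℕ} (v : Fin (m + 1) → α) :
    faces R (List.ofFn v) =
      ∑ i : Fin (m + 1), Finsupp.single (List.ofFn (fun k => v (i.succAbove k))) ((-1 : R) ^ (i : ℕ)) := by
  rw [(h1 R α α).2.2.2.2, List.length_ofFn, ← Fin.sum_univ_eq_sum_range
    (fun i => Finsupp.single ((List.ofFn v).eraseIdx i) ((-1 : R) ^ i)) (m + 1)]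
  refine Finset.sum_congr rfl fun i _ => ?_
  congr 1
  apply List.ext_getElem
  · rw [List.length_eraseIdx, List.length_ofFn, List.length_ofFn, if_pos i.2]
    rfl
  · intro k h1 h2
    rw [List.getElem_eraseIdx]
    rw [List.length_ofFn] at h2
    split_ifs with hk
    · rw [List.getElem_ofFn, List.getElem_ofFn]
      congr 1
      rw [Fin.succAbove_of_castSucc_lt]
      · rfl
      · exact hk
    · rw [List.getElem_ofFn, List.getElem_ofFn]
      congr 1
      rw [Fin.succAbove_of_le_castSucc]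
      · rfl
      · exact not_lt.1 hk

end

section

variable {n : ℕ} {F : Type} [NormedAddCommGroup F] [InnerProductSpace ℝ F]

theorem posC_sum {ι : Type} (s : Finset ι) (d : ℕ) (f : ι → (List (E n F) →₀ ℝ))
    (h : ∀ i ∈ s, PosC d (f i)) : PosC d (∑ i ∈ s, f i) := by
  intro l hl
  have h1 := Finsupp.support_finsetSum hl
  rw [Finset.mem_biUnion] at h1
  obtain ⟨i, hi, hl'⟩ := h1
  exact h i hi l hl'

theorem posC_smul (d : ℕ) (c : ℝ) (f : List (E n F) →₀ ℝ) (h : PosC d f) : PosC d (c • f) :=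
  fun l hl => h l (Finsupp.support_smul hl)

theorem posC_lin (K : Pkg n F) (z : List (G n F) →₀ ℝ) (h : ∀ l ∈ z.support, l.length = n) :
    PosC n (lin ℝ K.φ z) := by
  rw [lin_apply]
  refine posC_sum _ _ _ fun l hl => posC_smul _ _ _ ?_
  have := K.pos l (le_of_eq (h l hl))
  rw [h l hl] at this
  exact this

theorem bd_lin (K : Pkg n F) (hn : 0 < n) (z : List (G n F) →₀ ℝ)
    (h : ∀ l ∈ z.support, l.length = n) : bd ℝ (lin ℝ K.φ z) = lin ℝ K.φ (bd ℝ z) := by
  have e : bd ℝ z = ∑ l ∈ z.support, z l • faces ℝ l := lin_apply _ _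
  rw [lin_apply, e, map_sum, map_sum]
  refine Finset.sum_congr rfl fun l hl => ?_
  rw [map_smul, map_smul, K.chain l ?_ (le_of_eq (h l hl))]
  intro h0
  have := h l hl
  rw [h0, List.length_nil] at this
  omega

theorem zc_lin (h1 : S_LC1) (K : Pkg n F) (hn : 0 < n) (l : List (G n F)) (hl : l.length = n + 1) :
    Zc (lin ℝ K.φ (faces ℝ l)) := by
  have hs : ∀ l' ∈ (faces ℝ l).support, l'.length = n := by
    intro l' hl'
    have := faces_support_length h1 l l' hl'
    omega
  refine ⟨posC_lin K _ hs, ?_⟩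
  rw [bd_lin K hn _ hs]
  have : bd ℝ (faces ℝ l) = 0 := by
    have h2 := (h1 ℝ (G n F) (G n F)).2.1 (Finsupp.single l 1)
    rwa [bd_single, one_smul] at h2
  rw [this, map_zero]

theorem zc_zero : Zc (0 : List (E n F) →₀ ℝ) := by
  refine ⟨fun l hl => ?_, map_zero _⟩
  simp at hl

theorem zc_add {z z' : List (E n F) →₀ ℝ} (h : Zc z) (h' : Zc z') : Zc (z + z') := by
  refine ⟨fun l hl => ?_, by rw [map_add, h.2, h'.2, add_zero]⟩
  rcases Finset.mem_union.1 (Finsupp.support_add hl) with h1 | h1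
  · exact h.1 l h1
  · exact h'.1 l h1

theorem zc_smul {z : List (E n F) →₀ ℝ} (c : ℝ) (h : Zc z) : Zc (c • z) :=
  ⟨posC_smul _ _ _ h.1, by rw [map_smul, h.2, smul_zero]⟩

theorem zc_sum {ι : Type} (s : Finset ι) (f : ι → (List (E n F) →₀ ℝ)) (h : ∀ i ∈ s, Zc (f i)) :
    Zc (∑ i ∈ s, f i) :=
  ⟨posC_sum s _ f fun i hi => (h i hi).1, by
    rw [map_sum]; exact Finset.sum_eq_zero fun i hi => (h i hi).2⟩

theorem deg_zero (K : DegPkg n F) : K.deg 0 = 0 := by
  have := K.smul 0 0 zc_zero
  rwa [zero_smul, zero_mul] at this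

theorem deg_sum (K : DegPkg n F) {ι : Type} (s : Finset ι) (f : ι → (List (E n F) →₀ ℝ))
    (h : ∀ i ∈ s, Zc (f i)) : K.deg (∑ i ∈ s, f i) = ∑ i ∈ s, K.deg (f i) := by
  induction s using Finset.induction_on with
  | empty => rw [Finset.sum_empty, Finset.sum_empty, deg_zero]
  | insert a s ha ih =>
    rw [Finset.sum_insert ha, Finset.sum_insert ha,
      K.add _ _ (h a (Finset.mem_insert_self a s))
        (zc_sum s f fun i hi => h i (Finset.mem_insert_of_mem hi)),
      ih fun i hi => h i (Finset.mem_insert_of_mem hi)]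

theorem mapm_single (f : G n F → G n F) (l : List (G n F)) (r : ℝ) :
    mapm ℝ f (Finsupp.single l r) = Finsupp.single (l.map f) r := by
  simp [mapm, Finsupp.lmapDomain_apply, Finsupp.mapDomain_single]

theorem lin_equiv (K : Pkg n F) (g : G n F) (z : List (G n F) →₀ ℝ)
    (h : ∀ l ∈ z.support, l.length = n) :
    lin ℝ K.φ (mapm ℝ (g * ·) z) = act ℝ g (lin ℝ K.φ z) := by
  have e : mapm ℝ (g * ·) z = ∑ l ∈ z.support, Finsupp.single (l.map (g * ·)) (z l) := by
    conv_lhs => rw [← Finsupp.sum_single z, Finsupp.sum, map_sum]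
    exact Finset.sum_congr rfl fun l _ => mapm_single _ _ _
  rw [e, lin_apply (K.φ) z, map_sum, map_sum]
  refine Finset.sum_congr rfl fun l hl => ?_
  rw [lin_single, map_smul, K.equiv g l (le_of_eq (h l hl))]

theorem fl_equiv (h1 : S_LC1) (K : Pkg n F) (hn : 0 < n) (g : G n F) (l : List (G n F))
    (hl : l.length = n + 1) :
    K.Fl (l.map (g * ·)) = (((chi n F g : ℤˣ) : ℤ) : ℝ) * K.Fl l := by
  unfold Pkg.Fl
  have hs : ∀ l' ∈ (faces ℝ l).support, l'.length = n := by
    intro l' hl'
    have := faces_support_length h1 l l' hl'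
    omega
  have e : faces ℝ (l.map (g * ·)) = mapm ℝ (g * ·) (faces ℝ l) := by
    have h2 := (h1 ℝ (G n F) (G n F)).2.2.1 (g * ·) (Finsupp.single l 1)
    rw [mapm_single, bd_single, bd_single, one_smul, one_smul] at h2
    exact h2
  rw [e, lin_equiv K g _ hs, K.equi g _ (zc_lin h1 K hn l hl)]

end

end BC

open BC in
theorem prfBC (h1 : S_LC1) : S_BC := by
  intro n F _ _ K hn
  refine ⟨⟨fun v => K.Fl (List.ofFn v), K.C, ?_, ?_, ?_⟩, rfl, fun v => rfl⟩
  · intro v
    exact K.bound _ (List.length_ofFn)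
  · intro h v
    have e : List.ofFn (fun i => h * v i) = (List.ofFn v).map (h * ·) := by
      rw [List.map_ofFn]
      rfl
    rw [e]
    exact fl_equiv h1 K hn h _ (List.length_ofFn)
  · intro v
    have hz : ∀ i : Fin (n + 2), Zc (lin ℝ K.φ (faces ℝ (List.ofFn fun k => v (i.succAbove k)))) :=
      fun i => zc_lin h1 K hn _ (List.length_ofFn)
    have e1 : ∀ i : Fin (n + 2), (-1 : ℝ) ^ (i : ℕ) * K.Fl (List.ofFn fun k => v (i.succAbove k)) =
        K.deg ((-1 : ℝ) ^ (i : ℕ) • lin ℝ K.φ (faces ℝ (List.ofFn fun k => v (i.succAbove k)))) := by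
      intro i
      rw [K.smul _ _ (hz i)]
      rfl
    rw [Finset.sum_congr rfl fun i _ => e1 i, ← deg_sum K.toDegPkg _ _ fun i _ => zc_smul _ (hz i)]
    have e2 : ∑ i : Fin (n + 2), (-1 : ℝ) ^ (i : ℕ) •
        lin ℝ K.φ (faces ℝ (List.ofFn fun k => v (i.succAbove k))) =
        lin ℝ K.φ (bd ℝ (bd ℝ (Finsupp.single (List.ofFn v) 1))) := by
      rw [bd_single, one_smul, faces_ofFn h1 v, map_sum, map_sum]
      refine Finset.sum_congr rfl fun i _ => ?_
      rw [bd_single, map_smul]
    rw [e2, (h1 ℝ (G n F) (G n F)).2.1, map_zero]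
    exact deg_zero _

end MP8a95ee.Eu

end

section

namespace MP8a95ee.Eu

open Classical

namespace DT

theorem sub_verts {L : Finset (Finset ℕ)} {σ : Finset ℕ} (h : σ ∈ L) : σ ⊆ verts L := by
  intro v hv
  exact Finset.mem_biUnion.mpr ⟨σ, h, hv⟩

theorem self_mem {L : Finset (Finset ℕ)} (hL : IsFlag L) {v : ℕ} (hv : v ∈ verts L) :
    ({v, v} : Finset ℕ) ∈ L := by
  obtain ⟨σ, hσ, hvσ⟩ := Finset.mem_biUnion.mp hv
  exact (hL σ).mp hσ v hvσ v hvσ

/-- The vectors of a face are linearly independent. -/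
theorem indep {n : ℕ} {L : Finset (Finset ℕ)} (hL : IsFlag L) {P : ℕ → Fin n → ℝ}
    {N : ℕ → ℕ → ℝ} (hP : IsPositive L P N) {σ : Finset ℕ} (hσ : σ ∈ L) :
    LinearIndepOn ℝ P (σ : Set ℕ) := by
  rw [linearIndepOn_finset_iff]
  intro y hy v hv
  by_contra hne
  have h := hP.2 (fun u => if u ∈ σ then y u else 0) ⟨v, sub_verts hσ hv, by simpa [hv] using hne⟩
    (by
      rw [← hy, ← Finset.sum_subset (sub_verts hσ)]
      · exact Finset.sum_congr rfl fun v hv => by rw [if_pos hv]
      · intro v _ hv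
        rw [if_neg hv, zero_smul])
  have h0 : ∑ u ∈ verts L, ∑ v ∈ verts L, (if u ∈ σ then y u else 0) * (if v ∈ σ then y v else 0) *
      N u v = 0 := by
    refine Finset.sum_eq_zero fun u _ => Finset.sum_eq_zero fun w _ => ?_
    by_cases hu : u ∈ σ
    · by_cases hw : w ∈ σ
      · rw [hP.1 u w ((hL σ).mp hσ u hu w hw), mul_zero]
      · rw [if_neg hw]; ring
    · rw [if_neg hu]; ring
  linarith

theorem exists_coord {n : ℕ} {P : ℕ → Fin n → ℝ} {σ : Finset ℕ}
    (h : LinearIndepOn ℝ P (σ : Set ℕ)) (hc : σ.card = n) (x : Fin n → ℝ) :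
    ∃ c : ℕ → ℝ, ∑ v ∈ σ, c v • P v = x := by
  have hli := h.linearIndependent
  have hspan : Submodule.span ℝ (Set.range fun v : (σ : Set ℕ) => P v) = ⊤ := by
    refine hli.span_eq_top_of_card_eq_finrank' ?_
    simp [hc]
  have hx : x ∈ Submodule.span ℝ (Set.range fun v : (σ : Set ℕ) => P v) := by
    rw [hspan]; trivial
  obtain ⟨c, hcx⟩ := (Submodule.mem_span_range_iff_exists_fun ℝ).mp hx
  refine ⟨fun v => if hv : v ∈ σ then c ⟨v, hv⟩ else 0, ?_⟩
  rw [← hcx, ← Finset.sum_coe_sort]
  refine Finset.sum_congr rfl fun v _ => ?_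
  simp

end DT

theorem prfDT (hQF : S_QF) (hGR : S_GR) : S_DT := by
  intro n F _ _ hF L P N p hL hP hp
  obtain ⟨a0, δ, ha0, hδ, hq⟩ := hQF n L P N hP
  set a : ℝ := Real.sqrt (a0 / δ) with hadef
  have ha2 : a ^ 2 = a0 / δ := Real.sq_sqrt (by positivity)
  have ha : 0 < a := Real.sqrt_pos.mpr (by positivity)
  set V := verts L with hV
  set Ns : ℕ → ℕ → ℝ := fun u v => (N u v + N v u) / 2 with hNs
  set Y : ℕ → ℕ → ℝ := fun u v => a ^ 2 * (P u ⬝ᵥ P v) + (1 / δ) * Ns u v -
    (if u = v then 1 else 0) with hY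
  have hYsym : ∀ u v, Y u v = Y v u := by
    intro u v
    simp only [hY, hNs]
    rw [dotProduct_comm, add_comm (N u v)]
    congr 1
    by_cases h : u = v
    · rw [if_pos h, if_pos h.symm]
    · rw [if_neg h, if_neg (Ne.symm h)]
  have hYpos : ∀ y : ℕ → ℝ, 0 ≤ ∑ u ∈ V, ∑ v ∈ V, y u * y v * Y u v := by
    intro y
    have h1 : ∑ u ∈ V, ∑ v ∈ V, y u * y v * Y u v =
        a ^ 2 * (∑ u ∈ V, ∑ v ∈ V, y u * y v * (P u ⬝ᵥ P v)) +
        (1 / δ) * (∑ u ∈ V, ∑ v ∈ V, y u * y v * Ns u v) -
        ∑ u ∈ V, ∑ v ∈ V, y u * y v * (if u = v then 1 else 0) := by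
      rw [Finset.mul_sum, Finset.mul_sum, ← Finset.sum_add_distrib, ← Finset.sum_sub_distrib]
      refine Finset.sum_congr rfl fun u _ => ?_
      rw [Finset.mul_sum, Finset.mul_sum, ← Finset.sum_add_distrib, ← Finset.sum_sub_distrib]
      refine Finset.sum_congr rfl fun v _ => ?_
      simp only [hY]
      ring
    have h2 : ∑ u ∈ V, ∑ v ∈ V, y u * y v * (P u ⬝ᵥ P v) =
        ∑ i : Fin n, (∑ v ∈ V, y v * P v i) ^ 2 := by
      have h3 : ∀ i : Fin n, (∑ v ∈ V, y v * P v i) ^ 2 =
          ∑ u ∈ V, ∑ v ∈ V, y u * y v * (P u i * P v i) := by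
        intro i
        rw [sq, Finset.sum_mul_sum]
        refine Finset.sum_congr rfl fun u _ => Finset.sum_congr rfl fun v _ => ?_
        ring
      simp only [h3]
      symm
      rw [Finset.sum_comm]
      refine Finset.sum_congr rfl fun u _ => ?_
      rw [Finset.sum_comm]
      refine Finset.sum_congr rfl fun v _ => ?_
      rw [dotProduct, Finset.mul_sum]
    have h4 : ∑ u ∈ V, ∑ v ∈ V, y u * y v * Ns u v = ∑ u ∈ V, ∑ v ∈ V, y u * y v * N u v := by
      have h5 : ∑ u ∈ V, ∑ v ∈ V, y u * y v * N v u = ∑ u ∈ V, ∑ v ∈ V, y u * y v * N u v := by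
        rw [Finset.sum_comm]
        refine Finset.sum_congr rfl fun u _ => Finset.sum_congr rfl fun v _ => ?_
        ring
      have h6 : ∑ u ∈ V, ∑ v ∈ V, y u * y v * Ns u v =
          (1 / 2) * (∑ u ∈ V, ∑ v ∈ V, y u * y v * N u v) +
          (1 / 2) * ∑ u ∈ V, ∑ v ∈ V, y u * y v * N v u := by
        rw [Finset.mul_sum, Finset.mul_sum, ← Finset.sum_add_distrib]
        refine Finset.sum_congr rfl fun u _ => ?_
        rw [Finset.mul_sum, Finset.mul_sum, ← Finset.sum_add_distrib]
        refine Finset.sum_congr rfl fun v _ => ?_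
        simp only [hNs]
        ring
      rw [h6, h5]
      ring
    have h7 : ∑ u ∈ V, ∑ v ∈ V, y u * y v * (if u = v then (1 : ℝ) else 0) =
        ∑ v ∈ V, y v ^ 2 := by
      refine Finset.sum_congr rfl fun u hu => ?_
      simp only [mul_ite, mul_one, mul_zero]
      rw [Finset.sum_ite_eq V u, if_pos hu, sq]
    rw [h1, h2, h4, h7, ha2]
    have h8 := hq y
    have h9 : ∑ v ∈ V, y v ^ 2 ≤ (1 / δ) * (a0 * ∑ i : Fin n, (∑ v ∈ V, y v * P v i) ^ 2 +
        ∑ u ∈ V, ∑ v ∈ V, y u * y v * N u v) := by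
      rw [one_div, ← div_eq_inv_mul, le_div_iff₀ hδ, mul_comm]
      exact h8
    have h10 : a0 / δ * ∑ i : Fin n, (∑ v ∈ V, y v * P v i) ^ 2 =
        (1 / δ) * (a0 * ∑ i : Fin n, (∑ v ∈ V, y v * P v i) ^ 2) := by ring
    rw [h10]
    linarith
  obtain ⟨Q, hQ⟩ := hGR F hF V Y hYsym hYpos
  have hB : ∀ u ∈ V, ∀ v ∈ V, B ((a • P u, Q u) : E n F) (a • P v, Q v) =
      (if u = v then 1 else 0) - (1 / δ) * Ns u v := by
    intro u hu v hv
    unfold B
    simp only
    rw [hQ u hu v hv]
    simp only [hY]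
    rw [smul_dotProduct, dotProduct_smul]
    simp only [smul_eq_mul]
    ring
  have hBe : ∀ u v : ℕ, ({u, v} : Finset ℕ) ∈ L → Ns u v = 0 := by
    intro u v h
    simp only [hNs]
    rw [hP.1 u v h, hP.1 v u (by rwa [Finset.pair_comm])]
    ring
  have hcoord : ∀ σ ∈ L, σ.card = n → ∃ c : ℕ → ℝ, ∑ v ∈ σ, c v • (a • P v) = p := by
    intro σ hσ hc
    obtain ⟨c, hcx⟩ := DT.exists_coord (DT.indep hL hP hσ) hc p
    refine ⟨fun v => c v / a, ?_⟩
    rw [← hcx]
    refine Finset.sum_congr rfl fun v _ => ?_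
    rw [smul_smul, div_mul_cancel₀ _ ha.ne']
  refine ⟨{
    e := fun v => (a • P v, Q v)
    p := p
    x := fun σ => if h : σ ∈ L ∧ σ.card = n then
      ∑ v ∈ σ, (Classical.choose (hcoord σ h.1 h.2)) v • ((a • P v, Q v) : E n F) else 0
    unit := ?_
    orth := ?_
    gen := ?_
    x_fst := ?_
    x_mem := ?_ }, a, ha, rfl, fun v _ => rfl⟩
  · intro v hv
    rw [hB v hv v hv, if_pos rfl, hBe v v (DT.self_mem hL hv)]
    ring
  · intro u v huv he
    have hu : u ∈ V := DT.sub_verts he (by simp)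
    have hv : v ∈ V := DT.sub_verts he (by simp)
    rw [hB u hu v hv, if_neg huv, hBe u v he]
    ring
  · intro ρ hρ hc hmem
    refine hp ρ hρ hc ?_
    refine (Submodule.span_le.mpr ?_) hmem
    rintro _ ⟨v, hv, rfl⟩
    exact Submodule.smul_mem _ _ (Submodule.subset_span ⟨v, hv, rfl⟩)
  · intro σ hσ hc
    simp only [dif_pos (And.intro hσ hc)]
    rw [Prod.fst_sum]
    exact Classical.choose_spec (hcoord σ hσ hc)
  · intro σ hσ hc
    simp only [dif_pos (And.intro hσ hc)]
    refine Submodule.sum_mem _ fun v hv => Submodule.smul_mem _ _ (Submodule.subset_span ?_)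
    exact ⟨v, hv, rfl⟩

end MP8a95ee.Eu

end

section

/-!
# Bounded Euler class of O(n, infinity), item EV: evaluation of the cocycle
-/

namespace MP8a95ee.Eu

open Classical

namespace EV

section Gen

variable {α β : Type} {M M' : Type} [AddCommGroup M] [Module ℝ M] [AddCommGroup M'] [Module ℝ M']

theorem lin_apply (f : List α → M) (z : List α →₀ ℝ) :
    lin ℝ f z = z.sum fun l a => a • f l := by
  unfold lin
  rw [Finsupp.linearCombination_apply]

theorem lin_single (f : List α → M) (l : List α) (a : ℝ) :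
    lin ℝ f (Finsupp.single l a) = a • f l := by
  unfold lin
  rw [Finsupp.linearCombination_single]

theorem lin_congr {f g : List α → M} {z : List α →₀ ℝ} (h : ∀ l ∈ z.support, f l = g l) :
    lin ℝ f z = lin ℝ g z := by
  rw [lin_apply, lin_apply]
  exact Finsupp.sum_congr (fun l hl => by rw [h l hl])

theorem map_lin (T : M →ₗ[ℝ] M') (f : List α → M) (z : List α →₀ ℝ) :
    T (lin ℝ f z) = lin ℝ (fun l => T (f l)) z := by
  rw [lin_apply, lin_apply, map_finsuppSum]
  exact Finsupp.sum_congr (fun l _ => map_smul _ _ _)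

theorem lin_mapm (f : List β → M) (g : α → β) (z : List α →₀ ℝ) :
    lin ℝ f (mapm ℝ g z) = lin ℝ (fun l => f (l.map g)) z := by
  unfold lin mapm
  rw [Finsupp.lmapDomain_apply, Finsupp.linearCombination_mapDomain]
  rfl

theorem bd_single (l : List α) : bd ℝ (Finsupp.single l 1) = faces ℝ l := by
  unfold bd
  rw [Finsupp.linearCombination_single, one_smul]

theorem bd_eq (z : List α →₀ ℝ) : bd ℝ z = lin ℝ (faces ℝ) z := rfl

theorem mapm_single (g : α → β) (l : List α) (a : ℝ) :
    mapm ℝ g (Finsupp.single l a) = Finsupp.single (l.map g) a := by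
  unfold mapm
  rw [Finsupp.lmapDomain_apply, Finsupp.mapDomain_single]

theorem faces_map (h1 : S_LC1) (g : α → β) (l : List α) :
    faces ℝ (l.map g) = mapm ℝ g (faces ℝ l) := by
  have := (h1 ℝ α β).2.2.1 g (Finsupp.single l 1)
  rwa [mapm_single, bd_single, bd_single] at this

theorem bd_faces (h1 : S_LC1) (l : List α) : bd ℝ (faces ℝ l) = 0 := by
  have h2 := (h1 ℝ α α).2.1 (Finsupp.single l 1)
  rwa [bd_single] at h2

theorem lin_faces (h1 : S_LC1) (f : List α → M) (l : List α) :
    lin ℝ (fun l' => lin ℝ f (faces ℝ l')) (faces ℝ l) = 0 := by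
  rw [← map_lin (lin ℝ f) (faces ℝ) (faces ℝ l), ← bd_eq, bd_faces h1, map_zero]

theorem faces_len (h1 : S_LC1) {l l' : List α} (h : l' ∈ (faces ℝ l).support) :
    l'.length + 1 = l.length ∧ l'.Sublist l := (h1 ℝ α α).2.2.2.1 l l' h

end Gen

theorem map_sumV {M M' : Type} [AddCommMonoid M] [AddCommMonoid M'] (T : M →+ M')
    (V : Finset ℕ) : ∀ (j : ℕ) (f : List ℕ → M), T (sumV V j f) = sumV V j (fun s => T (f s)) := by
  intro j
  induction j with
  | zero => intro f; rfl
  | succ j ih =>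
    intro f
    show T (∑ v ∈ V, sumV V j (fun s => f (v :: s))) = ∑ v ∈ V, sumV V j (fun s => T (f (v :: s)))
    rw [map_sum]
    exact Finset.sum_congr rfl fun v _ => ih _

theorem sumV_congr {M : Type} [AddCommMonoid M] (V : Finset ℕ) :
    ∀ (j : ℕ) (f g : List ℕ → M), (∀ s, s.length = j → f s = g s) → sumV V j f = sumV V j g := by
  intro j
  induction j with
  | zero => intro f g h; exact h [] rfl
  | succ j ih =>
    intro f g h
    exact Finset.sum_congr rfl fun v _ => ih _ _ fun s hs => h _ (by rw [List.length_cons, hs])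

theorem wk_length {H : Type} [Group H] (r : ℕ → H) :
    ∀ (g : H) (s : List ℕ), (wk r g s).length = s.length + 1 := by
  intro g s
  induction s generalizing g with
  | nil => rfl
  | cons v s ih => rw [wk, List.length_cons, ih, List.length_cons]

theorem inj_of_ne_zero {L : Finset (Finset ℕ)} {n : ℕ} {o : (Fin n → ℕ) → ℤ}
    (ho : IsSimplicialCycle L n o) {s : Fin n → ℕ} (hs : o s ≠ 0) : Function.Injective s := by
  intro i j hij
  by_contra hne
  have h1 := ho.1 s i j hne
  have h2 : s ∘ Equiv.swap i j = s := by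
    funext k
    simp only [Function.comp_apply]
    rcases eq_or_ne k i with rfl | hki
    · rw [Equiv.swap_apply_left, hij]
    · rcases eq_or_ne k j with rfl | hkj
      · rw [Equiv.swap_apply_right, hij]
      · rw [Equiv.swap_apply_of_ne_of_ne hki hkj]
  rw [h2] at h1
  exact hs (by omega)

theorem oL_ne {L : Finset (Finset ℕ)} {n : ℕ} {o : (Fin n → ℕ) → ℤ}
    (ho : IsSimplicialCycle L n o) (s : List ℕ) (hs : oL o s ≠ 0) :
    s.toFinset ∈ L ∧ s.toFinset.card = n := by
  unfold oL at hs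
  by_cases hl : s.length = n
  · rw [if_pos hl] at hs
    have h2 : o (fun i => s.getD i 0) ≠ 0 := fun h => hs (by rw [h, Int.cast_zero])
    have h3 := ho.2.1 _ h2
    have h4 := inj_of_ne_zero ho h2
    have h5 : Finset.univ.image (fun i : Fin n => s.getD i 0) = s.toFinset := by
      ext x
      rw [Finset.mem_image, List.mem_toFinset, List.mem_iff_getElem]
      constructor
      · rintro ⟨i, -, hi⟩
        have hi' : (i : ℕ) < s.length := by rw [hl]; exact i.2
        refine ⟨i, hi', ?_⟩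
        rw [← hi, List.getD_eq_getElem _ _ hi']
      · rintro ⟨i, hi, rfl⟩
        exact ⟨⟨i, by rw [← hl]; exact hi⟩, Finset.mem_univ _, List.getD_eq_getElem _ _ hi⟩
    rw [h5] at h3
    refine ⟨h3, ?_⟩
    rw [← h5, Finset.card_image_of_injective _ h4, Finset.card_univ, Fintype.card_fin]
  · rw [if_neg hl] at hs
    exact absurd rfl hs

section Space

variable {n : ℕ} {F : Type} [NormedAddCommGroup F] [InnerProductSpace ℝ F]

theorem posC_iff (d : ℕ) (z : List (E n F) →₀ ℝ) :
    PosC d z ↔ z ∈ Finsupp.supported ℝ ℝ {l : List (E n F) | l.length = d ∧ PosL l} := by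
  rw [Finsupp.mem_supported]
  rfl

theorem posC_zero (d : ℕ) : PosC d (0 : List (E n F) →₀ ℝ) := by
  rw [posC_iff]
  exact Submodule.zero_mem _

theorem posC_add {d : ℕ} {z z' : List (E n F) →₀ ℝ} (h : PosC d z) (h' : PosC d z') :
    PosC d (z + z') := by
  rw [posC_iff] at *
  exact Submodule.add_mem _ h h'

theorem posC_smul {d : ℕ} (c : ℝ) {z : List (E n F) →₀ ℝ} (h : PosC d z) :
    PosC d (c • z) := by
  rw [posC_iff] at *
  exact Submodule.smul_mem _ c h

theorem posC_lin {α : Type} {d : ℕ} {f : List α → (List (E n F) →₀ ℝ)} {z : List α →₀ ℝ}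
    (h : ∀ l ∈ z.support, PosC d (f l)) : PosC d (lin ℝ f z) := by
  rw [posC_iff, lin_apply]
  refine Submodule.sum_mem _ fun l hl => Submodule.smul_mem _ _ ?_
  rw [← posC_iff]
  exact h l hl

theorem posC_single {l : List (E n F)} (h : PosL l) :
    PosC l.length (Finsupp.single l (1 : ℝ)) := by
  intro l' hl'
  have : l' = l := by
    have := Finsupp.support_single_subset hl'
    simpa using this
  rw [this]
  exact ⟨rfl, h⟩

theorem zc_zero : Zc (0 : List (E n F) →₀ ℝ) := ⟨posC_zero _, map_zero _⟩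

theorem zc_add {z z' : List (E n F) →₀ ℝ} (h : Zc z) (h' : Zc z') : Zc (z + z') :=
  ⟨posC_add h.1 h'.1, by rw [map_add, h.2, h'.2, add_zero]⟩

theorem zc_smul (c : ℝ) {z : List (E n F) →₀ ℝ} (h : Zc z) : Zc (c • z) :=
  ⟨posC_smul c h.1, by rw [map_smul, h.2, smul_zero]⟩

theorem deg_zero (K : DegPkg n F) : K.deg 0 = 0 := by
  have := K.smul 0 0 zc_zero
  rwa [zero_mul, smul_zero] at this

theorem deg_sum (K : DegPkg n F) {ι : Type} (s : Finset ι) (f : ι → (List (E n F) →₀ ℝ))
    (hf : ∀ i ∈ s, Zc (f i)) :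
    Zc (∑ i ∈ s, f i) ∧ K.deg (∑ i ∈ s, f i) = ∑ i ∈ s, K.deg (f i) := by
  induction s using Finset.induction_on with
  | empty =>
    rw [Finset.sum_empty, Finset.sum_empty]
    exact ⟨zc_zero, deg_zero K⟩
  | insert a s has ih =>
    obtain ⟨i1, i2⟩ := ih (fun x hx => hf x (Finset.mem_insert_of_mem hx))
    have h3 := hf a (Finset.mem_insert_self _ _)
    rw [Finset.sum_insert has, Finset.sum_insert has]
    exact ⟨zc_add h3 i1, by rw [K.add _ _ h3 i1, i2]⟩

theorem deg_sumV (K : DegPkg n F) (V : Finset ℕ) :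
    ∀ (j : ℕ) (f : List ℕ → (List (E n F) →₀ ℝ)), (∀ s, s.length = j → Zc (f s)) →
      Zc (sumV V j f) ∧ K.deg (sumV V j f) = sumV V j (fun s => K.deg (f s)) := by
  intro j
  induction j with
  | zero => intro f h; exact ⟨h [] rfl, rfl⟩
  | succ j ih =>
    intro f h
    have h2 : ∀ v ∈ V, Zc (sumV V j (fun s => f (v :: s))) := fun v _ =>
      (ih _ fun s hs => h _ (by rw [List.length_cons, hs])).1
    obtain ⟨h3, h4⟩ := deg_sum K V (fun v => sumV V j (fun s => f (v :: s))) h2
    refine ⟨h3, ?_⟩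
    show K.deg (∑ v ∈ V, sumV V j (fun s => f (v :: s))) = _
    rw [h4]
    exact Finset.sum_congr rfl fun v _ => (ih _ fun s hs => h _ (by rw [List.length_cons, hs])).2

theorem zc_phi (h1 : S_LC1) (hn : 0 < n) (K : Pkg n F) (m : List (G n F))
    (hm : m.length = n + 1) : Zc (lin ℝ K.φ (faces ℝ m)) := by
  have hlen : ∀ l' ∈ (faces ℝ m).support, l'.length = n := fun l' hl' => by
    have := (faces_len h1 hl').1
    omega
  refine ⟨posC_lin fun l' hl' => ?_, ?_⟩
  · have := K.pos l' (hlen l' hl').le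
    rwa [hlen l' hl'] at this
  · rw [map_lin]
    have e : lin ℝ (fun l => bd ℝ (K.φ l)) (faces ℝ m) =
        lin ℝ (fun l => lin ℝ K.φ (faces ℝ l)) (faces ℝ m) := by
      refine lin_congr fun l' hl' => K.chain l' ?_ (hlen l' hl').le
      rintro rfl
      have := hlen [] hl'
      simp at this
      omega
    rw [e, lin_faces h1]

variable {L : Finset (Finset ℕ)}

theorem KL_sub {Dt : Dat n F L} {l l' : List (G n F × Finset ℕ)} (h : KL Dt l)
    (hl : ∀ a ∈ l', a ∈ l) : KL Dt l' := by
  obtain ⟨g, ρ, hρ, hc, H⟩ := h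
  exact ⟨g, ρ, hρ, hc, fun a ha => H a (hl a ha)⟩

theorem thc_bd (h1 : S_LC1) (Dt : Dat n F L) (y : List (G n F × Finset ℕ) →₀ ℝ) :
    bd ℝ (lin ℝ (thc Dt) y) = lin ℝ (thc Dt) (bd ℝ y) := by
  have h2 : ∀ y : List (G n F × Finset ℕ) →₀ ℝ,
      lin ℝ (thc Dt) y = mapm ℝ (fun a : G n F × Finset ℕ => a.1.1.1 (Dt.x a.2)) y := by
    intro y
    unfold mapm
    rw [Finsupp.lmapDomain_apply, Finsupp.mapDomain, lin_apply]
    refine Finsupp.sum_congr fun l _ => ?_
    unfold thc th
    rw [Finsupp.smul_single, smul_eq_mul, mul_one]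
  rw [h2, h2, (h1 ℝ _ _).2.2.1]

end Space

end EV

open EV in
theorem prfEV (h1 : S_LC1) (z2 : S_Z2) (z4 : S_Z4) (z5 : S_Z5) (h0 : S_H0) (hh : S_H2)
    (h3 : S_H3) (hk : S_H1) : S_EV := by
  intro n F _ _ L Dt K o hn hL ho
  obtain ⟨Dl⟩ := z2 n L o hn ho
  obtain ⟨d, hd, hdy⟩ := hh n F L Dt K hn hL
  obtain ⟨h01, h02, -, -⟩ := h0 n F L Dt hL
  have hZ4 := z4 n L o Dl (G n F) (chi n F) Dt.r hn hL (fun v hv => (h01 v hv).2.1) h02 d hd
  obtain ⟨hZ1, hZ2, hZ3⟩ := z5 n L o Dl (G n F) Dt.r hn hL h02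
  obtain ⟨hH1, hH2⟩ := h3 n F L Dt o Dl hn hL
  -- the terms with j < n
  have hface : ∀ l : List (G n F × Finset ℕ), l.length = n + 1 → KL Dt l →
      lin ℝ d (faces ℝ l) = K.Fl (l.map Prod.fst) := by
    intro l hl hKL
    have e1 := hdy (faces ℝ l) (fun l' hl' => by
      obtain ⟨a1, a2⟩ := faces_len h1 hl'
      exact ⟨by omega, KL_sub hKL fun a ha => a2.subset ha⟩) (bd_faces h1 l)
    have e2 : lin ℝ (thc Dt) (faces ℝ l) = bd ℝ (Finsupp.single (th Dt l) 1) := by
      have := thc_bd h1 Dt (Finsupp.single l 1)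
      rw [bd_single, lin_single, one_smul] at this
      exact this.symm
    have e3 : K.deg (lin ℝ (thc Dt) (faces ℝ l)) = 0 := by
      rw [e2]
      apply K.bdry
      have h5 := posC_single (hk n F L Dt hL l hKL)
      have h6 : (th Dt l).length = n + 1 := by
        unfold th
        rw [List.length_map, hl]
      rwa [h6] at h5
    rw [e3, add_zero, ← faces_map h1] at e1
    exact e1.symm
  have hj : ∀ j < n, lin ℝ d (bd ℝ (Zj Dl Dt.r j)) = 0 := by
    intro j hjn
    rw [bd_eq, map_lin]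
    have e1 : lin ℝ (fun l => lin ℝ d (faces ℝ l)) (Zj Dl Dt.r j) =
        lin ℝ (fun l => K.Fl (l.map Prod.fst)) (Zj Dl Dt.r j) :=
      lin_congr fun l hl => hface l (hH1 j hjn l hl).1 (hH1 j hjn l hl).2
    rw [e1, ← lin_mapm, hZ2 j hjn, map_zero]
  have hlast : lin ℝ d (Yc n (oL o) Dt.r (verts L)) = 0 := by
    rw [Finset.sum_range_succ, Finset.sum_eq_zero, zero_add, Nat.sub_self, pow_zero, one_mul,
      hZ1] at hZ4
    · exact hZ4
    · intro j hj'
      rw [hj j (Finset.mem_range.1 hj'), mul_zero]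
  have hbd : bd ℝ (Yc n (oL o) Dt.r (verts L)) = 0 := by
    rw [← hZ1]
    exact (h1 ℝ _ (G n F)).2.1 _
  have e5 := hdy (Yc n (oL o) Dt.r (verts L)) (hH2 (oL o) (oL_ne ho)) hbd
  rw [hlast, zero_add] at e5
  rw [← e5, ← hZ1, ← (h1 ℝ _ _).2.2.1, hZ3]
  have e6 : lin ℝ K.φ (bd ℝ (sumV (verts L) n
      (fun s => oL o s • Finsupp.single (wk Dt.r 1 s) (1 : ℝ)))) =
      sumV (verts L) n (fun s => oL o s • lin ℝ K.φ (faces ℝ (wk Dt.r 1 s))) := by
    have e7 := map_sumV ((lin ℝ K.φ).comp (bd ℝ)).toAddMonoidHom (verts L) n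
      (fun s => oL o s • Finsupp.single (wk Dt.r 1 s) (1 : ℝ))
    refine e7.trans (sumV_congr _ _ _ _ fun s _ => ?_)
    show lin ℝ K.φ (bd ℝ (oL o s • Finsupp.single (wk Dt.r 1 s) (1 : ℝ))) = _
    rw [map_smul, map_smul, bd_single]
  have hzc : ∀ s : List ℕ, s.length = n → Zc (lin ℝ K.φ (faces ℝ (wk Dt.r 1 s))) := fun s hs =>
    zc_phi h1 hn K _ (by rw [wk_length, hs])
  rw [e6, (deg_sumV K.toDegPkg (verts L) n
    (fun s => oL o s • lin ℝ K.φ (faces ℝ (wk Dt.r 1 s))) fun s hs => zc_smul _ (hzc s hs)).2]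
  refine sumV_congr _ _ _ _ fun s hs => ?_
  rw [K.smul _ _ (hzc s hs)]
  rfl

end MP8a95ee.Eu

end

section

namespace MP8a95ee.Eu

open Classical

namespace FN0

theorem sub_verts {L : Finset (Finset ℕ)} {σ : Finset ℕ} (h : σ ∈ L) : σ ⊆ verts L := by
  intro v hv
  exact Finset.mem_biUnion.mpr ⟨σ, h, hv⟩

theorem ext_sum {n : ℕ} {L : Finset (Finset ℕ)} (P : ℕ → Fin n → ℝ) {σ : Finset ℕ} (h : σ ∈ L)
    (c : ℕ → ℝ) :
    ∑ v ∈ verts L, (if v ∈ σ then c v else 0) • P v = ∑ v ∈ σ, c v • P v := by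
  rw [← Finset.sum_subset (sub_verts h)]
  · exact Finset.sum_congr rfl fun v hv => by rw [if_pos hv]
  · intro v _ hv
    rw [if_neg hv, zero_smul]

theorem key {n : ℕ} {L : Finset (Finset ℕ)} {P : ℕ → Fin n → ℝ} (hC : IsCompleteFan L P)
    {σ τ : Finset ℕ} (hσ : σ ∈ L) (hτ : τ ∈ L) {c d : ℕ → ℝ} (hc : ∀ v ∈ σ, 0 ≤ c v)
    (hd : ∀ v ∈ τ, 0 ≤ d v) (he : ∑ v ∈ σ, c v • P v = ∑ v ∈ τ, d v • P v) (v : ℕ) :
    (if v ∈ σ then c v else 0) = (if v ∈ τ then d v else 0) := by
  have h := (hC (∑ v ∈ σ, c v • P v)).unique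
    (y₁ := fun v => if v ∈ σ then c v else 0) (y₂ := fun v => if v ∈ τ then d v else 0)
    ⟨fun v => ?_, ⟨σ, hσ, fun v hv => ?_⟩, ext_sum P hσ c⟩
    ⟨fun v => ?_, ⟨τ, hτ, fun v hv => ?_⟩, by rw [ext_sum P hτ d, he]⟩
  · exact congrFun h v
  · by_cases hv : v ∈ σ
    · simp only [if_pos hv]; exact hc v hv
    · simp only [if_neg hv]; exact le_refl _
  · by_contra h
    exact hv (if_neg h)
  · by_cases hv : v ∈ τ
    · simp only [if_pos hv]; exact hd v hv
    · simp only [if_neg hv]; exact le_refl _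
  · by_contra h
    exact hv (if_neg h)

end FN0

theorem prfFN0 : S_FN0 := by
  intro n L P _ hC
  refine ⟨fun σ hσ => ?_, fun σ hσ τ hτ c d hc hd he => ?_, fun x => ?_⟩
  · have hli : LinearIndepOn ℝ P (σ : Set ℕ) := by
      rw [linearIndepOn_finset_iff]
      intro y hy v hv
      have h1 : ∑ v ∈ σ, max (y v) 0 • P v = ∑ v ∈ σ, max (-(y v)) 0 • P v := by
        rw [← sub_eq_zero, ← Finset.sum_sub_distrib]
        rw [← hy]
        refine Finset.sum_congr rfl fun v _ => ?_
        rw [← sub_smul]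
        congr 1
        rcases le_total 0 (y v) with h | h
        · rw [max_eq_left h, max_eq_right (by linarith)]
          ring
        · rw [max_eq_right h, max_eq_left (by linarith)]
          ring
      have h2 := FN0.key hC hσ hσ (fun v _ => le_max_right _ _) (fun v _ => le_max_right _ _) h1 v
      rw [if_pos hv, if_pos hv] at h2
      rcases le_total 0 (y v) with h | h
      · rw [max_eq_left h, max_eq_right (by linarith)] at h2
        exact h2
      · rw [max_eq_right h, max_eq_left (by linarith)] at h2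
        linarith
    refine ⟨hli, ?_⟩
    have h1 := hli.linearIndependent.fintype_card_le_finrank
    simpa using h1
  · have h := FN0.key hC hσ hτ hc hd he
    refine ⟨fun v h1 h2 => ?_, fun v h1 h2 => ?_, fun v h1 h2 => ?_⟩
    · have := h v
      rwa [if_pos h1, if_pos h2] at this
    · have := h v
      rwa [if_pos h1, if_neg h2] at this
    · have := h v
      rw [if_neg h2, if_pos h1] at this
      exact this.symm
  · obtain ⟨c, ⟨hc, ⟨σ, hσ, hs⟩, hx⟩, _⟩ := hC x
    refine ⟨σ, hσ, c, fun v _ => hc v, ?_⟩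
    rw [← hx]
    refine Finset.sum_subset (FN0.sub_verts hσ) fun v _ hv => ?_
    have : c v = 0 := by
      by_contra h
      exact hv (hs v h)
    rw [this, zero_smul]

end MP8a95ee.Eu

end

section

/-!
# MP_8a95ee, Eu, FN1: the star of a face of a complete fan is complete
-/

namespace MP8a95ee.Eu

open Classical

namespace FN1

theorem face_sub {L : Finset (Finset ℕ)} (hF : IsFlag L) {σ τ : Finset ℕ} (hσ : σ ∈ L)
    (h : τ ⊆ σ) : τ ∈ L :=
  (hF τ).2 fun x hx y hy => (hF σ).1 hσ x (h hx) y (h hy)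

theorem indep {n : ℕ} {P : ℕ → Fin n → ℝ} {σ : Finset ℕ} (h : LinearIndepOn ℝ P (σ : Set ℕ))
    {c : ℕ → ℝ} (hc : ∑ v ∈ σ, c v • P v = 0) : ∀ v ∈ σ, c v = 0 :=
  linearIndepOn_finset_iff.1 h c hc

theorem mem_span {n : ℕ} (P : ℕ → Fin n → ℝ) (σ : Finset ℕ) (c : ℕ → ℝ) :
    ∑ v ∈ σ, c v • P v ∈ Submodule.span ℝ (P '' (σ : Set ℕ)) :=
  Submodule.sum_mem _ fun v hv => Submodule.smul_mem _ _ (Submodule.subset_span ⟨v, hv, rfl⟩)

/-- The linear relation between the decompositions along the ray `M a + p`. -/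
theorem ray {n : ℕ} {L : Finset (Finset ℕ)} {P : ℕ → Fin n → ℝ}
    (h1 : ∀ σ ∈ L, LinearIndepOn ℝ P (σ : Set ℕ) ∧ σ.card ≤ n)
    (h3 : ∀ x : Fin n → ℝ, ∃ σ ∈ L, ∃ c : ℕ → ℝ, (∀ v ∈ σ, 0 ≤ c v) ∧ ∑ v ∈ σ, c v • P v = x)
    (a p : Fin n → ℝ) :
    ∃ σ ∈ L, ∃ (d c : ℕ → ℝ) (m : ℝ), (∀ v ∈ σ, 0 ≤ d v) ∧ (∀ v ∈ σ, 0 ≤ c v) ∧
      ∑ v ∈ σ, d v • P v = a ∧ ∑ v ∈ σ, c v • P v = m • a + p := by
  choose s hs c hc hsum using fun M : ℕ => h3 ((M : ℝ) • a + p)
  obtain ⟨y, hy⟩ := Finite.exists_infinite_fiber (fun M : ℕ => (⟨s M, hs M⟩ : {σ // σ ∈ L}))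
  have hinf : (((fun M : ℕ => (⟨s M, hs M⟩ : {σ // σ ∈ L})) ⁻¹' {y}) : Set ℕ).Infinite :=
    Set.infinite_coe_iff.1 hy
  have hmem : ∀ M ∈ (((fun M : ℕ => (⟨s M, hs M⟩ : {σ // σ ∈ L})) ⁻¹' {y}) : Set ℕ),
      s M = y.1 := fun M hM => congrArg Subtype.val (show (⟨s M, hs M⟩ : {σ // σ ∈ L}) = y from hM)
  obtain ⟨M0, hM0⟩ := hinf.nonempty
  obtain ⟨M1, hM1, h01⟩ := hinf.exists_gt M0
  have h01' : (0 : ℝ) < (M1 : ℝ) - M0 := sub_pos.2 (by exact_mod_cast h01)
  obtain ⟨σ, hσ⟩ := y
  have e0 : s M0 = σ := hmem M0 hM0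
  have e1 : s M1 = σ := hmem M1 hM1
  set d : ℕ → ℝ := fun v => (c M1 v - c M0 v) / ((M1 : ℝ) - M0) with hd
  have hda : ∑ v ∈ σ, d v • P v = a := by
    have g0 := hsum M0
    have g1 := hsum M1
    rw [e0] at g0
    rw [e1] at g1
    have g2 : ∑ v ∈ σ, d v • P v = ((M1 : ℝ) - M0)⁻¹ •
        (∑ v ∈ σ, c M1 v • P v - ∑ v ∈ σ, c M0 v • P v) := by
      rw [← Finset.sum_sub_distrib, Finset.smul_sum]
      refine Finset.sum_congr rfl fun v _ => ?_
      rw [hd, ← sub_smul, smul_smul]
      congr 1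
      ring
    rw [g2, g0, g1]
    have g3 : (M1 : ℝ) • a + p - ((M0 : ℝ) • a + p) = ((M1 : ℝ) - M0) • a := by
      rw [sub_smul]
      abel
    rw [g3, smul_smul, inv_mul_cancel₀ h01'.ne', one_smul]
  refine ⟨σ, hσ, d, c M0, M0, ?_, ?_, hda, ?_⟩
  · intro v hv
    by_contra hneg
    have hneg' : d v < 0 := not_le.1 hneg
    obtain ⟨N, hN⟩ := exists_nat_gt ((M0 : ℝ) + c M0 v / (-d v))
    obtain ⟨M, hM, hNM⟩ := hinf.exists_gt N
    have e2 : s M = σ := hmem M hM
    have hMr : (N : ℝ) < M := by exact_mod_cast hNM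
    have g0 := hsum M0
    have g2 := hsum M
    rw [e0] at g0
    rw [e2] at g2
    have g4 : ∑ v ∈ σ, (c M v - c M0 v - ((M : ℝ) - M0) * d v) • P v = 0 := by
      have g5 : ∑ v ∈ σ, (c M v - c M0 v - ((M : ℝ) - M0) * d v) • P v =
          ∑ v ∈ σ, c M v • P v - ∑ v ∈ σ, c M0 v • P v - ((M : ℝ) - M0) • ∑ v ∈ σ, d v • P v := by
        rw [Finset.smul_sum, ← Finset.sum_sub_distrib, ← Finset.sum_sub_distrib]
        refine Finset.sum_congr rfl fun v _ => ?_
        rw [sub_smul, sub_smul, smul_smul]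
      rw [g5, g0, g2, hda, sub_smul]
      abel
    have g6 := indep (h1 σ hσ).1 g4 v hv
    have g7 : 0 ≤ c M v := hc M v (by rw [e2]; exact hv)
    have g8 : c M0 v / (-d v) < (M : ℝ) - M0 := by linarith
    rw [div_lt_iff₀ (by linarith)] at g8
    nlinarith
  · intro v hv
    exact hc M0 v (by rw [e0]; exact hv)
  · have g0 := hsum M0
    rw [e0] at g0
    exact g0

end FN1

theorem prfFN1 (h0 : S_FN0) : S_FN1 := by
  intro n L P hF hC p hp ρ hρ
  obtain ⟨h1, h2, h3⟩ := h0 n L P hF hC
  obtain ⟨σ, hσ, d, c, m, hd, hc, hda, hca⟩ := FN1.ray h1 h3 (∑ v ∈ ρ, P v) p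
  have hρ1 : ∑ v ∈ σ, d v • P v = ∑ v ∈ ρ, (fun _ => (1 : ℝ)) v • P v := by
    rw [hda]
    exact Finset.sum_congr rfl fun v _ => (one_smul _ _).symm
  obtain ⟨k1, k2, k3⟩ := h2 σ hσ ρ hρ d (fun _ => 1) hd (fun _ _ => zero_le_one) hρ1
  have hsub : ρ ⊆ σ := by
    intro v hv
    by_contra h
    exact one_ne_zero (k3 v hv h)
  -- the coefficients of `p`
  have hpc : ∑ v ∈ σ, (c v - m * d v) • P v = p := by
    have g : ∑ v ∈ σ, (c v - m * d v) • P v = ∑ v ∈ σ, c v • P v - m • ∑ v ∈ σ, d v • P v := by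
      rw [Finset.smul_sum, ← Finset.sum_sub_distrib]
      refine Finset.sum_congr rfl fun v _ => ?_
      rw [sub_smul, smul_smul]
    rw [g, hca, hda]
    abel
  have hcard : σ.card = n := by
    by_contra h
    refine hp σ hσ (lt_of_le_of_ne (h1 σ hσ).2 h) ?_
    rw [← hpc]
    exact FN1.mem_span P σ _
  have hne : ∀ v ∈ σ, c v - m * d v ≠ 0 := by
    intro v hv h
    have hcd : (σ.erase v).card < n := by
      rw [← hcard]
      exact Finset.card_erase_lt_of_mem hv
    refine hp (σ.erase v) (FN1.face_sub hF hσ (Finset.erase_subset v σ)) hcd ?_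
    rw [← hpc, ← Finset.add_sum_erase σ _ hv, h, zero_smul, zero_add]
    exact FN1.mem_span P (σ.erase v) _
  have hpos : ∀ v ∈ σ, v ∉ ρ → 0 < c v - m * d v := by
    intro v hv hv'
    refine lt_of_le_of_ne ?_ (hne v hv).symm
    rw [k2 v hv hv', mul_zero, sub_zero]
    exact hc v hv
  refine ⟨σ, ⟨hσ, hcard, hsub, fun v => c v - m * d v, hpc, hpos⟩, ?_⟩
  rintro τ ⟨hτ, hτc, hρτ, b, hb, hbpos⟩
  -- uniqueness
  obtain ⟨N, hN⟩ : ∃ N : ℝ, (∀ v ∈ ρ, 0 ≤ (c v - m * d v) + N) ∧ ∀ v ∈ ρ, 0 ≤ b v + N := by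
    refine ⟨∑ v ∈ ρ, (|c v - m * d v| + |b v|), fun v hv => ?_, fun v hv => ?_⟩
    · have g := Finset.single_le_sum (f := fun v => |c v - m * d v| + |b v|)
        (fun v _ => by positivity) hv
      have g1 := neg_abs_le (c v - m * d v)
      have g2 := abs_nonneg (b v)
      linarith
    · have g := Finset.single_le_sum (f := fun v => |c v - m * d v| + |b v|)
        (fun v _ => by positivity) hv
      have g1 := neg_abs_le (b v)
      have g2 := abs_nonneg (c v - m * d v)
      linarith
  have hshift : ∀ (τ : Finset ℕ) (_ : ρ ⊆ τ) (b : ℕ → ℝ), ∑ v ∈ τ, b v • P v = p →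
      ∑ v ∈ τ, (b v + if v ∈ ρ then N else 0) • P v = N • (∑ v ∈ ρ, P v) + p := by
    intro τ hτ b hb
    have g : ∑ v ∈ τ, (b v + if v ∈ ρ then N else 0) • P v =
        ∑ v ∈ τ, b v • P v + ∑ v ∈ τ, (if v ∈ ρ then N else 0) • P v := by
      rw [← Finset.sum_add_distrib]
      exact Finset.sum_congr rfl fun v _ => add_smul _ _ _
    rw [g, hb, add_comm]
    congr 1
    rw [Finset.smul_sum, ← Finset.sum_subset hτ]
    · exact Finset.sum_congr rfl fun v hv => by rw [if_pos hv]
    · intro v _ hv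
      rw [if_neg hv, zero_smul]
  have e1 := hshift σ hsub (fun v => c v - m * d v) hpc
  have e2 := hshift τ hρτ b hb
  obtain ⟨q1, q2, q3⟩ := h2 σ hσ τ hτ (fun v => (c v - m * d v) + if v ∈ ρ then N else 0)
    (fun v => b v + if v ∈ ρ then N else 0)
    (fun v hv => by
      by_cases h : v ∈ ρ
      · simp only [if_pos h]
        exact hN.1 v h
      · simp only [if_neg h, add_zero]
        exact (hpos v hv h).le)
    (fun v hv => by
      by_cases h : v ∈ ρ
      · simp only [if_pos h]
        exact hN.2 v h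
      · simp only [if_neg h, add_zero]
        exact (hbpos v hv h).le) (e1.trans e2.symm)
  apply Finset.Subset.antisymm
  · intro v hv
    by_contra h
    have h' : v ∉ ρ := fun h'' => h (hsub h'')
    have g := q3 v hv h
    simp only [if_neg h', add_zero] at g
    exact (hbpos v hv h').ne' g
  · intro v hv
    by_contra h
    have h' : v ∉ ρ := fun h'' => h (hρτ h'')
    have g := q2 v hv h
    simp only [if_neg h', add_zero] at g
    exact (hpos v hv h').ne' g

end MP8a95ee.Eu

end

section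

/-!
# FN2: the orientation of a complete fan is a cycle
-/

namespace MP8a95ee.Eu

open Classical

namespace FN2

theorem mem_of_subset {L : Finset (Finset ℕ)} (hf : IsFlag L) {σ ρ : Finset ℕ} (hσ : σ ∈ L)
    (h : ρ ⊆ σ) : ρ ∈ L :=
  (hf ρ).2 fun x hx y hy => (hf σ).1 hσ x (h hx) y (h hy)

section

variable {n : ℕ}

theorem det_ne {L : Finset (Finset ℕ)} {P : ℕ → Fin n → ℝ}
    (hli : ∀ σ ∈ L, LinearIndepOn ℝ P (σ : Set ℕ)) (t : Fin n → ℕ) (ht : Function.Injective t)
    (hL : Finset.univ.image t ∈ L) : Matrix.det (fun k => P (t k)) ≠ 0 := by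
  have h1 := hli _ hL
  have h2 : LinearIndependent ℝ (fun k : Fin n => P (t k)) := by
    have h3 : Function.Injective (fun k : Fin n =>
        (⟨t k, Finset.mem_coe.2 (Finset.mem_image_of_mem t (Finset.mem_univ k))⟩ :
          ((Finset.univ.image t : Finset ℕ) : Set ℕ))) := by
      intro a b hab
      exact ht (congrArg Subtype.val hab)
    exact LinearIndependent.comp h1 _ h3
  have h4 := (Matrix.linearIndependent_rows_iff_isUnit
    (A := (fun k => P (t k) : Matrix (Fin n) (Fin n) ℝ))).1 h2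
  exact ((Matrix.isUnit_iff_isUnit_det _).1 h4).ne_zero

theorem cramer (P : ℕ → Fin n → ℝ) (t : Fin n → ℕ) (ht : Function.Injective t) (i : Fin n)
    (c : ℕ → ℝ) :
    Matrix.det (Matrix.updateRow (fun k => P (t k)) i (∑ v ∈ Finset.univ.image t, c v • P v)) =
      c (t i) * Matrix.det (fun k => P (t k)) := by
  rw [Finset.sum_image fun a _ b _ hab => ht hab]
  exact Matrix.det_updateRow_sum (fun k => P (t k)) i (fun k => c (t k))

theorem exists_coeff {L : Finset (Finset ℕ)} {P : ℕ → Fin n → ℝ}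
    (hli : ∀ σ ∈ L, LinearIndepOn ℝ P (σ : Set ℕ)) (t : Fin n → ℕ) (ht : Function.Injective t)
    (hL : Finset.univ.image t ∈ L) (p : Fin n → ℝ) :
    ∃ c : ℕ → ℝ, ∑ v ∈ Finset.univ.image t, c v • P v = p := by
  have hd := det_ne hli t ht hL
  set A : Matrix (Fin n) (Fin n) ℝ := fun k => P (t k) with hA
  have hu : IsUnit A.det := isUnit_iff_ne_zero.2 hd
  refine ⟨Function.extend t (Matrix.vecMul p A⁻¹) 0, ?_⟩
  rw [Finset.sum_image fun a _ b _ hab => ht hab]
  have h1 : ∀ k, Function.extend t (Matrix.vecMul p A⁻¹) 0 (t k) = Matrix.vecMul p A⁻¹ k :=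
    fun k => ht.extend_apply _ _ _
  have h2 : Matrix.vecMul (Matrix.vecMul p A⁻¹) A = p := by
    rw [Matrix.vecMul_vecMul, Matrix.nonsing_inv_mul A hu, Matrix.vecMul_one]
  conv_rhs => rw [← h2]
  funext j
  rw [Finset.sum_apply]
  simp only [h1, Pi.smul_apply, smul_eq_mul]
  rfl

/-- The entries different from the `i`-th. -/
def rho (s : Fin n → ℕ) (i : Fin n) : Finset ℕ := (Finset.univ.erase i).image s

theorem image_update (s : Fin n → ℕ) (i : Fin n) (x : ℕ) :
    Finset.univ.image (Function.update s i x) = insert x (rho s i) := by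
  have h1 : (Finset.univ : Finset (Fin n)) = insert i (Finset.univ.erase i) :=
    (Finset.insert_erase (Finset.mem_univ i)).symm
  rw [h1, Finset.image_insert, Function.update_self]
  unfold rho
  congr 1
  apply Finset.image_congr
  intro j hj
  exact Function.update_of_ne (Finset.ne_of_mem_erase hj) _ _

theorem inj_update {s : Fin n → ℕ} {i : Fin n} {x : ℕ}
    (hs : Set.InjOn s ((Finset.univ.erase i : Finset (Fin n)) : Set (Fin n)))
    (hx : x ∉ rho s i) : Function.Injective (Function.update s i x) := by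
  intro a b hab
  by_cases ha : a = i <;> by_cases hb : b = i
  · rw [ha, hb]
  · exfalso
    rw [ha, Function.update_self, Function.update_of_ne hb] at hab
    exact hx (Finset.mem_image.2 ⟨b, Finset.mem_erase.2 ⟨hb, Finset.mem_univ b⟩, hab.symm⟩)
  · exfalso
    rw [hb, Function.update_self, Function.update_of_ne ha] at hab
    exact hx (Finset.mem_image.2 ⟨a, Finset.mem_erase.2 ⟨ha, Finset.mem_univ a⟩, hab⟩)
  · rw [Function.update_of_ne ha, Function.update_of_ne hb] at hab
    exact hs (Finset.mem_coe.2 (Finset.mem_erase.2 ⟨ha, Finset.mem_univ a⟩))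
      (Finset.mem_coe.2 (Finset.mem_erase.2 ⟨hb, Finset.mem_univ b⟩)) hab

theorem injOn_of_inj {s : Fin n → ℕ} {i : Fin n} {x : ℕ}
    (h : Function.Injective (Function.update s i x)) :
    Set.InjOn s ((Finset.univ.erase i : Finset (Fin n)) : Set (Fin n)) ∧ x ∉ rho s i := by
  constructor
  · intro a ha b hb hab
    apply h
    rw [Function.update_of_ne (Finset.ne_of_mem_erase (Finset.mem_coe.1 ha)),
      Function.update_of_ne (Finset.ne_of_mem_erase (Finset.mem_coe.1 hb)), hab]
  · intro hx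
    obtain ⟨j, hj, hjx⟩ := Finset.mem_image.1 hx
    have h1 := Finset.ne_of_mem_erase hj
    apply h1
    apply h
    rw [Function.update_of_ne h1, Function.update_self, hjx]

theorem updateRow_update (P : ℕ → Fin n → ℝ) (s : Fin n → ℕ) (i : Fin n) (x : ℕ)
    (p : Fin n → ℝ) :
    Matrix.updateRow (fun k => P (Function.update s i x k)) i p =
      Matrix.updateRow (fun k => P (s k)) i p := by
  funext j
  change Function.update (fun k => P (Function.update s i x k)) i p j =
    Function.update (fun k => P (s k)) i p j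
  by_cases h : j = i
  · rw [h, Function.update_self, Function.update_self]
  · rw [Function.update_of_ne h, Function.update_of_ne h, Function.update_of_ne h]

theorem ofan_of {L : Finset (Finset ℕ)} {P : ℕ → Fin n → ℝ} {t : Fin n → ℕ}
    (ht : Function.Injective t) (hL : Finset.univ.image t ∈ L) :
    ofan L P t = ((SignType.sign (Matrix.det (fun i => P (t i))) : SignType) : ℤ) :=
  if_pos ⟨ht, hL⟩

theorem of_ofan_ne {L : Finset (Finset ℕ)} {P : ℕ → Fin n → ℝ} {t : Fin n → ℕ}
    (h : ofan L P t ≠ 0) : Function.Injective t ∧ Finset.univ.image t ∈ L := by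
  by_contra h'
  exact h (if_neg h')

theorem ofan_swap (L : Finset (Finset ℕ)) (P : ℕ → Fin n → ℝ) (s : Fin n → ℕ) (i j : Fin n)
    (hij : i ≠ j) : ofan L P (s ∘ Equiv.swap i j) = - ofan L P s := by
  have e1 : Finset.univ.image (s ∘ Equiv.swap i j) = Finset.univ.image s := by
    rw [← Finset.image_image]
    congr 1
    exact Finset.image_univ_of_surjective (Equiv.swap i j).surjective
  have e2 : Function.Injective (s ∘ Equiv.swap i j) ↔ Function.Injective s := by
    constructor
    · intro h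
      have := h.comp (Equiv.swap i j).injective
      have e : (s ∘ Equiv.swap i j) ∘ Equiv.swap i j = s := by
        funext k
        simp
      rwa [e] at this
    · exact fun h => h.comp (Equiv.swap i j).injective
  by_cases h : Function.Injective s ∧ Finset.univ.image s ∈ L
  swap
  · have h' : ¬ (Function.Injective (s ∘ Equiv.swap i j) ∧
        Finset.univ.image (s ∘ Equiv.swap i j) ∈ L) := by rw [e1, e2]; exact h
    have e3 : ofan L P s = 0 := if_neg h
    have e4 : ofan L P (s ∘ Equiv.swap i j) = 0 := if_neg h'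
    rw [e3, e4, neg_zero]
  · have h' : Function.Injective (s ∘ Equiv.swap i j) ∧
        Finset.univ.image (s ∘ Equiv.swap i j) ∈ L := by rw [e1, e2]; exact h
    rw [ofan_of h.1 h.2, ofan_of h'.1 h'.2]
    have h1 := Matrix.det_permute (Equiv.swap i j) (fun k => P (s k) : Matrix (Fin n) (Fin n) ℝ)
    have h2 : Matrix.det (fun k => P ((s ∘ Equiv.swap i j) k)) =
        - Matrix.det (fun k => P (s k)) := by
      rw [Equiv.Perm.sign_swap hij] at h1
      have h3 : (((-1 : ℤˣ) : ℤ) : ℝ) * Matrix.det (fun k => P (s k)) =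
        - Matrix.det (fun k => P (s k)) := by simp
      rw [← h3, ← h1]
      rfl
    rw [h2, Left.sign_neg]
    simp

theorem cycle (h0 : S_FN0) (h1 : S_FN1) (h4 : S_FN4) (L : Finset (Finset ℕ))
    (P : ℕ → Fin n → ℝ) (hf : IsFlag L) (hfan : IsCompleteFan L P) (s : Fin n → ℕ) (i : Fin n) :
    ∑ x ∈ verts L, ofan L P (Function.update s i x) = 0 := by
  by_cases hex : ∃ x0, ofan L P (Function.update s i x0) ≠ 0
  swap
  · push Not at hex
    exact Finset.sum_eq_zero fun x _ => hex x
  obtain ⟨x0, hx0⟩ := hex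
  obtain ⟨hx1, hx2⟩ := of_ofan_ne hx0
  obtain ⟨hinj, hx3⟩ := injOn_of_inj hx1
  rw [image_update] at hx2
  have hli : ∀ σ ∈ L, LinearIndepOn ℝ P (σ : Set ℕ) := fun σ hσ => ((h0 n L P hf hfan).1 σ hσ).1
  have hn : 0 < n := Fin.pos i
  have hρ : rho s i ∈ L := mem_of_subset hf hx2 (Finset.subset_insert _ _)
  have hcard : (rho s i).card + 1 = n := by
    unfold rho
    rw [Finset.card_image_of_injOn hinj, Finset.card_erase_of_mem (Finset.mem_univ i),
      Finset.card_univ, Fintype.card_fin]
    omega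
  obtain ⟨p, hp⟩ := h4 n L P hn
  have hp' : ∀ ρ ∈ L, ρ.card < n → -p ∉ Submodule.span ℝ (P '' (ρ : Set ℕ)) := by
    intro ρ hρ hc h
    exact hp ρ hρ hc ((Submodule.neg_mem_iff _).1 h)
  obtain ⟨σp, ⟨hpL, hpc, hps, cp, hcp, hpp⟩, hup⟩ := h1 n L P hf hfan p hp _ hρ
  obtain ⟨σm, ⟨hmL, hmc, hms, cm, hcm, hmp⟩, hum⟩ := h1 n L P hf hfan (-p) hp' _ hρ
  obtain ⟨vp, hvp, rfl⟩ := Finset.exists_eq_insert_iff.2 ⟨hps, hcard.trans hpc.symm⟩
  obtain ⟨vm, hvm, rfl⟩ := Finset.exists_eq_insert_iff.2 ⟨hms, hcard.trans hmc.symm⟩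
  set e : ℝ := Matrix.det (Matrix.updateRow (fun k => P (s k)) i p) with he
  have hep : e = cp vp * Matrix.det (fun k => P (Function.update s i vp k)) := by
    have := cramer P (Function.update s i vp) (inj_update hinj hvp) i cp
    rw [image_update, hcp, updateRow_update, Function.update_self] at this
    exact this
  have hem : -e = cm vm * Matrix.det (fun k => P (Function.update s i vm k)) := by
    have := cramer P (Function.update s i vm) (inj_update hinj hvm) i cm
    rw [image_update, hcm, updateRow_update, Function.update_self] at this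
    rw [← this, he]
    have h5 := Matrix.det_updateRow_smul (fun k => P (s k)) i (-1) p
    rw [neg_one_smul, neg_one_mul] at h5
    exact h5.symm
  have hcvp : 0 < cp vp := hpp vp (Finset.mem_insert_self _ _) hvp
  have hcvm : 0 < cm vm := hmp vm (Finset.mem_insert_self _ _) hvm
  have hdp : Matrix.det (fun k => P (Function.update s i vp k)) ≠ 0 :=
    det_ne hli _ (inj_update hinj hvp) (by rw [image_update]; exact hpL)
  have hne : vp ≠ vm := by
    intro h
    rw [← h] at hem hcvm
    have h5 : (cp vp + cm vp) * Matrix.det (fun k => P (Function.update s i vp k)) = 0 := by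
      linear_combination (-1 : ℝ) * hep - hem
    rcases mul_eq_zero.1 h5 with h6 | h6
    · linarith
    · exact hdp h6
  have hkey : ∀ x, ofan L P (Function.update s i x) =
      (if x = vp then ((SignType.sign e : SignType) : ℤ) else 0) -
        (if x = vm then ((SignType.sign e : SignType) : ℤ) else 0) := by
    intro x
    by_cases hxp : x = vp
    · rw [hxp, if_pos rfl, if_neg hne, sub_zero,
        ofan_of (inj_update hinj hvp) (by rw [image_update]; exact hpL), hep, sign_mul,
        sign_pos hcvp, one_mul]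
    · rw [if_neg hxp, zero_sub]
      by_cases hxm : x = vm
      · rw [hxm, if_pos rfl, ofan_of (inj_update hinj hvm) (by rw [image_update]; exact hmL)]
        have h5 : SignType.sign (-e) =
            SignType.sign (Matrix.det (fun k => P (Function.update s i vm k))) := by
          rw [hem, sign_mul, sign_pos hcvm, one_mul]
        rw [← h5, Left.sign_neg]
        simp
      · rw [if_neg hxm, neg_zero]
        by_contra hx
        obtain ⟨hy1, hy2⟩ := of_ofan_ne hx
        obtain ⟨_, hy3⟩ := injOn_of_inj hy1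
        obtain ⟨c, hc⟩ := exists_coeff hli _ hy1 hy2 p
        rw [image_update] at hy2 hc
        have hycard : (insert x (rho s i)).card = n := by
          rw [Finset.card_insert_of_notMem hy3, hcard]
        have hcx : c x ≠ 0 := by
          intro h
          rw [Finset.sum_insert hy3, h, zero_smul, zero_add] at hc
          refine hp _ hρ (by omega) ?_
          rw [← hc]
          exact Submodule.sum_mem _ fun v hv => Submodule.smul_mem _ _
            (Submodule.subset_span (Set.mem_image_of_mem P (Finset.mem_coe.2 hv)))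
        rcases lt_or_gt_of_ne hcx with hlt | hgt
        · have h6 := hum (insert x (rho s i)) ⟨hy2, hycard, Finset.subset_insert _ _,
            fun v => - c v, by
              rw [← hc, ← Finset.sum_neg_distrib]
              exact Finset.sum_congr rfl fun v _ => neg_smul _ _, by
              intro v hv hv'
              rcases Finset.mem_insert.1 hv with h7 | h7
              · rw [h7]; linarith
              · exact absurd h7 hv'⟩
          have h8 : x ∈ insert vm (rho s i) := h6 ▸ Finset.mem_insert_self _ _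
          rcases Finset.mem_insert.1 h8 with h9 | h9
          · exact hxm h9
          · exact hy3 h9
        · have h6 := hup (insert x (rho s i)) ⟨hy2, hycard, Finset.subset_insert _ _, c, hc, by
              intro v hv hv'
              rcases Finset.mem_insert.1 hv with h7 | h7
              · rw [h7]; exact hgt
              · exact absurd h7 hv'⟩
          have h8 : x ∈ insert vp (rho s i) := h6 ▸ Finset.mem_insert_self _ _
          rcases Finset.mem_insert.1 h8 with h9 | h9
          · exact hxp h9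
          · exact hy3 h9
  rw [Finset.sum_congr rfl fun x _ => hkey x, Finset.sum_sub_distrib, Finset.sum_ite_eq',
    Finset.sum_ite_eq', if_pos, if_pos, sub_self]
  · exact Finset.mem_biUnion.2 ⟨_, hmL, Finset.mem_insert_self _ _⟩
  · exact Finset.mem_biUnion.2 ⟨_, hpL, Finset.mem_insert_self _ _⟩

end

end FN2

open FN2 in
theorem prfFN2 (h0 : S_FN0) (h1 : S_FN1) (h4 : S_FN4) : S_FN2 := by
  intro n L P hf hfan
  refine ⟨⟨ofan_swap L P, fun s hs => (of_ofan_ne hs).2, cycle h0 h1 h4 L P hf hfan⟩, ?_⟩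
  intro s hs hL
  have hd := det_ne (fun σ hσ => ((h0 n L P hf hfan).1 σ hσ).1) s hs hL
  rw [ofan_of hs hL]
  rcases lt_or_gt_of_ne hd with h | h
  · rw [sign_neg h]; simp
  · rw [sign_pos h]; simp

end MP8a95ee.Eu

end

section

namespace MP8a95ee.Eu

open Classical

namespace FN3

/-- number of orderings -/
theorem card_orderings (n : ℕ) (V σ : Finset ℕ) (hσ : σ.card = n) (hV : σ ⊆ V) :
    ((Fintype.piFinset (fun _ : Fin n => V)).filter
      (fun s => Function.Injective s ∧ Finset.univ.image s = σ)).card = n.factorial := by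
  have e0 : Fin n ≃ σ := (σ.equivFinOfCardEq hσ).symm
  have h : (Fintype.piFinset (fun _ : Fin n => V)).filter
      (fun s => Function.Injective s ∧ Finset.univ.image s = σ) =
      (Finset.univ : Finset (Equiv.Perm (Fin n))).image
        (fun π => fun i => ((e0 (π i) : σ) : ℕ)) := by
    ext s
    rw [Finset.mem_filter, Fintype.mem_piFinset, Finset.mem_image]
    constructor
    · rintro ⟨-, hinj, him⟩
      have hmem : ∀ i, s i ∈ σ := fun i => him ▸ Finset.mem_image_of_mem s (Finset.mem_univ i)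
      have hinj' : Function.Injective (fun i => e0.symm ⟨s i, hmem i⟩) := by
        intro i j hij
        have := e0.symm.injective hij
        exact hinj (congrArg Subtype.val this)
      refine ⟨Equiv.ofBijective _ (Finite.injective_iff_bijective.mp hinj'),
        Finset.mem_univ _, ?_⟩
      funext i
      rw [Equiv.ofBijective_apply, Equiv.apply_symm_apply]
    · rintro ⟨π, -, rfl⟩
      refine ⟨fun i => hV (e0 (π i)).2, ?_, ?_⟩
      · intro i j hij
        exact π.injective (e0.injective (Subtype.ext hij))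
      · ext v
        rw [Finset.mem_image]
        constructor
        · rintro ⟨i, -, rfl⟩
          exact (e0 (π i)).2
        · intro hv
          refine ⟨π.symm (e0.symm ⟨v, hv⟩), Finset.mem_univ _, ?_⟩
          rw [Equiv.apply_symm_apply, Equiv.apply_symm_apply]
  rw [h, Finset.card_image_of_injective, Finset.card_univ, Fintype.card_perm, Fintype.card_fin]
  intro π π' hππ
  apply Equiv.ext
  intro i
  exact e0.injective (Subtype.ext (congrFun hππ i))

/-- the sum over an interval of faces -/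
theorem interval_sum (σ A : Finset ℕ) (hA : A ⊆ σ) :
    ∑ ρ ∈ σ.powerset.filter (fun ρ => A ⊆ ρ), (-1 / 2 : ℝ) ^ ρ.card =
      (-1) ^ A.card * (1 / 2) ^ σ.card := by
  have h1 : ∑ ρ ∈ σ.powerset.filter (fun ρ => A ⊆ ρ), (-1 / 2 : ℝ) ^ ρ.card =
      ∑ τ ∈ (σ \ A).powerset, (-1 / 2 : ℝ) ^ (A.card + τ.card) := by
    refine Finset.sum_nbij' (fun ρ => ρ \ A) (fun τ => A ∪ τ) ?_ ?_ ?_ ?_ ?_
    · intro ρ hρ
      rw [Finset.mem_filter, Finset.mem_powerset] at hρ
      rw [Finset.mem_powerset]
      exact Finset.sdiff_subset_sdiff hρ.1 (le_refl _)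
    · intro τ hτ
      rw [Finset.mem_powerset] at hτ
      rw [Finset.mem_filter, Finset.mem_powerset]
      exact ⟨Finset.union_subset hA (hτ.trans Finset.sdiff_subset), Finset.subset_union_left⟩
    · intro ρ hρ
      rw [Finset.mem_filter, Finset.mem_powerset] at hρ
      exact Finset.union_sdiff_of_subset hρ.2
    · intro τ hτ
      rw [Finset.mem_powerset] at hτ
      have hd : Disjoint A τ := by
        rw [Finset.disjoint_left]
        intro x hx hxτ
        exact (Finset.mem_sdiff.mp (hτ hxτ)).2 hx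
      exact Finset.union_sdiff_cancel_left hd
    · intro ρ hρ
      rw [Finset.mem_filter, Finset.mem_powerset] at hρ
      have := Finset.card_sdiff_add_card_eq_card hρ.2
      rw [← this, add_comm]
  rw [h1]
  have h2 := Finset.sum_pow_mul_eq_add_pow (-1 / 2 : ℝ) 1 (σ \ A)
  have h3 : ∑ τ ∈ (σ \ A).powerset, (-1 / 2 : ℝ) ^ (A.card + τ.card) =
      (-1 / 2) ^ A.card * ∑ τ ∈ (σ \ A).powerset, (-1 / 2 : ℝ) ^ τ.card *
        1 ^ ((σ \ A).card - τ.card) := by
    rw [Finset.mul_sum]
    refine Finset.sum_congr rfl fun τ _ => ?_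
    rw [pow_add, one_pow, mul_one]
  rw [h3, h2]
  have h4 := Finset.card_sdiff_add_card_eq_card hA
  rw [← h4, pow_add, show (-1 / 2 + 1 : ℝ) = 1 / 2 by norm_num, mul_comm ((1 / 2 : ℝ) ^ _),
    ← mul_assoc, ← mul_pow]
  norm_num

variable {n : ℕ} {L : Finset (Finset ℕ)} {P : ℕ → Fin n → ℝ} {p : Fin n → ℝ}

theorem exists_coef {σ : Finset ℕ} (hli : LinearIndepOn ℝ P (σ : Set ℕ)) (hc : σ.card = n)
    (p : Fin n → ℝ) : ∃ c : ℕ → ℝ, ∑ v ∈ σ, c v • P v = p := by
  have h1 : LinearIndependent ℝ (fun v : σ => P v) := hli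
  have h2 := h1.span_eq_top_of_card_eq_finrank' (by
    rw [Fintype.card_coe, hc, Module.finrank_fin_fun])
  have h3 : p ∈ Submodule.span ℝ (Set.range (fun v : σ => P v)) := by
    rw [h2]
    exact Submodule.mem_top
  rw [Submodule.mem_span_range_iff_exists_fun] at h3
  obtain ⟨c, hcp⟩ := h3
  refine ⟨fun v => if h : v ∈ σ then c ⟨v, h⟩ else 0, ?_⟩
  rw [← hcp, ← Finset.sum_coe_sort σ]
  refine Finset.sum_congr rfl fun v _ => ?_
  have e : (if h : (v : ℕ) ∈ σ then c ⟨v, h⟩ else 0) = c v := dif_pos v.2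
  exact congrArg (fun a => a • P v) e

theorem coef_unique {σ : Finset ℕ} (hli : LinearIndepOn ℝ P (σ : Set ℕ)) {c d : ℕ → ℝ}
    (h : ∑ v ∈ σ, c v • P v = ∑ v ∈ σ, d v • P v) : ∀ v ∈ σ, c v = d v := by
  rw [linearIndepOn_finset_iff] at hli
  intro v hv
  have h1 := hli (fun v => c v - d v) (by
    simp only [sub_smul]
    rw [Finset.sum_sub_distrib, h, sub_self]) v hv
  linarith

theorem coef_ne_zero (hf : IsFlag L)
    (hp : ∀ ρ ∈ L, ρ.card < n → p ∉ Submodule.span ℝ (P '' (ρ : Set ℕ))) {σ : Finset ℕ}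
    (hσ : σ ∈ L) (hc : σ.card = n) {c : ℕ → ℝ} (h : ∑ v ∈ σ, c v • P v = p) :
    ∀ v ∈ σ, c v ≠ 0 := by
  intro v hv h0
  have hf' : FlagC L := hf
  refine hp (σ.erase v) (hf'.mono hσ (Finset.erase_subset _ _)) ?_ ?_
  · rw [Finset.card_erase_of_mem hv]
    have := Finset.card_pos.mpr ⟨v, hv⟩
    omega
  · rw [← h, ← Finset.add_sum_erase σ _ hv, h0, zero_smul, zero_add]
    refine Submodule.sum_mem _ fun x hx => Submodule.smul_mem _ _ (Submodule.subset_span ?_)
    exact ⟨x, hx, rfl⟩

/-- the product of the signs for one ordering -/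
theorem term_eq {σ : Finset ℕ} (hli : LinearIndepOn ℝ P (σ : Set ℕ))
    {c : ℕ → ℝ} (h : ∑ v ∈ σ, c v • P v = p) (s : Fin n → ℕ) (hs : Function.Injective s)
    (him : Finset.univ.image s = σ) :
    Matrix.det (fun i => P (s i)) ≠ 0 ∧
    ∏ i : Fin n, ((SignType.sign (Matrix.det (fun i => P (s i)) *
      Matrix.det (Matrix.updateRow (fun i => P (s i)) i p)) : SignType) : ℝ) =
      ∏ v ∈ σ, ((SignType.sign (c v) : SignType) : ℝ) := by
  have hmem : ∀ i, s i ∈ σ := fun i => him ▸ Finset.mem_image_of_mem s (Finset.mem_univ i)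
  have h1 : LinearIndependent ℝ (fun v : (σ : Set ℕ) => P v) := hli
  have h2 : LinearIndependent ℝ (fun i : Fin n => P (s i)) :=
    h1.comp (fun i : Fin n => (⟨s i, hmem i⟩ : (σ : Set ℕ))) (by
      intro i j hij
      exact hs (congrArg Subtype.val hij))
  have hdet : Matrix.det (fun i => P (s i)) ≠ 0 := by
    have h3 : IsUnit (Matrix.of (fun i : Fin n => P (s i))) :=
      Matrix.linearIndependent_rows_iff_isUnit.mp h2
    rw [Matrix.isUnit_iff_isUnit_det] at h3
    exact h3.ne_zero
  refine ⟨hdet, ?_⟩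
  have hsum : p = ∑ j : Fin n, c (s j) • P (s j) := by
    rw [← h, ← him, Finset.sum_image (fun i _ j _ hij => hs hij)]
  have h4 : ∀ i : Fin n, Matrix.det (Matrix.updateRow (fun i => P (s i)) i p) =
      c (s i) * Matrix.det (fun i => P (s i)) := by
    intro i
    rw [hsum]
    have := Matrix.det_updateRow_sum (fun i => P (s i)) i (fun j => c (s j))
    rw [smul_eq_mul] at this
    exact this
  have h5 : ∀ i : Fin n, SignType.sign (Matrix.det (fun i => P (s i)) *
      Matrix.det (Matrix.updateRow (fun i => P (s i)) i p)) = SignType.sign (c (s i)) := by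
    intro i
    rw [h4]
    have h6 : Matrix.det (fun i => P (s i)) * (c (s i) * Matrix.det (fun i => P (s i))) =
        (Matrix.det (fun i => P (s i)) * Matrix.det (fun i => P (s i))) * c (s i) := by ring
    rw [h6, sign_mul, sign_pos (mul_self_pos.mpr hdet), one_mul]
  rw [Finset.prod_congr rfl fun i _ => by rw [h5 i]]
  rw [← him, Finset.prod_image (fun i _ j _ hij => hs hij)]

theorem prod_sign (σ : Finset ℕ) (c : ℕ → ℝ) (h : ∀ v ∈ σ, c v ≠ 0) :
    ∏ v ∈ σ, ((SignType.sign (c v) : SignType) : ℝ) =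
      (-1) ^ (σ.filter (fun v => c v < 0)).card := by
  have h1 : ∀ v ∈ σ, ((SignType.sign (c v) : SignType) : ℝ) = if c v < 0 then -1 else 1 := by
    intro v hv
    by_cases hv0 : c v < 0
    · rw [if_pos hv0, sign_neg hv0]
      simp
    · have : 0 < c v := lt_of_le_of_ne (not_lt.mp hv0) (Ne.symm (h v hv))
      rw [if_neg hv0, sign_pos this]
      simp
  rw [Finset.prod_congr rfl h1, Finset.prod_ite, Finset.prod_const, Finset.prod_const_one, mul_one]

end FN3

open FN3 in
theorem prfFN3 (h0 : S_FN0) (h1 : S_FN1) : S_FN3 := by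
  intro n L P hf hC p hp
  have hf' : FlagC L := hf
  obtain ⟨hli, -, -⟩ := h0 n L P hf hC
  have hU := h1 n L P hf hC p hp
  -- the coefficients
  have hcoef : ∀ σ : Finset ℕ, ∃ c : ℕ → ℝ, σ ∈ L → σ.card = n → ∑ v ∈ σ, c v • P v = p := by
    intro σ
    by_cases h : σ ∈ L ∧ σ.card = n
    · obtain ⟨c, hc⟩ := exists_coef (hli σ h.1).1 h.2 p
      exact ⟨c, fun _ _ => hc⟩
    · exact ⟨0, fun h2 h3 => absurd ⟨h2, h3⟩ h⟩
  choose c hc using hcoef
  set F : Finset (Finset ℕ) := L.filter (fun σ => σ.card = n) with hF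
  have hne : ∀ σ ∈ F, ∀ v ∈ σ, c σ v ≠ 0 := by
    intro σ hσ
    rw [hF, Finset.mem_filter] at hσ
    exact coef_ne_zero hf hp hσ.1 hσ.2 (hc σ hσ.1 hσ.2)
  -- the sum over the faces
  have hg : ∑ ρ ∈ L, (-1 / 2 : ℝ) ^ ρ.card =
      (1 / 2) ^ n * ∑ σ ∈ F, (-1 : ℝ) ^ (σ.filter (fun v => c σ v < 0)).card := by
    have hUe : ∀ ρ : Finset ℕ, ∃ σ : Finset ℕ, ρ ∈ L → (σ ∈ F ∧ ∀ τ ∈ F,
        (τ = σ ↔ ((τ.filter (fun v => c τ v < 0)) ⊆ ρ ∧ ρ ⊆ τ))) := by
      intro ρ
      by_cases hρ : ρ ∈ L
      · obtain ⟨σ, ⟨hσL, hσn, hρσ, d, hd, hdp⟩, hun⟩ := hU ρ hρ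
        refine ⟨σ, fun _ => ⟨Finset.mem_filter.mpr ⟨hσL, hσn⟩, fun τ hτ => ?_⟩⟩
        have hτ' := Finset.mem_filter.mp hτ
        constructor
        · rintro rfl
          refine ⟨fun v hv => ?_, hρσ⟩
          rw [Finset.mem_filter] at hv
          by_contra hvρ
          have h2 := hdp v hv.1 hvρ
          have h3 := coef_unique (hli τ hσL).1 (hd.trans (hc τ hσL hσn).symm) v hv.1
          linarith [hv.2]
        · rintro ⟨h2, h3⟩
          apply hun
          refine ⟨hτ'.1, hτ'.2, h3, c τ, hc τ hτ'.1 hτ'.2, fun v hv hvρ => ?_⟩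
          refine lt_of_le_of_ne (not_lt.mp fun h4 => hvρ (h2 (Finset.mem_filter.mpr ⟨hv, h4⟩)))
            (Ne.symm (hne τ hτ v hv))
      · exact ⟨∅, fun h => absurd h hρ⟩
    choose U hU' using hUe
    rw [← Finset.sum_fiberwise_of_maps_to (s := L) (t := F) (g := U) (fun ρ hρ => (hU' ρ hρ).1),
      Finset.mul_sum]
    refine Finset.sum_congr rfl fun σ hσ => ?_
    have hσ' := Finset.mem_filter.mp hσ
    have hset : L.filter (fun ρ => U ρ = σ) =
        σ.powerset.filter (fun ρ => (σ.filter (fun v => c σ v < 0)) ⊆ ρ) := by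
      ext ρ
      rw [Finset.mem_filter, Finset.mem_filter, Finset.mem_powerset]
      constructor
      · rintro ⟨hρ, hUρ⟩
        have h2 := ((hU' ρ hρ).2 σ hσ).mp hUρ.symm
        exact ⟨h2.2, h2.1⟩
      · rintro ⟨h2, h3⟩
        have hρ : ρ ∈ L := hf'.mono hσ'.1 h2
        exact ⟨hρ, (((hU' ρ hρ).2 σ hσ).mpr ⟨h3, h2⟩).symm⟩
    rw [hset, interval_sum σ _ (Finset.filter_subset _ _), hσ'.2, mul_comm]
  -- the Euler characteristic
  have he : (eulerChar L : ℝ) = 2 ^ (verts L).card * ∑ ρ ∈ L, (-1 / 2 : ℝ) ^ ρ.card := by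
    unfold eulerChar
    push_cast
    rw [Finset.mul_sum]
    refine Finset.sum_congr rfl fun ρ hρ => ?_
    have hle : ρ.card ≤ (verts L).card := Finset.card_le_card (A1.subset_verts hρ)
    have h2 : (2 : ℝ) ^ (verts L).card = 2 ^ ((verts L).card - ρ.card) * 2 ^ ρ.card := by
      rw [← pow_add, Nat.sub_add_cancel hle]
    rw [h2, div_pow]
    field_simp
  -- the value
  have hS : Sval (verts L) (ofan L P) P p =
      n.factorial * ∑ σ ∈ F, (-1 : ℝ) ^ (σ.filter (fun v => c σ v < 0)).card := by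
    unfold Sval
    have h2 : ∀ s ∈ Fintype.piFinset (fun _ : Fin n => verts L),
        ((ofan L P s : ℤ) : ℝ) * ((SignType.sign (Matrix.det (fun i => P (s i))) : SignType) : ℝ) *
        ∏ i : Fin n, ((SignType.sign (Matrix.det (fun i => P (s i)) *
          Matrix.det (Matrix.updateRow (fun i => P (s i)) i p)) : SignType) : ℝ) =
        if Function.Injective s ∧ Finset.univ.image s ∈ L then
          (-1 : ℝ) ^ ((Finset.univ.image s).filter
            (fun v => c (Finset.univ.image s) v < 0)).card else 0 := by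
      intro s _
      by_cases hs : Function.Injective s ∧ Finset.univ.image s ∈ L
      · rw [if_pos hs]
        have hcard : (Finset.univ.image s).card = n := by
          rw [Finset.card_image_of_injective _ hs.1, Finset.card_univ, Fintype.card_fin]
        obtain ⟨hd, hpr⟩ := term_eq (hli _ hs.2).1 (hc _ hs.2 hcard) s hs.1 rfl
        rw [hpr, prod_sign _ _ (hne _ (Finset.mem_filter.mpr ⟨hs.2, hcard⟩))]
        unfold ofan
        rw [if_pos hs]
        have h3 : (((SignType.sign (Matrix.det (fun i => P (s i))) : SignType) : ℤ) : ℝ) *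
            ((SignType.sign (Matrix.det (fun i => P (s i))) : SignType) : ℝ) = 1 := by
          rcases lt_or_gt_of_ne hd with h4 | h4
          · rw [sign_neg h4]
            simp
          · rw [sign_pos h4]
            simp
        rw [h3, one_mul]
      · rw [if_neg hs]
        unfold ofan
        rw [if_neg hs, Int.cast_zero, zero_mul, zero_mul]
    rw [Finset.sum_congr rfl h2, ← Finset.sum_filter]
    have h3 : ∀ s ∈ (Fintype.piFinset (fun _ : Fin n => verts L)).filter
        (fun s => Function.Injective s ∧ Finset.univ.image s ∈ L), Finset.univ.image s ∈ F := by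
      intro s hs
      rw [Finset.mem_filter] at hs
      rw [hF, Finset.mem_filter]
      exact ⟨hs.2.2, by
        rw [Finset.card_image_of_injective _ hs.2.1, Finset.card_univ, Fintype.card_fin]⟩
    rw [← Finset.sum_fiberwise_of_maps_to h3, Finset.mul_sum]
    refine Finset.sum_congr rfl fun σ hσ => ?_
    have hσ' := Finset.mem_filter.mp hσ
    have h4 : ((Fintype.piFinset (fun _ : Fin n => verts L)).filter
        (fun s => Function.Injective s ∧ Finset.univ.image s ∈ L)).filter
        (fun s => Finset.univ.image s = σ) =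
        (Fintype.piFinset (fun _ : Fin n => verts L)).filter
          (fun s => Function.Injective s ∧ Finset.univ.image s = σ) := by
      rw [Finset.filter_filter]
      refine Finset.filter_congr fun s _ => ?_
      constructor
      · rintro ⟨⟨h5, -⟩, h6⟩
        exact ⟨h5, h6⟩
      · rintro ⟨h5, h6⟩
        exact ⟨⟨h5, h6 ▸ hσ'.1⟩, h6⟩
    rw [h4]
    have h5 : ∀ s ∈ (Fintype.piFinset (fun _ : Fin n => verts L)).filter
          (fun s => Function.Injective s ∧ Finset.univ.image s = σ),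
        (-1 : ℝ) ^ ((Finset.univ.image s).filter
            (fun v => c (Finset.univ.image s) v < 0)).card =
        (-1 : ℝ) ^ (σ.filter (fun v => c σ v < 0)).card := by
      intro s hs
      rw [(Finset.mem_filter.mp hs).2.2]
    rw [Finset.sum_congr rfl h5, Finset.sum_const,
      card_orderings n (verts L) σ hσ'.2 (A1.subset_verts hσ'.1), nsmul_eq_mul]
  rw [hS, he, hg]
  have h2 : (2 : ℝ) ^ n * (1 / 2) ^ n = 1 := by
    rw [← mul_pow]
    norm_num
  linear_combination (- (2 : ℝ) ^ (verts L).card * n.factorial *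
    ∑ σ ∈ F, (-1 : ℝ) ^ (σ.filter (fun v => c σ v < 0)).card) * h2

end MP8a95ee.Eu

end

section

/-!
# FN4: generic points for a fan
-/

namespace MP8a95ee.Eu

open Classical

theorem prfFN4 : S_FN4 := by
  intro n L P hn
  set s : Finset (Submodule ℝ (Fin n → ℝ)) :=
    (L.filter (fun ρ : Finset ℕ => ρ.card < n)).image (fun ρ : Finset ℕ => Submodule.span ℝ (P '' (ρ : Set ℕ))) with hs
  have htop : (⊤ : Submodule ℝ (Fin n → ℝ)) ∉ s := by
    intro h
    rw [hs, Finset.mem_image] at h
    obtain ⟨ρ, hρ, h1⟩ := h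
    rw [Finset.mem_filter] at hρ
    have h2 : Module.finrank ℝ (Submodule.span ℝ (P '' (ρ : Set ℕ))) ≤ ρ.card := by
      rw [← Finset.coe_image]
      exact (finrank_span_finset_le_card (ρ.image P)).trans Finset.card_image_le
    rw [h1, finrank_top, Module.finrank_fin_fun] at h2
    exact absurd hρ.2 (not_lt.mpr h2)
  have h := Subspace.biUnion_ne_univ_of_top_notMem htop
  rw [Set.ne_univ_iff_exists_notMem] at h
  obtain ⟨p, hp⟩ := h
  refine ⟨p, fun ρ hρ hc hmem => hp ?_⟩
  rw [Set.mem_iUnion₂]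
  refine ⟨Submodule.span ℝ (P '' (ρ : Set ℕ)), ?_, hmem⟩
  rw [hs, Finset.mem_image]
  exact ⟨ρ, Finset.mem_filter.mpr ⟨hρ, hc⟩, rfl⟩

end MP8a95ee.Eu

end

section

namespace MP8a95ee.Eu

open Classical

namespace FN6

/-- the vertices of a subdivision -/
theorem verts_subdiv {L : Finset (Finset ℕ)} (hf : IsFlag L) {u v w : ℕ} (huv : u ≠ v)
    (he : ({u, v} : Finset ℕ) ∈ L) (hw : w ∉ verts L) :
    verts (subdiv L u v w) = insert w (verts L) := by
  have hf' : FlagC L := hf
  have huw : u ≠ w := by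
    rintro rfl
    exact hw (A1.subset_verts he (Finset.mem_insert_self _ _))
  have hvw : v ≠ w := by
    rintro rfl
    exact hw (A1.subset_verts he (Finset.mem_insert_of_mem (Finset.mem_singleton_self _)))
  ext x
  constructor
  · intro hx
    obtain ⟨s, hs, hxs⟩ := Finset.mem_biUnion.mp hx
    by_cases hws : w ∈ s
    · rw [A1.mem_subdiv_of_mem hf' he hw hws] at hs
      by_cases hxw : x = w
      · rw [hxw]
        exact Finset.mem_insert_self _ _
      · refine Finset.mem_insert_of_mem (A1.subset_verts hs.2 ?_)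
        exact Finset.mem_insert_of_mem (Finset.mem_insert_of_mem (Finset.mem_erase.mpr ⟨hxw, hxs⟩))
    · rw [A1.mem_subdiv_of_notMem hws] at hs
      exact Finset.mem_insert_of_mem (A1.subset_verts hs.1 hxs)
  · intro hx
    rw [Finset.mem_insert] at hx
    rcases hx with rfl | hx
    · refine Finset.mem_biUnion.mpr ⟨{x}, ?_, Finset.mem_singleton_self x⟩
      rw [A1.mem_subdiv_of_mem hf' he hw (Finset.mem_singleton_self x)]
      refine ⟨fun h => huw (Finset.mem_singleton.mp h.1), hf'.mono he ?_⟩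
      intro z hz
      rw [Finset.mem_insert, Finset.mem_insert, Finset.mem_erase, Finset.mem_singleton] at hz
      rw [Finset.mem_insert, Finset.mem_singleton]
      rcases hz with h | h | h
      · exact Or.inl h
      · exact Or.inr h
      · exact absurd h.2 h.1
    · have hxw : x ≠ w := by
        rintro rfl
        exact hw hx
      refine Finset.mem_biUnion.mpr ⟨{x}, ?_, Finset.mem_singleton_self x⟩
      rw [A1.mem_subdiv_of_notMem (by
        rw [Finset.mem_singleton]
        exact fun h => hxw h.symm)]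
      refine ⟨(verts_mem_iff hf' x).mp hx, ?_⟩
      rintro ⟨h1, h2⟩
      rw [Finset.mem_singleton] at h1 h2
      exact huv (h1.trans h2.symm)

/-- sum over `V` of a function changed at two points -/
theorem sum_change {M : Type} [AddCommGroup M] (V : Finset ℕ) {u v : ℕ} (huv : u ≠ v) (hu : u ∈ V)
    (hv : v ∈ V) (f : ℕ → M) (a b : M) :
    ∑ x ∈ V, (if x = u then f x + a else if x = v then f x + b else f x) =
      ∑ x ∈ V, f x + a + b := by
  have h1 : ∀ x ∈ V, (if x = u then f x + a else if x = v then f x + b else f x) =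
      f x + (if x = u then a else 0) + (if x = v then b else 0) := by
    intro x _
    by_cases hxu : x = u
    · have hxv : x ≠ v := fun h => huv (hxu.symm.trans h)
      rw [if_pos hxu, if_pos hxu, if_neg hxv, add_zero]
    · by_cases hxv : x = v
      · rw [if_neg hxu, if_pos hxv, if_neg hxu, if_pos hxv, add_zero]
      · rw [if_neg hxu, if_neg hxv, if_neg hxu, if_neg hxv, add_zero, add_zero]
  rw [Finset.sum_congr rfl h1, Finset.sum_add_distrib, Finset.sum_add_distrib,
    Finset.sum_ite_eq', Finset.sum_ite_eq', if_pos hu, if_pos hv]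

end FN6

open FN6 in
theorem prfFN6 (_h0 : S_FN0) : S_FN6 := by
  intro n L P hf hC u v w huv he hw x
  have hf' : FlagC L := hf
  have huV : u ∈ verts L := A1.subset_verts he (Finset.mem_insert_self _ _)
  have hvV : v ∈ verts L :=
    A1.subset_verts he (Finset.mem_insert_of_mem (Finset.mem_singleton_self _))
  have huw : u ≠ w := fun h => hw (h ▸ huV)
  have hvw : v ≠ w := fun h => hw (h ▸ hvV)
  obtain ⟨c, ⟨hc0, ⟨σ, hσ, hcσ⟩, hcx⟩, hcu⟩ := hC x
  rw [verts_subdiv hf huv he hw]
  have hP' : ∀ a ∈ verts L, Function.update P w (P u + P v) a = P a := by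
    intro a ha
    rw [Function.update_of_ne]
    rintro rfl
    exact hw ha
  have hcw : c w = 0 := by
    by_contra h
    exact hw (A1.subset_verts hσ (hcσ w h))
  set m : ℝ := min (c u) (c v) with hm
  have hm0 : 0 ≤ m := le_min (hc0 u) (hc0 v)
  have hmu : m ≤ c u := min_le_left _ _
  have hmv : m ≤ c v := min_le_right _ _
  set c' : ℕ → ℝ := fun a => if a = u then c u - m else if a = v then c v - m else
    if a = w then m else c a with hc'
  have h'u : c' u = c u - m := if_pos rfl
  have h'v : c' v = c v - m := (if_neg huv.symm).trans (if_pos rfl)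
  have h'w : c' w = m := (if_neg huw.symm).trans ((if_neg hvw.symm).trans (if_pos rfl))
  have h'a : ∀ a, a ≠ u → a ≠ v → a ≠ w → c' a = c a :=
    fun a h1 h2 h3 => (if_neg h1).trans ((if_neg h2).trans (if_neg h3))
  refine ⟨c', ⟨fun a => ?_, ?_, ?_⟩, ?_⟩
  · by_cases h1 : a = u
    · rw [h1, h'u]
      linarith
    · by_cases h2 : a = v
      · rw [h2, h'v]
        linarith
      · by_cases h3 : a = w
        · rw [h3, h'w]
          exact hm0
        · rw [h'a a h1 h2 h3]
          exact hc0 a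
  · -- support
    have hcase : c' u = 0 ∨ c' v = 0 := by
      rcases le_total (c u) (c v) with h | h
      · left
        rw [h'u, hm, min_eq_left h, sub_self]
      · right
        rw [h'v, hm, min_eq_right h, sub_self]
    have hgen : ∀ a, c' a ≠ 0 → a = w ∨ a ∈ σ := by
      intro a ha
      by_cases h3 : a = w
      · exact Or.inl h3
      · right
        apply hcσ
        intro h0
        apply ha
        by_cases h1 : a = u
        · rw [h1, h'u]
          rw [h1] at h0
          linarith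
        · by_cases h2 : a = v
          · rw [h2, h'v]
            rw [h2] at h0
            linarith
          · rw [h'a a h1 h2 h3, h0]
    by_cases hmz : m = 0
    · -- no new vertex
      rcases hcase with hz | hz
      · refine ⟨σ.erase u, ?_, fun a ha => ?_⟩
        · have hwn : w ∉ σ.erase u := fun h => hw (A1.subset_verts hσ (Finset.mem_of_mem_erase h))
          rw [A1.mem_subdiv_of_notMem hwn]
          exact ⟨hf'.mono hσ (Finset.erase_subset _ _), fun h => Finset.notMem_erase _ _ h.1⟩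
        · rcases hgen a ha with h | h
          · exfalso
            apply ha
            rw [h, h'w, hmz]
          · refine Finset.mem_erase.mpr ⟨?_, h⟩
            rintro rfl
            exact ha hz
      · refine ⟨σ.erase v, ?_, fun a ha => ?_⟩
        · have hwn : w ∉ σ.erase v := fun h => hw (A1.subset_verts hσ (Finset.mem_of_mem_erase h))
          rw [A1.mem_subdiv_of_notMem hwn]
          exact ⟨hf'.mono hσ (Finset.erase_subset _ _), fun h => Finset.notMem_erase _ _ h.2⟩
        · rcases hgen a ha with h | h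
          · exfalso
            apply ha
            rw [h, h'w, hmz]
          · refine Finset.mem_erase.mpr ⟨?_, h⟩
            rintro rfl
            exact ha hz
    · have hmp : 0 < m := lt_of_le_of_ne hm0 (Ne.symm hmz)
      have huσ : u ∈ σ := hcσ u (by linarith : 0 < c u).ne'
      have hvσ : v ∈ σ := hcσ v (by linarith : 0 < c v).ne'
      rcases hcase with hz | hz
      · refine ⟨insert w (σ.erase u), ?_, fun a ha => ?_⟩
        · rw [A1.mem_subdiv_of_mem hf' he hw (Finset.mem_insert_self _ _)]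
          refine ⟨fun h => ?_, hf'.mono hσ ?_⟩
          · rcases Finset.mem_insert.mp h.1 with h1 | h1
            · exact huw h1
            · exact Finset.notMem_erase _ _ h1
          · intro z hz'
            rw [Finset.mem_insert, Finset.mem_insert, Finset.mem_erase, Finset.mem_insert] at hz'
            rcases hz' with h1 | h1 | ⟨h1, h2 | h2⟩
            · exact h1 ▸ huσ
            · exact h1 ▸ hvσ
            · exact absurd h2 h1
            · exact Finset.mem_of_mem_erase h2
        · rcases hgen a ha with h | h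
          · rw [h]
            exact Finset.mem_insert_self _ _
          · refine Finset.mem_insert_of_mem (Finset.mem_erase.mpr ⟨?_, h⟩)
            rintro rfl
            exact ha hz
      · refine ⟨insert w (σ.erase v), ?_, fun a ha => ?_⟩
        · rw [A1.mem_subdiv_of_mem hf' he hw (Finset.mem_insert_self _ _)]
          refine ⟨fun h => ?_, hf'.mono hσ ?_⟩
          · rcases Finset.mem_insert.mp h.2 with h1 | h1
            · exact hvw h1
            · exact Finset.notMem_erase _ _ h1
          · intro z hz'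
            rw [Finset.mem_insert, Finset.mem_insert, Finset.mem_erase, Finset.mem_insert] at hz'
            rcases hz' with h1 | h1 | ⟨h1, h2 | h2⟩
            · exact h1 ▸ huσ
            · exact h1 ▸ hvσ
            · exact absurd h2 h1
            · exact Finset.mem_of_mem_erase h2
        · rcases hgen a ha with h | h
          · rw [h]
            exact Finset.mem_insert_self _ _
          · refine Finset.mem_insert_of_mem (Finset.mem_erase.mpr ⟨?_, h⟩)
            rintro rfl
            exact ha hz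
  · -- the sum
    rw [Finset.sum_insert hw, Function.update_self, h'w, ← hcx]
    have h1 : ∀ a ∈ verts L, c' a • Function.update P w (P u + P v) a =
        (if a = u then c a • P a + (-m) • P u else
          if a = v then c a • P a + (-m) • P v else c a • P a) := by
      intro a ha
      rw [hP' a ha]
      by_cases h1 : a = u
      · rw [if_pos h1, h1, h'u, ← add_smul, sub_eq_add_neg]
      · by_cases h2 : a = v
        · rw [if_neg h1, if_pos h2, h2, h'v, ← add_smul, sub_eq_add_neg]
        · rw [if_neg h1, if_neg h2, h'a a h1 h2 (fun h => hw (h ▸ ha))]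
    rw [Finset.sum_congr rfl h1, sum_change (verts L) huv huV hvV, smul_add, neg_smul, neg_smul]
    abel
  · -- uniqueness
    rintro d ⟨hd0, ⟨s, hs, hds⟩, hdx⟩
    rw [Finset.sum_insert hw, Function.update_self] at hdx
    set C : ℕ → ℝ := fun a => if a = u then d u + d w else if a = v then d v + d w else
      if a = w then 0 else d a with hCdef
    have hCu : C u = d u + d w := if_pos rfl
    have hCv : C v = d v + d w := (if_neg huv.symm).trans (if_pos rfl)
    have hCw : C w = 0 := (if_neg huw.symm).trans ((if_neg hvw.symm).trans (if_pos rfl))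
    have hCa : ∀ a, a ≠ u → a ≠ v → a ≠ w → C a = d a :=
      fun a h1 h2 h3 => (if_neg h1).trans ((if_neg h2).trans (if_neg h3))
    have hCc : C = c := by
      apply hcu
      refine ⟨fun a => ?_, ?_, ?_⟩
      · by_cases h1 : a = u
        · rw [h1, hCu]
          exact add_nonneg (hd0 u) (hd0 w)
        · by_cases h2 : a = v
          · rw [h2, hCv]
            exact add_nonneg (hd0 v) (hd0 w)
          · by_cases h3 : a = w
            · rw [h3, hCw]
            · rw [hCa a h1 h2 h3]
              exact hd0 a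
      · by_cases hws : w ∈ s
        · rw [A1.mem_subdiv_of_mem hf' he hw hws] at hs
          refine ⟨_, hs.2, fun a ha => ?_⟩
          by_cases h1 : a = u
          · rw [h1]
            exact Finset.mem_insert_self _ _
          · by_cases h2 : a = v
            · rw [h2]
              exact Finset.mem_insert_of_mem (Finset.mem_insert_self _ _)
            · by_cases h3 : a = w
              · exact absurd (h3 ▸ hCw) ha
              · rw [hCa a h1 h2 h3] at ha
                exact Finset.mem_insert_of_mem (Finset.mem_insert_of_mem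
                  (Finset.mem_erase.mpr ⟨h3, hds a ha⟩))
        · rw [A1.mem_subdiv_of_notMem hws] at hs
          have hdw : d w = 0 := by
            by_contra h
            exact hws (hds w h)
          refine ⟨s, hs.1, fun a ha => ?_⟩
          by_cases h1 : a = u
          · rw [h1, hCu, hdw, add_zero] at ha
            rw [h1]
            exact hds u ha
          · by_cases h2 : a = v
            · rw [h2, hCv, hdw, add_zero] at ha
              rw [h2]
              exact hds v ha
            · by_cases h3 : a = w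
              · exact absurd (h3 ▸ hCw) ha
              · rw [hCa a h1 h2 h3] at ha
                exact hds a ha
      · have h1 : ∀ a ∈ verts L, C a • P a =
            (if a = u then d a • P a + d w • P u else
              if a = v then d a • P a + d w • P v else d a • P a) := by
          intro a ha
          by_cases h1 : a = u
          · rw [if_pos h1, h1, hCu, ← add_smul]
          · by_cases h2 : a = v
            · rw [if_neg h1, if_pos h2, h2, hCv, ← add_smul]
            · rw [if_neg h1, if_neg h2, hCa a h1 h2 (fun h => hw (h ▸ ha))]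
        rw [Finset.sum_congr rfl h1, sum_change (verts L) huv huV hvV, ← hdx, smul_add]
        have h2 : ∑ a ∈ verts L, d a • Function.update P w (P u + P v) a =
            ∑ a ∈ verts L, d a • P a :=
          Finset.sum_congr rfl fun a ha => by rw [hP' a ha]
        rw [h2]
        abel
    have hnot : ¬ (u ∈ s ∧ v ∈ s) := by
      by_cases hws : w ∈ s
      · rw [A1.mem_subdiv_of_mem hf' he hw hws] at hs
        exact hs.1
      · rw [A1.mem_subdiv_of_notMem hws] at hs
        exact hs.2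
    have hcu' : c u = d u + d w := by rw [← hCc, hCu]
    have hcv' : c v = d v + d w := by rw [← hCc, hCv]
    have hmd : m = d w := by
      have h1 : d u = 0 ∨ d v = 0 := by
        by_contra hcon
        push Not at hcon
        exact hnot ⟨hds u hcon.1, hds v hcon.2⟩
      have hu0 := hd0 u
      have hv0 := hd0 v
      rw [hm, hcu', hcv']
      rcases h1 with h1 | h1
      · rw [h1, min_eq_left (by linarith)]
        ring
      · rw [h1, min_eq_right (by linarith)]
        ring
    funext a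
    by_cases h1 : a = u
    · rw [h1, h'u, hcu', hmd]
      ring
    · by_cases h2 : a = v
      · rw [h2, h'v, hcv', hmd]
        ring
      · by_cases h3 : a = w
        · rw [h3, h'w, hmd]
        · rw [h'a a h1 h2 h3, ← hCc, hCa a h1 h2 h3]

end MP8a95ee.Eu

end

section

/-!
# The linear inequality for fans
-/

namespace MP8a95ee

namespace Eu

open Classical

/-- The class of positive fans is closed under subdivision. -/
theorem posFan_subdiv (f0 : S_FN0) (f6 : S_FN6) (f7 : S_FN7) {n : ℕ} {L : Finset (Finset ℕ)}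
    {u v w : ℕ} (h : PosFan n L) (huv : u ≠ v) (he : ({u, v} : Finset ℕ) ∈ L)
    (hw : w ∉ verts L) : PosFan n (subdiv L u v w) := by
  obtain ⟨hf, P, N, hP, hN⟩ := h
  have hd : ∀ σ ∈ L, σ.card ≤ n := fun σ hσ => ((f0 n L P hf hP).1 σ hσ).2
  obtain ⟨N', hN'⟩ := f7 n L P N hf hN u v w huv he hw
  exact ⟨(flagC_subdiv hf hd huv he hw).1, Function.update P w (P u + P v), N',
    f6 n L P hf hP u v w huv he hw, hN'⟩

/-- The linear inequality. -/
theorem linear (hma : S_MA) (f2 : S_FN2) (f3 : S_FN3) (f4 : S_FN4) (n : ℕ) (hn : 0 < n) :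
    ∃ C : ℝ, 0 < C ∧ ∀ L : Finset (Finset ℕ), PosFan n L →
      ∃ o : (Fin n → ℕ) → ℤ, IsSimplicialCycle L n o ∧
        (∀ s : Fin n → ℕ, Function.Injective s → Finset.univ.image s ∈ L → |o s| = 1) ∧
        ∀ (X : Type) [TopologicalSpace X] (f : C(X, RZ L)) (lam : ℝ) (z : SChain X n)
          (w : SChain (RZ L) (n + 1)), push f z = lam • momentCycle L n o + MP8a95ee.bd w →
          |lam| * 2 ^ n * |(eulerChar L : ℝ)| ≤ C * l1 z := by
  obtain ⟨C, hC, hma⟩ := hma n hn
  refine ⟨C / n.factorial, by positivity, ?_⟩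
  rintro L ⟨hf, P, N, hP, hN⟩
  obtain ⟨ho, ho1⟩ := f2 n L P hf hP
  refine ⟨ofan L P, ho, ho1, ?_⟩
  intro X _ f lam z w hz
  obtain ⟨p, hp⟩ := f4 n L P hn
  have h1 := hma L (ofan L P) P N p hf ho hN hp X f lam z w hz
  have h2 := f3 n L P hf hP p hp
  have hfac : (0 : ℝ) < n.factorial := by positivity
  rw [div_mul_eq_mul_div, le_div_iff₀ hfac]
  calc |lam| * 2 ^ n * |(eulerChar L : ℝ)| * n.factorial
      = |lam * (n.factorial * 2 ^ n * (eulerChar L : ℝ))| := by
        rw [abs_mul, abs_mul, abs_mul, abs_of_pos hfac,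
          abs_of_pos (show (0 : ℝ) < 2 ^ n by positivity)]
        ring
    _ = 2 ^ (verts L).card * |lam * Sval (verts L) (ofan L P) P p| := by
        rw [← h2, abs_mul, abs_mul, abs_mul,
          abs_of_pos (show (0 : ℝ) < 2 ^ (verts L).card by positivity)]
        ring
    _ ≤ C * l1 z := h1

end Eu

end MP8a95ee

end

section

namespace MP8a95ee.Eu

open Classical

namespace GR

open scoped MatrixOrder ComplexOrder

theorem sqrt_exists {ι : Type} [Fintype ι] (M : Matrix ι ι ℝ) (hM : M.PosSemidef) :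
    ∃ A : ι → ι → ℝ, ∀ i j, M i j = ∑ k, A k i * A k j := by
  obtain ⟨A, hA⟩ := CStarAlgebra.nonneg_iff_eq_star_mul_self.mp hM.nonneg
  refine ⟨fun k i => A k i, fun i j => ?_⟩
  rw [hA, Matrix.star_eq_conjTranspose, Matrix.mul_apply]
  simp

theorem exists_orthonormal (F : Type) [NormedAddCommGroup F] [InnerProductSpace ℝ F]
    (hF : ¬ FiniteDimensional ℝ F) : ∃ g : ℕ → F, Orthonormal ℝ g := by
  let b := Module.Basis.ofVectorSpace ℝ F
  have hinf : Infinite (Module.Basis.ofVectorSpaceIndex ℝ F) := by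
    by_contra h
    rw [not_infinite_iff_finite] at h
    exact hF (Module.Finite.of_basis b)
  let e := Infinite.natEmbedding (Module.Basis.ofVectorSpaceIndex ℝ F)
  refine ⟨InnerProductSpace.gramSchmidtNormed ℝ (fun k => b (e k)),
    InnerProductSpace.gramSchmidtNormed_orthonormal ?_⟩
  exact b.linearIndependent.comp e e.injective

end GR

theorem prfGR : S_GR := by
  intro F _ _ hF V Y hsym hpos
  obtain ⟨g, hg⟩ := GR.exists_orthonormal F hF
  have hM : (Matrix.of fun (u v : ↥V) => Y u v).PosSemidef := by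
    refine Matrix.PosSemidef.of_dotProduct_mulVec_nonneg ?_ fun x => ?_
    · ext u v
      simp [Matrix.conjTranspose_apply, hsym]
    · have h1 := hpos (fun v => if hv : v ∈ V then x ⟨v, hv⟩ else 0)
      rw [← Finset.sum_coe_sort] at h1
      refine le_of_le_of_eq h1 ?_
      simp only [dotProduct, Matrix.mulVec, Pi.star_apply, star_trivial, Matrix.of_apply,
        Finset.mul_sum]
      refine Finset.sum_congr rfl fun u _ => ?_
      rw [← Finset.sum_coe_sort]
      refine Finset.sum_congr rfl fun v _ => ?_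
      simp
      ring
  obtain ⟨A, hA⟩ := GR.sqrt_exists _ hM
  refine ⟨fun u => if hu : u ∈ V then ∑ k : ↥V, A k ⟨u, hu⟩ • g k else 0, fun u hu v hv => ?_⟩
  simp only [dif_pos hu, dif_pos hv]
  have h1 := (hg.comp (fun k : ↥V => (k : ℕ)) Subtype.val_injective).inner_sum
    (fun k => A k ⟨u, hu⟩) (fun k => A k ⟨v, hv⟩) Finset.univ
  simp only [Function.comp] at h1
  rw [h1]
  have h2 := hA ⟨u, hu⟩ ⟨v, hv⟩
  simp only [Matrix.of_apply] at h2
  rw [h2]
  simp

end MP8a95ee.Eu

end

section

namespace MP8a95ee.Eu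

open Classical

namespace H0

section

variable {n : ℕ} {F : Type} [NormedAddCommGroup F] [InnerProductSpace ℝ F]

theorem refl_refl (e x : E n F) : refl e (refl e x) = x := by
  have := reflL_invol e x
  exact this

theorem B_refl (e x y : E n F) (he : 0 < B e e) : B (refl e x) (refl e y) = B x y := by
  rw [refl_apply, refl_apply, B_sub_left, B_sub_right, B_sub_right, B_smul_left, B_smul_right,
    B_smul_left, B_smul_right, B_comm e y]
  have h : B e e ≠ 0 := he.ne'
  field_simp
  ring

theorem gen_val (e : E n F) (he : 0 < B e e) : (gen e : G n F).1 = (refl e, -1) := by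
  unfold gen
  rw [dif_pos he]

theorem iso_all (g : G n F) : ∀ x y : E n F, B (g.1.1 x) (g.1.1 y) = B x y := by
  obtain ⟨g, hg⟩ := g
  change ∀ x y : E n F, B (g.1 x) (g.1 y) = B x y
  unfold Gs at hg
  induction hg using Subgroup.closure_induction with
  | mem g hg =>
    obtain ⟨e, he, rfl⟩ := hg
    intro x y
    exact B_refl e x y he
  | one =>
    intro x y
    rfl
  | mul a b _ _ ha hb =>
    intro x y
    change B (a.1 (b.1 x)) (a.1 (b.1 y)) = _
    rw [ha, hb]
  | inv a _ ha =>
    intro x y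
    have h := ha ((a⁻¹).1 x) ((a⁻¹).1 y)
    have e1 : ∀ z : E n F, a.1 ((a⁻¹).1 z) = z := by
      intro z
      change a.1 (a.1.symm z) = z
      exact a.1.apply_symm_apply z
    rw [e1, e1] at h
    exact h.symm

end

end H0

open H0 in
theorem prfH0 : S_H0 := by
  intro n F _ _ L Dt hL
  have hpos : ∀ v ∈ verts L, 0 < B (Dt.e v) (Dt.e v) := by
    intro v hv
    rw [Dt.unit v hv]
    exact one_pos
  have hval : ∀ v ∈ verts L, (Dt.r v).1 = (refl (Dt.e v), -1) := by
    intro v hv
    exact gen_val _ (hpos v hv)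
  have hedge : ∀ u v : ℕ, ({u, v} : Finset ℕ) ∈ L → u ∈ verts L ∧ v ∈ verts L := by
    intro u v h
    unfold verts
    refine ⟨?_, ?_⟩
    · rw [Finset.mem_biUnion]
      exact ⟨_, h, by simp⟩
    · rw [Finset.mem_biUnion]
      exact ⟨_, h, by simp⟩
  refine ⟨?_, ?_, ?_, ?_⟩
  · intro v hv
    refine ⟨?_, ?_, ?_⟩
    · apply Subtype.ext
      rw [Subgroup.coe_mul, hval v hv, Subgroup.coe_one]
      refine Prod.ext ?_ ?_
      · apply LinearEquiv.ext
        intro x
        exact refl_refl _ x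
      · change (-1 : ℤˣ) * -1 = 1
        simp
    · change (Dt.r v).1.2 = -1
      rw [hval v hv]
    · rw [hval v hv]
  · intro u v h
    obtain ⟨hu, hv⟩ := hedge u v h
    by_cases huv : u = v
    · rw [huv]
    · apply Subtype.ext
      rw [Subgroup.coe_mul, Subgroup.coe_mul, hval u hu, hval v hv]
      refine Prod.ext ?_ rfl
      apply LinearEquiv.ext
      intro x
      change refl (Dt.e u) (refl (Dt.e v) x) = refl (Dt.e v) (refl (Dt.e u) x)
      have ho := Dt.orth u v huv h
      have ho' : B (Dt.e v) (Dt.e u) = 0 := by rw [B_comm]; exact ho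
      rw [refl_apply, refl_apply, refl_apply, refl_apply, B_sub_left, B_sub_left, B_smul_left,
        B_smul_left, ho, ho']
      simp only [mul_zero, sub_zero]
      abel
  · intro g x y
    exact iso_all g x y
  · intro ρ hρ w hw
    have hvρ : ∀ v ∈ ρ, v ∈ verts L := by
      intro v hv
      unfold verts
      rw [Finset.mem_biUnion]
      exact ⟨ρ, hρ, hv⟩
    induction hw using Subgroup.closure_induction with
    | mem g hg =>
      obtain ⟨v, hv, rfl⟩ := hg
      intro x
      have hv' : v ∈ ρ := hv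
      rw [hval v (hvρ v hv')]
      change refl (Dt.e v) x - x ∈ _
      rw [refl_apply]
      have : x - (2 * B x (Dt.e v) / B (Dt.e v) (Dt.e v)) • Dt.e v - x =
          -((2 * B x (Dt.e v) / B (Dt.e v) (Dt.e v)) • Dt.e v) := by abel
      rw [this]
      exact Submodule.neg_mem _ (Submodule.smul_mem _ _
        (Submodule.subset_span ⟨v, hv, rfl⟩))
    | one =>
      intro x
      change x - x ∈ _
      rw [sub_self]
      exact Submodule.zero_mem _
    | mul a b _ _ ha hb =>
      intro x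
      change a.1.1 (b.1.1 x) - x ∈ _
      have : a.1.1 (b.1.1 x) - x = (a.1.1 (b.1.1 x) - b.1.1 x) + (b.1.1 x - x) := by abel
      rw [this]
      exact Submodule.add_mem _ (ha _) (hb _)
    | inv a _ ha =>
      intro x
      have e1 : a.1.1 ((a⁻¹).1.1 x) = x := by
        change a.1.1 (a.1.1.symm x) = x
        exact a.1.1.apply_symm_apply x
      have h := ha ((a⁻¹).1.1 x)
      rw [e1] at h
      have : (a⁻¹).1.1 x - x = -(x - (a⁻¹).1.1 x) := by abel
      rw [this]
      exact Submodule.neg_mem _ h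

end MP8a95ee.Eu

end

section

/-!
# Bounded Euler class of O(n, infinity), item H2: the homotopy between the two chain maps
-/

namespace MP8a95ee.Eu

open Classical

namespace H2

section Gen

variable {α β : Type} {M M' : Type} [AddCommGroup M] [Module ℝ M] [AddCommGroup M'] [Module ℝ M']

theorem lin_apply (f : List α → M) (z : List α →₀ ℝ) :
    lin ℝ f z = z.sum fun l a => a • f l := by
  unfold lin
  rw [Finsupp.linearCombination_apply]

theorem lin_single (f : List α → M) (l : List α) (a : ℝ) :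
    lin ℝ f (Finsupp.single l a) = a • f l := by
  unfold lin
  rw [Finsupp.linearCombination_single]

theorem lin_congr {f g : List α → M} {z : List α →₀ ℝ} (h : ∀ l ∈ z.support, f l = g l) :
    lin ℝ f z = lin ℝ g z := by
  rw [lin_apply, lin_apply]
  exact Finsupp.sum_congr (fun l hl => by rw [h l hl])

theorem lin_sub (f g : List α → M) (z : List α →₀ ℝ) :
    lin ℝ (fun l => f l - g l) z = lin ℝ f z - lin ℝ g z := by
  rw [lin_apply, lin_apply, lin_apply, ← Finsupp.sum_sub]
  exact Finsupp.sum_congr (fun l _ => smul_sub _ _ _)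

theorem map_lin (T : M →ₗ[ℝ] M') (f : List α → M) (z : List α →₀ ℝ) :
    T (lin ℝ f z) = lin ℝ (fun l => T (f l)) z := by
  rw [lin_apply, lin_apply, map_finsuppSum]
  exact Finsupp.sum_congr (fun l _ => map_smul _ _ _)

theorem lin_mapm (f : List β → M) (g : α → β) (z : List α →₀ ℝ) :
    lin ℝ f (mapm ℝ g z) = lin ℝ (fun l => f (l.map g)) z := by
  unfold lin mapm
  rw [Finsupp.lmapDomain_apply, Finsupp.linearCombination_mapDomain]
  rfl

theorem bd_single (l : List α) : bd ℝ (Finsupp.single l 1) = faces ℝ l := by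
  unfold bd
  rw [Finsupp.linearCombination_single, one_smul]

theorem bd_eq (z : List α →₀ ℝ) : bd ℝ z = lin ℝ (faces ℝ) z := rfl

theorem mapm_single (g : α → β) (l : List α) (a : ℝ) :
    mapm ℝ g (Finsupp.single l a) = Finsupp.single (l.map g) a := by
  unfold mapm
  rw [Finsupp.lmapDomain_apply, Finsupp.mapDomain_single]

theorem faces_map (h1 : S_LC1) (g : α → β) (l : List α) :
    faces ℝ (l.map g) = mapm ℝ g (faces ℝ l) := by
  have := (h1 ℝ α β).2.2.1 g (Finsupp.single l 1)
  rwa [mapm_single, bd_single, bd_single] at this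

theorem lin_faces (h1 : S_LC1) (f : List α → M) (l : List α) :
    lin ℝ (fun l' => lin ℝ f (faces ℝ l')) (faces ℝ l) = 0 := by
  have h2 := (h1 ℝ α α).2.1 (Finsupp.single l 1)
  rw [bd_single, bd_eq] at h2
  rw [← map_lin (lin ℝ f) (faces ℝ) (faces ℝ l), h2, map_zero]

theorem faces_len (h1 : S_LC1) {l l' : List α} (h : l' ∈ (faces ℝ l).support) :
    l'.length + 1 = l.length ∧ l'.Sublist l := (h1 ℝ α α).2.2.2.1 l l' h

end Gen

section Space

variable {n : ℕ} {F : Type} [NormedAddCommGroup F] [InnerProductSpace ℝ F]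

theorem posC_iff (d : ℕ) (z : List (E n F) →₀ ℝ) :
    PosC d z ↔ z ∈ Finsupp.supported ℝ ℝ {l : List (E n F) | l.length = d ∧ PosL l} := by
  rw [Finsupp.mem_supported]
  rfl

theorem posC_zero (d : ℕ) : PosC d (0 : List (E n F) →₀ ℝ) := by
  rw [posC_iff]
  exact Submodule.zero_mem _

theorem posC_add {d : ℕ} {z z' : List (E n F) →₀ ℝ} (h : PosC d z) (h' : PosC d z') :
    PosC d (z + z') := by
  rw [posC_iff] at *
  exact Submodule.add_mem _ h h'

theorem posC_sub {d : ℕ} {z z' : List (E n F) →₀ ℝ} (h : PosC d z) (h' : PosC d z') :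
    PosC d (z - z') := by
  rw [posC_iff] at *
  exact Submodule.sub_mem _ h h'

theorem posC_smul {d : ℕ} (c : ℝ) {z : List (E n F) →₀ ℝ} (h : PosC d z) :
    PosC d (c • z) := by
  rw [posC_iff] at *
  exact Submodule.smul_mem _ c h

theorem posC_lin {α : Type} {d : ℕ} {f : List α → (List (E n F) →₀ ℝ)} {z : List α →₀ ℝ}
    (h : ∀ l ∈ z.support, PosC d (f l)) : PosC d (lin ℝ f z) := by
  rw [posC_iff, lin_apply]
  refine Submodule.sum_mem _ fun l hl => Submodule.smul_mem _ _ ?_
  rw [← posC_iff]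
  exact h l hl

theorem posC_single {l : List (E n F)} (h : PosL l) :
    PosC l.length (Finsupp.single l (1 : ℝ)) := by
  intro l' hl'
  have : l' = l := by
    have := Finsupp.support_single_subset hl'
    simpa using this
  rw [this]
  exact ⟨rfl, h⟩

theorem posC_act (hp : S_PO) {d : ℕ} (g : G n F) {z : List (E n F) →₀ ℝ} (h : PosC d z) :
    PosC d (act ℝ g z) := by
  intro l hl
  have h2 : l ∈ z.support.image (List.map (fun x => (g.1.1 : E n F → E n F) x)) :=
    Finsupp.mapDomain_support hl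
  rw [Finset.mem_image] at h2
  obtain ⟨l', hl', rfl⟩ := h2
  obtain ⟨h3, h4⟩ := h l' hl'
  exact ⟨by rw [List.length_map, h3], (hp n F).2.1 l' g h4⟩

theorem act_mul (g g' : G n F) (z : List (E n F) →₀ ℝ) :
    act ℝ (g * g') z = act ℝ g (act ℝ g' z) := by
  unfold act mapm
  rw [Finsupp.lmapDomain_apply, Finsupp.lmapDomain_apply, Finsupp.lmapDomain_apply,
    ← Finsupp.mapDomain_comp]
  congr 1
  funext l
  rw [Function.comp, List.map_map]
  rfl

theorem act_single (g : G n F) (l : List (E n F)) (a : ℝ) :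
    act ℝ g (Finsupp.single l a) =
      Finsupp.single (l.map (fun x => (g.1.1 : E n F → E n F) x)) a := mapm_single _ _ _

theorem bd_act (h1 : S_LC1) (g : G n F) (z : List (E n F) →₀ ℝ) :
    bd ℝ (act ℝ g z) = act ℝ g (bd ℝ z) := (h1 ℝ _ _).2.2.1 _ z

variable {L : Finset (Finset ℕ)} (Dt : Dat n F L) (K : Pkg n F)

theorem KL_sub {Dt : Dat n F L} {l l' : List (G n F × Finset ℕ)} (h : KL Dt l)
    (hl : ∀ a ∈ l', a ∈ l) : KL Dt l' := by
  obtain ⟨g, ρ, hρ, hc, H⟩ := h
  exact ⟨g, ρ, hρ, hc, fun a ha => H a (hl a ha)⟩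

theorem KL_ltr {Dt : Dat n F L} {l : List (G n F × Finset ℕ)} (g : G n F) (h : KL Dt l) :
    KL Dt (ltr g l) := by
  obtain ⟨g', ρ, hρ, hc, H⟩ := h
  refine ⟨g * g', ρ, hρ, hc, ?_⟩
  intro a ha
  rw [ltr, List.mem_map] at ha
  obtain ⟨b, hb, rfl⟩ := ha
  obtain ⟨h3, h4, h5, w, hw, h6⟩ := H b hb
  refine ⟨h3, h4, h5, w, hw, ?_⟩
  show g * b.1 = g * g' * w
  rw [h6, mul_assoc]

theorem ltr_ltr {H : Type} [Group H] (g g' : H) (l : List (H × Finset ℕ)) :
    ltr g (ltr g' l) = ltr (g * g') l := by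
  unfold ltr
  rw [List.map_map]
  congr 1
  funext a
  simp [mul_assoc]

theorem ltr_one {H : Type} [Group H] (l : List (H × Finset ℕ)) : ltr 1 l = l := by
  unfold ltr
  simp

theorem ltr_length {H : Type} [Group H] (g : H) (l : List (H × Finset ℕ)) :
    (ltr g l).length = l.length := by
  unfold ltr
  simp

theorem KL_ltr_iff {Dt : Dat n F L} {l : List (G n F × Finset ℕ)} (g : G n F) :
    KL Dt (ltr g l) ↔ KL Dt l := by
  constructor
  · intro h
    have := KL_ltr g⁻¹ h
    rwa [ltr_ltr, inv_mul_cancel, ltr_one] at this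
  · exact KL_ltr g

theorem th_ltr (g : G n F) (l : List (G n F × Finset ℕ)) :
    th Dt (ltr g l) = (th Dt l).map (fun x => (g.1.1 : E n F → E n F) x) := by
  unfold th ltr
  rw [List.map_map, List.map_map]
  rfl

/-- The cycle to be filled. -/
noncomputable def zz (h : List (G n F × Finset ℕ) → (List (E n F) →₀ ℝ))
    (l : List (G n F × Finset ℕ)) : List (E n F) →₀ ℝ :=
  K.φ (l.map Prod.fst) - thc Dt l - lin ℝ h (faces ℝ l)

theorem zz_congr (h1 : S_LC1) {h h' : List (G n F × Finset ℕ) → (List (E n F) →₀ ℝ)}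
    (l : List (G n F × Finset ℕ)) (H : ∀ l', l'.length + 1 = l.length → h l' = h' l') :
    zz Dt K h l = zz Dt K h' l := by
  unfold zz
  rw [lin_congr (f := h) (g := h')]
  intro l' hl'
  exact H l' (faces_len h1 hl').1

theorem zz_ltr (h1 : S_LC1) {h : List (G n F × Finset ℕ) → (List (E n F) →₀ ℝ)}
    (he : ∀ (g : G n F) (l : List (G n F × Finset ℕ)), h (ltr g l) = act ℝ g (h l))
    (g : G n F) (l : List (G n F × Finset ℕ)) (hl : l.length ≤ n) :
    zz Dt K h (ltr g l) = act ℝ g (zz Dt K h l) := by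
  unfold zz
  rw [map_sub, map_sub]
  congr 1
  · congr 1
    · have : (ltr g l).map Prod.fst = (l.map Prod.fst).map (g * ·) := by
        unfold ltr
        rw [List.map_map, List.map_map]
        rfl
      rw [this, K.equiv g _ (by rw [List.length_map]; exact hl)]
    · unfold thc
      rw [th_ltr, act_single]
  · rw [map_lin]
    unfold ltr
    rw [faces_map h1, lin_mapm]
    exact lin_congr fun l' _ => he g l'

theorem thc_bd (h1 : S_LC1) (y : List (G n F × Finset ℕ) →₀ ℝ) :
    bd ℝ (lin ℝ (thc Dt) y) = lin ℝ (thc Dt) (bd ℝ y) := by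
  have h2 : ∀ y : List (G n F × Finset ℕ) →₀ ℝ,
      lin ℝ (thc Dt) y = mapm ℝ (fun a : G n F × Finset ℕ => a.1.1.1 (Dt.x a.2)) y := by
    intro y
    unfold mapm
    rw [Finsupp.lmapDomain_apply, Finsupp.mapDomain, lin_apply]
    refine Finsupp.sum_congr fun l _ => ?_
    unfold thc th
    rw [Finsupp.smul_single, smul_eq_mul, mul_one]
  rw [h2, h2, (h1 ℝ _ _).2.2.1]

/-- Validity of a partial homotopy up to length `k`. -/
def Val (k : ℕ) (h : List (G n F × Finset ℕ) → (List (E n F) →₀ ℝ)) : Prop :=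
  (∀ l : List (G n F × Finset ℕ), l.length ≤ k → KL Dt l →
    PosC (l.length + 1) (h l) ∧ bd ℝ (h l) = zz Dt K h l) ∧
  ∀ (g : G n F) (l : List (G n F × Finset ℕ)), h (ltr g l) = act ℝ g (h l)

theorem zz_cycle (h1 : S_LC1) (hk : S_H1) (hL : IsFlag L) {k : ℕ}
    {h : List (G n F × Finset ℕ) → (List (E n F) →₀ ℝ)} (hv : Val Dt K k h)
    (l : List (G n F × Finset ℕ)) (hl : l.length = k + 1) (hkn : k + 1 ≤ n) (hKL : KL Dt l) :
    PosC (k + 1) (zz Dt K h l) ∧ bd ℝ (zz Dt K h l) = 0 := by
  have hsub : ∀ l' ∈ (faces ℝ l).support, l'.length = k ∧ KL Dt l' := by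
    intro l' hl'
    obtain ⟨h3, h4⟩ := faces_len h1 hl'
    exact ⟨by omega, KL_sub hKL fun a ha => h4.subset ha⟩
  constructor
  · unfold zz
    refine posC_sub (posC_sub ?_ ?_) ?_
    · have := K.pos (l.map Prod.fst) (by rw [List.length_map, hl]; exact hkn)
      rwa [List.length_map, hl] at this
    · unfold thc
      have := posC_single (hk n F L Dt hL l hKL)
      have h5 : (th Dt l).length = k + 1 := by
        unfold th
        rw [List.length_map, hl]
      rwa [h5] at this
    · refine posC_lin fun l' hl' => ?_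
      obtain ⟨h3, h4⟩ := hsub l' hl'
      have := (hv.1 l' h3.le h4).1
      rwa [h3] at this
  · unfold zz
    rw [map_sub, map_sub]
    have hne : l ≠ [] := by
      rintro rfl
      simp at hl
    have e1 : bd ℝ (K.φ (l.map Prod.fst)) =
        lin ℝ (fun l' => K.φ (l'.map Prod.fst)) (faces ℝ l) := by
      rw [K.chain _ (by simpa using hne) (by rw [List.length_map, hl]; exact hkn),
        faces_map h1, lin_mapm]
    have e2 : bd ℝ (thc Dt l) = lin ℝ (thc Dt) (faces ℝ l) := by
      have := thc_bd Dt h1 (Finsupp.single l 1)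
      rwa [lin_single, one_smul, bd_single] at this
    have e3 : bd ℝ (lin ℝ h (faces ℝ l)) =
        lin ℝ (fun l' => K.φ (l'.map Prod.fst)) (faces ℝ l) - lin ℝ (thc Dt) (faces ℝ l) := by
      rw [map_lin]
      have e4 : lin ℝ (fun l' => bd ℝ (h l')) (faces ℝ l) =
          lin ℝ (fun l' => (K.φ (l'.map Prod.fst) - thc Dt l') - lin ℝ h (faces ℝ l'))
            (faces ℝ l) := by
        refine lin_congr fun l' hl' => ?_
        obtain ⟨h3, h4⟩ := hsub l' hl'
        exact (hv.1 l' h3.le h4).2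
      rw [e4, lin_sub, lin_sub, lin_faces h1, sub_zero]
    rw [e1, e2, e3, sub_self]

theorem exists_val (h1 : S_LC1) (hp : S_PO) (ha : S_AC) (hk : S_H1) (hL : IsFlag L) :
    ∀ k : ℕ, k < n → ∃ h, Val Dt K k h := by
  intro k
  induction k with
  | zero =>
    intro _
    refine ⟨fun _ => 0, ?_, ?_⟩
    · intro l hl _
      have hl' : l = [] := List.length_eq_zero_iff.1 (Nat.le_zero.1 hl)
      subst hl'
      refine ⟨posC_zero _, ?_⟩
      rw [map_zero]
      unfold zz thc th faces
      rw [List.map_nil, K.nil, List.map_nil, map_zero, sub_self, sub_zero]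
    · intro g l
      rw [map_zero]
  | succ k ih =>
    intro hkn
    obtain ⟨h, hv⟩ := ih (by omega)
    have hfill : ∀ l : List (G n F × Finset ℕ), l.length = k + 1 ∧ KL Dt l →
        ∃ w : List (E n F) →₀ ℝ, PosC (k + 1 + 1) w ∧ bd ℝ w = zz Dt K h l := by
      rintro l ⟨h3, h4⟩
      obtain ⟨h5, h6⟩ := zz_cycle Dt K h1 hk hL hv l h3 (by omega) h4
      exact ha n F (k + 1) (by omega) hkn _ h5 h6
    choose! w hw using hfill
    let h' : List (G n F × Finset ℕ) → (List (E n F) →₀ ℝ) := fun l =>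
      if l.length = k + 1 ∧ KL Dt l then
        act ℝ (l.headD (1, ∅)).1 (w (ltr ((l.headD (1, ∅)).1)⁻¹ l)) else h l
    have hh' : ∀ l, l.length ≤ k → h' l = h l := by
      intro l hl
      exact if_neg (fun hc => by omega)
    have hz : ∀ l, l.length ≤ k + 1 → zz Dt K h' l = zz Dt K h l := by
      intro l hl
      exact zz_congr Dt K h1 l fun l' hl' => hh' l' (by omega)
    refine ⟨h', ?_, ?_⟩
    · intro l hl hKL
      rw [hz l hl]
      by_cases hlk : l.length ≤ k
      · rw [hh' l hlk]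
        exact hv.1 l hlk hKL
      · have hlk' : l.length = k + 1 := by omega
        have e1 : h' l = act ℝ (l.headD (1, ∅)).1 (w (ltr ((l.headD (1, ∅)).1)⁻¹ l)) :=
          if_pos ⟨hlk', hKL⟩
        obtain ⟨h5, h6⟩ := hw (ltr ((l.headD (1, ∅)).1)⁻¹ l)
          ⟨by rw [ltr_length, hlk'], KL_ltr _ hKL⟩
        rw [e1]
        refine ⟨?_, ?_⟩
        · rw [hlk']
          exact posC_act hp _ h5
        · rw [bd_act h1, h6, ← zz_ltr Dt K h1 hv.2 _ _ (by rw [ltr_length]; omega), ltr_ltr,
            mul_inv_cancel, ltr_one]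
    · intro g l
      by_cases hc : l.length = k + 1 ∧ KL Dt l
      · have hc' : (ltr g l).length = k + 1 ∧ KL Dt (ltr g l) :=
          ⟨by rw [ltr_length]; exact hc.1, KL_ltr g hc.2⟩
        have e1 : h' l = act ℝ (l.headD (1, ∅)).1 (w (ltr ((l.headD (1, ∅)).1)⁻¹ l)) := if_pos hc
        have e2 : h' (ltr g l) = act ℝ ((ltr g l).headD (1, ∅)).1
          (w (ltr (((ltr g l).headD (1, ∅)).1)⁻¹ (ltr g l))) := if_pos hc'
        have e3 : ((ltr g l).headD (1, ∅)).1 = g * (l.headD (1, ∅)).1 := by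
          cases l with
          | nil => simp at hc
          | cons a l => rfl
        rw [e1, e2, e3, act_mul, ltr_ltr, mul_inv_rev, inv_mul_cancel_right]
      · have hc' : ¬ ((ltr g l).length = k + 1 ∧ KL Dt (ltr g l)) := by
          rw [ltr_length, KL_ltr_iff]
          exact hc
        have e1 : h' l = h l := if_neg hc
        have e2 : h' (ltr g l) = h (ltr g l) := if_neg hc'
        rw [e1, e2, hv.2]

theorem deg_zero : K.deg 0 = 0 := by
  have h : Zc (0 : List (E n F) →₀ ℝ) := ⟨posC_zero _, map_zero _⟩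
  have := K.smul 0 0 h
  rwa [zero_mul, smul_zero] at this

theorem deg_lin {α : Type} (f : List α → (List (E n F) →₀ ℝ)) (y : List α →₀ ℝ)
    (hf : ∀ l ∈ y.support, Zc (f l)) :
    Zc (lin ℝ f y) ∧ K.deg (lin ℝ f y) = y.sum fun l a => a * K.deg (f l) := by
  rw [lin_apply]
  unfold Finsupp.sum
  have key : ∀ s : Finset (List α), s ⊆ y.support →
      Zc (∑ l ∈ s, y l • f l) ∧
        K.deg (∑ l ∈ s, y l • f l) = ∑ l ∈ s, y l * K.deg (f l) := by
    intro s
    induction s using Finset.induction_on with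
    | empty =>
      intro _
      rw [Finset.sum_empty, Finset.sum_empty]
      exact ⟨⟨posC_zero _, map_zero _⟩, deg_zero K⟩
    | insert a s has ih =>
      intro hs
      obtain ⟨i1, i2⟩ := ih (fun x hx => hs (Finset.mem_insert_of_mem hx))
      have h3 := hf a (hs (Finset.mem_insert_self _ _))
      have h4 : Zc (y a • f a) := ⟨posC_smul _ h3.1, by rw [map_smul, h3.2, smul_zero]⟩
      rw [Finset.sum_insert has, Finset.sum_insert has]
      refine ⟨⟨posC_add h4.1 i1.1, by rw [map_add, h4.2, i1.2, add_zero]⟩, ?_⟩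
      rw [K.add _ _ h4 i1, K.smul _ _ h3, i2]
  exact key y.support (Finset.Subset.refl _)

end Space

end H2

open H2 in
theorem prfH2 (h1 : S_LC1) (hp : S_PO) (ha : S_AC) (hk : S_H1) : S_H2 := by
  intro n F _ _ L Dt K hn hL
  obtain ⟨h, hv⟩ := exists_val Dt K h1 hp ha hk hL (n - 1) (by omega)
  have hcyc : ∀ l : List (G n F × Finset ℕ), l.length = n → KL Dt l → Zc (zz Dt K h l) := by
    intro l hl hKL
    have := zz_cycle Dt K h1 hk hL hv l (by omega) (by omega) hKL
    have e : n - 1 + 1 = n := by omega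
    rw [e] at this
    exact this
  obtain ⟨d, hd1, hd2⟩ : ∃ d : List (G n F × Finset ℕ) → ℝ,
      (∀ l, l.length = n ∧ KL Dt l → d l = K.deg (zz Dt K h l)) ∧
      (∀ l, ¬ (l.length = n ∧ KL Dt l) → d l = 0) :=
    ⟨fun l => if l.length = n ∧ KL Dt l then K.deg (zz Dt K h l) else 0,
      fun l hl => if_pos hl, fun l hl => if_neg hl⟩
  refine ⟨d, ?_, ?_⟩
  · intro g l
    by_cases hc : l.length = n ∧ KL Dt l
    · rw [hd1 _ hc, hd1 _ ⟨by rw [ltr_length]; exact hc.1, KL_ltr g hc.2⟩,
        zz_ltr Dt K h1 hv.2 g l hc.1.le, K.equi g _ (hcyc l hc.1 hc.2)]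
    · have hc' : ¬ ((ltr g l).length = n ∧ KL Dt (ltr g l)) := by
        rw [ltr_length, KL_ltr_iff]
        exact hc
      rw [hd2 _ hc, hd2 _ hc', mul_zero]
  · intro y hy hbd
    have e1 : lin ℝ (zz Dt K h) y =
        lin ℝ K.φ (mapm ℝ Prod.fst y) - lin ℝ (thc Dt) y := by
      have e2 : lin ℝ (zz Dt K h) y = lin ℝ (fun l => (K.φ (l.map Prod.fst) - thc Dt l) -
          lin ℝ h (faces ℝ l)) y := rfl
      rw [e2, lin_sub, lin_sub, lin_mapm, ← map_lin (lin ℝ h) (faces ℝ) y, ← bd_eq, hbd, map_zero,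
        sub_zero]
    obtain ⟨h3, h4⟩ := deg_lin K (zz Dt K h) y (fun l hl => hcyc l (hy l hl).1 (hy l hl).2)
    have h5 : Zc (lin ℝ (thc Dt) y) := by
      refine ⟨posC_lin fun l hl => ?_, ?_⟩
      · have := posC_single (hk n F L Dt hL l (hy l hl).2)
        have h6 : (th Dt l).length = n := by
          unfold th
          rw [List.length_map, (hy l hl).1]
        rw [h6] at this
        exact this
      · rw [thc_bd Dt h1, hbd, map_zero]
    have e3 : lin ℝ K.φ (mapm ℝ Prod.fst y) = lin ℝ (zz Dt K h) y + lin ℝ (thc Dt) y := by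
      rw [e1, sub_add_cancel]
    rw [e3, K.add _ _ h3 h5, h4, lin_apply d y]
    congr 1
    refine Finsupp.sum_congr fun l hl => ?_
    rw [← hd1 l (hy l hl), smul_eq_mul]

end MP8a95ee.Eu

end

section

namespace MP8a95ee.Eu

open Classical

namespace H3

theorem sumV_support {β : Type} (V : Finset ℕ) : ∀ (j : ℕ) (f : List ℕ → (List β →₀ ℝ))
    (l : List β), l ∈ (sumV V j f).support → ∃ s : List ℕ, s.length = j ∧ l ∈ (f s).support
  | 0, f, l, h => ⟨[], rfl, h⟩
  | j + 1, f, l, h => by
    change l ∈ (∑ v ∈ V, sumV V j (fun s => f (v :: s))).support at h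
    have := Finsupp.support_finsetSum h
    rw [Finset.mem_biUnion] at this
    obtain ⟨v, _, hv⟩ := this
    obtain ⟨s, hs, hl⟩ := sumV_support V j _ l hv
    exact ⟨v :: s, by rw [List.length_cons, hs], hl⟩

theorem lin_support {α β : Type} (f : List α → (List β →₀ ℝ)) (z : List α →₀ ℝ) (l : List β)
    (h : l ∈ (lin ℝ f z).support) : ∃ y ∈ z.support, l ∈ (f y).support := by
  unfold lin at h
  rw [Finsupp.linearCombination_apply, Finsupp.sum] at h
  have := Finsupp.support_finsetSum h
  rw [Finset.mem_biUnion] at this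
  obtain ⟨y, hy, hl⟩ := this
  exact ⟨y, hy, Finsupp.support_smul hl⟩

theorem wk_length {H : Type} [Group H] (r : ℕ → H) : ∀ (s : List ℕ) (g : H),
    (wk r g s).length = s.length + 1
  | [], g => rfl
  | v :: s, g => by
    change (g :: wk r (g * r v) s).length = _
    rw [List.length_cons, wk_length r s, List.length_cons]

theorem wk_mem {H : Type} [Group H] (r : ℕ → H) (T : Set ℕ) : ∀ (s : List ℕ) (g : H),
    (∀ v ∈ s, v ∈ T) → ∀ a ∈ wk r g s, ∃ w ∈ Subgroup.closure (r '' T), a = g * w
  | [], g, _, a, ha => by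
    change a ∈ [g] at ha
    rw [List.mem_singleton] at ha
    exact ⟨1, Subgroup.one_mem _, by rw [ha, mul_one]⟩
  | v :: s, g, hT, a, ha => by
    change a ∈ g :: wk r (g * r v) s at ha
    rw [List.mem_cons] at ha
    rcases ha with ha | ha
    · exact ⟨1, Subgroup.one_mem _, by rw [ha, mul_one]⟩
    · obtain ⟨w, hw, haw⟩ := wk_mem r T s (g * r v) (fun u hu => hT u (List.mem_cons_of_mem _ hu))
        a ha
      refine ⟨r v * w, Subgroup.mul_mem _ (Subgroup.subset_closure ⟨v, hT v (by simp), rfl⟩) hw, ?_⟩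
      rw [haw, mul_assoc]

theorem wk_ne {H : Type} [Group H] (r : ℕ → H) (s : List ℕ) (g : H) : wk r g s ≠ [] := by
  intro h
  have := wk_length r s g
  rw [h] at this
  simp at this

theorem flag_sub {L : Finset (Finset ℕ)} (hL : IsFlag L) {σ ρ : Finset ℕ} (hσ : σ ∈ L)
    (h : ρ ⊆ σ) : ρ ∈ L :=
  (hL ρ).2 fun x hx y hy => (hL σ).1 hσ x (h hx) y (h hy)

end H3

open H3 in
theorem prfH3 (h1 : S_Z1) : S_H3 := by
  intro n F _ _ L Dt o Dl hn hL
  refine ⟨?_, ?_⟩
  · intro j hj l hl
    obtain ⟨s, hs, hl⟩ := sumV_support _ _ _ _ hl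
    obtain ⟨y, hy, hl⟩ := lin_support _ _ _ hl
    obtain ⟨hlen, hσ⟩ := Dl.supp s y hy
    have hyne : y ≠ [] := by
      intro h
      rw [h, hs] at hlen
      simp at hlen
      omega
    obtain ⟨-, h2, -, -, -⟩ := h1 (G n F) (Finset ℕ) (wk Dt.r 1 s) y (wk_ne _ _ _) hyne
    obtain ⟨h3, h4⟩ := h2 l hl
    rw [wk_length] at h3
    refine ⟨by omega, ?_⟩
    obtain ⟨τ, hτ⟩ := List.exists_mem_of_ne_nil y hyne
    have hρL : s.toFinset ∈ L := flag_sub hL (hσ τ hτ).1 (hσ τ hτ).2.2
    refine ⟨1, s.toFinset, hρL, ?_, ?_⟩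
    · exact lt_of_le_of_lt (List.toFinset_card_le s) (by omega)
    · intro a ha
      obtain ⟨ha1, ha2⟩ := h4 a ha
      obtain ⟨b1, b2, b3⟩ := hσ a.2 ha2
      exact ⟨b3, b1, b2, wk_mem Dt.r _ s 1 (fun v hv => by simpa using hv) a.1 ha1⟩
  · intro q hq l hl
    obtain ⟨s, hs, hl⟩ := sumV_support _ _ _ _ hl
    have hqs : q s ≠ 0 := by
      intro h
      rw [h, zero_smul] at hl
      simp at hl
    obtain ⟨hsL, hsn⟩ := hq s hqs
    have hl2 := Finsupp.support_add (Finsupp.support_smul hl)
    rw [Finset.mem_union] at hl2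
    have hlab : ∀ x : List (G n F), ∀ l' : List (G n F × Finset ℕ),
        l' ∈ (Finsupp.single (lab s.toFinset x) (1 : ℝ)).support → l' = lab s.toFinset x := by
      intro x l' h
      have := Finsupp.support_single_subset h
      rwa [Finset.mem_singleton] at this
    have key : ∀ (g : G n F) (t : List ℕ), t.length < n → (∀ v ∈ t, v ∈ s) → t.length + 1 = n →
        (lab s.toFinset (wk Dt.r g t)).length = n ∧ KL Dt (lab s.toFinset (wk Dt.r g t)) := by
      intro g t ht hts htn
      refine ⟨?_, ?_⟩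
      · unfold lab
        rw [List.length_map, wk_length, htn]
      · have hsub : t.toFinset ⊆ s.toFinset := by
          intro v hv
          rw [List.mem_toFinset] at hv ⊢
          exact hts v hv
        refine ⟨g, t.toFinset, flag_sub hL hsL hsub, ?_, ?_⟩
        · exact lt_of_le_of_lt (List.toFinset_card_le t) ht
        · intro a ha
          unfold lab at ha
          rw [List.mem_map] at ha
          obtain ⟨b, hb, rfl⟩ := ha
          exact ⟨hsub, hsL, hsn, wk_mem Dt.r _ t g (fun v hv => by simpa using hv) b hb⟩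
    obtain ⟨v, t, rfl⟩ : ∃ v t, s = v :: t := by
      cases s with
      | nil =>
        simp at hs
        omega
      | cons v t => exact ⟨v, t, rfl⟩
    rw [List.length_cons] at hs
    rcases hl2 with h | h
    · rw [hlab _ l h]
      exact key _ _ (by simp; omega) (fun u hu => List.mem_cons_of_mem _ hu) (by simpa using hs)
    · rw [hlab _ l (Finsupp.support_smul h)]
      exact key _ _ (by simp; omega) (fun u hu => List.mem_of_mem_dropLast hu) (by simp; omega)

end MP8a95ee.Eu

end
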