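import Pool.Agent.Work.MP_8a95ee_gt.Eu.Stmts2
import Pool.Agent.Work.MP_8a95ee_gt.E
import Pool.Agent.Work.MP_8a95ee_gt.F
import Pool.Agent.Work.MP_8a95ee_gt.Bd.B02
import Pool.Agent.Work.MP_8a95ee_gt.Bd.B03
import Pool.Agent.Work.MP_8a95ee_gt.Eu.U1
import Pool.Agent.Work.MP_8a95ee_gt.Eu.HO1
import Pool.Agent.Work.MP_8a95ee_gt.Eu.AC
import Pool.Agent.Work.MP_8a95ee_gt.Eu.DG2
import Pool.Agent.Work.MP_8a95ee_gt.Eu.DG3
import Pool.Agent.Work.MP_8a95ee_gt.Eu.DG6
import Pool.Agent.Work.MP_8a95ee_gt.Eu.PK
import Pool.Agent.Work.MP_8a95ee_gt.Eu.Z2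
import Pool.Agent.Work.MP_8a95ee_gt.Eu.H1
import Pool.Agent.Work.MP_8a95ee_gt.Eu.CU
import Pool.Agent.Work.MP_8a95ee_gt.Eu.SV1

/-! Bundle of small proof modules (one section per former module). -/

section

namespace MP8a95ee.Eu

open Classical

theorem prfINF : S_INF := by
  intro hf
  have hli : LinearIndependent ℝ (fun i : ℕ => (lp.single 2 i (1 : ℝ) : lp (fun _ : ℕ => ℝ) 2)) := by
    rw [linearIndependent_iff']
    intro s g hg i hi
    have h1 : ((∑ j ∈ s, g j • (lp.single 2 j (1 : ℝ) : lp (fun _ : ℕ => ℝ) 2) :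
        lp (fun _ : ℕ => ℝ) 2) : ∀ i, ℝ) i = 0 := by
      rw [hg]
      rfl
    rw [lp.coeFn_sum, Finset.sum_apply, Finset.sum_eq_single i] at h1
    · rw [lp.coeFn_smul, Pi.smul_apply, lp.single_apply_self, smul_eq_mul, mul_one] at h1
      exact h1
    · intro j _ hji
      rw [lp.coeFn_smul, Pi.smul_apply, lp.single_apply_ne _ _ _ hji.symm, smul_zero]
    · intro h
      exact absurd hi h
  have := hli.finite
  exact not_finite ℕ

end MP8a95ee.Eu

end

section

namespace MP8a95ee.Eu

open Classical

namespace QF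

theorem finsler {ι : Type} [Fintype ι] (Q R : (ι → ℝ) → ℝ) (hQc : Continuous Q)
    (hRc : Continuous R) (hQh : ∀ (c : ℝ) (y : ι → ℝ), Q (c • y) = c ^ 2 * Q y)
    (hRh : ∀ (c : ℝ) (y : ι → ℝ), R (c • y) = c ^ 2 * R y) (hQ0 : ∀ y, 0 ≤ Q y)
    (hpos : ∀ y, y ≠ 0 → Q y = 0 → 0 < R y) :
    ∃ a δ : ℝ, 0 < a ∧ 0 < δ ∧ ∀ y : ι → ℝ, δ * ∑ i, y i ^ 2 ≤ a * Q y + R y := by
  have hS : IsCompact (Metric.sphere (0 : ι → ℝ) 1) := isCompact_sphere 0 1
  -- a bound for R
  obtain ⟨M, hM⟩ := hS.exists_bound_of_continuousOn hRc.continuousOn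
  -- the constant a
  have hstep : ∃ a : ℝ, 0 < a ∧ ∀ y ∈ Metric.sphere (0 : ι → ℝ) 1, 0 < a * Q y + R y := by
    set K : Set (ι → ℝ) := Metric.sphere (0 : ι → ℝ) 1 ∩ {y | R y ≤ 0} with hK
    have hKc : IsCompact K := hS.inter_right (isClosed_le hRc continuous_const)
    rcases K.eq_empty_or_nonempty with hKe | hKn
    · refine ⟨1, one_pos, fun y hy => ?_⟩
      have h1 : ¬ R y ≤ 0 := by
        intro h
        have : y ∈ K := ⟨hy, h⟩
        rw [hKe] at this
        exact this
      have h2 := hQ0 y
      push Not at h1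
      linarith
    · obtain ⟨z, hzK, hz⟩ := hKc.exists_isMinOn hKn hQc.continuousOn
      have hzne : z ≠ 0 := by
        rintro rfl
        have := hzK.1
        simp at this
      have hη : 0 < Q z := by
        rcases (hQ0 z).lt_or_eq with h | h
        · exact h
        · have := hpos z hzne h.symm
          have h3 : R z ≤ 0 := hzK.2
          linarith
      have hM0 : 0 ≤ M := le_trans (norm_nonneg _) (hM z hzK.1)
      refine ⟨M / Q z + 1, by positivity, fun y hy => ?_⟩
      by_cases hR : R y ≤ 0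
      · have hyK : y ∈ K := ⟨hy, hR⟩
        have h1 : Q z ≤ Q y := hz hyK
        have h2 : -M ≤ R y := by
          have := hM y hy
          rw [Real.norm_eq_abs] at this
          exact (abs_le.mp this).1
        have h3 : (M / Q z + 1) * Q z ≤ (M / Q z + 1) * Q y :=
          mul_le_mul_of_nonneg_left h1 (by positivity)
        have h4 : (M / Q z + 1) * Q z = M + Q z := by
          field_simp
        linarith
      · push Not at hR
        have h1 : 0 ≤ (M / Q z + 1) * Q y := mul_nonneg (by positivity) (hQ0 y)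
        linarith
  obtain ⟨a, ha, hpos'⟩ := hstep
  rcases (Metric.sphere (0 : ι → ℝ) 1).eq_empty_or_nonempty with hSe | hSn
  · refine ⟨a, 1, ha, one_pos, fun y => ?_⟩
    have hy : y = 0 := by
      by_contra hy
      have hn : 0 < ‖y‖ := norm_pos_iff.mpr hy
      have : ‖y‖⁻¹ • y ∈ Metric.sphere (0 : ι → ℝ) 1 := by
        rw [mem_sphere_zero_iff_norm, norm_smul, norm_inv, norm_norm, inv_mul_cancel₀ hn.ne']
      rw [hSe] at this
      exact this
    subst hy
    have h1 := hQh 0 0
    have h2 := hRh 0 0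
    simp at h1 h2
    simp [h1, h2]
  · obtain ⟨z, hzS, hz⟩ := hS.exists_isMinOn hSn
      (f := fun y => a * Q y + R y) (by fun_prop)
    have hd : 0 < a * Q z + R z := hpos' z hzS
    set d := a * Q z + R z with hdd
    set m : ℝ := (Fintype.card ι : ℝ) + 1 with hm
    have hm0 : 0 < m := by positivity
    refine ⟨a, d / m, ha, by positivity, fun y => ?_⟩
    by_cases hy : y = 0
    · subst hy
      have h1 := hQh 0 0
      have h2 := hRh 0 0
      simp at h1 h2
      simp [h1, h2]
    · have hn : 0 < ‖y‖ := norm_pos_iff.mpr hy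
      have hmem : ‖y‖⁻¹ • y ∈ Metric.sphere (0 : ι → ℝ) 1 := by
        rw [mem_sphere_zero_iff_norm, norm_smul, norm_inv, norm_norm, inv_mul_cancel₀ hn.ne']
      have h1 : d ≤ a * Q (‖y‖⁻¹ • y) + R (‖y‖⁻¹ • y) := hz hmem
      rw [hQh, hRh] at h1
      have h2 : ‖y‖ ^ 2 * d ≤ a * Q y + R y := by
        have h3 : ‖y‖ ^ 2 * d ≤ ‖y‖ ^ 2 * (a * (‖y‖⁻¹ ^ 2 * Q y) + ‖y‖⁻¹ ^ 2 * R y) :=
          mul_le_mul_of_nonneg_left h1 (by positivity)
        have h4 : ‖y‖ ^ 2 * (a * (‖y‖⁻¹ ^ 2 * Q y) + ‖y‖⁻¹ ^ 2 * R y) = a * Q y + R y := by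
          field_simp
        linarith
      have h5 : ∑ i, y i ^ 2 ≤ m * ‖y‖ ^ 2 := by
        have h6 : ∀ i ∈ (Finset.univ : Finset ι), y i ^ 2 ≤ ‖y‖ ^ 2 := by
          intro i _
          have h7 : |y i| ≤ ‖y‖ := by
            have := norm_le_pi_norm y i
            rwa [Real.norm_eq_abs] at this
          rw [← sq_abs]
          exact pow_le_pow_left₀ (abs_nonneg _) h7 2
        have h8 := Finset.sum_le_card_nsmul Finset.univ (fun i => y i ^ 2) (‖y‖ ^ 2) h6
        rw [nsmul_eq_mul, Finset.card_univ] at h8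
        have h9 : 0 ≤ ‖y‖ ^ 2 := by positivity
        rw [hm]
        nlinarith
      have h10 : d / m * ∑ i, y i ^ 2 ≤ d / m * (m * ‖y‖ ^ 2) :=
        mul_le_mul_of_nonneg_left h5 (by positivity)
      have h11 : d / m * (m * ‖y‖ ^ 2) = ‖y‖ ^ 2 * d := by
        field_simp
      linarith

end QF

theorem prfQF : S_QF := by
  intro n L P N hP
  set V := verts L with hV
  set Q : (↥V → ℝ) → ℝ := fun y => ∑ i : Fin n, (∑ v : ↥V, y v * P v i) ^ 2 with hQ
  set R : (↥V → ℝ) → ℝ := fun y => ∑ u : ↥V, ∑ v : ↥V, y u * y v * N u v with hR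
  obtain ⟨a, δ, ha, hδ, h⟩ := QF.finsler Q R (by rw [hQ]; fun_prop) (by rw [hR]; fun_prop)
    (by
      intro c y
      simp only [hQ, Pi.smul_apply, smul_eq_mul]
      rw [Finset.mul_sum]
      refine Finset.sum_congr rfl fun i _ => ?_
      rw [← mul_pow, Finset.mul_sum]
      congr 1
      refine Finset.sum_congr rfl fun v _ => ?_
      ring)
    (by
      intro c y
      simp only [hR, Pi.smul_apply, smul_eq_mul]
      rw [Finset.mul_sum]
      refine Finset.sum_congr rfl fun u _ => ?_
      rw [Finset.mul_sum]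
      refine Finset.sum_congr rfl fun v _ => ?_
      ring)
    (fun y => Finset.sum_nonneg fun i _ => sq_nonneg _)
    (by
      intro y hy hq
      have hz := (Finset.sum_eq_zero_iff_of_nonneg
        (fun i (_ : i ∈ Finset.univ) => sq_nonneg (∑ v : ↥V, y v * P v i))).mp hq
      set z : ℕ → ℝ := fun v => if hv : v ∈ V then y ⟨v, hv⟩ else 0 with hzdef
      have hzc : ∀ v : ↥V, z v = y v := by
        intro v
        simp [hzdef, v.2]
      obtain ⟨v, hv⟩ := Function.ne_iff.mp hy
      have h1 := hP.2 z ⟨v, v.2, by rw [hzc]; exact hv⟩ (by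
        ext i
        rw [Finset.sum_apply, ← Finset.sum_coe_sort]
        have h2 := hz i (Finset.mem_univ i)
        rw [sq_eq_zero_iff] at h2
        simp only [Pi.smul_apply, smul_eq_mul, Pi.zero_apply]
        rw [← h2]
        exact Finset.sum_congr rfl fun v _ => by rw [hzc])
      rw [← Finset.sum_coe_sort] at h1
      simp only [hR]
      refine lt_of_lt_of_eq h1 (Finset.sum_congr rfl fun u _ => ?_)
      rw [← Finset.sum_coe_sort]
      exact Finset.sum_congr rfl fun v _ => by rw [hzc, hzc])
  refine ⟨a, δ, ha, hδ, fun y => ?_⟩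
  have h1 := h (fun v => y v)
  simp only [hQ, hR] at h1
  have e1 : ∑ v : ↥V, y v ^ 2 = ∑ v ∈ V, y v ^ 2 := Finset.sum_coe_sort V fun v => y v ^ 2
  have e2 : ∀ i : Fin n, ∑ v : ↥V, y v * P v i = ∑ v ∈ V, y v * P v i :=
    fun i => Finset.sum_coe_sort V fun v => y v * P v i
  have e3 : ∑ u : ↥V, ∑ v : ↥V, y u * y v * N u v = ∑ u ∈ V, ∑ v ∈ V, y u * y v * N u v := by
    rw [← Finset.sum_coe_sort V fun u => ∑ v ∈ V, y u * y v * N u v]
    exact Finset.sum_congr rfl fun u _ => Finset.sum_coe_sort V fun v => y u * y v * N u v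
  rw [e1, e3] at h1
  simp only [e2] at h1
  exact h1

end MP8a95ee.Eu

end

section

/-!
Items SV3, SV4, WK (helper72).
-/

namespace MP8a95ee.Eu

open Classical

namespace SV34

theorem sign_pos_mul {c x : ℝ} (hc : 0 < c) : SignType.sign (c * x) = SignType.sign x := by
  rw [sign_mul, sign_pos hc, one_mul]

theorem det_upd {n : ℕ} (M : Matrix (Fin n) (Fin n) ℝ) (i : Fin n) (p : Fin n → ℝ) (a : ℝ) :
    a * ((a • M).updateRow i p).det = a ^ n * (M.updateRow i p).det := by
  rw [← Matrix.det_updateRow_smul]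
  have h : (a • M).updateRow i (a • p) = a • (M.updateRow i p) := by
    ext j k
    by_cases hj : j = i
    · subst hj
      simp [Matrix.updateRow_self]
    · simp [Matrix.updateRow_ne hj]
  rw [h, Matrix.det_smul, Fintype.card_fin]

theorem scal {n : ℕ} (M' M : Matrix (Fin n) (Fin n) ℝ) (p : Fin n → ℝ) {a : ℝ} (ha : 0 < a)
    (h : M' = a • M) : SignType.sign M'.det = SignType.sign M.det ∧
    ∀ i, SignType.sign (M'.det * (M'.updateRow i p).det) =
      SignType.sign (M.det * (M.updateRow i p).det) := by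
  have han : 0 < a ^ n := pow_pos ha n
  subst h
  constructor
  · rw [Matrix.det_smul, Fintype.card_fin, sign_pos_mul han]
  · intro i
    rw [← sign_pos_mul (c := a) ha]
    have h3 : a * (Matrix.det (a • M) * Matrix.det (Matrix.updateRow (a • M) i p)) =
        (a ^ n * a ^ n) * (Matrix.det M * Matrix.det (Matrix.updateRow M i p)) := by
      have h4 := det_upd M i p a
      rw [Matrix.det_smul, Fintype.card_fin]
      linear_combination (a ^ n * M.det) * h4
    rw [h3, sign_pos_mul (mul_pos han han)]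

theorem wk_ofFn {H : Type} [Group H] (r : ℕ → H) : ∀ (n : ℕ) (g : H) (s : Fin n → ℕ),
    List.ofFn (fun k => g * Fin.partialProd (fun i => r (s i)) k) = wk r g (List.ofFn s) := by
  intro n
  induction n with
  | zero =>
    intro g s
    simp [wk, Fin.partialProd]
  | succ n ih =>
    intro g s
    rw [List.ofFn_succ, List.ofFn_succ (f := s)]
    simp only [wk]
    congr 1
    · simp
    · rw [← ih (g * r (s 0)) (fun i => s i.succ)]
      congr 1
      funext k
      rw [Fin.partialProd_succ']
      rw [mul_assoc]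
      rfl

end SV34

open SV34

theorem prfSV3 : S_SV3 := by
  intro n V o P P' p a ha h
  unfold Sval
  refine Finset.sum_congr rfl fun s hs => ?_
  rw [Fintype.mem_piFinset] at hs
  have hM : (Matrix.of fun i => P' (s i)) = (a • (Matrix.of fun i => P (s i))) := by
    ext i j
    have h0 := congrFun (h (s i) (hs i)) j
    simpa using h0
  have h1 := scal _ _ p ha hM
  have e1 : SignType.sign (Matrix.det (fun i => P' (s i))) =
      SignType.sign (Matrix.det (fun i => P (s i))) := h1.1
  rw [e1]
  congr 1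
  refine Finset.prod_congr rfl fun i _ => ?_
  have e2 : SignType.sign (Matrix.det (fun i => P' (s i)) *
      Matrix.det (Matrix.updateRow (fun i => P' (s i)) i p)) =
      SignType.sign (Matrix.det (fun i => P (s i)) *
      Matrix.det (Matrix.updateRow (fun i => P (s i)) i p)) := h1.2 i
  rw [e2]

theorem prfSV4 : S_SV4 := by
  intro n
  induction n with
  | zero =>
    intro V f
    simp [sumV]
  | succ n ih =>
    intro V f
    simp only [sumV]
    have h1 : ∀ v ∈ V, sumV V n (fun s => f (v :: s)) =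
        ∑ s ∈ Fintype.piFinset (fun _ : Fin n => V), f (v :: List.ofFn s) := fun v _ =>
      ih V (fun s => f (v :: s))
    rw [Finset.sum_congr rfl h1, ← Finset.sum_product']
    refine Finset.sum_nbij' (fun x => (Fin.cons x.1 x.2 : Fin (n + 1) → ℕ))
      (fun s => (s 0, Fin.tail s)) ?_ ?_ ?_ ?_ ?_
    · intro x hx
      rw [Finset.mem_product, Fintype.mem_piFinset] at hx
      rw [Fintype.mem_piFinset]
      intro i
      refine Fin.cases ?_ (fun j => ?_) i
      · simpa using hx.1
      · simpa using hx.2 j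
    · intro s hs
      rw [Fintype.mem_piFinset] at hs
      rw [Finset.mem_product, Fintype.mem_piFinset]
      exact ⟨hs 0, fun j => hs j.succ⟩
    · intro x _
      simp
    · intro s _
      exact Fin.cons_self_tail s
    · intro x _
      rw [List.ofFn_succ]
      simp

theorem prfWK : S_WK := by
  intro H _ n r s
  have h := wk_ofFn r n 1 s
  simpa using h

end MP8a95ee.Eu

end

section

/-!
# Z1: the shuffle product of lists
-/

namespace MP8a95ee.Eu

open Classical

namespace Z1

variable {α β : Type}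

theorem Pr_nil_left (y : List β) : Pr ([] : List α) y = 0 := by
  unfold Pr
  rfl

theorem Pr_nil_right (x : List α) : Pr x ([] : List β) = 0 := by
  cases x with
  | nil => exact Pr_nil_left []
  | cons a x =>
    unfold Pr
    rfl

theorem Pr_one (a : α) (b : β) : Pr [a] [b] = Finsupp.single [(a, b)] (1 : ℝ) := by
  unfold Pr
  simp

theorem Pr_cons (a : α) (x : List α) (b : β) (y : List β) (h : ¬ (x = [] ∧ y = [])) :
    Pr (a :: x) (b :: y) =
      consm ℝ (a, b) (Pr x (b :: y) + ((-1 : ℝ) ^ x.length) • Pr (a :: x) y) := by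
  rw [Pr, if_neg h]

section Lin

variable {M M' : Type} [AddCommGroup M] [Module ℝ M] [AddCommGroup M'] [Module ℝ M']

theorem lin_single (f : List α → M) (l : List α) (c : ℝ) :
    lin ℝ f (Finsupp.single l c) = c • f l := by
  unfold lin
  rw [Finsupp.linearCombination_single]

theorem lin_congr (f g : List α → M) (z : List α →₀ ℝ) (h : ∀ l ∈ z.support, f l = g l) :
    lin ℝ f z = lin ℝ g z := by
  unfold lin
  rw [Finsupp.linearCombination_apply, Finsupp.linearCombination_apply]
  exact Finsupp.sum_congr fun l hl => by rw [h l hl]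

theorem lin_add (f g : List α → M) (z : List α →₀ ℝ) :
    lin ℝ (fun l => f l + g l) z = lin ℝ f z + lin ℝ g z := by
  unfold lin
  rw [Finsupp.linearCombination_apply, Finsupp.linearCombination_apply,
    Finsupp.linearCombination_apply]
  unfold Finsupp.sum
  rw [← Finset.sum_add_distrib]
  exact Finset.sum_congr rfl fun l _ => smul_add _ _ _

theorem lin_map (T : M →ₗ[ℝ] M') (f : List α → M) (z : List α →₀ ℝ) :
    T (lin ℝ f z) = lin ℝ (fun l => T (f l)) z := by
  unfold lin
  rw [Finsupp.linearCombination_apply, Finsupp.linearCombination_apply]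
  unfold Finsupp.sum
  rw [map_sum]
  exact Finset.sum_congr rfl fun l _ => by rw [map_smul]

theorem lin_smul (c : ℝ) (f : List α → M) (z : List α →₀ ℝ) :
    lin ℝ (fun l => c • f l) z = c • lin ℝ f z :=
  (lin_map (c • (LinearMap.id : M →ₗ[ℝ] M)) f z).symm

theorem lin_mapDomain (f : List α → M) (g : List α → List α) (z : List α →₀ ℝ) :
    lin ℝ f (Finsupp.mapDomain g z) = lin ℝ (fun l => f (g l)) z := by
  unfold lin
  rw [Finsupp.linearCombination_mapDomain]
  rfl

theorem lin_faces_cons (f : List α → M) (a : α) (x : List α) :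
    lin ℝ f (faces ℝ (a :: x)) = f x - lin ℝ (fun x' => f (a :: x')) (faces ℝ x) := by
  have : faces ℝ (a :: x) = Finsupp.single x 1 - Finsupp.mapDomain (List.cons a) (faces ℝ x) :=
    rfl
  rw [this, map_sub, lin_single, one_smul, lin_mapDomain]

theorem lin_faces_one (f : List α → M) (a : α) : lin ℝ f (faces ℝ [a]) = f [] := by
  rw [lin_faces_cons]
  have : faces ℝ ([] : List α) = 0 := rfl
  rw [this, map_zero, sub_zero]

end Lin

theorem bd_single (l : List α) (c : ℝ) : bd ℝ (Finsupp.single l c) = c • faces ℝ l := by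
  unfold bd
  rw [Finsupp.linearCombination_single]

theorem faces_one (a : α) : faces ℝ [a] = Finsupp.single [] 1 := by
  have : faces ℝ [a] = Finsupp.single [] 1 - Finsupp.mapDomain (List.cons a) (faces ℝ []) := rfl
  have h0 : faces ℝ ([] : List α) = 0 := rfl
  rw [this, h0, Finsupp.mapDomain_zero, sub_zero]

theorem consm_single (a : α) (l : List α) (c : ℝ) :
    consm ℝ a (Finsupp.single l c) = Finsupp.single (a :: l) c := by
  unfold consm
  rw [Finsupp.lmapDomain_apply, Finsupp.mapDomain_single]

theorem len_faces (h1 : S_LC1) {l l' : List α} (h : l' ∈ (faces ℝ l).support) :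
    l'.length + 1 = l.length := ((h1 ℝ α α).2.2.2.1 l l' h).1

/-- The Leibniz rule. -/
theorem leib (h1 : S_LC1) : ∀ (n : ℕ) (x : List α) (y : List β), x.length + y.length = n →
    x ≠ [] → y ≠ [] → 3 ≤ n →
    bd ℝ (Pr x y) = lin ℝ (fun x' => Pr x' y) (faces ℝ x) +
      ((-1 : ℝ) ^ (x.length - 1)) • lin ℝ (fun y' => Pr x y') (faces ℝ y) := by
  intro n
  induction n using Nat.strong_induction_on with
  | _ n ih =>
    intro x y hn hx hy h3
    obtain ⟨a, x, rfl⟩ := List.exists_cons_of_ne_nil hx
    obtain ⟨b, y, rfl⟩ := List.exists_cons_of_ne_nil hy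
    have hb : ∀ z : List (α × β) →₀ ℝ, bd ℝ (consm ℝ (a, b) z) = z - consm ℝ (a, b) (bd ℝ z) :=
      fun z => (h1 ℝ (α × β) (α × β)).1 (a, b) z
    rw [List.length_cons, List.length_cons] at hn
    have hxy : ¬ (x = [] ∧ y = []) := by
      rintro ⟨rfl, rfl⟩
      simp at hn
      omega
    rw [Pr_cons a x b y hxy, hb, lin_faces_cons, lin_faces_cons, List.length_cons,
      Nat.add_sub_cancel]
    by_cases hx0 : x = []
    · subst hx0
      have hy0 : y ≠ [] := fun h => hxy ⟨rfl, h⟩
      have e0 : faces ℝ ([] : List α) = 0 := rfl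
      rw [e0, map_zero, sub_zero, Pr_nil_left, List.length_nil, pow_zero, one_smul, one_smul,
        zero_add, zero_add]
      congr 1
      by_cases hq : y.length = 1
      · obtain ⟨b', rfl⟩ := List.length_eq_one_iff.mp hq
        rw [Pr_one, bd_single, one_smul, faces_one, consm_single, faces_one, lin_single, one_smul,
          Pr_one]
      · have hl : 2 ≤ y.length := by
          have : y.length ≠ 0 := fun h => hy0 (List.length_eq_zero_iff.mp h)
          omega
        have e1 := ih (([a] : List α).length + y.length) (by simp at hn ⊢; omega) [a] y rfl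
          (by simp) hy0 (by simp; omega)
        rw [lin_faces_one, Pr_nil_left, zero_add] at e1
        simp only [List.length_cons, List.length_nil, Nat.zero_add, Nat.sub_self, pow_zero,
          one_smul] at e1
        rw [e1, lin_map]
        refine lin_congr _ _ _ fun y' hy' => ?_
        have hlen := len_faces h1 hy'
        have hne : y' ≠ [] := by
          rintro rfl
          simp at hlen
          omega
        rw [Pr_cons a [] b y' (fun h => hne h.2), Pr_nil_left, List.length_nil, pow_zero, one_smul,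
          zero_add]
    · by_cases hy0 : y = []
      · subst hy0
        have e0 : faces ℝ ([] : List β) = 0 := rfl
        rw [e0, map_zero, sub_zero, Pr_nil_right, smul_zero, add_zero, add_zero]
        congr 1
        by_cases hq : x.length = 1
        · obtain ⟨a', rfl⟩ := List.length_eq_one_iff.mp hq
          rw [Pr_one, bd_single, one_smul, faces_one, consm_single, faces_one, lin_single,
            one_smul, Pr_one]
        · have hl : 2 ≤ x.length := by
            have : x.length ≠ 0 := fun h => hx0 (List.length_eq_zero_iff.mp h)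
            omega
          have e1 := ih (x.length + ([b] : List β).length) (by simp at hn ⊢; omega) x [b] rfl
            hx0 (by simp) (by simp; omega)
          rw [lin_faces_one (fun y' => Pr x y') b, Pr_nil_right, smul_zero, add_zero] at e1
          rw [e1, lin_map]
          refine lin_congr _ _ _ fun x' hx' => ?_
          have hlen := len_faces h1 hx'
          have hne : x' ≠ [] := by
            rintro rfl
            simp at hlen
            omega
          rw [Pr_cons a x' b [] (fun h => hne h.1), Pr_nil_right, smul_zero, add_zero]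
      · have hlx : x.length ≠ 0 := fun h => hx0 (List.length_eq_zero_iff.mp h)
        have hly : y.length ≠ 0 := fun h => hy0 (List.length_eq_zero_iff.mp h)
        have e1 := ih (x.length + (b :: y).length) (by rw [List.length_cons]; omega) x (b :: y) rfl
          hx0 (by simp) (by rw [List.length_cons]; omega)
        have e2 := ih ((a :: x).length + y.length) (by rw [List.length_cons]; omega) (a :: x) y rfl
          (by simp) hy0 (by rw [List.length_cons]; omega)
        rw [lin_faces_cons (fun y' => Pr x y')] at e1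
        rw [lin_faces_cons (fun x' => Pr x' y), List.length_cons, Nat.add_sub_cancel] at e2
        have f1 : lin ℝ (fun x' => Pr (a :: x') (b :: y)) (faces ℝ x) =
            consm ℝ (a, b) (lin ℝ (fun x' => Pr x' (b :: y)) (faces ℝ x) +
              ((-1 : ℝ) ^ (x.length - 1)) • lin ℝ (fun x' => Pr (a :: x') y) (faces ℝ x)) := by
          rw [← lin_smul, ← lin_add, lin_map]
          refine lin_congr _ _ _ fun x' hx' => ?_
          have hlen := len_faces h1 hx'
          have e : x'.length = x.length - 1 := by omega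
          rw [Pr_cons a x' b y (fun h => hy0 h.2), e]
        have f2 : lin ℝ (fun y' => Pr (a :: x) (b :: y')) (faces ℝ y) =
            consm ℝ (a, b) (lin ℝ (fun y' => Pr x (b :: y')) (faces ℝ y) +
              ((-1 : ℝ) ^ x.length) • lin ℝ (fun y' => Pr (a :: x) y') (faces ℝ y)) := by
          rw [← lin_smul, ← lin_add, lin_map]
          refine lin_congr _ _ _ fun y' _ => ?_
          rw [Pr_cons a x b y' (fun h => hx0 h.1)]
        rw [f1, f2, map_add, map_smul, e1, e2]
        have hs : ((-1 : ℝ) ^ x.length) = - ((-1 : ℝ) ^ (x.length - 1)) := by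
          obtain ⟨k, hk⟩ := Nat.exists_eq_succ_of_ne_zero hlx
          rw [hk, Nat.succ_sub_one, Nat.succ_eq_add_one, pow_succ]
          ring
        rw [hs]
        have hq : ((-1 : ℝ) ^ (x.length - 1)) * ((-1 : ℝ) ^ (x.length - 1)) = 1 := by
          rw [← mul_pow]
          norm_num
        simp only [map_add, map_smul, map_sub, smul_add, smul_sub, neg_smul, smul_neg, map_neg,
          smul_smul, hq, one_smul]
        abel

theorem supp : ∀ (n : ℕ) (x : List α) (y : List β), x.length + y.length = n →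
    ∀ l ∈ (Pr x y).support, l.length + 1 = x.length + y.length ∧ ∀ a ∈ l, a.1 ∈ x ∧ a.2 ∈ y := by
  intro n
  induction n using Nat.strong_induction_on with
  | _ n ih =>
    intro x y hn l hl
    cases x with
    | nil =>
      rw [Pr_nil_left] at hl
      simp at hl
    | cons a x =>
      cases y with
      | nil =>
        rw [Pr_nil_right] at hl
        simp at hl
      | cons b y =>
        rw [List.length_cons, List.length_cons] at hn
        by_cases h : x = [] ∧ y = []
        · obtain ⟨rfl, rfl⟩ := h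
          rw [Pr_one] at hl
          have : l = [(a, b)] := by
            have := Finsupp.support_single_subset hl
            simpa using this
          subst this
          simp
        · rw [Pr_cons a x b y h] at hl
          unfold consm at hl
          rw [Finsupp.lmapDomain_apply] at hl
          obtain ⟨l', hl', rfl⟩ := Finset.mem_image.mp (Finsupp.mapDomain_support hl)
          rcases Finset.mem_union.mp (Finsupp.support_add hl') with h1 | h1
          · obtain ⟨e1, e2⟩ := ih (x.length + (b :: y).length) (by rw [List.length_cons]; omega)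
              x (b :: y) rfl l' h1
            refine ⟨by simp only [List.length_cons] at e1 ⊢; omega, ?_⟩
            intro c hc
            rcases List.mem_cons.mp hc with rfl | hc
            · simp
            · exact ⟨List.mem_cons_of_mem _ (e2 c hc).1, (e2 c hc).2⟩
          · obtain ⟨e1, e2⟩ := ih ((a :: x).length + y.length) (by rw [List.length_cons]; omega)
              (a :: x) y rfl l' (Finsupp.support_smul h1)
            refine ⟨by simp only [List.length_cons] at e1 ⊢; omega, ?_⟩
            intro c hc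
            rcases List.mem_cons.mp hc with rfl | hc
            · simp
            · exact ⟨(e2 c hc).1, List.mem_cons_of_mem _ (e2 c hc).2⟩

theorem mapm_consm {γ δ : Type} (f : γ → δ) (c : γ) (z : List γ →₀ ℝ) :
    mapm ℝ f (consm ℝ c z) = consm ℝ (f c) (mapm ℝ f z) := by
  unfold mapm consm
  rw [Finsupp.lmapDomain_apply, Finsupp.lmapDomain_apply, Finsupp.lmapDomain_apply,
    Finsupp.lmapDomain_apply, ← Finsupp.mapDomain_comp, ← Finsupp.mapDomain_comp]
  rfl

theorem mapm_single {γ δ : Type} (f : γ → δ) (l : List γ) (c : ℝ) :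
    mapm ℝ f (Finsupp.single l c) = Finsupp.single (l.map f) c := by
  unfold mapm
  rw [Finsupp.lmapDomain_apply, Finsupp.mapDomain_single]

theorem fsts : ∀ (n : ℕ) (x : List α) (y y' : List β), x.length + y.length = n →
    y'.length = y.length → mapm ℝ Prod.fst (Pr x y) = mapm ℝ Prod.fst (Pr x y') := by
  intro n
  induction n using Nat.strong_induction_on with
  | _ n ih =>
    intro x y y' hn hy
    cases x with
    | nil => rw [Pr_nil_left, Pr_nil_left]
    | cons a x =>
      cases y with
      | nil =>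
        have : y' = [] := List.length_eq_zero_iff.mp hy
        rw [this]
      | cons b y =>
        cases y' with
        | nil => simp at hy
        | cons b' y' =>
          have hyl : y'.length = y.length := by simpa using hy
          rw [List.length_cons, List.length_cons] at hn
          by_cases h : x = [] ∧ y = []
          · obtain ⟨rfl, rfl⟩ := h
            have : y' = [] := List.length_eq_zero_iff.mp hyl
            subst this
            rw [Pr_one, Pr_one, mapm_single, mapm_single]
            rfl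
          · have h' : ¬ (x = [] ∧ y' = []) := by
              rintro ⟨h1, rfl⟩
              exact h ⟨h1, List.length_eq_zero_iff.mp hyl.symm⟩
            rw [Pr_cons a x b y h, Pr_cons a x b' y' h', mapm_consm, mapm_consm]
            simp only [map_add, map_smul]
            rw [ih (x.length + (b :: y).length) (by rw [List.length_cons]; omega) x (b :: y)
                (b' :: y') rfl hy,
              ih ((a :: x).length + y.length) (by rw [List.length_cons]; omega) (a :: x) y y' rfl
                hyl]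

theorem one_right (b : β) : ∀ x : List α, x ≠ [] →
    Pr x [b] = Finsupp.single (x.map (fun a => (a, b))) 1 := by
  intro x
  induction x with
  | nil => intro h; exact absurd rfl h
  | cons a x ih =>
    intro _
    by_cases h : x = []
    · subst h
      rw [Pr_one]
      rfl
    · rw [Pr_cons a x b [] (fun e => h e.1), Pr_nil_right, smul_zero, add_zero, ih h, consm_single]
      rfl

theorem nat : ∀ (n : ℕ) (x : List α) (y : List β) (f : α → α), x.length + y.length = n →
    Pr (x.map f) y = mapm ℝ (fun a => (f a.1, a.2)) (Pr x y) := by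
  intro n
  induction n using Nat.strong_induction_on with
  | _ n ih =>
    intro x y f hn
    cases x with
    | nil => rw [List.map_nil, Pr_nil_left, map_zero]
    | cons a x =>
      cases y with
      | nil => rw [Pr_nil_right, Pr_nil_right, map_zero]
      | cons b y =>
        rw [List.length_cons, List.length_cons] at hn
        rw [List.map_cons]
        by_cases h : x = [] ∧ y = []
        · obtain ⟨rfl, rfl⟩ := h
          rw [List.map_nil, Pr_one, Pr_one, mapm_single]
          rfl
        · have h' : ¬ (x.map f = [] ∧ y = []) := by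
            rintro ⟨h1, h2⟩
            exact h ⟨List.map_eq_nil_iff.mp h1, h2⟩
          have e2 := ih ((a :: x).length + y.length) (by rw [List.length_cons]; omega) (a :: x) y f
            rfl
          rw [List.map_cons] at e2
          rw [Pr_cons (f a) (x.map f) b y h', Pr_cons a x b y h, mapm_consm]
          simp only [map_add, map_smul]
          rw [ih (x.length + (b :: y).length) (by rw [List.length_cons]; omega) x (b :: y) f rfl,
            e2, List.length_map]

end Z1

/-- Z1. -/
theorem prfZ1 (h1 : S_LC1) : S_Z1 := by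
  intro α β x y hx hy
  exact ⟨fun h3 => Z1.leib h1 _ x y rfl hx hy h3, Z1.supp _ x y rfl,
    fun y' hy' => Z1.fsts _ x y y' rfl hy', fun b => Z1.one_right b x hx,
    fun f => Z1.nat _ x y f rfl⟩

end MP8a95ee.Eu

end

section

set_option autoImplicit false

/-!
# MP_8a95ee, Eu, Z3: boundary of an alternating sum of walks
-/

namespace MP8a95ee.Eu

open Classical

namespace Z3

theorem sumV_congr {M : Type} [AddCommMonoid M] (V : Finset ℕ) (j : ℕ) :
    ∀ F G : List ℕ → M, (∀ s, s.length = j → F s = G s) → sumV V j F = sumV V j G := by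
  induction j with
  | zero =>
    intro F G h
    exact h [] rfl
  | succ j ih =>
    intro F G h
    show ∑ v ∈ V, sumV V j (fun s => F (v :: s)) = ∑ v ∈ V, sumV V j (fun s => G (v :: s))
    refine Finset.sum_congr rfl fun v _ => ih _ _ fun s hs => h _ ?_
    rw [List.length_cons, hs]

theorem sumV_sub {M : Type} [AddCommGroup M] (V : Finset ℕ) (j : ℕ) :
    ∀ F G : List ℕ → M, sumV V j (fun s => F s - G s) = sumV V j F - sumV V j G := by
  induction j with
  | zero =>
    intro F G
    rfl
  | succ j ih =>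
    intro F G
    show ∑ v ∈ V, sumV V j (fun s => F (v :: s) - G (v :: s)) =
      ∑ v ∈ V, sumV V j (fun s => F (v :: s)) - ∑ v ∈ V, sumV V j (fun s => G (v :: s))
    rw [← Finset.sum_sub_distrib]
    exact Finset.sum_congr rfl fun v _ => ih _ _

theorem sumV_neg {M : Type} [AddCommGroup M] (V : Finset ℕ) (j : ℕ) :
    ∀ F : List ℕ → M, sumV V j (fun s => - F s) = - sumV V j F := by
  induction j with
  | zero =>
    intro F
    rfl
  | succ j ih =>
    intro F
    show ∑ v ∈ V, sumV V j (fun s => - F (v :: s)) = - ∑ v ∈ V, sumV V j (fun s => F (v :: s))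
    rw [← Finset.sum_neg_distrib]
    exact Finset.sum_congr rfl fun v _ => ih _

theorem lin_faces_cons {H M : Type} [AddCommGroup M] [Module ℝ M] (f : List H → M) (g : H)
    (l : List H) :
    lin ℝ f (faces ℝ (g :: l)) = f l - lin ℝ (fun t => f (g :: t)) (faces ℝ l) := by
  have h : faces ℝ (g :: l) =
      Finsupp.single l 1 - Finsupp.mapDomain (List.cons g) (faces ℝ l) := rfl
  rw [h, map_sub]
  congr 1
  · show Finsupp.linearCombination ℝ f _ = _
    rw [Finsupp.linearCombination_single, one_smul]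
  · show Finsupp.linearCombination ℝ f _ = Finsupp.linearCombination ℝ _ _
    rw [Finsupp.linearCombination_mapDomain]
    rfl

theorem main (H : Type) [Group H] (M M' : Type) [AddCommGroup M] [Module ℝ M] [AddCommGroup M']
    [Module ℝ M'] (r : ℕ → H) (V : Finset ℕ) (j : ℕ) :
    ∀ (g : H) (D : List ℕ → M) (f : List H → M →ₗ[ℝ] M'),
    (∀ (s₁ : List ℕ) (a b : ℕ) (s₂ : List ℕ), s₁.length + s₂.length + 2 = j + 1 →
      D (s₁ ++ a :: b :: s₂) = - D (s₁ ++ b :: a :: s₂)) →
    (∀ (s₁ : List ℕ) (a b : ℕ) (s₂ : List ℕ), s₁.length + s₂.length + 2 = j + 1 →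
      D (s₁ ++ a :: b :: s₂) ≠ 0 → r a * r b = r b * r a) →
    sumV V (j + 1) (fun s => (lin ℝ f (faces ℝ (wk r g s))) (D s)) =
      sumV V (j + 1) (fun s => f (wk r (g * r (s.headD 0)) s.tail) (D s)) +
      ((-1 : ℝ) ^ (j + 1)) • sumV V (j + 1) (fun s => f (wk r g s.dropLast) (D s)) := by
  induction j with
  | zero =>
    intro g D f _ _
    show ∑ v ∈ V, (lin ℝ f (faces ℝ (wk r g [v]))) (D [v]) =
      ∑ v ∈ V, f (wk r (g * r v) []) (D [v]) +
      ((-1 : ℝ) ^ (0 + 1)) • ∑ v ∈ V, f (wk r g []) (D [v])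
    rw [zero_add, pow_one, neg_smul, one_smul, ← sub_eq_add_neg, ← Finset.sum_sub_distrib]
    refine Finset.sum_congr rfl fun v _ => ?_
    show (lin ℝ f (faces ℝ [g, g * r v])) (D [v]) = f [g * r v] (D [v]) - f [g] (D [v])
    rw [lin_faces_cons, lin_faces_cons, LinearMap.sub_apply, LinearMap.sub_apply]
    have h0 : lin ℝ (fun t => f (g :: (g * r v) :: t)) (faces ℝ ([] : List H)) = 0 := by
      have : faces ℝ ([] : List H) = 0 := rfl
      rw [this, map_zero]
    rw [h0, LinearMap.zero_apply, sub_zero]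
  | succ j ih =>
    intro g D f hD hc
    -- left side
    have e1 : sumV V (j + 1 + 1) (fun s => (lin ℝ f (faces ℝ (wk r g s))) (D s)) =
        ∑ a ∈ V, sumV V (j + 1) (fun s => f (wk r (g * r a) s) (D (a :: s))) -
        ∑ a ∈ V, sumV V (j + 1) (fun s =>
          (lin ℝ (fun t => f (g :: t)) (faces ℝ (wk r (g * r a) s))) (D (a :: s))) := by
      rw [← Finset.sum_sub_distrib]
      show ∑ a ∈ V, sumV V (j + 1) (fun s => (lin ℝ f (faces ℝ (wk r g (a :: s)))) (D (a :: s))) = _
      refine Finset.sum_congr rfl fun a _ => ?_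
      rw [← sumV_sub]
      refine sumV_congr V (j + 1) _ _ fun s _ => ?_
      show (lin ℝ f (faces ℝ (g :: wk r (g * r a) s))) (D (a :: s)) = _
      rw [lin_faces_cons, LinearMap.sub_apply]
    have e2 : ∀ a ∈ V, sumV V (j + 1) (fun s =>
          (lin ℝ (fun t => f (g :: t)) (faces ℝ (wk r (g * r a) s))) (D (a :: s))) =
        sumV V (j + 1) (fun s =>
          f (g :: wk r (g * r a * r (s.headD 0)) s.tail) (D (a :: s))) +
        ((-1 : ℝ) ^ (j + 1)) • sumV V (j + 1) (fun s =>
          f (g :: wk r (g * r a) s.dropLast) (D (a :: s))) := by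
      intro a _
      refine ih (g * r a) (fun s => D (a :: s)) (fun t => f (g :: t)) ?_ ?_
      · intro s₁ b c s₂ hs
        exact hD (a :: s₁) b c s₂ (by rw [List.length_cons]; omega)
      · intro s₁ b c s₂ hs hne
        exact hc (a :: s₁) b c s₂ (by rw [List.length_cons]; omega) hne
    -- the middle terms
    have e3 : ∑ a ∈ V, sumV V (j + 1) (fun s =>
        f (g :: wk r (g * r a * r (s.headD 0)) s.tail) (D (a :: s))) = 0 := by
      have hX : ∑ a ∈ V, sumV V (j + 1) (fun s =>
          f (g :: wk r (g * r a * r (s.headD 0)) s.tail) (D (a :: s))) =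
          ∑ a ∈ V, ∑ b ∈ V, sumV V j (fun s => f (g :: wk r (g * r a * r b) s) (D (a :: b :: s))) :=
        rfl
      rw [hX]
      have hanti : ∀ a b, sumV V j (fun s => f (g :: wk r (g * r a * r b) s) (D (a :: b :: s))) =
          - sumV V j (fun s => f (g :: wk r (g * r b * r a) s) (D (b :: a :: s))) := by
        intro a b
        rw [← sumV_neg]
        refine sumV_congr V j _ _ fun s hs => ?_
        have h1 : D (a :: b :: s) = - D (b :: a :: s) :=
          hD [] a b s (by rw [List.length_nil]; omega)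
        by_cases h0 : D (a :: b :: s) = 0
        · have h2 : D (b :: a :: s) = 0 := by
            rw [h0] at h1
            rw [← neg_eq_zero]
            exact h1.symm
          rw [h0, h2, map_zero, map_zero, neg_zero]
        · have h3 : r a * r b = r b * r a := hc [] a b s (by rw [List.length_nil]; omega) h0
          rw [mul_assoc, mul_assoc, h3, h1, map_neg]
      set X := ∑ a ∈ V, ∑ b ∈ V,
        sumV V j (fun s => f (g :: wk r (g * r a * r b) s) (D (a :: b :: s))) with hXdef
      have h4 : X = - X := by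
        calc X = ∑ b ∈ V, ∑ a ∈ V,
              sumV V j (fun s => f (g :: wk r (g * r a * r b) s) (D (a :: b :: s))) :=
            Finset.sum_comm
          _ = ∑ b ∈ V, ∑ a ∈ V,
              - sumV V j (fun s => f (g :: wk r (g * r b * r a) s) (D (b :: a :: s))) :=
            Finset.sum_congr rfl fun b _ => Finset.sum_congr rfl fun a _ => hanti a b
          _ = - X := by
            rw [hXdef, ← Finset.sum_neg_distrib]
            refine Finset.sum_congr rfl fun b _ => ?_
            rw [Finset.sum_neg_distrib]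
      have h5 : (2 : ℝ) • X = 0 := by
        rw [two_smul]
        nth_rewrite 2 [h4]
        exact add_neg_cancel X
      exact (smul_eq_zero.1 h5).resolve_left two_ne_zero
    rw [e1, Finset.sum_congr rfl e2, Finset.sum_add_distrib, e3, zero_add, ← Finset.smul_sum]
    have e4 : sumV V (j + 1 + 1) (fun s => f (wk r (g * r (s.headD 0)) s.tail) (D s)) =
        ∑ a ∈ V, sumV V (j + 1) (fun s => f (wk r (g * r a) s) (D (a :: s))) := rfl
    have e5 : sumV V (j + 1 + 1) (fun s => f (wk r g s.dropLast) (D s)) =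
        ∑ a ∈ V, sumV V (j + 1) (fun s => f (g :: wk r (g * r a) s.dropLast) (D (a :: s))) := rfl
    rw [e4, e5, pow_succ (-1 : ℝ) (j + 1), mul_neg_one, neg_smul, sub_eq_add_neg]

end Z3

theorem prfZ3 : S_Z3 := by
  intro H _ M M' _ _ _ _ r V j g D f hj hD hc
  obtain ⟨i, rfl⟩ : ∃ i, j = i + 1 := ⟨j - 1, by omega⟩
  exact Z3.main H M M' r V i g D f hD hc

end MP8a95ee.Eu

end

section

/-!
# Z4: the main identity for equivariant functions
-/

namespace MP8a95ee

namespace Eu

open Classical

namespace Z4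

/-! ### Sums over lists -/

lemma sumV_congr {M : Type} [AddCommMonoid M] (V : Finset ℕ) : ∀ (j : ℕ) (F G : List ℕ → M),
    (∀ s : List ℕ, s.length = j → (∀ v ∈ s, v ∈ V) → F s = G s) → sumV V j F = sumV V j G
  | 0, F, G, h => by
    simp only [sumV]
    exact h [] rfl (by simp)
  | j + 1, F, G, h => by
    simp only [sumV]
    apply Finset.sum_congr rfl
    intro v hv
    apply sumV_congr V j
    intro s hs hs'
    apply h
    · simp [hs]
    · intro u hu
      rcases List.mem_cons.1 hu with rfl | hu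
      · exact hv
      · exact hs' u hu

lemma sumV_map {M M' : Type} [AddCommMonoid M] [AddCommMonoid M'] (φ : M →+ M') (V : Finset ℕ) :
    ∀ (j : ℕ) (F : List ℕ → M), φ (sumV V j F) = sumV V j (fun s => φ (F s))
  | 0, F => rfl
  | j + 1, F => by
    simp only [sumV, map_sum]
    exact Finset.sum_congr rfl fun v _ => sumV_map φ V j _

lemma sumV_add {M : Type} [AddCommMonoid M] (V : Finset ℕ) :
    ∀ (j : ℕ) (F G : List ℕ → M), sumV V j (fun s => F s + G s) = sumV V j F + sumV V j G
  | 0, F, G => rfl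
  | j + 1, F, G => by
    simp only [sumV]
    rw [← Finset.sum_add_distrib]
    exact Finset.sum_congr rfl fun v _ => sumV_add V j _ _

lemma sumV_zero {M : Type} [AddCommMonoid M] (V : Finset ℕ) :
    ∀ (j : ℕ), sumV V j (fun _ => (0 : M)) = 0
  | 0 => rfl
  | j + 1 => by
    simp only [sumV]
    exact Finset.sum_eq_zero fun v _ => sumV_zero V j

lemma sumV_sum {M ι : Type} [AddCommMonoid M] (V : Finset ℕ) (T : Finset ι) :
    ∀ (j : ℕ) (F : ι → List ℕ → M),
      sumV V j (fun s => ∑ i ∈ T, F i s) = ∑ i ∈ T, sumV V j (F i)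
  | 0, F => rfl
  | j + 1, F => by
    simp only [sumV]
    rw [Finset.sum_comm]
    exact Finset.sum_congr rfl fun v _ => sumV_sum V T j _

lemma sumV_last {M : Type} [AddCommMonoid M] (V : Finset ℕ) :
    ∀ (j : ℕ) (F : List ℕ → M),
      sumV V (j + 1) F = sumV V j (fun s => ∑ v ∈ V, F (s ++ [v]))
  | 0, F => by simp [sumV]
  | j + 1, F => by
    rw [sumV]
    rw [sumV]
    apply Finset.sum_congr rfl
    intro v _
    rw [sumV_last V j]
    rfl

lemma sumV_rot {M : Type} [AddCommMonoid M] (V : Finset ℕ) (j : ℕ) (F : List ℕ → M) :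
    sumV V (j + 1) (fun s => F (s.tail ++ [s.headD 0])) = sumV V (j + 1) F := by
  rw [sumV_last V j F, sumV_sum]
  simp only [sumV, List.tail_cons, List.headD_cons]

lemma sumV_smul {M : Type} [AddCommGroup M] [Module ℝ M] (V : Finset ℕ) (a : ℝ) (j : ℕ)
    (F : List ℕ → M) : sumV V j (fun s => a • F s) = a • sumV V j F := by
  have := sumV_map ((LinearMap.lsmul ℝ M a).toAddMonoidHom) V j F
  exact this.symm

lemma lin_map {α M M' : Type} [AddCommGroup M] [Module ℝ M] [AddCommGroup M'] [Module ℝ M']
    (φ : M →ₗ[ℝ] M') (f : List α → M) (z : List α →₀ ℝ) :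
    φ (lin ℝ f z) = lin ℝ (fun y => φ (f y)) z := by
  unfold lin
  rw [Finsupp.linearCombination_apply, Finsupp.linearCombination_apply, map_finsuppSum]
  simp

lemma lin_congr {α M : Type} [AddCommGroup M] [Module ℝ M] (f g : List α → M)
    (z : List α →₀ ℝ) (h : ∀ y ∈ z.support, f y = g y) : lin ℝ f z = lin ℝ g z := by
  unfold lin
  rw [Finsupp.linearCombination_apply, Finsupp.linearCombination_apply]
  apply Finsupp.sum_congr
  intro y hy
  rw [h y hy]

lemma lin_single {α M : Type} [AddCommGroup M] [Module ℝ M] (f : List α → M) (y : List α)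
    (a : ℝ) : lin ℝ f (Finsupp.single y a) = a • f y := by
  unfold lin
  rw [Finsupp.linearCombination_single]

lemma lin_add_fun {α M : Type} [AddCommGroup M] [Module ℝ M] (f g : List α → M)
    (z : List α →₀ ℝ) : lin ℝ (fun y => f y + g y) z = lin ℝ f z + lin ℝ g z := by
  unfold lin
  rw [Finsupp.linearCombination_apply, Finsupp.linearCombination_apply,
    Finsupp.linearCombination_apply, ← Finsupp.sum_add]
  simp

lemma lin_smul_fun {α M : Type} [AddCommGroup M] [Module ℝ M] (a : ℝ) (f : List α → M)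
    (z : List α →₀ ℝ) : lin ℝ (fun y => a • f y) z = a • lin ℝ f z := by
  have := lin_map (LinearMap.lsmul ℝ M a) f z
  exact this.symm

lemma lin_swap {α β M : Type} [AddCommGroup M] [Module ℝ M] (P : List α → List β → M)
    (w : List α →₀ ℝ) (z : List β →₀ ℝ) :
    lin ℝ (fun y => lin ℝ (fun x => P x y) w) z =
      (lin ℝ (fun x => lin ℝ (fun y => P x y)) w) z := by
  have h2 : (lin ℝ (fun x => lin ℝ (fun y => P x y)) w) z =
      lin ℝ (fun x => lin ℝ (fun y => P x y) z) w :=
    lin_map (LinearMap.applyₗ z) _ w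
  rw [h2]
  clear h2
  induction z using Finsupp.induction_linear with
  | zero =>
    simp only [map_zero]
    unfold lin
    rw [Finsupp.linearCombination_apply]
    simp
  | add z1 z2 h1 h2 =>
    rw [map_add, h1, h2, ← lin_add_fun]
    simp only [map_add]
  | single y a =>
    rw [lin_single, ← lin_smul_fun]
    simp only [lin_single]

/-! ### Walks -/

lemma wk_length {H : Type} [Group H] (r : ℕ → H) : ∀ (g : H) (s : List ℕ),
    (wk r g s).length = s.length + 1
  | g, [] => rfl
  | g, v :: s => by simp [wk, wk_length r (g * r v) s]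

lemma wk_ne_nil {H : Type} [Group H] (r : ℕ → H) (g : H) (s : List ℕ) : wk r g s ≠ [] := by
  intro h
  have := wk_length r g s
  rw [h] at this
  simp at this

lemma wk_map {H : Type} [Group H] (r : ℕ → H) (g : H) : ∀ (h : H) (s : List ℕ),
    wk r (g * h) s = (wk r h s).map (g * ·)
  | h, [] => by simp [wk]
  | h, v :: s => by
    simp only [wk, List.map_cons]
    rw [mul_assoc, wk_map r g (h * r v) s]

lemma Pr_nil {α β : Type} (y : List β) : Pr ([] : List α) y = 0 := by
  rw [Pr]

lemma Pr_nil_right {α β : Type} (x : List α) : Pr x ([] : List β) = 0 := by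
  cases x with
  | nil => rw [Pr]
  | cons a x => rw [Pr]

/-- moving the first entry of an alternating function to the end -/
lemma alt_move {M : Type} [AddCommGroup M] [Module ℝ M] (c : List ℕ → M)
    (halt : ∀ (s₁ : List ℕ) (a b : ℕ) (s₂ : List ℕ), c (s₁ ++ a :: b :: s₂) =
      - c (s₁ ++ b :: a :: s₂)) (a : ℕ) :
    ∀ (t s₁ : List ℕ), c (s₁ ++ a :: t) = ((-1 : ℝ) ^ t.length) • c (s₁ ++ (t ++ [a]))
  | [], s₁ => by simp
  | b :: t, s₁ => by
    rw [halt]
    have := alt_move c halt a t (s₁ ++ [b])
    simp only [List.append_assoc, List.cons_append, List.nil_append] at this ⊢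
    rw [this, List.length_cons, pow_succ]
    simp

end Z4

open Z4 in
theorem prfZ4 (_h1 : S_LC1) (z1 : S_Z1) (z3 : S_Z3) : S_Z4 := by
  intro n L o Dl H _ χ r hn hflag hχ hcomm f hf
  set V := verts L with hV
  set φ : (List (H × Finset ℕ) →₀ ℝ) →ₗ[ℝ] ℝ := lin ℝ f with hφ
  -- facts on the dual chains
  have hlen : ∀ s : List ℕ, ∀ y ∈ (Dl.c s).support, y.length + s.length = n + 1 :=
    fun s y hy => (Dl.supp s y hy).1
  have hcom : ∀ (s₁ : List ℕ) (a b : ℕ) (s₂ : List ℕ), s₁.length + s₂.length + 2 ≤ n →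
      Dl.c (s₁ ++ a :: b :: s₂) ≠ 0 → r a * r b = r b * r a := by
    intro s₁ a b s₂ hs hne
    obtain ⟨y, hy⟩ := Finsupp.support_nonempty_iff.2 hne
    obtain ⟨h1, h2⟩ := Dl.supp _ y hy
    have hy1 : y ≠ [] := by
      rintro rfl
      simp at h1
      omega
    obtain ⟨σ, hσ⟩ := List.exists_mem_of_ne_nil y hy1
    obtain ⟨hσL, -, hsub⟩ := h2 σ hσ
    apply hcomm
    exact (hflag σ).1 hσL a (hsub (by simp)) b (hsub (by simp))
  -- the linear maps
  let Fx : List H → (List (Finset ℕ) →₀ ℝ) →ₗ[ℝ] (List (H × Finset ℕ) →₀ ℝ) :=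
    fun x => lin ℝ (fun y => Pr x y)
  let Xj : ℕ → (List (H × Finset ℕ) →₀ ℝ) := fun j =>
    sumV V j (fun s => Fx (wk r 1 s.dropLast) (Dl.c s))
  have hφeq : ∀ (g : H) (z : List (H × Finset ℕ) →₀ ℝ),
      φ (mapm ℝ (fun p : H × Finset ℕ => (g * p.1, p.2)) z) =
        (((χ g : ℤˣ) : ℤ) : ℝ) * φ z := by
    intro g z
    rw [hφ]
    unfold mapm lin
    rw [Finsupp.lmapDomain_apply, Finsupp.linearCombination_mapDomain,
      Finsupp.linearCombination_apply, Finsupp.linearCombination_apply, Finsupp.mul_sum]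
    apply Finsupp.sum_congr
    intro l _
    have := hf g l
    unfold ltr at this
    rw [Function.comp_apply, this, smul_eq_mul, smul_eq_mul]
    ring
  -- the boundary of a cell
  have hcell : ∀ s : List ℕ, s.length ≤ n → bd ℝ (cell Dl (wk r 1 s) s) =
      (lin ℝ Fx (faces ℝ (wk r 1 s))) (Dl.c s) +
        ((-1 : ℝ) ^ s.length) • Fx (wk r 1 s) (bd ℝ (Dl.c s)) := by
    intro s hs
    unfold cell
    rw [lin_map]
    have e1 : lin ℝ (fun y => bd ℝ (Pr (wk r 1 s) y)) (Dl.c s) =
        lin ℝ (fun y => lin ℝ (fun x' => Pr x' y) (faces ℝ (wk r 1 s)) +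
          ((-1 : ℝ) ^ s.length) • lin ℝ (fun y' => Pr (wk r 1 s) y') (faces ℝ y)) (Dl.c s) := by
      apply lin_congr
      intro y hy
      have hl := hlen s y hy
      have hy1 : y ≠ [] := by
        rintro rfl
        simp at hl
        omega
      have := (z1 H (Finset ℕ) (wk r 1 s) y (wk_ne_nil r 1 s) hy1).1 (by
        rw [wk_length]; omega)
      rw [this, wk_length, Nat.add_sub_cancel]
    rw [e1, lin_add_fun, lin_smul_fun, lin_swap]
    congr 2
    have e2 := lin_map (lin ℝ (fun y' => Pr (wk r 1 s) y')) (faces ℝ) (Dl.c s)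
    exact e2.symm
  -- the main formula
  have hmain : ∀ j ≤ n, φ (bd ℝ (Zj Dl r j)) =
      (if 1 ≤ j then 2 * (-1 : ℝ) ^ j * φ (Xj j) else 0) +
        (if j < n then (-1 : ℝ) ^ j * φ (Xj (j + 1)) else 0) := by
    intro j hj
    have e1 : bd ℝ (Zj Dl r j) = sumV V j (fun s => (lin ℝ Fx (faces ℝ (wk r 1 s))) (Dl.c s)) +
        ((-1 : ℝ) ^ j) • sumV V j (fun s => Fx (wk r 1 s) (bd ℝ (Dl.c s))) := by
      unfold Zj
      have := sumV_map (bd ℝ : (List (H × Finset ℕ) →₀ ℝ) →ₗ[ℝ] _).toAddMonoidHom V j
        (fun s => cell Dl (wk r 1 s) s)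
      simp only [LinearMap.toAddMonoidHom_coe] at this
      rw [this, ← sumV_smul, ← sumV_add]
      apply sumV_congr
      intro s hs _
      rw [hcell s (by omega), hs]
    have eA : φ (sumV V j (fun s => (lin ℝ Fx (faces ℝ (wk r 1 s))) (Dl.c s))) =
        if 1 ≤ j then 2 * (-1 : ℝ) ^ j * φ (Xj j) else 0 := by
      split_ifs with hj1
      · have e3 := z3 H (List (Finset ℕ) →₀ ℝ) (List (H × Finset ℕ) →₀ ℝ) r V j 1 Dl.c Fx hj1
          (fun s₁ a b s₂ _ => Dl.alt s₁ a b s₂)
          (fun s₁ a b s₂ hs hne => hcom s₁ a b s₂ (by omega) hne)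
        rw [e3, map_add, map_smul]
        have e4 : φ (sumV V j (fun s => Fx (wk r (1 * r (s.headD 0)) s.tail) (Dl.c s))) =
            (-1 : ℝ) ^ j * φ (Xj j) := by
          have m1 := sumV_map φ.toAddMonoidHom V j
            (fun s => Fx (wk r (1 * r (s.headD 0)) s.tail) (Dl.c s))
          have m2 := sumV_map φ.toAddMonoidHom V j (fun s => Fx (wk r 1 s.dropLast) (Dl.c s))
          simp only [LinearMap.toAddMonoidHom_coe] at m1 m2
          rw [m1]
          change _ = (-1 : ℝ) ^ j * φ (sumV V j (fun s => Fx (wk r 1 s.dropLast) (Dl.c s)))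
          rw [m2]
          obtain ⟨j', rfl⟩ : ∃ j', j = j' + 1 := ⟨j - 1, by omega⟩
          rw [← smul_eq_mul, ← sumV_smul]
          refine Eq.trans ?_ (sumV_rot V j' _)
          apply sumV_congr
          intro s hs hsV
          obtain ⟨a, t, rfl⟩ : ∃ a t, s = a :: t := by
            cases s with
            | nil => simp at hs
            | cons a t => exact ⟨a, t, rfl⟩
          simp only [List.headD_cons, List.tail_cons]
          have ht : t.length = j' := by simpa using hs
          have c1 : Dl.c (a :: t) = ((-1 : ℝ) ^ j') • Dl.c (t ++ [a]) := by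
            have := alt_move Dl.c Dl.alt a t []
            rw [ht] at this
            simpa using this
          have haV : a ∈ verts L := hsV a (by simp)
          have key : φ (Fx (wk r (r a) t) (Dl.c (t ++ [a]))) =
              - φ (Fx (wk r 1 t) (Dl.c (t ++ [a]))) := by
            have k1 : Fx (wk r (r a) t) (Dl.c (t ++ [a])) =
                mapm ℝ (fun p : H × Finset ℕ => (r a * p.1, p.2))
                  (Fx (wk r 1 t) (Dl.c (t ++ [a]))) := by
              change lin ℝ (fun y => Pr (wk r (r a) t) y) (Dl.c (t ++ [a])) = mapm ℝ _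
                (lin ℝ (fun y => Pr (wk r 1 t) y) (Dl.c (t ++ [a])))
              rw [lin_map]
              apply lin_congr
              intro y hy
              have hl := hlen _ y hy
              have hy1 : y ≠ [] := by
                rintro rfl
                simp at hl
                omega
              have := (z1 H (Finset ℕ) (wk r 1 t) y (wk_ne_nil r 1 t) hy1).2.2.2.2 (r a * ·)
              rw [← this, ← wk_map, mul_one]
            rw [k1, hφeq (r a), hχ a haV]
            simp
          rw [c1, map_smul, map_smul, one_mul, key, List.dropLast_concat, smul_eq_mul,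
            smul_eq_mul, pow_succ]
          ring
        rw [e4]
        change (-1 : ℝ) ^ j * φ (Xj j) + (-1 : ℝ) ^ j • φ (Xj j) = _
        rw [smul_eq_mul]
        ring
      · have hj0 : j = 0 := by omega
        subst hj0
        have e0 : (lin ℝ Fx (faces ℝ [(1 : H)])) = 0 := by
          have f0 : faces ℝ [(1 : H)] = Finsupp.single [] 1 := by simp [faces]
          rw [f0, lin_single, one_smul]
          change lin ℝ (fun y => Pr ([] : List H) y) = 0
          apply LinearMap.ext
          intro z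
          have := lin_congr (fun y : List (Finset ℕ) => Pr ([] : List H) y) (fun _ => 0) z
            (fun y _ => Pr_nil y)
          rw [this]
          unfold lin
          rw [Finsupp.linearCombination_apply]
          simp
        simp only [sumV, wk]
        rw [e0]
        simp
    have eB : φ (sumV V j (fun s => Fx (wk r 1 s) (bd ℝ (Dl.c s)))) =
        if j < n then φ (Xj (j + 1)) else 0 := by
      split_ifs with hjn
      · congr 1
        change _ = sumV V (j + 1) (fun s => Fx (wk r 1 s.dropLast) (Dl.c s))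
        rw [sumV_last]
        apply sumV_congr
        intro s hs _
        rw [Dl.bdy s (by omega), map_sum]
        apply Finset.sum_congr rfl
        intro v _
        rw [List.dropLast_concat]
      · have hjn' : j = n := by omega
        rw [show sumV V j (fun s => Fx (wk r 1 s) (bd ℝ (Dl.c s))) = 0 from ?_, map_zero]
        rw [← sumV_zero V j]
        apply sumV_congr
        intro s hs _
        rw [Dl.top s (by omega), map_smul, map_smul]
        have b1 : bd ℝ (Finsupp.single [s.toFinset] (1 : ℝ)) = Finsupp.single [] 1 := by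
          have := lin_single (faces ℝ) [s.toFinset] 1
          change lin ℝ (faces ℝ) (Finsupp.single [s.toFinset] 1) = _
          rw [this]
          simp [faces]
        rw [b1]
        change oL o s • lin ℝ (fun y => Pr (wk r 1 s) y) (Finsupp.single [] 1) = 0
        rw [lin_single, Pr_nil_right]
        simp
    rw [e1, map_add, map_smul, eA, eB]
    congr 1
    split_ifs <;> simp
  have hsum : ∑ j ∈ Finset.range (n + 1), (2 : ℝ) ^ (n - j) * φ (bd ℝ (Zj Dl r j)) =
      ∑ j ∈ Finset.range (n + 1), (2 : ℝ) ^ (n - j) *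
        (if 1 ≤ j then 2 * (-1 : ℝ) ^ j * φ (Xj j) else 0) +
      ∑ j ∈ Finset.range (n + 1), (2 : ℝ) ^ (n - j) *
        (if j < n then (-1 : ℝ) ^ j * φ (Xj (j + 1)) else 0) := by
    rw [← Finset.sum_add_distrib]
    apply Finset.sum_congr rfl
    intro j hj
    rw [hmain j (by rw [Finset.mem_range] at hj; omega), mul_add]
  rw [hsum, Finset.sum_range_succ', Finset.sum_range_succ (fun j => (2 : ℝ) ^ (n - j) *
        (if j < n then (-1 : ℝ) ^ j * φ (Xj (j + 1)) else 0))]
  simp only [lt_self_iff_false, if_false, mul_zero, add_zero, Nat.le_add_left, if_true]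
  rw [if_neg (by norm_num : ¬ (1 : ℕ) ≤ 0), mul_zero, add_zero, ← Finset.sum_add_distrib]
  apply Finset.sum_eq_zero
  intro j hj
  rw [Finset.mem_range] at hj
  rw [if_pos hj]
  obtain ⟨m, rfl⟩ : ∃ m, n = j + 1 + m := ⟨n - (j + 1), by omega⟩
  rw [show j + 1 + m - (j + 1) = m by omega, show j + 1 + m - j = m + 1 by omega, pow_succ,
    pow_succ]
  ring

end Eu

end MP8a95ee

end

section

set_option autoImplicit false

/-!
# MP_8a95ee, Eu, Z5: boundary of the last chain, and the first components
-/

namespace MP8a95ee.Eu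

open Classical

namespace Z5

theorem sumV_congr {M : Type} [AddCommMonoid M] (V : Finset ℕ) (j : ℕ) :
    ∀ F G : List ℕ → M, (∀ s, s.length = j → F s = G s) → sumV V j F = sumV V j G := by
  induction j with
  | zero =>
    intro F G h
    exact h [] rfl
  | succ j ih =>
    intro F G h
    show ∑ v ∈ V, sumV V j (fun s => F (v :: s)) = ∑ v ∈ V, sumV V j (fun s => G (v :: s))
    refine Finset.sum_congr rfl fun v _ => ih _ _ fun s hs => h _ ?_
    rw [List.length_cons, hs]

theorem sumV_zero {M : Type} [AddCommMonoid M] (V : Finset ℕ) (j : ℕ) :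
    sumV V j (fun _ => (0 : M)) = 0 := by
  induction j with
  | zero => rfl
  | succ j ih =>
    show ∑ v ∈ V, sumV V j (fun _ => (0 : M)) = 0
    rw [ih, Finset.sum_const_zero]

theorem sumV_add {M : Type} [AddCommMonoid M] (V : Finset ℕ) (j : ℕ) :
    ∀ F G : List ℕ → M, sumV V j (fun s => F s + G s) = sumV V j F + sumV V j G := by
  induction j with
  | zero =>
    intro F G
    rfl
  | succ j ih =>
    intro F G
    show ∑ v ∈ V, sumV V j (fun s => F (v :: s) + G (v :: s)) =
      ∑ v ∈ V, sumV V j (fun s => F (v :: s)) + ∑ v ∈ V, sumV V j (fun s => G (v :: s))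
    rw [← Finset.sum_add_distrib]
    exact Finset.sum_congr rfl fun v _ => ih _ _

theorem sumV_map {M N : Type} [AddCommGroup M] [Module ℝ M] [AddCommGroup N] [Module ℝ N]
    (φ : M →ₗ[ℝ] N) (V : Finset ℕ) (j : ℕ) :
    ∀ F : List ℕ → M, φ (sumV V j F) = sumV V j (fun s => φ (F s)) := by
  induction j with
  | zero =>
    intro F
    rfl
  | succ j ih =>
    intro F
    show φ (∑ v ∈ V, sumV V j (fun s => F (v :: s))) = ∑ v ∈ V, sumV V j (fun s => φ (F (v :: s)))
    rw [map_sum]
    exact Finset.sum_congr rfl fun v _ => ih _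

theorem sumV_smul {M : Type} [AddCommGroup M] [Module ℝ M] (a : ℝ) (V : Finset ℕ) (j : ℕ)
    (F : List ℕ → M) : a • sumV V j F = sumV V j (fun s => a • F s) :=
  sumV_map (LinearMap.lsmul ℝ M a) V j F

theorem wk_ne_nil {H : Type} [Group H] (r : ℕ → H) (g : H) (s : List ℕ) : wk r g s ≠ [] := by
  cases s with
  | nil => exact List.cons_ne_nil _ _
  | cons a s => exact List.cons_ne_nil _ _

theorem toFinset_swap (s₁ : List ℕ) (a b : ℕ) (s₂ : List ℕ) :
    (s₁ ++ a :: b :: s₂).toFinset = (s₁ ++ b :: a :: s₂).toFinset := by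
  apply List.toFinset_eq_of_perm
  exact List.Perm.append_left s₁ (List.Perm.swap b a s₂)

/-- `lin` of a single. -/
theorem lin_single {α M : Type} [AddCommGroup M] [Module ℝ M] (f : List α → M) (l : List α)
    (a : ℝ) : lin ℝ f (Finsupp.single l a) = a • f l :=
  Finsupp.linearCombination_single ℝ a l

/-- The linear map which gives labels. -/
noncomputable def lf {H : Type} (x : List H) :
    (Finset ℕ →₀ ℝ) →ₗ[ℝ] (List (H × Finset ℕ) →₀ ℝ) :=
  Finsupp.lmapDomain ℝ ℝ (fun σ => lab σ x)

theorem lf_apply {H : Type} (x : List H) (a : ℝ) (σ : Finset ℕ) :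
    lf x (a • Finsupp.single σ 1) = a • Finsupp.single (lab σ x) 1 := by
  rw [map_smul]
  congr 1
  exact Finsupp.mapDomain_single

theorem lin_lf {H : Type} (z : List H →₀ ℝ) (a : ℝ) (σ : Finset ℕ) :
    (lin ℝ (fun x : List H => lf x) z) (a • Finsupp.single σ 1) =
      a • mapm ℝ (fun g => (g, σ)) z := by
  induction z using Finsupp.induction_linear with
  | zero => simp
  | add z w hz hw => rw [map_add, LinearMap.add_apply, hz, hw, map_add, smul_add]
  | single l c =>
    rw [lin_single, LinearMap.smul_apply, lf_apply]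
    have : mapm ℝ (fun g : H => (g, σ)) (Finsupp.single l c) = c • Finsupp.single (lab σ l) 1 := by
      show Finsupp.mapDomain _ _ = _
      rw [Finsupp.mapDomain_single, Finsupp.smul_single, smul_eq_mul, mul_one]
      rfl
    rw [this, smul_comm]

theorem bd_single {α : Type} (l : List α) : bd ℝ (Finsupp.single l 1) = faces ℝ l := by
  show Finsupp.linearCombination ℝ (faces ℝ) _ = _
  rw [Finsupp.linearCombination_single, one_smul]

theorem bd_lab {H : Type} (h1 : S_LC1) (σ : Finset ℕ) (x : List H) :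
    bd ℝ (Finsupp.single (lab σ x) 1) = mapm ℝ (fun g => (g, σ)) (faces ℝ x) := by
  rw [← bd_single, ← (h1 ℝ H (H × Finset ℕ)).2.2.1]
  congr 1
  symm
  exact Finsupp.mapDomain_single

section

variable {n : ℕ} {L : Finset (Finset ℕ)} {o : (Fin n → ℕ) → ℤ} {H : Type} [Group H]

theorem cell_top (z1 : S_Z1) (Dl : Dual n L o) (r : ℕ → H) (g : H) (s : List ℕ)
    (hs : s.length = n) :
    cell Dl (wk r g s) s = oL o s • Finsupp.single (lab s.toFinset (wk r g s)) 1 := by
  unfold cell
  rw [Dl.top s hs, map_smul, lin_single, one_smul]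
  congr 1
  exact (z1 H (Finset ℕ) (wk r g s) [s.toFinset] (wk_ne_nil r g s)
    (List.cons_ne_nil _ _)).2.2.2.1 s.toFinset

theorem Zn_eq (z1 : S_Z1) (Dl : Dual n L o) (r : ℕ → H) :
    Zj Dl r n = sumV (verts L) n
      (fun s => oL o s • Finsupp.single (lab s.toFinset (wk r 1 s)) 1) :=
  sumV_congr _ _ _ _ fun s hs => cell_top z1 Dl r 1 s hs

theorem oL_eq (Dl : Dual n L o) (s : List ℕ) (hs : s.length = n) :
    oL o s = Dl.c s [s.toFinset] := by
  rw [Dl.top s hs, Finsupp.smul_apply, Finsupp.single_eq_same, smul_eq_mul, mul_one]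

theorem oL_alt (Dl : Dual n L o) (s₁ : List ℕ) (a b : ℕ) (s₂ : List ℕ)
    (h : s₁.length + s₂.length + 2 = n) :
    oL o (s₁ ++ a :: b :: s₂) = - oL o (s₁ ++ b :: a :: s₂) := by
  rw [oL_eq Dl (s₁ ++ a :: b :: s₂) (by simp only [List.length_append, List.length_cons]; omega),
    oL_eq Dl (s₁ ++ b :: a :: s₂) (by simp only [List.length_append, List.length_cons]; omega),
    Dl.alt s₁ a b s₂, toFinset_swap s₁ a b s₂, Finsupp.neg_apply]

theorem mem_of_oL (Dl : Dual n L o) (s : List ℕ) (hs : s.length = n) (h : oL o s ≠ 0) :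
    s.toFinset ∈ L := by
  rw [oL_eq Dl s hs] at h
  exact ((Dl.supp s [s.toFinset] (Finsupp.mem_support_iff.2 h)).2 s.toFinset
    (List.mem_singleton.2 rfl)).1

/-- The coefficients in Z3. -/
noncomputable def Dc (o : (Fin n → ℕ) → ℤ) (s : List ℕ) : Finset ℕ →₀ ℝ :=
  oL o s • Finsupp.single s.toFinset 1

theorem part1 (h1 : S_LC1) (z1 : S_Z1) (z3 : S_Z3) (Dl : Dual n L o) (r : ℕ → H) (hn : 0 < n)
    (hL : IsFlag L) (hr : ∀ u v : ℕ, ({u, v} : Finset ℕ) ∈ L → r u * r v = r v * r u) :
    bd ℝ (Zj Dl r n) = Yc n (oL o) r (verts L) := by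
  have e1 : bd ℝ (Zj Dl r n) = sumV (verts L) n
      (fun s => (lin ℝ (fun x : List H => lf x) (faces ℝ (wk r 1 s))) (Dc o s)) := by
    rw [Zn_eq z1, sumV_map]
    refine sumV_congr _ _ _ _ fun s _ => ?_
    unfold Dc
    rw [lin_lf, map_smul, bd_lab h1]
  rw [e1, z3 H (Finset ℕ →₀ ℝ) (List (H × Finset ℕ) →₀ ℝ) r (verts L) n 1 (Dc o)
    (fun x : List H => lf x) hn ?_ ?_]
  · rw [sumV_smul, ← sumV_add]
    unfold Yc
    refine sumV_congr _ _ _ _ fun s _ => ?_
    unfold Dc
    rw [lf_apply, lf_apply, one_mul, smul_add, smul_comm (oL o s) ((-1 : ℝ) ^ n)]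
  · intro s₁ a b s₂ hs
    unfold Dc
    rw [oL_alt Dl s₁ a b s₂ hs, toFinset_swap s₁ a b s₂, neg_smul]
  · intro s₁ a b s₂ hs hne
    have ho : oL o (s₁ ++ a :: b :: s₂) ≠ 0 := by
      intro h0
      apply hne
      unfold Dc
      rw [h0, zero_smul]
    have hm := mem_of_oL Dl _ (by simp only [List.length_append, List.length_cons]; omega) ho
    have hma : a ∈ (s₁ ++ a :: b :: s₂).toFinset := by simp
    have hmb : b ∈ (s₁ ++ a :: b :: s₂).toFinset := by simp
    exact hr a b ((hL _).1 hm a hma b hmb)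

theorem part2 (z1 : S_Z1) (Dl : Dual n L o) (r : ℕ → H) (j : ℕ) (hj : j < n) :
    mapm ℝ Prod.fst (Zj Dl r j) = 0 := by
  unfold Zj
  rw [sumV_map]
  rw [← sumV_zero (M := List H →₀ ℝ) (verts L) j]
  refine sumV_congr _ _ _ _ fun s hs => ?_
  have key : ∀ y ∈ (Dl.c s).support, mapm ℝ Prod.fst (Pr (wk r 1 s) y) =
      mapm ℝ Prod.fst (Pr (wk r 1 s) (List.replicate (n + 1 - j) (∅ : Finset ℕ))) := by
    intro y hy
    have hl := (Dl.supp s y hy).1
    have hy0 : y ≠ [] := by
      intro h0
      rw [h0, List.length_nil] at hl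
      omega
    refine (z1 H (Finset ℕ) (wk r 1 s) y (wk_ne_nil r 1 s) hy0).2.2.1 _ ?_
    rw [List.length_replicate]
    omega
  unfold cell
  have e1 : lin ℝ (fun y => Pr (wk r 1 s) y) (Dl.c s) =
      (Dl.c s).sum (fun y a => a • Pr (wk r 1 s) y) := rfl
  rw [e1, map_finsuppSum]
  have e2 : ((Dl.c s).sum fun y a => mapm ℝ Prod.fst (a • Pr (wk r 1 s) y)) =
      (Dl.c s).sum fun y a => a •
        mapm ℝ Prod.fst (Pr (wk r 1 s) (List.replicate (n + 1 - j) (∅ : Finset ℕ))) := by
    refine Finsupp.sum_congr fun y hy => ?_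
    rw [map_smul, key y hy]
  rw [e2]
  have e3 : ((Dl.c s).sum fun y a => a •
        mapm ℝ Prod.fst (Pr (wk r 1 s) (List.replicate (n + 1 - j) (∅ : Finset ℕ)))) =
      ((Dl.c s).sum fun _ a => a) •
        mapm ℝ Prod.fst (Pr (wk r 1 s) (List.replicate (n + 1 - j) (∅ : Finset ℕ))) := by
    unfold Finsupp.sum
    rw [Finset.sum_smul]
  rw [e3, Dl.aug s (by rw [hs]; exact hj), zero_smul]

theorem part3 (z1 : S_Z1) (Dl : Dual n L o) (r : ℕ → H) :
    mapm ℝ Prod.fst (Zj Dl r n) =
      sumV (verts L) n (fun s => oL o s • Finsupp.single (wk r 1 s) 1) := by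
  rw [Zn_eq z1, sumV_map]
  refine sumV_congr _ _ _ _ fun s _ => ?_
  rw [map_smul]
  congr 1
  have e : mapm ℝ Prod.fst (Finsupp.single (lab s.toFinset (wk r 1 s)) 1) =
      Finsupp.single ((lab s.toFinset (wk r 1 s)).map Prod.fst) (1 : ℝ) :=
    Finsupp.mapDomain_single
  rw [e]
  congr 1
  unfold lab
  rw [List.map_map]
  exact List.map_id _

end

end Z5

theorem prfZ5 (h1 : S_LC1) (z1 : S_Z1) (z3 : S_Z3) : S_Z5 := by
  intro n L o Dl H _ r hn hL hr
  exact ⟨Z5.part1 h1 z1 z3 Dl r hn hL hr, fun j hj => Z5.part2 z1 Dl r j hj,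
    Z5.part3 z1 Dl r⟩

end MP8a95ee.Eu

end

section

/-!
# MP_8a95ee, Eu, Z6: the chain `Y` for an alternating function
-/

namespace MP8a95ee.Eu

open Classical

namespace Z6

theorem sumV_map {M M' : Type} [AddCommGroup M] [Module ℝ M] [AddCommGroup M'] [Module ℝ M']
    (V : Finset ℕ) (T : M →ₗ[ℝ] M') (j : ℕ) :
    ∀ F : List ℕ → M, T (sumV V j F) = sumV V j (fun s => T (F s)) := by
  induction j with
  | zero =>
    intro F
    rfl
  | succ j ih =>
    intro F
    show T (∑ v ∈ V, sumV V j (fun s => F (v :: s))) =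
      ∑ v ∈ V, sumV V j (fun s => T (F (v :: s)))
    rw [map_sum]
    exact Finset.sum_congr rfl fun v _ => ih _

theorem sumV_add {M : Type} [AddCommGroup M] (V : Finset ℕ) (j : ℕ) :
    ∀ F G : List ℕ → M, sumV V j (fun s => F s + G s) = sumV V j F + sumV V j G := by
  induction j with
  | zero =>
    intro F G
    rfl
  | succ j ih =>
    intro F G
    show ∑ v ∈ V, sumV V j (fun s => F (v :: s) + G (v :: s)) =
      ∑ v ∈ V, sumV V j (fun s => F (v :: s)) + ∑ v ∈ V, sumV V j (fun s => G (v :: s))
    rw [← Finset.sum_add_distrib]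
    exact Finset.sum_congr rfl fun v _ => ih _ _

variable {H : Type}

/-- The operator valued function of Z3. -/
noncomputable def fz (x : List H) : (Finset ℕ →₀ ℝ) →ₗ[ℝ] (List (H × Finset ℕ) →₀ ℝ) :=
  Finsupp.linearCombination ℝ (fun σ => Finsupp.single (lab σ x) 1)

theorem fz_single (x : List H) (σ : Finset ℕ) (a : ℝ) :
    fz x (Finsupp.single σ a) = a • Finsupp.single (lab σ x) 1 :=
  Finsupp.linearCombination_single ℝ a σ

theorem lin_fz (z : List H →₀ ℝ) (σ : Finset ℕ) :
    (lin ℝ fz z) (Finsupp.single σ 1) = mapm ℝ (fun g : H => (g, σ)) z := by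
  induction z using Finsupp.induction_linear with
  | zero => simp
  | add u v hu hv => rw [map_add, LinearMap.add_apply, hu, hv, map_add]
  | single a b =>
    have h1 : lin ℝ (fz (H := H)) (Finsupp.single a b) = b • fz a :=
      Finsupp.linearCombination_single ℝ b a
    have h2 : mapm ℝ (fun g : H => (g, σ)) (Finsupp.single a b) =
        Finsupp.single (lab σ a) b := Finsupp.mapDomain_single
    rw [h1, h2, LinearMap.smul_apply, fz_single, one_smul, Finsupp.smul_single, smul_eq_mul,
      mul_one]

theorem bd_single (h1 : S_LC1) (x : List H) (σ : Finset ℕ) :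
    bd ℝ (Finsupp.single (lab σ x) (1 : ℝ)) = mapm ℝ (fun g : H => (g, σ)) (faces ℝ x) := by
  have h2 : mapm ℝ (fun g : H => (g, σ)) (Finsupp.single x (1 : ℝ)) =
      Finsupp.single (lab σ x) 1 := Finsupp.mapDomain_single
  rw [← h2, (h1 ℝ H (H × Finset ℕ)).2.2.1]
  congr 1
  show Finsupp.linearCombination ℝ (faces ℝ) (Finsupp.single x (1 : ℝ)) = _
  rw [Finsupp.linearCombination_single, one_smul]

theorem toFinset_swap (s₁ : List ℕ) (a b : ℕ) (s₂ : List ℕ) :
    (s₁ ++ a :: b :: s₂).toFinset = (s₁ ++ b :: a :: s₂).toFinset := by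
  ext x
  simp only [List.mem_toFinset, List.mem_append, List.mem_cons]
  tauto

end Z6

open Z6 in
theorem prfZ6 (h1 : S_LC1) (z3 : S_Z3) : S_Z6 := by
  intro n L V q H _ r hn hF hq hL hr
  have hmain : bd ℝ (sumV V n (fun s => q s •
      Finsupp.single (lab s.toFinset (wk r 1 s)) 1)) = Yc n q r V := by
    have h2 := z3 H (Finset ℕ →₀ ℝ) (List (H × Finset ℕ) →₀ ℝ) r V n 1
      (fun s => q s • Finsupp.single s.toFinset 1) fz hn
      (fun s₁ a b s₂ _ => by
        rw [hq s₁ a b s₂, toFinset_swap s₁ a b s₂, neg_smul])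
      (fun s₁ a b s₂ _ hne => by
        have hq0 : q (s₁ ++ a :: b :: s₂) ≠ 0 := fun h => hne (by simp only [h, zero_smul])
        have hm := hL _ hq0
        refine hr a b ((hF _).1 hm a ?_ b ?_)
        · simp
        · simp)
    have e1 : ∀ s : List ℕ, bd ℝ (q s • Finsupp.single (lab s.toFinset (wk r 1 s)) 1) =
        (lin ℝ fz (faces ℝ (wk r 1 s))) (q s • Finsupp.single s.toFinset 1) := by
      intro s
      rw [map_smul, map_smul, lin_fz, bd_single h1]
    have e2 : ∀ x : List ℕ → List H, ∀ s : List ℕ,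
        fz (x s) (q s • Finsupp.single s.toFinset 1) =
        q s • Finsupp.single (lab s.toFinset (x s)) 1 := by
      intro x s
      rw [map_smul, fz_single, one_smul]
    rw [sumV_map]
    simp only [e1]
    rw [h2]
    unfold Yc
    have e3 : (fun s : List ℕ => q s •
        (Finsupp.single (lab s.toFinset (wk r (r (s.headD 0)) s.tail)) (1 : ℝ) +
          ((-1 : ℝ) ^ n) • Finsupp.single (lab s.toFinset (wk r 1 s.dropLast)) 1)) =
        fun s => (q s • Finsupp.single (lab s.toFinset (wk r (r (s.headD 0)) s.tail)) (1 : ℝ)) +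
          ((-1 : ℝ) ^ n) • (q s • Finsupp.single (lab s.toFinset (wk r 1 s.dropLast)) (1 : ℝ)) := by
      funext s
      rw [smul_add, smul_comm]
    rw [e3, sumV_add]
    congr 1
    · congr 1
      funext s
      rw [one_mul]
      exact e2 (fun s => wk r (r (s.headD 0)) s.tail) s
    · have e4 := sumV_map V (((-1 : ℝ) ^ n) • (LinearMap.id :
        (List (H × Finset ℕ) →₀ ℝ) →ₗ[ℝ] (List (H × Finset ℕ) →₀ ℝ))) n
        (fun s => q s • Finsupp.single (lab s.toFinset (wk r 1 s.dropLast)) (1 : ℝ))
      simp only [LinearMap.smul_apply, LinearMap.id_coe, id_eq] at e4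
      rw [← e4]
      congr 2
      funext s
      exact e2 (fun s => wk r 1 s.dropLast) s
  refine ⟨hmain, ?_⟩
  rw [← hmain]
  exact (h1 ℝ (H × Finset ℕ) (H × Finset ℕ)).2.1 _

end MP8a95ee.Eu

end

section

/-!
# The general inequality
-/

namespace MP8a95ee

namespace Eu

open Classical

theorem prfMA (hpk : S_PK) (hev : S_EV) (hsv : S_SV2) (h3 : S_SV3) (h4 : S_SV4) (hw : S_WK)
    (hb : S_BC) (hd : S_DT) (hi : S_INF) (h0 : S_H0) : S_MA := by
  intro n hn
  obtain ⟨K⟩ := hpk n (lp (fun _ : ℕ => ℝ) 2) hi hn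
  obtain ⟨Kc, hKc, hKf⟩ := hb n _ K hn
  refine ⟨(n.factorial : ℝ) * (|K.C| + 1), by positivity, ?_⟩
  intro L o P N p hf ho hN hp X _ f lam z w hz
  obtain ⟨Dt, a, ha, hDp, hDe⟩ := hd n (lp (fun _ : ℕ => ℝ) 2) hi L P N p hf hN hp
  obtain ⟨h01, h02, -, -⟩ := h0 n _ L Dt hf
  have hcomm : ∀ σ ∈ L, ∀ i ∈ σ, ∀ j ∈ σ, Dt.r i * Dt.r j = Dt.r j * Dt.r i := by
    intro σ hσ i hi j hj
    exact h02 i j ((hf σ).1 hσ i hi j hj)
  obtain ⟨c, hcb, hcc, hcv⟩ := E.exists_cochain L hf (chi n _) Kc Dt.r
    (fun i hi => (h01 i hi).1) hcomm (fun i hi => (h01 i hi).2.1)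
  set S : ℝ := Sval (verts L) o P p with hS
  have hsum : (n.factorial : ℝ) * ∑ s ∈ Fintype.piFinset (fun _ : Fin n => verts L),
      (o s : ℝ) * Kc.F (Fin.partialProd fun i => Dt.r (s i)) = (-1) ^ n * S := by
    have e1 : ∑ s ∈ Fintype.piFinset (fun _ : Fin n => verts L),
        (o s : ℝ) * Kc.F (Fin.partialProd fun i => Dt.r (s i)) =
        sumV (verts L) n (fun s => oL o s * K.Fl (wk Dt.r 1 s)) := by
      rw [h4]
      refine Finset.sum_congr rfl fun s _ => ?_
      rw [hKf, hw]
      congr 1
      unfold oL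
      rw [if_pos (List.length_ofFn)]
      congr 2
      funext i
      simp
    rw [e1, hev n _ L Dt K o hn hf ho, hsv n _ L Dt K.toDegPkg o hn hf ho]
    congr 1
    rw [hDp, hS]
    exact h3 n (verts L) o P (fun v => (Dt.e v).1) p a ha hDe
  have hev1 : E.ev c (momentCycle L n o) = 2 ^ (verts L).card *
      ∑ s ∈ Fintype.piFinset (fun _ : Fin n => verts L),
        (o s : ℝ) * Kc.F (Fin.partialProd fun i => Dt.r (s i)) :=
    E.ev_moment L hf o ho c (fun s => Kc.F (Fin.partialProd fun i => Dt.r (s i))) hcv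
  have hbd : E.ev c (MP8a95ee.bd w) = 0 := by
    have := B3.ev_bd c hcc w
    rw [B3.ev_eq] at this
    exact this
  set T : ℝ := ∑ s ∈ Fintype.piFinset (fun _ : Fin n => verts L),
        (o s : ℝ) * Kc.F (Fin.partialProd fun i => Dt.r (s i)) with hT
  have hz' : E.ev (fun σ => c (f.comp σ)) z = lam * (2 ^ (verts L).card * T) := by
    rw [← F.ev_push, hz, map_add, map_smul, hev1, hbd, add_zero, smul_eq_mul]
  have hle := B3.ev_le (fun σ => c (f.comp σ)) (|K.C| + 1) (fun σ => by
    have := hcb (f.comp σ)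
    rw [hKc] at this
    exact this.trans ((le_abs_self _).trans (by linarith))) z
  rw [B3.ev_eq] at hle
  have hle' : |lam * (2 ^ (verts L).card * T)| ≤ (|K.C| + 1) * l1 z := by
    rw [← hz']; exact hle
  have hfac : (0 : ℝ) < n.factorial := by positivity
  calc (2 : ℝ) ^ (verts L).card * |lam * S|
      = 2 ^ (verts L).card * |lam * ((-1) ^ n * S)| := by
        congr 1
        rw [abs_mul, abs_mul, abs_mul, abs_pow, abs_neg, abs_one, one_pow, one_mul]
    _ = (n.factorial : ℝ) * |lam * (2 ^ (verts L).card * T)| := by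
        rw [← hsum, show lam * ((n.factorial : ℝ) * T) = (n.factorial : ℝ) * (lam * T) by ring,
          show lam * (2 ^ (verts L).card * T) = 2 ^ (verts L).card * (lam * T) by ring,
          abs_mul _ (lam * T), abs_mul (2 ^ (verts L).card) (lam * T), abs_of_pos hfac,
          abs_of_pos (show (0 : ℝ) < 2 ^ (verts L).card by positivity)]
        ring
    _ ≤ (n.factorial : ℝ) * ((|K.C| + 1) * l1 z) := mul_le_mul_of_nonneg_left hle' hfac.le
    _ = (n.factorial : ℝ) * (|K.C| + 1) * l1 z := by ring

end Eu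

end MP8a95ee

end

section

/-!
# Assembly of the general inequality
-/

namespace MP8a95ee

namespace Eu

theorem pfUF : S_UF :=
  prfUF (prfUA1 prfLC2 prfLC3 prfLC4 prfLC6 prfU1) (prfUA2 prfLC2 prfLC4 prfLC6 prfU2)

theorem pfHO : S_HO := prfHO prfLC1 prfHO1 prfHO2

theorem pfAC : S_AC := prfAC prfLC1 pfHO

theorem pfDG3 : S_DG3 := prfDG3 prfLC1 prfDG1 (prfDG2 prfDG1)

theorem pfDG6 : S_DG6 :=
  prfDG6 prfLC1 prfPO pfHO prfDG4 (prfDG5 prfLC1 pfDG3 prfDG4)

theorem pfPK : S_PK :=
  prfPK prfLC1 prfLC5 prfLC6 prfPO (prfPHI prfLC1 prfLC6 pfUF prfPO) pfDG6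

theorem pfH1 : S_H1 := prfH1 prfH0

theorem pfZ6 : S_Z6 := prfZ6 prfLC1 prfZ3

theorem pfH3 : S_H3 := prfH3 (prfZ1 prfLC1)

theorem pfEV : S_EV :=
  prfEV prfLC1 (prfZ2 prfLC1) (prfZ4 prfLC1 (prfZ1 prfLC1) prfZ3)
    (prfZ5 prfLC1 (prfZ1 prfLC1) prfZ3) prfH0 (prfH2 prfLC1 prfPO pfAC pfH1) pfH3 pfH1

theorem pfSV1 : S_SV1 := prfSV1 prfLC1 pfZ6 prfH0 pfH3 pfH1 prfCU

theorem pfMA (sv2 : S_SV2) : S_MA :=
  prfMA pfPK pfEV sv2 prfSV3 prfSV4 prfWK (prfBC prfLC1) (prfDT prfQF prfGR) prfINF prfH0

end Eu

end MP8a95ee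

end
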