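import Pool.Agent.Work.MP_8a95ee_gt.R.Stmts
import Pool.Agent.Work.MP_8a95ee_gt.Tup.Removal
import Pool.Agent.Work.MP_8a95ee_gt.R.P13
import Pool.Agent.Work.MP_8a95ee_gt.R.Bas
import Pool.Agent.Work.MP_8a95ee_gt.R.ItemB5

/-! Bundle of small proof modules (one section per former module). -/

section

/-!
# A6: reduction of the family of pairs
-/

namespace MP8a95ee

namespace RA

namespace A6

/-- the graph of `L` -/
def Gr (L : Finset (Finset ℕ)) : SimpleGraph ℕ where
  Adj a b := Adj L a b
  symm := ⟨fun a b h => ⟨h.1.symm, by rw [Finset.pair_comm]; exact h.2⟩⟩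
  loopless := ⟨fun a h => h.1 rfl⟩

theorem down {L : Finset (Finset ℕ)} (hL : FlagC L) {s t : Finset ℕ} (hs : s ∈ L) (hts : t ⊆ s) :
    t ∈ L := by
  rw [hL t]
  intro x hx y hy
  exact (hL s).1 hs x (hts hx) y (hts hy)

theorem sub_verts {L : Finset (Finset ℕ)} {s : Finset ℕ} (hs : s ∈ L) : s ⊆ verts L := by
  intro a ha
  exact Finset.mem_biUnion.2 ⟨s, hs, ha⟩

theorem cl_iff {L : Finset (Finset ℕ)} (hL : FlagC L) {s : Finset ℕ} :
    Tup.Cl (Gr L) (verts L) s ↔ s ∈ L ∧ s.Nonempty := by
  constructor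
  · rintro ⟨h1, h2, h3⟩
    refine ⟨(hL s).2 ?_, h1⟩
    intro x hx y hy
    by_cases hxy : x = y
    · subst hxy
      obtain ⟨σ, hσ, hxσ⟩ := Finset.mem_biUnion.1 (h2 hx)
      exact (hL σ).1 hσ x hxσ x hxσ
    · exact (h3 (by exact_mod_cast hx) (by exact_mod_cast hy) hxy : Adj L x y).2
  · rintro ⟨h1, h2⟩
    refine ⟨h2, sub_verts h1, ?_⟩
    intro x hx y hy hxy
    exact ⟨hxy, (hL s).1 h1 x (by exact_mod_cast hx) y (by exact_mod_cast hy)⟩

theorem part_iff {P Q s : Finset ℕ} (hd : Disjoint P Q) :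
    (∀ a ∈ P ∪ Q, (a ∈ s ↔ a ∈ P)) ↔ P ⊆ s ∧ Disjoint Q s := by
  constructor
  · intro h
    refine ⟨fun a ha => (h a (Finset.mem_union_left _ ha)).2 ha, ?_⟩
    rw [Finset.disjoint_left]
    intro a ha has
    exact Finset.disjoint_right.1 hd ha ((h a (Finset.mem_union_right _ ha)).1 has)
  · rintro ⟨h1, h2⟩ a ha
    constructor
    · intro has
      rcases Finset.mem_union.1 ha with h | h
      · exact h
      · exact absurd has (Finset.disjoint_left.1 h2 h)
    · exact fun h => h1 h

theorem ent_iff {L : Finset (Finset ℕ)} (hL : FlagC L) {P Q s : Finset ℕ} (hd : Disjoint P Q) :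
    Tup.Ent (Gr L) (verts L) P Q s ↔ (s ∈ L ∧ s.Nonempty) ∧
      (((P ⊆ s ∧ Disjoint Q s) ∨ (Q ⊆ s ∧ Disjoint P s)) ∧
        ∀ t ∈ s, t ∉ P ∪ Q → ∀ c ∈ P ∪ Q, Adj L t c) := by
  unfold Tup.Ent
  rw [cl_iff hL, part_iff hd]
  have h2 : (∀ a ∈ P ∪ Q, (a ∈ s ↔ a ∈ Q)) ↔ Q ⊆ s ∧ Disjoint P s := by
    rw [Finset.union_comm]
    exact part_iff hd.symm
  rw [h2]
  constructor
  · rintro ⟨a, b, c⟩
    exact ⟨a, c, b⟩
  · rintro ⟨a, c, b⟩
    exact ⟨a, b, c⟩

theorem to_famKK {L : Finset (Finset ℕ)} (hL : FlagC L) {k : ℕ} {T : Fin k → Finset ℕ}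
    (h : KG L (fun _ => True) T) : Set.range T ∈ Tup.famKK (Gr L) (verts L) := by
  obtain ⟨h1, h2⟩ := h
  rcases h2 with ⟨u, hu⟩ | ⟨⟨P, Q⟩, ⟨g1, g2, g3, g4, g5⟩, _, hF⟩
  · left
    refine ⟨?_, u, ?_⟩
    · rintro _ ⟨i, rfl⟩
      exact (cl_iff hL).2 (h1 i)
    · rintro _ ⟨i, rfl⟩
      exact hu i
  · right
    refine ⟨P, Q, g3, g4, g5, ?_⟩
    rintro _ ⟨i, rfl⟩
    exact (ent_iff hL g5).2 ⟨h1 i, hF i⟩

theorem of_famA {L : Finset (Finset ℕ)} (hL : FlagC L) {k : ℕ} {T : Fin k → Finset ℕ}
    (h : Set.range T ∈ Tup.famA (Gr L) (verts L)) :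
    KG L (fun p => TrivP L p ∨ PairP L p) T := by
  rcases h with ⟨h1, u, hu⟩ | ⟨P, Q, hP, hQ, hd, hU, hc, hF⟩ | ⟨a, b, hab, ha, hb, hadj, hF⟩
  · refine ⟨fun i => (cl_iff hL).1 (h1 _ ⟨i, rfl⟩), Or.inl ⟨u, fun i => hu _ ⟨i, rfl⟩⟩⟩
  · have hPQ : P ∪ Q ∈ L := ((cl_iff hL).1 ⟨hP.mono Finset.subset_union_left, hU, hc⟩).1
    refine ⟨fun i => ((ent_iff hL hd).1 (hF _ ⟨i, rfl⟩)).1, Or.inr ⟨(P, Q), ⟨?_, ?_, hP, hQ, hd⟩,
      Or.inl hPQ, fun i => ((ent_iff hL hd).1 (hF _ ⟨i, rfl⟩)).2⟩⟩
    · exact down hL hPQ Finset.subset_union_left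
    · exact down hL hPQ Finset.subset_union_right
  · have hd : Disjoint ({a} : Finset ℕ) {b} := Finset.disjoint_singleton.2 hab
    have hsing : ∀ x ∈ verts L, ({x} : Finset ℕ) ∈ L := by
      intro x hx
      obtain ⟨σ, hσ, hxσ⟩ := Finset.mem_biUnion.1 hx
      exact down hL hσ (Finset.singleton_subset_iff.2 hxσ)
    exact ⟨fun i => ((ent_iff hL hd).1 (hF _ ⟨i, rfl⟩)).1, Or.inr ⟨({a}, {b}), ⟨hsing a ha,
      hsing b hb, Finset.singleton_nonempty _, Finset.singleton_nonempty _, hd⟩,
      Or.inr ⟨a, b, hab, hadj, rfl⟩, fun i => ((ent_iff hL hd).1 (hF _ ⟨i, rfl⟩)).2⟩⟩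

theorem bdT_eq {S : Type} {k : ℕ} (c : Ch S (k + 1)) : bdT c = Tup.bdry c := by
  unfold bdT Tup.bdry
  congr 2
  funext T
  unfold bdT0
  apply Finset.sum_congr rfl
  intro i _
  rw [Finsupp.smul_single, smul_eq_mul, mul_one]

theorem zt_sub {m : ℕ} (s : Fin (m + 1) → ℕ) {B : Finset ℕ}
    (hB : B ⊆ Finset.univ.image fun i : Fin m => s i.castSucc) (j : Fin (m + 1)) :
    zt s B j ⊆ Finset.univ.image s := by
  have h1 : (Finset.univ.image fun i : Fin m => s i.castSucc) ⊆ Finset.univ.image s := by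
    intro a ha
    obtain ⟨i, _, rfl⟩ := Finset.mem_image.1 ha
    exact Finset.mem_image_of_mem _ (Finset.mem_univ _)
  intro a ha
  rw [zt, Finset.mem_insert, Finset.mem_symmDiff] at ha
  rcases ha with rfl | ⟨ha, _⟩ | ⟨ha, _⟩
  · exact Finset.mem_image_of_mem _ (Finset.mem_univ _)
  · exact h1 (hB ha)
  · obtain ⟨i, _, rfl⟩ := Finset.mem_image.1 ha
    exact Finset.mem_image_of_mem _ (Finset.mem_univ _)

theorem zeta_mem {L : Finset (Finset ℕ)} (hL : FlagC L) {m : ℕ} {o : (Fin (m + 1) → ℕ) → ℤ}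
    (ho : IsOrient L (m + 1) o) : zeta L o ∈ Tup.Sup (Tup.famK (Gr L) (verts L)) (m + 1) := by
  unfold zeta
  apply Submodule.sum_mem
  intro s _
  apply Submodule.sum_mem
  intro B hB
  by_cases h0 : o s = 0
  · rw [h0]
    simp
  have hs : Finset.univ.image s ∈ L := ho.2.1 s h0
  apply Tup.single_mem
  refine ⟨?_, s (Fin.last m), ?_⟩
  · rintro _ ⟨j, rfl⟩
    refine (cl_iff hL).2 ⟨down hL hs (zt_sub s (Finset.mem_powerset.1 hB) j), ?_⟩
    exact ⟨s (Fin.last m), Finset.mem_insert_self _ _⟩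
  · rintro _ ⟨j, rfl⟩
    exact Finset.mem_insert_self _ _

end A6

/-- A6 -/
theorem prfA6 : S_A6 := by
  intro L hL m o ho
  rintro ⟨b, hb, hbz⟩
  have h1 : Tup.Bounds (Tup.famKK (A6.Gr L) (verts L)) (zeta L o) := by
    refine ⟨b, ?_, ?_⟩
    · rw [Tup.Sup, Finsupp.mem_supported]
      intro T hT
      exact A6.to_famKK hL (hb T hT)
    · rw [← A6.bdT_eq]
      exact hbz
  obtain ⟨c, hc, hcz⟩ := Tup.removal_all (A6.zeta_mem hL ho) h1
  refine ⟨c, ?_, ?_⟩
  · intro T hT
    rw [Tup.Sup, Finsupp.mem_supported] at hc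
    exact A6.of_famA hL (hc hT)
  · rw [A6.bdT_eq]
    exact hcz

end RA

end MP8a95ee

end

section

/-!
# B8a: homology spheres are pure
-/

namespace MP8a95ee

namespace RA

/-- a maximal face has `n` vertices -/
theorem B8a_max (L : Finset (Finset ℕ)) (hL : FlagC L) (n : ℕ) (hS : IsHSphere L n)
    (t : Finset ℕ) (ht : t ∈ L) (hmax : ∀ u ∈ L, t ⊆ u → u = t) : t.card = n := by
  by_contra hne
  have hempty : (∅ : Finset ℕ) ∈ L :=
    (hL ∅).2 fun x hx => absurd hx (Finset.notMem_empty x)
  obtain ⟨c', hc', hb⟩ := (hS t ht).1 0 (by simpa using hne)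
    (fun u => if u = ∅ then 1 else 0) (by
      intro u hu
      have : u = ∅ := by
        by_contra h
        exact hu (if_neg h)
      subst this
      exact ⟨hempty, Finset.disjoint_empty_right _, by simpa using ht, rfl⟩) (by
      funext u
      unfold bdS
      apply Finset.sum_eq_zero
      intro a _
      simp only [Finset.insert_ne_empty, if_false, mul_zero])
  have h0 : ∀ u, c' u = 0 := by
    intro u
    by_contra hu
    obtain ⟨_, hd, hu2, hcard⟩ := hc' u hu
    have h1 := hmax _ hu2 Finset.subset_union_left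
    have h2 : u ⊆ t := by
      rw [← h1]; exact Finset.subset_union_right
    have h3 : u = ∅ := by
      rw [← Finset.disjoint_self_iff_empty]
      exact hd.mono_left h2
    rw [h3] at hcard
    simp at hcard
  have h1 := congrFun hb ∅
  simp only [bdS, h0, mul_zero, Finset.sum_const_zero, if_true] at h1
  exact zero_ne_one h1

/-- B8a: homology spheres are pure -/
theorem itemB8a : S_B8a := by
  intro L hL n hS s hs
  obtain ⟨t, hst, htmax⟩ := (L.filter fun u => s ⊆ u).exists_le_maximal
    (Finset.mem_filter.2 ⟨hs, Finset.Subset.refl s⟩)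
  have ht := Finset.mem_filter.1 htmax.prop
  have hcard := B8a_max L hL n hS t ht.1 (by
    intro u hu htu
    exact le_antisymm (htmax.le_of_ge (Finset.mem_filter.2 ⟨hu, ht.2.trans htu⟩) htu) htu)
  exact ⟨hcard ▸ Finset.card_le_card ht.2, t, ht.1, ht.2, hcard⟩

end RA

end MP8a95ee

end

section

/-!
# Assembly
-/

set_option autoImplicit false

namespace MP8a95ee

namespace RA

namespace Fin1

/-- vanishing of the norm forces `ζ` to bound -/
theorem bounds_of_vanishing (L : Finset (Finset ℕ)) (hf : FlagC L) (m : ℕ)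
    (o : (Fin (m + 1) → ℕ) → ℤ) (ho : IsOrient L (m + 1) o)
    (hvol : ∀ z : SChain (RZ L) (m + 1), bd z = 0 → ∀ ε : ℝ, 0 < ε →
      ∃ b : SChain (RZ L) (m + 2), l1 (z + bd b) < ε) : Bounds L o (KG L fun _ => True) := by
  refine P13.duality L m o fun f hfK => ?_
  obtain ⟨K, hK⟩ := P13.main L hf m o ho f hfK
  have hsq : ∀ i ∈ verts L, P13.rG L i * P13.rG L i = 1 := by
    intro i hi
    rw [P13.rG_of_mem hi]
    exact RACG.gen_mul_self _ _
  have hcomm : ∀ σ ∈ L, ∀ i ∈ σ, ∀ j ∈ σ, P13.rG L i * P13.rG L j = P13.rG L j * P13.rG L i := by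
    intro σ hσ i hi j hj
    by_cases hij : i = j
    · rw [hij]
    · rw [P13.rG_of_mem (P13.verts_of_mem hσ hi), P13.rG_of_mem (P13.verts_of_mem hσ hj)]
      exact RACG.gen_comm (P13.gr L) ⟨hij, (hf σ).1 hσ i hi j hj⟩
  have hχ : ∀ i ∈ verts L, PartOne.sgn (P13.gr L) (P13.rG L i) = -1 := by
    intro i hi
    rw [P13.rG_of_mem hi]
    exact PartOne.sgn_gen _ _
  have h := topological L hf o ho (PartOne.sgn (P13.gr L)) K (P13.rG L) hsq hcomm hχ hvol
  rw [hK] at h
  have h2 : (2 : ℝ) * (-1) ^ m ≠ 0 := mul_ne_zero two_ne_zero (pow_ne_zero _ (by norm_num))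
  exact (mul_eq_zero.1 h).resolve_left h2

/-- if `ζ` bounds then the Euler characteristic vanishes -/
theorem euler_of_bounds (hA : S_A6) (h9 : S_B9) (h10 : S_B10) (h11 : S_B11)
    (L : Finset (Finset ℕ)) (hf : FlagC L) (m : ℕ) (hS : IsHSphere L (m + 1))
    (o : (Fin (m + 1) → ℕ) → ℤ) (ho : IsOrient L (m + 1) o)
    (hb : Bounds L o (KG L fun _ => True)) : eulerChar L = 0 := by
  obtain ⟨e, he, hrank⟩ := h10 L hf
  have hb2 := hA L hf m o ho hb
  have h := h11 L hf (Finset (verts L) → ℝ) e he fun φ h1 h2 =>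
    h9 L hf m hS o ho hb2 (Finset (verts L) → ℝ) e he φ h1 h2
  unfold eulerChar
  rw [← h]
  refine Finset.sum_congr rfl fun s hs => ?_
  rw [hrank s hs]
  push_cast
  rfl

theorem final (hA : S_A6) (h9 : S_B9) (h10 : S_B10) (h11 : S_B11) (h12 : S_B12) : S_Final := by
  intro m L hf hS
  have hf' : FlagC L := hf
  obtain ⟨o, ho⟩ := h12 L hf' m hS
  refine ⟨fun hvol => ?_, fun hne => ?_⟩
  · exact euler_of_bounds hA h9 h10 h11 L hf' m hS o ho (bounds_of_vanishing L hf' m o ho hvol)
  · refine ⟨o, ho, ?_⟩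
    exact P13.prf L hf' m o ho fun hb => hne (euler_of_bounds hA h9 h10 h11 L hf' m hS o ho hb)

end Fin1

end RA

end MP8a95ee

end

section

/-!
# Sign identities for the subdivided complex and the cap product
-/

namespace MP8a95ee

namespace RA

theorem h61_prod (a : ℕ) (w : Finset ℕ) : sg a w = ∏ b ∈ w, if b < a then (-1 : ℝ) else 1 := by
  unfold sg
  rw [Finset.prod_ite, Finset.prod_const, Finset.prod_const_one, mul_one]

theorem h61_union (a : ℕ) {s u : Finset ℕ} (h : Disjoint s u) :
    sg a (s ∪ u) = sg a s * sg a u := by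
  rw [h61_prod, h61_prod, h61_prod, Finset.prod_union h]

theorem h61_ne (a : ℕ) (w : Finset ℕ) : sg a w ≠ 0 := by
  intro h
  have := sg_sq a w
  rw [h] at this
  norm_num at this

/-- the sign of moving `a` after `s` -/
noncomputable def h61_gts (a : ℕ) (s : Finset ℕ) : ℝ := ∏ b ∈ s, if a < b then (-1 : ℝ) else 1

theorem h61_left {a : ℕ} {s : Finset ℕ} (u : Finset ℕ) (h : a ∉ s) :
    sgg (insert a s) u = sg a u * sgg s u := by
  unfold sgg
  rw [Finset.prod_insert h]

theorem h61_right {a : ℕ} (s : Finset ℕ) {u : Finset ℕ} (h : a ∉ u) :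
    sgg s (insert a u) = h61_gts a s * sgg s u := by
  unfold sgg h61_gts
  rw [← Finset.prod_mul_distrib]
  exact Finset.prod_congr rfl fun b _ => by rw [sg_insert h, mul_comm]

theorem h61_epsgts {a : ℕ} {s : Finset ℕ} (h : a ∉ s) : sg a s * h61_gts a s = (-1) ^ s.card := by
  rw [h61_prod]
  unfold h61_gts
  rw [← Finset.prod_mul_distrib, ← Finset.prod_const]
  refine Finset.prod_congr rfl fun b hb => ?_
  have hne : b ≠ a := fun e => h (e ▸ hb)
  rcases lt_or_gt_of_ne hne with h1 | h1
  · simp [h1, not_lt.2 h1.le]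
  · simp [h1, not_lt.2 h1.le]

theorem h61_gtseq {a : ℕ} {s : Finset ℕ} (h : a ∉ s) :
    h61_gts a s = (-1) ^ s.card * sg a s := by
  rw [← h61_epsgts h, mul_comm (sg a s), mul_assoc, sg_sq, mul_one]

theorem h61_sgg_sq (s u : Finset ℕ) : sgg s u * sgg s u = 1 := by
  unfold sgg
  rw [← Finset.prod_mul_distrib]
  exact Finset.prod_eq_one fun b _ => sg_sq b u

theorem h61_sgg_ne (s u : Finset ℕ) : sgg s u ≠ 0 := by
  intro h
  have := h61_sgg_sq s u
  rw [h] at this
  norm_num at this

/-- first sign identity -/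
theorem h61_sign1 {a : ℕ} {s u : Finset ℕ} (ha : a ∈ s) (hd : Disjoint s u) :
    sg a u * sgg (s.erase a) (insert a u) =
      (-1) ^ (s.card - 1) * sg a (s.erase a) * sgg s u := by
  have hau : a ∉ u := fun h => (Finset.disjoint_left.1 hd ha) h
  have h1 : sgg s u = sg a u * sgg (s.erase a) u := by
    conv_lhs => rw [← Finset.insert_erase ha]
    exact h61_left u (Finset.notMem_erase a s)
  rw [h61_right _ hau, h61_gtseq (Finset.notMem_erase a s), Finset.card_erase_of_mem ha, h1]
  ring

/-- second sign identity -/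
theorem h61_sign2 {a : ℕ} {s u : Finset ℕ} (has : a ∉ s) (hau : a ∉ u) (hd : Disjoint s u) :
    sg a u * sgg s (insert a u) = (-1) ^ s.card * (sg a (s ∪ u) * sgg s u) := by
  rw [h61_right _ hau, h61_gtseq has, h61_union a hd]
  ring

theorem h61_sign3 {a b : ℕ} {u : Finset ℕ} (ha : a ∉ u) (hb : b ∉ u) (hab : a ≠ b) :
    sg a u * sg b (insert a u) = -(sg b u * sg a (insert b u)) := by
  have h := sg_anti (a := b) (c := a) (u := u) hb ha hab.symm
  rw [mul_comm (sg a u), h]
  ring

/-- an antisymmetric double sum vanishes -/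
theorem h61_anti {N : Type} [AddCommGroup N] [Module ℝ N] (S : Finset ℕ) (F : ℕ → ℕ → N)
    (h : ∀ a ∈ S, ∀ b ∈ S, a ≠ b → F a b = -F b a) :
    ∑ a ∈ S, ∑ b ∈ S.erase a, F a b = 0 := by
  have h1 : ∑ a ∈ S, ∑ b ∈ S.erase a, F a b = ∑ b ∈ S, ∑ a ∈ S.erase b, F a b := by
    refine Finset.sum_comm' fun a b => ?_
    simp only [Finset.mem_erase]
    constructor
    · rintro ⟨h1, h2, h3⟩
      exact ⟨⟨Ne.symm h2, h1⟩, h3⟩
    · rintro ⟨⟨h1, h2⟩, h3⟩
      exact ⟨h2, Ne.symm h1, h3⟩
  have h2 : ∑ b ∈ S, ∑ a ∈ S.erase b, F a b = -∑ b ∈ S, ∑ a ∈ S.erase b, F b a := by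
    rw [← Finset.sum_neg_distrib]
    refine Finset.sum_congr rfl fun b hb => ?_
    rw [← Finset.sum_neg_distrib]
    refine Finset.sum_congr rfl fun a ha => ?_
    exact h a (Finset.mem_of_mem_erase ha) b hb (Finset.ne_of_mem_erase ha)
  have h3 : ∑ a ∈ S, ∑ b ∈ S.erase a, F a b = -∑ a ∈ S, ∑ b ∈ S.erase a, F a b := by
    conv_lhs => rw [h1, h2]
  have h4 : (2 : ℝ) • ∑ a ∈ S, ∑ b ∈ S.erase a, F a b = 0 := by
    rw [two_smul]
    nth_rewrite 1 [h3]
    exact neg_add_cancel _
  rcases smul_eq_zero.1 h4 with h | h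
  · norm_num at h
  · exact h

theorem h61_eui {a : ℕ} {s u : Finset ℕ} (ha : a ∈ s) :
    s.erase a ∪ insert a u = s ∪ u := by
  rw [Finset.union_insert, ← Finset.insert_union, Finset.insert_erase ha]

theorem h61_dei {a : ℕ} {s u : Finset ℕ} (hd : Disjoint s u) :
    Disjoint (s.erase a) (insert a u) := by
  rw [Finset.disjoint_insert_right]
  exact ⟨Finset.notMem_erase a s, hd.mono_left (Finset.erase_subset a s)⟩

theorem h61_di {a : ℕ} {s u : Finset ℕ} (hd : Disjoint s u) (ha : a ∉ s) :
    Disjoint s (insert a u) := by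
  rw [Finset.disjoint_insert_right]
  exact ⟨ha, hd⟩

theorem h61_out {L : Finset (Finset ℕ)} {a : ℕ} {s u : Finset ℕ}
    (h : a ∈ verts L \ (s ∪ u)) : a ∉ s ∧ a ∉ u := by
  rw [Finset.mem_sdiff, Finset.mem_union, not_or] at h
  exact h.2

variable {L : Finset (Finset ℕ)} {N : Type} [AddCommGroup N] [Module ℝ N]

theorem h61_dDpos (e : ℕ → N →ₗ[ℝ] N) (x : Finset ℕ → Finset ℕ → N) {s u : Finset ℕ}
    (hd : Disjoint s u) : dD L e x s u =
    (∑ a ∈ s, sg a u • e a (x (s.erase a) (insert a u))) -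
      ∑ a ∈ verts L \ (s ∪ u), sg a u • x s (insert a u) := by
  unfold dD
  rw [if_pos hd]

theorem h61_dDneg (e : ℕ → N →ₗ[ℝ] N) (x : Finset ℕ → Finset ℕ → N) {s u : Finset ℕ}
    (hd : ¬ Disjoint s u) : dD L e x s u = 0 := by
  unfold dD
  rw [if_neg hd]

end RA

end MP8a95ee

end

section

/-!
# S_B7: the value of psi on zeta
-/

namespace MP8a95ee

namespace RA

/-- `psi(zeta(c))` -/
noncomputable def XX (ψ : ∀ k, (Fin k → Finset ℕ) → Finset ℕ → ℝ) (V : Finset ℕ) {m : ℕ}
    (c : (Fin (m + 1) → ℕ) → ℝ) : Finset ℕ → ℝ :=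
  ∑ s ∈ Fintype.piFinset (fun _ : Fin (m + 1) => V),
    ∑ B ∈ (Finset.univ.image fun i : Fin m => s i.castSucc).powerset,
      (c s * (-1) ^ B.card) • ψ (m + 1) (zt s B)

theorem lin_zetaR (ψ : ∀ k, (Fin k → Finset ℕ) → Finset ℕ → ℝ) (V : Finset ℕ) {m : ℕ}
    (c : (Fin (m + 1) → ℕ) → ℝ) :
    Finsupp.linearCombination ℝ (fun T => ψ (m + 1) T) (zetaR V c) = XX ψ V c := by
  unfold zetaR XX
  rw [map_sum]
  refine Finset.sum_congr rfl fun s _ => ?_
  rw [map_sum]
  refine Finset.sum_congr rfl fun B _ => ?_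
  rw [Finsupp.linearCombination_single]

/-- the values of an alternating function on increasing tuples -/
noncomputable def oR {n : ℕ} (c : (Fin n → ℕ) → ℝ) (t : Finset ℕ) : ℝ :=
  if h : t.card = n then c (t.orderEmbOfFin h) else 0

/-- supported on faces -/
def OnL (L : Finset (Finset ℕ)) {n : ℕ} (c : (Fin n → ℕ) → ℝ) : Prop :=
  ∀ s, c s ≠ 0 → Finset.univ.image s ∈ L

theorem zt_sub {m : ℕ} (s : Fin (m + 1) → ℕ) {B : Finset ℕ}
    (hB : B ∈ (Finset.univ.image fun i : Fin m => s i.castSucc).powerset) (j : Fin (m + 1)) :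
    zt s B j ⊆ Finset.univ.image s := by
  rw [Finset.mem_powerset] at hB
  unfold zt
  intro a ha
  rw [Finset.mem_insert] at ha
  rcases ha with rfl | ha
  · exact Finset.mem_image_of_mem _ (Finset.mem_univ _)
  · rw [Finset.mem_symmDiff] at ha
    rcases ha with ⟨ha, -⟩ | ⟨ha, -⟩
    · have := hB ha
      rw [Finset.mem_image] at this ⊢
      obtain ⟨i, -, rfl⟩ := this
      exact ⟨i.castSucc, Finset.mem_univ _, rfl⟩
    · rw [Finset.mem_image] at ha ⊢
      obtain ⟨i, -, rfl⟩ := ha
      exact ⟨i.castSucc, Finset.mem_univ _, rfl⟩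

theorem zt_KG {L : Finset (Finset ℕ)} (hf : FlagC L) (G : Finset ℕ × Finset ℕ → Prop) {m : ℕ}
    (s : Fin (m + 1) → ℕ) (hs : Finset.univ.image s ∈ L) {B : Finset ℕ}
    (hB : B ∈ (Finset.univ.image fun i : Fin m => s i.castSucc).powerset) :
    KG L G (zt s B) :=
  ⟨fun j => ⟨hf.mono hs (zt_sub s hB j), ⟨s (Fin.last m), Finset.mem_insert_self _ _⟩⟩,
    Or.inl ⟨s (Fin.last m), fun _ => Finset.mem_insert_self _ _⟩⟩

/-- the terms of `psi(zeta)` live on the image of the ordered simplex -/
theorem term_supp {L : Finset (Finset ℕ)} (hf : FlagC L)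
    {ψ : ∀ k, (Fin k → Finset ℕ) → Finset ℕ → ℝ} (hψ : IsPsi L ψ) {m : ℕ}
    {c : (Fin (m + 1) → ℕ) → ℝ} (hcL : OnL L c)
    {s : Fin (m + 1) → ℕ} (hs : c s ≠ 0) {B : Finset ℕ}
    (hB : B ∈ (Finset.univ.image fun i : Fin m => s i.castSucc).powerset) {t : Finset ℕ}
    (ht : ψ (m + 1) (zt s B) t ≠ 0) : Finset.univ.image s = t := by
  obtain ⟨h1, h2, h3⟩ := hψ.2.1 _ _ (zt_KG hf (TrivP L) s (hcL s hs) hB) t ht
  symm
  refine Finset.eq_of_subset_of_card_le ?_ ?_
  · intro a ha
    obtain ⟨j, hj⟩ := mem_Wt.1 (h2 ha)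
    exact zt_sub s hB j hj
  · rw [h3]
    exact Finset.card_image_le.trans (by simp)

/-- the restriction of an alternating function to the orderings of `t` -/
noncomputable def res {n : ℕ} (t : Finset ℕ) (c : (Fin n → ℕ) → ℝ) (s : Fin n → ℕ) : ℝ :=
  if Finset.univ.image s = t then c s else 0

theorem image_swap {n : ℕ} (s : Fin n → ℕ) (σ : Equiv.Perm (Fin n)) :
    Finset.univ.image (s ∘ σ) = Finset.univ.image s := by
  ext a
  simp only [Finset.mem_image, Finset.mem_univ, true_and, Function.comp_apply]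
  constructor
  · rintro ⟨i, rfl⟩
    exact ⟨σ i, rfl⟩
  · rintro ⟨i, rfl⟩
    exact ⟨σ.symm i, by simp⟩

theorem res_alt {V : Finset ℕ} {n : ℕ} {c : (Fin n → ℕ) → ℝ} (hc : IsAlt V c) (t : Finset ℕ) :
    IsAlt V (res t c) := by
  constructor
  · intro s i j hij
    unfold res
    rw [image_swap]
    split_ifs
    · exact hc.1 s i j hij
    · simp
  · intro s hs
    unfold res at hs
    split_ifs at hs
    · exact hc.2 s hs
    · exact absurd rfl hs

theorem res_onL {L : Finset (Finset ℕ)} {n : ℕ} {c : (Fin n → ℕ) → ℝ} (hc : OnL L c)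
    (t : Finset ℕ) : OnL L (res t c) := by
  intro s hs
  unfold res at hs
  split_ifs at hs
  · exact hc s hs
  · exact absurd rfl hs

theorem XX_res {L : Finset (Finset ℕ)} (hf : FlagC L)
    {ψ : ∀ k, (Fin k → Finset ℕ) → Finset ℕ → ℝ} (hψ : IsPsi L ψ) {m : ℕ}
    {c : (Fin (m + 1) → ℕ) → ℝ} (hcL : OnL L c) (t : Finset ℕ) :
    XX ψ (verts L) c t = XX ψ (verts L) (res t c) t := by
  unfold XX
  simp only [Finset.sum_apply, Pi.smul_apply, smul_eq_mul]
  refine Finset.sum_congr rfl fun s _ => Finset.sum_congr rfl fun B hB => ?_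
  unfold res
  split_ifs with h
  · rfl
  · by_cases hs : c s = 0
    · rw [hs]
    · have : ψ (m + 1) (zt s B) t = 0 := by
        by_contra h'
        exact h (term_supp hf hψ hcL hs hB h')
      rw [this]; ring

theorem XX_supp {L : Finset (Finset ℕ)} (hf : FlagC L)
    {ψ : ∀ k, (Fin k → Finset ℕ) → Finset ℕ → ℝ} (hψ : IsPsi L ψ) {m : ℕ}
    {c : (Fin (m + 1) → ℕ) → ℝ} (hcL : OnL L c) {t : Finset ℕ}
    (h : XX ψ (verts L) c t ≠ 0) : ∃ s, c s ≠ 0 ∧ Finset.univ.image s = t := by
  unfold XX at h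
  rw [Finset.sum_apply] at h
  obtain ⟨s, -, hs⟩ := Finset.exists_ne_zero_of_sum_ne_zero h
  rw [Finset.sum_apply] at hs
  obtain ⟨B, hB, hs'⟩ := Finset.exists_ne_zero_of_sum_ne_zero hs
  rw [Pi.smul_apply, smul_eq_mul] at hs'
  have h1 := left_ne_zero_of_mul (left_ne_zero_of_mul hs')
  exact ⟨s, h1, term_supp hf hψ hcL h1 hB (right_ne_zero_of_mul hs')⟩

/-- the boundary of `psi(zeta(c))` -/
theorem bdS_XX (h7a : S_B7a) {L : Finset (Finset ℕ)} (hf : FlagC L)
    {ψ : ∀ k, (Fin k → Finset ℕ) → Finset ℕ → ℝ} (hψ : IsPsi L ψ) {m : ℕ}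
    {c : (Fin (m + 2) → ℕ) → ℝ} (hc : IsAlt (verts L) c) (hcL : OnL L c) :
    bdS L (XX ψ (verts L) c) = (-2 : ℝ) • XX ψ (verts L)
      (fun g : Fin (m + 1) → ℕ => ∑ a ∈ verts L, c (Fin.cons a g)) := by
  have h1 := congrArg (Finsupp.linearCombination ℝ (fun T => ψ (m + 1) T))
    (h7a (verts L) m c hc)
  rw [map_smul, lin_zetaR] at h1
  rw [← h1]
  unfold zetaR
  rw [map_sum, map_sum]
  have h2 : XX ψ (verts L) c = ∑ s ∈ Fintype.piFinset (fun _ : Fin (m + 2) => verts L),
      (1 : ℝ) • ∑ B ∈ (Finset.univ.image fun i : Fin (m + 1) => s i.castSucc).powerset,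
      (c s * (-1) ^ B.card) • ψ (m + 2) (zt s B) := by
    unfold XX
    simp only [one_smul]
  rw [h2, bdS_sum]
  refine Finset.sum_congr rfl fun s _ => ?_
  rw [one_smul, map_sum, map_sum, bdS_sum]
  refine Finset.sum_congr rfl fun B hB => ?_
  unfold bdT
  rw [Finsupp.linearCombination_single, map_smul]
  by_cases hs : c s = 0
  · rw [hs, zero_mul, zero_smul, zero_smul]
  · rw [hψ.2.2 _ _ (zt_KG hf (TrivP L) s (hcL s hs) hB)]
    congr 1
    unfold bdT0
    rw [map_sum]
    refine Finset.sum_congr rfl fun i _ => ?_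
    rw [Finsupp.linearCombination_single]

theorem cons_swap {n : ℕ} (b : ℕ) (g : Fin n → ℕ) (i j : Fin n) :
    (Fin.cons b (g ∘ Equiv.swap i j) : Fin (n + 1) → ℕ) =
      (Fin.cons b g : Fin (n + 1) → ℕ) ∘ Equiv.swap i.succ j.succ := by
  funext k
  refine Fin.cases ?_ (fun k => ?_) k
  · rw [Function.comp_apply, Equiv.swap_apply_of_ne_of_ne (Fin.succ_ne_zero i).symm
      (Fin.succ_ne_zero j).symm]
    rfl
  · have h : Equiv.swap i.succ j.succ k.succ = (Equiv.swap i j k).succ := by
      simp only [Equiv.swap_apply_def, Fin.succ_inj]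
      split_ifs <;> rfl
    rw [Function.comp_apply, h]
    rfl

theorem image_cons {n : ℕ} (b : ℕ) (g : Fin n → ℕ) :
    Finset.univ.image (Fin.cons b g : Fin (n + 1) → ℕ) = insert b (Finset.univ.image g) := by
  ext a
  simp only [Finset.mem_image, Finset.mem_univ, true_and, Finset.mem_insert]
  constructor
  · rintro ⟨i, rfl⟩
    refine Fin.cases ?_ (fun i => ?_) i
    · exact Or.inl rfl
    · exact Or.inr ⟨i, rfl⟩
  · rintro (rfl | ⟨i, rfl⟩)
    · exact ⟨0, rfl⟩
    · exact ⟨i.succ, rfl⟩

theorem image_orderEmb {t : Finset ℕ} {n : ℕ} (h : t.card = n) :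
    Finset.univ.image (t.orderEmbOfFin h) = t := by
  rw [← Finset.coe_inj, Finset.coe_image, Finset.coe_univ, Set.image_univ,
    Finset.range_orderEmbOfFin]

/-- contraction of an alternating function -/
noncomputable def ctr (V : Finset ℕ) {n : ℕ} (c : (Fin (n + 1) → ℕ) → ℝ) (g : Fin n → ℕ) : ℝ :=
  ∑ a ∈ V, c (Fin.cons a g)

theorem ctr_alt {V : Finset ℕ} {n : ℕ} {c : (Fin (n + 1) → ℕ) → ℝ} (hc : IsAlt V c) :
    IsAlt V (ctr V c) := by
  constructor
  · intro s i j hij
    unfold ctr
    rw [← Finset.sum_neg_distrib]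
    refine Finset.sum_congr rfl fun a _ => ?_
    rw [cons_swap]
    exact hc.1 _ _ _ fun h => hij (Fin.succ_injective _ h)
  · intro s hs
    unfold ctr at hs
    obtain ⟨a, -, ha⟩ := Finset.exists_ne_zero_of_sum_ne_zero hs
    obtain ⟨h1, h2⟩ := hc.2 _ ha
    refine ⟨fun i j hij => ?_, fun i => ?_⟩
    · exact Fin.succ_injective _ (h1 (by simpa using hij))
    · simpa using h2 i.succ

theorem ctr_onL {L : Finset (Finset ℕ)} (hf : FlagC L) {V : Finset ℕ} {n : ℕ}
    {c : (Fin (n + 1) → ℕ) → ℝ} (hc : OnL L c) : OnL L (ctr V c) := by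
  intro s hs
  unfold ctr at hs
  obtain ⟨a, -, ha⟩ := Finset.exists_ne_zero_of_sum_ne_zero hs
  refine hf.mono (hc _ ha) ?_
  rw [image_cons]
  exact Finset.subset_insert _ _

theorem card_of_alt {V : Finset ℕ} {n : ℕ} {c : (Fin n → ℕ) → ℝ} (hc : IsAlt V c)
    {s : Fin n → ℕ} (hs : c s ≠ 0) : (Finset.univ.image s).card = n := by
  rw [Finset.card_image_of_injective _ (hc.2 s hs).1]
  simp

theorem psi_one {L : Finset (Finset ℕ)} (hf : FlagC L)
    {ψ : ∀ k, (Fin k → Finset ℕ) → Finset ℕ → ℝ} (hψ : IsPsi L ψ) {a : ℕ} (ha : a ∈ verts L) :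
    ψ 1 (fun _ => {a}) {a} = 1 := by
  have haL : ({a} : Finset ℕ) ∈ L := (verts_mem_iff hf a).1 ha
  have hK : KG L (TrivP L) (fun _ : Fin 1 => ({a} : Finset ℕ)) :=
    ⟨fun _ => ⟨haL, Finset.singleton_nonempty a⟩, Or.inl ⟨a, fun _ => Finset.mem_singleton_self a⟩⟩
  have h1 := congrFun (hψ.2.2 0 _ hK) ∅
  rw [Finset.sum_apply, Fin.sum_univ_one, hψ.1] at h1
  unfold bdS at h1
  rw [Finset.sum_eq_single a] at h1
  · simpa [sg] using h1
  · intro b _ hb
    have h2 : ψ (0 + 1) (fun _ => {a}) (insert b ∅) = 0 := by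
      by_contra h
      obtain ⟨-, h3, -⟩ := hψ.2.1 _ _ hK _ h
      obtain ⟨j, hj⟩ := mem_Wt.1 (h3 (Finset.mem_insert_self b ∅))
      exact hb (Finset.mem_singleton.1 hj)
    rw [h2, mul_zero]
  · intro h
    exact absurd (by simpa using ha) h

theorem XX_eq (h7a : S_B7a) {L : Finset (Finset ℕ)} (hf : FlagC L)
    {ψ : ∀ k, (Fin k → Finset ℕ) → Finset ℕ → ℝ} (hψ : IsPsi L ψ) : ∀ (m : ℕ)
    (c : (Fin (m + 1) → ℕ) → ℝ), IsAlt (verts L) c → OnL L c →
    XX ψ (verts L) c = (-2 : ℝ) ^ m • oR c := by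
  intro m
  induction m with
  | zero =>
    intro c hc hcL
    funext t
    rw [pow_zero, one_smul]
    by_cases hex : ∃ s, c s ≠ 0 ∧ Finset.univ.image s = t
    · obtain ⟨s, hs, hst⟩ := hex
      have fin0 : ∀ i : Fin (0 + 1), i = 0 := fun i => Fin.ext (by omega)
      have hs' : s = fun _ => s 0 := by
        funext i
        rw [fin0 i]
      set a := s 0 with ha
      have ht : t = {a} := by
        rw [← hst, hs']
        ext b
        simp
      have haV : a ∈ verts L := (hc.2 s hs).2 0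
      subst ht
      rw [XX_res hf hψ hcL]
      unfold XX
      rw [Finset.sum_apply, Finset.sum_eq_single s]
      · rw [Finset.sum_apply]
        have h1 : (Finset.univ.image fun i : Fin 0 => s i.castSucc).powerset = {∅} := by
          simp
        rw [h1, Finset.sum_singleton, Pi.smul_apply, smul_eq_mul, Finset.card_empty, pow_zero,
          mul_one]
        have h2 : zt s ∅ = fun _ => {a} := by
          funext j
          unfold zt
          rw [fin0 (Fin.last 0)]
          simp [ha]
        rw [h2, psi_one hf hψ haV, mul_one]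
        unfold res oR
        rw [if_pos hst, dif_pos (Finset.card_singleton a)]
        congr 1
        rw [hs']
        funext i
        rw [fin0 i]
        exact (Finset.orderEmbOfFin_singleton a 0).symm
      · intro s' _ hne
        rw [Finset.sum_apply]
        refine Finset.sum_eq_zero fun B _ => ?_
        have : res {a} c s' = 0 := by
          unfold res
          rw [if_neg]
          intro h
          apply hne
          funext i
          have h3 : s' i ∈ ({a} : Finset ℕ) := by
            rw [← h]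
            exact Finset.mem_image_of_mem _ (Finset.mem_univ _)
          rw [Finset.mem_singleton.1 h3, hs']
        rw [this, zero_mul, zero_smul]
        rfl
      · intro h
        exfalso
        apply h
        rw [Fintype.mem_piFinset]
        exact (hc.2 s hs).2
    · have h1 : XX ψ (verts L) c t = 0 := by
        by_contra h
        exact hex (XX_supp hf hψ hcL h)
      rw [h1]
      unfold oR
      split_ifs with h
      · by_contra h'
        exact hex ⟨_, fun h'' => h' h''.symm, image_orderEmb h⟩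
      · rfl
  | succ m ih =>
    intro c hc hcL
    funext t
    by_cases hex : ∃ s, c s ≠ 0 ∧ Finset.univ.image s = t
    · obtain ⟨s, hs, hst⟩ := hex
      have hcard : t.card = m + 2 := by rw [← hst]; exact card_of_alt hc hs
      have htL : t ∈ L := hst ▸ hcL s hs
      have hne : t.Nonempty := by
        rw [← Finset.card_pos]; omega
      set a := t.min' hne with ha
      have hat : a ∈ t := t.min'_mem hne
      have hav : a ∈ verts L := by
        unfold verts
        rw [Finset.mem_biUnion]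
        exact ⟨t, htL, hat⟩
      rw [XX_res hf hψ hcL]
      have hd := res_alt hc t
      have hdL := res_onL hcL t
      have h1 := congrFun (bdS_XX h7a hf hψ hd hdL) (t.erase a)
      have h2 : bdS L (XX ψ (verts L) (res t c)) (t.erase a) = XX ψ (verts L) (res t c) t := by
        unfold bdS
        rw [Finset.sum_eq_single a]
        · rw [Finset.insert_erase hat]
          have : sg a (t.erase a) = 1 := by
            unfold sg
            rw [Finset.filter_false_of_mem, Finset.card_empty, pow_zero]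
            intro b hb hlt
            exact absurd (t.min'_le b (Finset.mem_of_mem_erase hb)) (not_le.2 hlt)
          rw [this, one_mul]
        · intro b _ hba
          have : XX ψ (verts L) (res t c) (insert b (t.erase a)) = 0 := by
            by_contra h
            obtain ⟨s', hs', him⟩ := XX_supp hf hψ hdL h
            unfold res at hs'
            split_ifs at hs' with h'
            · rw [h'] at him
              rw [him, Finset.mem_insert] at hat
              rcases hat with h'' | h''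
              · exact hba h''.symm
              · exact Finset.notMem_erase _ _ h''
            · exact hs' rfl
          rw [this, mul_zero]
        · intro h
          exact absurd (Finset.mem_sdiff.2 ⟨hav, Finset.notMem_erase _ _⟩) h
      rw [h2] at h1
      rw [h1]
      have h3 := ih _ (ctr_alt hd) (ctr_onL hf (V := verts L) hdL)
      have h4 : XX ψ (verts L) (fun g : Fin (m + 1) → ℕ => ∑ a ∈ verts L,
          res t c (Fin.cons a g)) = XX ψ (verts L) (ctr (verts L) (res t c)) := rfl
      rw [h4, h3, Pi.smul_apply, Pi.smul_apply, Pi.smul_apply, smul_smul, ← pow_succ']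
      congr 1
      have hcard' : (t.erase a).card = m + 1 := by
        rw [Finset.card_erase_of_mem hat, hcard]; rfl
      unfold oR
      rw [dif_pos hcard', dif_pos hcard]
      unfold ctr
      have h5 : (Fin.cons a ((t.erase a).orderEmbOfFin hcard') : Fin (m + 2) → ℕ) =
          t.orderEmbOfFin hcard := by
        refine Finset.orderEmbOfFin_unique hcard ?_ ?_
        · intro i
          refine Fin.cases ?_ (fun i => ?_) i
          · exact hat
          · exact Finset.mem_of_mem_erase (Finset.orderEmbOfFin_mem _ hcard' i)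
        · rw [Fin.strictMono_cons]
          refine ⟨fun j => ?_, ((t.erase a).orderEmbOfFin hcard').strictMono⟩
          have h6 := Finset.orderEmbOfFin_mem _ hcard' j
          rw [Finset.mem_erase] at h6
          exact lt_of_le_of_ne (t.min'_le _ h6.2) h6.1.symm
      rw [Finset.sum_eq_single a]
      · unfold res
        rw [h5, if_pos (image_orderEmb hcard)]
      · intro b _ hba
        unfold res
        rw [if_neg]
        intro h
        rw [image_cons, image_orderEmb] at h
        have hat' : a ∈ insert b (t.erase a) := by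
          rw [h]
          exact hat
        rw [Finset.mem_insert] at hat'
        rcases hat' with h'' | h''
        · exact hba h''.symm
        · exact Finset.notMem_erase _ _ h''
      · intro h
        exact absurd hav h
    · have h1 : XX ψ (verts L) c t = 0 := by
        by_contra h
        exact hex (XX_supp hf hψ hcL h)
      rw [h1]
      have h2 : oR c t = 0 := by
        unfold oR
        split_ifs with h
        · by_contra h'
          exact hex ⟨_, h', image_orderEmb h⟩
        · rfl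
      rw [Pi.smul_apply, h2, smul_zero]

theorem itemB7 (h7a : S_B7a) : S_B7 := by
  intro L hf m o ho ψ hψ
  have hz : zeta L o = zetaR (verts L) (fun s => (o s : ℝ)) := rfl
  have halt : IsAlt (verts L) (fun s => (o s : ℝ)) := by
    constructor
    · intro s i j hij
      have := ho.1 s i j hij
      simp only [this]
      push_cast
      ring
    · intro s hs
      have hs0 : o s ≠ 0 := fun h => hs (by simp [h])
      refine ⟨?_, ?_⟩
      · intro i j hij
        by_contra hne
        have h1 := ho.1 s i j hne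
        have h2 : s ∘ Equiv.swap i j = s := by
          funext k
          rw [Function.comp_apply]
          by_cases hki : k = i
          · rw [hki, Equiv.swap_apply_left, hij]
          · by_cases hkj : k = j
            · rw [hkj, Equiv.swap_apply_right, hij]
            · rw [Equiv.swap_apply_of_ne_of_ne hki hkj]
        rw [h2] at h1
        omega
      · intro i
        have h1 := ho.2.1 s hs0
        unfold verts
        rw [Finset.mem_biUnion]
        exact ⟨_, h1, Finset.mem_image_of_mem _ (Finset.mem_univ _)⟩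
  have honL : OnL L (fun s => (o s : ℝ)) := by
    intro s hs
    exact ho.2.1 s fun h => hs (by simp [h])
  rw [hz, lin_zetaR, XX_eq h7a hf hψ m _ halt honL]
  rfl

end RA

end MP8a95ee

end

section

/-!
# B8: a filling of `o ∩ φ` gives a primitive of `φ`
-/

namespace MP8a95ee

namespace RA

theorem h61_oF_card {n : ℕ} {o : (Fin n → ℕ) → ℤ} {t : Finset ℕ} (h : oF o t ≠ 0) :
    t.card = n := by
  by_contra hc
  apply h
  unfold oF
  rw [dif_neg hc]

theorem h61_oF_ne {L : Finset (Finset ℕ)} {n : ℕ} {o : (Fin n → ℕ) → ℤ} (ho : IsOrient L n o)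
    {t : Finset ℕ} (ht : t ∈ L) (hc : t.card = n) : oF o t ≠ 0 := by
  unfold oF
  rw [dif_pos hc]
  have h1 : o (t.orderEmbOfFin hc) ≠ 0 := by
    refine ho.2.2.1 _ (t.orderEmbOfFin hc).injective ?_
    have : Finset.univ.image (t.orderEmbOfFin hc : Fin n → ℕ) = t := by
      apply Finset.coe_injective
      rw [Finset.coe_image, Finset.coe_univ, Set.image_univ, Finset.range_orderEmbOfFin]
    rw [this]
    exact ht
  exact_mod_cast h1

theorem itemB8 (h8a : S_B8a) (h8c : S_B8c) (h8d : S_B8d) : S_B8 := by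
  intro L hf n hS o ho N _ _ e he φ hφ hdφ x hx hdx
  obtain ⟨x', hx', hdx', hlev⟩ := h8d L hf n hS N e he x hx (by
    intro s u h
    rw [hdx] at h
    by_contra hc
    apply h
    unfold capU
    by_cases hd : Disjoint s u
    · rw [if_pos hd]
      have : oF o (s ∪ u) = 0 := by
        by_contra h0
        exact hc (h61_oF_card h0)
      rw [this, mul_zero, zero_smul]
    · rw [if_neg hd])
  rw [hdx] at hdx'
  have hlev0 : ∀ s u, (s ∪ u).card ≠ n → x' s u = 0 := by
    intro s u h
    by_contra h0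
    exact h (hlev s u h0)
  have hcard : ∀ s u : Finset ℕ, Disjoint s u → (s ∪ u).card = s.card + u.card :=
    fun s u h => Finset.card_union_of_disjoint h
  have hA : ∀ s, s ∈ L → ∃ y ∈ Es e s, ∀ u, x' s u = oLk o s u • y := by
    intro s hs
    have hsn := (h8a L hf n hS s hs).1
    refine h8c L hf n hS o ho N (Es e s) s hs (n - s.card) (by omega) (x' s) ?_ ?_
    · intro u
      refine ⟨?_, (hx' s u).2⟩
      intro h0
      obtain ⟨h1, h2, -⟩ := (hx' s u).1 h0
      have h3 := hlev s u h0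
      rw [hcard s u h1] at h3
      exact ⟨hf.mono h2 Finset.subset_union_right, h1, h2, by omega⟩
    · funext u
      change bdN L s (x' s) u = 0
      unfold bdN
      by_cases hd : Disjoint s u
      · by_cases hc : (s ∪ u).card + 1 = n
        · have h1 := congrFun (congrFun hdx' s) u
          rw [h61_dDpos e x' hd] at h1
          have h2 : ∑ a ∈ s, sg a u • e a (x' (s.erase a) (insert a u)) = 0 := by
            refine Finset.sum_eq_zero fun a ha => ?_
            rw [hlev0 _ _ (by rw [h61_eui ha]; omega), map_zero, smul_zero]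
          have h3 : capU φ (oF o) s u = 0 := by
            unfold capU
            rw [if_pos hd]
            have : oF o (s ∪ u) = 0 := by
              by_contra h0
              have := h61_oF_card h0
              omega
            rw [this, mul_zero, zero_smul]
          rw [h2, h3, zero_sub, neg_eq_zero] at h1
          exact h1
        · refine Finset.sum_eq_zero fun a ha => ?_
          obtain ⟨has, hau⟩ := h61_out ha
          rw [hlev0, smul_zero]
          rw [Finset.union_insert, Finset.card_insert_of_notMem (by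
            rw [Finset.mem_union, not_or]; exact ⟨has, hau⟩)]
          exact hc
      · refine Finset.sum_eq_zero fun a ha => ?_
        have : x' s (insert a u) = 0 := by
          by_contra h0
          exact hd (((hx' _ _).1 h0).1.mono_right (Finset.subset_insert _ _))
        rw [this, smul_zero]
  choose! ψ0 hψE hψ using hA
  set σ : ℕ → ℝ := fun p => (-1) ^ ((p + 1) * (n - p)) * (-1) ^ (p - 1) with hσ
  classical
  set ψ : Finset ℕ → N := fun s => if s ∈ L then σ (s.card + 1) • ψ0 s else 0 with hψdef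
  refine ⟨ψ, ?_, ?_⟩
  · intro s
    by_cases hs : s ∈ L
    · refine ⟨fun _ => hs, ?_⟩
      rw [hψdef]
      simp only [if_pos hs]
      exact Submodule.smul_mem _ _ (hψE s hs)
    · rw [hψdef]
      simp only [if_neg hs]
      exact ⟨fun h => absurd rfl h, Submodule.zero_mem _⟩
  · funext s
    by_cases hs : s ∈ L
    swap
    · unfold dC
      rw [if_neg hs]
      by_contra h0
      exact hs ((hφ s).1 fun h => h0 h.symm)
    -- a facet containing `s`
    obtain ⟨hsn, t, ht, hst, htn⟩ := h8a L hf n hS s hs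
    set u := t \ s with hu
    have hd : Disjoint s u := Finset.disjoint_sdiff
    have hsu : s ∪ u = t := Finset.union_sdiff_of_subset hst
    have huc : u.card = n - s.card := by
      have := hcard s u hd
      rw [hsu, htn] at this
      omega
    have hne : oF o t ≠ 0 := h61_oF_ne ho ht htn
    have h1 := congrFun (congrFun hdx' s) u
    rw [h61_dDpos e x' hd] at h1
    have h2 : ∑ a ∈ verts L \ (s ∪ u), sg a u • x' s (insert a u) = 0 := by
      refine Finset.sum_eq_zero fun a ha => ?_
      obtain ⟨has, hau⟩ := h61_out ha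
      rw [hlev0, smul_zero]
      rw [Finset.union_insert, Finset.card_insert_of_notMem (by
        rw [Finset.mem_union, not_or]; exact ⟨has, hau⟩), hsu, htn]
      omega
    have h3 : ∑ a ∈ s, sg a u • e a (x' (s.erase a) (insert a u)) =
        ((-1 : ℝ) ^ (s.card - 1) * (sgg s u * oF o t)) •
          ∑ a ∈ s, sg a (s.erase a) • e a (ψ0 (s.erase a)) := by
      rw [Finset.smul_sum]
      refine Finset.sum_congr rfl fun a ha => ?_
      rw [hψ (s.erase a) (hf.mono hs (Finset.erase_subset _ _))]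
      unfold oLk
      rw [if_pos (h61_dei hd), h61_eui ha, hsu, map_smul, smul_smul, smul_smul, ← mul_assoc,
        h61_sign1 ha hd]
      congr 1
      ring
    have h4 : capU φ (oF o) s u =
        ((-1 : ℝ) ^ ((s.card + 1) * u.card) * sgg s u * oF o t) • φ s := by
      unfold capU
      rw [if_pos hd, hsu]
    rw [h2, h3, h4, sub_zero] at h1
    have h5 : dC L e ψ s = σ s.card • ∑ a ∈ s, sg a (s.erase a) • e a (ψ0 (s.erase a)) := by
      unfold dC
      rw [if_pos hs, Finset.smul_sum]
      refine Finset.sum_congr rfl fun a ha => ?_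
      have h6 : ψ (s.erase a) = σ s.card • ψ0 (s.erase a) := by
        rw [hψdef]
        simp only [if_pos (hf.mono hs (Finset.erase_subset a s))]
        rw [Finset.card_erase_of_mem ha, Nat.sub_add_cancel (Finset.card_pos.2 ⟨a, ha⟩)]
      rw [h6, map_smul, smul_smul, smul_smul, mul_comm]
    rw [h5]
    -- cancel the nonzero factor
    have hk : sgg s u * oF o t ≠ 0 := mul_ne_zero (h61_sgg_ne s u) hne
    set w := ∑ a ∈ s, sg a (s.erase a) • e a (ψ0 (s.erase a)) with hw
    have hq : ∀ q : ℕ, ((-1 : ℝ) ^ q) * (-1) ^ q = 1 := by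
      intro q
      rw [← pow_add, ← two_mul, pow_mul]
      norm_num
    have h7 : (sgg s u * oF o t) • (((-1 : ℝ) ^ (s.card - 1)) • w -
        ((-1 : ℝ) ^ ((s.card + 1) * u.card)) • φ s) = 0 := by
      rw [smul_sub, smul_smul, smul_smul, sub_eq_zero]
      convert h1 using 2
      · ring
      · ring
    have h8 := (smul_eq_zero.1 h7).resolve_left hk
    rw [sub_eq_zero] at h8
    have h9 : φ s = ((-1 : ℝ) ^ ((s.card + 1) * u.card)) •
        (((-1 : ℝ) ^ ((s.card + 1) * u.card)) • φ s) := by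
      rw [smul_smul, hq, one_smul]
    rw [h9, ← h8, smul_smul, hσ, huc]

end RA

end MP8a95ee

end

section

/-!
# B8b: exactness of the links with coefficients
-/

namespace MP8a95ee

namespace RA

/-- real chains of the link as a submodule -/
def h61_C (L : Finset (Finset ℕ)) (s : Finset ℕ) (k : ℕ) : Submodule ℝ (Finset ℕ → ℝ) where
  carrier := {c | LkChain L s k c}
  add_mem' := by
    intro c c' hc hc' t ht
    by_cases h : c t = 0
    · refine hc' t fun h' => ht ?_
      rw [Pi.add_apply, h, h', add_zero]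
    · exact hc t h
  zero_mem' := fun t ht => absurd rfl ht
  smul_mem' := by
    intro r c hc t ht
    refine hc t fun h' => ht ?_
    rw [Pi.smul_apply, h', smul_zero]

/-- the boundary as a linear map -/
noncomputable def h61_bd (L : Finset (Finset ℕ)) : (Finset ℕ → ℝ) →ₗ[ℝ] (Finset ℕ → ℝ) where
  toFun := bdS L
  map_add' := by
    intro c c'
    funext t
    change bdS L (c + c') t = bdS L c t + bdS L c' t
    unfold bdS
    rw [← Finset.sum_add_distrib]
    exact Finset.sum_congr rfl fun a _ => by rw [Pi.add_apply, mul_add]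
  map_smul' := by
    intro r c
    funext t
    change bdS L (r • c) t = r * bdS L c t
    unfold bdS
    rw [Finset.mul_sum]
    exact Finset.sum_congr rfl fun a _ => by rw [Pi.smul_apply, smul_eq_mul]; ring

/-- a linear filling operator -/
theorem h61_fill (L : Finset (Finset ℕ)) (s : Finset ℕ) (k : ℕ)
    (hex : ∀ c, LkChain L s k c → bdS L c = 0 → ∃ c', LkChain L s (k + 1) c' ∧ bdS L c' = c) :
    ∃ h : (Finset ℕ → ℝ) →ₗ[ℝ] (Finset ℕ → ℝ), (∀ c, LkChain L s (k + 1) (h c)) ∧
      ∀ c, LkChain L s k c → bdS L c = 0 → bdS L (h c) = c := by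
  set B : h61_C L s (k + 1) →ₗ[ℝ] (Finset ℕ → ℝ) :=
    (h61_bd L).comp (h61_C L s (k + 1)).subtype with hB
  set Z : Submodule ℝ (Finset ℕ → ℝ) := h61_C L s k ⊓ LinearMap.ker (h61_bd L) with hZ
  obtain ⟨g, hg⟩ := LinearMap.exists_rightInverse_of_surjective B.rangeRestrict
    (LinearMap.range_rangeRestrict B)
  have hZB : Z ≤ LinearMap.range B := by
    rintro c ⟨hc1, hc2⟩
    obtain ⟨c', h1, h2⟩ := hex c hc1 hc2
    exact ⟨⟨c', h1⟩, h2⟩
  obtain ⟨h, hh⟩ := LinearMap.exists_extend (g.comp (Submodule.inclusion hZB))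
  refine ⟨(h61_C L s (k + 1)).subtype.comp h, fun c => (h c).2, ?_⟩
  intro c hc1 hc2
  have hcZ : c ∈ Z := ⟨hc1, hc2⟩
  have h1 : h c = g (Submodule.inclusion hZB ⟨c, hcZ⟩) := by
    have := LinearMap.congr_fun hh ⟨c, hcZ⟩
    exact this
  have h2 : B (g (Submodule.inclusion hZB ⟨c, hcZ⟩)) = c := by
    have := LinearMap.congr_fun hg (Submodule.inclusion hZB ⟨c, hcZ⟩)
    exact congrArg Subtype.val this
  change bdS L ((h c : h61_C L s (k + 1)) : Finset ℕ → ℝ) = c
  rw [h1]
  exact h2

theorem h61_dual {N : Type} [AddCommGroup N] [Module ℝ N] {v : N}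
    (h : ∀ f : Module.Dual ℝ N, f v = 0) : v = 0 :=
  (Module.forall_dual_apply_eq_zero_iff ℝ v).1 h

/-- the boundary in the link of a real chain -/
theorem h61_bdlink {L : Finset (Finset ℕ)} {s : Finset ℕ} {k : ℕ}
    {c : Finset ℕ → ℝ} (hc : LkChain L s k c) (u : Finset ℕ) :
    bdS L c u = ∑ a ∈ verts L \ (s ∪ u), sg a u * c (insert a u) := by
  unfold bdS
  symm
  refine Finset.sum_subset ?_ ?_
  · intro a ha
    rw [Finset.mem_sdiff, Finset.mem_union, not_or] at ha
    exact Finset.mem_sdiff.2 ⟨ha.1, ha.2.2⟩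
  · intro a ha hna
    rw [Finset.mem_sdiff] at ha hna
    have has : a ∈ s := by
      by_contra h
      exact hna ⟨ha.1, fun h' => (Finset.mem_union.1 h').elim h ha.2⟩
    by_contra hne
    have h1 : c (insert a u) ≠ 0 := fun h => hne (by rw [h, mul_zero])
    exact Finset.disjoint_left.1 (hc _ h1).2.1 has (Finset.mem_insert_self _ _)

theorem itemB8b : S_B8b := by
  intro L hf n hS N _ _ E s hs k hk x hx hbx
  obtain ⟨h, h1, h2⟩ := h61_fill L s k ((hS s hs).1 k hk)
  -- real chains obtained from functionals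
  have hfx : ∀ f : Module.Dual ℝ N, LkChain L s k (fun u => f (x u)) := by
    intro f t ht
    refine (hx t).1 fun h0 => ht ?_
    change f (x t) = 0
    rw [h0, map_zero]
  have hfb : ∀ f : Module.Dual ℝ N, bdS L (fun u => f (x u)) = 0 := by
    intro f
    funext u
    rw [h61_bdlink (hfx f)]
    have h3 := congrFun hbx u
    unfold bdN at h3
    have h4 := congrArg f h3
    rw [map_sum] at h4
    rw [Pi.zero_apply] at h4
    rw [map_zero] at h4
    rw [Pi.zero_apply, ← h4]
    exact Finset.sum_congr rfl fun a _ => by rw [map_smul, smul_eq_mul]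
  set y : Finset ℕ → N := fun u => ∑ w ∈ L, (h (Pi.single w 1) u) • x w with hy
  -- functionals of `y`
  have hfy : ∀ (f : Module.Dual ℝ N) (u : Finset ℕ), f (y u) = h (fun u => f (x u)) u := by
    intro f u
    have h3 : (fun u => f (x u)) = ∑ w ∈ L, f (x w) • (Pi.single w 1 : Finset ℕ → ℝ) := by
      funext t
      rw [Finset.sum_apply]
      by_cases ht : t ∈ L
      · rw [Finset.sum_eq_single t]
        · simp
        · intro b _ hb
          simp [hb.symm]
        · intro h; exact absurd ht h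
      · have : x t = 0 := by
          by_contra h0
          exact ht ((hx t).1 h0).1
        rw [this, map_zero]
        symm
        refine Finset.sum_eq_zero fun b hb => ?_
        have : t ≠ b := fun h => ht (h ▸ hb)
        simp [this]
    have h4 : h (fun u => f (x u)) u = ∑ w ∈ L, f (x w) * h (Pi.single w 1) u := by
      rw [h3, map_sum, Finset.sum_apply]
      exact Finset.sum_congr rfl fun w _ => by rw [map_smul, Pi.smul_apply, smul_eq_mul]
    rw [h4, hy]
    change f (∑ w ∈ L, (h (Pi.single w 1) u) • x w) = _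
    rw [map_sum]
    exact Finset.sum_congr rfl fun w _ => by rw [map_smul, smul_eq_mul, mul_comm]
  refine ⟨y, ?_, ?_⟩
  · intro u
    refine ⟨?_, Submodule.sum_mem _ fun w _ => Submodule.smul_mem _ _ (hx w).2⟩
    intro hne
    by_contra hcon
    apply hne
    refine Finset.sum_eq_zero fun w _ => ?_
    have h3 : h (Pi.single w 1) u = 0 := by
      by_contra h4
      exact hcon (h1 _ u h4)
    rw [h3, zero_smul]
  · funext u
    rw [← sub_eq_zero]
    refine h61_dual fun f => ?_
    have h3 := congrFun (h2 _ (hfx f) (hfb f)) u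
    rw [h61_bdlink (h1 _)] at h3
    rw [map_sub, sub_eq_zero, ← h3]
    unfold bdN
    rw [map_sum]
    exact Finset.sum_congr rfl fun a _ => by rw [map_smul, hfy, smul_eq_mul]

end RA

end MP8a95ee

end

section

/-!
# B8c: top cycles of the links with coefficients
-/

namespace MP8a95ee

namespace RA

theorem h61_perm {n : ℕ} {o : (Fin n → ℕ) → ℤ}
    (h : ∀ (s : Fin n → ℕ) (i j : Fin n), i ≠ j → o (s ∘ Equiv.swap i j) = - o s)
    (π : Equiv.Perm (Fin n)) : ∀ s : Fin n → ℕ, o (s ∘ π) = (Equiv.Perm.sign π : ℤ) * o s := by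
  refine Equiv.Perm.swap_induction_on π ?_ ?_
  · intro s
    simp
  · intro f x y hxy ih s
    have e1 : s ∘ ⇑(Equiv.swap x y * f) = (s ∘ Equiv.swap x y) ∘ f := rfl
    rw [e1, ih, h _ _ _ hxy, Equiv.Perm.sign_mul, Equiv.Perm.sign_swap hxy]
    simp

theorem h61_noninj {n : ℕ} {o : (Fin n → ℕ) → ℤ}
    (h : ∀ (s : Fin n → ℕ) (i j : Fin n), i ≠ j → o (s ∘ Equiv.swap i j) = - o s)
    (s : Fin n → ℕ) {i j : Fin n} (hij : i ≠ j) (hs : s i = s j) : o s = 0 := by
  have e1 : s ∘ Equiv.swap i j = s := by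
    funext k
    by_cases h1 : k = i
    · subst h1
      simp [hs]
    · by_cases h2 : k = j
      · subst h2
        simp [hs]
      · simp [Equiv.swap_apply_of_ne_of_ne h1 h2]
  have e2 := h s i j hij
  rw [e1] at e2
  omega

/-- the increasing enumeration of `insert a t` -/
theorem h61_enum {k : ℕ} {t : Finset ℕ} {a : ℕ} (_ha : a ∉ t) (ht : t.card = k)
    (hat : (insert a t).card = k + 1) :
    ∃ j : Fin (k + 1), (j : ℕ) = (t.filter fun b => b < a).card ∧
      ((insert a t).orderEmbOfFin hat : Fin (k + 1) → ℕ) =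
        j.insertNth (α := fun _ => ℕ) a (t.orderEmbOfFin ht) := by
  set g := (insert a t).orderEmbOfFin hat with hg
  have hmem : a ∈ Set.range g := by
    rw [hg, Finset.range_orderEmbOfFin]
    exact Finset.mem_coe.2 (Finset.mem_insert_self a t)
  obtain ⟨j, hj⟩ := hmem
  have hgm : ∀ i, g i ∈ insert a t := fun i => Finset.orderEmbOfFin_mem _ _ i
  refine ⟨j, ?_, ?_⟩
  · have e1 : (t.filter fun b => b < a) = (Finset.Iio j).image g := by
      ext b
      simp only [Finset.mem_filter, Finset.mem_image, Finset.mem_Iio]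
      constructor
      · rintro ⟨h1, h2⟩
        have h3 : b ∈ Set.range g := by
          rw [hg, Finset.range_orderEmbOfFin]
          exact Finset.mem_coe.2 (Finset.mem_insert_of_mem h1)
        obtain ⟨i, hi⟩ := h3
        refine ⟨i, ?_, hi⟩
        rw [← g.lt_iff_lt, hi, hj]
        exact h2
      · rintro ⟨i, hi, rfl⟩
        have h4 : g i < a := by
          rw [← hj]
          exact g.lt_iff_lt.2 hi
        refine ⟨?_, h4⟩
        rcases Finset.mem_insert.1 (hgm i) with h5 | h5
        · exact absurd h5 h4.ne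
        · exact h5
    rw [e1, Finset.card_image_of_injective _ g.injective, Fin.card_Iio]
  · have e2 : (fun i => g (j.succAbove i)) = t.orderEmbOfFin ht := by
      refine Finset.orderEmbOfFin_unique ht ?_ ?_
      · intro i
        rcases Finset.mem_insert.1 (hgm (j.succAbove i)) with h5 | h5
        · rw [← hj] at h5
          exact absurd (g.injective h5) (Fin.succAbove_ne j i)
        · exact h5
      · exact g.strictMono.comp (Fin.strictMono_succAbove j)
    have e3 : (g : Fin (k + 1) → ℕ) = j.insertNth (α := fun _ => ℕ) (g j)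
        (fun i => g (j.succAbove i)) := (Fin.insertNth_self_removeNth j (g : Fin (k + 1) → ℕ)).symm
    rw [e3, e2, hj]

theorem h61_oFinsert {k : ℕ} {o : (Fin (k + 1) → ℕ) → ℤ}
    (h : ∀ (s : Fin (k + 1) → ℕ) (i j : Fin (k + 1)), i ≠ j → o (s ∘ Equiv.swap i j) = - o s)
    {t : Finset ℕ} {a : ℕ} (ha : a ∉ t) (ht : t.card = k) :
    oF o (insert a t) = sg a t * (o (Fin.cons a (t.orderEmbOfFin ht)) : ℝ) := by
  have hat : (insert a t).card = k + 1 := by
    rw [Finset.card_insert_of_notMem ha, ht]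
  obtain ⟨j, hj, he⟩ := h61_enum ha ht hat
  unfold oF
  rw [dif_pos hat, he]
  have e1 : j.insertNth (α := fun _ => ℕ) a (t.orderEmbOfFin ht) =
      (Fin.cons a (t.orderEmbOfFin ht) : Fin (k + 1) → ℕ) ∘ j.cycleRange :=
    (Fin.cons_comp_cycleRange a _ j).symm
  rw [e1, h61_perm h, Fin.sign_cycleRange]
  unfold sg
  rw [← hj]
  push_cast
  rfl

theorem h61_oFcycle {L : Finset (Finset ℕ)} {n : ℕ} {o : (Fin n → ℕ) → ℤ}
    (ho : IsOrient L n o) : bdS L (oF o) = 0 := by
  funext t
  change bdS L (oF o) t = 0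
  unfold bdS
  by_cases hc : t.card + 1 = n
  swap
  · refine Finset.sum_eq_zero fun a ha => ?_
    have : oF o (insert a t) = 0 := by
      by_contra h0
      have := h61_oF_card h0
      rw [Finset.card_insert_of_notMem (Finset.mem_sdiff.1 ha).2] at this
      exact hc this
    rw [this, mul_zero]
  obtain ⟨k, rfl⟩ : ∃ k, n = k + 1 := ⟨t.card, hc.symm⟩
  have ht : t.card = k := by omega
  have h1 : ∀ a ∈ verts L \ t, sg a t * oF o (insert a t) =
      (o (Fin.cons a (t.orderEmbOfFin ht)) : ℝ) := by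
    intro a ha
    rw [h61_oFinsert ho.1 (Finset.mem_sdiff.1 ha).2 ht, ← mul_assoc, sg_sq, one_mul]
  rw [Finset.sum_congr rfl h1]
  have h2 : ∑ a ∈ verts L \ t, (o (Fin.cons a (t.orderEmbOfFin ht)) : ℝ) =
      ∑ a ∈ verts L, (o (Fin.cons a (t.orderEmbOfFin ht)) : ℝ) := by
    refine Finset.sum_subset Finset.sdiff_subset ?_
    intro a haL ha
    have hat : a ∈ t := by
      by_contra h
      exact ha (Finset.mem_sdiff.2 ⟨haL, h⟩)
    have h3 : a ∈ Set.range (t.orderEmbOfFin ht) := by
      rw [Finset.range_orderEmbOfFin]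
      exact Finset.mem_coe.2 hat
    obtain ⟨i, hi⟩ := h3
    have h4 : o (Fin.cons a (t.orderEmbOfFin ht)) = 0 := by
      refine h61_noninj ho.1 _ (i := 0) (j := i.succ) (Fin.succ_ne_zero i).symm ?_
      rw [Fin.cons_zero, Fin.cons_succ, hi]
    rw [h4]
    norm_num
  rw [h2]
  have h5 := ho.2.2.2 (Fin.cons 0 (t.orderEmbOfFin ht)) 0
  simp only [Fin.update_cons_zero] at h5
  exact_mod_cast h5

theorem itemB8c (h8a : S_B8a) : S_B8c := by
  intro L hf n hS o ho N _ _ E s hs k hk x hx hbx
  -- the restricted orientation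
  have hoL : LkChain L s k (oLk o s) := by
    intro u hu
    have hd : Disjoint s u := by
      by_contra h
      apply hu
      unfold oLk
      rw [if_neg h]
    have h1 : oF o (s ∪ u) ≠ 0 := by
      intro h
      apply hu
      unfold oLk
      rw [if_pos hd, h, mul_zero]
    have h2 := h61_oF_card h1
    have h3 : s ∪ u ∈ L := by
      have h4 : o ((s ∪ u).orderEmbOfFin h2) ≠ 0 := by
        intro h
        apply h1
        unfold oF
        rw [dif_pos h2, h]
        norm_num
      have h5 := ho.2.1 _ h4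
      have h6 : Finset.univ.image ((s ∪ u).orderEmbOfFin h2 : Fin n → ℕ) = s ∪ u := by
        apply Finset.coe_injective
        rw [Finset.coe_image, Finset.coe_univ, Set.image_univ, Finset.range_orderEmbOfFin]
      rwa [h6] at h5
    refine ⟨hf.mono h3 Finset.subset_union_right, hd, h3, ?_⟩
    rw [Finset.card_union_of_disjoint hd] at h2
    omega
  have hoC : bdS L (oLk o s) = 0 := by
    funext u
    rw [h61_bdlink hoL]
    by_cases hd : Disjoint s u
    · have h1 : ∀ a ∈ verts L \ (s ∪ u), sg a u * oLk o s (insert a u) =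
          ((-1) ^ s.card * sgg s u) * (sg a (s ∪ u) * oF o (insert a (s ∪ u))) := by
        intro a ha
        obtain ⟨has, hau⟩ := h61_out ha
        unfold oLk
        rw [if_pos (h61_di hd has), Finset.union_insert, ← mul_assoc, h61_sign2 has hau hd]
        ring
      rw [Finset.sum_congr rfl h1, ← Finset.mul_sum]
      have h2 := congrFun (h61_oFcycle ho) (s ∪ u)
      unfold bdS at h2
      rw [h2]
      simp
    · refine Finset.sum_eq_zero fun a ha => ?_
      unfold oLk
      rw [if_neg (fun h => hd (h.mono_right (Finset.subset_insert _ _))), mul_zero]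
  obtain ⟨-, t, ht, hst, htn⟩ := h8a L hf n hS s hs
  set u0 := t \ s with hu0
  have hd0 : Disjoint s u0 := Finset.disjoint_sdiff
  have ho0 : oLk o s u0 ≠ 0 := by
    unfold oLk
    rw [if_pos hd0, Finset.union_sdiff_of_subset hst]
    exact mul_ne_zero (h61_sgg_ne _ _) (h61_oF_ne ho ht htn)
  obtain ⟨z, -, -, -, hz⟩ := (hS s hs).2 k hk
  have hone : ∀ c, LkChain L s k c → bdS L c = 0 → ∃ lam : ℝ, c = lam • z := by
    intro c hc hbc
    obtain ⟨lam, c', hc', he⟩ := hz c hc hbc
    have h1 : c' = 0 := by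
      funext w
      by_contra h0
      obtain ⟨-, h2, h3, h4⟩ := hc' w h0
      have h5 := (h8a L hf n hS _ h3).1
      rw [Finset.card_union_of_disjoint h2] at h5
      omega
    have h2 : bdS L (0 : Finset ℕ → ℝ) = 0 := by
      funext w
      unfold bdS
      simp
    rw [h1, h2, add_zero] at he
    exact ⟨lam, he⟩
  obtain ⟨l0, hl0⟩ := hone _ hoL hoC
  have hl0' : l0 ≠ 0 := by
    intro h
    apply ho0
    rw [hl0, h, zero_smul]
    rfl
  refine ⟨(oLk o s u0)⁻¹ • x u0, Submodule.smul_mem _ _ (hx u0).2, fun u => ?_⟩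
  rw [← sub_eq_zero]
  refine h61_dual fun f => ?_
  have hfx : LkChain L s k (fun u => f (x u)) := by
    intro t' ht'
    refine (hx t').1 fun h0 => ht' ?_
    change f (x t') = 0
    rw [h0, map_zero]
  have hfb : bdS L (fun u => f (x u)) = 0 := by
    funext u
    rw [h61_bdlink hfx]
    have h3 := congrFun hbx u
    unfold bdN at h3
    have h4 := congrArg f h3
    rw [map_sum, Pi.zero_apply, map_zero] at h4
    rw [Pi.zero_apply, ← h4]
    exact Finset.sum_congr rfl fun a _ => by rw [map_smul, smul_eq_mul]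
  obtain ⟨l, hl⟩ := hone _ hfx hfb
  have hv : ∀ w, f (x w) = l * z w := fun w => congrFun hl w
  have hw : ∀ w, oLk o s w = l0 * z w := fun w => congrFun hl0 w
  have hz0 : z u0 ≠ 0 := by
    intro h
    apply ho0
    rw [hw, h, mul_zero]
  rw [map_sub, map_smul, map_smul, smul_eq_mul, smul_eq_mul, hv, hv, hw, hw]
  field_simp
  ring

end RA

end MP8a95ee

end
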