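import Pool.Agent.Work.MP_8a95ee_gt.R.Stmts
import Pool.Agent.Work.MP_8a95ee_gt.Bd.B01
import Pool.Agent.Work.MP_8a95ee_gt.R.Bas
import Pool.Agent.Work.MP_8a95ee_gt.Bd.B05
import Pool.Agent.Work.MP_8a95ee_gt.R.B4
import Pool.Agent.Work.MP_8a95ee_gt.R.ItemB5
import Pool.Agent.Work.MP_8a95ee_gt.R.ItemB6
import Pool.Agent.Work.MP_8a95ee_gt.R.ItemB7a
import Pool.Agent.Work.MP_8a95ee_gt.R.ItemB9
import Pool.Agent.Work.MP_8a95ee_gt.R.ItemB10

/-! Bundle of small proof modules (one section per former module). -/

section

/-!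
# B11: Euler characteristic of an exact complex
-/

namespace MP8a95ee

namespace RA

namespace B11

variable (L : Finset (Finset ℕ)) {N : Type} [AddCommGroup N] [Module ℝ N] (e : ℕ → N →ₗ[ℝ] N)

/-- cochains concentrated in one parity -/
def CCp (p : ℕ) : Submodule ℝ (Finset ℕ → N) where
  carrier := {φ | IsCC L e φ ∧ ∀ s, s.card % 2 ≠ p → φ s = 0}
  add_mem' := by
    rintro φ ψ ⟨h1, h2⟩ ⟨h3, h4⟩
    refine ⟨fun s => ⟨fun h => ?_, (Es e s).add_mem (h1 s).2 (h3 s).2⟩, fun s hs => ?_⟩
    · by_cases h5 : φ s = 0
      · refine (h3 s).1 fun h6 => h ?_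
        rw [Pi.add_apply, h5, h6, add_zero]
      · exact (h1 s).1 h5
    · rw [Pi.add_apply, h2 s hs, h4 s hs, add_zero]
  zero_mem' := ⟨fun s => ⟨fun h => absurd rfl h, (Es e s).zero_mem⟩, fun s _ => rfl⟩
  smul_mem' := by
    rintro c φ ⟨h1, h2⟩
    refine ⟨fun s => ⟨fun h => (h1 s).1 fun h5 => h ?_, (Es e s).smul_mem c (h1 s).2⟩,
      fun s hs => ?_⟩
    · rw [Pi.smul_apply, h5, smul_zero]
    · rw [Pi.smul_apply, h2 s hs, smul_zero]

/-- the coboundary as a linear map -/
def dL : (Finset ℕ → N) →ₗ[ℝ] (Finset ℕ → N) where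
  toFun := dC L e
  map_add' := by
    intro φ ψ
    funext s
    rw [Pi.add_apply]
    unfold dC
    split
    · rw [← Finset.sum_add_distrib]
      refine Finset.sum_congr rfl fun a _ => ?_
      rw [Pi.add_apply, map_add, smul_add]
    · rw [add_zero]
  map_smul' := by
    intro c φ
    funext s
    rw [Pi.smul_apply, RingHom.id_apply]
    unfold dC
    split
    · rw [Finset.smul_sum]
      refine Finset.sum_congr rfl fun a _ => ?_
      rw [Pi.smul_apply, map_smul, smul_comm]
    · rw [smul_zero]

theorem dL_apply (φ : Finset ℕ → N) : dL L e φ = dC L e φ := rfl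

theorem dC_par {p q : ℕ} (hpq : ∀ n : ℕ, 0 < n → n % 2 ≠ q → (n - 1) % 2 ≠ p)
    {φ : Finset ℕ → N} (h : ∀ s, s.card % 2 ≠ p → φ s = 0) :
    ∀ s, s.card % 2 ≠ q → dC L e φ s = 0 := by
  intro s hs
  unfold dC
  split
  · refine Finset.sum_eq_zero fun a ha => ?_
    rw [h (s.erase a) ?_, map_zero, smul_zero]
    rw [Finset.card_erase_of_mem ha]
    exact hpq _ (Finset.card_pos.mpr ⟨a, ha⟩) hs
  · rfl

theorem exact_par {p q : ℕ} (hpq : ∀ n : ℕ, 0 < n → n % 2 = q → (n - 1) % 2 = p)
    (hpq' : ∀ n : ℕ, 0 < n → n % 2 ≠ q → (n - 1) % 2 ≠ p)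
    (hex : ∀ φ : Finset ℕ → N, IsCC L e φ → dC L e φ = 0 → ∃ ψ, IsCC L e ψ ∧ dC L e ψ = φ)
    (φ : Finset ℕ → N) (hφ : φ ∈ CCp L e q) (h0 : dC L e φ = 0) :
    ∃ ψ ∈ CCp L e p, dC L e ψ = φ := by
  classical
  obtain ⟨ψ0, h1, h2⟩ := hex φ hφ.1 h0
  have hpar : ∀ s : Finset ℕ, s.card % 2 ≠ p →
      (fun s : Finset ℕ => if s.card % 2 = p then ψ0 s else 0) s = 0 := by
    intro s hs
    exact if_neg hs
  refine ⟨fun s => if s.card % 2 = p then ψ0 s else 0, ⟨fun s => ⟨fun h => ?_, ?_⟩, hpar⟩, ?_⟩
  · refine (h1 s).1 fun h3 => h ?_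
    show (if s.card % 2 = p then ψ0 s else 0) = 0
    rw [h3]; split <;> rfl
  · show (if s.card % 2 = p then ψ0 s else 0) ∈ Es e s
    split
    · exact (h1 s).2
    · exact (Es e s).zero_mem
  · funext s
    by_cases hs : s.card % 2 = q
    · rw [← h2]
      unfold dC
      split
      · refine Finset.sum_congr rfl fun a ha => ?_
        show sg a (s.erase a) • e a (if (s.erase a).card % 2 = p then ψ0 (s.erase a) else 0) = _
        rw [if_pos]
        rw [Finset.card_erase_of_mem ha]
        exact hpq _ (Finset.card_pos.mpr ⟨a, ha⟩) hs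
      · rfl
    · rw [dC_par L e hpq' hpar s hs, hφ.2 s hs]

/-- cochains concentrated in one parity are families -/
noncomputable def eqv (p : ℕ) : CCp L e p ≃ₗ[ℝ]
    ((s : {s // s ∈ L.filter fun s => s.card % 2 = p}) → Es e s.1) where
  toFun φ := fun s => ⟨φ.1 s.1, (φ.2.1 s.1).2⟩
  map_add' _ _ := rfl
  map_smul' _ _ := rfl
  invFun x := ⟨fun s => if h : s ∈ L.filter fun s => s.card % 2 = p then (x ⟨s, h⟩).1 else 0, by
    refine ⟨fun s => ⟨fun h => ?_, ?_⟩, fun s hs => ?_⟩
    · by_contra h1
      refine h (dif_neg fun h2 => h1 ?_)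
      exact (Finset.mem_filter.mp h2).1
    · show (if h : s ∈ L.filter fun s => s.card % 2 = p then (x ⟨s, h⟩).1 else 0) ∈ Es e s
      split
      · rename_i h4
        exact (x ⟨s, h4⟩).2
      · exact (Es e s).zero_mem
    · show (if h : s ∈ L.filter fun s => s.card % 2 = p then (x ⟨s, h⟩).1 else 0) = 0
      have h5 : s ∉ L.filter fun s => s.card % 2 = p := fun h2 =>
        hs (Finset.mem_filter.mp h2).2
      rw [dif_neg h5]⟩
  left_inv φ := by
    apply Subtype.ext
    funext s
    show (if h : s ∈ L.filter fun s => s.card % 2 = p then φ.1 s else 0) = φ.1 s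
    split
    · rfl
    · rename_i h
      rw [Finset.mem_filter, not_and_or] at h
      rcases h with h | h
      · by_contra h1
        exact h ((φ.2.1 s).1 (Ne.symm h1))
      · exact (φ.2.2 s h).symm
  right_inv x := by
    funext s
    apply Subtype.ext
    show (if h : s.1 ∈ L.filter fun s => s.card % 2 = p then (x ⟨s.1, h⟩).1 else 0) = _
    rw [dif_pos s.2]

theorem finrank_CCp [FiniteDimensional ℝ N] (p : ℕ) :
    FiniteDimensional ℝ (CCp L e p) ∧
    Module.finrank ℝ (CCp L e p) =
      ∑ s ∈ L.filter (fun s => s.card % 2 = p), Module.finrank ℝ (Es e s) := by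
  refine ⟨Module.Finite.equiv (eqv L e p).symm, ?_⟩
  rw [(eqv L e p).finrank_eq, Module.finrank_pi_fintype]
  exact Finset.sum_coe_sort (L.filter fun s => s.card % 2 = p) fun s => Module.finrank ℝ (Es e s)

end B11

open B11 in
theorem itemB11 (h2 : S_B2) : S_B11 := by
  intro L hL N _ _ _ e he hex
  have h01 : ∀ φ ∈ CCp L e 0, dL L e φ ∈ CCp L e 1 := fun φ hφ =>
    ⟨(h2 L hL N e he φ hφ.1).1, dC_par L e (by omega) hφ.2⟩
  have h10 : ∀ φ ∈ CCp L e 1, dL L e φ ∈ CCp L e 0 := fun φ hφ =>
    ⟨(h2 L hL N e he φ hφ.1).1, dC_par L e (by omega) hφ.2⟩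
  obtain ⟨hf0, hr0⟩ := finrank_CCp L e 0
  obtain ⟨hf1, hr1⟩ := finrank_CCp L e 1
  have e1 : LinearMap.range ((dL L e).restrict h01) = LinearMap.ker ((dL L e).restrict h10) := by
    ext φ
    rw [LinearMap.mem_range, LinearMap.mem_ker]
    constructor
    · rintro ⟨ψ, rfl⟩
      apply Subtype.ext
      exact (h2 L hL N e he ψ.1 ψ.2.1).2
    · intro h
      obtain ⟨ψ, h3, h4⟩ := exact_par L e (p := 0) (q := 1) (by omega) (by omega) hex φ.1 φ.2
        (congrArg Subtype.val h)
      exact ⟨⟨ψ, h3⟩, Subtype.ext h4⟩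
  have e2 : LinearMap.range ((dL L e).restrict h10) = LinearMap.ker ((dL L e).restrict h01) := by
    ext φ
    rw [LinearMap.mem_range, LinearMap.mem_ker]
    constructor
    · rintro ⟨ψ, rfl⟩
      apply Subtype.ext
      exact (h2 L hL N e he ψ.1 ψ.2.1).2
    · intro h
      obtain ⟨ψ, h3, h4⟩ := exact_par L e (p := 1) (q := 0) (by omega) (by omega) hex φ.1 φ.2
        (congrArg Subtype.val h)
      exact ⟨⟨ψ, h3⟩, Subtype.ext h4⟩
  have r1 := LinearMap.finrank_range_add_finrank_ker ((dL L e).restrict h01)
  have r2 := LinearMap.finrank_range_add_finrank_ker ((dL L e).restrict h10)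
  rw [e1] at r1
  rw [e2] at r2
  have key : ∑ s ∈ L.filter (fun s => s.card % 2 = 0), Module.finrank ℝ (Es e s) =
      ∑ s ∈ L.filter (fun s => s.card % 2 = 1), Module.finrank ℝ (Es e s) := by
    rw [← hr0, ← hr1]
    omega
  rw [← Finset.sum_filter_add_sum_filter_not L (fun s => s.card % 2 = 0)]
  have a1 : ∑ s ∈ L.filter (fun s => s.card % 2 = 0),
      (-1 : ℤ) ^ s.card * (Module.finrank ℝ (Es e s) : ℤ) =
      ((∑ s ∈ L.filter (fun s => s.card % 2 = 0), Module.finrank ℝ (Es e s) : ℕ) : ℤ) := by
    rw [Nat.cast_sum]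
    refine Finset.sum_congr rfl fun s hs => ?_
    rw [Even.neg_one_pow (Nat.even_iff.mpr (Finset.mem_filter.mp hs).2), one_mul]
  have a2 : ∑ s ∈ L.filter (fun s => ¬ s.card % 2 = 0),
      (-1 : ℤ) ^ s.card * (Module.finrank ℝ (Es e s) : ℤ) =
      -((∑ s ∈ L.filter (fun s => s.card % 2 = 1), Module.finrank ℝ (Es e s) : ℕ) : ℤ) := by
    have : L.filter (fun s => ¬ s.card % 2 = 0) = L.filter (fun s => s.card % 2 = 1) := by
      refine Finset.filter_congr fun s _ => ?_
      omega
    rw [this, Nat.cast_sum, ← Finset.sum_neg_distrib]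
    refine Finset.sum_congr rfl fun s hs => ?_
    rw [Odd.neg_one_pow (Nat.odd_iff.mpr (Finset.mem_filter.mp hs).2), neg_one_mul]
  rw [a1, a2, key]
  ring

end RA

end MP8a95ee

end

section

/-!
Item B12: orientation of a homology sphere.
-/

namespace MP8a95ee

namespace RA

namespace B12

/-- the sign of the ordering of the entries of a tuple -/
def vs {n : ℕ} (s : Fin n → ℕ) : ℤ :=
  Int.sign (∏ i, ∏ j ∈ Finset.Ioi i, ((s j : ℤ) - s i))

theorem vs_swap {n : ℕ} (s : Fin n → ℕ) (i j : Fin n) (hij : i ≠ j) :
    vs (s ∘ Equiv.swap i j) = - vs s := by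
  unfold vs
  have h1 := Matrix.det_vandermonde (fun k => ((s ∘ Equiv.swap i j) k : ℤ))
  have h2 := Matrix.det_vandermonde (fun k => (s k : ℤ))
  rw [← h1, ← h2]
  have h3 : Matrix.vandermonde (fun k => ((s ∘ Equiv.swap i j) k : ℤ)) =
      (Matrix.vandermonde (fun k => (s k : ℤ))).submatrix (Equiv.swap i j) id := by
    ext a b
    simp [Matrix.vandermonde_apply]
  rw [h3, Matrix.det_permute, Equiv.Perm.sign_swap hij]
  simp

theorem vs_ne_zero {n : ℕ} (s : Fin n → ℕ) (hs : Function.Injective s) : vs s ≠ 0 := by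
  unfold vs
  rw [Ne, Int.sign_eq_zero_iff_zero, Finset.prod_eq_zero_iff]
  rintro ⟨i, -, hi⟩
  rw [Finset.prod_eq_zero_iff] at hi
  obtain ⟨j, hj, hij⟩ := hi
  have h1 : (s j : ℤ) = s i := by linarith
  have h2 : j = i := hs (by exact_mod_cast h1)
  rw [Finset.mem_Ioi, h2] at hj
  exact lt_irrefl _ hj

theorem vs_eq_zero {n : ℕ} (s : Fin n → ℕ) (hs : ¬ Function.Injective s) : vs s = 0 := by
  unfold vs
  rw [Int.sign_eq_zero_iff_zero]
  have h : ∃ i j, i < j ∧ s i = s j := by
    unfold Function.Injective at hs
    push Not at hs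
    obtain ⟨a, b, hab, hne⟩ := hs
    rcases lt_or_gt_of_ne hne with h | h
    · exact ⟨a, b, h, hab⟩
    · exact ⟨b, a, h, hab.symm⟩
  obtain ⟨i, j, hij, he⟩ := h
  refine Finset.prod_eq_zero (Finset.mem_univ i) (Finset.prod_eq_zero (Finset.mem_Ioi.2 hij) ?_)
  rw [he, sub_self]

theorem sign_prod {ι : Type} (s : Finset ι) (f : ι → ℤ) :
    Int.sign (∏ i ∈ s, f i) = ∏ i ∈ s, Int.sign (f i) := by
  classical
  induction s using Finset.induction_on with
  | empty => simp
  | insert a s ha ih => rw [Finset.prod_insert ha, Finset.prod_insert ha, Int.sign_mul, ih]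

theorem vs_cons {n : ℕ} (x : ℕ) (g : Fin n → ℕ) :
    vs (Fin.cons x g : Fin (n + 1) → ℕ) = (∏ j, Int.sign ((g j : ℤ) - x)) * vs g := by
  unfold vs
  rw [Fin.prod_univ_succ]
  have h1 : ∏ j ∈ Finset.Ioi (0 : Fin (n + 1)),
      (((Fin.cons x g : Fin (n + 1) → ℕ) j : ℤ) - (Fin.cons x g : Fin (n + 1) → ℕ) 0) =
      ∏ j : Fin n, ((g j : ℤ) - x) := by
    rw [Fin.prod_Ioi_zero]
    simp
  have h2 : ∀ i : Fin n, ∏ j ∈ Finset.Ioi i.succ,
      (((Fin.cons x g : Fin (n + 1) → ℕ) j : ℤ) - (Fin.cons x g : Fin (n + 1) → ℕ) i.succ) =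
      ∏ j ∈ Finset.Ioi i, ((g j : ℤ) - g i) := by
    intro i
    rw [Fin.prod_Ioi_succ]
    simp
  rw [h1, Finset.prod_congr rfl fun i _ => h2 i, Int.sign_mul, sign_prod]

theorem sign_sg {n : ℕ} (x : ℕ) (g : Fin n → ℕ) (hg : Function.Injective g)
    (hx : x ∉ Finset.univ.image g) :
    ((∏ j, Int.sign ((g j : ℤ) - x) : ℤ) : ℝ) = sg x (Finset.univ.image g) := by
  unfold sg
  rw [Finset.filter_image, Finset.card_image_of_injective _ hg, ← Finset.prod_const,
    Finset.prod_filter]
  push_cast
  refine Finset.prod_congr rfl fun j _ => ?_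
  have hne : g j ≠ x := fun h => hx (Finset.mem_image.2 ⟨j, Finset.mem_univ _, h⟩)
  split_ifs with h
  · rw [Int.sign_eq_neg_one_of_neg (by omega)]; simp
  · rw [Int.sign_eq_one_of_pos (by omega)]; simp

end B12

open B12 in
theorem itemB12 (_h8a : S_B8a) (h12a : S_B12a) (h12b : S_B12b) : S_B12 := by
  intro L hf m hL
  obtain ⟨z, hz, hbz, hnb, -⟩ := (hL ∅ hf.empty_mem).2 (m + 1) (by simp)
  have hzL : ∀ t, z t ≠ 0 → t ∈ L ∧ t.card = m + 1 := fun t ht =>
    ⟨(hz t ht).1, (hz t ht).2.2.2⟩
  -- `z` is not zero
  obtain ⟨t0, ht0⟩ : ∃ t, z t ≠ 0 := by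
    by_contra hcon
    push Not at hcon
    refine hnb ⟨fun _ => 0, fun t ht => absurd rfl ht, ?_⟩
    funext t
    rw [hcon t]
    simp [bdS]
  have ht0L := hzL t0 ht0
  -- across a ridge
  have hridge : ∀ t ∈ L, ∀ t' ∈ L, t.card = m + 1 → t'.card = m + 1 → (t ∩ t').card = m →
      |z t| = |z t0| → |z t'| = |z t0| := by
    intro t ht t' ht' hc hc' hi h0
    rw [← h0]
    set r := t ∩ t' with hr
    have hrt : r ⊆ t := Finset.inter_subset_left
    have hrt' : r ⊆ t' := Finset.inter_subset_right
    obtain ⟨a, ha⟩ : ∃ a, t \ r = {a} := by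
      rw [← Finset.card_eq_one, Finset.card_sdiff_of_subset hrt]; omega
    obtain ⟨b, hb⟩ : ∃ b, t' \ r = {b} := by
      rw [← Finset.card_eq_one, Finset.card_sdiff_of_subset hrt']; omega
    have har : a ∈ t \ r := by rw [ha]; exact Finset.mem_singleton_self a
    have hbr : b ∈ t' \ r := by rw [hb]; exact Finset.mem_singleton_self b
    rw [Finset.mem_sdiff] at har hbr
    have hta : insert a r = t := by
      rw [← Finset.sdiff_union_of_subset hrt, ha]; rfl
    have htb : insert b r = t' := by
      rw [← Finset.sdiff_union_of_subset hrt', hb]; rfl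
    have hab : a ≠ b := by
      rintro rfl
      exact har.2 (Finset.mem_inter.2 ⟨har.1, hbr.1⟩)
    obtain ⟨a0, b0, -, -, -, hall⟩ := h12b L hf m hL r (hf.mono ht hrt) hi
    have hA := (hall a).1 ⟨har.2, by rw [hta]; exact ht⟩
    have hB := (hall b).1 ⟨hbr.2, by rw [htb]; exact ht'⟩
    have hone : ∀ c, c ∉ r → insert c r ∈ L → c = a ∨ c = b := by
      intro c hc1 hc2
      have hC := (hall c).1 ⟨hc1, hc2⟩
      rcases hA with hA | hA <;> rcases hB with hB | hB <;> rcases hC with hC | hC <;>
        first
          | exact absurd (hA.trans hB.symm) hab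
          | (left; exact hC.trans hA.symm)
          | (right; exact hC.trans hB.symm)
    have hsum : sg a r * z t + sg b r * z t' = 0 := by
      have h1 : bdS L z r = 0 := by rw [hbz]; rfl
      unfold bdS at h1
      have hsub : ({a, b} : Finset ℕ) ⊆ verts L \ r := by
        intro c hc
        rw [Finset.mem_insert, Finset.mem_singleton] at hc
        rw [Finset.mem_sdiff]
        rcases hc with rfl | rfl
        · exact ⟨A1.subset_verts ht har.1, har.2⟩
        · exact ⟨A1.subset_verts ht' hbr.1, hbr.2⟩
      rw [← Finset.sum_subset hsub, Finset.sum_pair hab, hta, htb] at h1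
      · exact h1
      · intro c hc hc2
        rw [Finset.mem_sdiff] at hc
        by_contra hne
        have hzc : z (insert c r) ≠ 0 := fun h => hne (by rw [h, mul_zero])
        have := hone c hc.2 (hzL _ hzc).1
        apply hc2
        rw [Finset.mem_insert, Finset.mem_singleton]
        exact this
    have habs : ∀ x (u : Finset ℕ), |sg x u| = 1 := by
      intro x u
      unfold sg
      rw [abs_pow, abs_neg, abs_one, one_pow]
    have h2 : sg b r * z t' = -(sg a r * z t) := by linarith
    have h3 : |sg b r * z t'| = |sg a r * z t| := by rw [h2, abs_neg]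
    rw [abs_mul, abs_mul, habs, habs, one_mul, one_mul] at h3
    exact h3
  have hall : ∀ t ∈ L, t.card = m + 1 → |z t| = |z t0| :=
    h12a L hf m hL (fun t => |z t| = |z t0|)
      (fun t ht t' ht' hc hc' hi h => hridge t ht t' ht' hc hc' hi h) t0 ht0L.1 ht0L.2 rfl
  have hc0 : 0 < |z t0| := abs_pos.2 ht0
  -- signs
  set zz : Finset ℕ → ℤ := fun t => ((SignType.sign (z t) : SignType) : ℤ) with hzz
  have hzz' : ∀ t, z t = |z t0| * (zz t : ℝ) := by
    intro t
    by_cases h : z t = 0
    · simp [hzz, h]
    · have h1 := hzL t h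
      rw [← hall t h1.1 h1.2, hzz]
      simp only
      rw [SignType.intCast_cast, mul_comm]
      exact (sign_mul_abs _).symm
  have hzz0 : ∀ t, zz t ≠ 0 → z t ≠ 0 := by
    intro t ht h
    apply ht
    simp [hzz, h]
  have hzz1 : ∀ t, z t ≠ 0 → zz t ≠ 0 := by
    intro t ht h
    apply ht
    rw [hzz' t, h]; simp
  have hcyc : ∀ r, ∑ a ∈ verts L \ r, sg a r * (zz (insert a r) : ℝ) = 0 := by
    intro r
    have h1 : bdS L z r = 0 := by rw [hbz]; rfl
    unfold bdS at h1
    have h2 : ∑ a ∈ verts L \ r, sg a r * z (insert a r) =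
        |z t0| * ∑ a ∈ verts L \ r, sg a r * (zz (insert a r) : ℝ) := by
      rw [Finset.mul_sum]
      refine Finset.sum_congr rfl fun a _ => ?_
      rw [hzz' (insert a r)]; ring
    rw [h2] at h1
    exact (mul_eq_zero.1 h1).resolve_left hc0.ne'
  -- the orientation
  set o : (Fin (m + 1) → ℕ) → ℤ := fun s => vs s * zz (Finset.univ.image s) with ho
  have himg : ∀ (s : Fin (m + 1) → ℕ) (e : Equiv.Perm (Fin (m + 1))),
      Finset.univ.image (s ∘ e) = Finset.univ.image s := by
    intro s e
    ext x
    simp only [Finset.mem_image, Finset.mem_univ, true_and, Function.comp]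
    constructor
    · rintro ⟨a, rfl⟩; exact ⟨e a, rfl⟩
    · rintro ⟨a, rfl⟩; exact ⟨e.symm a, by simp⟩
  have hswap : ∀ (s : Fin (m + 1) → ℕ) (i j : Fin (m + 1)), i ≠ j →
      o (s ∘ Equiv.swap i j) = - o s := by
    intro s i j hij
    simp only [ho]
    rw [vs_swap s i j hij, himg, neg_mul]
  have hcons : ∀ g : Fin m → ℕ, ∑ x ∈ verts L, o (Fin.cons x g) = 0 := by
    intro g
    by_cases hg : Function.Injective g
    · set r := Finset.univ.image g with hr
      have h1 : ∑ x ∈ verts L, (o (Fin.cons x g) : ℝ) =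
          (vs g : ℝ) * ∑ a ∈ verts L \ r, sg a r * (zz (insert a r) : ℝ) := by
        rw [Finset.mul_sum, ← Finset.sum_subset (Finset.sdiff_subset : verts L \ r ⊆ verts L)]
        · refine Finset.sum_congr rfl fun x hx => ?_
          rw [Finset.mem_sdiff] at hx
          simp only [ho]
          have h2 : Finset.univ.image (Fin.cons x g : Fin (m + 1) → ℕ) = insert x r := by
            rw [hr]
            ext y
            simp only [Finset.mem_image, Finset.mem_univ, true_and, Finset.mem_insert,
              Fin.exists_fin_succ, Fin.cons_zero, Fin.cons_succ]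
            rw [eq_comm]
          rw [h2, vs_cons]
          push_cast
          have h3 := sign_sg x g hg hx.2
          push_cast at h3
          rw [h3]; ring
        · intro x hx hx2
          have hxr : x ∈ r := by
            by_contra h
            exact hx2 (Finset.mem_sdiff.2 ⟨hx, h⟩)
          rw [hr, Finset.mem_image] at hxr
          obtain ⟨j, -, hj⟩ := hxr
          have hni : ¬ Function.Injective (Fin.cons x g : Fin (m + 1) → ℕ) := by
            intro hinj
            have : (0 : Fin (m + 1)) = j.succ := hinj (by simp [hj])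
            exact absurd this (Fin.succ_ne_zero j).symm
          simp only [ho]
          rw [vs_eq_zero _ hni]; simp
      rw [hcyc r, mul_zero] at h1
      exact_mod_cast h1
    · refine Finset.sum_eq_zero fun x _ => ?_
      simp only [ho]
      rw [vs_cons, vs_eq_zero g hg]; simp
  refine ⟨o, hswap, ?_, ?_, ?_⟩
  · intro s hs
    have h1 : zz (Finset.univ.image s) ≠ 0 := fun h => hs (by simp only [ho]; rw [h, mul_zero])
    exact (hzL _ (hzz0 _ h1)).1
  · intro s hs hsL
    have h1 : (Finset.univ.image s).card = m + 1 := by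
      rw [Finset.card_image_of_injective _ hs]; simp
    refine mul_ne_zero (vs_ne_zero s hs) (hzz1 _ ?_)
    rw [← abs_pos, hall _ hsL h1]
    exact hc0
  · intro s i
    have hz0 : ∀ s : Fin (m + 1) → ℕ, ∑ x ∈ verts L, o (Function.update s 0 x) = 0 := by
      intro s
      rw [← hcons (Fin.tail s)]
      refine Finset.sum_congr rfl fun x _ => ?_
      congr 1
      conv_lhs => rw [← Fin.cons_self_tail s]
      rw [Fin.update_cons_zero]
    by_cases hi : i = 0
    · rw [hi]; exact hz0 s
    · have h1 : ∀ x, o (Function.update s i x) =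
          - o (Function.update (s ∘ Equiv.swap i 0) 0 x) := by
        intro x
        rw [← hswap _ i 0 hi]
        congr 1
        funext k
        simp only [Function.comp, Function.update_apply]
        by_cases hk : k = i
        · subst hk; simp
        · by_cases hk0 : k = 0
          · subst hk0
            simp [hi, Ne.symm hi]
          · rw [Equiv.swap_apply_of_ne_of_ne hk hk0]
            simp [hk, hk0, Equiv.swap_apply_of_ne_of_ne hk hk0]
      rw [Finset.sum_congr rfl fun x _ => h1 x, Finset.sum_neg_distrib, hz0, neg_zero]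

end RA

end MP8a95ee

end

section

/-!
# Facets of a homology sphere are connected through ridges
-/

namespace MP8a95ee

namespace RA

namespace B12a

theorem sg_empty (a : ℕ) : sg a ∅ = 1 := by
  simp [sg]

theorem sg_swap {a v : ℕ} (h : a ≠ v) : sg a {v} = - sg v {a} := by
  unfold sg
  rcases lt_or_gt_of_ne h with h1 | h1
  · rw [Finset.filter_singleton, if_neg (not_lt.2 h1.le), Finset.filter_singleton, if_pos h1]
    simp
  · rw [Finset.filter_singleton, if_pos h1, Finset.filter_singleton, if_neg (not_lt.2 h1.le)]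
    simp

theorem step (h8a : S_B8a) (L : Finset (Finset ℕ)) (hf : FlagC L) (m : ℕ)
    (hS : IsHSphere L (m + 1)) (F : Finset ℕ → Prop) (s : Finset ℕ) (hs : s.card + 1 ≠ m + 1)
    (ih : ∀ t1 ∈ L, ∀ t2 ∈ L, t1.card = m + 1 → t2.card = m + 1 → s.card < (t1 ∩ t2).card →
      F t1 → F t2)
    (t1 : Finset ℕ) (h1 : t1 ∈ L) (h1c : t1.card = m + 1) (t2 : Finset ℕ) (h2 : t2 ∈ L)
    (h2c : t2.card = m + 1) (h12 : t1 ∩ t2 = s) (hF1 : F t1) : F t2 := by
  classical
  by_contra hF2
  have hne : t1 ≠ t2 := by
    rintro rfl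
    exact hF2 hF1
  have hs1 : s ⊆ t1 := h12 ▸ Finset.inter_subset_left
  have hs2 : s ⊆ t2 := h12 ▸ Finset.inter_subset_right
  have hsL : s ∈ L := hf.mono h1 hs1
  have hsc : s.card < m + 1 := by
    rw [← h1c]
    apply Finset.card_lt_card
    refine Finset.ssubset_iff_subset_ne.2 ⟨hs1, ?_⟩
    rintro rfl
    exact hne (Finset.eq_of_subset_of_card_le hs2 (by rw [h2c, h1c]))
  obtain ⟨v1, hv1, hv1s⟩ : ∃ v ∈ t1, v ∉ s := Finset.exists_mem_notMem_of_card_lt_card (by omega)
  obtain ⟨v2, hv2, hv2s⟩ : ∃ v ∈ t2, v ∉ s := Finset.exists_mem_notMem_of_card_lt_card (by omega)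
  have hv1L : v1 ∈ verts L := (verts_mem_iff hf v1).2
    (hf.mono h1 (Finset.singleton_subset_iff.2 hv1))
  have hv2L : v2 ∈ verts L := (verts_mem_iff hf v2).2
    (hf.mono h2 (Finset.singleton_subset_iff.2 hv2))
  set c : Finset ℕ → ℝ := fun t => (if t = {v1} then 1 else 0) - (if t = {v2} then 1 else 0)
    with hc
  have hcl : LkChain L s 1 c := by
    intro t ht
    have : t = {v1} ∨ t = {v2} := by
      by_contra hcon
      push Not at hcon
      apply ht
      rw [hc]
      simp only [if_neg hcon.1, if_neg hcon.2, sub_zero]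
    rcases this with rfl | rfl
    · refine ⟨hf.mono h1 (Finset.singleton_subset_iff.2 hv1),
        Finset.disjoint_singleton_right.2 hv1s, hf.mono h1 ?_, Finset.card_singleton _⟩
      exact Finset.union_subset hs1 (Finset.singleton_subset_iff.2 hv1)
    · refine ⟨hf.mono h2 (Finset.singleton_subset_iff.2 hv2),
        Finset.disjoint_singleton_right.2 hv2s, hf.mono h2 ?_, Finset.card_singleton _⟩
      exact Finset.union_subset hs2 (Finset.singleton_subset_iff.2 hv2)
  have hcb : bdS L c = 0 := by
    funext t
    by_cases ht : t = ∅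
    · subst ht
      unfold bdS
      rw [Finset.sdiff_empty]
      simp only [sg_empty, one_mul, insert_empty_eq, hc, Finset.singleton_inj,
        Finset.sum_sub_distrib, Finset.sum_ite_eq', if_pos hv1L, if_pos hv2L, sub_self,
        Pi.zero_apply]
    · unfold bdS
      refine Finset.sum_eq_zero fun a ha => ?_
      rw [Finset.mem_sdiff] at ha
      have hcd : (insert a t).card ≠ 1 := by
        rw [Finset.card_insert_of_notMem ha.2]
        have := Finset.card_pos.2 (Finset.nonempty_iff_ne_empty.2 ht)
        omega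
      have h3 : c (insert a t) = 0 := by
        by_contra hcon
        exact hcd (hcl _ hcon).2.2.2
      rw [h3, mul_zero]
  obtain ⟨c', hc'l, hc'b⟩ := (hS s hsL).1 1 hs c hcl hcb
  set A : Finset ℕ := (verts L).filter fun v => v ∉ s ∧ insert v s ∈ L ∧
    ∀ t ∈ L, t.card = m + 1 → insert v s ⊆ t → F t with hA
  have hv1A : v1 ∈ A := by
    rw [hA, Finset.mem_filter]
    have h3 : insert v1 s ⊆ t1 := Finset.insert_subset hv1 hs1
    refine ⟨hv1L, hv1s, hf.mono h1 h3, fun t ht htc hst => ?_⟩
    refine ih t1 h1 t ht h1c htc ?_ hF1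
    calc s.card < (insert v1 s).card := by
          rw [Finset.card_insert_of_notMem hv1s]; omega
      _ ≤ (t1 ∩ t).card := Finset.card_le_card (Finset.subset_inter h3 hst)
  have hv2A : v2 ∉ A := by
    rw [hA, Finset.mem_filter]
    rintro ⟨-, -, -, h4⟩
    exact hF2 (h4 t2 h2 h2c (Finset.insert_subset hv2 hs2))
  -- the sum over `A` of the coefficients
  have hsum1 : ∑ v ∈ A, c {v} = 1 := by
    simp only [hc, Finset.singleton_inj, Finset.sum_sub_distrib, Finset.sum_ite_eq',
      if_pos hv1A, if_neg hv2A, sub_zero]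
  have hG : ∀ v ∈ A, c {v} = ∑ a ∈ A, if a = v then 0 else sg a {v} * c' {a, v} := by
    intro v hv
    have hvA := hv
    rw [hA, Finset.mem_filter] at hv
    obtain ⟨hvL, hvs, hvi, hvF⟩ := hv
    rw [← hc'b]
    unfold bdS
    have h3 : ∀ a ∈ verts L \ {v}, a ∉ A → sg a {v} * c' (insert a {v}) = 0 := by
      intro a ha haA
      rw [Finset.mem_sdiff, Finset.mem_singleton] at ha
      by_contra hcon
      have hcn : c' {a, v} ≠ 0 := right_ne_zero_of_mul hcon
      obtain ⟨h4, h5, h6, -⟩ := hc'l _ hcn
      obtain ⟨-, t, htL, hst, htc⟩ := h8a L hf (m + 1) hS _ h6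
      have hav : a ∈ t := hst (Finset.mem_union_right _ (Finset.mem_insert_self _ _))
      have hvt : v ∈ t := hst (Finset.mem_union_right _
        (Finset.mem_insert_of_mem (Finset.mem_singleton_self _)))
      have hst' : s ⊆ t := fun x hx => hst (Finset.mem_union_left _ hx)
      have has : a ∉ s := fun h => Finset.disjoint_left.1 h5 h (Finset.mem_insert_self _ _)
      have hFt : F t := hvF t htL htc (Finset.insert_subset hvt hst')
      apply haA
      rw [hA, Finset.mem_filter]
      refine ⟨ha.1, has, hf.mono htL (Finset.insert_subset hav hst'), fun t' ht' htc' hst2 => ?_⟩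
      refine ih t htL t' ht' htc htc' ?_ hFt
      calc s.card < (insert a s).card := by
            rw [Finset.card_insert_of_notMem has]; omega
        _ ≤ (t ∩ t').card := Finset.card_le_card
            (Finset.subset_inter (Finset.insert_subset hav hst') hst2)
    have h4 : ∑ a ∈ verts L \ {v}, sg a {v} * c' (insert a {v}) =
        ∑ a ∈ A.filter (fun a => a ≠ v), sg a {v} * c' (insert a {v}) := by
      symm
      apply Finset.sum_subset
      · intro a ha
        rw [Finset.mem_filter, hA, Finset.mem_filter] at ha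
        rw [Finset.mem_sdiff, Finset.mem_singleton]
        exact ⟨ha.1.1, ha.2⟩
      · intro a ha haA
        refine h3 a ha fun h => haA ?_
        rw [Finset.mem_sdiff, Finset.mem_singleton] at ha
        exact Finset.mem_filter.2 ⟨h, ha.2⟩
    rw [h4, Finset.sum_filter]
    refine Finset.sum_congr rfl fun a _ => ?_
    by_cases hav : a = v
    · rw [if_pos hav, if_neg (not_not.2 hav)]
    · rw [if_neg hav, if_pos hav]
  have hanti : ∀ v a : ℕ, (if a = v then (0 : ℝ) else sg a {v} * c' {a, v}) =
      - (if v = a then (0 : ℝ) else sg v {a} * c' {v, a}) := by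
    intro v a
    by_cases hav : a = v
    · rw [if_pos hav, if_pos hav.symm, neg_zero]
    · rw [if_neg hav, if_neg (Ne.symm hav), sg_swap hav, Finset.pair_comm]
      ring
  have hsum2 : ∑ v ∈ A, c {v} = 0 := by
    rw [Finset.sum_congr rfl hG]
    have h5 : ∑ v ∈ A, ∑ a ∈ A, (if a = v then (0 : ℝ) else sg a {v} * c' {a, v}) =
        - ∑ v ∈ A, ∑ a ∈ A, (if a = v then (0 : ℝ) else sg a {v} * c' {a, v}) := by
      conv_lhs => rw [Finset.sum_comm]
      rw [← Finset.sum_neg_distrib]
      refine Finset.sum_congr rfl fun v _ => ?_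
      rw [← Finset.sum_neg_distrib]
      exact Finset.sum_congr rfl fun a _ => hanti a v
    linarith
  rw [hsum1] at hsum2
  exact one_ne_zero hsum2

end B12a

theorem itemB12a (h8a : S_B8a) : S_B12a := by
  classical
  intro L hf m hS F hF t0 h0 h0c hF0
  have key : ∀ j : ℕ, ∀ t1 ∈ L, ∀ t2 ∈ L, t1.card = m + 1 → t2.card = m + 1 →
      m + 1 ≤ (t1 ∩ t2).card + j → F t1 → F t2 := by
    intro j
    induction j with
    | zero =>
      intro t1 h1 t2 h2 h1c h2c h3 hF1
      have h4 : t1 ∩ t2 = t1 := Finset.eq_of_subset_of_card_le Finset.inter_subset_left (by omega)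
      have h5 : t1 ∩ t2 = t2 := Finset.eq_of_subset_of_card_le Finset.inter_subset_right (by omega)
      rw [← h5, h4]
      exact hF1
    | succ j ih =>
      intro t1 h1 t2 h2 h1c h2c h3 hF1
      by_cases hlt : m + 1 ≤ (t1 ∩ t2).card + j
      · exact ih t1 h1 t2 h2 h1c h2c hlt hF1
      · by_cases hm : (t1 ∩ t2).card = m
        · exact hF t1 h1 t2 h2 h1c h2c hm hF1
        · refine B12a.step h8a L hf m hS F (t1 ∩ t2) (by omega) ?_ t1 h1 h1c t2 h2 h2c rfl hF1
          intro u1 hu1 u2 hu2 hu1c hu2c hcard hFu
          exact ih u1 hu1 u2 hu2 hu1c hu2c (by omega) hFu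
  intro t ht htc
  exact key (m + 1) t0 h0 t ht h0c htc (by omega) hF0

end RA

end MP8a95ee

end

section

/-!
# Item B8d: moving a filling to the top size
-/

namespace MP8a95ee

namespace RA

private lemma b8d_dD_add (L : Finset (Finset ℕ)) {N : Type} [AddCommGroup N] [Module ℝ N]
    (e : ℕ → N →ₗ[ℝ] N) (x z : Finset ℕ → Finset ℕ → N) :
    dD L e (fun s u => x s u + z s u) = fun s u => dD L e x s u + dD L e z s u := by
  funext s u
  unfold dD
  by_cases h : Disjoint s u
  · rw [if_pos h, if_pos h, if_pos h]
    simp only [map_add, smul_add, Finset.sum_add_distrib]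
    abel
  · rw [if_neg h, if_neg h, if_neg h, add_zero]

private lemma b8d_level (L : Finset (Finset ℕ)) {N : Type} [AddCommGroup N] [Module ℝ N]
    (e : ℕ → N →ₗ[ℝ] N) (y : Finset ℕ → Finset ℕ → N) (q : ℕ)
    (hy : ∀ s u, y s u ≠ 0 → (s ∪ u).card = q + 1) (s u : Finset ℕ) (hsu : (s ∪ u).card ≤ q)
    (hd : Disjoint s u) : dD L e y s u = - bdN L s (y s) u := by
  unfold dD bdN
  rw [if_pos hd]
  have h1 : ∑ a ∈ s, sg a u • e a (y (s.erase a) (insert a u)) = 0 := by
    apply Finset.sum_eq_zero
    intro a ha
    have h2 : y (s.erase a) (insert a u) = 0 := by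
      by_contra hne
      have h3 := hy _ _ hne
      have h4 : s.erase a ∪ insert a u = s ∪ u := by
        ext b
        simp only [Finset.mem_union, Finset.mem_erase, Finset.mem_insert]
        constructor
        · rintro (h | h | h)
          · exact Or.inl h.2
          · exact Or.inl (h ▸ ha)
          · exact Or.inr h
        · rintro (h | h)
          · by_cases hb : b = a
            · exact Or.inr (Or.inl hb)
            · exact Or.inl ⟨hb, h⟩
          · exact Or.inr (Or.inr h)
      rw [h4] at h3
      omega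
    rw [h2, map_zero, smul_zero]
  rw [h1, zero_sub]

theorem itemB8d (h1 : S_B1) (h8a : S_B8a) (h8b : S_B8b) : S_B8d := by
  intro L hL n hH N _ _ e he x hx hdx
  have down : ∀ s t : Finset ℕ, s ⊆ t → t ∈ L → s ∈ L := fun s t hst ht =>
    (hL s).2 fun a ha b hb => (hL t).1 ht a (hst ha) b (hst hb)
  have hverts : ∀ s ∈ L, s ⊆ verts L := fun s hs a ha => by
    unfold verts
    exact Finset.mem_biUnion.2 ⟨s, hs, ha⟩
  have key : ∀ q ≤ n, ∃ x' : Finset ℕ → Finset ℕ → N, IsDD L e (verts L) x' ∧
      dD L e x' = dD L e x ∧ ∀ s u, (s ∪ u).card < q → x' s u = 0 := by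
    intro q
    induction q with
    | zero => intro _; exact ⟨x, hx, rfl, fun s u h => absurd h (Nat.not_lt_zero _)⟩
    | succ q ih =>
      intro hq
      obtain ⟨x', hx', hdx', hlow⟩ := ih (by omega)
      have hex : ∀ s : Finset ℕ, ∃ y : Finset ℕ → N,
          (∀ u, (y u ≠ 0 → Disjoint s u ∧ s ∪ u ∈ L ∧ (s ∪ u).card = q + 1) ∧ y u ∈ Es e s) ∧
          ∀ u, Disjoint s u → (s ∪ u).card = q → bdN L s y u = x' s u := by
        intro s
        by_cases hs : s ∈ L ∧ s.card ≤ q
        · obtain ⟨hsL, hsq⟩ := hs
          obtain ⟨k, hk⟩ := Nat.exists_eq_add_of_le hsq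
          set xs : Finset ℕ → N := fun u => if (s ∪ u).card = q then x' s u else 0 with hxs
          have hne : ∀ u, xs u ≠ 0 → (s ∪ u).card = q ∧ x' s u ≠ 0 := by
            intro u hu
            rw [hxs] at hu
            simp only at hu
            split_ifs at hu with hc
            · exact ⟨hc, hu⟩
            · exact absurd rfl hu
          have hlk : LkN L (Es e s) s k xs := by
            intro u
            refine ⟨fun hu => ?_, ?_⟩
            · obtain ⟨hc, hu'⟩ := hne u hu
              obtain ⟨h2, h3, h4⟩ := (hx' s u).1 hu'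
              refine ⟨down _ _ Finset.subset_union_right h3, h2, h3, ?_⟩
              rw [Finset.card_union_of_disjoint h2] at hc
              omega
            · rw [hxs]
              simp only
              split_ifs
              · exact (hx' s u).2
              · exact Submodule.zero_mem _
          have hbd : bdN L s xs = 0 := by
            funext u
            rw [Pi.zero_apply]
            by_cases hd : Disjoint s u
            · by_cases hc : (s ∪ u).card + 1 = q
              · have h2 : dD L e x' s u = 0 := by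
                  rw [hdx']
                  by_contra hcon
                  have := hdx s u hcon
                  omega
                have h3 : bdN L s xs u = bdN L s (x' s) u := by
                  unfold bdN
                  apply Finset.sum_congr rfl
                  intro a ha
                  have ha' : a ∉ s ∪ u := (Finset.mem_sdiff.1 ha).2
                  have h4 : (s ∪ insert a u).card = q := by
                    rw [Finset.union_insert, Finset.card_insert_of_notMem ha']
                    exact hc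
                  rw [hxs]
                  simp only [h4, if_true]
                rw [h3]
                have h5 : dD L e x' s u = - bdN L s (x' s) u := by
                  unfold dD bdN
                  rw [if_pos hd]
                  have h6 : ∑ a ∈ s, sg a u • e a (x' (s.erase a) (insert a u)) = 0 := by
                    apply Finset.sum_eq_zero
                    intro a ha
                    have h7 : x' (s.erase a) (insert a u) = 0 := by
                      apply hlow
                      have h8 : s.erase a ∪ insert a u ⊆ s ∪ u := by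
                        intro b hb
                        simp only [Finset.mem_union, Finset.mem_erase, Finset.mem_insert] at hb ⊢
                        rcases hb with h | h | h
                        · exact Or.inl h.2
                        · exact Or.inl (h ▸ ha)
                        · exact Or.inr h
                      have := Finset.card_le_card h8
                      omega
                    rw [h7, map_zero, smul_zero]
                  rw [h6, zero_sub]
                rw [h2] at h5
                exact (neg_eq_zero.1 h5.symm)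
              · unfold bdN
                apply Finset.sum_eq_zero
                intro a ha
                have ha' : a ∉ s ∪ u := (Finset.mem_sdiff.1 ha).2
                have h4 : (s ∪ insert a u).card = (s ∪ u).card + 1 := by
                  rw [Finset.union_insert, Finset.card_insert_of_notMem ha']
                rw [hxs]
                simp only [h4, if_neg hc, smul_zero]
            · unfold bdN
              apply Finset.sum_eq_zero
              intro a ha
              have h4 : xs (insert a u) = 0 := by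
                by_contra hcon
                have h5 := ((hx' s (insert a u)).1 (hne _ hcon).2).1
                exact hd (Finset.disjoint_of_subset_right (Finset.subset_insert a u) h5)
              rw [h4, smul_zero]
          obtain ⟨y, hy1, hy2⟩ := h8b L hL n hH N (Es e s) s hsL k (by omega) xs hlk hbd
          refine ⟨y, fun u => ⟨fun hu => ?_, (hy1 u).2⟩, ?_⟩
          · obtain ⟨h2, h3, h4, h5⟩ := (hy1 u).1 hu
            refine ⟨h3, h4, ?_⟩
            rw [Finset.card_union_of_disjoint h3]
            omega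
          · intro u _ hc
            rw [hy2, hxs]
            simp only [hc, if_true]
        · refine ⟨fun _ => 0, fun u => ⟨fun h => absurd rfl h, Submodule.zero_mem _⟩, ?_⟩
          intro u hd hc
          have h2 : bdN L s (fun _ => (0 : N)) u = 0 := by
            unfold bdN
            simp
          rw [h2]
          by_contra hcon
          have h3 := ((hx' s u).1 (Ne.symm hcon)).2.1
          apply hs
          refine ⟨down _ _ Finset.subset_union_left h3, ?_⟩
          rw [← hc]
          exact Finset.card_le_card Finset.subset_union_left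
      choose y hy1 hy2 using hex
      have hyDD : IsDD L e (verts L) y := by
        intro s u
        refine ⟨fun hu => ?_, (hy1 s u).2⟩
        obtain ⟨h2, h3, _⟩ := (hy1 s u).1 hu
        exact ⟨h2, h3, hverts _ h3⟩
      obtain ⟨hB1, hB2⟩ := h1 L hL N e he (verts L) y hyDD
      refine ⟨fun s u => x' s u + dD L e y s u, ?_, ?_, ?_⟩
      · intro s u
        refine ⟨fun hu => ?_, Submodule.add_mem _ (hx' s u).2 (hB1 s u).2⟩
        by_cases h2 : x' s u = 0
        · by_cases h3 : dD L e y s u = 0
          · exact absurd (show x' s u + dD L e y s u = 0 by rw [h2, h3, add_zero]) hu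
          · exact (hB1 s u).1 h3
        · exact (hx' s u).1 h2
      · rw [b8d_dD_add, hB2, hdx']
        funext s u
        simp
      · intro s u hlt
        have hyl : ∀ s u, y s u ≠ 0 → (s ∪ u).card = q + 1 := fun s u h => ((hy1 s u).1 h).2.2
        show x' s u + dD L e y s u = 0
        by_cases hd : Disjoint s u
        · rw [b8d_level L e y q hyl s u (by omega) hd]
          rcases Nat.lt_or_ge (s ∪ u).card q with hc | hc
          · rw [hlow s u hc, zero_add, neg_eq_zero]
            unfold bdN
            apply Finset.sum_eq_zero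
            intro a ha
            have ha' : a ∉ s ∪ u := (Finset.mem_sdiff.1 ha).2
            have h4 : (s ∪ insert a u).card = (s ∪ u).card + 1 := by
              rw [Finset.union_insert, Finset.card_insert_of_notMem ha']
            have h5 : y s (insert a u) = 0 := by
              by_contra hcon
              have := hyl _ _ hcon
              omega
            rw [h5, smul_zero]
          · rw [hy2 s u hd (by omega), add_neg_cancel]
        · have h2 : x' s u = 0 := by
            by_contra hcon
            exact hd ((hx' s u).1 hcon).1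
          rw [h2, zero_add]
          unfold dD
          rw [if_neg hd]
  obtain ⟨x', hx', hdx', hlow⟩ := key n le_rfl
  refine ⟨x', hx', hdx', fun s u hne => ?_⟩
  have h2 := ((hx' s u).1 hne).2.1
  have h3 := (h8a L hL n hH _ h2).1
  by_contra hcon
  exact hne (hlow s u (lt_of_le_of_ne h3 hcon))

end RA

end MP8a95ee

end

section

/-!
# A ridge of a homology sphere is in exactly two facets
-/

namespace MP8a95ee

namespace RA

theorem bdS_one_empty {L : Finset (Finset ℕ)} (w : Finset ℕ → ℝ) :
    bdS L w ∅ = ∑ a ∈ verts L, w {a} := by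
  unfold bdS
  rw [Finset.sdiff_empty]
  refine Finset.sum_congr rfl fun a _ => ?_
  simp [sg]

theorem bdS_one_ne {L : Finset (Finset ℕ)} {w : Finset ℕ → ℝ}
    (hw : ∀ t, w t ≠ 0 → t.card = 1) {t : Finset ℕ} (ht : t ≠ ∅) : bdS L w t = 0 := by
  unfold bdS
  refine Finset.sum_eq_zero fun a ha => ?_
  by_cases h : w (insert a t) = 0
  · rw [h, mul_zero]
  · exfalso
    have h1 := hw _ h
    rw [Finset.card_insert_of_notMem (Finset.mem_sdiff.1 ha).2] at h1
    exact ht (Finset.card_eq_zero.1 (by omega))

theorem itemB12b (h8a : S_B8a) : S_B12b := by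
  intro L hf m hH r hr hrm
  -- chains of size 2 vanish
  have h2 : ∀ c' : Finset ℕ → ℝ, LkChain L r (1 + 1) c' → c' = 0 := by
    intro c' hc'
    funext t
    by_contra h
    obtain ⟨h3, h4, h5, h6⟩ := hc' t h
    have h7 := (h8a L hf (m + 1) hH _ h5).1
    rw [Finset.card_union_of_disjoint h4, hrm, h6] at h7
    omega
  obtain ⟨z, hz, hbz, hzn, hzt⟩ := (hH r hr).2 1 (by omega)
  have hb0 : bdS L (0 : Finset ℕ → ℝ) = 0 := by
    funext t
    unfold bdS
    simp
  -- `z` is not zero
  have hz0 : z ≠ 0 := by
    rintro rfl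
    exact hzn ⟨0, fun t ht => absurd rfl ht, hb0⟩
  have hsing : ∀ t, z t ≠ 0 → ∃ a, t = {a} ∧ a ∉ r ∧ insert a r ∈ L ∧ a ∈ verts L := by
    intro t ht
    obtain ⟨h3, h4, h5, h6⟩ := hz t ht
    obtain ⟨a, rfl⟩ := Finset.card_eq_one.1 h6
    refine ⟨a, rfl, ?_, ?_, ?_⟩
    · exact Finset.disjoint_singleton_right.1 h4
    · rwa [Finset.union_comm, ← Finset.insert_eq] at h5
    · exact (verts_mem_iff hf a).2 h3
  obtain ⟨t, ht⟩ : ∃ t, z t ≠ 0 := by
    by_contra h
    push Not at h
    exact hz0 (funext h)
  obtain ⟨a, rfl, har, haL, hav⟩ := hsing t ht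
  have hsum : ∑ x ∈ verts L, z {x} = 0 := by
    rw [← bdS_one_empty, hbz]
    rfl
  obtain ⟨b, hbv, hba, hzb⟩ : ∃ b ∈ verts L, b ≠ a ∧ z {b} ≠ 0 := by
    by_contra h
    push Not at h
    rw [Finset.sum_eq_single a (fun x hx hxa => h x hx hxa) (fun h => absurd hav h)] at hsum
    exact ht hsum
  obtain ⟨b', hb', hbr, hbL, -⟩ := hsing {b} hzb
  rw [Finset.singleton_inj] at hb'
  subst hb'
  refine ⟨a, b, hba.symm, har, hbr, fun c => ⟨?_, ?_⟩⟩
  · rintro ⟨hcr, hcL⟩
    by_contra hcc
    push Not at hcc
    obtain ⟨hca, hcb⟩ := hcc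
    have hcS : ({c} : Finset ℕ) ∈ L :=
      hf.mono hcL (Finset.singleton_subset_iff.2 (Finset.mem_insert_self _ _))
    have haS : ({a} : Finset ℕ) ∈ L :=
      hf.mono haL (Finset.singleton_subset_iff.2 (Finset.mem_insert_self _ _))
    have hcv : c ∈ verts L := (verts_mem_iff hf c).2 hcS
    set w : Finset ℕ → ℝ := fun t => if t = {a} then 1 else if t = {c} then -1 else 0 with hw
    have hwc : LkChain L r 1 w := by
      intro t ht
      by_cases h1 : t = {a}
      · subst h1
        refine ⟨haS, Finset.disjoint_singleton_right.2 har, ?_, Finset.card_singleton _⟩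
        rwa [Finset.union_comm, ← Finset.insert_eq]
      · by_cases h3 : t = {c}
        · subst h3
          refine ⟨hcS, Finset.disjoint_singleton_right.2 hcr, ?_, Finset.card_singleton _⟩
          rwa [Finset.union_comm, ← Finset.insert_eq]
        · exact absurd (by simp [hw, h1, h3]) ht
    have hbw : bdS L w = 0 := by
      funext t
      by_cases h1 : t = ∅
      · subst h1
        rw [bdS_one_empty, Pi.zero_apply]
        have h3 : ∀ x ∈ verts L, w {x} = (if x = a then (1 : ℝ) else 0) + if x = c then -1 else 0 := by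
          intro x _
          simp only [hw, Finset.singleton_inj]
          by_cases h4 : x = a
          · subst h4
            rw [if_pos rfl, if_pos rfl, if_neg (Ne.symm hca), add_zero]
          · rw [if_neg h4, if_neg h4, zero_add]
        rw [Finset.sum_congr rfl h3, Finset.sum_add_distrib, Finset.sum_ite_eq', Finset.sum_ite_eq',
          if_pos hav, if_pos hcv]
        norm_num
      · exact bdS_one_ne (fun t ht => (hwc t ht).2.2.2) h1
    obtain ⟨lam, c', hc', hcc'⟩ := hzt w hwc hbw
    rw [h2 c' hc', hb0, add_zero] at hcc'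
    have e1 := congrFun hcc' {b}
    have e2 := congrFun hcc' {a}
    simp only [hw, Pi.smul_apply, smul_eq_mul, Finset.singleton_inj, if_neg hba,
      if_neg (Ne.symm hcb)] at e1
    simp only [hw, Pi.smul_apply, smul_eq_mul, if_true] at e2
    have e3 : lam = 0 := by
      rcases mul_eq_zero.1 e1.symm with h | h
      · exact h
      · exact absurd h hzb
    rw [e3, zero_mul] at e2
    norm_num at e2
  · rintro (rfl | rfl)
    · exact ⟨har, haL⟩
    · exact ⟨hbr, hbL⟩

end RA

end MP8a95ee

end

section

/-!
# B1, B2: the squares of the differentials vanish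
-/

namespace MP8a95ee

namespace RA

theorem itemB1 : S_B1 := by
  intro L hf N _ _ e he X x hx
  have hsupp : ∀ s u, x s u ≠ 0 → Disjoint s u ∧ s ∪ u ∈ L ∧ s ∪ u ⊆ X := fun s u => (hx s u).1
  have hfix : ∀ s u, ∀ a ∈ s, e a (x s u) = x s u := fun s u => (hx s u).2
  have hcl : ∀ s u, dD L e x s u ≠ 0 → Disjoint s u ∧ s ∪ u ∈ L ∧ s ∪ u ⊆ X := by
    intro s u h
    by_cases hd : Disjoint s u
    swap
    · rw [h61_dDneg e x hd] at h
      exact absurd rfl h
    refine ⟨hd, ?_⟩
    by_contra hcon
    apply h
    rw [h61_dDpos e x hd]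
    have h1 : ∑ a ∈ s, sg a u • e a (x (s.erase a) (insert a u)) = 0 := by
      refine Finset.sum_eq_zero fun a ha => ?_
      by_cases h0 : x (s.erase a) (insert a u) = 0
      · rw [h0, map_zero, smul_zero]
      · have h3 := (hsupp _ _ h0).2
        rw [h61_eui ha] at h3
        exact absurd h3 hcon
    have h2 : ∑ a ∈ verts L \ (s ∪ u), sg a u • x s (insert a u) = 0 := by
      refine Finset.sum_eq_zero fun a ha => ?_
      by_cases h0 : x s (insert a u) = 0
      · rw [h0, smul_zero]
      · have h3 := (hsupp _ _ h0).2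
        rw [Finset.union_insert] at h3
        exact absurd ⟨hf.mono h3.1 (Finset.subset_insert _ _),
          (Finset.subset_insert _ _).trans h3.2⟩ hcon
    rw [h1, h2, sub_zero]
  refine ⟨?_, ?_⟩
  · intro s u
    refine ⟨hcl s u, ?_⟩
    intro b hb
    by_cases hne : dD L e x s u = 0
    · rw [hne, map_zero]
    obtain ⟨hd, hL, -⟩ := hcl s u hne
    rw [h61_dDpos e _ hd, map_sub, map_sum, map_sum]
    congr 1
    · refine Finset.sum_congr rfl fun a ha => ?_
      rw [map_smul]
      congr 1
      by_cases hab : b = a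
      · rw [hab, he.idem]
      · rw [he.comm b a (adj_of_mem hf hL (Finset.mem_union_left _ hb)
          (Finset.mem_union_left _ ha) hab), hfix _ _ b (Finset.mem_erase.2 ⟨hab, hb⟩)]
    · refine Finset.sum_congr rfl fun a _ => ?_
      rw [map_smul, hfix _ _ b hb]
  · funext s u
    change dD L e (dD L e x) s u = 0
    by_cases hd : Disjoint s u
    swap
    · exact h61_dDneg e _ hd
    rw [h61_dDpos e _ hd]
    have hA : ∀ a ∈ s, sg a u • e a (dD L e x (s.erase a) (insert a u)) =
        (∑ b ∈ s.erase a, (sg a u * sg b (insert a u)) •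
          e a (e b (x ((s.erase a).erase b) (insert b (insert a u))))) -
        ∑ b ∈ verts L \ (s ∪ u), (sg a u * sg b (insert a u)) •
          e a (x (s.erase a) (insert b (insert a u))) := by
      intro a ha
      rw [h61_dDpos e _ (h61_dei hd), map_sub, map_sum, map_sum, smul_sub,
        Finset.smul_sum, Finset.smul_sum, h61_eui ha]
      congr 1
      · refine Finset.sum_congr rfl fun b _ => ?_
        rw [map_smul, smul_smul]
      · refine Finset.sum_congr rfl fun b _ => ?_
        rw [map_smul, smul_smul]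
    have hB : ∀ a ∈ verts L \ (s ∪ u), sg a u • dD L e x s (insert a u) =
        (∑ b ∈ s, (sg a u * sg b (insert a u)) •
          e b (x (s.erase b) (insert b (insert a u)))) -
        ∑ b ∈ (verts L \ (s ∪ u)).erase a, (sg a u * sg b (insert a u)) •
          x s (insert b (insert a u)) := by
      intro a ha
      obtain ⟨has, hau⟩ := h61_out ha
      rw [h61_dDpos e _ (h61_di hd has), smul_sub, Finset.smul_sum, Finset.smul_sum]
      have hset : verts L \ (s ∪ insert a u) = (verts L \ (s ∪ u)).erase a := by
        ext b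
        simp only [Finset.mem_sdiff, Finset.mem_union, Finset.mem_insert, Finset.mem_erase]
        tauto
      rw [hset]
      congr 1
      · refine Finset.sum_congr rfl fun b _ => ?_
        rw [smul_smul]
      · refine Finset.sum_congr rfl fun b _ => ?_
        rw [smul_smul]
    rw [Finset.sum_congr rfl hA, Finset.sum_congr rfl hB, Finset.sum_sub_distrib,
      Finset.sum_sub_distrib]
    have h1 : ∑ a ∈ s, ∑ b ∈ s.erase a, (sg a u * sg b (insert a u)) •
          e a (e b (x ((s.erase a).erase b) (insert b (insert a u)))) = 0 := by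
      refine h61_anti s _ fun a ha b hb hab => ?_
      have hau : a ∉ u := fun h => (Finset.disjoint_left.1 hd ha) h
      have hbu : b ∉ u := fun h => (Finset.disjoint_left.1 hd hb) h
      rw [h61_sign3 hau hbu hab, neg_smul, Finset.erase_right_comm (a := a) (b := b),
        Finset.insert_comm b a u]
      congr 2
      by_cases h0 : x ((s.erase b).erase a) (insert a (insert b u)) = 0
      · rw [h0]
        simp
      · have h3 := (hsupp _ _ h0).2.1
        refine he.comm a b (adj_of_mem hf h3 ?_ ?_ hab) _
        · simp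
        · simp
    have h2 : ∑ a ∈ verts L \ (s ∪ u), ∑ b ∈ (verts L \ (s ∪ u)).erase a,
        (sg a u * sg b (insert a u)) • x s (insert b (insert a u)) = 0 := by
      refine h61_anti _ _ fun a ha b hb hab => ?_
      rw [h61_sign3 (h61_out ha).2 (h61_out hb).2 hab, neg_smul,
        Finset.insert_comm b a u]
    have h3 : ∑ a ∈ verts L \ (s ∪ u), ∑ b ∈ s, (sg a u * sg b (insert a u)) •
          e b (x (s.erase b) (insert b (insert a u))) =
        -∑ a ∈ s, ∑ b ∈ verts L \ (s ∪ u), (sg a u * sg b (insert a u)) •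
          e a (x (s.erase a) (insert b (insert a u))) := by
      rw [Finset.sum_comm, ← Finset.sum_neg_distrib]
      refine Finset.sum_congr rfl fun a ha => ?_
      rw [← Finset.sum_neg_distrib]
      refine Finset.sum_congr rfl fun b hb => ?_
      obtain ⟨hbs, hbu⟩ := h61_out hb
      have hau : a ∉ u := fun h => (Finset.disjoint_left.1 hd ha) h
      have hne : b ≠ a := fun h => hbs (h ▸ ha)
      rw [h61_sign3 hbu hau hne, neg_smul, Finset.insert_comm b a u]
    rw [h1, h2, h3]
    simp

end RA

end MP8a95ee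

end

section

/-!
# B2: the square of the coboundary vanishes
-/

namespace MP8a95ee

namespace RA

theorem itemB2 : S_B2 := by
  intro L hf N _ _ e he φ hφ
  have hfix : ∀ s, ∀ a ∈ s, e a (φ s) = φ s := fun s => (hφ s).2
  refine ⟨?_, ?_⟩
  · intro s
    by_cases hs : s ∈ L
    · refine ⟨fun _ => hs, ?_⟩
      intro b hb
      unfold dC
      rw [if_pos hs, map_sum]
      refine Finset.sum_congr rfl fun a ha => ?_
      rw [map_smul]
      congr 1
      by_cases hab : b = a
      · rw [hab, he.idem]
      · rw [he.comm b a (adj_of_mem hf hs hb ha hab),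
          hfix _ b (Finset.mem_erase.2 ⟨hab, hb⟩)]
    · have h0 : dC L e φ s = 0 := by
        unfold dC
        rw [if_neg hs]
      refine ⟨fun h => absurd h0 h, ?_⟩
      rw [h0]
      exact Submodule.zero_mem _
  · funext s
    change dC L e (dC L e φ) s = 0
    by_cases hs : s ∈ L
    swap
    · unfold dC
      rw [if_neg hs]
    have h1 : dC L e (dC L e φ) s = ∑ a ∈ s, ∑ b ∈ s.erase a,
        (sg a (s.erase a) * sg b ((s.erase a).erase b)) •
          e a (e b (φ ((s.erase a).erase b))) := by
      have h2 : dC L e (dC L e φ) s = ∑ a ∈ s, sg a (s.erase a) •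
          e a (dC L e φ (s.erase a)) := by
        conv_lhs => unfold dC
        rw [if_pos hs]
        rfl
      rw [h2]
      refine Finset.sum_congr rfl fun a _ => ?_
      have h3 : dC L e φ (s.erase a) = ∑ b ∈ s.erase a, sg b ((s.erase a).erase b) •
          e b (φ ((s.erase a).erase b)) := by
        unfold dC
        rw [if_pos (hf.mono hs (Finset.erase_subset _ _))]
      rw [h3, map_sum, Finset.smul_sum]
      refine Finset.sum_congr rfl fun b _ => ?_
      rw [map_smul, smul_smul]
    rw [h1]
    refine h61_anti s _ fun a ha b hb hab => ?_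
    have e1 : s.erase a = insert b ((s.erase a).erase b) :=
      (Finset.insert_erase (Finset.mem_erase.2 ⟨hab.symm, hb⟩)).symm
    have e2 : s.erase b = insert a ((s.erase a).erase b) := by
      rw [Finset.erase_right_comm]
      exact (Finset.insert_erase (Finset.mem_erase.2 ⟨hab, ha⟩)).symm
    have h4 : sg a (s.erase a) * sg b ((s.erase a).erase b) =
        -(sg b (s.erase b) * sg a ((s.erase b).erase a)) := by
      rw [Finset.erase_right_comm (a := b) (b := a), e2]
      conv_lhs => rw [e1]
      rw [Finset.erase_insert (Finset.notMem_erase b _)]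
      exact sg_anti (fun h => (Finset.mem_erase.1 (Finset.mem_of_mem_erase h)).1 rfl)
        (Finset.notMem_erase b _) hab
    rw [h4, neg_smul, Finset.erase_right_comm (a := b) (b := a),
      he.comm a b (adj_of_mem hf hs ha hb hab)]

end RA

end MP8a95ee

end

section

/-!
# B3: the cap product with a cocycle is a chain map
-/

namespace MP8a95ee

namespace RA

/-- the first half of the differential of a cap product -/
theorem h61_capfirst {N : Type} [AddCommGroup N] [Module ℝ N] (e : ℕ → N →ₗ[ℝ] N)
    (c : Finset ℕ → ℝ) (φ : Finset ℕ → N) (s u : Finset ℕ) (hd : Disjoint s u) :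
    ∑ a ∈ s, sg a u • e a (capU φ c (s.erase a) (insert a u)) =
      ((-1 : ℝ) ^ (s.card * (u.card + 1)) * ((-1) ^ (s.card - 1) * (sgg s u * c (s ∪ u)))) •
        ∑ a ∈ s, sg a (s.erase a) • e a (φ (s.erase a)) := by
  rw [Finset.smul_sum]
  refine Finset.sum_congr rfl fun a ha => ?_
  have hau : a ∉ u := fun h => (Finset.disjoint_left.1 hd ha) h
  have h1 : capU φ c (s.erase a) (insert a u) =
      ((-1 : ℝ) ^ (s.card * (u.card + 1)) * sgg (s.erase a) (insert a u) * c (s ∪ u)) •
        φ (s.erase a) := by
    unfold capU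
    rw [if_pos (h61_dei hd), h61_eui ha, Finset.card_erase_of_mem ha,
      Finset.card_insert_of_notMem hau,
      Nat.sub_add_cancel (Finset.card_pos.2 ⟨a, ha⟩)]
  rw [h1, map_smul, smul_smul, smul_smul]
  congr 1
  have h2 := h61_sign1 ha hd
  calc sg a u * ((-1 : ℝ) ^ (s.card * (u.card + 1)) * sgg (s.erase a) (insert a u) * c (s ∪ u))
      = (-1 : ℝ) ^ (s.card * (u.card + 1)) * (sg a u * sgg (s.erase a) (insert a u)) *
        c (s ∪ u) := by ring
    _ = _ := by rw [h2]; ring

theorem itemB3 : S_B3 := by
  intro L hf N _ _ e he φ hφ hdφ X c hc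
  have hcL : ∀ t, c t ≠ 0 → t ∈ L := fun t h => (hc t h).1
  refine ⟨?_, ?_⟩
  · intro s u
    unfold capU
    by_cases hd : Disjoint s u
    · rw [if_pos hd]
      refine ⟨?_, Submodule.smul_mem _ _ (hφ s).2⟩
      intro h
      have h1 : c (s ∪ u) ≠ 0 := by
        intro h0
        apply h
        rw [h0, mul_zero, zero_smul]
      exact ⟨hd, (hc _ h1).1, (hc _ h1).2⟩
    · rw [if_neg hd]
      exact ⟨fun h => absurd rfl h, Submodule.zero_mem _⟩
  · funext s u
    by_cases hd : Disjoint s u
    swap
    · rw [h61_dDneg e _ hd]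
      unfold capU
      rw [if_neg hd]
    rw [h61_dDpos e _ hd, h61_capfirst e c φ s u hd]
    have h1 : ((-1 : ℝ) ^ (s.card * (u.card + 1)) *
        ((-1) ^ (s.card - 1) * (sgg s u * c (s ∪ u)))) •
        ∑ a ∈ s, sg a (s.erase a) • e a (φ (s.erase a)) = 0 := by
      by_cases h : c (s ∪ u) = 0
      · rw [h, mul_zero, mul_zero, mul_zero, zero_smul]
      · have hs : s ∈ L := hf.mono (hcL _ h) Finset.subset_union_left
        have h2 := congrFun hdφ s
        unfold dC at h2
        rw [if_pos hs] at h2
        rw [h2]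
        exact smul_zero _
    have h2 : ∑ a ∈ verts L \ (s ∪ u), sg a u • capU φ c s (insert a u) =
        -capU φ (bdS L c) s u := by
      have h3 : capU φ (bdS L c) s u =
          ((-1 : ℝ) ^ ((s.card + 1) * u.card) * sgg s u * bdS L c (s ∪ u)) • φ s := by
        unfold capU
        rw [if_pos hd]
      rw [h3, ← neg_smul]
      unfold bdS
      rw [Finset.mul_sum, ← Finset.sum_neg_distrib, Finset.sum_smul]
      refine Finset.sum_congr rfl fun a ha => ?_
      obtain ⟨has, hau⟩ := h61_out ha
      have h4 : capU φ c s (insert a u) = ((-1 : ℝ) ^ ((s.card + 1) * (u.card + 1)) *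
          sgg s (insert a u) * c (insert a (s ∪ u))) • φ s := by
        unfold capU
        rw [if_pos (h61_di hd has), Finset.union_insert, Finset.card_insert_of_notMem hau]
      rw [h4, smul_smul]
      congr 1
      have h5 := h61_sign2 has hau hd
      have h6 : (-1 : ℝ) ^ ((s.card + 1) * (u.card + 1)) * (-1) ^ s.card =
          -(-1 : ℝ) ^ ((s.card + 1) * u.card) := by
        rw [mul_add, mul_one, pow_add, pow_succ (-1 : ℝ) s.card]
        have h7 : (-1 : ℝ) ^ s.card * (-1) ^ s.card = 1 := by
          rw [← pow_add, ← two_mul, pow_mul]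
          norm_num
        linear_combination (-(-1 : ℝ) ^ ((s.card + 1) * u.card)) * h7
      calc sg a u * ((-1 : ℝ) ^ ((s.card + 1) * (u.card + 1)) * sgg s (insert a u) *
            c (insert a (s ∪ u)))
          = (-1 : ℝ) ^ ((s.card + 1) * (u.card + 1)) * (sg a u * sgg s (insert a u)) *
            c (insert a (s ∪ u)) := by ring
        _ = ((-1 : ℝ) ^ ((s.card + 1) * (u.card + 1)) * (-1) ^ s.card) *
            (sg a (s ∪ u) * sgg s u) * c (insert a (s ∪ u)) := by rw [h5]; ring
        _ = _ := by rw [h6]; ring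
    rw [h1, h2]
    simp

end RA

end MP8a95ee

end

section

/-!
# Part II without hypotheses, and the theorem for right-angled Coxeter manifolds
-/

set_option autoImplicit false

namespace MP8a95ee

namespace RA

theorem all8 : S_B8 :=
  itemB8 itemB8a (itemB8c itemB8a) (itemB8d itemB1 itemB8a itemB8b)

theorem all9 : S_B9 := itemB9 itemB5 (itemB6 itemB3 B4_stmt) (itemB7 itemB7a) all8

theorem all11 : S_B11 := itemB11 itemB2

theorem all12 : S_B12 := itemB12 itemB8a (itemB12a itemB8a) (itemB12b itemB8a)

/-- Part II: if the chain `ζ` of an oriented flag homology sphere bounds in the complex `K''`, the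
Euler characteristic vanishes. -/
theorem euler_of_bounds (L : Finset (Finset ℕ)) (hf : FlagC L) (m : ℕ) (hS : IsHSphere L (m + 1))
    (o : (Fin (m + 1) → ℕ) → ℤ) (ho : IsOrient L (m + 1) o)
    (hb : Bounds L o (KG L fun _ => True)) : eulerChar L = 0 :=
  Fin1.euler_of_bounds prfA6 all9 itemB10 all11 L hf m hS o ho hb

theorem finalAll : S_Final := Fin1.final prfA6 all9 itemB10 all11 all12

end RA

end MP8a95ee

end
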