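import Pool.Agent.Work.MP_8a95ee_gt.R.Stmts
import Pool.Agent.Work.MP_8a95ee_gt.Sp.Phi
import Pool.Agent.Work.MP_8a95ee_gt.Npc.Stmts
import Pool.Agent.Work.MP_8a95ee_gt.R.ItemP11

/-! Bundle of small proof modules (one section per former module). -/

section

/-!
# Item P9: the bounded cocycle
-/

namespace MP8a95ee

namespace RA

/-- the coboundary squares to zero -/
theorem P9_dl_dl {S : Type} {k : ℕ} (f : (Fin k → S) → ℝ) (T : Fin (k + 2) → S) :
    dl (dl f) T = 0 := by
  unfold dl
  simp only [smul_eq_mul, Finset.mul_sum]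
  rw [← Finset.sum_product' Finset.univ Finset.univ
    (fun (i : Fin (k + 2)) (j : Fin (k + 1)) =>
      (-1 : ℝ) ^ (i : ℕ) * ((-1 : ℝ) ^ (j : ℕ) * f fun l => T (i.succAbove (j.succAbove l))))]
  refine Finset.sum_involution (fun p _ => (p.1.succAbove p.2, p.2.predAbove p.1)) ?_ ?_ ?_ ?_
  · rintro ⟨i, j⟩ -
    dsimp only
    have h1 : (fun l => T ((i.succAbove j).succAbove ((j.predAbove i).succAbove l))) =
        fun l => T (i.succAbove (j.succAbove l)) := by
      funext l
      rw [Fin.succAbove_succAbove_succAbove_predAbove]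
    rw [h1, ← mul_assoc, ← mul_assoc, ← pow_add, ← pow_add,
      Fin.neg_one_pow_succAbove_add_predAbove]
    ring
  · rintro ⟨i, j⟩ - - h
    exact Fin.succAbove_ne i j (congrArg Prod.fst h)
  · intro _ _
    exact Finset.mem_univ _
  · rintro ⟨i, j⟩ -
    dsimp only
    rw [Fin.succAbove_succAbove_predAbove, Fin.predAbove_predAbove_succAbove]

theorem P9_in_act {V : Finset ℕ} {adj : ℕ → ℕ → Prop} (D : WallData V adj) (h x v : D.G) :
    D.In (h * x) (h * v) = D.In x v := by
  unfold WallData.In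
  refine Finset.filter_congr fun a ha => ?_
  rw [← D.act_wall h x a ha]
  exact not_congr (D.act_side h (D.wall x a) x v)

theorem P9_fin (h8 : S_P8) (L : Finset (Finset ℕ)) (hL : FlagC L)
    (D : WallData (verts L) (Adj L)) (k : ℕ) :
    ∃ B : ℕ, ∀ v : Fin (k + 1) → D.G, ∃ X : Finset D.G, X.card ≤ B ∧
      ∀ x, ¬ KG L (fun _ => True) (fun i => D.In x (v i)) → x ∈ X := by
  obtain ⟨B, hB⟩ := h8 L hL D k
  refine ⟨B, fun v => ?_⟩
  have hfin : {x | ¬ KG L (fun _ => True) (fun i => D.In x (v i))}.Finite := by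
    by_contra hinf
    obtain ⟨t, ht, hc⟩ := Set.Infinite.exists_subset_card_eq hinf (B + 1)
    have := hB v t (fun x hx => ht hx)
    omega
  refine ⟨hfin.toFinset, hB v _ (fun x hx => ?_), fun x hx => ?_⟩
  · exact (hfin.mem_toFinset).1 hx
  · exact (hfin.mem_toFinset).2 hx

theorem P9_abs_unit (u : ℤˣ) (y : ℝ) : |((u : ℤ) : ℝ) * y| = |y| := by
  rcases Int.units_eq_one_or u with h | h <;> rw [h] <;> simp

theorem itemP9 (_h1 : S_P1) (_h7 : S_P7) (h8 : S_P8) : S_P9 := by
  intro L hL D k f hf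
  classical
  obtain ⟨B, hB⟩ := P9_fin h8 L hL D k
  have hsum : ∀ (v : Fin (k + 1) → D.G) (X : Finset D.G),
      (∀ x, ¬ KG L (fun _ => True) (fun i => D.In x (v i)) → x ∈ X) →
      (∑ᶠ x : D.G, ((D.χ x : ℤ) : ℝ) * dl f (fun i => D.In x (v i))) =
        ∑ x ∈ X, ((D.χ x : ℤ) : ℝ) * dl f (fun i => D.In x (v i)) := by
    intro v X hX
    refine finsum_eq_sum_of_support_subset _ ?_
    intro x hx
    by_contra hxX
    refine hx ?_
    have hk : KG L (fun _ => True) (fun i => D.In x (v i)) := by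
      by_contra h
      exact hxX (hX x h)
    dsimp only
    rw [hf _ hk, mul_zero]
  have hM : ∀ (x : D.G) (v : Fin (k + 1) → D.G), |dl f (fun i => D.In x (v i))| ≤
      ∑ T ∈ Fintype.piFinset (fun _ : Fin (k + 1) => (verts L).powerset), |dl f T| := by
    intro x v
    refine Finset.single_le_sum (f := fun T => |dl f T|) (fun T _ => abs_nonneg _) ?_
    rw [Fintype.mem_piFinset]
    intro i
    rw [Finset.mem_powerset]
    exact Finset.filter_subset _ _
  refine ⟨{
    F := fun v => ∑ᶠ x : D.G, ((D.χ x : ℤ) : ℝ) * dl f (fun i => D.In x (v i))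
    C := B * ∑ T ∈ Fintype.piFinset (fun _ : Fin (k + 1) => (verts L).powerset), |dl f T|
    bound := ?_
    equivar := ?_
    cocycle := ?_ }, fun v => rfl⟩
  · intro v
    obtain ⟨X, hX1, hX2⟩ := hB v
    rw [hsum v X hX2]
    refine (Finset.abs_sum_le_sum_abs _ _).trans ?_
    refine (Finset.sum_le_card_nsmul X _ (∑ T ∈ Fintype.piFinset
      (fun _ : Fin (k + 1) => (verts L).powerset), |dl f T|) fun x _ => ?_).trans ?_
    · rw [P9_abs_unit]
      exact hM x v
    · rw [nsmul_eq_mul]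
      refine mul_le_mul_of_nonneg_right (by exact_mod_cast hX1) ?_
      exact Finset.sum_nonneg fun _ _ => abs_nonneg _
  · intro h v
    dsimp only
    rw [mul_finsum, ← finsum_comp_equiv (Equiv.mulLeft h)]
    refine finsum_congr fun x => ?_
    have h1 : (fun i => D.In (Equiv.mulLeft h x) (h * v i)) = fun i => D.In x (v i) := by
      funext i
      rw [Equiv.coe_mulLeft]
      exact P9_in_act D h x (v i)
    rw [h1, Equiv.coe_mulLeft, map_mul]
    push_cast
    ring
  · intro v
    dsimp only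
    have hX : ∀ i : Fin (k + 2), ∃ X : Finset D.G,
        ∀ x, ¬ KG L (fun _ => True) (fun j => D.In x (v (i.succAbove j))) → x ∈ X := by
      intro i
      obtain ⟨X, -, hX⟩ := hB (fun j => v (i.succAbove j))
      exact ⟨X, hX⟩
    choose X hX using hX
    have h1 : ∀ i : Fin (k + 2),
        (∑ᶠ x : D.G, ((D.χ x : ℤ) : ℝ) * dl f (fun j => D.In x (v (i.succAbove j)))) =
        ∑ x ∈ Finset.univ.biUnion X, ((D.χ x : ℤ) : ℝ) *
          dl f (fun j => D.In x (v (i.succAbove j))) := fun i =>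
      hsum (fun j => v (i.succAbove j)) _ fun x hx =>
        Finset.mem_biUnion.2 ⟨i, Finset.mem_univ _, hX i x hx⟩
    simp only [h1, Finset.mul_sum]
    rw [Finset.sum_comm]
    refine Finset.sum_eq_zero fun x _ => ?_
    have h2 := P9_dl_dl f (fun i => D.In x (v i))
    unfold dl at h2
    have h3 : ∀ i : Fin (k + 2), (-1 : ℝ) ^ (i : ℕ) * (((D.χ x : ℤ) : ℝ) *
        dl f (fun j => D.In x (v (i.succAbove j)))) = ((D.χ x : ℤ) : ℝ) * ((-1 : ℝ) ^ (i : ℕ) *
        dl f (fun j => D.In x (v (i.succAbove j)))) := fun i => by ring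
    rw [Finset.sum_congr rfl fun i _ => h3 i, ← Finset.mul_sum]
    have h4 : ∑ i : Fin (k + 2), (-1 : ℝ) ^ (i : ℕ) *
        dl f (fun j => D.In x (v (i.succAbove j))) = 0 := h2
    rw [h4, mul_zero]

end RA

end MP8a95ee

end

section

/-!
Evaluation of the cocycle on the fundamental cycle.
-/

set_option autoImplicit false

namespace MP8a95ee.Sp

open MP8a95ee.RACG
open PartOne (dl dl_dl)

open scoped Classical

noncomputable section

namespace Cx

variable {V X : Type} [Fintype V] [Fintype X] {C : Cx V X}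

omit [Fintype V] [Fintype X] in
theorem conn_one {x : X} {s B : Finset V} (hs : C.IsCube x s) (hB : B ⊆ s) :
    C.Conn x 1 (wT C.G B) := by
  have h := C.conn_step x 1 (hs.mono hB)
  rwa [map_one, Equiv.Perm.one_apply, one_mul] at h

omit [Fintype X] in
/-- the value on one affine simplex -/
theorem FX_cube {N : ℕ} {f : X → (Fin N → Finset V) → ℝ} (hf : C.Adm f) {x : X} {s : Fin N → V}
    (hs : C.IsCube x (Finset.univ.image s)) :
    C.FX f x (fun k => wT C.G (pre s k)) = ∑ B ∈ (Finset.univ.image s).powerset,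
      dl (f (C.mv B x)) (fun k : Fin (N + 1) => symmDiff B (pre s k)) := by
  have hinj : Set.InjOn (wT C.G) ((Finset.univ.image s).powerset : Set (Finset V)) := by
    intro A hA B hB h
    rw [Finset.mem_coe, Finset.mem_powerset] at hA hB
    exact wT_injOn C.G hs.clq hA hB h
  rw [FX_eq f x _ ((Finset.univ.image s).powerset.image (wT C.G))]
  · rw [Finset.sum_image hinj]
    refine Finset.sum_congr rfl fun B hB => ?_
    rw [Finset.mem_powerset] at hB
    rw [if_pos fun i => C.conn_trans (C.conn_symm (conn_one hs hB))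
      (conn_one hs (pre_subset s _)), wT_inv C.G (hs.clq.mono hB), act_wT]
    congr 1
    funext k
    exact fl_wT C.G hs.clq hB (pre_subset s _)
  · intro w hw
    by_cases hc : ∀ i : Fin (N + 1), C.Conn x w (wT C.G (pre s i))
    · rw [if_pos hc]
      obtain ⟨a, ha⟩ := outside_cube C.G hs.clq (w := w) (by
        intro B hB h
        exact hw (Finset.mem_image.2 ⟨B, Finset.mem_powerset.2 hB, h.symm⟩))
      have ha' : ∀ i : Fin (N + 1), a ∈ fl C.G w (wT C.G (pre s i)) := fun i =>
        ha _ (pre_subset s _)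
      exact hf _ _ (fun i => C.isCube_fl (hc i)) (fun i => ⟨a, ha' i⟩) (Or.inl ⟨a, ha'⟩)
    · rw [if_neg hc]

omit [Fintype V] [Fintype X] in
theorem pre_eq {N : ℕ} (s : Fin N → V) (k : ℕ) : pre s k = (PartOne.pre N k).image s := rfl

omit [Fintype X] in
theorem FX_cube' {N : ℕ} {f : X → (Fin N → Finset V) → ℝ} (hf : C.Adm f) {x : X} {s : Fin N → V}
    (hs : C.IsCube x (Finset.univ.image s)) (hinj : Function.Injective s) :
    C.FX f x (fun k => wT C.G (pre s k)) = ∑ b : Finset (Fin N),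
      dl (f (C.mv (b.image s) x)) (fun k : Fin (N + 1) => (symmDiff b (PartOne.pre N k)).image s) := by
  rw [FX_cube hf hs, Finset.powerset_image,
    Finset.sum_image fun a _ b _ hab => Finset.image_injective hinj hab, Finset.powerset_univ]
  refine Finset.sum_congr rfl fun b _ => ?_
  congr 1
  funext k
  rw [pre_eq, Finset.image_symmDiff _ _ hinj]

/-- the value of the cocycle on the fundamental cycle -/
theorem value {n : ℕ} {o : X → (Fin (n + 1) → V) → ℝ} (ho : C.IsOrient (n + 1) o)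
    {f : X → (Fin (n + 1) → Finset V) → ℝ} (hf : C.Adm f) :
    ∑ x, ∑ s : Fin (n + 1) → V, o x s * C.FX f x (fun k => wT C.G (pre s k)) =
      2 * (-1) ^ n * ∑ x, PartOne.zv (o x) (f x) := by
  have h1 : ∀ x, ∀ s : Fin (n + 1) → V, o x s * C.FX f x (fun k => wT C.G (pre s k)) =
      ∑ b : Finset (Fin (n + 1)), o x s * dl (f (C.mv (b.image s) x))
        (fun k : Fin (n + 2) => (symmDiff b (PartOne.pre (n + 1) k)).image s) := by
    intro x s
    by_cases h : o x s = 0
    · simp [h]
    · rw [FX_cube' hf (ho.supp x s h) (ho.inj h), Finset.mul_sum]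
  have h2 : ∀ s : Fin (n + 1) → V, ∀ b : Finset (Fin (n + 1)),
      ∑ x, o x s * dl (f (C.mv (b.image s) x))
        (fun k : Fin (n + 2) => (symmDiff b (PartOne.pre (n + 1) k)).image s) =
      ∑ x, o x s * ((-1 : ℝ) ^ b.card * dl (f x)
        (fun k : Fin (n + 2) => (symmDiff b (PartOne.pre (n + 1) k)).image s)) := by
    intro s b
    by_cases hall : ∀ x, o x s = 0
    · simp [hall]
    · push Not at hall
      obtain ⟨x0, hx0⟩ := hall
      have hcl : Clq C.G (Finset.univ.image s) := (ho.supp x0 s hx0).clq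
      have hbs : b.image s ⊆ Finset.univ.image s := Finset.image_subset_image (Finset.subset_univ _)
      refine Fintype.sum_equiv (C.act (wT C.G (b.image s))) _ _ fun x => ?_
      rw [act_wT]
      have h3 := ho.flip_mv s hcl hbs x
      rw [Finset.card_image_of_injective _ (ho.inj hx0)] at h3
      rw [h3]
      have h4 : (-1 : ℝ) ^ b.card * (-1 : ℝ) ^ b.card = 1 := by
        rw [← mul_pow]; simp
      calc o x s * dl (f (C.mv (b.image s) x))
            (fun k : Fin (n + 2) => (symmDiff b (PartOne.pre (n + 1) k)).image s)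
          = ((-1 : ℝ) ^ b.card * (-1 : ℝ) ^ b.card) * (o x s * dl (f (C.mv (b.image s) x))
            (fun k : Fin (n + 2) => (symmDiff b (PartOne.pre (n + 1) k)).image s)) := by
            rw [h4, one_mul]
        _ = _ := by ring
  calc ∑ x, ∑ s : Fin (n + 1) → V, o x s * C.FX f x (fun k => wT C.G (pre s k))
      = ∑ s : Fin (n + 1) → V, ∑ b : Finset (Fin (n + 1)), ∑ x, o x s *
          dl (f (C.mv (b.image s) x))
            (fun k : Fin (n + 2) => (symmDiff b (PartOne.pre (n + 1) k)).image s) := by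
        simp only [h1]
        rw [Finset.sum_comm]
        exact Finset.sum_congr rfl fun s _ => Finset.sum_comm
    _ = ∑ s : Fin (n + 1) → V, ∑ b : Finset (Fin (n + 1)), ∑ x, o x s * ((-1 : ℝ) ^ b.card *
          dl (f x) (fun k : Fin (n + 2) => (symmDiff b (PartOne.pre (n + 1) k)).image s)) :=
        Finset.sum_congr rfl fun s _ => Finset.sum_congr rfl fun b _ => h2 s b
    _ = ∑ x, ∑ s : Fin (n + 1) → V, o x s * ∑ b : Finset (Fin (n + 1)), (-1 : ℝ) ^ b.card *
          dl (f x) (fun k : Fin (n + 2) => (symmDiff b (PartOne.pre (n + 1) k)).image s) := by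
        rw [Finset.sum_congr rfl fun s _ => Finset.sum_comm, Finset.sum_comm]
        refine Finset.sum_congr rfl fun x _ => Finset.sum_congr rfl fun s _ => ?_
        rw [Finset.mul_sum]
    _ = _ := by
        rw [Finset.mul_sum]
        refine Finset.sum_congr rfl fun x _ => ?_
        exact PartOne.local_sum (o x) (ho.alt x) (fun s => ho.cycle x s _) (f x)

/-- a bounded cocycle with a known value on the fundamental cycle -/
theorem exists_cochain (hE : C.Embedded) {n : ℕ} {o : X → (Fin (n + 1) → V) → ℝ}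
    (ho : C.IsOrient (n + 1) o) {f : X → (Fin (n + 1) → Finset V) → ℝ} (hf : C.Adm f) :
    ∃ (c : SSimplex C.space (n + 1) → ℝ) (B : ℝ), 0 ≤ B ∧ (∀ σ, |c σ| ≤ B) ∧
      (∀ σ : SSimplex C.space (n + 2), ∑ i : Fin (n + 3), (-1 : ℝ) ^ (i : ℕ) * c (face σ i) = 0) ∧
      ((C.zchain o).sum fun σ a => a * c σ) = 2 * (-1) ^ n * ∑ x, PartOne.zv (o x) (f x) := by
  obtain ⟨K, hK⟩ := xcocycle_exists hf
  obtain ⟨c, hcb, hcc, hcl⟩ := xcochain_exists (C.flat hE) (C.compat hE) K
  refine ⟨c, |K.C|, abs_nonneg _, fun σ => (hcb σ).trans (le_abs_self _), hcc, ?_⟩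
  rw [eval_zchain, ← value ho hf]
  refine Finset.sum_congr rfl fun x _ => Finset.sum_congr rfl fun s _ => ?_
  by_cases h0 : o x s = 0
  · rw [h0, zero_mul, zero_mul]
  · congr 1
    have h := ho.supp x s h0
    rw [dif_pos h]
    obtain ⟨hl, hidx⟩ := C.isLift_aff hE h
    rw [hcl _ _ hl, ← hK]
    simp only [hidx]
    have h1 : C.tr x (C.mv (pre s ((0 : Fin (n + 1 + 1)) : ℕ)) x) = 1 := by
      rw [Fin.val_zero, pre_zero, C.tr_mv hE (C.isCube_empty x), wT_empty]
    rw [h1, map_one, Equiv.Perm.one_apply]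
    have h2 : C.mv (pre s ((0 : Fin (n + 1 + 1)) : ℕ)) x = x := by
      rw [Fin.val_zero, pre_zero, C.mv_empty]
    rw [h2]
    congr 1
    funext k
    exact C.tr_mv hE (h.mono (pre_subset s _))

/-- vanishing of the norm of the fundamental class kills all functions -/
theorem zv_eq_zero (hE : C.Embedded) {n : ℕ} {o : X → (Fin (n + 1) → V) → ℝ}
    (ho : C.IsOrient (n + 1) o)
    (hvol : ∀ ε : ℝ, 0 < ε → ∃ b : SChain C.space (n + 2), l1 (C.zchain o + bd b) < ε)
    (x : X) (f : (Fin (n + 1) → Finset V) → ℝ)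
    (hf : ∀ T : Fin (n + 2) → Finset V, (∀ i, C.IsCube x (T i)) → (∀ i, (T i).Nonempty) →
      (InK T ∨ InF C.G T) → dl f T = 0) : PartOne.zv (o x) f = 0 := by
  set F : X → (Fin (n + 1) → Finset V) → ℝ := fun y => if y = x then f else 0 with hF
  have hAdm : C.Adm F := by
    intro y T h1 h2 h3
    by_cases hy : y = x
    · subst hy
      have : F y = f := by rw [hF]; simp
      rw [this]
      exact hf T h1 h2 h3
    · have : F y = 0 := by rw [hF]; simp [hy]
      rw [this]
      simp [dl]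
  obtain ⟨c, B, hB0, hB, hcc, hval⟩ := exists_cochain hE ho hAdm
  have h := eval_eq_zero c B hB hcc (C.zchain o) hvol
  rw [hval] at h
  have h2 : (2 : ℝ) * (-1) ^ n ≠ 0 := mul_ne_zero two_ne_zero (pow_ne_zero _ (by norm_num))
  have h3 := (mul_eq_zero.1 h).resolve_left h2
  rw [Finset.sum_eq_single x] at h3
  · have : F x = f := by rw [hF]; simp
    rwa [this] at h3
  · intro y _ hy
    have : F y = 0 := by rw [hF]; simp [hy]
    rw [this]
    simp [PartOne.zv]
  · intro h
    exact absurd (Finset.mem_univ x) h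

end Cx

end

end MP8a95ee.Sp

end

section

/-!
# CU1: corners of a cube
-/

set_option autoImplicit false

namespace MP8a95ee.Npc

open Classical

namespace CU1

variable {X : SimpleGraph ℕ}

theorem eq_of_sep (h2 : S_WA2) (hX : IsMedianGraph X) (D : WS X) {x y z : ℕ}
    (h : ∀ w, D.Sep w x y ↔ D.Sep w x z) : y = z := by
  refine (h2 X hX D).2.1 y z (fun w hw => ?_)
  rw [D.Sep_trans (y := x), D.Sep_comm (x := y) (y := x), h w] at hw
  exact hw Iff.rfl

theorem sub_symm {s T : Finset ℕ} (hT : T ⊆ s) {a : ℕ} (ha : a ∈ s) : symmDiff T {a} ⊆ s := by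
  intro b hb
  rw [Finset.mem_symmDiff] at hb
  rcases hb with ⟨hb, -⟩ | ⟨hb, -⟩
  · exact hT hb
  · rw [Finset.mem_singleton] at hb
    rw [hb]; exact ha

theorem sep_iff (h3 : S_WA6) (hX : IsMedianGraph X) (hf : LocFin X) (D : WS X) {x : ℕ}
    {s : Finset ℕ} (hs : s ∈ link X x)
    (hinj : ∀ a ∈ s, ∀ b ∈ s, D.wall x a = D.wall x b → a = b) {T : Finset ℕ} (hT : T ⊆ s)
    {a : ℕ} (ha : a ∈ s) (h : D.H) :
    D.Sep h (corner X x T) (rb X x T a) ↔ h = D.wall x a := by
  have e1 := h3 X hX hf D x T (link_mono hs hT) h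
  have e2 := h3 X hX hf D x (symmDiff T {a}) (link_mono hs (sub_symm hT ha)) h
  unfold rb
  rw [D.Sep_trans (y := x), D.Sep_comm (x := corner X x T) (y := x), e1, e2]
  constructor
  · intro hne
    by_contra hc
    apply hne
    constructor
    · rintro ⟨b, hb, rfl⟩
      have hba : b ≠ a := fun hba => hc (by rw [hba])
      refine ⟨b, ?_, rfl⟩
      rw [Finset.mem_symmDiff]
      left
      exact ⟨hb, fun hb' => hba (Finset.mem_singleton.1 hb')⟩
    · rintro ⟨b, hb, rfl⟩
      have hba : b ≠ a := fun hba => hc (by rw [hba])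
      rw [Finset.mem_symmDiff] at hb
      rcases hb with ⟨hb, -⟩ | ⟨hb, -⟩
      · exact ⟨b, hb, rfl⟩
      · exact absurd (Finset.mem_singleton.1 hb) hba
  · rintro rfl hiff
    by_cases haT : a ∈ T
    · obtain ⟨b, hb, hab⟩ := hiff.1 ⟨a, haT, rfl⟩
      have hbs : b ∈ s := sub_symm hT ha hb
      have hab' : a = b := hinj a ha b hbs hab
      rw [← hab', Finset.mem_symmDiff] at hb
      rcases hb with ⟨-, hb⟩ | ⟨-, hb⟩
      · exact hb (Finset.mem_singleton_self a)
      · exact hb haT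
    · obtain ⟨b, hb, hab⟩ := hiff.2 ⟨a, by
        rw [Finset.mem_symmDiff]
        right
        exact ⟨Finset.mem_singleton_self a, haT⟩, rfl⟩
      have hab' : a = b := hinj a ha b (hT hb) hab
      rw [← hab'] at hb
      exact haT hb

end CU1

open CU1 in
theorem prfCU1 (h1 : S_MG5) (h2 : S_WA2) (h3 : S_WA6) : S_CU1 := by
  intro X hX hf x s hs
  obtain ⟨D0⟩ := h1 X hX
  have hadj : ∀ a ∈ s, X.Adj x a := fun a ha => (mem_nbr hf).1 ((mem_link.1 hs).1 ha)
  have hinj : ∀ D : WS X, ∀ a ∈ s, ∀ b ∈ s, D.wall x a = D.wall x b → a = b :=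
    fun D a ha b hb hab => (h2 X hX D).2.2 x a b (hadj a ha) (hadj b hb) hab
  have hc : ∀ T ⊆ s, ∀ h, D0.Sep h x (corner X x T) ↔ ∃ a ∈ T, h = D0.wall x a :=
    fun T hT => h3 X hX hf D0 x T (link_mono hs hT)
  have hci : ∀ T ⊆ s, ∀ U ⊆ s, corner X x T = corner X x U → T ⊆ U := by
    intro T hT U hU hTU a ha
    have e1 : D0.Sep (D0.wall x a) x (corner X x T) := (hc T hT _).2 ⟨a, ha, rfl⟩
    rw [hTU, hc U hU] at e1
    obtain ⟨b, hb, hab⟩ := e1
    rw [hinj D0 a (hT ha) b (hU hb) hab]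
    exact hb
  have hcinj : ∀ T ⊆ s, ∀ U ⊆ s, corner X x T = corner X x U → T = U :=
    fun T hT U hU hTU => Finset.Subset.antisymm (hci T hT U hU hTU) (hci U hU T hT hTU.symm)
  have hadj2 : ∀ T ⊆ s, ∀ a ∈ s, X.Adj (corner X x T) (rb X x T a) := by
    intro T hT a ha
    rw [← SimpleGraph.dist_eq_one_iff_adj, D0.dist_eq]
    rw [Finset.card_eq_one]
    refine ⟨D0.wall x a, ?_⟩
    ext h
    rw [D0.mem_sep, Finset.mem_singleton, sep_iff h3 hX hf D0 hs (hinj D0) hT ha]
  refine ⟨?_, ?_, hcinj, ?_, hadj2, ?_⟩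
  · refine eq_of_sep h2 hX D0 (x := x) (fun w => ?_)
    rw [hc ∅ (Finset.empty_subset s)]
    constructor
    · rintro ⟨a, ha, -⟩
      exact absurd ha (Finset.notMem_empty a)
    · intro hw
      exact absurd hw D0.Sep_self
  · intro a ha
    refine eq_of_sep h2 hX D0 (x := x) (fun w => ?_)
    rw [hc {a} (Finset.singleton_subset_iff.2 ha), D0.Sep_step (hadj a ha)]
    constructor
    · rintro ⟨b, hb, hw⟩
      rw [Finset.mem_singleton] at hb
      rw [hw, hb]
    · intro hw
      exact ⟨a, Finset.mem_singleton_self a, hw⟩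
  · intro T hT a ha b hb hab
    have e := hcinj _ (sub_symm hT ha) _ (sub_symm hT hb) hab
    exact Finset.singleton_injective (symmDiff_right_injective T e)
  · intro D T hT a ha
    have e := (sep_iff h3 hX hf D hs (hinj D) hT ha (D.wall x a)).2 rfl
    exact ((D.Sep_step (hadj2 T hT a ha)).1 e).symm

end MP8a95ee.Npc

end

section

/-!
# CU2: neighbours of a corner in the direction of another corner
-/

set_option autoImplicit false

namespace MP8a95ee.Npc

open Classical

theorem prfCU2 (h1 : S_MG5) (h2 : S_WA2) (h3 : S_WA6) (h4 : S_CU1) : S_CU2 := by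
  intro X hX hf x s hs T hT U hU
  obtain ⟨D⟩ := h1 X hX
  obtain ⟨-, -, -, -, c5, c6⟩ := h4 X hX hf x s hs
  have hadj : ∀ a ∈ s, X.Adj x a := fun a ha => (mem_nbr hf).1 ((mem_link.1 hs).1 ha)
  have hinj : ∀ a ∈ s, ∀ b ∈ s, D.wall x a = D.wall x b → a = b :=
    fun a ha b hb hab => (h2 X hX D).2.2 x a b (hadj a ha) (hadj b hb) hab
  have hTU : symmDiff T U ⊆ s := by
    intro b hb
    rw [Finset.mem_symmDiff] at hb
    rcases hb with ⟨hb, -⟩ | ⟨hb, -⟩
    · exact hT hb
    · exact hU hb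
  have hsep : ∀ h, D.Sep h (corner X x T) (corner X x U) ↔
      ∃ a ∈ symmDiff T U, h = D.wall x a := by
    intro h
    have e1 := h3 X hX hf D x T (link_mono hs hT) h
    have e2 := h3 X hX hf D x U (link_mono hs hU) h
    rw [D.Sep_trans (y := x), D.Sep_comm (x := corner X x T) (y := x), e1, e2]
    constructor
    · intro hne
      by_cases hc : ∃ a ∈ T, h = D.wall x a
      · obtain ⟨a, ha, rfl⟩ := hc
        refine ⟨a, ?_, rfl⟩
        rw [Finset.mem_symmDiff]
        left
        refine ⟨ha, fun haU => hne ⟨fun _ => ⟨a, haU, rfl⟩, fun _ => ⟨a, ha, rfl⟩⟩⟩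
      · by_cases hd : ∃ a ∈ U, h = D.wall x a
        · obtain ⟨a, ha, rfl⟩ := hd
          refine ⟨a, ?_, rfl⟩
          rw [Finset.mem_symmDiff]
          right
          exact ⟨ha, fun haT => hc ⟨a, haT, rfl⟩⟩
        · exact absurd ⟨fun hh => absurd hh hc, fun hh => absurd hh hd⟩ hne
    · rintro ⟨a, ha, rfl⟩ hiff
      have has : a ∈ s := hTU ha
      rw [Finset.mem_symmDiff] at ha
      rcases ha with ⟨ha, ha'⟩ | ⟨ha, ha'⟩
      · obtain ⟨b, hb, hab⟩ := hiff.1 ⟨a, ha, rfl⟩
        have e := hinj a has b (hU hb) hab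
        rw [← e] at hb
        exact ha' hb
      · obtain ⟨b, hb, hab⟩ := hiff.2 ⟨a, ha, rfl⟩
        have e := hinj a has b (hT hb) hab
        rw [← e] at hb
        exact ha' hb
  ext b
  rw [mem_In hf, Finset.mem_image]
  constructor
  · rintro ⟨hb, hlt⟩
    rw [(h2 X hX D).1 _ _ _ hb, hsep] at hlt
    obtain ⟨a, ha, hab⟩ := hlt
    refine ⟨a, ha, ?_⟩
    exact (h2 X hX D).2.2 _ _ _ (c5 T hT a (hTU ha)) hb
      ((c6 D T hT a (hTU ha)).trans hab.symm)
  · rintro ⟨a, ha, rfl⟩
    refine ⟨c5 T hT a (hTU ha), ?_⟩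
    rw [(h2 X hX D).1 _ _ _ (c5 T hT a (hTU ha)), hsep, c6 D T hT a (hTU ha)]
    exact ⟨a, ha, rfl⟩

end MP8a95ee.Npc

end

section

/-!
# CU3: change of the corner of a cube (helper19)
-/

set_option autoImplicit false

namespace MP8a95ee.Npc

open Classical

theorem CU3_aux {A B E F R PT PU : Prop} (e1 : A ↔ PU) (e2 : B ↔ PT) (e3 : E ↔ ¬ (PT ↔ PU))
    (t1 : R ↔ ¬ (A ↔ F)) (t2 : F ↔ ¬ (B ↔ E)) : ¬ R := by
  by_cases hT : PT <;> by_cases hU : PU <;> simp_all

theorem CU3_aux2 {E PT PU : Prop} (hE : ¬ E) (hT : ¬ PT) (hU : ¬ PU) : E ↔ ¬ (PT ↔ PU) := by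
  simp_all

theorem CU3_aux3 {p q : Prop} : ((p ∧ ¬ q) ∨ (q ∧ ¬ p)) ↔ ¬ (p ↔ q) := by
  by_cases hp : p <;> by_cases hq : q <;> simp_all

theorem prfCU3 (h1 : S_MG5) (h2 : S_WA2) (h3 : S_WA6) (h4 : S_CU1) : S_CU3 := by
  intro X hM hF x s hs T hT
  obtain ⟨D⟩ := h1 X hM
  obtain ⟨_, w2, w3⟩ := h2 X hM D
  obtain ⟨_, _, cinj, _, cadj, cwall⟩ := h4 X hM hF x s hs
  have hsub : ∀ (V : Finset ℕ), V ⊆ s → ∀ a ∈ s, symmDiff V {a} ⊆ s := by
    intro V hV a ha y hy
    rw [Finset.mem_symmDiff, Finset.mem_singleton] at hy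
    rcases hy with hy | hy
    · exact hV hy.1
    · rw [hy.1]; exact ha
  have hlink : s.image (rb X x T) ∈ link X (corner X x T) := by
    rw [mem_link]
    constructor
    · intro y hy
      obtain ⟨a, ha, rfl⟩ := Finset.mem_image.1 hy
      exact (mem_nbr hF).2 (cadj T hT a ha)
    · intro p hp q hq hpq
      obtain ⟨a, ha, rfl⟩ := Finset.mem_image.1 hp
      obtain ⟨b, hb, rfl⟩ := Finset.mem_image.1 hq
      have hab : a ≠ b := fun h => hpq (by rw [h])
      refine ⟨rb X x (symmDiff T {a}) b, ?_, ?_, ?_⟩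
      · intro h
        have h5 := cinj _ (hsub _ (hsub T hT a ha) b hb) T hT h
        rw [symmDiff_assoc, symmDiff_eq_left] at h5
        have h6 : a ∈ symmDiff ({a} : Finset ℕ) {b} := by
          rw [Finset.mem_symmDiff, Finset.mem_singleton, Finset.mem_singleton]
          exact Or.inl ⟨rfl, hab⟩
        rw [h5] at h6
        exact Finset.notMem_empty a h6
      · exact cadj (symmDiff T {a}) (hsub T hT a ha) b hb
      · have h5 := cadj (symmDiff T {b}) (hsub T hT b hb) a ha
        have h6 : rb X x (symmDiff T {b}) a = rb X x (symmDiff T {a}) b := by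
          unfold rb
          rw [symmDiff_right_comm]
        rw [h6] at h5
        exact h5
  refine ⟨hlink, fun U hU => ?_⟩
  refine w2 _ _ fun h hsep => ?_
  have hlinkU : U.image (rb X x T) ∈ link X (corner X x T) :=
    link_mono hlink (Finset.image_subset_image hU)
  have hTU : symmDiff T U ⊆ s := by
    intro y hy
    rw [Finset.mem_symmDiff] at hy
    rcases hy with hy | hy
    · exact hT hy.1
    · exact hU hy.1
  have e1 := h3 X hM hF D (corner X x T) _ hlinkU h
  have e2 := h3 X hM hF D x T (link_mono hs hT) h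
  have e3 := h3 X hM hF D x (symmDiff T U) (link_mono hs hTU) h
  have e4 : (∃ a ∈ U.image (rb X x T), h = D.wall (corner X x T) a) ↔
      ∃ a ∈ U, h = D.wall x a := by
    constructor
    · rintro ⟨a', ha', rfl⟩
      obtain ⟨a, ha, rfl⟩ := Finset.mem_image.1 ha'
      exact ⟨a, ha, cwall D T hT a (hU ha)⟩
    · rintro ⟨a, ha, rfl⟩
      exact ⟨rb X x T a, Finset.mem_image_of_mem _ ha, (cwall D T hT a (hU ha)).symm⟩
  rw [e4] at e1
  have hadj : ∀ a ∈ s, X.Adj x a := fun a ha => (mem_nbr hF).1 ((mem_link.1 hs).1 ha)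
  have e5 : (∃ a ∈ symmDiff T U, h = D.wall x a) ↔
      ¬ ((∃ a ∈ T, h = D.wall x a) ↔ ∃ a ∈ U, h = D.wall x a) := by
    by_cases hex : ∃ a ∈ s, h = D.wall x a
    · obtain ⟨a, ha, rfl⟩ := hex
      have key : ∀ V ⊆ s, (∃ b ∈ V, D.wall x a = D.wall x b) ↔ a ∈ V := by
        intro V hV
        constructor
        · rintro ⟨b, hb, hbe⟩
          rw [w3 x a b (hadj a ha) (hadj b (hV hb)) hbe]
          exact hb
        · intro haV
          exact ⟨a, haV, rfl⟩
      rw [key _ hTU, key T hT, key U hU, Finset.mem_symmDiff]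
      exact CU3_aux3
    · have key : ∀ V ⊆ s, ¬ ∃ b ∈ V, h = D.wall x b := fun V hV ⟨b, hb, hbe⟩ =>
        hex ⟨b, hV hb, hbe⟩
      exact CU3_aux2 (key _ hTU) (key T hT) (key U hU)
  rw [e5] at e3
  have t1 : D.Sep h (corner X (corner X x T) (U.image (rb X x T))) (corner X x (symmDiff T U)) ↔
    ¬ (D.Sep h (corner X x T) (corner X (corner X x T) (U.image (rb X x T))) ↔
      D.Sep h (corner X x T) (corner X x (symmDiff T U))) := by
    rw [D.Sep_trans (y := corner X x T), D.Sep_comm (x := corner X (corner X x T) _)]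
  have t2 : D.Sep h (corner X x T) (corner X x (symmDiff T U)) ↔
    ¬ (D.Sep h x (corner X x T) ↔ D.Sep h x (corner X x (symmDiff T U))) := by
    rw [D.Sep_trans (y := x), D.Sep_comm (x := corner X x T)]
  exact CU3_aux e1 e2 e3 t1 t2 hsep

end MP8a95ee.Npc

end

section

/-!
# Nonpositively curved cubulations: CU4 (a vertex outside of a cube)
-/

set_option autoImplicit false

namespace MP8a95ee.Npc

open Classical

namespace CU4

/-- a wall between `g` and a vertex between `g` and `c` separates `g` and `c` -/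
theorem sep_of_between {X : SimpleGraph ℕ} (D : WS X) {g m c : ℕ}
    (hb : X.dist g m + X.dist m c = X.dist g c) {h : D.H} (hh : D.Sep h g m) : D.Sep h g c := by
  have hsub : D.sep g c ⊆ D.sep g m ∪ D.sep m c := by
    intro k hk
    rw [D.mem_sep, D.Sep_trans (y := m)] at hk
    rw [Finset.mem_union, D.mem_sep, D.mem_sep]
    tauto
  have hcard : (D.sep g m ∪ D.sep m c).card ≤ (D.sep g c).card := by
    refine (Finset.card_union_le _ _).trans ?_
    rw [← D.dist_eq, ← D.dist_eq, ← D.dist_eq, hb]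
  have heq := Finset.eq_of_subset_of_card_le hsub hcard
  have : h ∈ D.sep g m ∪ D.sep m c := Finset.mem_union_left _ (D.mem_sep.2 hh)
  rw [← heq] at this
  exact D.mem_sep.1 this

end CU4

theorem prfCU4 (h1 : S_MG5) (h2 : S_WA2) (h3 : S_WA6) : S_CU4 := by
  intro X hX hf x s hs z hz
  obtain ⟨D⟩ := h1 X hX
  obtain ⟨-, hsep, -⟩ := h2 X hX D
  have hcor : ∀ T ⊆ s, ∀ h, D.Sep h x (corner X x T) ↔ ∃ a ∈ T, h = D.wall x a :=
    fun T hT => h3 X hX hf D x T (link_mono hs hT)
  obtain ⟨T0, hT0, hmin⟩ := Finset.exists_min_image s.powerset (fun T => X.dist z (corner X x T))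
    ⟨∅, Finset.empty_mem_powerset s⟩
  have hT0' : T0 ⊆ s := Finset.mem_powerset.1 hT0
  have hne := hz T0 hT0'
  obtain ⟨a, haz, hag⟩ : ∃ a, X.Adj z a ∧ X.dist a (corner X x T0) + 1 ≤ X.dist z (corner X x T0) := by
    obtain ⟨p, hp⟩ := hX.conn.exists_walk_length_eq_dist z (corner X x T0)
    cases p with
    | nil => exact absurd rfl hne
    | @cons _ b _ hb q =>
      refine ⟨b, hb, ?_⟩
      rw [SimpleGraph.Walk.length_cons] at hp
      rw [← hp]
      exact Nat.succ_le_succ (SimpleGraph.dist_le q)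
  refine ⟨a, ?_⟩
  intro U hU
  rw [mem_In hf]
  refine ⟨haz, ?_⟩
  obtain ⟨m, ⟨m1, m2, m3⟩, -⟩ := hX.med z (corner X x T0) (corner X x U)
  have hm : corner X x (s.filter fun b => D.Sep (D.wall x b) x m) = m := by
    apply hsep
    intro h
    have hc := hcor (s.filter fun b => D.Sep (D.wall x b) x m) (Finset.filter_subset _ _) h
    have key : D.Sep h x m → ∃ b ∈ s, h = D.wall x b := by
      intro hh
      by_cases hg : D.Sep h x (corner X x T0)
      · obtain ⟨b, hb, hbe⟩ := (hcor T0 hT0' h).1 hg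
        exact ⟨b, hT0' hb, hbe⟩
      · have hgm : D.Sep h (corner X x T0) m := by
          rw [D.Sep_trans (y := corner X x T0)] at hh
          by_contra hcon
          exact hh ⟨fun h0 => absurd h0 hg, fun h0 => absurd h0 hcon⟩
        have hgc := CU4.sep_of_between D m2 hgm
        have hxc : D.Sep h x (corner X x U) := by
          rw [D.Sep_trans (y := corner X x T0)]
          exact fun h0 => hg (h0.2 hgc)
        obtain ⟨b, hb, hbe⟩ := (hcor U hU h).1 hxc
        exact ⟨b, hU hb, hbe⟩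
    have hiff : D.Sep h x (corner X x (s.filter fun b => D.Sep (D.wall x b) x m)) ↔
        D.Sep h x m := by
      rw [hc]
      constructor
      · rintro ⟨b, hb, rfl⟩
        exact (Finset.mem_filter.1 hb).2
      · intro hh
        obtain ⟨b, hb, rfl⟩ := key hh
        exact ⟨b, Finset.mem_filter.2 ⟨hb, hh⟩, rfl⟩
    have htr := D.Sep_trans (h := h) (x := x)
      (y := corner X x (s.filter fun b => D.Sep (D.wall x b) x m)) (z := m)
    tauto
  have hle := hmin (s.filter fun b => D.Sep (D.wall x b) x m)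
    (Finset.mem_powerset.2 (Finset.filter_subset _ _))
  rw [hm] at hle
  have hmg : X.dist m (corner X x T0) = 0 := by omega
  have hmg' : m = corner X x T0 := (hX.conn.dist_eq_zero_iff).1 hmg
  rw [hmg'] at m3
  have htri := hX.conn.dist_triangle (u := a) (v := corner X x T0) (w := corner X x U)
  omega

end MP8a95ee.Npc

end

section

/-!
# CU5: automorphisms
-/

set_option autoImplicit false

namespace MP8a95ee.Npc

open Classical

namespace CU5

variable {X : SimpleGraph ℕ}

theorem ap (g : Equiv.Perm ℕ) (x : ℕ) : g (g⁻¹ x) = x := g.apply_symm_apply x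

theorem pa (g : Equiv.Perm ℕ) (x : ℕ) : g⁻¹ (g x) = x := g.symm_apply_apply x

theorem inv_aut {g : Equiv.Perm ℕ} (hg : IsAut X g) : IsAut X g⁻¹ := by
  intro x y
  have h := hg (g⁻¹ x) (g⁻¹ y)
  simp only [ap] at h
  exact h.symm

theorem dist_le (hX : IsMedianGraph X) {g : Equiv.Perm ℕ} (hg : IsAut X g) (x y : ℕ) :
    X.dist (g x) (g y) ≤ X.dist x y := by
  obtain ⟨p, hp⟩ := hX.conn.exists_walk_length_eq_dist x y
  let f : X →g X := ⟨g, fun {a b} h => (hg a b).2 h⟩
  have h1 := SimpleGraph.dist_le (p.map f)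
  rw [SimpleGraph.Walk.length_map, hp] at h1
  exact h1

theorem dist_eq (hX : IsMedianGraph X) {g : Equiv.Perm ℕ} (hg : IsAut X g) (x y : ℕ) :
    X.dist (g x) (g y) = X.dist x y := by
  apply le_antisymm (dist_le hX hg x y)
  have h := dist_le hX (inv_aut hg) (g x) (g y)
  simp only [pa] at h
  exact h

theorem nbr_eq (hf : LocFin X) {g : Equiv.Perm ℕ} (hg : IsAut X g) (x : ℕ) :
    nbr X (g x) = (nbr X x).image g := by
  ext a
  rw [mem_nbr hf, Finset.mem_image]
  constructor
  · intro h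
    refine ⟨g⁻¹ a, ?_, ap g a⟩
    rw [mem_nbr hf, ← hg, ap]
    exact h
  · rintro ⟨b, hb, rfl⟩
    rw [mem_nbr hf] at hb
    exact (hg x b).2 hb

theorem square_iff {g : Equiv.Perm ℕ} (hg : IsAut X g) (x a b : ℕ) :
    Square X (g x) (g a) (g b) ↔ Square X x a b := by
  constructor
  · rintro ⟨y, h1, h2, h3⟩
    refine ⟨g⁻¹ y, ?_, ?_, ?_⟩
    · intro h
      apply h1
      rw [← h, ap]
    · rw [← hg, ap]
      exact h2
    · rw [← hg, ap]
      exact h3
  · rintro ⟨y, h1, h2, h3⟩
    exact ⟨g y, fun h => h1 (g.injective h), (hg a y).2 h2, (hg b y).2 h3⟩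

theorem link_iff (hf : LocFin X) {g : Equiv.Perm ℕ} (hg : IsAut X g) (x : ℕ) (s : Finset ℕ) :
    s.image g ∈ link X (g x) ↔ s ∈ link X x := by
  rw [mem_link, mem_link, nbr_eq hf hg, Finset.image_subset_image_iff g.injective]
  refine and_congr_right fun _ => ?_
  constructor
  · intro h a ha b hb hab
    exact (square_iff hg x a b).1 (h (g a) (Finset.mem_image_of_mem _ ha) (g b)
      (Finset.mem_image_of_mem _ hb) (fun e => hab (g.injective e)))
  · intro h a' ha' b' hb' hab
    obtain ⟨a, ha, rfl⟩ := Finset.mem_image.1 ha'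
    obtain ⟨b, hb, rfl⟩ := Finset.mem_image.1 hb'
    exact (square_iff hg x a b).2 (h a ha b hb (fun e => hab (by rw [e])))

theorem In_eq (hX : IsMedianGraph X) (hf : LocFin X) {g : Equiv.Perm ℕ} (hg : IsAut X g)
    (x v : ℕ) : In X (g x) (g v) = (In X x v).image g := by
  ext a
  rw [mem_In hf, Finset.mem_image]
  constructor
  · rintro ⟨h1, h2⟩
    refine ⟨g⁻¹ a, ?_, ap g a⟩
    rw [mem_In hf, ← hg, ← dist_eq hX hg (g⁻¹ a) v, ← dist_eq hX hg x v,
      ap]
    exact ⟨h1, h2⟩
  · rintro ⟨b, hb, rfl⟩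
    rw [mem_In hf] at hb
    rw [dist_eq hX hg, dist_eq hX hg]
    exact ⟨(hg x b).2 hb.1, hb.2⟩

theorem corner_eq (h5 : S_MG5) (h2 : S_WA2) (h6 : S_WA6) (hX : IsMedianGraph X) (hf : LocFin X)
    {g : Equiv.Perm ℕ} (hg : IsAut X g) (x : ℕ) (s : Finset ℕ) (hs : s ∈ link X x) :
    corner X (g x) (s.image g) = g (corner X x s) := by
  obtain ⟨D⟩ := h5 X hX
  obtain ⟨w1, w2, w3⟩ := h2 X hX D
  have hs' := (link_iff hf hg x s).2 hs
  have hc := h6 X hX hf D x s hs
  have hc' := h6 X hX hf D (g x) (s.image g) hs'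
  have hadj : ∀ a ∈ s, X.Adj x a := fun a ha => (mem_nbr hf).1 ((mem_link.1 hs).1 ha)
  have hadj' : ∀ a ∈ s, X.Adj (g x) (g a) := fun a ha => (hg x a).2 (hadj a ha)
  -- the separating walls of `x` and the corner
  have e1 : D.sep x (corner X x s) = s.image (fun a => D.wall x a) := by
    ext h
    rw [D.mem_sep, hc, Finset.mem_image]
    constructor
    · rintro ⟨a, ha, rfl⟩
      exact ⟨a, ha, rfl⟩
    · rintro ⟨a, ha, rfl⟩
      exact ⟨a, ha, rfl⟩
  have c1 : X.dist x (corner X x s) = s.card := by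
    rw [D.dist_eq, e1, Finset.card_image_of_injOn]
    intro a ha b hb hab
    exact w3 x a b (hadj a ha) (hadj b hb) hab
  have e2 : s.image (fun a => D.wall (g x) (g a)) ⊆ D.sep (g x) (g (corner X x s)) := by
    intro h hh
    obtain ⟨a, ha, rfl⟩ := Finset.mem_image.1 hh
    rw [D.mem_sep, ← w1 (g x) (g a) _ (hadj' a ha), dist_eq hX hg, dist_eq hX hg,
      w1 x a _ (hadj a ha), hc]
    exact ⟨a, ha, rfl⟩
  have c2 : (s.image (fun a => D.wall (g x) (g a))).card = s.card := by
    apply Finset.card_image_of_injOn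
    intro a ha b hb hab
    exact g.injective (w3 (g x) (g a) (g b) (hadj' a ha) (hadj' b hb) hab)
  have e3 : s.image (fun a => D.wall (g x) (g a)) = D.sep (g x) (g (corner X x s)) := by
    apply Finset.eq_of_subset_of_card_le e2
    rw [← D.dist_eq, dist_eq hX hg, c1, c2]
  apply w2
  intro h hh
  rw [D.Sep_trans (y := g x), D.Sep_comm (x := corner X (g x) (s.image g)), hc',
    ← D.mem_sep, ← e3] at hh
  apply hh
  simp only [Finset.mem_image]
  constructor
  · rintro ⟨_, ⟨a, ha, rfl⟩, rfl⟩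
    exact ⟨a, ha, rfl⟩
  · rintro ⟨a, ha, rfl⟩
    exact ⟨g a, ⟨a, ha, rfl⟩, rfl⟩

theorem cubePt_eq (h5 : S_MG5) (h2 : S_WA2) (h6 : S_WA6) (hX : IsMedianGraph X) (hf : LocFin X)
    {g : Equiv.Perm ℕ} (hg : IsAut X g) (x : ℕ) (s : Finset ℕ) (hs : s ∈ link X x)
    (q : ℕ → ℝ) (y : ℕ) :
    cubePt X (g x) (s.image g) q (g y) = cubePt X x s (fun a => q (g a)) y := by
  unfold cubePt
  symm
  refine Finset.sum_bij (fun T _ => T.image g) ?_ ?_ ?_ ?_
  · intro T hT
    rw [Finset.mem_filter, Finset.mem_powerset] at hT ⊢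
    refine ⟨Finset.image_subset_image hT.1, ?_⟩
    rw [corner_eq h5 h2 h6 hX hf hg x T (link_mono hs hT.1), hT.2]
  · intro T _ T' _ h
    exact Finset.image_injective g.injective h
  · intro T hT
    rw [Finset.mem_filter, Finset.mem_powerset] at hT
    have e1 : (T.image ⇑g⁻¹).image g = T := by
      rw [Finset.image_image]
      have : (⇑g ∘ ⇑g⁻¹) = id := by
        funext z
        simp
      rw [this, Finset.image_id]
    have e2 : T.image ⇑g⁻¹ ⊆ s := by
      intro a ha
      obtain ⟨b, hb, rfl⟩ := Finset.mem_image.1 ha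
      obtain ⟨c, hc, rfl⟩ := Finset.mem_image.1 (hT.1 hb)
      simpa using hc
    refine ⟨T.image ⇑g⁻¹, ?_, e1⟩
    rw [Finset.mem_filter, Finset.mem_powerset]
    refine ⟨e2, ?_⟩
    have e3 := corner_eq h5 h2 h6 hX hf hg x (T.image ⇑g⁻¹) (link_mono hs e2)
    rw [e1, hT.2] at e3
    exact (g.injective e3).symm
  · intro T hT
    rw [Finset.mem_filter, Finset.mem_powerset] at hT
    rw [← Finset.image_sdiff s T g.injective, Finset.prod_image g.injective.injOn,
      Finset.prod_image g.injective.injOn]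

end CU5

open CU5 in
theorem prfCU5 (h1 : S_MG5) (h2 : S_WA2) (h3 : S_WA6) : S_CU5 := by
  intro X hX hf g hg
  exact ⟨dist_eq hX hg, nbr_eq hf hg, square_iff hg, link_iff hf hg, In_eq hX hf hg,
    fun x s hs => corner_eq h1 h2 h3 hX hf hg x s hs,
    fun x s hs q y => cubePt_eq h1 h2 h3 hX hf hg x s hs q y⟩

end MP8a95ee.Npc

end

section

/-!
# EV1: value of the cocycle on the vertices of a cube
-/

set_option autoImplicit false

namespace MP8a95ee.Npc

open Classical

namespace EV1

theorem In_face {X : SimpleGraph ℕ} (hf : LocFin X) (D : WS X)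
    (h2 : ∀ x a v, X.Adj x a → (X.dist a v < X.dist x v ↔ D.Sep (D.wall x a) x v))
    (h3 : ∀ x a b, X.Adj x a → X.Adj x b → a ≠ b →
      (Square X x a b ↔ ∃ v, D.Sep (D.wall x a) x v ∧ D.Sep (D.wall x b) x v))
    (x v : ℕ) : In X x v ∈ link X x := by
  rw [mem_link]
  refine ⟨Finset.filter_subset _ _, ?_⟩
  intro a ha b hb hab
  rw [mem_In hf] at ha hb
  exact (h3 x a b ha.1 hb.1 hab).2 ⟨v, (h2 x a v ha.1).1 ha.2, (h2 x b v hb.1).1 hb.2⟩

theorem sub_image {k : ℕ} (s : Fin k → ℕ) (T : Finset ℕ) (hT : T ⊆ Finset.univ.image s) :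
    ∃ I : Finset (Fin k), I.image s = T := by
  refine ⟨Finset.univ.filter fun j => s j ∈ T, ?_⟩
  ext a
  rw [Finset.mem_image]
  constructor
  · rintro ⟨j, hj, rfl⟩
    exact (Finset.mem_filter.1 hj).2
  · intro ha
    obtain ⟨j, _, rfl⟩ := Finset.mem_image.1 (hT ha)
    exact ⟨j, Finset.mem_filter.2 ⟨Finset.mem_univ _, ha⟩, rfl⟩

theorem pre_eq {k : ℕ} (s : Fin k → ℕ) (i : ℕ) :
    Sp.pre s i = (Finset.univ.filter fun j : Fin k => (j : ℕ) < i).image s := by
  ext a
  rw [Sp.mem_pre, Finset.mem_image]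
  constructor
  · rintro ⟨j, hj, rfl⟩
    exact ⟨j, Finset.mem_filter.2 ⟨Finset.mem_univ _, hj⟩, rfl⟩
  · rintro ⟨j, hj, rfl⟩
    exact ⟨j, (Finset.mem_filter.1 hj).2, rfl⟩

end EV1

theorem prfEV1 (h1 : S_MG5) (h2 : S_WA2) (h3 : S_WA3) (h4 : S_CU1) (h5 : S_CU4) (h6 : S_ZC1) :
    S_EV1 := by
  intro X hX hf k f hV x s hs
  obtain ⟨D⟩ := h1 X hX
  have h2a := (h2 X hX D).1
  have h3a : ∀ x a b, X.Adj x a → X.Adj x b → a ≠ b →
      (Square X x a b ↔ ∃ v, D.Sep (D.wall x a) x v ∧ D.Sep (D.wall x b) x v) :=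
    fun x a b ha hb hab => (h3 X hX D x a b ha hb hab).1
  have hs' := hs
  unfold Dom at hs'
  rw [Finset.mem_filter] at hs'
  obtain ⟨_, hinj, hlink⟩ := hs'
  have hsub : ∀ I : Finset (Fin k), I.image s ⊆ Finset.univ.image s := fun I =>
    Finset.image_subset_image (Finset.subset_univ I)
  have hcorner : Function.Injective fun I : Finset (Fin k) => corner X x (I.image s) := by
    intro I J hIJ
    have h7 := (h4 X hX hf x _ hlink).2.2.1 (I.image s) (hsub I) (J.image s) (hsub J) hIJ
    exact Finset.image_injective hinj h7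
  unfold ct
  rw [finsum_eq_sum_of_support_subset (s := Finset.univ.image
    fun I : Finset (Fin k) => corner X x (I.image s))]
  · rw [Finset.sum_image (fun I _ J _ h => hcorner h)]
    refine Finset.sum_congr rfl fun I _ => ?_
    have h8 : (th X I x s).1 = corner X x (I.image s) := rfl
    rw [← h8]
    congr 1
    funext i
    have h9 := (h6 X hX hf k I x s hs).2.2.2.2
      (Finset.univ.filter fun j : Fin k => (j : ℕ) < (i : ℕ))
    rw [← h9, ← EV1.pre_eq]
  · intro z hz
    by_contra hzC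
    apply hz
    have hz1 : ∀ T ⊆ Finset.univ.image s, z ≠ corner X x T := by
      intro T hT hzT
      obtain ⟨I, rfl⟩ := EV1.sub_image s T hT
      apply hzC
      rw [Finset.mem_coe, Finset.mem_image]
      exact ⟨I, Finset.mem_univ _, hzT.symm⟩
    obtain ⟨a, ha⟩ := h5 X hX hf x _ hlink z hz1
    have hmem : ∀ i : Fin (k + 1), a ∈ In X z (corner X x (Sp.pre s i)) := by
      intro i
      rw [EV1.pre_eq]
      exact ha _ (hsub _)
    exact hV z _ (fun i => ⟨EV1.In_face hf D h2a h3a _ _, a, hmem i⟩) ⟨a, hmem⟩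

end MP8a95ee.Npc

end

section

/-!
# EV2: value of the cocycle on the fundamental cycle
-/

set_option autoImplicit false

namespace MP8a95ee.Npc

namespace EV2

/-- the filter in the definition of `flips` -/
def jf {n : ℕ} (i : Fin (n + 1)) : Finset (Fin n) :=
  Finset.univ.filter fun j : Fin n => (j : ℕ) < (i : ℕ)

theorem sum_sets {n : ℕ} (s : Fin n → ℕ) (hs : Function.Injective s)
    (f : (Fin n → Finset ℕ) → ℝ) :
    ∑ I : Finset (Fin n), (-1 : ℝ) ^ I.card *
        RA.dl f (fun i : Fin (n + 1) => (symmDiff I (jf i)).image s) =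
      ∑ A ∈ (Finset.univ.image s).powerset, (-1 : ℝ) ^ A.card * RA.dl f (flips A s) := by
  refine Finset.sum_bij' (fun I _ => I.image s)
    (fun A _ => Finset.univ.filter fun j => s j ∈ A) ?_ ?_ ?_ ?_ ?_
  · intro I _
    exact Finset.mem_powerset.2 (Finset.image_subset_image (Finset.subset_univ I))
  · intro A _
    exact Finset.mem_univ _
  · intro I _
    ext j
    simp only [Finset.mem_filter, Finset.mem_univ, true_and, Finset.mem_image]
    constructor
    · rintro ⟨i, hi, he⟩
      exact hs he ▸ hi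
    · intro hj
      exact ⟨j, hj, rfl⟩
  · intro A hA
    ext a
    simp only [Finset.mem_filter, Finset.mem_univ, true_and, Finset.mem_image]
    constructor
    · rintro ⟨i, hi, rfl⟩
      exact hi
    · intro ha
      obtain ⟨i, _, rfl⟩ := Finset.mem_image.1 (Finset.mem_powerset.1 hA ha)
      exact ⟨i, ha, rfl⟩
  · intro I _
    rw [Finset.card_image_of_injective _ hs]
    congr 2
    funext i
    unfold flips
    rw [Finset.image_symmDiff _ _ hs]
    rfl

theorem dl_equi {Γ : Subgroup (Equiv.Perm ℕ)} {k : ℕ} {f : ℕ → (Fin k → Finset ℕ) → ℝ}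
    (hf : Equi Γ f) {g : Equiv.Perm ℕ} (hg : g ∈ Γ) (x : ℕ) (T : Fin (k + 1) → Finset ℕ) :
    RA.dl (f (g x)) (fun i => (T i).image g) = RA.dl (f x) T := by
  unfold RA.dl
  apply Finset.sum_congr rfl
  intro i _
  congr 1
  exact hf g hg x (fun j => T (i.succAbove j))

end EV2

open EV2 in
/-- EV2 -/
theorem prfEV2 (h1 : S_EV1) (h4 : S_ZC1) (h5 : S_ZC2) (h6 : S_ZC6) : S_EV2 := by
  classical
  intro X hX hX' Γ F hD m o ho f hv he
  -- step 1
  have e1 : ∀ x ∈ F, ∀ s ∈ Dom X (m + 1) x,
      (o x s : ℝ) * ct X f (fun i => corner X x (Sp.pre s i)) =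
      ∑ I : Finset (Fin (m + 1)), (-1 : ℝ) ^ I.card * ((o (th X I x s).1 (th X I x s).2 : ℝ) *
        RA.dl (f (th X I x s).1) (fun i : Fin (m + 1 + 1) =>
          (symmDiff I (jf i)).image (th X I x s).2)) := by
    intro x _ s hs
    rw [h1 X hX hX' (m + 1) f hv x s hs, Finset.mul_sum]
    apply Finset.sum_congr rfl
    intro I _
    have e := (h4 X hX hX' (m + 1) I x s hs).2.2.2.1 Γ o ho
    have e' : (o x s : ℝ) = (-1 : ℝ) ^ I.card * (o (th X I x s).1 (th X I x s).2 : ℝ) := by
      rw [e]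
      push_cast
      rw [← mul_assoc, ← mul_pow]
      norm_num
    rw [e', mul_assoc]
    rfl
  rw [Finset.sum_congr rfl fun x hx => Finset.sum_congr rfl (e1 x hx)]
  -- step 2
  have e2 : ∑ x ∈ F, ∑ s ∈ Dom X (m + 1) x, ∑ I : Finset (Fin (m + 1)),
      (-1 : ℝ) ^ I.card * ((o (th X I x s).1 (th X I x s).2 : ℝ) *
        RA.dl (f (th X I x s).1) (fun i : Fin (m + 1 + 1) =>
          (symmDiff I (jf i)).image (th X I x s).2)) =
      ∑ I : Finset (Fin (m + 1)), ∑ x ∈ F, ∑ s ∈ Dom X (m + 1) x,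
      (-1 : ℝ) ^ I.card * ((o (th X I x s).1 (th X I x s).2 : ℝ) *
        RA.dl (f (th X I x s).1) (fun i : Fin (m + 1 + 1) =>
          (symmDiff I (jf i)).image (th X I x s).2)) := by
    rw [Finset.sum_comm]
    conv_rhs => rw [Finset.sum_comm]
    rw [Finset.sum_comm]
    apply Finset.sum_congr rfl
    intro x _
    rw [Finset.sum_comm]
  rw [e2]
  have e3 : ∀ I : Finset (Fin (m + 1)), ∑ x ∈ F, ∑ s ∈ Dom X (m + 1) x,
      (-1 : ℝ) ^ I.card * ((o (th X I x s).1 (th X I x s).2 : ℝ) *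
        RA.dl (f (th X I x s).1) (fun i : Fin (m + 1 + 1) =>
          (symmDiff I (jf i)).image (th X I x s).2)) =
      ∑ x ∈ F, ∑ s ∈ Dom X (m + 1) x, (-1 : ℝ) ^ I.card * ((o x s : ℝ) *
        RA.dl (f x) (fun i : Fin (m + 1 + 1) => (symmDiff I (jf i)).image s)) := by
    intro I
    refine h5 X hX hX' Γ F hD (m + 1) I ℝ (fun x s => (-1 : ℝ) ^ I.card * ((o x s : ℝ) *
        RA.dl (f x) (fun i : Fin (m + 1 + 1) => (symmDiff I (jf i)).image s))) ?_
    intro g hg x s _
    have e4 := dl_equi he hg x (fun i : Fin (m + 1 + 1) => (symmDiff I (jf i)).image s)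
    have e5 : (fun i : Fin (m + 1 + 1) => (symmDiff I (jf i)).image fun i => g (s i)) =
        fun i : Fin (m + 1 + 1) => ((symmDiff I (jf i)).image s).image g := by
      funext i
      rw [Finset.image_image]
      rfl
    rw [ho.inv g hg x s, e5, e4]
  rw [Finset.sum_congr rfl fun I _ => e3 I]
  -- step 3
  have e6 : ∑ I : Finset (Fin (m + 1)), ∑ x ∈ F, ∑ s ∈ Dom X (m + 1) x,
      (-1 : ℝ) ^ I.card * ((o x s : ℝ) *
        RA.dl (f x) (fun i : Fin (m + 1 + 1) => (symmDiff I (jf i)).image s)) =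
      ∑ x ∈ F, ∑ s ∈ Dom X (m + 1) x, (o x s : ℝ) * ∑ I : Finset (Fin (m + 1)),
        (-1 : ℝ) ^ I.card *
          RA.dl (f x) (fun i : Fin (m + 1 + 1) => (symmDiff I (jf i)).image s) := by
    rw [Finset.sum_comm]
    apply Finset.sum_congr rfl
    intro x _
    rw [Finset.sum_comm]
    apply Finset.sum_congr rfl
    intro s _
    rw [Finset.mul_sum]
    apply Finset.sum_congr rfl
    intro I _
    ring
  rw [e6, Finset.mul_sum]
  apply Finset.sum_congr rfl
  intro x _
  obtain ⟨q1, q2, _⟩ := (h6 X hX hX').1 x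
  have ho' := (h6 X hX hX').2 Γ (m + 1) o ho x
  have e7 := RA.itemP11 (link X x) q1 m (o x) ho' (f x)
  rw [← e7, q2]
  unfold Dom
  rw [Finset.sum_filter]
  apply Finset.sum_congr rfl
  intro s hs
  split_ifs with h
  · rw [sum_sets s h.1 (f x)]
  · have h0 : o x s = 0 := by
      by_contra hne
      apply h
      refine ⟨?_, ho.supp x s hne⟩
      by_contra hinj
      exact hne (B5.o_eq_zero ho' hinj)
    rw [h0]
    simp

end MP8a95ee.Npc

end

section

/-!
# MG1: adjacent vertices of a median graph have different distances from every vertex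
-/

set_option autoImplicit false

namespace MP8a95ee.Npc

theorem prfMG1 : S_MG1 := by
  intro X hX x a hxa z
  obtain ⟨m, ⟨h1, h2, h3⟩, -⟩ := hX.med x a z
  have h4 : X.dist x a = 1 := SimpleGraph.dist_eq_one_iff_adj.2 hxa
  have c1 : X.dist z a = X.dist a z := SimpleGraph.dist_comm
  have c2 : X.dist z x = X.dist x z := SimpleGraph.dist_comm
  have c3 : X.dist a m = X.dist m a := SimpleGraph.dist_comm
  by_cases h5 : X.dist x m = 0
  · left
    omega
  · right
    omega

end MP8a95ee.Npc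

end

section

/-!
# MG2: all edges leaving a half space define the same half space
-/

set_option autoImplicit false

namespace MP8a95ee.Npc

namespace MG2

variable {X : SimpleGraph ℕ}

theorem adj_one {x a : ℕ} (h : X.Adj x a) : X.dist x a = 1 := SimpleGraph.dist_eq_one_iff_adj.2 h

theorem one_adj {x a : ℕ} (h : X.dist x a = 1) : X.Adj x a := SimpleGraph.dist_eq_one_iff_adj.1 h

/-- a neighbour closer to `y` -/
theorem exists_closer (hX : X.Connected) {x y k : ℕ} (h : X.dist x y = k + 1) :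
    ∃ x1, X.Adj x x1 ∧ X.dist x1 y = k := by
  obtain ⟨p, hp⟩ := (hX x y).exists_walk_length_eq_dist
  rw [h] at hp
  cases p with
  | nil => simp at hp
  | cons hadj q =>
    rename_i x1
    refine ⟨x1, hadj, ?_⟩
    rw [SimpleGraph.Walk.length_cons] at hp
    have h1 : X.dist x1 y ≤ q.length := SimpleGraph.dist_le q
    have h2 : X.dist x y ≤ X.dist x x1 + X.dist x1 y := hX.dist_triangle
    rw [adj_one hadj] at h2
    omega

/-- vertices with a common neighbour -/
theorem two (h1 : S_MG1) (hX : IsMedianGraph X) {u v w : ℕ} (huv : X.Adj v u) (hvw : X.Adj v w)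
    (hne : u ≠ w) : X.dist u w = 2 := by
  have h2 := h1 X hX v w hvw u
  rw [X.dist_comm (u := u) (v := v), adj_one huv] at h2
  have h3 : X.dist u w ≠ 0 := fun h => hne (hX.conn.dist_eq_zero_iff.1 h)
  omega

theorem core (h1 : S_MG1) (hX : IsMedianGraph X) {x x1 a1 a : ℕ} (e1 : X.Adj x x1)
    (e2 : X.Adj x1 a1) (e3 : X.Adj a1 a) (e4 : X.Adj a x) (n1 : x1 ≠ a) (n2 : x ≠ a1) (z : ℕ)
    (c1 : X.dist z x < X.dist z a) (c2 : X.dist z a1 < X.dist z x1) : False := by
  have f1 := h1 X hX x a e4.symm z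
  have f2 := h1 X hX x1 a1 e2 z
  have f3 := h1 X hX a1 a e3 z
  have f4 := h1 X hX x x1 e1 z
  have g1 : X.dist x a1 = 2 := two h1 hX e4 e3.symm n2
  obtain ⟨m, ⟨m1, m2, m3⟩, -⟩ := hX.med x a1 z
  rw [g1] at m1
  rw [X.dist_comm (u := a1) (v := z)] at m2
  rw [X.dist_comm (u := x) (v := z)] at m3
  have s1 : X.dist a1 m = X.dist m a1 := X.dist_comm
  have hxm : X.dist x m = 1 := by omega
  have hma : X.dist m a1 = 1 := by omega
  have hmz : X.dist z m = X.dist m z := X.dist_comm
  have nma : m ≠ a := by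
    rintro rfl
    omega
  have nmx : m ≠ x1 := by
    rintro rfl
    omega
  have am : X.Adj x m := one_adj hxm
  have t1 : X.dist a x1 = 2 := two h1 hX e4.symm e1 n1.symm
  have t2 : X.dist x1 m = 2 := two h1 hX e1 am nmx.symm
  have t3 : X.dist a m = 2 := two h1 hX e4.symm am nma.symm
  obtain ⟨m', -, hu⟩ := hX.med a x1 m
  have u1 := hu x ⟨by rw [adj_one e4, adj_one e1, t1],
    by rw [adj_one e1.symm, hxm, t2], by rw [adj_one e4, hxm, t3]⟩
  have u2 := hu a1 ⟨by rw [adj_one e3.symm, adj_one e2.symm, t1],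
    by rw [adj_one e2, s1, hma, t2], by rw [adj_one e3.symm, s1, hma, t3]⟩
  exact n2 (u1.trans u2.symm)

theorem square (h1 : S_MG1) (hX : IsMedianGraph X) {x x1 a1 a : ℕ} (e1 : X.Adj x x1)
    (e2 : X.Adj x1 a1) (e3 : X.Adj a1 a) (e4 : X.Adj a x) (n1 : x1 ≠ a) (n2 : x ≠ a1) :
    half X x1 a1 = half X x a := by
  ext z
  change X.dist z x1 < X.dist z a1 ↔ X.dist z x < X.dist z a
  have f1 := h1 X hX x a e4.symm z
  have f2 := h1 X hX x1 a1 e2 z
  constructor
  · intro h
    by_contra h'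
    exact core h1 hX e3.symm e2.symm e1.symm e4.symm n2.symm n1.symm z (by omega) h
  · intro h
    by_contra h'
    exact core h1 hX e1 e2 e3 e4 n1 n2 z h (by omega)

theorem main (h1 : S_MG1) (hX : IsMedianGraph X) (y b : ℕ) (hyb : X.Adj y b) (k : ℕ) :
    ∀ x a, X.Adj x a → X.dist x y = k → y ∈ half X x a → b ∉ half X x a →
      half X y b = half X x a := by
  induction k with
  | zero =>
    intro x a hxa hk hy hb
    have hxy : x = y := hX.conn.dist_eq_zero_iff.1 hk
    subst hxy
    change ¬ (X.dist b x < X.dist b a) at hb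
    have f1 := h1 X hX x a hxa b
    have g1 : X.dist b x = 1 := adj_one hyb.symm
    have g2 : X.dist b a = 0 := by omega
    rw [hX.conn.dist_eq_zero_iff.1 g2]
  | succ k ih =>
    intro x a hxa hk hy hb
    have hy' : X.dist y x < X.dist y a := hy
    have hb' : ¬ (X.dist b x < X.dist b a) := hb
    have f1 := h1 X hX x a hxa y
    have f2 := h1 X hX x a hxa b
    have c1 : X.dist y x = X.dist x y := X.dist_comm
    have c2 : X.dist b y = 1 := adj_one hyb.symm
    have c3 : X.dist y b = 1 := adj_one hyb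
    have t1 : X.dist b x ≤ X.dist b y + X.dist y x := hX.conn.dist_triangle
    have t2 : X.dist y a ≤ X.dist y b + X.dist b a := hX.conn.dist_triangle
    obtain ⟨x1, e1, hx1⟩ := exists_closer hX.conn hk
    have n1 : x1 ≠ a := by
      rintro rfl
      have : X.dist y x1 = X.dist x1 y := X.dist_comm
      omega
    have g1 : X.dist x1 a = 2 := two h1 hX e1 hxa n1
    have t3 : X.dist b x ≤ X.dist b x1 + X.dist x1 x := hX.conn.dist_triangle
    have t4 : X.dist x1 b ≤ X.dist x1 y + X.dist y b := hX.conn.dist_triangle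
    have c4 : X.dist x1 x = 1 := adj_one e1.symm
    have c5 : X.dist b x1 = X.dist x1 b := X.dist_comm
    have c6 : X.dist b a = X.dist a b := X.dist_comm
    obtain ⟨a1, ⟨m1, m2, m3⟩, -⟩ := hX.med x1 a b
    have c7 : X.dist a1 a = X.dist a a1 := X.dist_comm
    have c8 : X.dist a1 b = X.dist b a1 := X.dist_comm
    have e2 : X.Adj x1 a1 := one_adj (by omega)
    have e3 : X.Adj a1 a := one_adj (by omega)
    have n2 : x ≠ a1 := by
      rintro rfl
      omega
    have hs := square h1 hX e1 e2 e3 hxa.symm n1 n2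
    rw [← hs] at hy hb ⊢
    exact ih x1 a1 e2 hx1 hy hb

end MG2

theorem prfMG2 (h1 : S_MG1) : S_MG2 :=
  fun _ hX x a y b hxa hyb hy hb => MG2.main h1 hX y b hyb _ x a hxa rfl hy hb

end MP8a95ee.Npc

end

section

/-!
# MG3: half spaces are convex (helper61)
-/

set_option autoImplicit false

namespace MP8a95ee.Npc

namespace MG3

theorem closer {X : SimpleGraph ℕ} (hc : X.Connected) {z w : ℕ} (hzw : z ≠ w) :
    ∃ z', X.Adj z z' ∧ X.dist z' w + 1 = X.dist z w := by
  obtain ⟨p, hp⟩ := hc.exists_walk_length_eq_dist z w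
  cases p with
  | nil => exact absurd rfl hzw
  | @cons _ v _ h p =>
    refine ⟨v, h, ?_⟩
    rw [SimpleGraph.Walk.length_cons] at hp
    have h1 : X.dist v w ≤ p.length := SimpleGraph.dist_le p
    have h2 : X.dist z w ≤ X.dist z v + X.dist v w := hc.dist_triangle
    have h3 : X.dist z v = 1 := SimpleGraph.dist_eq_one_iff_adj.2 h
    omega

theorem cross {X : SimpleGraph ℕ} (hc : X.Connected) (A : Set ℕ) (w : ℕ) (hw : w ∉ A) (n : ℕ) :
    ∀ z ∈ A, X.dist z w = n →
      ∃ p q, X.Adj p q ∧ p ∈ A ∧ q ∉ A ∧ X.dist z p + 1 + X.dist q w = X.dist z w := by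
  induction n with
  | zero =>
    intro z hz hzw
    have h := (hc z w).dist_eq_zero_iff.1 hzw
    rw [h] at hz
    exact absurd hz hw
  | succ n ih =>
    intro z hz hzw
    have hne : z ≠ w := by
      intro h
      rw [h] at hz
      exact hw hz
    obtain ⟨z', hz1, hz2⟩ := closer hc hne
    by_cases hz' : z' ∈ A
    · obtain ⟨p, q, h1, h2, h3, h4⟩ := ih z' hz' (by omega)
      refine ⟨p, q, h1, h2, h3, ?_⟩
      have h5 : X.dist z p ≤ X.dist z z' + X.dist z' p := hc.dist_triangle
      have h6 : X.dist z z' = 1 := SimpleGraph.dist_eq_one_iff_adj.2 hz1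
      have h7 : X.dist z w ≤ X.dist z p + X.dist p w := hc.dist_triangle
      have h8 : X.dist p w ≤ X.dist p q + X.dist q w := hc.dist_triangle
      have h9 : X.dist p q = 1 := SimpleGraph.dist_eq_one_iff_adj.2 h1
      omega
    · refine ⟨z, z', hz1, hz, hz', ?_⟩
      rw [SimpleGraph.dist_self]
      omega

end MG3

theorem prfMG3 (h2 : S_MG2) : S_MG3 := by
  intro X hX x a hxa z hz z' hz' w hw
  by_contra hwA
  have hc := hX.conn
  obtain ⟨p, q, hpq, hp, hq, he⟩ := MG3.cross hc (half X x a) w hwA (X.dist z w) z hz rfl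
  have h3 := h2 X hX x a p q hxa hpq hp hq
  rw [← h3] at hz'
  have h4 : X.dist z' p < X.dist z' q := hz'
  have h5 : X.dist z z' ≤ X.dist z p + X.dist p z' := hc.dist_triangle
  have h6 : X.dist q z' ≤ X.dist q w + X.dist w z' := hc.dist_triangle
  rw [SimpleGraph.dist_comm (u := z') (v := p), SimpleGraph.dist_comm (u := z') (v := q)] at h4
  omega

end MP8a95ee.Npc

end

section

/-!
# Nonpositively curved cubulations: MG4 (Helly property for convex sets of a median graph)
-/

set_option autoImplicit false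

namespace MP8a95ee.Npc

open Classical

namespace MG4

theorem conv_inter (X : SimpleGraph ℕ) (A B : Set ℕ) (hA : Conv X A) (hB : Conv X B) :
    Conv X (A ∩ B) := by
  intro z hz z' hz' w hw
  exact ⟨hA z hz.1 z' hz'.1 w hw, hB z hz.2 z' hz'.2 w hw⟩

theorem helly3 (X : SimpleGraph ℕ) (hX : IsMedianGraph X) (A B C : Set ℕ) (hA : Conv X A)
    (hB : Conv X B) (hC : Conv X C) (hBC : (B ∩ C).Nonempty) (hAC : (A ∩ C).Nonempty)
    (hAB : (A ∩ B).Nonempty) : ((A ∩ B) ∩ (A ∩ C)).Nonempty := by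
  obtain ⟨x, hxB, hxC⟩ := hBC
  obtain ⟨y, hyA, hyC⟩ := hAC
  obtain ⟨z, hzA, hzB⟩ := hAB
  obtain ⟨m, ⟨h1, h2, h3⟩, -⟩ := hX.med x y z
  have mA : m ∈ A := hA y hyA z hzA m h2
  have mB : m ∈ B := hB x hxB z hzB m h3
  have mC : m ∈ C := hC x hxC y hyC m h1
  exact ⟨m, ⟨mA, mB⟩, ⟨mA, mC⟩⟩

theorem helly (X : SimpleGraph ℕ) (hX : IsMedianGraph X) : ∀ (n : ℕ) (S : Finset (Set ℕ)),
    S.card ≤ n → (∀ A ∈ S, Conv X A) → (∀ A ∈ S, ∀ B ∈ S, (A ∩ B).Nonempty) →
    ∃ z, ∀ A ∈ S, z ∈ A := by
  intro n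
  induction n with
  | zero =>
    intro S hS _ _
    have : S = ∅ := Finset.card_eq_zero.mp (Nat.le_zero.mp hS)
    subst this
    exact ⟨0, by simp⟩
  | succ n ih =>
    intro S hS hc hi
    rcases S.eq_empty_or_nonempty with rfl | ⟨A, hAS⟩
    · exact ⟨0, by simp⟩
    · by_cases hS' : (S.erase A).Nonempty
      · obtain ⟨B0, hB0⟩ := hS'
        have hcard : ((S.erase A).image (fun B => A ∩ B)).card ≤ n := by
          refine le_trans Finset.card_image_le ?_
          rw [Finset.card_erase_of_mem hAS]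
          omega
        obtain ⟨z, hz⟩ := ih ((S.erase A).image (fun B => A ∩ B)) hcard
          (by
            intro D hD
            obtain ⟨B, hB, rfl⟩ := Finset.mem_image.mp hD
            exact conv_inter X A B (hc A hAS) (hc B (Finset.mem_of_mem_erase hB)))
          (by
            intro D hD E hE
            obtain ⟨B, hB, rfl⟩ := Finset.mem_image.mp hD
            obtain ⟨C, hC, rfl⟩ := Finset.mem_image.mp hE
            have hB' := Finset.mem_of_mem_erase hB
            have hC' := Finset.mem_of_mem_erase hC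
            exact helly3 X hX A B C (hc A hAS) (hc B hB') (hc C hC') (hi B hB' C hC')
              (hi A hAS C hC') (hi A hAS B hB'))
        refine ⟨z, ?_⟩
        intro D hD
        by_cases hDA : D = A
        · subst hDA
          exact (hz _ (Finset.mem_image_of_mem _ hB0)).1
        · exact (hz _ (Finset.mem_image_of_mem _ (Finset.mem_erase.mpr ⟨hDA, hD⟩))).2
      · obtain ⟨z, hz⟩ := hi A hAS A hAS
        refine ⟨z, ?_⟩
        intro D hD
        by_cases hDA : D = A
        · subst hDA; exact hz.1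
        · exact absurd ⟨D, Finset.mem_erase.mpr ⟨hDA, hD⟩⟩ hS'

end MG4

theorem prfMG4 : S_MG4 := by
  intro X hX S hc hi
  exact MG4.helly X hX S.card S le_rfl hc hi

end MP8a95ee.Npc

end

section

/-!
# Item MG5: the walls of a median graph
-/

set_option autoImplicit false

namespace MP8a95ee.Npc

open Classical

namespace MG5

variable {X : SimpleGraph ℕ}

theorem half_compl (h1 : S_MG1) (hX : IsMedianGraph X) {x a : ℕ} (hxa : X.Adj x a) :
    (half X x a)ᶜ = half X a x := by
  ext z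
  have h := h1 X hX x a hxa z
  simp only [half, Set.mem_compl_iff, Set.mem_ofPred_eq]
  omega

theorem self_mem {x a : ℕ} (hxa : X.Adj x a) : x ∈ half X x a := by
  simp only [half, Set.mem_ofPred_eq, SimpleGraph.dist_self]
  rw [SimpleGraph.dist_eq_one_iff_adj.2 hxa]
  norm_num

theorem other_notMem {x a : ℕ} : a ∉ half X x a := by
  simp only [half, Set.mem_ofPred_eq, SimpleGraph.dist_self]
  omega

/-- a neighbour on a geodesic -/
theorem exists_step (hX : IsMedianGraph X) {x y n : ℕ} (h : X.dist x y = n + 1) :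
    ∃ a, X.Adj x a ∧ X.dist a y = n := by
  obtain ⟨p, hp⟩ := (hX.conn.preconnected x y).exists_walk_length_eq_dist
  cases p with
  | nil =>
    rw [SimpleGraph.dist_self] at h
    omega
  | cons hxa q =>
    rename_i a
    refine ⟨a, hxa, ?_⟩
    rw [SimpleGraph.Walk.length_cons, h] at hp
    have h1 : X.dist a y ≤ q.length := SimpleGraph.dist_le q
    have h2 : X.dist x y ≤ X.dist x a + X.dist a y := hX.conn.dist_triangle
    rw [SimpleGraph.dist_eq_one_iff_adj.2 hxa] at h2
    omega

/-- the type of walls -/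
def Hty (X : SimpleGraph ℕ) : Type :=
  {A : Set ℕ // 0 ∈ A ∧ ∃ x a, X.Adj x a ∧ A = half X x a}

theorem exists_wall (h1 : S_MG1) (hX : IsMedianGraph X) {x a : ℕ} (hxa : X.Adj x a) :
    ∃ h : Hty X, h.1 = half X x a ∨ h.1 = half X a x := by
  by_cases h0 : (0 : ℕ) ∈ half X x a
  · exact ⟨⟨half X x a, h0, x, a, hxa, rfl⟩, Or.inl rfl⟩
  · have h0' : (0 : ℕ) ∈ half X a x := by
      rw [← half_compl h1 hX hxa]
      exact h0
    exact ⟨⟨half X a x, h0', a, x, hxa.symm, rfl⟩, Or.inr rfl⟩

theorem nonempty_H (h1 : S_MG1) (hX : IsMedianGraph X) : Nonempty (Hty X) := by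
  have h01 : X.dist 0 1 ≠ 0 := by
    intro h
    have := hX.conn.dist_eq_zero_iff.1 h
    omega
  obtain ⟨n, hn⟩ := Nat.exists_eq_succ_of_ne_zero h01
  obtain ⟨a, ha, -⟩ := exists_step hX hn
  obtain ⟨h, -⟩ := exists_wall h1 hX ha
  exact ⟨h⟩

/-- the wall of an edge -/
noncomputable def wl (h1 : S_MG1) (hX : IsMedianGraph X) (x a : ℕ) : Hty X :=
  if h : X.Adj x a then (exists_wall h1 hX h).choose else (nonempty_H h1 hX).some

theorem wl_spec (h1 : S_MG1) (hX : IsMedianGraph X) {x a : ℕ} (hxa : X.Adj x a) :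
    (wl h1 hX x a).1 = half X x a ∨ (wl h1 hX x a).1 = half X a x := by
  unfold wl
  rw [dif_pos hxa]
  exact (exists_wall h1 hX hxa).choose_spec

theorem stp (h1 : S_MG1) (h2 : S_MG2) (hX : IsMedianGraph X) {x a : ℕ} (hxa : X.Adj x a)
    (h : Hty X) : ¬ (x ∈ h.1 ↔ a ∈ h.1) ↔ h = wl h1 hX x a := by
  constructor
  · intro hs
    obtain ⟨A, h0, y, b, hyb, hA⟩ := h
    simp only at hs
    have key : A = half X x a ∨ A = half X a x := by
      by_cases hx : x ∈ A
      · have ha : a ∉ A := fun ha => hs ⟨fun _ => ha, fun _ => hx⟩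
        left
        rw [hA] at hx ha ⊢
        exact (h2 X hX y b x a hyb hxa hx ha).symm
      · have ha : a ∈ A := by
          by_contra ha
          exact hs ⟨fun h => absurd h hx, fun h => absurd h ha⟩
        right
        rw [hA] at hx ha ⊢
        exact (h2 X hX y b a x hyb hxa.symm ha hx).symm
    apply Subtype.ext
    have hw := wl_spec h1 hX hxa
    have hw0 := (wl h1 hX x a).2.1
    have hc := half_compl h1 hX hxa
    have hd : ¬ ((0 : ℕ) ∈ half X x a ∧ (0 : ℕ) ∈ half X a x) := by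
      rintro ⟨ha, hb⟩
      rw [← hc] at hb
      exact hb ha
    show A = (wl h1 hX x a).1
    rcases key with hk | hk <;> rcases hw with hw | hw
    · rw [hk, hw]
    · exfalso
      exact hd ⟨hk ▸ h0, hw ▸ hw0⟩
    · exfalso
      exact hd ⟨hw ▸ hw0, hk ▸ h0⟩
    · rw [hk, hw]
  · rintro rfl
    rcases wl_spec h1 hX hxa with hw | hw
    · rw [hw]
      intro hh
      exact other_notMem (hh.1 (self_mem hxa))
    · rw [hw]
      intro hh
      exact other_notMem (hh.2 (self_mem hxa.symm))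

theorem finDist (h1 : S_MG1) (h2 : S_MG2) (hX : IsMedianGraph X) (n : ℕ) :
    ∀ x y, X.dist x y = n → {h : Hty X | ¬ (x ∈ h.1 ↔ y ∈ h.1)}.Finite ∧
      n = {h : Hty X | ¬ (x ∈ h.1 ↔ y ∈ h.1)}.ncard := by
  induction n with
  | zero =>
    intro x y hxy
    have : x = y := hX.conn.dist_eq_zero_iff.1 hxy
    subst this
    have he : {h : Hty X | ¬ (x ∈ h.1 ↔ x ∈ h.1)} = ∅ := by
      ext h
      simp
    rw [he]
    exact ⟨Set.finite_empty, by simp⟩
  | succ n ih =>
    intro x y hxy
    obtain ⟨a, hxa, ha⟩ := exists_step hX hxy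
    obtain ⟨hf, hn⟩ := ih a y ha
    have hins : {h : Hty X | ¬ (x ∈ h.1 ↔ y ∈ h.1)} =
        insert (wl h1 hX x a) {h : Hty X | ¬ (a ∈ h.1 ↔ y ∈ h.1)} := by
      ext h
      have hs := stp h1 h2 hX hxa h
      rw [Set.mem_insert_iff, Set.mem_ofPred_eq, Set.mem_ofPred_eq]
      by_cases hh : h = wl h1 hX x a
      · have hya : y ∈ half X a x := by
          simp only [half, Set.mem_ofPred_eq]
          rw [SimpleGraph.dist_comm (u := y) (v := a), SimpleGraph.dist_comm (u := y) (v := x)]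
          omega
        have haa : a ∈ half X a x := self_mem hxa.symm
        have hc := half_compl h1 hX hxa
        have hay : a ∈ h.1 ↔ y ∈ h.1 := by
          rw [hh]
          rcases wl_spec h1 hX hxa with hw | hw
          · rw [hw]
            rw [← hc] at hya haa
            exact ⟨fun h => absurd h haa, fun h => absurd h hya⟩
          · rw [hw]
            exact ⟨fun _ => hya, fun _ => haa⟩
        have := hs.2 hh
        tauto
      · have : x ∈ h.1 ↔ a ∈ h.1 := by
          by_contra hc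
          exact hh (hs.1 hc)
        tauto
    have hnot : wl h1 hX x a ∉ {h : Hty X | ¬ (a ∈ h.1 ↔ y ∈ h.1)} := by
      rw [Set.mem_ofPred_eq, not_not]
      have hya : y ∈ half X a x := by
        simp only [half, Set.mem_ofPred_eq]
        rw [SimpleGraph.dist_comm (u := y) (v := a), SimpleGraph.dist_comm (u := y) (v := x)]
        omega
      have haa : a ∈ half X a x := self_mem hxa.symm
      have hc := half_compl h1 hX hxa
      rcases wl_spec h1 hX hxa with hw | hw
      · rw [hw]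
        rw [← hc] at hya haa
        exact ⟨fun h => absurd h haa, fun h => absurd h hya⟩
      · rw [hw]
        exact ⟨fun _ => hya, fun _ => haa⟩
    rw [hins]
    refine ⟨hf.insert _, ?_⟩
    rw [Set.ncard_insert_of_notMem hnot hf, ← hn]

end MG5

theorem prfMG5 (h1 : S_MG1) (h2 : S_MG2) (h3 : S_MG3) (h4 : S_MG4) : S_MG5 := by
  intro X hX
  refine ⟨{ H := MG5.Hty X, side := fun h => h.1, wall := MG5.wl h1 hX, step := ?_, fin := ?_, dist := ?_, helly := ?_ }⟩
  · intro x a hxa h
    exact MG5.stp h1 h2 hX hxa h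
  · intro x y
    exact (MG5.finDist h1 h2 hX _ x y rfl).1
  · intro x y
    exact (MG5.finDist h1 h2 hX _ x y rfl).2
  · intro S hS hne
    refine h4 X hX S ?_ hne
    intro A hA
    obtain ⟨⟨B, h0, x, a, hxa, hB⟩, hh⟩ := hS A hA
    simp only at hh
    rcases hh with hh | hh
    · rw [hh, hB]
      exact h3 X hX x a hxa
    · rw [hh, hB, MG5.half_compl h1 hX hxa]
      exact h3 X hX a x hxa.symm

end MP8a95ee.Npc

end

section

/-!
# PT1: the points of the space of a CAT(0) cube complex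
-/

set_option autoImplicit false

namespace MP8a95ee.Npc

open Classical

namespace PT1

theorem wt_nonneg {q : ℕ → ℝ} (hq : ∀ a, 0 ≤ q a ∧ q a ≤ 1) (s T : Finset ℕ) : 0 ≤ wt s T q :=
  mul_nonneg (Finset.prod_nonneg fun a _ => (hq a).1)
    (Finset.prod_nonneg fun a _ => sub_nonneg.2 (hq a).2)

theorem cubePt_eq (X : SimpleGraph ℕ) (x : ℕ) (s : Finset ℕ) (q : ℕ → ℝ) (y : ℕ) :
    cubePt X x s q y = ∑ T ∈ s.powerset.filter (fun T => corner X x T = y), wt s T q := by
  unfold cubePt wt
  congr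

theorem sum_wt (s : Finset ℕ) (q : ℕ → ℝ) : ∑ T ∈ s.powerset, wt s T q = 1 := by
  have h := Finset.prod_add q (fun a => 1 - q a) s
  have h' : ∏ a ∈ s, (q a + (1 - q a)) = 1 := by
    refine Finset.prod_eq_one fun a _ => ?_
    ring
  rw [h'] at h
  unfold wt
  exact h.symm

end PT1

theorem prfPT1 (h1 : S_CU1) : S_PT1 := by
  intro X hX hL x s hs q hq
  obtain ⟨-, -, hinj, -⟩ := h1 X hX hL x s hs
  refine ⟨fun y => ?_, fun y hy => ?_, fun T hT => ?_, ?_⟩
  · rw [PT1.cubePt_eq]
    exact Finset.sum_nonneg fun T _ => PT1.wt_nonneg hq s T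
  · rw [PT1.cubePt_eq] at hy
    obtain ⟨T, hT, -⟩ := Finset.exists_ne_zero_of_sum_ne_zero hy
    rw [Finset.mem_filter] at hT
    unfold cubeSet
    exact Finset.mem_image.2 ⟨T, hT.1, hT.2⟩
  · rw [PT1.cubePt_eq, Finset.sum_eq_single T]
    · intro T' hT' hne
      rw [Finset.mem_filter, Finset.mem_powerset] at hT'
      exact absurd (hinj T' hT'.1 T hT hT'.2) hne
    · intro h
      exfalso
      apply h
      rw [Finset.mem_filter, Finset.mem_powerset]
      exact ⟨hT, rfl⟩
  · rw [← PT1.sum_wt s q]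
    unfold cubeSet
    rw [← Finset.sum_fiberwise_of_maps_to (s := s.powerset) (t := s.powerset.image (corner X x))
      (g := corner X x) (fun T hT => Finset.mem_image_of_mem _ hT) (fun T => wt s T q)]
    refine Finset.sum_congr ?_ fun y _ => ?_
    · congr
    · exact PT1.cubePt_eq X x s q y

end MP8a95ee.Npc

end

section

/-!
# PT2: faces of cubes
-/

set_option autoImplicit false

namespace MP8a95ee.Npc

namespace PT2

open Classical in
theorem cubePt_eq (X : SimpleGraph ℕ) (x : ℕ) (s : Finset ℕ) (q : ℕ → ℝ) (y : ℕ) :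
    cubePt X x s q y = ∑ T ∈ s.powerset, if corner X x T = y then
      (∏ a ∈ T, q a) * ∏ a ∈ s \ T, (1 - q a) else 0 := by
  unfold cubePt
  rw [Finset.sum_filter]

theorem sdiff_insert_aux {s T : Finset ℕ} {a : ℕ} (ha : a ∈ s) (haT : a ∉ T) :
    s \ T = insert a (s.erase a \ T) := by
  ext b
  simp only [Finset.mem_sdiff, Finset.mem_insert, Finset.mem_erase]
  by_cases hb : b = a
  · subst hb; simp [ha, haT]
  · simp [hb]

theorem sdiff_insert_aux' {s T : Finset ℕ} {a : ℕ} :
    s \ (insert a T) = s.erase a \ T := by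
  ext b
  simp only [Finset.mem_sdiff, Finset.mem_insert, Finset.mem_erase]
  tauto

end PT2

open PT2

theorem prfPT2 (h1 : S_CU1) (h2 : S_CU3) : S_PT2 := by
  classical
  intro X hX hL x s hs q a ha
  have hins : insert a (s.erase a) = s := Finset.insert_erase ha
  have hna : a ∉ s.erase a := Finset.notMem_erase a s
  obtain ⟨h11, h12, h13, h14, -, -⟩ := h1 X hX hL x s hs
  constructor
  · intro hq
    funext y
    rw [cubePt_eq, cubePt_eq]
    conv_lhs => rw [← hins, Finset.sum_powerset_insert hna]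
    have e2 : ∑ t ∈ (s.erase a).powerset, (if corner X x (insert a t) = y then
        (∏ b ∈ insert a t, q b) * ∏ b ∈ insert a (s.erase a) \ insert a t, (1 - q b) else 0) = 0 := by
      refine Finset.sum_eq_zero fun t _ => ?_
      rw [Finset.prod_eq_zero (Finset.mem_insert_self a t) hq, zero_mul, ite_self]
    rw [e2, add_zero]
    refine Finset.sum_congr rfl fun T hT => ?_
    have haT : a ∉ T := fun h => hna (Finset.mem_powerset.1 hT h)
    rw [hins, sdiff_insert_aux ha haT, Finset.prod_insert (by simp), hq]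
    simp
  · intro hq q' hq'
    obtain ⟨-, h32⟩ := h2 X hX hL x s hs {a} (Finset.singleton_subset_iff.2 ha)
    rw [h12 a ha] at h32
    have hrb : ∀ b ∈ s.erase a, rb X x {a} b = corner X x {a, b} := by
      intro b hb
      unfold rb
      congr 1
      have hne : b ≠ a := (Finset.mem_erase.1 hb).1
      ext c
      simp only [Finset.mem_symmDiff, Finset.mem_singleton, Finset.mem_insert]
      constructor
      · tauto
      · rintro (h | h)
        · left; exact ⟨h, fun h' => hne (h'.symm.trans h)⟩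
        · right; exact ⟨h, fun h' => hne (h.symm.trans h')⟩
    set φ : ℕ → ℕ := fun b => corner X x {a, b} with hφ
    have hcor : ∀ T ∈ (s.erase a).powerset, corner X a (T.image φ) = corner X x (insert a T) := by
      intro T hT
      rw [Finset.mem_powerset] at hT
      have e1 : T.image φ = T.image (rb X x {a}) := by
        refine Finset.image_congr fun b hb => ?_
        exact (hrb b (hT hb)).symm
      rw [e1, h32 T (hT.trans (Finset.erase_subset _ _))]
      congr 1
      have haT : a ∉ T := fun h => hna (hT h)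
      ext c
      simp only [Finset.mem_symmDiff, Finset.mem_singleton, Finset.mem_insert]
      constructor
      · tauto
      · rintro (h | h)
        · left; exact ⟨h, fun h' => haT (h ▸ h')⟩
        · right; exact ⟨h, fun h' => haT (h' ▸ h)⟩
    have hinj : ∀ b ∈ s.erase a, ∀ c ∈ s.erase a, φ b = φ c → b = c := by
      intro b hb c hc h
      refine h14 {a} (Finset.singleton_subset_iff.2 ha) b (Finset.mem_of_mem_erase hb) c
        (Finset.mem_of_mem_erase hc) ?_
      rw [hrb b hb, hrb c hc]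
      exact h
    funext y
    rw [cubePt_eq, cubePt_eq]
    conv_lhs => rw [← hins, Finset.sum_powerset_insert hna]
    have e1 : ∑ t ∈ (s.erase a).powerset, (if corner X x t = y then
        (∏ b ∈ t, q b) * ∏ b ∈ insert a (s.erase a) \ t, (1 - q b) else 0) = 0 := by
      refine Finset.sum_eq_zero fun t ht => ?_
      have hat : a ∉ t := fun h => hna (Finset.mem_powerset.1 ht h)
      rw [hins, Finset.prod_eq_zero (i := a) (s := s \ t) (Finset.mem_sdiff.2 ⟨ha, hat⟩)
        (by rw [hq, sub_self]), mul_zero, ite_self]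
    rw [e1, zero_add]
    refine Finset.sum_bij (fun T _ => T.image φ) ?_ ?_ ?_ ?_
    · intro T hT
      rw [Finset.mem_powerset] at hT ⊢
      exact Finset.image_subset_image hT
    · intro T hT T' hT' h
      rw [Finset.mem_powerset] at hT hT'
      ext b
      constructor
      · intro hb
        have h3 : φ b ∈ T'.image φ := h ▸ Finset.mem_image_of_mem φ hb
        obtain ⟨c, hc, hcb⟩ := Finset.mem_image.1 h3
        rw [← hinj c (hT' hc) b (hT hb) hcb]
        exact hc
      · intro hb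
        have h3 : φ b ∈ T.image φ := h ▸ Finset.mem_image_of_mem φ hb
        obtain ⟨c, hc, hcb⟩ := Finset.mem_image.1 h3
        rw [← hinj c (hT hc) b (hT' hb) hcb]
        exact hc
    · intro V hV
      rw [Finset.mem_powerset] at hV
      obtain ⟨T, hT, hTV⟩ := Finset.subset_image_iff.1 hV
      refine ⟨T, Finset.mem_powerset.2 ?_, hTV⟩
      exact_mod_cast hT
    · intro T hT
      rw [hcor T hT]
      rw [Finset.mem_powerset] at hT
      have haT : a ∉ T := fun h => hna (hT h)
      refine if_congr Iff.rfl ?_ rfl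
      rw [hins, Finset.prod_insert haT, hq, one_mul, sdiff_insert_aux']
      have e3 : (s.erase a).image φ \ T.image φ = (s.erase a \ T).image φ := by
        ext c
        simp only [Finset.mem_sdiff, Finset.mem_image]
        constructor
        · rintro ⟨⟨b, hb, rfl⟩, h4⟩
          exact ⟨b, ⟨hb, fun h5 => h4 ⟨b, h5, rfl⟩⟩, rfl⟩
        · rintro ⟨b, ⟨hb, hbT⟩, rfl⟩
          refine ⟨⟨b, hb, rfl⟩, ?_⟩
          rintro ⟨d, hd, hdb⟩
          exact hbT (hinj d (hT hd) b hb hdb ▸ hd)
      rw [e3, Finset.prod_image (fun b hb c hc h => hinj b (hT hb) c (hT hc) h),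
        Finset.prod_image (fun b hb c hc h => hinj b (Finset.mem_sdiff.1 hb).1 c
          (Finset.mem_sdiff.1 hc).1 h)]
      congr 1
      · exact Finset.prod_congr rfl fun b hb => (hq' b (hT hb)).symm
      · exact Finset.prod_congr rfl fun b hb => by rw [hq' b (Finset.mem_sdiff.1 hb).1]

end MP8a95ee.Npc

end
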