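import Pool.Agent.Work.MP_8a95ee_gt.Npc.Stmts
import Pool.Agent.Work.MP_8a95ee_gt.B2
import Pool.Agent.Work.MP_8a95ee_gt.Sp.Link
import Pool.Agent.Work.MP_8a95ee_gt.Npc.Stmts2
import Pool.Agent.Work.MP_8a95ee_gt.Bd.B07

/-! Bundle of small proof modules (one section per former module). -/

section

/-!
# PT3: the action of the group on the space
-/

set_option autoImplicit false

namespace MP8a95ee.Npc

open Classical

namespace PT3

variable {X : SimpleGraph ℕ}

theorem empty_mem_link (x : ℕ) : (∅ : Finset ℕ) ∈ link X x := by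
  simp [link]

theorem sub_nbr {x : ℕ} {s : Finset ℕ} (h : s ∈ link X x) : s ⊆ nbr X x := by
  unfold link at h
  rw [Finset.mem_filter, Finset.mem_powerset] at h
  exact h.1

theorem cubePt_empty (h1 : S_CU1) (hX : IsMedianGraph X) (hL : LocFin X) (x : ℕ) (q : ℕ → ℝ)
    (y : ℕ) : cubePt X x ∅ q y = if y = x then 1 else 0 := by
  have hc : corner X x ∅ = x := (h1 X hX hL x ∅ (empty_mem_link x)).1
  unfold cubePt
  rw [Finset.powerset_empty, Finset.filter_singleton, hc]
  by_cases h : y = x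
  · rw [if_pos h, if_pos h.symm]
    simp
  · rw [if_neg h, if_neg (fun h' => h h'.symm)]
    simp

theorem part2 (h1 : S_CU1) (hX : IsMedianGraph X) (hL : LocFin X)
    {Γ : Subgroup (Equiv.Perm ℕ)} {F : Finset ℕ} (hD : IsDeck X Γ F) (g : Equiv.Perm ℕ)
    (hg : g ∈ Γ) (x : ℕ) (hx : g x = x) : g = 1 := by
  refine hD.free g hg (cubePt X x ∅ (fun _ => 0))
    ⟨x, ∅, fun _ => 0, empty_mem_link x, fun _ => ⟨le_refl _, zero_le_one⟩, rfl⟩ fun y => ?_
  rw [cubePt_empty h1 hX hL, cubePt_empty h1 hX hL]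
  have : g y = x ↔ y = x := by
    constructor
    · intro h
      apply g.injective
      rw [h, hx]
    · intro h
      rw [h, hx]
  by_cases h : y = x
  · rw [if_pos h, if_pos (this.2 h)]
  · rw [if_neg h, if_neg (fun h' => h (this.1 h'))]

theorem part1 (h3 : S_CU5) (hX : IsMedianGraph X) (hL : LocFin X)
    {Γ : Subgroup (Equiv.Perm ℕ)} {F : Finset ℕ} (hD : IsDeck X Γ F) (g : Equiv.Perm ℕ)
    (hg : g ∈ Γ) (u : ℕ → ℝ) (hu : u ∈ space X) : (fun y => u (g y)) ∈ space X := by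
  obtain ⟨x, s, q, hs, hq, rfl⟩ := hu
  have hg' : IsAut X g := hD.auto g hg
  obtain ⟨-, -, -, hl, -, -, hp⟩ := h3 X hX hL g hg'
  have hx : g (g⁻¹ x) = x := by simp
  have hss : (s.image (g⁻¹ : Equiv.Perm ℕ)).image g = s := by
    rw [Finset.image_image]
    ext a
    simp
  have hs' : s.image (g⁻¹ : Equiv.Perm ℕ) ∈ link X (g⁻¹ x) := by
    rw [← hl, hx, hss]
    exact hs
  refine ⟨g⁻¹ x, s.image (g⁻¹ : Equiv.Perm ℕ), fun a => q (g a), hs', fun a => hq (g a), ?_⟩
  funext y
  have := hp (g⁻¹ x) _ hs' q y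
  rw [hx, hss] at this
  exact this

theorem wt_half (s T : Finset ℕ) (h : T ⊆ s) : wt s T (fun _ => 1 / 2) = (1 / 2) ^ s.card := by
  unfold wt
  rw [Finset.prod_const, Finset.prod_const]
  have : (1 - 1 / 2 : ℝ) = 1 / 2 := by norm_num
  rw [this, ← pow_add]
  congr 1
  rw [Finset.card_sdiff_of_subset h]
  have := Finset.card_le_card h
  omega

theorem cubePt_half (h4 : S_PT1) (hX : IsMedianGraph X) (hL : LocFin X) (x : ℕ) (s : Finset ℕ)
    (hs : s ∈ link X x) (y : ℕ) :
    cubePt X x s (fun _ => 1 / 2) y = if y ∈ cubeSet X x s then (1 / 2) ^ s.card else 0 := by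
  obtain ⟨-, hz, hw, -⟩ := h4 X hX hL x s hs (fun _ => 1 / 2) (fun _ => by norm_num)
  by_cases h : y ∈ cubeSet X x s
  · rw [if_pos h]
    unfold cubeSet at h
    rw [Finset.mem_image] at h
    obtain ⟨T, hT, rfl⟩ := h
    rw [Finset.mem_powerset] at hT
    rw [hw T hT, wt_half s T hT]
  · rw [if_neg h]
    by_contra h'
    exact h (hz y h')

theorem part3 (h4 : S_PT1) (hX : IsMedianGraph X) (hL : LocFin X)
    {Γ : Subgroup (Equiv.Perm ℕ)} {F : Finset ℕ} (hD : IsDeck X Γ F) (g : Equiv.Perm ℕ)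
    (hg : g ∈ Γ) (x : ℕ) (s : Finset ℕ) (hs : s ∈ link X x)
    (hi : (cubeSet X x s).image g = cubeSet X x s) : g = 1 := by
  refine hD.free g hg (cubePt X x s (fun _ => 1 / 2))
    ⟨x, s, fun _ => 1 / 2, hs, fun _ => by norm_num, rfl⟩ fun y => ?_
  rw [cubePt_half h4 hX hL x s hs, cubePt_half h4 hX hL x s hs]
  have : g y ∈ cubeSet X x s ↔ y ∈ cubeSet X x s := by
    constructor
    · intro h
      rw [← hi, Finset.mem_image] at h
      obtain ⟨z, hz, hzy⟩ := h
      rw [← g.injective hzy]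
      exact hz
    · intro h
      rw [← hi]
      exact Finset.mem_image_of_mem _ h
  by_cases h : y ∈ cubeSet X x s
  · rw [if_pos h, if_pos (this.2 h)]
  · rw [if_neg h, if_neg (fun h' => h (this.1 h'))]

/-- the other corners of the cubes with corner `y` (a finite set) -/
noncomputable def star (X : SimpleGraph ℕ) (y : ℕ) : Finset ℕ :=
  (nbr X y).powerset.image (corner X y)

theorem mem_star (h2 : S_CU3) (hX : IsMedianGraph X) (hL : LocFin X) {x : ℕ} {s : Finset ℕ}
    (hs : s ∈ link X x) {y z : ℕ} (hy : y ∈ cubeSet X x s) (hz : z ∈ cubeSet X x s) :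
    z ∈ star X y := by
  unfold cubeSet at hy hz
  rw [Finset.mem_image] at hy hz
  obtain ⟨T, hT, rfl⟩ := hy
  obtain ⟨U, hU, rfl⟩ := hz
  rw [Finset.mem_powerset] at hT hU
  obtain ⟨ha, hb⟩ := h2 X hX hL x s hs T hT
  have hV : symmDiff T U ⊆ s := by
    intro a ha
    rw [Finset.mem_symmDiff] at ha
    rcases ha with ha | ha
    · exact hT ha.1
    · exact hU ha.1
  unfold star
  rw [Finset.mem_image]
  refine ⟨(symmDiff T U).image (rb X x T), ?_, ?_⟩
  · rw [Finset.mem_powerset]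
    exact (Finset.image_subset_image hV).trans (sub_nbr ha)
  · rw [hb _ hV, symmDiff_symmDiff_cancel_left]

theorem exists_pos (h4 : S_PT1) (hX : IsMedianGraph X) (hL : LocFin X) (u : ℕ → ℝ)
    (hu : u ∈ space X) : ∃ y, 0 < u y := by
  obtain ⟨x, s, q, hs, hq, rfl⟩ := hu
  obtain ⟨hn, -, -, hsum⟩ := h4 X hX hL x s hs q hq
  by_contra h
  push Not at h
  have : ∑ y ∈ cubeSet X x s, cubePt X x s q y = 0 :=
    Finset.sum_eq_zero fun y _ => le_antisymm (h y) (hn y)
  rw [this] at hsum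
  exact zero_ne_one hsum

theorem mem_star_of_pos (h2 : S_CU3) (h4 : S_PT1) (hX : IsMedianGraph X) (hL : LocFin X)
    (u : ℕ → ℝ) (hu : u ∈ space X) {y z : ℕ} (hy : 0 < u y) (hz : 0 < u z) : z ∈ star X y := by
  obtain ⟨x, s, q, hs, hq, rfl⟩ := hu
  obtain ⟨-, hw, -, -⟩ := h4 X hX hL x s hs q hq
  exact mem_star h2 hX hL hs (hw y hy.ne') (hw z hz.ne')

theorem part4 (h1 : S_CU1) (h2 : S_CU3) (h4 : S_PT1) (hX : IsMedianGraph X) (hL : LocFin X)
    {Γ : Subgroup (Equiv.Perm ℕ)} {F : Finset ℕ} (hD : IsDeck X Γ F) (u : ℕ → ℝ)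
    (hu : u ∈ space X) : ∃ U : Set (ℕ → ℝ), IsOpen U ∧ u ∈ U ∧ ∀ g ∈ Γ, g ≠ 1 → ∀ v ∈ space X,
    v ∈ U → (fun y => v (g y)) ∉ U := by
  obtain ⟨y0, hy0⟩ := exists_pos h4 hX hL u hu
  have hfin : {g : Equiv.Perm ℕ | g ∈ Γ ∧ g ≠ 1 ∧ g y0 ∈ star X y0}.Finite := by
    have hinj : Set.InjOn (fun g : Equiv.Perm ℕ => g y0)
        {g : Equiv.Perm ℕ | g ∈ Γ ∧ g ≠ 1 ∧ g y0 ∈ star X y0} := by
      intro g hg g' hg' he
      have he' : g y0 = g' y0 := he
      have : g'⁻¹ * g = 1 := by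
        refine part2 h1 hX hL hD _ (Γ.mul_mem (Γ.inv_mem hg'.1) hg.1) y0 ?_
        rw [Equiv.Perm.mul_apply, he']
        simp
      exact (inv_mul_eq_one.1 this).symm
    refine Set.Finite.of_finite_image ?_ hinj
    refine (star X y0).finite_toSet.subset ?_
    rintro _ ⟨g, hg, rfl⟩
    exact hg.2.2
  have hex : ∀ g : Equiv.Perm ℕ, ∃ y, g ∈ Γ → g ≠ 1 → u (g y) ≠ u y := by
    intro g
    by_cases h : g ∈ Γ ∧ g ≠ 1
    · by_contra hcon
      push Not at hcon
      exact h.2 (hD.free g h.1 u hu fun y => (hcon y).2.2)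
    · exact ⟨0, fun ha hb => absurd ⟨ha, hb⟩ h⟩
  choose w hw using hex
  set W : Equiv.Perm ℕ → Set (ℕ → ℝ) := fun g =>
    {v | |v (w g) - u (w g)| < |u (g (w g)) - u (w g)| / 2 ∧
      |v (g (w g)) - u (g (w g))| < |u (g (w g)) - u (w g)| / 2} with hW
  refine ⟨{v | 0 < v y0} ∩ ⋂ g ∈ {g : Equiv.Perm ℕ | g ∈ Γ ∧ g ≠ 1 ∧ g y0 ∈ star X y0}, W g,
    ?_, ?_, ?_⟩
  · refine IsOpen.inter ?_ ?_
    · exact isOpen_lt continuous_const (continuous_apply y0)
    · refine hfin.isOpen_biInter fun g _ => ?_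
      refine IsOpen.inter ?_ ?_
      · exact isOpen_lt (((continuous_apply (w g)).sub continuous_const).abs) continuous_const
      · exact isOpen_lt (((continuous_apply (g (w g))).sub continuous_const).abs) continuous_const
  · refine ⟨hy0, ?_⟩
    rw [Set.mem_iInter₂]
    intro g hg
    have hne : u (g (w g)) - u (w g) ≠ 0 := sub_ne_zero.2 (hw g hg.1 hg.2.1)
    have hpos : 0 < |u (g (w g)) - u (w g)| := abs_pos.2 hne
    refine ⟨?_, ?_⟩
    · rw [sub_self, abs_zero]
      linarith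
    · rw [sub_self, abs_zero]
      linarith
  · rintro g hg hg1 v hv ⟨hv0, hvW⟩ ⟨hgv0, hgW⟩
    have hstar : g y0 ∈ star X y0 := mem_star_of_pos h2 h4 hX hL v hv hv0 hgv0
    rw [Set.mem_iInter₂] at hvW hgW
    have ha := (hvW g ⟨hg, hg1, hstar⟩).2
    have hb := (hgW g ⟨hg, hg1, hstar⟩).1
    have hb' : |v (g (w g)) - u (w g)| < |u (g (w g)) - u (w g)| / 2 := hb
    have htri : |u (g (w g)) - u (w g)| ≤
        |v (g (w g)) - u (g (w g))| + |v (g (w g)) - u (w g)| := by
      have : u (g (w g)) - u (w g) =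
          -(v (g (w g)) - u (g (w g))) + (v (g (w g)) - u (w g)) := by ring
      rw [this]
      refine (abs_add_le _ _).trans ?_
      rw [abs_neg]
    linarith

end PT3

theorem prfPT3 (h1 : S_CU1) (h2 : S_CU3) (h3 : S_CU5) (h4 : S_PT1) : S_PT3 := by
  intro X hX hL Γ F hD
  exact ⟨fun g hg u hu => PT3.part1 h3 hX hL hD g hg u hu,
    fun g hg x hx => PT3.part2 h1 hX hL hD g hg x hx,
    fun g hg x s hs hi => PT3.part3 h4 hX hL hD g hg x s hs hi,
    fun u hu => PT3.part4 h1 h2 h4 hX hL hD u hu⟩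

end MP8a95ee.Npc

end

section

/-!
# TP2: lifts of singular simplices
-/

set_option autoImplicit false

namespace MP8a95ee.Npc

open Classical

theorem prfTP2 (h1 : S_PT3) (h2 : S_TP1) : S_TP2 := by
  intro X hX hf Γ F hD n
  have hcov := h2 X hX hf Γ F hD
  obtain ⟨hs, _⟩ := h1 X hX hf Γ F hD
  constructor
  · intro σ
    obtain ⟨e, he⟩ : ∃ e : space X, proj X Γ e = σ (vtx 0) := Quotient.exists_rep _
    obtain ⟨τ, ⟨_, hτ⟩, _⟩ := hcov.existsUnique_continuousMap_lifts σ (vtx 0) e he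
    exact ⟨τ, ContinuousMap.ext fun t => congrFun hτ t⟩
  · intro τ τ' h
    have h0 : proj X Γ (τ (vtx 0)) = proj X Γ (τ' (vtx 0)) := DFunLike.congr_fun h (vtx 0)
    have h0' : ∃ g ∈ Γ, ∀ y, (τ' (vtx 0) : ℕ → ℝ) (g y) = (τ (vtx 0) : ℕ → ℝ) y :=
      Quotient.exact h0
    obtain ⟨g, hg, hgy⟩ := h0'
    refine ⟨g, hg, ?_⟩
    let ρ : space X → space X := fun u =>
      ⟨fun y => (u : ℕ → ℝ) (g⁻¹ y), hs g⁻¹ (Γ.inv_mem hg) u u.2⟩
    have hρ : Continuous ρ := by
      refine Continuous.subtype_mk (continuous_pi fun y => ?_) _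
      exact (continuous_apply (g⁻¹ y)).comp continuous_subtype_val
    have hproj : ∀ u, proj X Γ (ρ u) = proj X Γ u := fun u =>
      Quotient.sound ⟨g⁻¹, Γ.inv_mem hg, fun y => rfl⟩
    have heq : (fun t => τ' t) = fun t => ρ (τ t) := by
      refine hcov.eq_of_comp_eq τ'.continuous (hρ.comp τ.continuous) (funext fun t => ?_)
        (vtx 0) ?_
      · change proj X Γ (τ' t) = proj X Γ (ρ (τ t))
        rw [hproj]
        exact (DFunLike.congr_fun h t).symm
      · apply Subtype.ext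
        funext y
        change (τ' (vtx 0) : ℕ → ℝ) y = (τ (vtx 0) : ℕ → ℝ) (g⁻¹ y)
        rw [← hgy]
        simp
    intro t y
    have h3 : τ' t = ρ (τ t) := congrFun heq t
    rw [h3]
    change (τ t : ℕ → ℝ) (g⁻¹ (g y)) = (τ t : ℕ → ℝ) y
    simp

end MP8a95ee.Npc

end

section

set_option autoImplicit false

namespace MP8a95ee.Npc

namespace TP3

theorem inv_app (f : Equiv.Perm ℕ) (x : ℕ) : f⁻¹ (f x) = x := Equiv.symm_apply_apply f x

theorem app_inv (f : Equiv.Perm ℕ) (x : ℕ) : f (f⁻¹ x) = x := Equiv.apply_symm_apply f x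

/-- an equivariant choice of vertices -/
theorem exists_V (X : SimpleGraph ℕ) (Γ : Subgroup (Equiv.Perm ℕ)) (F : Finset ℕ)
    (hD : IsDeck X Γ F) :
    ∃ V : space X → ℕ,
      (∀ g ∈ Γ, ∀ u u' : space X, (∀ y, (u' : ℕ → ℝ) (g y) = (u : ℕ → ℝ) y) → V u' = g (V u)) ∧
      ∀ (u : space X) (v : ℕ), (∀ y, (u : ℕ → ℝ) y = if y = v then 1 else 0) → V u = v := by
  classical
  have hex : ∀ u : space X, ∃ g ∈ Γ, ∀ y, (u : ℕ → ℝ) (g y) =
      ((Quotient.out (Quotient.mk (orb X Γ) u) : space X) : ℕ → ℝ) y := by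
    intro u
    exact Quotient.exact (Quotient.out_eq (Quotient.mk (orb X Γ) u))
  choose G hG hGu using hex
  let V0 : Mfd X Γ → ℕ := fun q =>
    if h : ∃ v : ℕ, ∀ y, ((Quotient.out q : space X) : ℕ → ℝ) y = if y = v then 1 else 0
    then h.choose else 0
  refine ⟨fun u => G u (V0 (Quotient.mk (orb X Γ) u)), ?_, ?_⟩
  · intro g hg u u' h
    have hq : (Quotient.mk (orb X Γ) u : Mfd X Γ) = Quotient.mk (orb X Γ) u' :=
      Quotient.sound ⟨g, hg, h⟩
    have hG' : G u' = g * G u := by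
      have h1 : ∀ z, (u' : ℕ → ℝ) ((G u' * (g * G u)⁻¹) z) = (u' : ℕ → ℝ) z := by
        intro z
        obtain ⟨y, rfl⟩ := (g * G u).surjective z
        have e1 : (G u' * (g * G u)⁻¹) ((g * G u) y) = G u' y := by
          rw [Equiv.Perm.mul_apply, inv_app]
        rw [e1, hGu u' y, ← hq, ← hGu u y, Equiv.Perm.mul_apply, h]
      have h2 := hD.free (G u' * (g * G u)⁻¹)
        (Γ.mul_mem (hG u') (Γ.inv_mem (Γ.mul_mem hg (hG u)))) (u' : ℕ → ℝ) u'.2 h1
      exact mul_inv_eq_one.1 h2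
    change G u' (V0 (Quotient.mk (orb X Γ) u')) = g (G u (V0 (Quotient.mk (orb X Γ) u)))
    rw [hG', ← hq, Equiv.Perm.mul_apply]
  · intro u v h
    have h1 : ∀ y, ((Quotient.out (Quotient.mk (orb X Γ) u) : space X) : ℕ → ℝ) y =
        if y = (G u)⁻¹ v then 1 else 0 := by
      intro y
      rw [← hGu u y, h]
      by_cases hy : G u y = v
      · rw [if_pos hy, if_pos]
        rw [← hy, inv_app]
      · rw [if_neg hy, if_neg]
        rintro rfl
        exact hy (app_inv _ _)
    have hex : ∃ v : ℕ, ∀ y, ((Quotient.out (Quotient.mk (orb X Γ) u) : space X) : ℕ → ℝ) y =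
        if y = v then 1 else 0 := ⟨_, h1⟩
    have h2 : V0 (Quotient.mk (orb X Γ) u) = (G u)⁻¹ v := by
      have h3 : V0 (Quotient.mk (orb X Γ) u) = hex.choose := dif_pos hex
      rw [h3]
      have h4 := hex.choose_spec ((G u)⁻¹ v)
      rw [h1, if_pos rfl] at h4
      by_contra hne
      rw [if_neg (fun he => hne he.symm)] at h4
      exact one_ne_zero h4
    change G u (V0 (Quotient.mk (orb X Γ) u)) = v
    rw [h2, app_inv]

end TP3

theorem prfTP3 (h2 : S_TP2) : S_TP3 := by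
  intro X hX hL Γ F hD n c B hB hinv hcoc
  obtain ⟨V, hV, hVi⟩ := TP3.exists_V X Γ F hD
  choose L hLift using (h2 X hX hL Γ F hD n).1
  have hval : ∀ (τ : SSimplex (space X) n),
      c (fun k => V (L ((proj X Γ).comp τ) (vtx k))) = c (fun k => V (τ (vtx k))) := by
    intro τ
    obtain ⟨g, hg, h⟩ := (h2 X hX hL Γ F hD n).2 τ (L ((proj X Γ).comp τ))
      (hLift ((proj X Γ).comp τ)).symm
    rw [← hinv g hg (fun k => V (τ (vtx k)))]
    congr 1
    funext k
    exact hV g hg _ _ (h (vtx k))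
  refine ⟨fun σ => c (fun k => V (L σ (vtx k))), fun σ => hB _, ?_, ?_⟩
  · intro σ
    obtain ⟨τ, hτ⟩ := (h2 X hX hL Γ F hD (n + 1)).1 σ
    have hf : ∀ i : Fin (n + 2), c (fun k => V (L (face σ i) (vtx k))) =
        c (fun k => (fun j => V (τ (vtx j))) (i.succAbove k)) := by
      intro i
      have e1 : face σ i = (proj X Γ).comp (face τ i) := by
        rw [← hτ]; rfl
      rw [e1, hval (face τ i)]
      congr 1
      funext k
      have e2 : stdSimplex.map i.succAbove (vtx k) = vtx (i.succAbove k) := stdSimplex.map_vertex _ _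
      have e3 : face τ i (vtx k) = τ (vtx (i.succAbove k)) := by
        rw [← e2]; rfl
      rw [e3]
    simp only [hf]
    exact hcoc (fun j => V (τ (vtx j)))
  · intro τ v h
    change c (fun k => V (L ((proj X Γ).comp τ) (vtx k))) = c v
    rw [hval τ]
    congr 1
    funext k
    exact hVi _ _ (h k)

end MP8a95ee.Npc

end

section

/-!
# WA1: the first wall next to `x` (helper61)
-/

set_option autoImplicit false

namespace MP8a95ee.Npc

open Classical

namespace WA1

theorem closer {X : SimpleGraph ℕ} (hc : X.Connected) {z w : ℕ} (hzw : z ≠ w) :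
    ∃ z', X.Adj z z' ∧ X.dist z' w + 1 = X.dist z w := by
  obtain ⟨p, hp⟩ := hc.exists_walk_length_eq_dist z w
  cases p with
  | nil => exact absurd rfl hzw
  | @cons _ v _ h p =>
    refine ⟨v, h, ?_⟩
    rw [SimpleGraph.Walk.length_cons] at hp
    have h1 : X.dist v w ≤ p.length := SimpleGraph.dist_le p
    have h2 : X.dist z w ≤ X.dist z v + X.dist v w := hc.dist_triangle
    have h3 : X.dist z v = 1 := SimpleGraph.dist_eq_one_iff_adj.2 h
    omega

theorem geod {X : SimpleGraph ℕ} (D : WS X) {a b c : ℕ} (h : D.H)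
    (hd : X.dist a b + X.dist b c = X.dist a c) (h1 : D.Sep h a b) (h2 : D.Sep h b c) : False := by
  have hsub : D.sep a c ⊆ (D.sep a b).erase h ∪ (D.sep b c).erase h := by
    intro k hk
    rw [D.mem_sep] at hk
    rw [Finset.mem_union, Finset.mem_erase, Finset.mem_erase, D.mem_sep, D.mem_sep]
    have h3 := (D.Sep_trans (h := k) (x := a) (y := b) (z := c)).1 hk
    by_cases hkh : k = h
    · rw [hkh] at h3
      exact absurd (iff_of_true h1 h2) h3
    · by_cases h4 : D.Sep k a b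
      · exact Or.inl ⟨hkh, h4⟩
      · right
        refine ⟨hkh, ?_⟩
        by_contra h5
        exact h3 (iff_of_false h4 h5)
  have hcard := (Finset.card_le_card hsub).trans (Finset.card_union_le _ _)
  have h3 : h ∈ D.sep a b := D.mem_sep.2 h1
  have h4 : h ∈ D.sep b c := D.mem_sep.2 h2
  rw [Finset.card_erase_of_mem h3, Finset.card_erase_of_mem h4, ← D.dist_eq, ← D.dist_eq,
    ← D.dist_eq] at hcard
  have h5 : 0 < (D.sep a b).card := Finset.card_pos.2 ⟨h, h3⟩
  rw [← D.dist_eq] at h5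
  omega

end WA1

theorem prfWA1 (h1 : S_WA2) : S_WA1 := by
  intro X hX D h x y hxy
  have hc := hX.conn
  obtain ⟨z0, hz0, hmin⟩ : ∃ z0, D.Sep h x z0 ∧ ∀ z, D.Sep h x z → X.dist x z0 ≤ X.dist x z := by
    have hex : ∃ n, ∃ z, D.Sep h x z ∧ X.dist x z = n := ⟨_, y, hxy, rfl⟩
    obtain ⟨z0, h2, h3⟩ := Nat.find_spec hex
    refine ⟨z0, h2, fun z hz => ?_⟩
    rw [h3]
    exact Nat.find_min' hex ⟨z, hz, rfl⟩
  have hne : x ≠ z0 := by
    intro he
    rw [← he] at hz0
    exact D.Sep_self hz0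
  obtain ⟨a, ha1, ha2⟩ := WA1.closer hc hne
  refine ⟨a, ha1, fun z hz => ?_⟩
  obtain ⟨m, ⟨hm1, hm2, hm3⟩, -⟩ := hX.med x z0 z
  have hm : D.Sep h x m := by
    by_contra hcon
    have h4 : D.Sep h z0 m := by
      rw [D.Sep_trans (y := x)]
      intro h5
      exact hcon (h5.1 (D.Sep_comm.1 hz0))
    have h5 : D.Sep h m z := by
      rw [D.Sep_trans (y := x)]
      intro h6
      exact hcon (D.Sep_comm.1 (h6.2 hz))
    exact WA1.geod D h hm2 h4 h5
  have h4 := hmin m hm
  have h5 : X.dist m z0 = 0 := by omega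
  have h6 : m = z0 := (hc m z0).dist_eq_zero_iff.1 h5
  rw [h6] at hm3
  rw [← (h1 X hX D).1 x a z ha1]
  have h7 : X.dist a z ≤ X.dist a z0 + X.dist z0 z := hc.dist_triangle
  omega

end MP8a95ee.Npc

end

section

/-!
# WA2: distances and separation
-/

set_option autoImplicit false

namespace MP8a95ee.Npc

open Classical

namespace WA2

variable {X : SimpleGraph ℕ} (D : WS X)

theorem sep_adj {x a : ℕ} (hxa : X.Adj x a) (v : ℕ) (h : D.H) :
    D.Sep h a v ↔ ¬ (h = D.wall x a ↔ D.Sep h x v) := by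
  rw [D.Sep_trans (x := a) (y := x) (z := v), D.Sep_comm (x := a) (y := x), D.Sep_step hxa]

theorem dist_lt {x a : ℕ} (hxa : X.Adj x a) (v : ℕ) :
    X.dist a v < X.dist x v ↔ D.Sep (D.wall x a) x v := by
  rw [D.dist_eq, D.dist_eq]
  by_cases h : D.Sep (D.wall x a) x v
  · have h1 : D.sep a v = (D.sep x v).erase (D.wall x a) := by
      ext w
      rw [D.mem_sep, Finset.mem_erase, D.mem_sep, sep_adj D hxa]
      by_cases hw : w = D.wall x a
      · subst hw
        simp [h]
      · simp [hw]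
    have h2 : D.wall x a ∈ D.sep x v := D.mem_sep.2 h
    rw [h1, Finset.card_erase_of_mem h2]
    have h3 : 0 < (D.sep x v).card := Finset.card_pos.2 ⟨_, h2⟩
    refine ⟨fun _ => h, fun _ => by omega⟩
  · have h1 : D.sep a v = insert (D.wall x a) (D.sep x v) := by
      ext w
      rw [D.mem_sep, Finset.mem_insert, D.mem_sep, sep_adj D hxa]
      by_cases hw : w = D.wall x a
      · subst hw
        simp [h]
      · simp [hw]
    have h2 : D.wall x a ∉ D.sep x v := fun h2 => h (D.mem_sep.1 h2)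
    rw [h1, Finset.card_insert_of_notMem h2]
    refine ⟨fun h3 => by omega, fun h3 => absurd h3 h⟩

theorem eq_of_sep (hX : IsMedianGraph X) {x y : ℕ} (h : ∀ w, ¬ D.Sep w x y) : x = y := by
  have h1 : D.sep x y = ∅ := by
    rw [Finset.eq_empty_iff_forall_notMem]
    intro w hw
    exact h w (D.mem_sep.1 hw)
  have h2 : X.dist x y = 0 := by
    rw [D.dist_eq, h1, Finset.card_empty]
  exact (hX.conn.dist_eq_zero_iff).1 h2

end WA2

open WA2 in
theorem prfWA2 : S_WA2 := by
  intro X hX D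
  refine ⟨fun x a v hxa => dist_lt D hxa v, fun x y h => eq_of_sep D hX h, ?_⟩
  intro x a b hxa hxb hab
  apply eq_of_sep D hX
  intro w hw
  rw [sep_adj D hxa, D.Sep_step hxb, hab] at hw
  exact hw Iff.rfl

end MP8a95ee.Npc

end

section

/-! Item WA3: squares and crossing walls (helper22). -/

set_option autoImplicit false

namespace MP8a95ee.Npc

open Classical

theorem prfWA3 (h1 : S_WA2) : S_WA3 := by
  intro X hX D x a b hxa hxb hab
  obtain ⟨hA, -, hC⟩ := h1 X hX D
  have nab : D.wall x a ≠ D.wall x b := fun h => hab (hC x a b hxa hxb h)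
  have sa : D.Sep (D.wall x a) x a := (D.Sep_step hxa).2 rfl
  have sb : D.Sep (D.wall x b) x b := (D.Sep_step hxb).2 rfl
  have nsa : ¬ D.Sep (D.wall x b) x a := fun h => nab ((D.Sep_step hxa).1 h).symm
  have nsb : ¬ D.Sep (D.wall x a) x b := fun h => nab ((D.Sep_step hxb).1 h)
  have sab : D.Sep (D.wall x a) a b := by
    rw [D.Sep_trans (y := x)]
    have := D.Sep_comm.1 sa
    tauto
  have sab' : D.Sep (D.wall x b) a b := by
    rw [D.Sep_trans (y := x)]
    have h2 : ¬ D.Sep (D.wall x b) a x := fun h => nsa (D.Sep_comm.1 h)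
    tauto
  have h3 : ∀ y, y ≠ x → X.Adj a y → X.Adj b y →
      D.wall x a = D.wall b y ∧ D.wall x b = D.wall a y := by
    intro y hy hay hby
    constructor
    · have h4 := (D.Sep_trans (y := y)).1 sab
      by_cases h5 : D.Sep (D.wall x a) a y
      · exfalso
        have h6 := (D.Sep_step hay).1 h5
        rw [D.wall_comm hxa] at h6
        exact hy (hC a x y hxa.symm hay h6).symm
      · have h6 : D.Sep (D.wall x a) y b := by
          by_contra hh
          exact h4 (iff_of_false h5 hh)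
        exact (D.Sep_step hby).1 (D.Sep_comm.1 h6)
    · have h4 := (D.Sep_trans (y := y)).1 sab'
      by_cases h5 : D.Sep (D.wall x b) y b
      · exfalso
        have h6 := (D.Sep_step hby).1 (D.Sep_comm.1 h5)
        rw [D.wall_comm hxb] at h6
        exact hy (hC b x y hxb.symm hby h6).symm
      · have h6 : D.Sep (D.wall x b) a y := by
          by_contra hh
          exact h4 (iff_of_false hh h5)
        exact (D.Sep_step hay).1 h6
  have h2 : Square X x a b ↔ ∃ v, D.Sep (D.wall x a) x v ∧ D.Sep (D.wall x b) x v := by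
    constructor
    · rintro ⟨y, hy, hay, hby⟩
      obtain ⟨e1, e2⟩ := h3 y hy hay hby
      refine ⟨y, ?_, ?_⟩
      · have h4 : D.Sep (D.wall x a) b y := (D.Sep_step hby).2 e1
        rw [D.Sep_trans (y := b)]
        tauto
      · have h4 : D.Sep (D.wall x b) a y := (D.Sep_step hay).2 e2
        rw [D.Sep_trans (y := a)]
        tauto
    · rintro ⟨v, hva, hvb⟩
      have da := (hA x a v hxa).2 hva
      have db := (hA x b v hxb).2 hvb
      have cn := hX.conn
      have e1 : X.dist x a = 1 := SimpleGraph.dist_eq_one_iff_adj.2 hxa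
      have e2 : X.dist x b = 1 := SimpleGraph.dist_eq_one_iff_adj.2 hxb
      have t1 : X.dist x v ≤ X.dist x a + X.dist a v := cn.dist_triangle
      have t2 : X.dist x v ≤ X.dist x b + X.dist b v := cn.dist_triangle
      have t3 : X.dist a b ≤ X.dist a x + X.dist x b := cn.dist_triangle
      have c1 : X.dist a x = X.dist x a := SimpleGraph.dist_comm
      have n0 : X.dist a b ≠ 0 := fun h => hab (cn.dist_eq_zero_iff.1 h)
      have n1 : X.dist a b ≠ 1 := by
        intro h
        have hadj := SimpleGraph.dist_eq_one_iff_adj.1 h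
        exact nab (((D.Sep_step hadj).1 sab).trans ((D.Sep_step hadj).1 sab').symm)
      obtain ⟨m, ⟨m1, m2, m3⟩, -⟩ := hX.med a b v
      have c2 : X.dist b m = X.dist m b := SimpleGraph.dist_comm
      have c3 : X.dist b a = X.dist a b := SimpleGraph.dist_comm
      have c4 : X.dist m x = X.dist x m := SimpleGraph.dist_comm
      have na : X.dist a m ≠ 0 := by
        intro h
        have := cn.dist_eq_zero_iff.1 h
        subst this
        omega
      have nb : X.dist m b ≠ 0 := by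
        intro h
        have := cn.dist_eq_zero_iff.1 h
        subst this
        omega
      refine ⟨m, ?_, SimpleGraph.dist_eq_one_iff_adj.1 (by omega),
        SimpleGraph.dist_eq_one_iff_adj.1 (by omega)⟩
      rintro rfl
      omega
  refine ⟨h2, ?_, h3⟩
  rw [h2, D.Cross_iff x]
  constructor
  · intro h
    exact ⟨⟨x, D.Sep_self, D.Sep_self⟩, ⟨b, nsb, sb⟩, ⟨a, sa, nsa⟩, h⟩
  · intro h
    exact h.2.2.2

end MP8a95ee.Npc

end

section

/-!
# WA4: families of pairwise crossing walls (helper27)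
-/

set_option autoImplicit false

namespace MP8a95ee.Npc

open Classical

namespace WA4

theorem hasNbr {X : SimpleGraph ℕ} (hc : X.Connected) : ∃ a, X.Adj 0 a := by
  obtain ⟨p, -⟩ := hc.exists_walk_length_eq_dist 0 1
  cases p with
  | @cons _ v _ h p => exact ⟨v, h⟩

theorem not_cross_self {X : SimpleGraph ℕ} (D : WS X) (h : D.H) : ¬ D.Cross h h := by
  rintro ⟨-, ⟨z, h1, h2⟩, -, -⟩
  exact h2 h1

end WA4

theorem prfWA4 (h1 : S_WA1) (h2 : S_WA2) : S_WA4 := by
  intro X hX hf D N hN w hcross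
  have hN1 : 1 ≤ N := by
    obtain ⟨a, ha⟩ := WA4.hasNbr hX.conn
    have h3 : a ∈ nbr X 0 := (mem_nbr hf).2 ha
    have h4 : 0 < (nbr X 0).card := Finset.card_pos.2 ⟨a, h3⟩
    exact h4.trans_le (hN 0)
  -- another index
  have hother : ∀ i : Fin (N + 1), ∃ j, i ≠ j := by
    intro i
    have : Nontrivial (Fin (N + 1)) := Fin.nontrivial_iff_two_le.2 (by omega)
    obtain ⟨j, hj⟩ := exists_ne i
    exact ⟨j, hj.symm⟩
  -- the two intersections
  obtain ⟨xA, hxA⟩ : ∃ z, ∀ i, z ∈ D.side (w i) := by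
    obtain ⟨z, hz⟩ := D.helly (Finset.univ.image fun i => D.side (w i))
      (by
        intro A hA
        obtain ⟨i, -, rfl⟩ := Finset.mem_image.1 hA
        exact ⟨w i, Or.inl rfl⟩)
      (by
        intro A hA B hB
        obtain ⟨i, -, rfl⟩ := Finset.mem_image.1 hA
        obtain ⟨j, -, rfl⟩ := Finset.mem_image.1 hB
        by_cases hij : i = j
        · subst hij
          obtain ⟨k, hk⟩ := hother i
          obtain ⟨⟨z, hz, -⟩, -⟩ := hcross i k hk
          exact ⟨z, hz, hz⟩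
        · obtain ⟨⟨z, hz, hz'⟩, -⟩ := hcross i j hij
          exact ⟨z, hz, hz'⟩)
    exact ⟨z, fun i => hz _ (Finset.mem_image_of_mem _ (Finset.mem_univ i))⟩
  obtain ⟨yB, hyB⟩ : ∃ z, ∀ i, z ∉ D.side (w i) := by
    obtain ⟨z, hz⟩ := D.helly (Finset.univ.image fun i => (D.side (w i))ᶜ)
      (by
        intro A hA
        obtain ⟨i, -, rfl⟩ := Finset.mem_image.1 hA
        exact ⟨w i, Or.inr rfl⟩)
      (by
        intro A hA B hB
        obtain ⟨i, -, rfl⟩ := Finset.mem_image.1 hA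
        obtain ⟨j, -, rfl⟩ := Finset.mem_image.1 hB
        by_cases hij : i = j
        · subst hij
          obtain ⟨k, hk⟩ := hother i
          obtain ⟨-, -, -, ⟨z, hz, -⟩⟩ := hcross i k hk
          exact ⟨z, hz, hz⟩
        · obtain ⟨-, -, -, ⟨z, hz, hz'⟩⟩ := hcross i j hij
          exact ⟨z, hz, hz'⟩)
    exact ⟨z, fun i => hz _ (Finset.mem_image_of_mem _ (Finset.mem_univ i))⟩
  -- a closest pair
  obtain ⟨x, y, hx, hy, hmin⟩ : ∃ x y, (∀ i, x ∈ D.side (w i)) ∧ (∀ i, y ∉ D.side (w i)) ∧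
      ∀ x' y', (∀ i, x' ∈ D.side (w i)) → (∀ i, y' ∉ D.side (w i)) →
        X.dist x y ≤ X.dist x' y' := by
    have hex : ∃ n, ∃ x y, (∀ i, x ∈ D.side (w i)) ∧ (∀ i, y ∉ D.side (w i)) ∧
        X.dist x y = n := ⟨_, xA, yB, hxA, hyB, rfl⟩
    obtain ⟨x, y, hx, hy, h3⟩ := Nat.find_spec hex
    refine ⟨x, y, hx, hy, fun x' y' hx' hy' => ?_⟩
    rw [h3]
    exact Nat.find_min' hex ⟨x', y', hx', hy', rfl⟩
  have key : ∀ i, ∃ a, X.Adj x a ∧ D.wall x a = w i := by
    intro i
    have hsep : D.Sep (w i) x y := fun h => hy i (h.1 (hx i))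
    obtain ⟨a, hxa, ha⟩ := h1 X hX D (w i) x y hsep
    have h3 := ((h2 X hX D).1 x a y hxa).2 (ha y hsep)
    have h4 : ¬ ∀ j, a ∈ D.side (w j) := by
      intro h5
      have := hmin a y h5 hy
      omega
    push Not at h4
    obtain ⟨j, hj⟩ := h4
    have h5 : D.Sep (w j) x a := fun h => hj (h.1 (hx j))
    have h6 : w j = D.wall x a := (D.Sep_step hxa).1 h5
    by_cases hij : i = j
    · subst hij
      exact ⟨a, hxa, h6.symm⟩
    · exfalso
      obtain ⟨-, -, ⟨z, hz1, hz2⟩, -⟩ := (D.Cross_iff x).1 (hcross i j hij)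
      have h7 := ha z hz1
      rw [← h6] at h7
      exact hz2 h7
  choose a ha1 ha2 using key
  have hinj : Function.Injective a := by
    intro i j hij
    by_contra hne
    have h3 : w i = w j := by rw [← ha2 i, ← ha2 j, hij]
    have h4 := hcross i j hne
    rw [h3] at h4
    exact WA4.not_cross_self D _ h4
  have h3 : (Finset.univ.image a).card ≤ (nbr X x).card := by
    apply Finset.card_le_card
    intro b hb
    obtain ⟨i, -, rfl⟩ := Finset.mem_image.1 hb
    exact (mem_nbr hf).2 (ha1 i)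
  rw [Finset.card_image_of_injective _ hinj, Finset.card_univ, Fintype.card_fin] at h3
  have h4 := hN x
  omega

end MP8a95ee.Npc

end

section

/-!
# WA5: a wall next to `x` and `y` crosses all walls that separate `x` and `y`
-/

set_option autoImplicit false

namespace MP8a95ee.Npc

open Classical

theorem prfWA5 : S_WA5 := by
  intro X _ D x a y b h hxa hyb hw hn hs
  have h1 : D.Sep (D.wall x a) x a := (D.Sep_step hxa).2 rfl
  have h2 : D.Sep (D.wall x a) y b := (D.Sep_step hyb).2 hw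
  have hne : h ≠ D.wall x a := fun e => hn (e ▸ hs)
  have h3 : ¬ D.Sep h x a := fun e => hne ((D.Sep_step hxa).1 e)
  have h4 : ¬ D.Sep h y b := fun e => hne (((D.Sep_step hyb).1 e).trans hw.symm)
  have h5 : D.Sep h x b := (D.Sep_trans (x := x) (y := y) (z := b)).2 (fun e => h4 (e.1 hs))
  have h6 : D.Sep (D.wall x a) x b :=
    (D.Sep_trans (x := x) (y := y) (z := b)).2 (fun e => hn (e.2 h2))
  exact (D.Cross_iff x).2 ⟨⟨x, D.Sep_self, D.Sep_self⟩, ⟨y, hn, hs⟩, ⟨a, h1, h3⟩, ⟨b, h6, h5⟩⟩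

end MP8a95ee.Npc

end

section

/-!
# WA6: walls and corners of cubes
-/

set_option autoImplicit false

namespace MP8a95ee.Npc

open Classical

namespace WA6

variable {X : SimpleGraph ℕ} (D : WS X)

/-- the side of the wall `wall x a` which does not contain `x` -/
def far (x a : ℕ) : Set ℕ := {z | D.Sep (D.wall x a) x z}

theorem far_side (x a : ℕ) : ∃ h, far D x a = D.side h ∨ far D x a = (D.side h)ᶜ := by
  refine ⟨D.wall x a, ?_⟩
  by_cases hx : x ∈ D.side (D.wall x a)
  · right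
    ext z
    unfold far WS.Sep
    simp only [Set.mem_ofPred_eq, Set.mem_compl_iff, hx, true_iff]
  · left
    ext z
    unfold far WS.Sep
    simp only [Set.mem_ofPred_eq, hx, false_iff, not_not]

end WA6

open WA6 in
theorem prfWA6 (h1 : S_WA1) (h2 : S_WA2) (h3 : S_WA3) : S_WA6 := by
  intro X hX hf D x s hs
  obtain ⟨w1, _, w3⟩ := h2 X hX D
  rw [mem_link] at hs
  obtain ⟨hsub, hsq⟩ := hs
  have hadj : ∀ a ∈ s, X.Adj x a := fun a ha => (mem_nbr hf).1 (hsub ha)
  -- a vertex on the far side of all walls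
  have hne : ∃ z, ∀ a ∈ s, D.Sep (D.wall x a) x z := by
    obtain ⟨z, hz⟩ := D.helly (s.image (far D x)) (by
      intro A hA
      obtain ⟨a, _, rfl⟩ := Finset.mem_image.1 hA
      exact far_side D x a) (by
      intro A hA B hB
      obtain ⟨a, ha, rfl⟩ := Finset.mem_image.1 hA
      obtain ⟨b, hb, rfl⟩ := Finset.mem_image.1 hB
      by_cases hab : a = b
      · subst hab
        have h4 : D.Sep (D.wall x a) x a := (D.Sep_step (hadj a ha)).2 rfl
        exact ⟨a, h4, h4⟩
      · obtain ⟨v, hv1, hv2⟩ :=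
          (h3 X hX D x a b (hadj a ha) (hadj b hb) hab).1.1 (hsq a ha b hb hab)
        exact ⟨v, hv1, hv2⟩)
    exact ⟨z, fun a ha => hz (far D x a) (Finset.mem_image_of_mem _ ha)⟩
  obtain ⟨z0, hz0, hmin⟩ : ∃ z0, (∀ a ∈ s, D.Sep (D.wall x a) x z0) ∧
      ∀ z, (∀ a ∈ s, D.Sep (D.wall x a) x z) → X.dist x z0 ≤ X.dist x z := by
    have hex : ∃ n, ∃ z, (∀ a ∈ s, D.Sep (D.wall x a) x z) ∧ X.dist x z = n := by
      obtain ⟨z, hz⟩ := hne
      exact ⟨_, z, hz, rfl⟩
    obtain ⟨z, hz, hzn⟩ := Nat.find_spec hex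
    refine ⟨z, hz, fun z' hz' => ?_⟩
    rw [hzn]
    exact Nat.find_min' hex ⟨z', hz', rfl⟩
  have hsep : D.sep x z0 = s.image (D.wall x) := by
    ext h
    rw [D.mem_sep, Finset.mem_image]
    constructor
    · intro hh
      by_contra hcon
      have hW : ∀ a ∈ s, h ≠ D.wall x a := fun a ha he => hcon ⟨a, ha, he.symm⟩
      obtain ⟨b, hb, hball⟩ := h1 X hX D h z0 x (D.Sep_comm.1 hh)
      have hbx : D.Sep (D.wall z0 b) z0 x := hball x (D.Sep_comm.1 hh)
      have hlt : X.dist b x < X.dist z0 x := (w1 z0 b x hb).2 hbx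
      have hnot : ¬ ∀ a ∈ s, D.Sep (D.wall x a) x b := by
        intro hall
        have h5 := hmin b hall
        rw [X.dist_comm (u := x) (v := z0), X.dist_comm (u := x) (v := b)] at h5
        omega
      push Not at hnot
      obtain ⟨a, ha, hab⟩ := hnot
      have h6 : D.Sep (D.wall x a) z0 b := by
        rw [D.Sep_trans (x := z0) (y := x) (z := b)]
        have h7 : D.Sep (D.wall x a) z0 x := D.Sep_comm.1 (hz0 a ha)
        tauto
      have h8 : D.wall x a = D.wall z0 b := (D.Sep_step hb).1 h6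
      have h9 : ¬ D.Sep h x a := fun h10 => hW a ha ((D.Sep_step (hadj a ha)).1 h10)
      have h11 : D.Sep h z0 a := by
        rw [D.Sep_trans (x := z0) (y := x) (z := a)]
        have h7 : D.Sep h z0 x := D.Sep_comm.1 hh
        tauto
      have h12 : D.Sep (D.wall x a) z0 a := by rw [h8]; exact hball a h11
      have h13 : D.Sep (D.wall x a) x a := (D.Sep_step (hadj a ha)).2 rfl
      rw [D.Sep_trans (x := z0) (y := x) (z := a)] at h12
      have h14 : D.Sep (D.wall x a) z0 x := D.Sep_comm.1 (hz0 a ha)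
      tauto
    · rintro ⟨a, ha, rfl⟩
      exact hz0 a ha
  have hinj : Set.InjOn (D.wall x) (s : Set ℕ) := fun a ha b hb hab =>
    w3 x a b (hadj a ha) (hadj b hb) hab
  have hcard : (s.image (D.wall x)).card = s.card := Finset.card_image_of_injOn hinj
  have hdist : X.dist x z0 = s.card := by rw [D.dist_eq, hsep, hcard]
  have hex : ∃ y, X.dist x y = s.card ∧ ∀ a ∈ s, X.dist a y + 1 = X.dist x y := by
    refine ⟨z0, hdist, fun a ha => ?_⟩
    have h5 : X.dist a z0 < X.dist x z0 := (w1 x a z0 (hadj a ha)).2 (hz0 a ha)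
    have h6 : X.dist x z0 ≤ X.dist x a + X.dist a z0 := hX.conn.dist_triangle
    have h7 : X.dist x a = 1 := SimpleGraph.dist_eq_one_iff_adj.2 (hadj a ha)
    omega
  have hy : X.dist x (corner X x s) = s.card ∧
      ∀ a ∈ s, X.dist a (corner X x s) + 1 = X.dist x (corner X x s) := by
    unfold corner
    rw [dif_pos hex]
    exact hex.choose_spec
  obtain ⟨hy1, hy2⟩ := hy
  have hsub2 : s.image (D.wall x) ⊆ D.sep x (corner X x s) := by
    intro h hh
    obtain ⟨a, ha, rfl⟩ := Finset.mem_image.1 hh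
    rw [D.mem_sep]
    apply (w1 x a _ (hadj a ha)).1
    have := hy2 a ha
    omega
  have heq : s.image (D.wall x) = D.sep x (corner X x s) := by
    apply Finset.eq_of_subset_of_card_le hsub2
    rw [← D.dist_eq, hy1, hcard]
  intro h
  rw [← D.mem_sep, ← heq, Finset.mem_image]
  constructor
  · rintro ⟨a, ha, rfl⟩
    exact ⟨a, ha, rfl⟩
  · rintro ⟨a, ha, rfl⟩
    exact ⟨a, ha, rfl⟩

end MP8a95ee.Npc

end

section

/-!
# ZC1: change of the corner of a cube with ordered directions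
-/

set_option autoImplicit false

namespace MP8a95ee.Npc

open Classical

namespace ZC1

variable {X : SimpleGraph ℕ}

theorem mem_Dom (hf : LocFin X) {n x : ℕ} {s : Fin n → ℕ} :
    s ∈ Dom X n x ↔ Function.Injective s ∧ Finset.univ.image s ∈ link X x := by
  unfold Dom
  rw [Finset.mem_filter, Fintype.mem_piFinset]
  constructor
  · exact fun h => h.2
  · intro h
    refine ⟨fun i => ?_, h⟩
    exact (mem_link.1 h.2).1 (Finset.mem_image_of_mem s (Finset.mem_univ i))

theorem image_symm {n : ℕ} {s : Fin n → ℕ} (hs : Function.Injective s) (I J : Finset (Fin n)) :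
    symmDiff (I.image s) (J.image s) = (symmDiff I J).image s := by
  ext a
  simp only [Finset.mem_symmDiff, Finset.mem_image]
  constructor
  · rintro (⟨⟨i, hi, rfl⟩, h⟩ | ⟨⟨i, hi, rfl⟩, h⟩)
    · exact ⟨i, Or.inl ⟨hi, fun hj => h ⟨i, hj, rfl⟩⟩, rfl⟩
    · exact ⟨i, Or.inr ⟨hi, fun hj => h ⟨i, hj, rfl⟩⟩, rfl⟩
  · rintro ⟨i, ⟨hi, h⟩ | ⟨hi, h⟩, rfl⟩
    · exact Or.inl ⟨⟨i, hi, rfl⟩, fun ⟨j, hj, hji⟩ => h (hs hji ▸ hj)⟩
    · exact Or.inr ⟨⟨i, hi, rfl⟩, fun ⟨j, hj, hji⟩ => h (hs hji ▸ hj)⟩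

theorem single {n : ℕ} (s : Fin n → ℕ) (j : Fin n) : ({s j} : Finset ℕ) = ({j} : Finset (Fin n)).image s := by
  rw [Finset.image_singleton]

theorem th_empty (h1 : S_CU1) (hX : IsMedianGraph X) (hf : LocFin X) {n x : ℕ} {s : Fin n → ℕ}
    (hs : s ∈ Dom X n x) : th X ∅ x s = (x, s) := by
  obtain ⟨hinj, hl⟩ := (mem_Dom hf).1 hs
  obtain ⟨c1, c2, -⟩ := h1 X hX hf x _ hl
  unfold th rb
  rw [Finset.image_empty]
  refine Prod.ext c1 ?_
  funext j
  show corner X x (symmDiff ∅ {s j}) = s j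
  rw [show symmDiff (∅ : Finset ℕ) {s j} = {s j} from bot_symmDiff _]
  exact c2 _ (Finset.mem_image_of_mem s (Finset.mem_univ j))

theorem th_mem (h1 : S_CU1) (h3 : S_CU3) (hX : IsMedianGraph X) (hf : LocFin X) {n x : ℕ}
    {s : Fin n → ℕ} (hs : s ∈ Dom X n x) (I : Finset (Fin n)) :
    (th X I x s).2 ∈ Dom X n (th X I x s).1 := by
  obtain ⟨hinj, hl⟩ := (mem_Dom hf).1 hs
  obtain ⟨-, -, -, c4, -, -⟩ := h1 X hX hf x _ hl
  have hT : I.image s ⊆ Finset.univ.image s := Finset.image_subset_image (Finset.subset_univ I)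
  rw [mem_Dom hf]
  unfold th
  constructor
  · intro i j hij
    exact hinj (c4 _ hT _ (Finset.mem_image_of_mem s (Finset.mem_univ i)) _
      (Finset.mem_image_of_mem s (Finset.mem_univ j)) hij)
  · have e := (h3 X hX hf x _ hl _ hT).1
    rw [Finset.image_image] at e
    exact e

theorem th_comp (h1 : S_CU1) (h3 : S_CU3) (hX : IsMedianGraph X) (hf : LocFin X) {n x : ℕ}
    {s : Fin n → ℕ} (hs : s ∈ Dom X n x) (I J : Finset (Fin n)) :
    th X J (th X I x s).1 (th X I x s).2 = th X (symmDiff I J) x s := by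
  have hs' := th_mem h1 h3 hX hf hs I
  obtain ⟨hinj, hl⟩ := (mem_Dom hf).1 hs
  obtain ⟨hinj', -⟩ := (mem_Dom hf).1 hs'
  have hT : ∀ K : Finset (Fin n), K.image s ⊆ Finset.univ.image s :=
    fun K => Finset.image_subset_image (Finset.subset_univ K)
  have key : ∀ K : Finset (Fin n), corner X (corner X x (I.image s))
      (K.image (th X I x s).2) = corner X x ((symmDiff I K).image s) := by
    intro K
    have e := (h3 X hX hf x _ hl _ (hT I)).2 _ (hT K)
    rw [Finset.image_image, image_symm hinj] at e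
    exact e
  refine Prod.ext (key J) ?_
  funext j
  show corner X (corner X x (I.image s)) (symmDiff (J.image (th X I x s).2) {(th X I x s).2 j}) =
    corner X x (symmDiff ((symmDiff I J).image s) {s j})
  rw [single (th X I x s).2 j, image_symm hinj', key, single s j, image_symm hinj, symmDiff_assoc]

theorem th_aut (h4 : S_CU5) (hX : IsMedianGraph X) (hf : LocFin X) {n x : ℕ}
    {s : Fin n → ℕ} (hs : s ∈ Dom X n x) (I : Finset (Fin n)) (g : Equiv.Perm ℕ) (hg : IsAut X g) :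
    th X I (g x) (fun i => g (s i)) = (g (th X I x s).1, fun i => g ((th X I x s).2 i)) := by
  obtain ⟨hinj, hl⟩ := (mem_Dom hf).1 hs
  have key : ∀ K : Finset (Fin n), corner X (g x) (K.image fun i => g (s i)) =
      g (corner X x (K.image s)) := by
    intro K
    have e := (h4 X hX hf g hg).2.2.2.2.2.1 x _
      (link_mono hl (Finset.image_subset_image (Finset.subset_univ K)))
    rw [Finset.image_image] at e
    exact e
  have hinj' : Function.Injective (fun i => g (s i)) := g.injective.comp hinj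
  refine Prod.ext (key I) ?_
  funext j
  show corner X (g x) (symmDiff (I.image fun i => g (s i)) {g (s j)}) =
    g (corner X x (symmDiff (I.image s) {s j}))
  rw [single (fun i => g (s i)) j, image_symm hinj', key, single s j, image_symm hinj]

theorem th_flip (h1 : S_CU1) (hX : IsMedianGraph X) (hf : LocFin X) {n x : ℕ}
    {s : Fin n → ℕ} (hs : s ∈ Dom X n x) (i : Fin n) (Γ : Subgroup (Equiv.Perm ℕ))
    (o : ℕ → (Fin n → ℕ) → ℤ) (ho : Oriented X Γ n o) :
    o (th X {i} x s).1 (th X {i} x s).2 = - o x s := by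
  obtain ⟨hinj, hl⟩ := (mem_Dom hf).1 hs
  obtain ⟨c1, c2, -⟩ := h1 X hX hf x _ hl
  rw [← ho.flip x s i hinj hl]
  have e1 : (th X {i} x s).1 = s i := by
    show corner X x (({i} : Finset (Fin n)).image s) = s i
    rw [Finset.image_singleton]
    exact c2 _ (Finset.mem_image_of_mem s (Finset.mem_univ i))
  have e2 : (th X {i} x s).2 = fun j => if j = i then x else corner X x {s i, s j} := by
    funext j
    show corner X x (symmDiff (({i} : Finset (Fin n)).image s) {s j}) = _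
    rw [Finset.image_singleton]
    by_cases hji : j = i
    · rw [if_pos hji, hji, symmDiff_self]
      exact c1
    · rw [if_neg hji]
      congr 1
      ext a
      rw [Finset.mem_symmDiff, Finset.mem_singleton, Finset.mem_singleton, Finset.mem_insert,
        Finset.mem_singleton]
      constructor
      · rintro (⟨h, -⟩ | ⟨h, -⟩)
        · exact Or.inl h
        · exact Or.inr h
      · rintro (h | h)
        · exact Or.inl ⟨h, fun h' => hji (hinj (h'.symm.trans h))⟩
        · exact Or.inr ⟨h, fun h' => hji (hinj (h.symm.trans h'))⟩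
  rw [e1, e2]

end ZC1

open ZC1 in
theorem prfZC1 (h1 : S_CU1) (h2 : S_CU2) (h3 : S_CU3) (h4 : S_CU5) : S_ZC1 := by
  intro X hX hf n I x s hs
  obtain ⟨hinj, hl⟩ := (mem_Dom hf).1 hs
  have hT : ∀ K : Finset (Fin n), K.image s ⊆ Finset.univ.image s :=
    fun K => Finset.image_subset_image (Finset.subset_univ K)
  refine ⟨th_mem h1 h3 hX hf hs I, ?_, fun g hg => th_aut h4 hX hf hs I g hg, ?_, ?_⟩
  · rw [th_comp h1 h3 hX hf hs I I, symmDiff_self]
    exact th_empty h1 hX hf hs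
  · intro Γ o ho
    induction I using Finset.induction_on with
    | empty =>
      rw [th_empty h1 hX hf hs, Finset.card_empty, pow_zero, one_mul]
    | insert i I hi ih =>
      have e : symmDiff I {i} = insert i I := by
        ext a
        rw [Finset.mem_symmDiff, Finset.mem_singleton, Finset.mem_insert]
        constructor
        · rintro (⟨h, -⟩ | ⟨h, -⟩)
          · exact Or.inr h
          · exact Or.inl h
        · rintro (h | h)
          · exact Or.inr ⟨h, fun h' => hi (h ▸ h')⟩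
          · exact Or.inl ⟨h, fun h' => hi (h' ▸ h)⟩
      rw [← e, ← th_comp h1 h3 hX hf hs I {i},
        th_flip h1 hX hf (th_mem h1 h3 hX hf hs I) i Γ o ho, ih, e,
        Finset.card_insert_of_notMem hi, pow_succ]
      ring
  · intro J
    have e := h2 X hX hf x _ hl _ (hT I) _ (hT J)
    rw [image_symm hinj, Finset.image_image] at e
    exact e

end MP8a95ee.Npc

end

section

/-!
# ZC2: sums over orbits are invariant under the change of corner
-/

set_option autoImplicit false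

namespace MP8a95ee.Npc

open Classical

namespace ZC2

theorem dom_inv (h2 : S_CU5) {X : SimpleGraph ℕ} (hX : IsMedianGraph X) (hf : LocFin X)
    {g : Equiv.Perm ℕ} (hg : IsAut X g) {n : ℕ} {x : ℕ} {s : Fin n → ℕ} (hs : s ∈ Dom X n x) :
    (fun i => g (s i)) ∈ Dom X n (g x) := by
  obtain ⟨-, hn, -, hl, -⟩ := h2 X hX hf g hg
  unfold Dom at hs ⊢
  rw [Finset.mem_filter, Fintype.mem_piFinset] at hs ⊢
  obtain ⟨h3, h4, h5⟩ := hs
  refine ⟨fun i => ?_, g.injective.comp h4, ?_⟩
  · rw [hn]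
    exact Finset.mem_image_of_mem _ (h3 i)
  · have h6 : (Finset.univ.image fun i => g (s i)) = (Finset.univ.image s).image g := by
      rw [Finset.image_image]
      rfl
    rw [h6, hl]
    exact h5

end ZC2

theorem prfZC2 (h1 : S_PT3) (h2 : S_CU5) (h3 : S_ZC1) : S_ZC2 := by
  intro X hX hf Γ F hD n I M _ Φ hΦ
  obtain ⟨-, hfree, -⟩ := h1 X hX hf Γ F hD
  have hrep : ∀ y, ∃ g ∈ Γ, g y ∈ F := by
    intro y
    obtain ⟨z, ⟨hz, g, hg, hgy⟩, -⟩ := hD.rep y
    exact ⟨g, hg, by rw [hgy]; exact hz⟩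
  choose gr hgr hgrF using hrep
  have haut : ∀ g ∈ Γ, IsAut X g := fun g hg => hD.auto g hg
  set r : ((_ : ℕ) × (Fin n → ℕ)) → ((_ : ℕ) × (Fin n → ℕ)) := fun p =>
    ⟨gr (th X I p.1 p.2).1 (th X I p.1 p.2).1,
      fun i => gr (th X I p.1 p.2).1 ((th X I p.1 p.2).2 i)⟩ with hr
  have hmem : ∀ p ∈ F.sigma (fun x => Dom X n x), r p ∈ F.sigma (fun x => Dom X n x) := by
    intro p hp
    rw [Finset.mem_sigma] at hp ⊢
    obtain ⟨h4, -⟩ := h3 X hX hf n I p.1 p.2 hp.2
    exact ⟨hgrF _, ZC2.dom_inv h2 hX hf (haut _ (hgr _)) h4⟩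
  have hinv : ∀ p ∈ F.sigma (fun x => Dom X n x), r (r p) = p := by
    rintro ⟨x, s⟩ hp
    rw [Finset.mem_sigma] at hp
    obtain ⟨hx, hs⟩ := hp
    simp only at hx hs
    obtain ⟨h4, h5, -⟩ := h3 X hX hf n I x s hs
    obtain ⟨-, -, h6, -⟩ := h3 X hX hf n I _ _ h4
    obtain ⟨g, hg⟩ : ∃ g, g = gr (th X I x s).1 := ⟨_, rfl⟩
    have hgΓ : g ∈ Γ := by rw [hg]; exact hgr _
    have h7 := h6 g (haut g hgΓ)
    rw [h5] at h7
    have h8 : r ⟨x, s⟩ = ⟨g (th X I x s).1, fun i => g ((th X I x s).2 i)⟩ := by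
      rw [hr, hg]
    rw [h8]
    have h9 : r ⟨g (th X I x s).1, fun i => g ((th X I x s).2 i)⟩ =
        ⟨gr (g x) (g x), fun i => gr (g x) (g (s i))⟩ := by
      rw [hr]
      simp only [h7]
    rw [h9]
    have h10 : gr (g x) (g x) = x := by
      obtain ⟨z, -, hu⟩ := hD.rep x
      have k1 := hu x ⟨hx, 1, Γ.one_mem, rfl⟩
      have k2 := hu (gr (g x) (g x)) ⟨hgrF _, gr (g x) * g, Γ.mul_mem (hgr _) hgΓ, rfl⟩
      rw [k2, ← k1]
    have h11 : gr (g x) * g = 1 := hfree _ (Γ.mul_mem (hgr _) hgΓ) x h10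
    have h12 : ∀ y, gr (g x) (g y) = y := fun y => by
      have := congrArg (fun f : Equiv.Perm ℕ => f y) h11
      exact this
    simp only [h12]
  rw [Finset.sum_sigma', Finset.sum_sigma']
  refine Finset.sum_nbij' r r hmem hmem hinv hinv fun p hp => ?_
  rw [Finset.mem_sigma] at hp
  obtain ⟨h4, -⟩ := h3 X hX hf n I p.1 p.2 hp.2
  exact (hΦ _ (hgr (th X I p.1 p.2).1) _ _ h4).symm

end MP8a95ee.Npc

end

section

/-!
# ZC3: affine simplices and their faces
-/

set_option autoImplicit false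

namespace MP8a95ee.Npc

open Classical

namespace ZC3

theorem ite_iff {p q : Prop} {_ : Decidable p} {_ : Decidable q} (h : p ↔ q) :
    (if p then (1 : ℝ) else 0) = if q then 1 else 0 := by
  by_cases hp : p
  · rw [if_pos hp, if_pos (h.1 hp)]
  · rw [if_neg hp, if_neg (fun hq => hp (h.2 hq))]

theorem cubePt_congr (X : SimpleGraph ℕ) (x : ℕ) (s : Finset ℕ) {q q' : ℕ → ℝ}
    (h : ∀ a ∈ s, q a = q' a) : cubePt X x s q = cubePt X x s q' := by
  funext y
  unfold cubePt
  refine Finset.sum_congr rfl fun T hT => ?_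
  rw [Finset.mem_filter, Finset.mem_powerset] at hT
  congr 1
  · exact Finset.prod_congr rfl fun a ha => h a (hT.1 ha)
  · exact Finset.prod_congr rfl fun a ha => by rw [h a (Finset.mem_sdiff.1 ha).1]

theorem affPt_mem (X : SimpleGraph ℕ) {n : ℕ} (x : ℕ) (s : Fin n → ℕ)
    (h : Finset.univ.image s ∈ link X x) (t : stdSimplex ℝ (Fin (n + 1))) :
    affPt X x s t ∈ space X :=
  ⟨x, _, Sp.qaff s t, h, Sp.qaff_mem s t, rfl⟩

theorem pre_sub {n : ℕ} (s : Fin n → ℕ) (k : ℕ) : Sp.pre s k ⊆ Finset.univ.image s := by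
  intro a ha
  rw [Sp.mem_pre] at ha
  obtain ⟨j, -, rfl⟩ := ha
  exact Finset.mem_image_of_mem _ (Finset.mem_univ _)

theorem mem_pre_inj {n : ℕ} {s : Fin n → ℕ} (hs : Function.Injective s) (k : ℕ) (j : Fin n) :
    s j ∈ Sp.pre s k ↔ (j : ℕ) < k := by
  rw [Sp.mem_pre]
  constructor
  · rintro ⟨i, hi, h⟩
    rw [← hs h]
    exact hi
  · intro h
    exact ⟨j, h, rfl⟩

theorem img_tail {n : ℕ} {s : Fin (n + 1) → ℕ} (hs : Function.Injective s) :
    (Finset.univ.image s).erase (s 0) = Finset.univ.image (Fin.tail s) := by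
  ext b
  simp only [Finset.mem_erase, Finset.mem_image, Finset.mem_univ, true_and, Fin.tail]
  constructor
  · rintro ⟨hb, j, hj⟩
    obtain rfl | ⟨i, rfl⟩ := Fin.eq_zero_or_eq_succ j
    · exact absurd hj.symm hb
    · exact ⟨i, hj⟩
  · rintro ⟨i, hi⟩
    refine ⟨?_, _, hi⟩
    intro h
    rw [h] at hi
    exact Fin.succ_ne_zero i (hs hi)

theorem img_init {n : ℕ} {s : Fin (n + 1) → ℕ} (hs : Function.Injective s) :
    (Finset.univ.image s).erase (s (Fin.last n)) = Finset.univ.image (Fin.init s) := by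
  ext b
  simp only [Finset.mem_erase, Finset.mem_image, Finset.mem_univ, true_and, Fin.init]
  constructor
  · rintro ⟨hb, j, hj⟩
    obtain ⟨i, rfl⟩ | rfl := Fin.eq_castSucc_or_eq_last j
    · exact ⟨i, hj⟩
    · exact absurd hj.symm hb
  · rintro ⟨i, hi⟩
    refine ⟨?_, _, hi⟩
    intro h
    rw [h] at hi
    exact (Fin.castSucc_lt_last i).ne (hs hi)

theorem img_swap {n : ℕ} (s : Fin n → ℕ) (p q : Fin n) :
    Finset.univ.image (s ∘ Equiv.swap p q) = Finset.univ.image s := by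
  ext x
  simp only [Finset.mem_image, Finset.mem_univ, true_and, Function.comp]
  constructor
  · rintro ⟨j, h⟩
    exact ⟨_, h⟩
  · rintro ⟨j, h⟩
    exact ⟨Equiv.swap p q j, by rw [Equiv.swap_apply_self]; exact h⟩

theorem dom_inj {X : SimpleGraph ℕ} {n x : ℕ} {s : Fin n → ℕ} (hs : s ∈ Dom X n x) :
    Function.Injective s := (Finset.mem_filter.1 hs).2.1

theorem dom_link {X : SimpleGraph ℕ} {n x : ℕ} {s : Fin n → ℕ} (hs : s ∈ Dom X n x) :
    Finset.univ.image s ∈ link X x := (Finset.mem_filter.1 hs).2.2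

/-- the weights at a vertex -/
theorem wt_vtx {n : ℕ} (s : Fin n → ℕ) (k : Fin (n + 1)) (T : Finset ℕ) :
    wt (Finset.univ.image s) T (Sp.qaff s (vtx k)) = if T = Sp.pre s k then 1 else 0 := by
  unfold wt
  by_cases h : T = Sp.pre s k
  · rw [if_pos h]
    have h1 : ∏ a ∈ T, Sp.qaff s (vtx k) a = 1 := by
      refine Finset.prod_eq_one fun a ha => ?_
      rw [Sp.Cx.qaff_vtx, if_pos (h ▸ ha)]
    have h2 : ∏ a ∈ Finset.univ.image s \ T, (1 - Sp.qaff s (vtx k) a) = 1 := by
      refine Finset.prod_eq_one fun a ha => ?_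
      rw [Sp.Cx.qaff_vtx, if_neg (fun h' => (Finset.mem_sdiff.1 ha).2 (h ▸ h')), sub_zero]
    rw [h1, h2, mul_one]
  · rw [if_neg h]
    by_cases h' : T ⊆ Sp.pre s k
    · obtain ⟨a, ha, haT⟩ : ∃ a ∈ Sp.pre s k, a ∉ T := by
        by_contra hc
        push Not at hc
        exact h (Finset.Subset.antisymm h' hc)
      rw [Finset.prod_eq_zero (i := a) (s := Finset.univ.image s \ T)
        (Finset.mem_sdiff.2 ⟨pre_sub s k ha, haT⟩)
        (by rw [Sp.Cx.qaff_vtx, if_pos ha, sub_self]), mul_zero]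
    · obtain ⟨a, haT, ha⟩ : ∃ a ∈ T, a ∉ Sp.pre s k := by
        by_contra hc
        push Not at hc
        exact h' hc
      rw [Finset.prod_eq_zero (i := a) (s := T) haT (by rw [Sp.Cx.qaff_vtx, if_neg ha]), zero_mul]

theorem part2 (h1 : S_CU1) (h2 : S_PT1) (X : SimpleGraph ℕ) (hX : IsMedianGraph X) (hF : LocFin X)
    (n x : ℕ) (s : Fin n → ℕ) (hs : s ∈ Dom X n x) (k : Fin (n + 1)) (y : ℕ) :
    affPt X x s (vtx k) y = if y = corner X x (Sp.pre s k) then 1 else 0 := by
  have hl := dom_link hs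
  obtain ⟨-, -, hinj, -⟩ := h1 X hX hF x _ hl
  obtain ⟨-, hsupp, hval, -⟩ := h2 X hX hF x _ hl (Sp.qaff s (vtx k)) (Sp.qaff_mem s (vtx k))
  unfold affPt
  by_cases hy : y ∈ cubeSet X x (Finset.univ.image s)
  · unfold cubeSet at hy
    rw [Finset.mem_image] at hy
    obtain ⟨T, hT, rfl⟩ := hy
    rw [Finset.mem_powerset] at hT
    rw [hval T hT, wt_vtx s k T]
    by_cases h : T = Sp.pre s k
    · rw [if_pos h, if_pos (by rw [h])]
    · rw [if_neg h, if_neg (fun h' => h (hinj T hT _ (pre_sub s k) h'))]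
  · rw [if_neg]
    · by_contra hne
      exact hy (hsupp y hne)
    · rintro rfl
      exact hy (Finset.mem_image_of_mem _ (Finset.mem_powerset.2 (pre_sub s k)))

theorem part3 (h1 : S_CU1) (h3 : S_PT2) (X : SimpleGraph ℕ) (hX : IsMedianGraph X) (hF : LocFin X)
    (n x : ℕ) (s : Fin (n + 1) → ℕ) (hs : s ∈ Dom X (n + 1) x)
    (t : stdSimplex ℝ (Fin (n + 1))) :
    affPt X x s (stdSimplex.map (Fin.succAbove 0) t) =
      affPt X (s 0) (fun j : Fin n => corner X x {s 0, s j.succ}) t := by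
  have hl := dom_link hs
  have hi := dom_inj hs
  obtain ⟨-, -, hinj, -⟩ := h1 X hX hF x _ hl
  have hm : ∀ j, s j ∈ Finset.univ.image s := fun j => Finset.mem_image_of_mem _ (Finset.mem_univ _)
  have hi' : Function.Injective (fun j : Fin n => corner X x {s 0, s j.succ}) := by
    intro i j hij
    have hsub : ∀ j : Fin n, ({s 0, s j.succ} : Finset ℕ) ⊆ Finset.univ.image s := by
      intro j a ha
      rw [Finset.mem_insert, Finset.mem_singleton] at ha
      obtain rfl | rfl := ha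
      · exact hm _
      · exact hm _
    have h := hinj _ (hsub i) _ (hsub j) hij
    have h' : s i.succ ∈ ({s 0, s j.succ} : Finset ℕ) := by
      rw [← h]
      simp
    rw [Finset.mem_insert, Finset.mem_singleton] at h'
    obtain h' | h' := h'
    · exact absurd (hi h') (Fin.succ_ne_zero i)
    · exact Fin.succ_injective _ (hi h')
  unfold affPt
  have hone : Sp.qaff s (stdSimplex.map (Fin.succAbove 0) t) (s 0) = 1 := by
    rw [Sp.qaff_map]
    refine Eq.trans (Finset.sum_congr rfl fun k _ => ?_) (stdSimplex.sum_eq_one t)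
    rw [Fin.zero_succAbove, Fin.val_succ]
    rw [if_pos ((Sp.mem_pre_succ s _ _).2 (Or.inl rfl)), mul_one]
  have hq : ∀ b ∈ (Finset.univ.image s).erase (s 0),
      Sp.qaff (fun j : Fin n => corner X x {s 0, s j.succ}) t (corner X x {s 0, b}) =
        Sp.qaff s (stdSimplex.map (Fin.succAbove 0) t) b := by
    intro b hb
    rw [img_tail hi, Finset.mem_image] at hb
    obtain ⟨j, -, rfl⟩ := hb
    rw [Sp.qaff_map]
    unfold Sp.qaff
    refine Finset.sum_congr rfl fun k _ => ?_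
    congr 1
    rw [Fin.zero_succAbove, Fin.val_succ]
    have e1 := mem_pre_inj hi' (k : ℕ) j
    have e2 := mem_pre_inj hi ((k : ℕ) + 1) j.succ
    rw [Fin.val_succ, Nat.succ_lt_succ_iff] at e2
    exact ite_iff (e1.trans e2.symm)
  rw [(h3 X hX hF x _ hl (Sp.qaff s (stdSimplex.map (Fin.succAbove 0) t)) (s 0) (hm 0)).2 hone
    (Sp.qaff (fun j : Fin n => corner X x {s 0, s j.succ}) t) hq]
  rw [img_tail hi, Finset.image_image]
  rfl

theorem part4 (h3 : S_PT2) (X : SimpleGraph ℕ) (hX : IsMedianGraph X) (hF : LocFin X)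
    (n x : ℕ) (s : Fin (n + 1) → ℕ) (hs : s ∈ Dom X (n + 1) x)
    (t : stdSimplex ℝ (Fin (n + 1))) :
    affPt X x s (stdSimplex.map (Fin.succAbove (Fin.last (n + 1))) t) =
      affPt X x (Fin.init s) t := by
  have hl := dom_link hs
  have hi := dom_inj hs
  have hm : ∀ j, s j ∈ Finset.univ.image s := fun j => Finset.mem_image_of_mem _ (Finset.mem_univ _)
  unfold affPt
  rw [(h3 X hX hF x _ hl _ (s (Fin.last n)) (hm _)).1, img_init hi]
  · refine cubePt_congr X x _ fun a _ => ?_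
    rw [Sp.qaff_map]
    unfold Sp.qaff
    refine Finset.sum_congr rfl fun k _ => ?_
    rw [Fin.succAbove_last, Fin.val_castSucc]
    congr 1
    exact ite_iff (Sp.mem_pre_init s k (by omega) a)
  · rw [Sp.qaff_map]
    refine Finset.sum_eq_zero fun k _ => ?_
    rw [Fin.succAbove_last, Fin.val_castSucc, if_neg, mul_zero]
    rw [mem_pre_inj hi]
    rw [Fin.val_last]
    omega

theorem part5 (X : SimpleGraph ℕ) (n x : ℕ) (s : Fin (n + 1) → ℕ) (i : Fin (n + 2))
    (p q : Fin (n + 1)) (hi : (i : ℕ) = (q : ℕ)) (hpq : (q : ℕ) = (p : ℕ) + 1)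
    (t : stdSimplex ℝ (Fin (n + 1))) :
    affPt X x (s ∘ Equiv.swap p q) (stdSimplex.map i.succAbove t) =
      affPt X x s (stdSimplex.map i.succAbove t) := by
  unfold affPt
  rw [img_swap]
  refine cubePt_congr X x _ fun a _ => ?_
  rw [Sp.qaff_map, Sp.qaff_map]
  refine Finset.sum_congr rfl fun k _ => ?_
  rw [Sp.pre_swap s p q hpq]
  intro h
  exact Fin.succAbove_ne i k (Fin.ext (h.trans hi.symm))

end ZC3

theorem prfZC3 (h1 : S_CU1) (h2 : S_PT1) (h3 : S_PT2) : S_ZC3 := by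
  intro X hX hF
  refine ⟨?_, ?_, ?_, ?_, ?_⟩
  · intro n x s h
    refine ⟨⟨fun t => ⟨affPt X x s t, ZC3.affPt_mem X x s h t⟩,
      (continuous_affPt X x s).subtype_mk _⟩, fun t => rfl, ?_⟩
    unfold affChain
    rw [dif_pos (ZC3.affPt_mem X x s h)]
  · exact ZC3.part2 h1 h2 X hX hF
  · exact ZC3.part3 h1 h3 X hX hF
  · intro n x s hs t
    exact ZC3.part4 h3 X hX hF n x s hs t
  · intro n x s i p q hi hpq t
    exact ZC3.part5 X n x s i p q hi hpq t

end MP8a95ee.Npc

end

section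

/-!
Item ZC5: the Euler characteristic of the quotient.
-/

set_option autoImplicit false

namespace MP8a95ee.Npc

open Classical

namespace ZC5

theorem cubeSet_act (h4 : S_CU5) {X : SimpleGraph ℕ} (hX : IsMedianGraph X) (hf : LocFin X)
    {g : Equiv.Perm ℕ} (hg : IsAut X g) {x : ℕ} {s : Finset ℕ} (hs : s ∈ link X x) :
    cubeSet X (g x) (s.image g) = (cubeSet X x s).image g := by
  obtain ⟨-, -, -, -, -, h46, -⟩ := h4 X hX hf g hg
  unfold cubeSet
  rw [Finset.powerset_image, Finset.image_image, Finset.image_image]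
  refine Finset.image_congr fun T hT => ?_
  rw [Finset.mem_coe, Finset.mem_powerset] at hT
  exact h46 x T (link_mono hs hT)

theorem cubeSet_corner (h1 : S_CU1) (h3 : S_CU3) {X : SimpleGraph ℕ} (hX : IsMedianGraph X)
    (hf : LocFin X) {x : ℕ} {s : Finset ℕ} (hs : s ∈ link X x) {T : Finset ℕ} (hT : T ⊆ s) :
    cubeSet X (corner X x T) (s.image (rb X x T)) = cubeSet X x s := by
  obtain ⟨-, h32⟩ := h3 X hX hf x s hs T hT
  have hsub : ∀ {A B : Finset ℕ}, A ⊆ s → B ⊆ s → symmDiff A B ⊆ s := by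
    intro A B hA hB a ha
    rw [Finset.mem_symmDiff] at ha
    rcases ha with ha | ha
    · exact hA ha.1
    · exact hB ha.1
  unfold cubeSet
  rw [Finset.powerset_image, Finset.image_image]
  ext y
  simp only [Finset.mem_image, Finset.mem_powerset, Function.comp]
  constructor
  · rintro ⟨U, hU, rfl⟩
    exact ⟨symmDiff T U, hsub hT hU, (h32 U hU).symm⟩
  · rintro ⟨U, hU, rfl⟩
    refine ⟨symmDiff T U, hsub hT hU, ?_⟩
    rw [h32 _ (hsub hT hU), symmDiff_symmDiff_cancel_left]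

theorem mem_iff (h1 : S_CU1) (h2 : S_CU2) {X : SimpleGraph ℕ} (hX : IsMedianGraph X)
    (hf : LocFin X) {x : ℕ} {s : Finset ℕ} (hs : s ∈ link X x) (a : ℕ) :
    a ∈ s ↔ X.Adj x a ∧ a ∈ cubeSet X x s := by
  obtain ⟨h11, h12, -⟩ := h1 X hX hf x s hs
  constructor
  · intro ha
    refine ⟨(mem_nbr hf).1 ((mem_link.1 hs).1 ha), ?_⟩
    unfold cubeSet
    rw [Finset.mem_image]
    exact ⟨{a}, by rw [Finset.mem_powerset, Finset.singleton_subset_iff]; exact ha, h12 a ha⟩
  · rintro ⟨hadj, ha⟩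
    unfold cubeSet at ha
    rw [Finset.mem_image] at ha
    obtain ⟨U, hU, rfl⟩ := ha
    rw [Finset.mem_powerset] at hU
    have h3 := h2 X hX hf x s hs ∅ (Finset.empty_subset _) U hU
    rw [h11] at h3
    have h4 : corner X x U ∈ In X x (corner X x U) := by
      rw [mem_In hf]
      refine ⟨hadj, ?_⟩
      rw [SimpleGraph.dist_self]
      exact (hX.conn.pos_dist_of_ne hadj.ne)
    rw [h3, Finset.mem_image] at h4
    obtain ⟨b, hb, hb'⟩ := h4
    have hbU : b ∈ U := by
      rw [Finset.mem_symmDiff] at hb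
      rcases hb with hb | hb
      · exact absurd hb.1 (Finset.notMem_empty b)
      · exact hb.1
    have h5 : rb X x ∅ b = b := by
      unfold rb
      have h6 : symmDiff (∅ : Finset ℕ) {b} = {b} := by
        ext c
        rw [Finset.mem_symmDiff]
        constructor
        · rintro (h | h)
          · exact absurd h.1 (Finset.notMem_empty c)
          · exact h.1
        · intro h
          exact Or.inr ⟨h, Finset.notMem_empty c⟩
      rw [h6, h12 b (hU hbU)]
    rw [← hb', h5]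
    exact hU hbU

theorem link_eq (h1 : S_CU1) (h2 : S_CU2) {X : SimpleGraph ℕ} (hX : IsMedianGraph X)
    (hf : LocFin X) {x : ℕ} {s t : Finset ℕ} (hs : s ∈ link X x) (ht : t ∈ link X x)
    (h : cubeSet X x s = cubeSet X x t) : s = t := by
  ext a
  rw [mem_iff h1 h2 hX hf hs, mem_iff h1 h2 hX hf ht, h]

theorem self_mem (h1 : S_CU1) {X : SimpleGraph ℕ} (hX : IsMedianGraph X)
    (hf : LocFin X) {x : ℕ} {s : Finset ℕ} (hs : s ∈ link X x) : x ∈ cubeSet X x s := by
  obtain ⟨h11, -⟩ := h1 X hX hf x s hs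
  unfold cubeSet
  rw [Finset.mem_image]
  exact ⟨∅, Finset.empty_mem_powerset s, h11⟩

/-- the class of a cube -/
noncomputable def cl (X : SimpleGraph ℕ) (Γ : Subgroup (Equiv.Perm ℕ)) (p : Σ _ : ℕ, Finset ℕ) :
    ℕ × Quotient (orbS Γ) := (p.2.card, Quotient.mk (orbS Γ) (cubeSet X p.1 p.2))

theorem card_fibre (h1 : S_CU1) (h2 : S_CU2) (h3 : S_CU3) (h4 : S_CU5) (h5 : S_PT3)
    {X : SimpleGraph ℕ} (hX : IsMedianGraph X) (hf : LocFin X) {Γ : Subgroup (Equiv.Perm ℕ)}
    {F : Finset ℕ} (hΓ : IsDeck X Γ F) {x : ℕ} {s : Finset ℕ} (hs : s ∈ link X x) :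
    ((F.sigma fun x => link X x).filter fun p => cl X Γ p = cl X Γ ⟨x, s⟩).card =
      2 ^ s.card := by
  have hex : ∀ y : ℕ, ∃ g : Equiv.Perm ℕ, g ∈ Γ ∧ g y ∈ F := by
    intro y
    obtain ⟨z, ⟨hz, g, hg, hgy⟩, -⟩ := hΓ.rep y
    exact ⟨g, hg, by rw [hgy]; exact hz⟩
  choose k hkΓ hkF using hex
  have haut : ∀ g ∈ Γ, IsAut X g := fun g hg => hΓ.auto g hg
  obtain ⟨-, h52, h53, -⟩ := h5 X hX hf Γ F hΓ
  obtain ⟨-, -, h13, h14, -, -⟩ := h1 X hX hf x s hs
  rw [← Finset.card_powerset]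
  symm
  refine Finset.card_bij (fun T _ => (⟨k (corner X x T) (corner X x T),
    (s.image (rb X x T)).image (k (corner X x T))⟩ : Σ _ : ℕ, Finset ℕ)) ?_ ?_ ?_
  · intro T hT
    rw [Finset.mem_powerset] at hT
    rw [Finset.mem_filter, Finset.mem_sigma]
    have h31 := (h3 X hX hf x s hs T hT).1
    obtain ⟨-, -, -, h44, -⟩ := h4 X hX hf _ (haut _ (hkΓ (corner X x T)))
    refine ⟨⟨hkF _, (h44 _ _).2 h31⟩, ?_⟩
    refine Prod.ext ?_ ?_
    · simp only [cl]
      rw [Finset.card_image_of_injective _ (Equiv.injective _), Finset.card_image_of_injOn]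
      intro a ha b hb hab
      exact h14 T hT a ha b hb hab
    · simp only [cl]
      refine (Quotient.sound ?_).symm
      refine ⟨k (corner X x T), hkΓ _, ?_⟩
      rw [cubeSet_act h4 hX hf (haut _ (hkΓ _)) h31, cubeSet_corner h1 h3 hX hf hs hT]
  · intro T hT T' hT' h
    rw [Finset.mem_powerset] at hT hT'
    rw [Sigma.mk.injEq] at h
    obtain ⟨ha, hb⟩ := h
    rw [heq_eq_eq] at hb
    have e1 := cubeSet_act h4 hX hf (haut _ (hkΓ (corner X x T))) (h3 X hX hf x s hs T hT).1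
    have e2 := cubeSet_act h4 hX hf (haut _ (hkΓ (corner X x T'))) (h3 X hX hf x s hs T' hT').1
    rw [cubeSet_corner h1 h3 hX hf hs hT] at e1
    rw [cubeSet_corner h1 h3 hX hf hs hT', ← ha, ← hb, e1] at e2
    have e3 : (k (corner X x T'))⁻¹ * k (corner X x T) = 1 := by
      refine h53 _ (Γ.mul_mem (Γ.inv_mem (hkΓ _)) (hkΓ _)) x s hs ?_
      have e4 : (cubeSet X x s).image ((k (corner X x T'))⁻¹ * k (corner X x T) :
          Equiv.Perm ℕ) = ((cubeSet X x s).image (k (corner X x T))).image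
            ((k (corner X x T'))⁻¹ : Equiv.Perm ℕ) := by
        rw [Finset.image_image]
        rfl
      rw [e4, e2, Finset.image_image]
      have e5 : ((k (corner X x T'))⁻¹ : Equiv.Perm ℕ) ∘ (k (corner X x T')) = id := by
        funext z
        simp
      rw [e5, Finset.image_id]
    have e6 : k (corner X x T) = k (corner X x T') := by
      rw [inv_mul_eq_one] at e3
      exact e3.symm
    rw [e6] at ha
    exact h13 T hT T' hT' ((k (corner X x T')).injective ha)
  · rintro ⟨y, t⟩ hy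
    rw [Finset.mem_filter, Finset.mem_sigma] at hy
    obtain ⟨⟨hyF, ht⟩, h⟩ := hy
    simp only at hyF ht
    have h6 := (Prod.ext_iff.1 h).2
    simp only [cl] at h6
    obtain ⟨g, hg, h7⟩ := Quotient.exact h6
    have h8 : g y ∈ cubeSet X x s := by
      rw [h7]
      exact Finset.mem_image_of_mem g (self_mem h1 hX hf ht)
    have h8' := h8
    unfold cubeSet at h8'
    rw [Finset.mem_image] at h8'
    obtain ⟨T, hT, hTy⟩ := h8'
    have hT' := Finset.mem_powerset.1 hT
    refine ⟨T, hT, ?_⟩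
    have h9 : k (corner X x T) (corner X x T) = y := by
      obtain ⟨z, -, hz⟩ := hΓ.rep y
      have e1 := hz y ⟨hyF, 1, Γ.one_mem, rfl⟩
      have e2 := hz (k (corner X x T) (corner X x T)) ⟨hkF _, k (corner X x T) * g,
        Γ.mul_mem (hkΓ _) hg, by rw [Equiv.Perm.mul_apply, ← hTy]⟩
      rw [e2, ← e1]
    have h10 : k (corner X x T) * g = 1 := by
      refine h52 _ (Γ.mul_mem (hkΓ _) hg) y ?_
      rw [Equiv.Perm.mul_apply, ← hTy, h9]
    have h11 : (t.image g) ∈ link X (corner X x T) := by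
      obtain ⟨-, -, -, h44, -⟩ := h4 X hX hf _ (haut g hg)
      rw [hTy]
      exact (h44 _ _).2 ht
    have h12 : t.image g = s.image (rb X x T) := by
      refine link_eq h1 h2 hX hf h11 (h3 X hX hf x s hs T hT').1 ?_
      rw [cubeSet_corner h1 h3 hX hf hs hT', h7, hTy, cubeSet_act h4 hX hf (haut g hg) ht]
    rw [Sigma.mk.injEq, heq_eq_eq]
    refine ⟨h9, ?_⟩
    rw [← h12, Finset.image_image]
    have e5 : (k (corner X x T) : Equiv.Perm ℕ) ∘ g = id := by
      funext z
      have := congrArg (fun e : Equiv.Perm ℕ => e z) h10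
      simpa using this
    rw [e5, Finset.image_id]

end ZC5

/-- ZC5: the Euler characteristic -/
theorem prfZC5 (h1 : S_CU1) (h2 : S_CU2) (h3 : S_CU3) (h4 : S_CU5) (h5 : S_PT3) : S_ZC5 := by
  intro X hX hf Γ F hΓ
  have h6 : ∑ x ∈ F, ∑ s ∈ link X x, (-1 / 2 : ℚ) ^ s.card =
      ∑ p ∈ F.sigma fun x => link X x, (-1 / 2 : ℚ) ^ p.2.card :=
    (Finset.sum_sigma F (fun x => link X x)
      (fun p : Σ _ : ℕ, Finset ℕ => (-1 / 2 : ℚ) ^ p.2.card)).symm
  rw [h6]
  have h7 := Finset.sum_comp (s := F.sigma fun x => link X x)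
    (fun c : ℕ × Quotient (orbS Γ) => (-1 / 2 : ℚ) ^ c.1) (ZC5.cl X Γ)
  have h8 : ∑ p ∈ F.sigma fun x => link X x, (-1 / 2 : ℚ) ^ p.2.card =
      ∑ p ∈ F.sigma fun x => link X x, (-1 / 2 : ℚ) ^ (ZC5.cl X Γ p).1 := rfl
  rw [h8, h7]
  unfold eulerChar
  push_cast
  refine Finset.sum_congr rfl fun c hc => ?_
  obtain ⟨⟨x, s⟩, hp, rfl⟩ := Finset.mem_image.1 hc
  rw [Finset.mem_sigma] at hp
  have h9 := ZC5.card_fibre h1 h2 h3 h4 h5 hX hf hΓ hp.2
  simp only [ZC5.cl] at h9 ⊢
  rw [h9, nsmul_eq_mul]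
  push_cast
  rw [← mul_pow]
  norm_num

end MP8a95ee.Npc

end

section

/-!
# ZC6: links are flag complexes with orientations
-/

set_option autoImplicit false

namespace MP8a95ee.Npc

open Classical

namespace ZC6

theorem square_comm {X : SimpleGraph ℕ} {x a b : ℕ} (h : Square X x a b) : Square X x b a := by
  obtain ⟨y, h1, h2, h3⟩ := h
  exact ⟨y, h1, h3, h2⟩

theorem pair_mem {X : SimpleGraph ℕ} (hf : LocFin X) {x a b : ℕ} :
    ({a, b} : Finset ℕ) ∈ link X x ↔ X.Adj x a ∧ X.Adj x b ∧ (a ≠ b → Square X x a b) := by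
  rw [mem_link]
  constructor
  · rintro ⟨h1, h2⟩
    refine ⟨(mem_nbr hf).1 (h1 (by simp)), (mem_nbr hf).1 (h1 (by simp)), fun hab => ?_⟩
    exact h2 a (by simp) b (by simp) hab
  · rintro ⟨h1, h2, h3⟩
    constructor
    · intro c hc
      rw [Finset.mem_insert, Finset.mem_singleton] at hc
      rcases hc with rfl | rfl
      · exact (mem_nbr hf).2 h1
      · exact (mem_nbr hf).2 h2
    · intro c hc d hd hcd
      rw [Finset.mem_insert, Finset.mem_singleton] at hc hd
      rcases hc with rfl | rfl <;> rcases hd with rfl | rfl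
      · exact absurd rfl hcd
      · exact h3 hcd
      · exact square_comm (h3 hcd.symm)
      · exact absurd rfl hcd

theorem verts_link (X : SimpleGraph ℕ) (x : ℕ) :
    verts (link X x) = nbr X x := by
  ext a
  unfold verts
  rw [Finset.mem_biUnion]
  constructor
  · rintro ⟨s, hs, ha⟩
    exact (mem_link.1 hs).1 ha
  · intro ha
    refine ⟨{a}, ?_, by simp⟩
    rw [mem_link]
    refine ⟨by simpa using ha, fun c hc d hd hcd => ?_⟩
    rw [Finset.mem_singleton] at hc hd
    exact absurd (hc.trans hd.symm) hcd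

end ZC6

theorem prfZC6 : S_ZC6 := by
  intro X _ hf
  constructor
  · intro x
    refine ⟨?_, ZC6.verts_link X x, ?_⟩
    · intro s
      constructor
      · intro hs a ha b hb
        refine link_mono hs fun c hc => ?_
        rw [Finset.mem_insert, Finset.mem_singleton] at hc
        rcases hc with rfl | rfl
        · exact ha
        · exact hb
      · intro h
        rw [mem_link]
        refine ⟨fun a ha => (mem_nbr hf).2 ((ZC6.pair_mem hf).1 (h a ha a ha)).1, ?_⟩
        intro a ha b hb hab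
        exact ((ZC6.pair_mem hf).1 (h a ha b hb)).2.2 hab
    · intro a b
      unfold RA.Adj
      rw [ZC6.pair_mem hf]
      constructor
      · rintro ⟨h1, h2, h3, h4⟩
        exact ⟨h1, h2, h3, h4 h1⟩
      · rintro ⟨h1, h2, h3, h4⟩
        exact ⟨h1, h2, h3, fun _ => h4⟩
  · intro Γ n o ho x
    refine ⟨ho.alt x, ho.supp x, ho.full x, fun s i => ?_⟩
    rw [ZC6.verts_link X x]
    exact ho.cycle x s i

end MP8a95ee.Npc

end

section

/-!
Assembly for special cube complexes.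
-/

set_option autoImplicit false

namespace MP8a95ee.Sp

open scoped Classical

noncomputable section

namespace Cx

/-! ### curvature -/

/-- the Euler characteristic of the real moment-angle complex of the link vanishes iff the
curvature vanishes -/
theorem kappa_of_euler (L : Finset (Finset ℕ)) (h : MP8a95ee.eulerChar L = 0) :
    ∑ σ ∈ L, (-1 / 2 : ℚ) ^ σ.card = 0 := by
  have h1 : ∀ σ ∈ L, (((-1) ^ σ.card * 2 ^ ((verts L).card - σ.card) : ℤ) : ℚ) =
      2 ^ (verts L).card * (-1 / 2 : ℚ) ^ σ.card := by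
    intro σ hσ
    have hle : σ.card ≤ (verts L).card := Finset.card_le_card fun a ha => by
      unfold verts
      exact Finset.mem_biUnion.2 ⟨σ, hσ, ha⟩
    obtain ⟨d, hd⟩ := Nat.exists_eq_add_of_le hle
    rw [hd]
    push_cast
    rw [Nat.add_sub_cancel_left, pow_add, div_pow]
    field_simp
  have h2 : ((MP8a95ee.eulerChar L : ℤ) : ℚ) = 0 := by rw [h]; rfl
  unfold MP8a95ee.eulerChar at h2
  rw [Int.cast_sum, Finset.sum_congr rfl h1, ← Finset.mul_sum] at h2
  exact (mul_eq_zero.1 h2).resolve_left (by positivity)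

section

variable {k : ℕ} {X : Type} [Fintype X] {C : Cx (Fin k) X}

omit [Fintype X] in
theorem sum_link (x : X) (φ : ℕ → ℚ) :
    ∑ σ ∈ C.link x, φ σ.card = ∑ s ∈ Finset.univ.filter fun s => C.IsCube x s, φ s.card := by
  unfold link
  rw [Finset.sum_image fun a _ b _ hab => Finset.map_injective _ hab]
  refine Finset.sum_congr rfl fun s _ => ?_
  rw [Finset.card_map]

theorem eulerChar_eq_sum_link (hE : C.Embedded) :
    (C.eulerChar : ℚ) = ∑ x, ∑ σ ∈ C.link x, (-1 / 2 : ℚ) ^ σ.card := by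
  rw [C.eulerChar_eq hE]
  refine Finset.sum_congr rfl fun x _ => ?_
  exact (sum_link x fun j => (-1 / 2 : ℚ) ^ j).symm

/-- the norm bound -/
theorem bound_of_not_bounds (hE : C.Embedded) {m : ℕ}
    {o : X → (Fin (m + 1) → Fin k) → ℤ} (ho : C.Oriented (m + 1) o) (x : X)
    (hnb : ¬ RA.Bounds (C.link x) (oN (o x)) (RA.KG (C.link x) fun _ => True)) :
    ∃ c : ℝ, 0 < c ∧ ∀ (Y : Type) [TopologicalSpace Y] (f : C(Y, C.space)) (lam : ℝ)
      (z : SChain Y (m + 1)) (w : SChain C.space (m + 2)),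
      push f z = lam • C.fundCycle o + bd w → c * |lam| ≤ l1 z := by
  -- a function which detects ζ
  obtain ⟨f, hfK, hfz⟩ : ∃ f : (Fin (m + 1) → Finset ℕ) → ℝ,
      (∀ T : Fin (m + 2) → Finset ℕ, RA.KG (C.link x) (fun _ => True) T → RA.dl f T = 0) ∧
      Finsupp.linearCombination ℝ f (RA.zeta (C.link x) (oN (o x))) ≠ 0 := by
    by_contra hcon
    push Not at hcon
    exact hnb (RA.P13.duality (C.link x) m (oN (o x)) hcon)
  set g : (Fin (m + 1) → Finset (Fin k)) → ℝ := fun T => f fun i => em (T i) with hg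
  set F : X → (Fin (m + 1) → Finset (Fin k)) → ℝ := fun y => if y = x then g else 0 with hF
  have hFx : F x = g := by rw [hF]; simp
  have hFy : ∀ y, y ≠ x → F y = 0 := by
    intro y hy
    rw [hF]
    simp [hy]
  have hAdm : C.Adm F := by
    intro y T h1 h2 h3
    by_cases hy : y = x
    · subst hy
      rw [hFx, hg, dl_em]
      exact hfK _ (kg_of T h1 h2 h3)
    · rw [hFy y hy]
      simp [PartOne.dl]
  obtain ⟨c, B, hB0, hB, hcc, hval⟩ := exists_cochain hE ho.isOrient hAdm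
  set A : ℝ := 2 * (-1) ^ m * Finsupp.linearCombination ℝ f (RA.zeta (C.link x) (oN (o x))) with hA
  have hA0 : A ≠ 0 := mul_ne_zero (mul_ne_zero two_ne_zero (pow_ne_zero _ (by norm_num))) hfz
  have hev : E.ev c (C.fundCycle o) = A := by
    rw [← B3.ev_eq]
    refine hval.trans ?_
    rw [hA]
    congr 1
    rw [Finset.sum_eq_single x]
    · rw [hFx, ← zv_eq ho x f]
      congr
    · intro y _ hy
      rw [hFy y hy]
      simp [PartOne.zv]
    · intro h
      exact absurd (Finset.mem_univ x) h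
  have hApos : 0 < |A| := abs_pos.2 hA0
  refine ⟨|A| / (B + 1), by positivity, ?_⟩
  intro Y _ g' lam z w h
  have hbd : E.ev c (bd w) = 0 := by
    have := B3.ev_bd c hcc w
    rw [B3.ev_eq] at this
    exact this
  have hz : E.ev (fun σ => c (g'.comp σ)) z = lam * A := by
    rw [← MP8a95ee.F.ev_push, h, map_add, map_smul, hev, hbd, add_zero, smul_eq_mul]
  have hle := B3.ev_le (fun σ => c (g'.comp σ)) (B + 1) (fun σ => by
    have := hB (g'.comp σ)
    linarith) z
  rw [B3.ev_eq] at hle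
  have hle' : |lam * A| ≤ (B + 1) * l1 z := by
    rw [← hz]; exact hle
  rw [abs_mul] at hle'
  rw [div_mul_eq_mul_div, div_le_iff₀ (by positivity)]
  linarith

end

/-- the main theorem for special cube complexes, given the algebraic part -/
theorem final (hA : RA.S_A6) (h9 : RA.S_B9) (h10 : RA.S_B10) (h11 : RA.S_B11)
    {k m : ℕ} {X : Type} [Fintype X] (C : Cx (Fin k) X) (hE : C.Embedded)
    (hS : ∀ x, RA.IsHSphere (C.link x) (m + 1)) (o : X → (Fin (m + 1) → Fin k) → ℤ)
    (ho : C.Oriented (m + 1) o) :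
    bd (C.fundCycle o) = 0 ∧
    (C.eulerChar : ℚ) = ∑ x, ∑ σ ∈ C.link x, (-1 / 2 : ℚ) ^ σ.card ∧
    ((∀ ε : ℝ, 0 < ε → ∃ b : SChain C.space (m + 2), l1 (C.fundCycle o + bd b) < ε) →
      (∀ x, ∑ σ ∈ C.link x, (-1 / 2 : ℚ) ^ σ.card = 0) ∧ C.eulerChar = 0) ∧
    ((∃ x, ∑ σ ∈ C.link x, (-1 / 2 : ℚ) ^ σ.card ≠ 0) →
      ∃ c : ℝ, 0 < c ∧ ∀ (Y : Type) [TopologicalSpace Y] (f : C(Y, C.space)) (lam : ℝ)
        (z : SChain Y (m + 1)) (w : SChain C.space (m + 2)),
        push f z = lam • C.fundCycle o + bd w → c * |lam| ≤ l1 z) := by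
  have hkappa : ∀ x, RA.Bounds (C.link x) (oN (o x)) (RA.KG (C.link x) fun _ => True) →
      ∑ σ ∈ C.link x, (-1 / 2 : ℚ) ^ σ.card = 0 := fun x hb =>
    kappa_of_euler _ (RA.Fin1.euler_of_bounds hA h9 h10 h11 (C.link x) (C.flag_link x) m (hS x)
      (oN (o x)) (ho.isOrient_link x) hb)
  refine ⟨bd_zchain ho.isOrient, eulerChar_eq_sum_link hE, fun hvol => ?_, ?_⟩
  · have h1 : ∀ x, ∑ σ ∈ C.link x, (-1 / 2 : ℚ) ^ σ.card = 0 := fun x =>
      hkappa x (bounds hE ho hvol x)
    refine ⟨h1, ?_⟩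
    have h2 := eulerChar_eq_sum_link hE
    rw [Finset.sum_eq_zero fun x _ => h1 x] at h2
    exact_mod_cast h2
  · rintro ⟨x, hx⟩
    exact bound_of_not_bounds hE ho x fun hb => hx (hkappa x hb)

end Cx

end

end MP8a95ee.Sp

end

section

/-!
# CO: the bounded cocycle
-/

set_option autoImplicit false

namespace MP8a95ee.Npc

open Classical

namespace CO

variable {X : SimpleGraph ℕ}

/-- the vertices with tuple not in `KF` -/
def bad (X : SimpleGraph ℕ) {k : ℕ} (v : Fin (k + 1) → ℕ) : Set ℕ :=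
  {z | ¬ KF (link X z) fun l => In X z (v l)}

theorem bad_finite {k B : ℕ} (hB : ∀ (v : Fin (k + 1) → ℕ) (Z : Finset ℕ),
    (∀ z ∈ Z, ¬ KF (link X z) fun l => In X z (v l)) → Z.card ≤ B) (v : Fin (k + 1) → ℕ) :
    (bad X v).Finite := by
  by_contra hinf
  obtain ⟨t, ht, hc⟩ := Set.Infinite.exists_subset_card_eq hinf (B + 1)
  have h1 := hB v t (fun z hz => ht (Finset.mem_coe.2 hz))
  omega

theorem ct_eq {k : ℕ} {f : ℕ → (Fin k → Finset ℕ) → ℝ}
    (hK : ∀ z, ∀ T : Fin (k + 1) → Finset ℕ, KF (link X z) T → RA.dl (f z) T = 0)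
    {v : Fin (k + 1) → ℕ} {Z : Finset ℕ} (hZ : bad X v ⊆ ↑Z) :
    ct X f v = ∑ z ∈ Z, RA.dl (f z) (fun i => In X z (v i)) := by
  unfold ct
  refine finsum_eq_sum_of_support_subset _ ?_
  intro z hz
  apply hZ
  intro hk
  exact hz (hK z _ hk)

theorem dl_le {k : ℕ} {f : (Fin k → Finset ℕ) → ℝ} {C : ℝ} (hC : ∀ T, |f T| ≤ C)
    (T : Fin (k + 1) → Finset ℕ) : |RA.dl f T| ≤ (k + 1) * C := by
  unfold RA.dl
  refine (Finset.abs_sum_le_sum_abs _ _).trans ?_
  have h1 : ∀ i ∈ (Finset.univ : Finset (Fin (k + 1))),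
      |((-1 : ℝ) ^ (i : ℕ)) • f fun j => T (i.succAbove j)| ≤ C := by
    intro i _
    rw [smul_eq_mul, abs_mul, abs_pow, abs_neg, abs_one, one_pow, one_mul]
    exact hC _
  refine (Finset.sum_le_sum h1).trans ?_
  rw [Finset.sum_const, Finset.card_univ, Fintype.card_fin, nsmul_eq_mul]
  push_cast
  exact le_refl _

end CO

open CO in
theorem prfCO (h2 : S_CU5) (h3 : S_DEG) (h4 : S_BD) : S_CO := by
  intro X hX hf Γ F hD m f hE hK C hC
  obtain ⟨N, hN⟩ := h3 X hX hf Γ F hD
  obtain ⟨B, hB⟩ := h4 X hX hf N (m + 1) hN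
  have hC0 : 0 ≤ C := (abs_nonneg _).trans (hC 0 (fun _ => ∅))
  refine ⟨fun z T hT hI => hK z T ⟨hT, Or.inl hI⟩, ⟨B * ((m + 1 : ℕ) + 1) * C, ?_⟩, ?_, ?_⟩
  · intro v
    have hfin := bad_finite hB v
    rw [ct_eq hK (Z := hfin.toFinset) (by rw [Set.Finite.coe_toFinset])]
    refine (Finset.abs_sum_le_sum_abs _ _).trans ?_
    refine (Finset.sum_le_sum (fun z _ => dl_le (hC z) _)).trans ?_
    rw [Finset.sum_const, nsmul_eq_mul]
    have hcard : hfin.toFinset.card ≤ B := hB v _ (fun z hz => (Set.Finite.mem_toFinset _).1 hz)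
    have hcard' : (hfin.toFinset.card : ℝ) ≤ B := by exact_mod_cast hcard
    rw [mul_assoc]
    have h0 : 0 ≤ ((((m + 1 : ℕ) : ℝ) + 1) * C) := by positivity
    exact mul_le_mul_of_nonneg_right hcard' h0
  · intro g hg v
    have hA : IsAut X g := hD.auto g hg
    have h5 := (h2 X hX hf g hA).2.2.2.2.1
    unfold ct
    rw [← finsum_comp_equiv g]
    apply finsum_congr
    intro z
    have e1 : (fun i => In X (g z) (g (v i))) = fun i => (In X z (v i)).image g := by
      funext i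
      exact h5 z (v i)
    rw [e1]
    unfold RA.dl
    refine Finset.sum_congr rfl (fun i _ => ?_)
    rw [hE g hg z (fun j => In X z (v (i.succAbove j)))]
  · intro v
    have hfin : ∀ i : Fin (m + 3), (bad X (fun k : Fin (m + 2) => v (i.succAbove k))).Finite :=
      fun i => bad_finite hB _
    set Z : Finset ℕ := Finset.univ.biUnion (fun i : Fin (m + 3) => (hfin i).toFinset) with hZ
    have hsub : ∀ i : Fin (m + 3), bad X (fun k : Fin (m + 2) => v (i.succAbove k)) ⊆ ↑Z := by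
      intro i z hz
      rw [Finset.mem_coe, hZ, Finset.mem_biUnion]
      exact ⟨i, Finset.mem_univ _, (Set.Finite.mem_toFinset _).2 hz⟩
    have e1 : ∀ i : Fin (m + 3), ct X f (fun k => v (i.succAbove k)) =
        ∑ z ∈ Z, RA.dl (f z) (fun k => In X z (v (i.succAbove k))) :=
      fun i => ct_eq hK (hsub i)
    simp only [e1, Finset.mul_sum]
    rw [Finset.sum_comm]
    refine Finset.sum_eq_zero (fun z _ => ?_)
    have h6 := RA.P9_dl_dl (f z) (fun i : Fin (m + 3) => In X z (v i))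
    unfold RA.dl at h6 ⊢
    simp only [smul_eq_mul] at h6 ⊢
    exact h6

end MP8a95ee.Npc

end
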