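import Pool.Agent.Work.MP_8a95ee_gt.Npc.Stmts2
import Pool.Agent.Work.MP_8a95ee_gt.Npc.Stmts3
import Pool.Agent.Work.MP_8a95ee_gt.Bd.B05

/-! Bundle of small proof modules (one section per former module). -/

section

/-!
# Nonpositively curved cubulations: DEG (the degrees are bounded)
-/

set_option autoImplicit false

namespace MP8a95ee.Npc

open Classical

theorem prfDEG : S_DEG := by
  intro X hX hf Γ F hD
  refine ⟨∑ y ∈ F, (nbr X y).card, ?_⟩
  intro x
  obtain ⟨y, ⟨hyF, g, hg, hgx⟩, -⟩ := hD.rep x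
  have himg : (nbr X x).image g = nbr X y := by
    ext a
    rw [Finset.mem_image, mem_nbr hf]
    constructor
    · rintro ⟨b, hb, rfl⟩
      rw [← hgx]
      exact (hD.auto g hg x b).2 ((mem_nbr hf).1 hb)
    · intro ha
      refine ⟨g.symm a, (mem_nbr hf).2 ?_, g.apply_symm_apply a⟩
      rw [← hD.auto g hg, hgx, g.apply_symm_apply]
      exact ha
  have hcard : (nbr X x).card = (nbr X y).card := by
    rw [← himg, Finset.card_image_of_injective _ g.injective]
  rw [hcard]
  exact Finset.single_le_sum (f := fun y => (nbr X y).card) (fun i _ => Nat.zero_le _) hyF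

end MP8a95ee.Npc

end

section

/-!
# Item DU: duality
-/

set_option autoImplicit false

namespace MP8a95ee.Npc

open Classical RA

theorem prfDU : S_DU := by
  intro L m o A h
  by_contra hcon
  set U : Submodule ℝ (Ch (Finset ℕ) (m + 1)) :=
    (Finsupp.supported ℝ ℝ {T : Fin (m + 2) → Finset ℕ | A T}).map bdT with hU
  have hz : zeta L o ∉ U := by
    rintro ⟨b, hb, hbz⟩
    exact hcon ⟨b, fun T hT => hb hT, hbz⟩
  obtain ⟨φ, hφ, hφU⟩ := Submodule.exists_le_ker_of_notMem hz
  set f : (Fin (m + 1) → Finset ℕ) → ℝ := fun T => φ (Finsupp.single T 1) with hf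
  have hφf : ∀ c, φ c = Finsupp.linearCombination ℝ f c := by
    intro c
    rw [Finsupp.linearCombination_apply]
    conv_lhs => rw [← Finsupp.sum_single c]
    rw [map_finsuppSum]
    refine Finsupp.sum_congr fun T _ => ?_
    rw [hf, smul_eq_mul, ← smul_eq_mul, ← map_smul, Finsupp.smul_single, smul_eq_mul, mul_one]
  apply hφ
  rw [hφf]
  apply h
  intro T hT
  have h1 : bdT (Finsupp.single T (1 : ℝ)) ∈ U := by
    refine Submodule.mem_map_of_mem ?_
    rw [Finsupp.mem_supported]
    intro T' hT'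
    have := Finsupp.support_single_subset hT'
    rw [Finset.mem_singleton] at this
    rw [this]
    exact hT
  have h2 := hφU h1
  rw [LinearMap.mem_ker, hφf] at h2
  have h3 : bdT (Finsupp.single T (1 : ℝ)) = bdT0 T := by
    rw [bdT, Finsupp.linearCombination_single, one_smul]
  rw [h3, bdT0, map_sum] at h2
  simp only [Finsupp.linearCombination_single] at h2
  exact h2

end MP8a95ee.Npc

end

section

/-!
# Nonpositively curved cubulations: no index is increasing and decreasing
-/

set_option autoImplicit false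

namespace MP8a95ee.Npc

namespace HA

theorem Cross_symm {X : SimpleGraph ℕ} (D : WS X) {h h' : D.H} (c : D.Cross h h') :
    D.Cross h' h := by
  unfold WS.Cross at *
  obtain ⟨⟨a, a1, a2⟩, ⟨b, b1, b2⟩, ⟨c, c1, c2⟩, ⟨d, d1, d2⟩⟩ := c
  exact ⟨⟨a, a2, a1⟩, ⟨c, c2, c1⟩, ⟨b, b2, b1⟩, ⟨d, d2, d1⟩⟩

/-- in a long homogeneous sequence the walls with the same index do not cross -/
theorem not_cross (h4 : S_WA4) {X : SimpleGraph ℕ} (hX : IsMedianGraph X) (hf : LocFin X)
    (D : WS X) {N M k : ℕ} (hN : ∀ z, (nbr X z).card ≤ N) (hM : N + 3 ≤ M) {v : Fin (k + 1) → ℕ}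
    {x : Fin M → ℕ} {e : ℕ → Fin N → ℕ} (H : Hom D N M k v x e) {i : Fin N}
    (hi : ∀ p, X.Adj (x p) (e (x p) i)) {p q : Fin M} (hpq : p < q) :
    ¬ D.Cross (D.wall (x p) (e (x p) i)) (D.wall (x q) (e (x q) i)) := by
  intro hc
  have hlt : ∀ p' q' : Fin M, p' < q' →
      D.Cross (D.wall (x p') (e (x p') i)) (D.wall (x q') (e (x q') i)) := fun p' q' h =>
    H.cr p q p' q' i hpq h (hi p) hc
  refine h4 X hX hf D N hN (fun j => D.wall (x ⟨j.1, by omega⟩) (e (x ⟨j.1, by omega⟩) i)) ?_
  intro a b hab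
  rcases lt_trichotomy a b with h | h | h
  · exact hlt _ _ (by simpa using h)
  · exact absurd h hab
  · exact Cross_symm D (hlt _ _ (by simpa using h))

end HA

open HA in
theorem prfHA (h1 : S_WA2) (h2 : S_WA4) : S_HA := by
  intro X hX hf D N M k hN hM v x e H hK i hi hU hD
  have l01 : (⟨0, by omega⟩ : Fin M) < ⟨1, by omega⟩ := by simp
  have l02 : (⟨0, by omega⟩ : Fin M) < ⟨2, by omega⟩ := by simp
  have l12 : (⟨1, by omega⟩ : Fin M) < ⟨2, by omega⟩ := by simp
  generalize (⟨0, by omega⟩ : Fin M) = a at *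
  generalize (⟨1, by omega⟩ : Fin M) = b at *
  generalize (⟨2, by omega⟩ : Fin M) = c at *
  have hnc := not_cross h2 hX hf D hN hM H hi l01
  have u1 := hU a b l01
  have u2 := hU a c l02
  have u3 := hU b c l12
  have d1 := hD a b l01
  -- a vertex `v l` which is not separated
  have hl : ∃ l, ¬ D.Sep (D.wall (x a) (e (x a) i)) (x a) (v l) := by
    by_contra hcon
    push Not at hcon
    refine hK a ⟨e (x a) i, fun l => ?_⟩
    rw [mem_In hf]
    exact ⟨hi a, ((h1 X hX D).1 (x a) (e (x a) i) (v l) (hi a)).2 (hcon l)⟩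
  obtain ⟨l, hl⟩ := hl
  have hl' : ¬ D.Sep (D.wall (x b) (e (x b) i)) (x b) (v l) := fun h =>
    hl (H.spl b a i l (hi b) h)
  generalize D.wall (x a) (e (x a) i) = w0 at *
  generalize D.wall (x b) (e (x b) i) = w1 at *
  refine hnc ((D.Cross_iff (x c)).2 ⟨⟨x c, D.Sep_self, D.Sep_self⟩, ⟨x b, ?_, ?_⟩, ⟨x a, ?_, ?_⟩,
    v l, ?_, ?_⟩)
  all_goals
    unfold WS.Sep at *
    tauto

end MP8a95ee.Npc

end

section

/-!
# Nonpositively curved cubulations: the other relevant walls are constant
-/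

set_option autoImplicit false

namespace MP8a95ee.Npc

namespace HB

theorem Cross_symm {X : SimpleGraph ℕ} (D : WS X) {h h' : D.H} (c : D.Cross h h') :
    D.Cross h' h := by
  unfold WS.Cross at *
  obtain ⟨⟨a, a1, a2⟩, ⟨b, b1, b2⟩, ⟨c, c1, c2⟩, ⟨d, d1, d2⟩⟩ := c
  exact ⟨⟨a, a2, a1⟩, ⟨c, c2, c1⟩, ⟨b, b2, b1⟩, ⟨d, d2, d1⟩⟩

/-- in a long homogeneous sequence the walls with the same index do not cross -/
theorem not_cross (h4 : S_WA4) {X : SimpleGraph ℕ} (hX : IsMedianGraph X) (hf : LocFin X)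
    (D : WS X) {N M k : ℕ} (hN : ∀ z, (nbr X z).card ≤ N) (hM : N + 3 ≤ M) {v : Fin (k + 1) → ℕ}
    {x : Fin M → ℕ} {e : ℕ → Fin N → ℕ} (H : Hom D N M k v x e) {i : Fin N}
    (hi : ∀ p, X.Adj (x p) (e (x p) i)) {p q : Fin M} (hpq : p < q) :
    ¬ D.Cross (D.wall (x p) (e (x p) i)) (D.wall (x q) (e (x q) i)) := by
  intro hc
  have hlt : ∀ p' q' : Fin M, p' < q' →
      D.Cross (D.wall (x p') (e (x p') i)) (D.wall (x q') (e (x q') i)) := fun p' q' h =>
    H.cr p q p' q' i hpq h (hi p) hc
  refine h4 X hX hf D N hN (fun j => D.wall (x ⟨j.1, by omega⟩) (e (x ⟨j.1, by omega⟩) i)) ?_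
  intro a b hab
  rcases lt_trichotomy a b with h | h | h
  · exact hlt _ _ (by simpa using h)
  · exact absurd h hab
  · exact Cross_symm D (hlt _ _ (by simpa using h))

end HB

open HB in
theorem prfHB (h1 : S_WA4) : S_HB := by
  intro X hX hf D N M k hN hM v x e H i hi hU hD hs p q
  -- no wall separates two vertices of the sequence
  have nu : ∀ p q, p < q → ¬ D.Sep (D.wall (x p) (e (x p) i)) (x p) (x q) := fun p q h hh =>
    hU fun p' q' h' => H.up p q p' q' i h h' (hi p) hh
  have nd : ∀ p q, p < q → ¬ D.Sep (D.wall (x q) (e (x q) i)) (x p) (x q) := fun p q h hh =>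
    hD fun p' q' h' => H.dn p q p' q' i h h' (hi p) hh
  obtain ⟨p1, l, hs⟩ := hs
  have hl : ∀ q, D.Sep (D.wall (x q) (e (x q) i)) (x q) (v l) := fun q =>
    H.spl p1 q i l (hi p1) hs
  have main : ∀ a b : Fin M, a < b →
      D.wall (x a) (e (x a) i) = D.wall (x b) (e (x b) i) := by
    intro a b hab
    by_contra hne
    have hnc := not_cross h1 hX hf D hN hM H hi hab
    have u := nu a b hab
    have d := nd a b hab
    have la := hl a
    have lb := hl b
    refine hnc ((D.Cross_iff (x a)).2 ⟨⟨x a, D.Sep_self, D.Sep_self⟩, ⟨e (x b) i, ?_, ?_⟩,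
      ⟨e (x a) i, ?_, ?_⟩, v l, la, ?_⟩)
    · intro hh
      apply hne
      apply (D.Sep_step (hi b)).1
      unfold WS.Sep at *
      tauto
    · have := (D.Sep_step (hi b) (h := D.wall (x b) (e (x b) i))).2 rfl
      unfold WS.Sep at *
      tauto
    · exact (D.Sep_step (hi a)).2 rfl
    · intro hh
      exact hne ((D.Sep_step (hi a)).1 hh).symm
    · unfold WS.Sep at *
      tauto
  rcases lt_trichotomy p q with h | h | h
  · exact main _ _ h
  · rw [h]
  · exact (main _ _ h).symm

end MP8a95ee.Npc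

end

section

/-!
# Nonpositively curved cubulations: the constant walls are adjacent to the others
-/

set_option autoImplicit false

namespace MP8a95ee.Npc

theorem prfHC (h2 : S_WA3) (h3 : S_WA5) : S_HC := by
  intro X hX hf D N M k v x e H i c hi hc hU hD heq hor p0 p p1 h0 h1
  have nu : ∀ p q, p < q → ¬ D.Sep (D.wall (x p) (e (x p) i)) (x p) (x q) := fun p q h hh =>
    hU fun p' q' h' => H.up p q p' q' i h h' (hi p) hh
  have nic : e (x p) i ≠ e (x p) c := by
    intro h
    have hic := H.inj (x p) i c (hi p) h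
    subst hic
    rcases hor with h | h
    · exact hU h
    · exact hD h
  refine ((h2 X hX D (x p) (e (x p) i) (e (x p) c) (hi p) (hc p) nic).2.1).2 ?_
  rcases hor with h | h
  · exact h3 X hX D (x p) (e (x p) i) (x p1) (e (x p1) i) _ (hi p) (hi p1) (heq p p1)
      (nu p p1 h1) (h p p1 h1)
  · have hn : ¬ D.Sep (D.wall (x p) (e (x p) i)) (x p) (x p0) := by
      rw [heq p p0, D.Sep_comm]
      exact nu p0 p h0
    exact h3 X hX D (x p) (e (x p) i) (x p0) (e (x p0) i) _ (hi p) (hi p0) (heq p p0)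
      hn (D.Sep_comm.1 (h p0 p h0))

end MP8a95ee.Npc

end

section

/-!
# HD: hitting conditions (helper61)
-/

set_option autoImplicit false

namespace MP8a95ee.Npc

open Classical

theorem prfHD (h1 : S_WA1) : S_HD := by
  intro X hX _ D N M k hM v x e hom i hi
  obtain ⟨o, ho⟩ : ∃ o : Fin M, o = ⟨0, by omega⟩ := ⟨_, rfl⟩
  obtain ⟨r, hr⟩ : ∃ r : Fin M, r = ⟨M - 1, by omega⟩ := ⟨_, rfl⟩
  have hor : o < r := by
    rw [ho, hr, Fin.mk_lt_mk]
    omega
  constructor
  · intro hD
    have h2 : D.Sep (D.wall (x r) (e (x r) i)) (x o) (x r) := hD o r hor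
    obtain ⟨a, ha, hz⟩ := h1 X hX D _ _ _ h2
    obtain ⟨j, rfl⟩ := hom.enum _ _ ha
    have hj : ∀ p, X.Adj (x p) (e (x p) j) := fun p => hom.val o p j ha
    refine ⟨j, hj, fun p q hpq => hom.up o r p q j hor hpq ha (hz _ h2), fun p l => ?_⟩
    by_cases h3 : D.Sep (D.wall (x p) (e (x p) i)) (x p) (v l)
    · exact Or.inr h3
    · left
      have h4 : ¬ D.Sep (D.wall (x r) (e (x r) i)) (x r) (v l) :=
        fun h => h3 (hom.spl r p i l (hi r) h)
      have h5 : D.Sep (D.wall (x r) (e (x r) i)) (x o) (v l) := by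
        rw [D.Sep_trans (y := x r)]
        intro h
        exact h4 (h.1 h2)
      exact hom.spl o p j l ha (hz _ h5)
  · intro hU
    have h2 : D.Sep (D.wall (x o) (e (x o) i)) (x r) (x o) := D.Sep_comm.1 (hU o r hor)
    obtain ⟨a, ha, hz⟩ := h1 X hX D _ _ _ h2
    obtain ⟨j, rfl⟩ := hom.enum _ _ ha
    have hj : ∀ p, X.Adj (x p) (e (x p) j) := fun p => hom.val r p j ha
    refine ⟨j, hj, fun p q hpq => hom.dn o r p q j hor hpq (hj o) (D.Sep_comm.1 (hz _ h2)),
      fun p l => ?_⟩
    by_cases h3 : D.Sep (D.wall (x p) (e (x p) i)) (x p) (v l)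
    · exact Or.inr h3
    · left
      have h4 : ¬ D.Sep (D.wall (x o) (e (x o) i)) (x o) (v l) :=
        fun h => h3 (hom.spl o p i l (hi o) h)
      have h5 : D.Sep (D.wall (x o) (e (x o) i)) (x r) (v l) := by
        rw [D.Sep_trans (y := x o)]
        intro h
        exact h4 (h.1 h2)
      exact hom.spl r p j l ha (hz _ h5)

end MP8a95ee.Npc

end

section

/-!
# Nonpositively curved cubulations: increasing and decreasing walls
-/

set_option autoImplicit false

namespace MP8a95ee.Npc

open Classical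

theorem prfHE (h1 : S_WA1) (h2 : S_WA2) (h3 : S_WA3) : S_HE := by
  intro X hX hf D N M k hM v x e H
  have l0r : (⟨0, by omega⟩ : Fin M) < ⟨1, by omega⟩ := by simp
  generalize (⟨0, by omega⟩ : Fin M) = a at *
  generalize (⟨1, by omega⟩ : Fin M) = b at *
  have hne : x a ≠ x b := H.ne a b (ne_of_lt l0r)
  obtain ⟨h, hh⟩ : ∃ h, D.Sep h (x a) (x b) := by
    by_contra hcon
    push Not at hcon
    exact hne ((h2 X hX D).2.1 _ _ hcon)
  refine ⟨?_, ?_, ?_⟩
  · obtain ⟨y, hy, hy2⟩ := h1 X hX D h (x a) (x b) hh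
    obtain ⟨i, hi⟩ := H.enum (x a) y hy
    subst hi
    refine ⟨i, fun p => H.val a p i hy, fun p q hpq => ?_⟩
    exact H.up a b p q i l0r hpq hy (hy2 (x b) hh)
  · obtain ⟨y, hy, hy2⟩ := h1 X hX D h (x b) (x a) (D.Sep_comm.1 hh)
    obtain ⟨i, hi⟩ := H.enum (x b) y hy
    subst hi
    refine ⟨i, fun p => H.val b p i hy, fun p q hpq => ?_⟩
    exact H.dn a b p q i l0r hpq (H.val b a i hy)
      (D.Sep_comm.1 (hy2 (x a) (D.Sep_comm.1 hh)))
  · intro p0 p p1 hp0 hp1
    constructor
    · rw [mem_link]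
      constructor
      · intro y hy
        simp only [Finset.mem_image, Finset.mem_filter, Finset.mem_univ, true_and] at hy
        obtain ⟨i, ⟨hi, hu⟩, rfl⟩ := hy
        exact (mem_nbr hf).2 hi
      · intro y hy z hz hyz
        simp only [Finset.mem_image, Finset.mem_filter, Finset.mem_univ, true_and] at hy hz
        obtain ⟨i, ⟨hi, hu⟩, rfl⟩ := hy
        obtain ⟨j, ⟨hj, hv⟩, rfl⟩ := hz
        exact ((h3 X hX D (x p) _ _ hi hj hyz).1).2 ⟨x p1, hu p p1 hp1, hv p p1 hp1⟩
    · rw [mem_link]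
      constructor
      · intro y hy
        simp only [Finset.mem_image, Finset.mem_filter, Finset.mem_univ, true_and] at hy
        obtain ⟨i, ⟨hi, hu⟩, rfl⟩ := hy
        exact (mem_nbr hf).2 hi
      · intro y hy z hz hyz
        simp only [Finset.mem_image, Finset.mem_filter, Finset.mem_univ, true_and] at hy hz
        obtain ⟨i, ⟨hi, hu⟩, rfl⟩ := hy
        obtain ⟨j, ⟨hj, hv⟩, rfl⟩ := hz
        exact ((h3 X hX D (x p) _ _ hi hj hyz).1).2
          ⟨x p0, D.Sep_comm.1 (hu p0 p hp0), D.Sep_comm.1 (hv p0 p hp0)⟩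

end MP8a95ee.Npc

end

section

/-!
# HOM: a long homogeneous sequence contains a vertex with tuple in `KF`
-/

set_option autoImplicit false

namespace MP8a95ee.Npc

open Classical

namespace HOM

theorem square_symm {X : SimpleGraph ℕ} {x a b : ℕ} (h : Square X x a b) : Square X x b a := by
  obtain ⟨y, h1, h2, h3⟩ := h
  exact ⟨y, h1, h3, h2⟩

theorem adj_link {X : SimpleGraph ℕ} (hf : LocFin X) {x a b : ℕ} (ha : X.Adj x a)
    (hb : X.Adj x b) (hab : a ≠ b) (hs : Square X x a b) : RA.Adj (link X x) a b := by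
  refine ⟨hab, ?_⟩
  rw [mem_link]
  constructor
  · intro c hc
    rw [Finset.mem_insert, Finset.mem_singleton] at hc
    rw [mem_nbr hf]
    rcases hc with rfl | rfl
    · exact ha
    · exact hb
  · intro c hc d hd hcd
    rw [Finset.mem_insert, Finset.mem_singleton] at hc hd
    rcases hc with rfl | rfl
    · rcases hd with rfl | rfl
      · exact absurd rfl hcd
      · exact hs
    · rcases hd with rfl | rfl
      · exact square_symm hs
      · exact absurd rfl hcd

theorem In_iff {X : SimpleGraph ℕ} (hf : LocFin X) (D : WS X)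
    (h2 : ∀ x a v, X.Adj x a → (X.dist a v < X.dist x v ↔ D.Sep (D.wall x a) x v))
    {x v a : ℕ} : a ∈ In X x v ↔ X.Adj x a ∧ D.Sep (D.wall x a) x v := by
  rw [mem_In hf]
  constructor
  · rintro ⟨h3, h4⟩
    exact ⟨h3, (h2 x a v h3).1 h4⟩
  · rintro ⟨h3, h4⟩
    exact ⟨h3, (h2 x a v h3).2 h4⟩

theorem In_face {X : SimpleGraph ℕ} (hf : LocFin X) (D : WS X)
    (h2 : ∀ x a v, X.Adj x a → (X.dist a v < X.dist x v ↔ D.Sep (D.wall x a) x v))
    (h3 : ∀ x a b, X.Adj x a → X.Adj x b → a ≠ b →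
      (Square X x a b ↔ ∃ v, D.Sep (D.wall x a) x v ∧ D.Sep (D.wall x b) x v))
    (x v : ℕ) : In X x v ∈ link X x := by
  rw [mem_link]
  refine ⟨Finset.filter_subset _ _, ?_⟩
  intro a ha b hb hab
  rw [In_iff hf D h2] at ha hb
  exact (h3 x a b ha.1 hb.1 hab).2 ⟨v, ha.2, hb.2⟩

end HOM

theorem prfHOM (h1 : S_WA1) (h2 : S_WA2) (h3 : S_WA3) (h4 : S_HA) (h5 : S_HB) (h6 : S_HC)
    (h7 : S_HD) (h8 : S_HE) : S_HOM := by
  intro X hX hf D N M k hN hM v x e H
  have h2a := (h2 X hX D).1
  have h2b := (h2 X hX D).2.1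
  have h3a : ∀ x a b, X.Adj x a → X.Adj x b → a ≠ b →
      (Square X x a b ↔ ∃ v, D.Sep (D.wall x a) x v ∧ D.Sep (D.wall x b) x v) :=
    fun x a b ha hb hab => (h3 X hX D x a b ha hb hab).1
  have hface : ∀ p l, In X (x p) (v l) ∈ link X (x p) ∧ (In X (x p) (v l)).Nonempty := by
    intro p l
    refine ⟨HOM.In_face hf D h2a h3a _ _, ?_⟩
    have hex : ∃ h, D.Sep h (x p) (v l) := by
      by_contra hno
      exact H.nev p l (h2b _ _ fun h hh => hno ⟨h, hh⟩)
    obtain ⟨h, hh⟩ := hex
    obtain ⟨a, ha1, ha2⟩ := h1 X hX D h (x p) (v l) hh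
    exact ⟨a, (HOM.In_iff hf D h2a).2 ⟨ha1, ha2 _ hh⟩⟩
  by_cases hK : ∃ p, RA.InK fun l => In X (x p) (v l)
  · obtain ⟨p, hp⟩ := hK
    exact ⟨p, hface p, Or.inl hp⟩
  have hK' : ∀ p, ¬ RA.InK fun l => In X (x p) (v l) := fun p hp => hK ⟨p, hp⟩
  have hM3 : 3 ≤ M := by omega
  obtain ⟨⟨iu, hiu1, hiu2⟩, ⟨id, hid1, hid2⟩, hfc⟩ := h8 X hX hf D N M k hM3 v x e H
  obtain ⟨p0, p, p1, hp0, hp1⟩ : ∃ p0 p p1 : Fin M, p0 < p ∧ p < p1 :=
    ⟨⟨0, by omega⟩, ⟨1, by omega⟩, ⟨2, by omega⟩, by rw [Fin.lt_def]; exact Nat.zero_lt_one,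
      by rw [Fin.lt_def]; exact Nat.one_lt_two⟩
  obtain ⟨hPf, hQf⟩ := hfc p0 p p1 hp0 hp1
  have hval : ∀ i, X.Adj (x p) (e (x p) i) → ∀ q, X.Adj (x q) (e (x q) i) :=
    fun i hi q => H.val p q i hi
  refine ⟨p, hface p, Or.inr ⟨(_, _), ⟨hPf, hQf, ?_, ?_, ?_⟩, ?_, ?_, ?_⟩⟩
  · exact ⟨e (x p) iu, Finset.mem_image.2 ⟨iu, Finset.mem_filter.2
      ⟨Finset.mem_univ _, hiu1 p, hiu2⟩, rfl⟩⟩
  · exact ⟨e (x p) id, Finset.mem_image.2 ⟨id, Finset.mem_filter.2
      ⟨Finset.mem_univ _, hid1 p, hid2⟩, rfl⟩⟩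
  · rw [Finset.disjoint_left]
    intro a ha hb
    obtain ⟨i, hi, rfl⟩ := Finset.mem_image.1 ha
    obtain ⟨j, hj, hji⟩ := Finset.mem_image.1 hb
    rw [Finset.mem_filter] at hi hj
    have hij : i = j := H.inj (x p) i j hi.2.1 hji.symm
    subst hij
    exact h4 X hX hf D N M k hN hM v x e H hK' i (hval i hi.2.1) hi.2.2 hj.2.2
  · intro l t ht htn c hc
    rw [Finset.mem_union, not_or] at htn
    obtain ⟨ht1, ht2⟩ := (HOM.In_iff hf D h2a).1 ht
    obtain ⟨i, rfl⟩ := H.enum (x p) t ht1
    have hnu : ¬ Up D x e i := fun hu => htn.1 (Finset.mem_image.2 ⟨i, Finset.mem_filter.2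
      ⟨Finset.mem_univ _, ht1, hu⟩, rfl⟩)
    have hnd : ¬ Dn D x e i := fun hd => htn.2 (Finset.mem_image.2 ⟨i, Finset.mem_filter.2
      ⟨Finset.mem_univ _, ht1, hd⟩, rfl⟩)
    have hconst := h5 X hX hf D N M k hN hM v x e H i (hval i ht1) hnu hnd ⟨p, l, ht2⟩
    obtain ⟨j, rfl, hj1, hj2⟩ : ∃ j, e (x p) j = c ∧ X.Adj (x p) (e (x p) j) ∧
        (Up D x e j ∨ Dn D x e j) := by
      rw [Finset.mem_union] at hc
      rcases hc with hc | hc
      · obtain ⟨j, hj, rfl⟩ := Finset.mem_image.1 hc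
        rw [Finset.mem_filter] at hj
        exact ⟨j, rfl, hj.2.1, Or.inl hj.2.2⟩
      · obtain ⟨j, hj, rfl⟩ := Finset.mem_image.1 hc
        rw [Finset.mem_filter] at hj
        exact ⟨j, rfl, hj.2.1, Or.inr hj.2.2⟩
    have hsq := h6 X hX hf D N M k v x e H i j (hval i ht1) (hval j hj1) hnu hnd hconst hj2
      p0 p p1 hp0 hp1
    refine HOM.adj_link hf ht1 hj1 ?_ hsq
    intro heq
    have hij : i = j := H.inj (x p) i j ht1 heq
    subst hij
    rcases hj2 with hj2 | hj2
    · exact hnu hj2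
    · exact hnd hj2
  · intro q hq
    obtain ⟨i, hi, rfl⟩ := Finset.mem_image.1 hq
    rw [Finset.mem_filter] at hi
    obtain ⟨j, hj1, hj2, hj3⟩ := (h7 X hX hf D N M k (by omega) v x e H i
      (hval i hi.2.1)).1 hi.2.2
    refine ⟨e (x p) j, Finset.mem_image.2 ⟨j, Finset.mem_filter.2
      ⟨Finset.mem_univ _, hj1 p, hj2⟩, rfl⟩, ?_⟩
    intro l
    rcases hj3 p l with h | h
    · exact Or.inl ((HOM.In_iff hf D h2a).2 ⟨hj1 p, h⟩)
    · exact Or.inr ((HOM.In_iff hf D h2a).2 ⟨hi.2.1, h⟩)
  · intro q hq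
    obtain ⟨i, hi, rfl⟩ := Finset.mem_image.1 hq
    rw [Finset.mem_filter] at hi
    obtain ⟨j, hj1, hj2, hj3⟩ := (h7 X hX hf D N M k (by omega) v x e H i
      (hval i hi.2.1)).2 hi.2.2
    refine ⟨e (x p) j, Finset.mem_image.2 ⟨j, Finset.mem_filter.2
      ⟨Finset.mem_univ _, hj1 p, hj2⟩, rfl⟩, ?_⟩
    intro l
    rcases hj3 p l with h | h
    · exact Or.inr ((HOM.In_iff hf D h2a).2 ⟨hj1 p, h⟩)
    · exact Or.inl ((HOM.In_iff hf D h2a).2 ⟨hi.2.1, h⟩)

end MP8a95ee.Npc

end

section

/-!
# Nonpositively curved cubulations, item RAM: Ramsey's theorem for pairs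
-/

set_option autoImplicit false

namespace MP8a95ee.Npc

namespace RAM

theorem endHom (c : ℕ) : ∀ M : ℕ, ∃ N : ℕ, ∀ (S : Finset ℕ), N ≤ S.card → ∀ f : ℕ → ℕ → Fin c,
    ∃ (g : Fin M → ℕ) (col : Fin M → Fin c), StrictMono g ∧ (∀ i, g i ∈ S) ∧
      ∀ i j, i < j → f (g i) (g j) = col i := by
  intro M
  induction M with
  | zero =>
    refine ⟨0, fun S _ f => ⟨fun i => i.elim0, fun i => i.elim0, fun i => i.elim0,
      fun i => i.elim0, fun i => i.elim0⟩⟩
  | succ M ih =>
    obtain ⟨N, hN⟩ := ih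
    refine ⟨c * N + 1, fun S hS f => ?_⟩
    have hne : S.Nonempty := by
      rw [← Finset.card_pos]; omega
    obtain ⟨a, ha⟩ : ∃ a, a = S.min' hne := ⟨_, rfl⟩
    have haS : a ∈ S := by rw [ha]; exact S.min'_mem hne
    have hcard : (Finset.univ : Finset (Fin c)).card * N ≤ (S.erase a).card := by
      rw [Finset.card_erase_of_mem haS, Finset.card_univ, Fintype.card_fin]; omega
    obtain ⟨k, -, hk⟩ := Finset.exists_le_card_fiber_of_mul_le_card_of_maps_to
      (f := fun y => f a y) (s := S.erase a) (t := Finset.univ) (fun _ _ => Finset.mem_univ _)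
      ⟨f a a, Finset.mem_univ _⟩ hcard
    obtain ⟨g, col, hg, hgS, hc⟩ := hN _ hk f
    have hgS' : ∀ i, g i ∈ S ∧ a < g i ∧ f a (g i) = k := by
      intro i
      have h := hgS i
      rw [Finset.mem_filter, Finset.mem_erase] at h
      refine ⟨h.1.2, lt_of_le_of_ne ?_ (Ne.symm h.1.1), h.2⟩
      rw [ha]; exact S.min'_le _ h.1.2
    refine ⟨Fin.cons a g, Fin.cons k col, ?_, ?_, ?_⟩
    · intro i j hij
      induction i using Fin.cases with
      | zero =>
        induction j using Fin.cases with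
        | zero => exact absurd hij (lt_irrefl _)
        | succ j => simpa using (hgS' j).2.1
      | succ i =>
        induction j using Fin.cases with
        | zero => exact absurd hij (Fin.not_lt_zero _)
        | succ j => simpa using hg (Fin.succ_lt_succ_iff.1 hij)
    · intro i
      induction i using Fin.cases with
      | zero => simpa using haS
      | succ i => simpa using (hgS' i).1
    · intro i j hij
      induction i using Fin.cases with
      | zero =>
        induction j using Fin.cases with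
        | zero => exact absurd hij (lt_irrefl _)
        | succ j => simpa using (hgS' j).2.2
      | succ i =>
        induction j using Fin.cases with
        | zero => exact absurd hij (Fin.not_lt_zero _)
        | succ j => simpa using hc i j (Fin.succ_lt_succ_iff.1 hij)

end RAM

theorem prfRAM : S_RAM := by
  intro c m
  rcases Nat.eq_zero_or_pos c with hc | hc
  · subst hc
    exact ⟨m + 1, fun f => (f 0 0).elim0⟩
  · obtain ⟨N, hN⟩ := RAM.endHom c (c * m)
    refine ⟨N, fun f => ?_⟩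
    obtain ⟨g, col, hg, hgS, hcol⟩ := hN (Finset.range N) (by simp)
      (fun a b => if h : a < N ∧ b < N then f ⟨a, h.1⟩ ⟨b, h.2⟩ else ⟨0, hc⟩)
    have hgN : ∀ i, g i < N := fun i => Finset.mem_range.1 (hgS i)
    have hcard : (Finset.univ : Finset (Fin c)).card * m ≤
        (Finset.univ : Finset (Fin (c * m))).card := by
      simp
    obtain ⟨k, -, hk⟩ := Finset.exists_le_card_fiber_of_mul_le_card_of_maps_to
      (f := col) (s := Finset.univ) (t := Finset.univ) (fun _ _ => Finset.mem_univ _)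
      ⟨⟨0, hc⟩, Finset.mem_univ _⟩ hcard
    obtain ⟨F, hF⟩ : ∃ F, F = Finset.univ.filter (fun x => col x = k) := ⟨_, rfl⟩
    rw [← hF] at hk
    have hh : ∀ i, col (F.orderEmbOfCardLe hk i) = k := by
      intro i
      have h1 := F.orderEmbOfCardLe_mem hk i
      have h2 : ∀ y, y ∈ F → col y = k := by
        intro y hy
        rw [hF, Finset.mem_filter] at hy
        exact hy.2
      exact h2 _ h1
    have key : ∀ i j, i < j → f ⟨g (F.orderEmbOfCardLe hk i), hgN _⟩
        ⟨g (F.orderEmbOfCardLe hk j), hgN _⟩ = k := by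
      intro i j hij
      have h1 := hcol _ _ ((F.orderEmbOfCardLe hk).strictMono hij)
      rw [dif_pos ⟨hgN _, hgN _⟩] at h1
      rw [h1, hh]
    refine ⟨fun i => ⟨g (F.orderEmbOfCardLe hk i), hgN _⟩, ?_, ?_⟩
    · intro i j hij
      exact hg ((F.orderEmbOfCardLe hk).strictMono hij)
    · intro i j k' l hij hkl
      rw [key i j hij, key k' l hkl]

end MP8a95ee.Npc

end

section

/-!
# AC1: links minus a face are acyclic
-/

set_option autoImplicit false

namespace MP8a95ee.Npc

namespace AC1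

open RA

/-- the part of a chain avoiding `v` -/
def res0 (v : ℕ) (e : Finset ℕ → ℝ) (u : Finset ℕ) : ℝ := if v ∈ u then 0 else e u

/-- the `v`-part of a chain -/
def res1 (v : ℕ) (e : Finset ℕ → ℝ) (u : Finset ℕ) : ℝ :=
  if v ∈ u then 0 else sg v u * e (insert v u)

theorem bd_out {L : Finset (Finset ℕ)} {v : ℕ} (hv : v ∈ verts L) (e : Finset ℕ → ℝ)
    {u : Finset ℕ} (hu : v ∉ u) : bdS L e u = res1 v e u + bdS L (res0 v e) u := by
  unfold bdS
  have hm : v ∈ verts L \ u := Finset.mem_sdiff.2 ⟨hv, hu⟩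
  rw [← Finset.add_sum_erase _ _ hm, ← Finset.add_sum_erase (verts L \ u)
    (fun a => sg a u * res0 v e (insert a u)) hm]
  have h1 : res0 v e (insert v u) = 0 := by
    unfold res0
    rw [if_pos (Finset.mem_insert_self v u)]
  have h2 : res1 v e u = sg v u * e (insert v u) := by
    unfold res1
    rw [if_neg hu]
  rw [h1, mul_zero, zero_add, h2]
  congr 1
  refine Finset.sum_congr rfl fun a ha => ?_
  have hav : a ≠ v := Finset.ne_of_mem_erase ha
  unfold res0
  rw [if_neg]
  rw [Finset.mem_insert, not_or]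
  exact ⟨hav.symm, hu⟩

theorem bd_in {L : Finset (Finset ℕ)} {v : ℕ} {e : Finset ℕ → ℝ}
    (he : ∀ t, e t ≠ 0 → v ∉ t) {u : Finset ℕ} (hu : v ∈ u) : bdS L e u = 0 := by
  unfold bdS
  refine Finset.sum_eq_zero fun a _ => ?_
  have : e (insert a u) = 0 := by
    by_contra h
    exact he _ h (Finset.mem_insert_of_mem hu)
  rw [this, mul_zero]

theorem res1_avoid {v : ℕ} {e : Finset ℕ → ℝ} : ∀ t, res1 v e t ≠ 0 → v ∉ t := by
  intro t ht h
  apply ht
  unfold res1
  rw [if_pos h]

theorem res0_avoid {v : ℕ} {e : Finset ℕ → ℝ} : ∀ t, res0 v e t ≠ 0 → v ∉ t := by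
  intro t ht h
  apply ht
  unfold res0
  rw [if_pos h]

theorem res1_ne {v : ℕ} {e : Finset ℕ → ℝ} {t : Finset ℕ} (h : res1 v e t ≠ 0) :
    v ∉ t ∧ e (insert v t) ≠ 0 := by
  refine ⟨res1_avoid t h, fun h0 => h ?_⟩
  unfold res1
  rw [h0, mul_zero, ite_self]

theorem res0_ne {v : ℕ} {e : Finset ℕ → ℝ} {t : Finset ℕ} (h : res0 v e t ≠ 0) :
    v ∉ t ∧ e t ≠ 0 := by
  refine ⟨res0_avoid t h, fun h0 => h ?_⟩
  unfold res0
  rw [h0, ite_self]

/-- the `v`-part of a chain with boundary avoiding `v` is a cycle -/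
theorem bd_res1 {L : Finset (Finset ℕ)} {v : ℕ} (hv : v ∈ verts L) {e : Finset ℕ → ℝ}
    (he : ∀ u, v ∈ u → bdS L e u = 0) : bdS L (res1 v e) = 0 := by
  funext u
  rw [Pi.zero_apply]
  by_cases hu : v ∈ u
  · exact bd_in res1_avoid hu
  have h1 : bdS L (res1 v e) u = -(sg v u * bdS L e (insert v u)) := by
    unfold bdS
    have hm : v ∈ verts L \ u := Finset.mem_sdiff.2 ⟨hv, hu⟩
    rw [← Finset.add_sum_erase (verts L \ u) (fun a => sg a u * res1 v e (insert a u)) hm]
    have h1 : res1 v e (insert v u) = 0 := by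
      unfold res1
      rw [if_pos (Finset.mem_insert_self v u)]
    have h2 : verts L \ insert v u = (verts L \ u).erase v := by
      ext b
      simp only [Finset.mem_sdiff, Finset.mem_erase, Finset.mem_insert, not_or]
      tauto
    rw [h1, mul_zero, zero_add, h2, Finset.mul_sum, ← Finset.sum_neg_distrib]
    refine Finset.sum_congr rfl fun a ha => ?_
    have hav : a ≠ v := Finset.ne_of_mem_erase ha
    have hau : a ∉ u := (Finset.mem_sdiff.1 (Finset.mem_of_mem_erase ha)).2
    unfold res1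
    rw [if_neg (by rw [Finset.mem_insert, not_or]; exact ⟨hav.symm, hu⟩), ← mul_assoc,
      h61_sign3 hau hu hav, Finset.insert_comm v a u]
    ring
  rw [h1, he _ (Finset.mem_insert_self v u), mul_zero, neg_zero]

theorem lk_res1 {L : Finset (Finset ℕ)} (hf : FlagC L) {v : ℕ} {s : Finset ℕ} {k : ℕ}
    {e : Finset ℕ → ℝ} (he : LkChain L s (k + 1) e) : LkChain L (insert v s) k (res1 v e) := by
  intro u hu
  obtain ⟨h1, h2⟩ := res1_ne hu
  obtain ⟨h3, h4, h5, h6⟩ := he _ h2
  refine ⟨hf.mono h3 (Finset.subset_insert _ _), ?_, ?_, ?_⟩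
  · rw [Finset.disjoint_insert_left]
    exact ⟨h1, h4.mono_right (Finset.subset_insert _ _)⟩
  · rwa [Finset.insert_union, ← Finset.union_insert]
  · rw [Finset.card_insert_of_notMem h1] at h6
    omega

theorem lk_up {L : Finset (Finset ℕ)} (hf : FlagC L) {v : ℕ} {s : Finset ℕ} {k : ℕ}
    {e : Finset ℕ → ℝ} (he : LkChain L (insert v s) k e) : LkChain L s k e := by
  intro u hu
  obtain ⟨h3, h4, h5, h6⟩ := he _ hu
  refine ⟨h3, h4.mono_left (Finset.subset_insert _ _), hf.mono h5 ?_, h6⟩
  exact Finset.union_subset_union_left (Finset.subset_insert _ _)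

theorem bdS_add (L : Finset (Finset ℕ)) (x y : Finset ℕ → ℝ) :
    bdS L (x + y) = bdS L x + bdS L y := by
  funext u
  unfold bdS
  rw [Pi.add_apply]
  rw [← Finset.sum_add_distrib]
  refine Finset.sum_congr rfl fun a _ => ?_
  rw [Pi.add_apply]
  ring

theorem bdS_smul (L : Finset (Finset ℕ)) (r : ℝ) (x : Finset ℕ → ℝ) :
    bdS L (r • x) = r • bdS L x := by
  funext u
  unfold bdS
  rw [Pi.smul_apply, smul_eq_mul, Finset.mul_sum]
  refine Finset.sum_congr rfl fun a _ => ?_
  rw [Pi.smul_apply, smul_eq_mul]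
  ring

/-- assembly -/
theorem asm {L : Finset (Finset ℕ)} (hf : FlagC L) {v : ℕ} (hv : v ∈ verts L)
    {s τ0 : Finset ℕ} {k : ℕ} {c e e2 : Finset ℕ → ℝ} (hcv : ∀ t, c t ≠ 0 → v ∉ t)
    (he : LkChain L s (k + 1) e) (hea : ∀ t, e t ≠ 0 → Disjoint t τ0) (heb : bdS L e = c)
    (he2 : LkChain L (insert v s) (k + 1) e2) (hea2 : ∀ t, e2 t ≠ 0 → Disjoint t τ0)
    (heb2 : bdS L e2 = res1 v e) :
    ∃ c', LkChain L s (k + 1) c' ∧ (∀ t, c' t ≠ 0 → Disjoint t (insert v τ0)) ∧
      bdS L c' = c := by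
  have hor : ∀ t, (res0 v e + e2) t ≠ 0 → res0 v e t ≠ 0 ∨ e2 t ≠ 0 := by
    intro t ht
    by_contra h
    rw [not_or, not_not, not_not] at h
    apply ht
    rw [Pi.add_apply, h.1, h.2, add_zero]
  have he2v : ∀ t, e2 t ≠ 0 → v ∉ t := by
    intro t ht h
    exact Finset.disjoint_left.1 (he2 t ht).2.1 (Finset.mem_insert_self v s) h
  refine ⟨res0 v e + e2, ?_, ?_, ?_⟩
  · intro t ht
    rcases hor t ht with h | h
    · exact he t (res0_ne h).2
    · exact lk_up hf he2 t h
  · intro t ht
    rw [Finset.disjoint_insert_right]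
    rcases hor t ht with h | h
    · exact ⟨(res0_ne h).1, hea t (res0_ne h).2⟩
    · exact ⟨he2v t h, hea2 t h⟩
  · rw [bdS_add, heb2]
    funext u
    rw [Pi.add_apply]
    by_cases hu : v ∈ u
    · rw [bd_in res0_avoid hu]
      have h1 : res1 v e u = 0 := by
        unfold res1
        rw [if_pos hu]
      have h2 : c u = 0 := by
        by_contra h
        exact hcv u h hu
      rw [h1, h2, add_zero]
    · have h1 := bd_out hv e hu
      rw [heb] at h1
      rw [h1, add_comm]

theorem lk_oLk {L : Finset (Finset ℕ)} (hf : FlagC L) {n : ℕ} {o : (Fin n → ℕ) → ℤ}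
    (ho : IsOrient L n o) {s : Finset ℕ} {k : ℕ} (hk : s.card + k = n) :
    LkChain L s k (oLk o s) := by
  intro u hu
  have hd : Disjoint s u := by
    by_contra h
    apply hu
    unfold oLk
    rw [if_neg h]
  have h1 : oF o (s ∪ u) ≠ 0 := by
    intro h
    apply hu
    unfold oLk
    rw [if_pos hd, h, mul_zero]
  have h2 := h61_oF_card h1
  have h3 : s ∪ u ∈ L := by
    have h4 : o ((s ∪ u).orderEmbOfFin h2) ≠ 0 := by
      intro h
      apply h1
      unfold oF
      rw [dif_pos h2, h]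
      norm_num
    have h5 := ho.2.1 _ h4
    have h6 : Finset.univ.image ((s ∪ u).orderEmbOfFin h2 : Fin n → ℕ) = s ∪ u := by
      apply Finset.coe_injective
      rw [Finset.coe_image, Finset.coe_univ, Set.image_univ, Finset.range_orderEmbOfFin]
    rwa [h6] at h5
  refine ⟨hf.mono h3 Finset.subset_union_right, hd, h3, ?_⟩
  rw [Finset.card_union_of_disjoint hd] at h2
  omega

theorem bd_oLk {L : Finset (Finset ℕ)} (hf : FlagC L) {n : ℕ} {o : (Fin n → ℕ) → ℤ}
    (ho : IsOrient L n o) {s : Finset ℕ} {k : ℕ} (hk : s.card + k = n) :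
    bdS L (oLk o s) = 0 := by
  funext u
  rw [h61_bdlink (lk_oLk hf ho hk)]
  by_cases hd : Disjoint s u
  · have h1 : ∀ a ∈ verts L \ (s ∪ u), sg a u * oLk o s (insert a u) =
        ((-1) ^ s.card * sgg s u) * (sg a (s ∪ u) * oF o (insert a (s ∪ u))) := by
      intro a ha
      obtain ⟨has, hau⟩ := h61_out ha
      unfold oLk
      rw [if_pos (h61_di hd has), Finset.union_insert, ← mul_assoc, h61_sign2 has hau hd]
      ring
    rw [Finset.sum_congr rfl h1, ← Finset.mul_sum]
    have h2 := congrFun (h61_oFcycle ho) (s ∪ u)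
    unfold bdS at h2
    rw [h2]
    simp
  · refine Finset.sum_eq_zero fun a ha => ?_
    unfold oLk
    rw [if_neg (fun h => hd (h.mono_right (Finset.subset_insert _ _))), mul_zero]

theorem h61_gts_ne (a : ℕ) (s : Finset ℕ) : h61_gts a s ≠ 0 := by
  unfold h61_gts
  refine Finset.prod_ne_zero_iff.2 fun b _ => ?_
  split_ifs <;> norm_num

/-- the `v`-part of the orientation of the link of `s` -/
theorem res1_oLk {n : ℕ} {o : (Fin n → ℕ) → ℤ} {s : Finset ℕ} {v : ℕ} (hv : v ∉ s)
    (u : Finset ℕ) : res1 v (oLk o s) u = h61_gts v s * oLk o (insert v s) u := by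
  unfold res1 oLk
  by_cases hu : v ∈ u
  · rw [if_pos hu, if_neg, mul_zero]
    intro h
    exact Finset.disjoint_left.1 h (Finset.mem_insert_self v s) hu
  · rw [if_neg hu]
    by_cases hd : Disjoint s u
    · have h1 : Disjoint s (insert v u) := h61_di hd hv
      have h2 : Disjoint (insert v s) u := by
        rw [Finset.disjoint_insert_left]
        exact ⟨hu, hd⟩
      rw [if_pos h1, if_pos h2, h61_right s hu, h61_left u hv, Finset.union_insert,
        Finset.insert_union]
      ring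
    · have h1 : ¬ Disjoint s (insert v u) := fun h => hd (h.mono_right (Finset.subset_insert _ _))
      have h2 : ¬ Disjoint (insert v s) u := fun h => hd (h.mono_left (Finset.subset_insert _ _))
      rw [if_neg h1, if_neg h2, mul_zero, mul_zero]

/-- top cycles -/
theorem top {L : Finset (Finset ℕ)} (hf : FlagC L) {n : ℕ} (hS : IsHSphere L n)
    {o : (Fin n → ℕ) → ℤ} (ho : IsOrient L n o) {s : Finset ℕ} (hs : s ∈ L) {k : ℕ}
    (hk : s.card + k = n) {c : Finset ℕ → ℝ} (hc : LkChain L s k c) (hb : bdS L c = 0) :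
    ∃ y : ℝ, ∀ u, c u = y * oLk o s u := by
  obtain ⟨y, -, hy⟩ := itemB8c itemB8a L hf n hS o ho ℝ ⊤ s hs k hk c
    (fun u => ⟨hc u, Submodule.mem_top⟩) (by
      funext u
      have h1 := congrFun hb u
      rw [h61_bdlink hc] at h1
      exact h1)
  exact ⟨y, fun u => by rw [hy u, smul_eq_mul, mul_comm]⟩

theorem lk_zero (L : Finset (Finset ℕ)) (s : Finset ℕ) (k : ℕ) :
    LkChain L s k 0 := fun _ ht => absurd rfl ht

theorem bdS_zero (L : Finset (Finset ℕ)) : bdS L 0 = 0 := by
  funext u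
  unfold bdS
  simp

end AC1

open RA AC1 in
theorem prfAC1 : S_AC1 := by
  intro L hf n hS o ho τ hτ
  induction τ using Finset.induction_on with
  | empty => exact absurd hτ Finset.not_nonempty_empty
  | insert v τ0 hv ih =>
    intro s hd hsτ k c hc hca hcb
    have hvs : v ∉ s := fun h => Finset.disjoint_left.1 hd h (Finset.mem_insert_self v τ0)
    have hd0 : Disjoint s τ0 := hd.mono_right (Finset.subset_insert _ _)
    have hsv : insert v s ∈ L := by
      refine hf.mono hsτ ?_
      rw [Finset.insert_subset_iff]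
      exact ⟨Finset.mem_union_right _ (Finset.mem_insert_self v τ0), Finset.subset_union_left⟩
    have hsL : s ∈ L := hf.mono hsτ Finset.subset_union_left
    have hvL : v ∈ verts L := by
      unfold verts
      rw [Finset.mem_biUnion]
      exact ⟨insert v s, hsv, Finset.mem_insert_self v s⟩
    have hcv : ∀ t, c t ≠ 0 → v ∉ t := fun t ht h =>
      Finset.disjoint_left.1 (hca t ht) h (Finset.mem_insert_self v τ0)
    have hc0 : ∀ e : Finset ℕ → ℝ, bdS L e = c → ∀ u, v ∈ u → bdS L e u = 0 := by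
      intro e he u hu
      rw [he]
      by_contra h
      exact hcv u h hu
    rcases τ0.eq_empty_or_nonempty with h0 | h0
    · subst h0
      by_cases hk : s.card + k = n
      · -- top dimension
        obtain ⟨y, hy⟩ := top hf hS ho hsL hk hc hcb
        obtain ⟨-, t, ht, hst, htn⟩ := itemB8a L hf n hS _ hsv
        have hst' : s ⊆ t := (Finset.subset_insert _ _).trans hst
        have hne : oLk o s (t \ s) ≠ 0 := by
          unfold oLk
          rw [if_pos Finset.disjoint_sdiff, Finset.union_sdiff_of_subset hst']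
          exact mul_ne_zero (h61_sgg_ne _ _) (h61_oF_ne ho ht htn)
        have hz : c (t \ s) = 0 := by
          by_contra h
          refine hcv _ h (Finset.mem_sdiff.2 ⟨hst (Finset.mem_insert_self v s), hvs⟩)
        have hy0 : y = 0 := by
          rw [hy] at hz
          exact (mul_eq_zero.1 hz).resolve_right hne
        refine ⟨0, lk_zero _ _ _, fun t ht => absurd rfl ht, ?_⟩
        rw [bdS_zero]
        funext u
        rw [hy u, hy0, zero_mul]
        rfl
      · obtain ⟨e, he, heb⟩ := (hS s hsL).1 k hk c hc hcb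
        have hcard : (insert v s).card = s.card + 1 := Finset.card_insert_of_notMem hvs
        by_cases hk1 : s.card + 1 + k = n
        · have hkt : (insert v s).card + k = n := by omega
          obtain ⟨y, hy⟩ := top hf hS ho hsv hkt (lk_res1 hf he)
            (bd_res1 hvL (hc0 e heb))
          have hk2 : s.card + (k + 1) = n := by omega
          have hz := lk_oLk hf ho hk2
          have hzb := bd_oLk hf ho hk2
          set r : ℝ := -(y * (h61_gts v s)⁻¹) with hr
          have he' : LkChain L s (k + 1) (e + r • oLk o s) := by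
            intro t ht
            by_cases h : e t = 0
            · refine hz t fun h' => ht ?_
              rw [Pi.add_apply, Pi.smul_apply, h, h', smul_zero, add_zero]
            · exact he t h
          refine asm hf hvL hcv he' (fun t _ => Finset.disjoint_empty_right t) ?_
            (lk_zero L (insert v s) (k + 1)) (fun t ht => absurd rfl ht) ?_
          · rw [bdS_add, bdS_smul, hzb, smul_zero, add_zero, heb]
          · rw [bdS_zero]
            funext u
            have h1 : res1 v (e + r • oLk o s) u = res1 v e u + r * res1 v (oLk o s) u := by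
              unfold res1
              split_ifs
              · rw [mul_zero, add_zero]
              · rw [Pi.add_apply, Pi.smul_apply, smul_eq_mul]
                ring
            rw [h1, hy u, res1_oLk hvs, hr, Pi.zero_apply]
            have h2 := h61_gts_ne v s
            field_simp
            ring
        · obtain ⟨e2, he2, heb2⟩ := (hS _ hsv).1 k (by omega) (res1 v e) (lk_res1 hf he)
            (bd_res1 hvL (hc0 e heb))
          exact asm hf hvL hcv he (fun t _ => Finset.disjoint_empty_right t) heb he2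
            (fun t _ => Finset.disjoint_empty_right t) heb2
    · obtain ⟨e, he, hea, heb⟩ := ih h0 s hd0
        (hf.mono hsτ (Finset.union_subset_union_right (Finset.subset_insert _ _))) k c hc
        (fun t ht => (hca t ht).mono_right (Finset.subset_insert _ _)) hcb
      have hdv : Disjoint (insert v s) τ0 := by
        rw [Finset.disjoint_insert_left]
        exact ⟨hv, hd0⟩
      obtain ⟨e2, he2, hea2, heb2⟩ := ih h0 (insert v s) hdv (by
          rw [Finset.insert_union, ← Finset.union_insert]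
          exact hsτ) k (res1 v e) (lk_res1 hf he)
        (fun t ht => (hea _ (res1_ne ht).2).mono_left (Finset.subset_insert _ _))
        (bd_res1 hvL (hc0 e heb))
      exact asm hf hvL hcv he hea heb he2 hea2 heb2

end MP8a95ee.Npc

end

section

/-!
# AC2: the orientation in the first copy is not a boundary
-/

set_option autoImplicit false

namespace MP8a95ee.Npc

namespace AC2

/-- `dJ` of a chain of size `k + 1` is a chain of size `k` -/
theorem isJ_dJ {L : Finset (Finset ℕ)} (hL : FlagC L) {k : ℕ} {w : JC} (hw : IsJ L (k + 1) w) :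
    IsJ L k (dJ (verts L) w) := by
  intro σ τ h
  unfold dJ at h
  by_cases h1 : ∃ a ∈ verts L \ σ, RA.sg a σ * w (insert a σ) τ ≠ 0
  · obtain ⟨a, ha, h2⟩ := h1
    have h3 := right_ne_zero_of_mul h2
    obtain ⟨b1, b2, b3, b4⟩ := hw _ _ h3
    have haσ : a ∉ σ := (Finset.mem_sdiff.1 ha).2
    refine ⟨hL.mono b1 (Finset.subset_insert _ _), b2,
      b3.mono_left (Finset.subset_insert _ _), ?_⟩
    rw [Finset.card_insert_of_notMem haσ] at b4
    omega
  · by_cases h2 : ∃ a ∈ verts L \ τ, (-1 : ℝ) ^ σ.card * RA.sg a τ * w σ (insert a τ) ≠ 0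
    · obtain ⟨a, ha, h3⟩ := h2
      have h4 := right_ne_zero_of_mul h3
      obtain ⟨b1, b2, b3, b4⟩ := hw _ _ h4
      have haτ : a ∉ τ := (Finset.mem_sdiff.1 ha).2
      refine ⟨b1, hL.mono b2 (Finset.subset_insert _ _),
        b3.mono_right (Finset.subset_insert _ _), ?_⟩
      rw [Finset.card_insert_of_notMem haτ] at b4
      omega
    · exfalso
      apply h
      push Not at h1 h2
      rw [Finset.sum_eq_zero h1, Finset.sum_eq_zero h2, add_zero]

theorem dJ_sub (V : Finset ℕ) (y w : JC) : dJ V (y - w) = dJ V y - dJ V w := by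
  funext σ τ
  simp only [dJ, Pi.sub_apply, mul_sub, Finset.sum_sub_distrib]
  ring

theorem sub_verts {L : Finset (Finset ℕ)} {σ : Finset ℕ} (h : σ ∈ L) : σ ⊆ verts L := by
  intro a ha
  exact Finset.mem_biUnion.2 ⟨σ, h, ha⟩

/-- one step of the induction -/
theorem step (h1 : S_J2) (h2 : S_AC1) (L : Finset (Finset ℕ)) (hL : FlagC L) (m : ℕ)
    (hS : RA.IsHSphere L (m + 1)) (o : (Fin (m + 1) → ℕ) → ℤ) (ho : IsOrient L (m + 1) o)
    (c : ℝ) (i : ℕ) (hi : i + 1 ≤ m + 2) (y : JC) (hy : IsJ L (m + 2) y)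
    (hd : dJ (verts L) y = c • sp ∅ (RA.oF o))
    (hz : ∀ σ τ, m + 2 < τ.card + i → y σ τ = 0) :
    ∃ y' : JC, IsJ L (m + 2) y' ∧ dJ (verts L) y' = c • sp ∅ (RA.oF o) ∧
      ∀ σ τ, m + 2 < τ.card + (i + 1) → y' σ τ = 0 := by
  classical
  have key : ∀ τ : Finset ℕ, ∃ c' : Finset ℕ → ℝ, τ ∈ L → τ.card + i = m + 2 →
      RA.LkChain L ∅ (i + 1) c' ∧ (∀ t, c' t ≠ 0 → Disjoint t τ) ∧
        RA.bdS L c' = fun σ => y σ τ := by
    intro τ
    by_cases hτ : τ ∈ L ∧ τ.card + i = m + 2
    · obtain ⟨hτ1, hτ2⟩ := hτ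
      have hne : τ.Nonempty := by
        rw [← Finset.card_pos]
        omega
      obtain ⟨c', q1, q2, q3⟩ := h2 L hL (m + 1) hS o ho τ hne ∅ (Finset.disjoint_empty_left _)
        (by simpa using hτ1) i (fun σ => y σ τ) (by
          intro t ht
          obtain ⟨b1, b2, b3, b4⟩ := hy t τ ht
          exact ⟨b1, Finset.disjoint_empty_left _, by simpa using b1, by omega⟩) (by
          intro t ht
          exact (hy t τ ht).2.2.1) (by
          funext σ
          have e := congrFun (congrFun hd σ) τ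
          have e2 : (c • sp ∅ (RA.oF o) : JC) σ τ = 0 := by
            simp only [Pi.smul_apply, sp, smul_eq_mul]
            rw [if_neg, mul_zero]
            rintro ⟨_, hs⟩
            exact hne.ne_empty (Finset.subset_empty.1 hs)
          rw [e2] at e
          unfold dJ at e
          have e3 : ∑ a ∈ verts L \ τ, (-1 : ℝ) ^ σ.card * RA.sg a τ * y σ (insert a τ) = 0 := by
            apply Finset.sum_eq_zero
            intro a ha
            rw [hz σ (insert a τ), mul_zero]
            rw [Finset.card_insert_of_notMem (Finset.mem_sdiff.1 ha).2]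
            omega
          rw [e3, add_zero] at e
          exact e)
      exact ⟨c', fun _ _ => ⟨q1, q2, q3⟩⟩
    · exact ⟨0, fun a b => absurd ⟨a, b⟩ hτ⟩
  choose z hzz using key
  set w : JC := fun σ τ => if τ ∈ L ∧ τ.card + i = m + 2 then z τ σ else 0 with hw
  have hwJ : IsJ L (m + 3) w := by
    intro σ τ h
    simp only [hw] at h
    split_ifs at h with h3
    · obtain ⟨q1, q2, q3⟩ := hzz τ h3.1 h3.2
      obtain ⟨b1, b2, b3, b4⟩ := q1 σ h
      exact ⟨b1, h3.1, q2 σ h, by omega⟩
    · exact absurd rfl h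
  have hdw : IsJ L (m + 2) (dJ (verts L) w) := isJ_dJ hL hwJ
  refine ⟨y - dJ (verts L) w, ?_, ?_, ?_⟩
  · intro σ τ h
    by_cases hyn : y σ τ = 0
    · apply hdw
      intro hc
      apply h
      simp only [Pi.sub_apply, hyn, hc, sub_zero]
    · exact hy σ τ hyn
  · rw [dJ_sub, h1 (verts L) w (fun σ τ h => ⟨sub_verts (hwJ σ τ h).1, sub_verts (hwJ σ τ h).2.1⟩),
      sub_zero, hd]
  · intro σ τ h
    have hsec : ∑ a ∈ verts L \ τ, (-1 : ℝ) ^ σ.card * RA.sg a τ * w σ (insert a τ) = 0 := by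
      apply Finset.sum_eq_zero
      intro a ha
      have : w σ (insert a τ) = 0 := by
        simp only [hw]
        rw [if_neg]
        rintro ⟨_, h4⟩
        rw [Finset.card_insert_of_notMem (Finset.mem_sdiff.1 ha).2] at h4
        omega
      rw [this, mul_zero]
    simp only [Pi.sub_apply]
    by_cases h3 : τ ∈ L ∧ τ.card + i = m + 2
    · obtain ⟨q1, q2, q3⟩ := hzz τ h3.1 h3.2
      have e := congrFun q3 σ
      have : dJ (verts L) w σ τ = RA.bdS L (z τ) σ := by
        unfold dJ
        rw [hsec, add_zero]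
        unfold RA.bdS
        apply Finset.sum_congr rfl
        intro a _
        simp only [hw]
        rw [if_pos h3]
      rw [this, e, sub_self]
    · have hfirst : ∑ a ∈ verts L \ σ, RA.sg a σ * w (insert a σ) τ = 0 := by
        apply Finset.sum_eq_zero
        intro a _
        have : w (insert a σ) τ = 0 := by
          simp only [hw]
          rw [if_neg h3]
        rw [this, mul_zero]
      have hy0 : y σ τ = 0 := by
        by_contra hne
        obtain ⟨b1, b2, b3, b4⟩ := hy σ τ hne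
        apply h3
        refine ⟨b2, ?_⟩
        by_contra hne2
        exact hne (hz σ τ (by omega))
      unfold dJ
      rw [hfirst, hsec, hy0]
      ring

theorem all (h1 : S_J2) (h2 : S_AC1) (L : Finset (Finset ℕ)) (hL : FlagC L) (m : ℕ)
    (hS : RA.IsHSphere L (m + 1)) (o : (Fin (m + 1) → ℕ) → ℤ) (ho : IsOrient L (m + 1) o)
    (c : ℝ) (y : JC) (hy : IsJ L (m + 2) y)
    (hd : dJ (verts L) y = c • sp ∅ (RA.oF o)) (i : ℕ) (hi : i ≤ m + 2) :
    ∃ y' : JC, IsJ L (m + 2) y' ∧ dJ (verts L) y' = c • sp ∅ (RA.oF o) ∧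
      ∀ σ τ, m + 2 < τ.card + i → y' σ τ = 0 := by
  induction i with
  | zero =>
    refine ⟨y, hy, hd, ?_⟩
    intro σ τ h
    by_contra hne
    have := (hy σ τ hne).2.2.2
    omega
  | succ i ih =>
    obtain ⟨y', a1, a2, a3⟩ := ih (by omega)
    exact step h1 h2 L hL m hS o ho c i hi y' a1 a2 a3

end AC2

/-- AC2 -/
theorem prfAC2 (h1 : S_J2) (h2 : S_AC1) : S_AC2 := by
  intro L hL m hS o ho y hy c hd
  obtain ⟨y', a1, a2, a3⟩ := AC2.all h1 h2 L hL m hS o ho c y hy hd (m + 2) le_rfl
  have hzero : y' = 0 := by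
    funext σ τ
    by_contra hne
    have hne' : y' σ τ ≠ 0 := hne
    obtain ⟨b1, b2, b3, b4⟩ := a1 σ τ hne'
    by_cases hτ : τ.card = 0
    · have := (RA.itemB8a L hL (m + 1) hS σ b1).1
      omega
    · exact hne' (a3 σ τ (by omega))
  have hempty : (∅ : Finset ℕ) ∈ L := hL.empty_mem
  obtain ⟨t, ht, _, htc⟩ := (RA.itemB8a L hL (m + 1) hS ∅ hempty).2
  have e := congrFun (congrFun a2 t) ∅
  rw [hzero] at e
  have e0 : dJ (verts L) (0 : JC) t ∅ = 0 := by
    simp [dJ]
  rw [e0] at e
  simp only [Pi.smul_apply, sp, smul_eq_mul, Finset.union_empty] at e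
  rw [if_pos ⟨Finset.disjoint_empty_right _, Finset.Subset.refl _⟩] at e
  have hs1 : RA.sgg t ∅ = 1 := by
    unfold RA.sgg
    apply Finset.prod_eq_one
    intro a _
    simp [RA.sg]
  rw [hs1, one_mul] at e
  have hne := RA.h61_oF_ne ho ht htc
  exact (mul_eq_zero.1 e.symm).resolve_right hne

end MP8a95ee.Npc

end

section

set_option autoImplicit false

namespace MP8a95ee.Npc

namespace J1

open Classical

/-- the sign identity -/
theorem sgmix {a b : ℕ} {σ : Finset ℕ} (ha : a ∈ σ) (hb : b ∉ σ) :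
    RA.sg b σ * RA.sg a ((insert b σ).erase a) = -(RA.sg a (σ.erase a) * RA.sg b (σ.erase a)) := by
  have hab : a ≠ b := fun h => hb (h ▸ ha)
  have h1 : (insert b σ).erase a = insert b (σ.erase a) := Finset.erase_insert_of_ne hab.symm
  have h2 : insert a (σ.erase a) = σ := Finset.insert_erase ha
  have hb' : b ∉ σ.erase a := fun h => hb (Finset.mem_of_mem_erase h)
  have h3 := RA.sg_anti' (a := a) (c := b) (Finset.notMem_erase a σ) hb' hab
  rw [h2] at h3
  rw [h1, h3]
  ring

theorem insert_erase' {a b : ℕ} {σ : Finset ℕ} (ha : a ∈ σ) (hb : b ∉ σ) :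
    (insert b σ).erase a = insert b (σ.erase a) :=
  Finset.erase_insert_of_ne (fun h => hb (h ▸ ha))

theorem sdiff_erase {a : ℕ} {V σ : Finset ℕ} (hV : a ∈ V) (ha : a ∈ σ) :
    V \ σ.erase a = insert a (V \ σ) := by
  ext x
  simp only [Finset.mem_sdiff, Finset.mem_erase, Finset.mem_insert]
  constructor
  · rintro ⟨h1, h2⟩
    by_cases hx : x = a
    · exact Or.inl hx
    · exact Or.inr ⟨h1, fun h => h2 ⟨hx, h⟩⟩
  · rintro (rfl | ⟨h1, h2⟩)
    · exact ⟨hV, fun h => h.1 rfl⟩
    · exact ⟨h1, fun h => h2 h.2⟩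

theorem caseP (V : Finset ℕ) (a : ℕ) (hV : a ∈ V) (c : JC) :
    dJ V (wP a c) = c - wP a (dJ V c) := by
  funext σ τ
  change dJ V (wP a c) σ τ = c σ τ - wP a (dJ V c) σ τ
  by_cases ha : a ∈ σ
  · have hpow : ((-1 : ℝ)) ^ σ.card = -(-1) ^ (σ.erase a).card := by
      rw [← Finset.card_erase_add_one ha, pow_succ]
      ring
    have hnot : a ∉ V \ σ := fun h => (Finset.mem_sdiff.1 h).2 ha
    have e1 : ∑ b ∈ V \ σ, RA.sg b σ * wP a c (insert b σ) τ =
        -∑ b ∈ V \ σ, RA.sg a (σ.erase a) * (RA.sg b (σ.erase a) *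
          c (insert b (σ.erase a)) τ) := by
      rw [← Finset.sum_neg_distrib]
      refine Finset.sum_congr rfl fun b hb => ?_
      have hb' : b ∉ σ := (Finset.mem_sdiff.1 hb).2
      unfold wP
      rw [if_pos (Finset.mem_insert_of_mem ha), ← mul_assoc, sgmix ha hb', insert_erase' ha hb']
      ring
    have e2 : ∑ b ∈ V \ τ, (-1) ^ σ.card * RA.sg b τ * wP a c σ (insert b τ) =
        -∑ b ∈ V \ τ, RA.sg a (σ.erase a) * ((-1) ^ (σ.erase a).card * RA.sg b τ *
          c (σ.erase a) (insert b τ)) := by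
      rw [← Finset.sum_neg_distrib]
      refine Finset.sum_congr rfl fun b hb => ?_
      unfold wP
      rw [if_pos ha, hpow]
      ring
    have e3 : wP a (dJ V c) σ τ = RA.sg a (σ.erase a) * (∑ b ∈ V \ σ.erase a,
        RA.sg b (σ.erase a) * c (insert b (σ.erase a)) τ +
        ∑ b ∈ V \ τ, (-1) ^ (σ.erase a).card * RA.sg b τ * c (σ.erase a) (insert b τ)) := by
      unfold wP
      rw [if_pos ha]
      rfl
    have e4 : dJ V (wP a c) σ τ = ∑ b ∈ V \ σ, RA.sg b σ * wP a c (insert b σ) τ +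
        ∑ b ∈ V \ τ, (-1) ^ σ.card * RA.sg b τ * wP a c σ (insert b τ) := rfl
    rw [e4, e1, e2, e3, sdiff_erase hV ha, Finset.sum_insert hnot, Finset.insert_erase ha,
      ← Finset.mul_sum, ← Finset.mul_sum]
    have hs := RA.sg_sq a (σ.erase a)
    linear_combination (c σ τ) * hs
  · have e3 : wP a (dJ V c) σ τ = 0 := by
      unfold wP
      rw [if_neg ha]
    have e2 : ∑ b ∈ V \ τ, (-1) ^ σ.card * RA.sg b τ * wP a c σ (insert b τ) = 0 := by
      refine Finset.sum_eq_zero fun b _ => ?_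
      unfold wP
      rw [if_neg ha, mul_zero]
    have e1 : ∑ b ∈ V \ σ, RA.sg b σ * wP a c (insert b σ) τ = c σ τ := by
      rw [Finset.sum_eq_single a]
      · unfold wP
        rw [if_pos (Finset.mem_insert_self a σ), Finset.erase_insert ha, ← mul_assoc, RA.sg_sq,
          one_mul]
      · intro b hb hba
        unfold wP
        rw [if_neg, mul_zero]
        intro h
        rcases Finset.mem_insert.1 h with h | h
        · exact hba h.symm
        · exact ha h
      · intro h
        exact absurd (Finset.mem_sdiff.2 ⟨hV, ha⟩) h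
    have e4 : dJ V (wP a c) σ τ = ∑ b ∈ V \ σ, RA.sg b σ * wP a c (insert b σ) τ +
        ∑ b ∈ V \ τ, (-1) ^ σ.card * RA.sg b τ * wP a c σ (insert b τ) := rfl
    rw [e4, e1, e2, e3]
    ring

theorem caseM (V : Finset ℕ) (a : ℕ) (hV : a ∈ V) (c : JC) :
    dJ V (wM a c) = c - wM a (dJ V c) := by
  funext σ τ
  change dJ V (wM a c) σ τ = c σ τ - wM a (dJ V c) σ τ
  have e4 : dJ V (wM a c) σ τ = ∑ b ∈ V \ σ, RA.sg b σ * wM a c (insert b σ) τ +
      ∑ b ∈ V \ τ, (-1) ^ σ.card * RA.sg b τ * wM a c σ (insert b τ) := rfl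
  have hsq : ((-1 : ℝ)) ^ σ.card * (-1) ^ σ.card = 1 := by
    rw [← pow_add, ← two_mul, pow_mul]
    norm_num
  by_cases ha : a ∈ τ
  · have hnot : a ∉ V \ τ := fun h => (Finset.mem_sdiff.1 h).2 ha
    have e1 : ∑ b ∈ V \ σ, RA.sg b σ * wM a c (insert b σ) τ =
        -∑ b ∈ V \ σ, (-1) ^ σ.card * RA.sg a (τ.erase a) * (RA.sg b σ *
          c (insert b σ) (τ.erase a)) := by
      rw [← Finset.sum_neg_distrib]
      refine Finset.sum_congr rfl fun b hb => ?_
      have hb' : b ∉ σ := (Finset.mem_sdiff.1 hb).2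
      unfold wM
      rw [if_pos ha, Finset.card_insert_of_notMem hb', pow_succ]
      ring
    have e2 : ∑ b ∈ V \ τ, (-1) ^ σ.card * RA.sg b τ * wM a c σ (insert b τ) =
        -∑ b ∈ V \ τ, (-1) ^ σ.card * RA.sg a (τ.erase a) * ((-1) ^ σ.card *
          RA.sg b (τ.erase a) * c σ (insert b (τ.erase a))) := by
      rw [← Finset.sum_neg_distrib]
      refine Finset.sum_congr rfl fun b hb => ?_
      have hb' : b ∉ τ := (Finset.mem_sdiff.1 hb).2
      unfold wM
      rw [if_pos (Finset.mem_insert_of_mem ha), insert_erase' ha hb']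
      have h := sgmix ha hb'
      rw [insert_erase' ha hb'] at h
      linear_combination ((-1) ^ σ.card * (-1) ^ σ.card * c σ (insert b (τ.erase a))) * h
    have e3 : wM a (dJ V c) σ τ = (-1) ^ σ.card * RA.sg a (τ.erase a) * (∑ b ∈ V \ σ,
        RA.sg b σ * c (insert b σ) (τ.erase a) +
        ∑ b ∈ V \ τ.erase a, (-1) ^ σ.card * RA.sg b (τ.erase a) *
          c σ (insert b (τ.erase a))) := by
      unfold wM
      rw [if_pos ha]
      rfl
    rw [e4, e1, e2, e3, sdiff_erase hV ha, Finset.sum_insert hnot, Finset.insert_erase ha,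
      ← Finset.mul_sum, ← Finset.mul_sum]
    have hs := RA.sg_sq a (τ.erase a)
    linear_combination (c σ τ) * hs +
      (c σ τ * RA.sg a (τ.erase a) * RA.sg a (τ.erase a)) * hsq
  · have e3 : wM a (dJ V c) σ τ = 0 := by
      unfold wM
      rw [if_neg ha]
    have e1 : ∑ b ∈ V \ σ, RA.sg b σ * wM a c (insert b σ) τ = 0 := by
      refine Finset.sum_eq_zero fun b _ => ?_
      unfold wM
      rw [if_neg ha, mul_zero]
    have e2 : ∑ b ∈ V \ τ, (-1) ^ σ.card * RA.sg b τ * wM a c σ (insert b τ) = c σ τ := by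
      rw [Finset.sum_eq_single a]
      · unfold wM
        rw [if_pos (Finset.mem_insert_self a τ), Finset.erase_insert ha]
        have hs := RA.sg_sq a τ
        linear_combination (c σ τ) * hs + (c σ τ * RA.sg a τ * RA.sg a τ) * hsq
      · intro b hb hba
        unfold wM
        rw [if_neg, mul_zero]
        intro h
        rcases Finset.mem_insert.1 h with h | h
        · exact hba h.symm
        · exact ha h
      · intro h
        exact absurd (Finset.mem_sdiff.2 ⟨hV, ha⟩) h
    rw [e4, e1, e2, e3]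
    ring

end J1

theorem prfJ1 : S_J1 := by
  rintro V ⟨a, s⟩ hV c _
  unfold wJ
  cases s
  · simpa using J1.caseP V a hV c
  · simpa using J1.caseM V a hV c

end MP8a95ee.Npc

end

section

set_option autoImplicit false

namespace MP8a95ee.Npc

namespace J2

open Classical

theorem sdiff_insert' (V σ : Finset ℕ) (a : ℕ) : V \ insert a σ = (V \ σ).erase a := by
  ext x
  simp only [Finset.mem_sdiff, Finset.mem_erase, Finset.mem_insert, not_or]
  tauto

theorem anti {V σ : Finset ℕ} (g : Finset ℕ → ℝ) :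
    ∑ a ∈ V \ σ, ∑ b ∈ V \ insert a σ, RA.sg a σ * (RA.sg b (insert a σ) *
      g (insert b (insert a σ))) = 0 := by
  have h1 : ∑ a ∈ V \ σ, ∑ b ∈ V \ insert a σ, RA.sg a σ * (RA.sg b (insert a σ) *
      g (insert b (insert a σ))) = ∑ a ∈ V \ σ, ∑ b ∈ (V \ σ).erase a, RA.sg a σ *
      (RA.sg b (insert a σ) * g (insert b (insert a σ))) := by
    refine Finset.sum_congr rfl fun a _ => ?_
    rw [sdiff_insert']
  rw [h1]
  refine RA.h61_anti (V \ σ) (fun a b => RA.sg a σ *
      (RA.sg b (insert a σ) * g (insert b (insert a σ)))) ?_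
  intro a ha b hb hab
  have h3 := RA.h61_sign3 (Finset.mem_sdiff.1 ha).2 (Finset.mem_sdiff.1 hb).2 hab
  have h4 : insert a (insert b σ) = insert b (insert a σ) := Finset.insert_comm a b σ
  rw [← mul_assoc, h3, h4]
  ring

end J2

theorem prfJ2 : S_J2 := by
  intro V c _
  funext σ τ
  change dJ V (dJ V c) σ τ = 0
  have hsq : ((-1 : ℝ)) ^ σ.card * (-1) ^ σ.card = 1 := by
    rw [← pow_add, ← two_mul, pow_mul]
    norm_num
  have e0 : dJ V (dJ V c) σ τ =
      ∑ a ∈ V \ σ, RA.sg a σ * (∑ b ∈ V \ insert a σ, RA.sg b (insert a σ) *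
        c (insert b (insert a σ)) τ + ∑ b ∈ V \ τ, (-1) ^ (insert a σ).card * RA.sg b τ *
        c (insert a σ) (insert b τ)) +
      ∑ a ∈ V \ τ, (-1) ^ σ.card * RA.sg a τ * (∑ b ∈ V \ σ, RA.sg b σ *
        c (insert b σ) (insert a τ) + ∑ b ∈ V \ insert a τ, (-1) ^ σ.card *
        RA.sg b (insert a τ) * c σ (insert b (insert a τ))) := rfl
  have e1 : ∑ a ∈ V \ σ, RA.sg a σ * (∑ b ∈ V \ insert a σ, RA.sg b (insert a σ) *
        c (insert b (insert a σ)) τ + ∑ b ∈ V \ τ, (-1) ^ (insert a σ).card * RA.sg b τ *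
        c (insert a σ) (insert b τ)) =
      ∑ a ∈ V \ σ, ∑ b ∈ V \ τ, -((-1) ^ σ.card * RA.sg a σ * RA.sg b τ *
        c (insert a σ) (insert b τ)) := by
    have h1 := J2.anti (V := V) (σ := σ) fun u => c u τ
    rw [← sub_zero (∑ a ∈ V \ σ, RA.sg a σ * _), ← h1, ← Finset.sum_sub_distrib]
    refine Finset.sum_congr rfl fun a ha => ?_
    rw [mul_add, Finset.mul_sum, add_sub_cancel_left, Finset.mul_sum]
    refine Finset.sum_congr rfl fun b _ => ?_
    rw [Finset.card_insert_of_notMem (Finset.mem_sdiff.1 ha).2, pow_succ]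
    ring
  have e2 : ∑ a ∈ V \ τ, (-1) ^ σ.card * RA.sg a τ * (∑ b ∈ V \ σ, RA.sg b σ *
        c (insert b σ) (insert a τ) + ∑ b ∈ V \ insert a τ, (-1) ^ σ.card *
        RA.sg b (insert a τ) * c σ (insert b (insert a τ))) =
      ∑ a ∈ V \ τ, ∑ b ∈ V \ σ, (-1) ^ σ.card * RA.sg b σ * RA.sg a τ *
        c (insert b σ) (insert a τ) := by
    have h1 := J2.anti (V := V) (σ := τ) fun u => c σ u
    rw [← add_zero (∑ a ∈ V \ τ, ∑ b ∈ V \ σ, _), ← h1, ← Finset.sum_add_distrib]
    refine Finset.sum_congr rfl fun a ha => ?_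
    rw [mul_add, Finset.mul_sum, Finset.mul_sum]
    congr 1
    · refine Finset.sum_congr rfl fun b _ => ?_
      ring
    · refine Finset.sum_congr rfl fun b _ => ?_
      linear_combination (RA.sg a τ * RA.sg b (insert a τ) * c σ (insert b (insert a τ))) * hsq
  rw [e0, e1, e2, Finset.sum_comm, ← Finset.sum_add_distrib]
  refine Finset.sum_eq_zero fun a _ => ?_
  rw [← Finset.sum_add_distrib]
  refine Finset.sum_eq_zero fun b _ => ?_
  ring

end MP8a95ee.Npc

end

section

set_option autoImplicit false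

namespace MP8a95ee.Npc

namespace J3

open Classical

theorem wJ_zero (a : ℕ × Bool) : wJ a 0 = 0 := by
  funext σ τ
  unfold wJ wM wP
  rcases a with ⟨a, s⟩
  cases s <;> simp

theorem wJ_add (a : ℕ × Bool) (c d : JC) : wJ a (c + d) = wJ a c + wJ a d := by
  funext σ τ
  unfold wJ wM wP
  rcases a with ⟨a, s⟩
  cases s
  · simp only [Bool.false_eq_true, if_false, Pi.add_apply]
    split_ifs <;> ring
  · simp only [if_true, Pi.add_apply]
    split_ifs <;> ring

theorem wJ_smul (a : ℕ × Bool) (r : ℝ) (c : JC) : wJ a (r • c) = r • wJ a c := by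
  funext σ τ
  unfold wJ wM wP
  rcases a with ⟨a, s⟩
  cases s
  · simp only [Bool.false_eq_true, if_false, Pi.smul_apply, smul_eq_mul]
    split_ifs <;> ring
  · simp only [if_true, Pi.smul_apply, smul_eq_mul]
    split_ifs <;> ring

theorem wJ_sum {ι : Type} (S : Finset ι) (a : ℕ × Bool) (r : ι → ℝ) (c : ι → JC) :
    wJ a (∑ i ∈ S, r i • c i) = ∑ i ∈ S, r i • wJ a (c i) := by
  induction S using Finset.induction_on with
  | empty => simp [wJ_zero]
  | insert i S hi ih => rw [Finset.sum_insert hi, Finset.sum_insert hi, wJ_add, wJ_smul, ih]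

theorem supp (k : ℕ) : ∀ (t : Fin k → ℕ × Bool) (σ τ : Finset ℕ), altJ k t σ τ ≠ 0 →
    σ.card + τ.card = k ∧
    σ ⊆ (Finset.univ.filter fun i => (t i).2 = false).image (fun i => (t i).1) ∧
    τ ⊆ (Finset.univ.filter fun i => (t i).2 = true).image fun i => (t i).1 := by
  induction k with
  | zero =>
    intro t σ τ h
    have h1 : σ = ∅ ∧ τ = ∅ := by
      by_contra hc
      apply h
      unfold altJ
      rw [if_neg hc]
    obtain ⟨rfl, rfl⟩ := h1
    simp
  | succ k ih =>
    intro t σ τ h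
    have h0 : altJ (k + 1) t = wJ (t 0) (altJ k fun i => t i.succ) := rfl
    rw [h0] at h
    have hsub : ∀ (s : Bool), (Finset.univ.filter fun i : Fin k => (t i.succ).2 = s).image
        (fun i => (t i.succ).1) ⊆
        (Finset.univ.filter fun i : Fin (k + 1) => (t i).2 = s).image (fun i => (t i).1) := by
      intro s x hx
      obtain ⟨i, hi, rfl⟩ := Finset.mem_image.1 hx
      exact Finset.mem_image.2 ⟨i.succ, Finset.mem_filter.2 ⟨Finset.mem_univ _,
        (Finset.mem_filter.1 hi).2⟩, rfl⟩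
    have hself : (t 0).1 ∈ (Finset.univ.filter fun i : Fin (k + 1) => (t i).2 = (t 0).2).image
        (fun i => (t i).1) :=
      Finset.mem_image.2 ⟨0, Finset.mem_filter.2 ⟨Finset.mem_univ _, rfl⟩, rfl⟩
    by_cases hb : (t 0).2 = true
    · have h2 : wM (t 0).1 (altJ k fun i => t i.succ) σ τ ≠ 0 := by
        unfold wJ at h
        rwa [if_pos hb] at h
      unfold wM at h2
      have ha : (t 0).1 ∈ τ := by
        by_contra hc
        rw [if_neg hc] at h2
        exact h2 rfl
      rw [if_pos ha] at h2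
      obtain ⟨i1, i2, i3⟩ := ih (fun i => t i.succ) σ (τ.erase (t 0).1) (right_ne_zero_of_mul h2)
      refine ⟨?_, i2.trans (hsub _), ?_⟩
      · rw [← Finset.card_erase_add_one ha]
        omega
      · intro x hx
        by_cases hxa : x = (t 0).1
        · rw [hxa, ← hb]
          exact hself
        · exact hsub _ (i3 (Finset.mem_erase.2 ⟨hxa, hx⟩))
    · have h2 : wP (t 0).1 (altJ k fun i => t i.succ) σ τ ≠ 0 := by
        unfold wJ at h
        rwa [if_neg hb] at h
      unfold wP at h2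
      have ha : (t 0).1 ∈ σ := by
        by_contra hc
        rw [if_neg hc] at h2
        exact h2 rfl
      rw [if_pos ha] at h2
      have hb' : (t 0).2 = false := by
        simpa using hb
      obtain ⟨i1, i2, i3⟩ := ih (fun i => t i.succ) (σ.erase (t 0).1) τ (right_ne_zero_of_mul h2)
      refine ⟨?_, ?_, i3.trans (hsub _)⟩
      · rw [← Finset.card_erase_add_one ha]
        omega
      · intro x hx
        by_cases hxa : x = (t 0).1
        · rw [hxa, ← hb']
          exact hself
        · exact hsub _ (i2 (Finset.mem_erase.2 ⟨hxa, hx⟩))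

theorem suppV {V : Finset ℕ} {k : ℕ} (t : Fin k → ℕ × Bool) (ht : ∀ i, (t i).1 ∈ V)
    (σ τ : Finset ℕ) (h : altJ k t σ τ ≠ 0) : σ ⊆ V ∧ τ ⊆ V := by
  obtain ⟨-, h2, h3⟩ := supp k t σ τ h
  constructor
  · intro x hx
    obtain ⟨i, -, rfl⟩ := Finset.mem_image.1 (h2 hx)
    exact ht i
  · intro x hx
    obtain ⟨i, -, rfl⟩ := Finset.mem_image.1 (h3 hx)
    exact ht i

theorem d0 (V : Finset ℕ) (t : Fin 0 → ℕ × Bool) : dJ V (altJ 0 t) = 0 := by
  funext σ τ
  unfold dJ altJ
  simp

theorem bdry (h1 : S_J1) (V : Finset ℕ) (k : ℕ) : ∀ t : Fin (k + 1) → ℕ × Bool,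
    (∀ i, (t i).1 ∈ V) → dJ V (altJ (k + 1) t) =
    ∑ i : Fin (k + 1), ((-1 : ℝ) ^ (i : ℕ)) • altJ k fun j => t (i.succAbove j) := by
  induction k with
  | zero =>
    intro t ht
    have h0 : altJ 1 t = wJ (t 0) (altJ 0 fun i => t i.succ) := rfl
    rw [h0, h1 V (t 0) (ht 0) _ (suppV _ fun i => ht i.succ), d0, wJ_zero, sub_zero,
      Fin.sum_univ_one, Fin.val_zero, pow_zero, one_smul]
    rfl
  | succ k ih =>
    intro t ht
    have h0 : altJ (k + 2) t = wJ (t 0) (altJ (k + 1) fun i => t i.succ) := rfl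
    have h2 : (fun j : Fin (k + 1) => t (Fin.succAbove 0 j)) = fun i => t i.succ := by
      funext j
      rw [Fin.succAbove_zero]
    have h5 : ∑ i : Fin (k + 2), ((-1 : ℝ) ^ (i : ℕ)) • altJ (k + 1) (fun j =>
        t (i.succAbove j)) = altJ (k + 1) (fun i => t i.succ) +
        ∑ i : Fin (k + 1), ((-1 : ℝ) ^ (i.succ : ℕ)) • altJ (k + 1) (fun j =>
        t (i.succ.succAbove j)) := by
      rw [Fin.sum_univ_succ, Fin.val_zero, pow_zero, one_smul, h2]
    rw [h5, h0, h1 V (t 0) (ht 0) _ (suppV _ fun i => ht i.succ), ih _ fun i => ht i.succ, wJ_sum,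
      sub_eq_add_neg, ← Finset.sum_neg_distrib]
    congr 1
    refine Finset.sum_congr rfl fun i _ => ?_
    have h3 : altJ (k + 1) (fun j => t (i.succ.succAbove j)) =
        wJ (t 0) (altJ k fun j => t (i.succAbove j).succ) := by
      have h4 : altJ (k + 1) (fun j => t (i.succ.succAbove j)) =
        wJ (t (i.succ.succAbove 0)) (altJ k fun j => t (i.succ.succAbove j.succ)) := rfl
      rw [h4, Fin.succ_succAbove_zero]
      have h6 : (fun j : Fin k => t (i.succ.succAbove j.succ)) =
          fun j => t (i.succAbove j).succ := by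
        funext j
        rw [Fin.succ_succAbove_succ]
      rw [h6]
    rw [h3, Fin.val_succ, pow_succ, mul_neg_one, neg_smul]

end J3

theorem prfJ3 (h1 : S_J1) : S_J3 := fun V k => ⟨J3.bdry h1 V k, J3.supp k⟩

end MP8a95ee.Npc

end

section

set_option autoImplicit false

namespace MP8a95ee.Npc

open Classical

namespace NU1

theorem down {L : Finset (Finset ℕ)} (hL : FlagC L) {G A : Finset ℕ} (hG : G ∈ L) (hA : A ⊆ G) :
    A ∈ L := by
  rw [hL A]
  intro x hx y hy
  exact (hL G).1 hG x (hA hx) y (hA hy)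

theorem inner (G F B : Finset ℕ) (hB : B ⊆ F) :
    ∑ A ∈ G.powerset.filter (fun A => A ∩ F = B), (-1 : ℝ) ^ (G \ A).card =
      if B ⊆ G ∧ G ⊆ F then (-1) ^ (G \ B).card else 0 := by
  by_cases hGF : G ⊆ F
  · by_cases hBG : B ⊆ G
    · rw [if_pos ⟨hBG, hGF⟩]
      have h1 : G.powerset.filter (fun A => A ∩ F = B) = {B} := by
        ext A
        simp only [Finset.mem_filter, Finset.mem_powerset, Finset.mem_singleton]
        constructor
        · rintro ⟨h1, h2⟩
          rw [← h2, Finset.inter_eq_left.2 (h1.trans hGF)]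
        · rintro rfl
          exact ⟨hBG, Finset.inter_eq_left.2 hB⟩
      rw [h1, Finset.sum_singleton]
    · rw [if_neg (fun h => hBG h.1)]
      apply Finset.sum_eq_zero
      intro A hA
      simp only [Finset.mem_filter, Finset.mem_powerset] at hA
      exfalso
      apply hBG
      rw [← hA.2]
      exact Finset.inter_subset_left.trans hA.1
  · rw [if_neg (fun h => hGF h.2)]
    obtain ⟨g, hg, hgF⟩ := Finset.not_subset.1 hGF
    have hcard : ∀ A : Finset ℕ, g ∉ A → (G \ A).card = (G \ insert g A).card + 1 := by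
      intro A hA
      have h1 : G \ A = insert g (G \ insert g A) := by
        ext x
        simp only [Finset.mem_sdiff, Finset.mem_insert]
        constructor
        · rintro ⟨h1, h2⟩
          by_cases hx : x = g
          · exact Or.inl hx
          · exact Or.inr ⟨h1, fun h => h.elim hx h2⟩
        · rintro (rfl | ⟨h1, h2⟩)
          · exact ⟨hg, hA⟩
          · exact ⟨h1, fun h => h2 (Or.inr h)⟩
      rw [h1, Finset.card_insert_of_notMem (by simp)]
    refine Finset.sum_involution (fun A _ => if g ∈ A then A.erase g else insert g A) ?_ ?_ ?_ ?_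
    · intro A hA
      by_cases hgA : g ∈ A
      · simp only [hgA, if_true]
        have h1 := hcard (A.erase g) (by simp)
        rw [Finset.insert_erase hgA] at h1
        rw [h1, pow_succ]
        ring
      · simp only [hgA, if_false]
        rw [hcard A hgA, pow_succ]
        ring
    · intro A hA _
      by_cases hgA : g ∈ A
      · simp only [hgA, if_true]
        intro h
        rw [← h] at hgA
        simp at hgA
      · simp only [hgA, if_false]
        intro h
        rw [← h] at hgA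
        simp at hgA
    · intro A hA
      simp only [Finset.mem_filter, Finset.mem_powerset] at hA
      by_cases hgA : g ∈ A
      · simp only [hgA, if_true, Finset.mem_filter, Finset.mem_powerset]
        refine ⟨(Finset.erase_subset _ _).trans hA.1, ?_⟩
        rw [← hA.2]
        ext x
        simp only [Finset.mem_inter, Finset.mem_erase]
        constructor
        · rintro ⟨⟨_, h1⟩, h2⟩
          exact ⟨h1, h2⟩
        · rintro ⟨h1, h2⟩
          exact ⟨⟨fun h => hgF (h ▸ h2), h1⟩, h2⟩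
      · simp only [hgA, if_false, Finset.mem_filter, Finset.mem_powerset]
        refine ⟨Finset.insert_subset hg hA.1, ?_⟩
        rw [← hA.2]
        ext x
        simp only [Finset.mem_inter, Finset.mem_insert]
        constructor
        · rintro ⟨h1 | h1, h2⟩
          · exact absurd (h1 ▸ h2) hgF
          · exact ⟨h1, h2⟩
        · rintro ⟨h1, h2⟩
          exact ⟨Or.inr h1, h2⟩
    · intro A hA
      by_cases hgA : g ∈ A
      · simp [hgA, Finset.insert_erase]
      · simp [hgA, Finset.erase_insert]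

theorem interchange {L : Finset (Finset ℕ)} (hL : FlagC L) (E F B : Finset ℕ) (hB : B ⊆ F)
    (c : Finset ℕ → ℝ) :
    ∑ A ∈ L.filter (fun A => A ⊆ E ∧ A ∩ F = B),
      ∑ G ∈ L.filter (fun G => A ⊆ G ∧ G ⊆ E), c G * (-1 : ℝ) ^ (G \ A).card =
    ∑ G ∈ L.filter (fun G => G ⊆ E), c G * if B ⊆ G ∧ G ⊆ F then (-1) ^ (G \ B).card else 0 := by
  rw [Finset.sum_comm' (t' := L.filter (fun G => G ⊆ E))
    (s' := fun G => G.powerset.filter (fun A => A ∩ F = B))]
  · refine Finset.sum_congr rfl (fun G _ => ?_)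
    rw [← inner G F B hB, Finset.mul_sum]
  · intro A G
    simp only [Finset.mem_filter, Finset.mem_powerset]
    constructor
    · rintro ⟨⟨h1, h2, h3⟩, h4, h5, h6⟩
      exact ⟨⟨h5, h3⟩, h4, h6⟩
    · rintro ⟨⟨h1, h2⟩, h3, h4⟩
      exact ⟨⟨down hL h3 h1, h1.trans h4, h2⟩, h3, h1, h4⟩

end NU1

theorem prfNU1 : S_NU1 := by
  intro L hL C F hF hFC B hB
  unfold wN
  rw [NU1.interchange hL C F B hB (fun G => (1 / 2 : ℝ) ^ G.card)]
  have h1 : ∑ G ∈ L.filter (fun G => G ⊆ C), (1 / 2 : ℝ) ^ G.card *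
      (if B ⊆ G ∧ G ⊆ F then (-1 : ℝ) ^ (G \ B).card else 0) =
      ∑ H ∈ (F \ B).powerset, (1 / 2 : ℝ) ^ B.card * ((-1 / 2) ^ H.card * 1 ^ ((F \ B).card - H.card)) := by
    have h2 : ∑ G ∈ L.filter (fun G => G ⊆ C), (1 / 2 : ℝ) ^ G.card *
        (if B ⊆ G ∧ G ⊆ F then (-1 : ℝ) ^ (G \ B).card else 0) =
        ∑ G ∈ L.filter (fun G => B ⊆ G ∧ G ⊆ F), (1 / 2 : ℝ) ^ G.card * (-1 : ℝ) ^ (G \ B).card := by
      rw [show L.filter (fun G => B ⊆ G ∧ G ⊆ F) =
        (L.filter (fun G => G ⊆ C)).filter (fun G => B ⊆ G ∧ G ⊆ F) from ?_]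
      · rw [Finset.sum_filter _ (s := L.filter (fun G => G ⊆ C))]
        refine Finset.sum_congr rfl (fun G _ => ?_)
        split_ifs <;> simp
      · ext G
        simp only [Finset.mem_filter]
        constructor
        · rintro ⟨h1, h2, h3⟩
          exact ⟨⟨h1, h3.trans hFC⟩, h2, h3⟩
        · rintro ⟨⟨h1, _⟩, h2, h3⟩
          exact ⟨h1, h2, h3⟩
    rw [h2]
    symm
    refine Finset.sum_bij' (fun H _ => B ∪ H) (fun G _ => G \ B) ?_ ?_ ?_ ?_ ?_
    · intro H hH
      rw [Finset.mem_powerset] at hH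
      have h3 : B ∪ H ⊆ F := Finset.union_subset hB (hH.trans Finset.sdiff_subset)
      simp only [Finset.mem_filter]
      exact ⟨NU1.down hL hF h3, Finset.subset_union_left, h3⟩
    · intro G hG
      simp only [Finset.mem_filter] at hG
      rw [Finset.mem_powerset]
      exact Finset.sdiff_subset_sdiff hG.2.2 (Finset.Subset.refl _)
    · intro H hH
      rw [Finset.mem_powerset] at hH
      have h3 : Disjoint B H := by
        rw [Finset.disjoint_left]
        intro x hx hx'
        exact (Finset.mem_sdiff.1 (hH hx')).2 hx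
      rw [Finset.union_sdiff_cancel_left h3]
    · intro G hG
      simp only [Finset.mem_filter] at hG
      exact Finset.union_sdiff_of_subset hG.2.1
    · intro H hH
      rw [Finset.mem_powerset] at hH
      have h3 : Disjoint B H := by
        rw [Finset.disjoint_left]
        intro x hx hx'
        exact (Finset.mem_sdiff.1 (hH hx')).2 hx
      rw [Finset.union_sdiff_cancel_left h3, Finset.card_union_of_disjoint h3, pow_add, one_pow,
        mul_one, mul_assoc, ← mul_pow]
      norm_num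
  rw [h1, ← Finset.mul_sum, Finset.sum_pow_mul_eq_add_pow]
  have h3 : F.card = B.card + (F \ B).card := by
    rw [Finset.card_sdiff_of_subset hB]
    have := Finset.card_le_card hB
    omega
  rw [h3, pow_add]
  norm_num

end MP8a95ee.Npc

end

section

set_option autoImplicit false

namespace MP8a95ee.Npc

open Classical

namespace NU2

theorem down {L : Finset (Finset ℕ)} (hL : FlagC L) {G A : Finset ℕ} (hG : G ∈ L) (hA : A ⊆ G) :
    A ∈ L := by
  rw [hL A]
  intro x hx y hy
  exact (hL G).1 hG x (hA hx) y (hA hy)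

theorem inner (G F B : Finset ℕ) (hB : B ⊆ F) :
    ∑ A ∈ G.powerset.filter (fun A => A ∩ F = B), (-1 : ℝ) ^ (G \ A).card =
      if B ⊆ G ∧ G ⊆ F then (-1) ^ (G \ B).card else 0 := by
  by_cases hGF : G ⊆ F
  · by_cases hBG : B ⊆ G
    · rw [if_pos ⟨hBG, hGF⟩]
      have h1 : G.powerset.filter (fun A => A ∩ F = B) = {B} := by
        ext A
        simp only [Finset.mem_filter, Finset.mem_powerset, Finset.mem_singleton]
        constructor
        · rintro ⟨h1, h2⟩
          rw [← h2, Finset.inter_eq_left.2 (h1.trans hGF)]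
        · rintro rfl
          exact ⟨hBG, Finset.inter_eq_left.2 hB⟩
      rw [h1, Finset.sum_singleton]
    · rw [if_neg (fun h => hBG h.1)]
      apply Finset.sum_eq_zero
      intro A hA
      simp only [Finset.mem_filter, Finset.mem_powerset] at hA
      exfalso
      apply hBG
      rw [← hA.2]
      exact Finset.inter_subset_left.trans hA.1
  · rw [if_neg (fun h => hGF h.2)]
    obtain ⟨g, hg, hgF⟩ := Finset.not_subset.1 hGF
    have hcard : ∀ A : Finset ℕ, g ∉ A → (G \ A).card = (G \ insert g A).card + 1 := by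
      intro A hA
      have h1 : G \ A = insert g (G \ insert g A) := by
        ext x
        simp only [Finset.mem_sdiff, Finset.mem_insert]
        constructor
        · rintro ⟨h1, h2⟩
          by_cases hx : x = g
          · exact Or.inl hx
          · exact Or.inr ⟨h1, fun h => h.elim hx h2⟩
        · rintro (rfl | ⟨h1, h2⟩)
          · exact ⟨hg, hA⟩
          · exact ⟨h1, fun h => h2 (Or.inr h)⟩
      rw [h1, Finset.card_insert_of_notMem (by simp)]
    refine Finset.sum_involution (fun A _ => if g ∈ A then A.erase g else insert g A) ?_ ?_ ?_ ?_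
    · intro A hA
      by_cases hgA : g ∈ A
      · simp only [hgA, if_true]
        have h1 := hcard (A.erase g) (by simp)
        rw [Finset.insert_erase hgA] at h1
        rw [h1, pow_succ]
        ring
      · simp only [hgA, if_false]
        rw [hcard A hgA, pow_succ]
        ring
    · intro A hA _
      by_cases hgA : g ∈ A
      · simp only [hgA, if_true]
        intro h
        rw [← h] at hgA
        simp at hgA
      · simp only [hgA, if_false]
        intro h
        rw [← h] at hgA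
        simp at hgA
    · intro A hA
      simp only [Finset.mem_filter, Finset.mem_powerset] at hA
      by_cases hgA : g ∈ A
      · simp only [hgA, if_true, Finset.mem_filter, Finset.mem_powerset]
        refine ⟨(Finset.erase_subset _ _).trans hA.1, ?_⟩
        rw [← hA.2]
        ext x
        simp only [Finset.mem_inter, Finset.mem_erase]
        constructor
        · rintro ⟨⟨_, h1⟩, h2⟩
          exact ⟨h1, h2⟩
        · rintro ⟨h1, h2⟩
          exact ⟨⟨fun h => hgF (h ▸ h2), h1⟩, h2⟩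
      · simp only [hgA, if_false, Finset.mem_filter, Finset.mem_powerset]
        refine ⟨Finset.insert_subset hg hA.1, ?_⟩
        rw [← hA.2]
        ext x
        simp only [Finset.mem_inter, Finset.mem_insert]
        constructor
        · rintro ⟨h1 | h1, h2⟩
          · exact absurd (h1 ▸ h2) hgF
          · exact ⟨h1, h2⟩
        · rintro ⟨h1, h2⟩
          exact ⟨Or.inr h1, h2⟩
    · intro A hA
      by_cases hgA : g ∈ A
      · simp [hgA, Finset.insert_erase]
      · simp [hgA, Finset.erase_insert]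

theorem interchange {L : Finset (Finset ℕ)} (hL : FlagC L) (E F B : Finset ℕ) (hB : B ⊆ F)
    (c : Finset ℕ → ℝ) :
    ∑ A ∈ L.filter (fun A => A ⊆ E ∧ A ∩ F = B),
      ∑ G ∈ L.filter (fun G => A ⊆ G ∧ G ⊆ E), c G * (-1 : ℝ) ^ (G \ A).card =
    ∑ G ∈ L.filter (fun G => G ⊆ E), c G * if B ⊆ G ∧ G ⊆ F then (-1) ^ (G \ B).card else 0 := by
  rw [Finset.sum_comm' (t' := L.filter (fun G => G ⊆ E))
    (s' := fun G => G.powerset.filter (fun A => A ∩ F = B))]
  · refine Finset.sum_congr rfl (fun G _ => ?_)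
    rw [← inner G F B hB, Finset.mul_sum]
  · intro A G
    simp only [Finset.mem_filter, Finset.mem_powerset]
    constructor
    · rintro ⟨⟨h1, h2, h3⟩, h4, h5, h6⟩
      exact ⟨⟨h5, h3⟩, h4, h6⟩
    · rintro ⟨⟨h1, h2⟩, h3, h4⟩
      exact ⟨⟨down hL h3 h1, h1.trans h4, h2⟩, h3, h1, h4⟩

end NU2

theorem prfNU2 : S_NU2 := by
  intro L hL E F hF B hB
  unfold uN
  have h0 := NU2.interchange hL E F B hB (fun _ => (1 : ℝ))
  simp only [one_mul] at h0
  rw [h0]
  by_cases hBE : B ⊆ E
  · have h1 : ∑ G ∈ L.filter (fun G => G ⊆ E),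
        (if B ⊆ G ∧ G ⊆ F then (-1 : ℝ) ^ (G \ B).card else 0) =
        ∑ H ∈ ((E ∩ F) \ B).powerset, (-1 : ℝ) ^ H.card := by
      have h2 : ∑ G ∈ L.filter (fun G => G ⊆ E),
          (if B ⊆ G ∧ G ⊆ F then (-1 : ℝ) ^ (G \ B).card else 0) =
          ∑ G ∈ L.filter (fun G => B ⊆ G ∧ G ⊆ E ∩ F), (-1 : ℝ) ^ (G \ B).card := by
        rw [show L.filter (fun G => B ⊆ G ∧ G ⊆ E ∩ F) =
          (L.filter (fun G => G ⊆ E)).filter (fun G => B ⊆ G ∧ G ⊆ F) from ?_]
        · rw [Finset.sum_filter _ (s := L.filter (fun G => G ⊆ E))]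
        · ext G
          simp only [Finset.mem_filter, Finset.subset_inter_iff]
          tauto
      rw [h2]
      symm
      have hBI : B ⊆ E ∩ F := Finset.subset_inter hBE hB
      refine Finset.sum_bij' (fun H _ => B ∪ H) (fun G _ => G \ B) ?_ ?_ ?_ ?_ ?_
      · intro H hH
        rw [Finset.mem_powerset] at hH
        have h3 : B ∪ H ⊆ E ∩ F := Finset.union_subset hBI (hH.trans Finset.sdiff_subset)
        simp only [Finset.mem_filter]
        exact ⟨NU2.down hL hF (h3.trans Finset.inter_subset_right), Finset.subset_union_left, h3⟩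
      · intro G hG
        simp only [Finset.mem_filter] at hG
        rw [Finset.mem_powerset]
        exact Finset.sdiff_subset_sdiff hG.2.2 (Finset.Subset.refl _)
      · intro H hH
        rw [Finset.mem_powerset] at hH
        have h3 : Disjoint B H := by
          rw [Finset.disjoint_left]
          intro x hx hx'
          exact (Finset.mem_sdiff.1 (hH hx')).2 hx
        rw [Finset.union_sdiff_cancel_left h3]
      · intro G hG
        simp only [Finset.mem_filter] at hG
        exact Finset.union_sdiff_of_subset hG.2.1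
      · intro H hH
        rw [Finset.mem_powerset] at hH
        have h3 : Disjoint B H := by
          rw [Finset.disjoint_left]
          intro x hx hx'
          exact (Finset.mem_sdiff.1 (hH hx')).2 hx
        rw [Finset.union_sdiff_cancel_left h3]
    rw [h1]
    have h4 := Finset.sum_pow_mul_eq_add_pow (-1 : ℝ) 1 ((E ∩ F) \ B)
    simp only [one_pow, mul_one] at h4
    rw [h4]
    have hBI : B ⊆ E ∩ F := Finset.subset_inter hBE hB
    by_cases h5 : E ∩ F = B
    · rw [if_pos h5, h5]
      simp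
    · rw [if_neg h5]
      have h6 : ((E ∩ F) \ B).card ≠ 0 := by
        rw [Ne, Finset.card_eq_zero, Finset.sdiff_eq_empty_iff_subset]
        intro h
        exact h5 (Finset.Subset.antisymm h hBI)
      rw [show (-1 : ℝ) + 1 = 0 by norm_num, zero_pow h6]
  · rw [if_neg (fun h => hBE (by rw [← h]; exact Finset.inter_subset_left))]
    apply Finset.sum_eq_zero
    intro G hG
    simp only [Finset.mem_filter] at hG
    rw [if_neg (fun h => hBE (h.1.trans hG.2))]

end MP8a95ee.Npc

end
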