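import Pool.Agent.Work.MP_8a95ee_gt.Npc.Stmts3
import Pool.Agent.Work.MP_8a95ee_gt.Bd.B05
import Pool.Agent.Work.MP_8a95ee_gt.R.ItemB7a
import Pool.Agent.Work.MP_8a95ee_gt.R.Bas
import Pool.Agent.Work.MP_8a95ee_gt.Bd.B08
import Pool.Agent.Work.MP_8a95ee_gt.Npc.Stmts4
import Pool.Agent.Work.MP_8a95ee_gt.Npc.BD

/-! Bundle of small proof modules (one section per former module). -/

section

set_option autoImplicit false

namespace MP8a95ee.Npc

open Classical

namespace NU3

theorem down {L : Finset (Finset ℕ)} (hL : FlagC L) {G A : Finset ℕ} (hG : G ∈ L) (hA : A ⊆ G) :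
    A ∈ L := by
  rw [hL A]
  intro x hx y hy
  exact (hL G).1 hG x (hA hx) y (hA hy)

/-- the common neighbours in `Q` -/
noncomputable def NQ (L : Finset (Finset ℕ)) (Q σ : Finset ℕ) : Finset ℕ :=
  Q.filter (fun q => ∀ a ∈ σ, RA.Adj L a q)

theorem adj_symm {L : Finset (Finset ℕ)} {a b : ℕ} (h : RA.Adj L a b) : RA.Adj L b a := by
  refine ⟨h.1.symm, ?_⟩
  rw [Finset.pair_comm]
  exact h.2

theorem adj_of {L : Finset (Finset ℕ)} (hL : FlagC L) {G : Finset ℕ} (hG : G ∈ L) {a b : ℕ}
    (ha : a ∈ G) (hb : b ∈ G) (hab : a ≠ b) : RA.Adj L a b :=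
  ⟨hab, (hL G).1 hG a ha b hb⟩

theorem core {L : Finset (Finset ℕ)} (hL : FlagC L) {P Q : Finset ℕ} (hP : P ∈ L) (hQ : Q ∈ L)
    (hd : Disjoint P Q) :
    uN L (P ∪ Q) ∅ = ∑ σ ∈ P.powerset.filter (fun σ => NQ L Q σ = ∅), (-1 : ℝ) ^ σ.card := by
  unfold uN
  have key : ∀ σ ⊆ P, ∀ τ ⊆ Q, σ ∪ τ ∈ L ↔ τ ⊆ NQ L Q σ := by
    intro σ hσ τ hτ
    constructor
    · intro h q hq
      rw [NQ, Finset.mem_filter]
      refine ⟨hτ hq, fun a ha => ?_⟩
      refine adj_of hL h (Finset.mem_union_left _ ha) (Finset.mem_union_right _ hq) ?_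
      rintro rfl
      exact Finset.disjoint_left.1 hd (hσ ha) (hτ hq)
    · intro h
      rw [hL (σ ∪ τ)]
      intro x hx y hy
      rcases Finset.mem_union.1 hx with hx | hx <;> rcases Finset.mem_union.1 hy with hy | hy
      · exact (hL P).1 hP x (hσ hx) y (hσ hy)
      · have := h hy
        rw [NQ, Finset.mem_filter] at this
        exact (this.2 x hx).2
      · have := h hx
        rw [NQ, Finset.mem_filter] at this
        exact (adj_symm (this.2 y hy)).2
      · exact (hL Q).1 hQ x (hτ hx) y (hτ hy)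
  have e1 : ∑ G ∈ L.filter (fun G => ∅ ⊆ G ∧ G ⊆ P ∪ Q), (-1 : ℝ) ^ (G \ ∅).card =
      ∑ p ∈ P.powerset.sigma (fun σ => (NQ L Q σ).powerset), (-1 : ℝ) ^ (p.1.card + p.2.card) := by
    refine Finset.sum_bij' (fun G _ => (⟨G ∩ P, G ∩ Q⟩ : (_ : Finset ℕ) × Finset ℕ))
      (fun p _ => p.1 ∪ p.2) ?_ ?_ ?_ ?_ ?_
    · intro G hG
      simp only [Finset.mem_filter] at hG
      simp only [Finset.mem_sigma, Finset.mem_powerset]
      refine ⟨Finset.inter_subset_right, ?_⟩
      rw [← key _ Finset.inter_subset_right _ Finset.inter_subset_right,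
        ← Finset.inter_union_distrib_left, Finset.inter_eq_left.2 hG.2.2]
      exact hG.1
    · rintro ⟨σ, τ⟩ hp
      simp only [Finset.mem_sigma, Finset.mem_powerset] at hp
      have h2 : τ ⊆ Q := hp.2.trans (Finset.filter_subset _ _)
      simp only [Finset.mem_filter]
      exact ⟨(key σ hp.1 τ h2).2 hp.2, Finset.empty_subset _, Finset.union_subset_union hp.1 h2⟩
    · intro G hG
      simp only [Finset.mem_filter] at hG
      simp only
      rw [← Finset.inter_union_distrib_left, Finset.inter_eq_left.2 hG.2.2]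
    · rintro ⟨σ, τ⟩ hp
      simp only [Finset.mem_sigma, Finset.mem_powerset] at hp
      have h2 : τ ⊆ Q := hp.2.trans (Finset.filter_subset _ _)
      have e1 : (σ ∪ τ) ∩ P = σ := by
        ext x
        simp only [Finset.mem_inter, Finset.mem_union]
        constructor
        · rintro ⟨h | h, h'⟩
          · exact h
          · exact absurd (h2 h) (Finset.disjoint_left.1 hd h')
        · exact fun h => ⟨Or.inl h, hp.1 h⟩
      have e2 : (σ ∪ τ) ∩ Q = τ := by
        ext x
        simp only [Finset.mem_inter, Finset.mem_union]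
        constructor
        · rintro ⟨h | h, h'⟩
          · exact absurd h' (Finset.disjoint_left.1 hd (hp.1 h))
          · exact h
        · exact fun h => ⟨Or.inr h, h2 h⟩
      simp only [e1, e2]
    · intro G hG
      simp only [Finset.mem_filter] at hG
      have h1 : (G \ ∅).card = (G ∩ P).card + (G ∩ Q).card := by
        rw [Finset.sdiff_empty]
        rw [← Finset.card_union_of_disjoint]
        · rw [← Finset.inter_union_distrib_left, Finset.inter_eq_left.2 hG.2.2]
        · rw [Finset.disjoint_left]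
          intro x hx hx'
          exact Finset.disjoint_left.1 hd (Finset.mem_inter.1 hx).2 (Finset.mem_inter.1 hx').2
      rw [h1]
  rw [e1, Finset.sum_sigma, Finset.sum_filter]
  refine Finset.sum_congr rfl (fun σ _ => ?_)
  simp only [pow_add]
  rw [← Finset.mul_sum]
  have h4 := Finset.sum_pow_mul_eq_add_pow (-1 : ℝ) 1 (NQ L Q σ)
  simp only [one_pow, mul_one] at h4
  rw [h4]
  by_cases h : NQ L Q σ = ∅
  · rw [if_pos h, h]; simp
  · rw [if_neg h, show (-1 : ℝ) + 1 = 0 by norm_num, zero_pow (by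
      rw [Ne, Finset.card_eq_zero]; exact h), mul_zero]

/-- step (A) -/
theorem stepA {L : Finset (Finset ℕ)} (hL : FlagC L) {P Q : Finset ℕ} (hP : P ∈ L) (hQ : Q ∈ L)
    (hd : Disjoint P Q) (hQne : Q.Nonempty) {P' : Finset ℕ} (hP' : P' ⊂ P) (hN : NQ L Q P' = ∅) :
    ∃ A0 ∈ L, A0.Nonempty ∧ A0 ⊆ P ∪ Q ∧ uN L ((P ∪ Q) \ A0) ∅ ≠ 0 := by
  -- a minimal subset
  obtain ⟨P1, hP1, hmin⟩ := Finset.exists_min_image
    (P'.powerset.filter (fun σ => NQ L Q σ = ∅)) Finset.card
    ⟨P', by simp [hN]⟩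
  simp only [Finset.mem_filter, Finset.mem_powerset] at hP1 hmin
  have hP1P : P1 ⊆ P := hP1.1.trans hP'.1
  refine ⟨P \ P1, down hL hP Finset.sdiff_subset, ?_, ?_, ?_⟩
  · rw [Finset.nonempty_iff_ne_empty, Ne, Finset.sdiff_eq_empty_iff_subset]
    intro h
    exact hP'.2 (h.trans hP1.1)
  · exact Finset.sdiff_subset.trans Finset.subset_union_left
  · have e1 : (P ∪ Q) \ (P \ P1) = P1 ∪ Q := by
      ext x
      simp only [Finset.mem_sdiff, Finset.mem_union, not_and, not_not]
      constructor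
      · rintro ⟨h | h, h'⟩
        · exact Or.inl (h' h)
        · exact Or.inr h
      · rintro (h | h)
        · exact ⟨Or.inl (hP1P h), fun _ => h⟩
        · exact ⟨Or.inr h, fun h' => absurd h (Finset.disjoint_left.1 hd h')⟩
    rw [e1, core hL (down hL hP hP1P) hQ (Finset.disjoint_of_subset_left hP1P hd)]
    have e2 : P1.powerset.filter (fun σ => NQ L Q σ = ∅) = {P1} := by
      ext σ
      simp only [Finset.mem_filter, Finset.mem_powerset, Finset.mem_singleton]
      constructor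
      · rintro ⟨h1, h2⟩
        exact Finset.eq_of_subset_of_card_le h1 (hmin σ ⟨h1.trans hP1.1, h2⟩)
      · rintro rfl
        exact ⟨Finset.Subset.refl _, hP1.2⟩
    rw [e2, Finset.sum_singleton]
    exact pow_ne_zero _ (by norm_num)

end NU3

theorem prfNU3 : S_NU3 := by
  intro L hL C hC hcard
  obtain ⟨hCne, hconn, P0, hP0, Q0, hQ0, hCPQ⟩ := hC
  -- `C` is not a face
  have hCL : C ∉ L := by
    intro hCL
    obtain ⟨a, ha⟩ := hCne
    obtain ⟨a', ha', b, hb, hbD, hadj⟩ := hconn {a} (by simpa using ha) (by simp) (by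
      intro h
      rw [← h] at hcard
      simp at hcard)
    rw [Finset.mem_singleton] at ha' hbD
    subst ha'
    exact hadj (NU3.adj_of hL hCL ha hb (fun h => hbD h.symm))
  set P := P0 with hPdef
  set Q := Q0 \ P0 with hQdef
  have hP : P ∈ L := hP0
  have hQ : Q ∈ L := NU3.down hL hQ0 Finset.sdiff_subset
  have hd : Disjoint P Q := Finset.disjoint_sdiff
  have hC' : C = P ∪ Q := by rw [hCPQ, hQdef, Finset.union_sdiff_self_eq_union]
  have hPne : P.Nonempty := by
    rw [Finset.nonempty_iff_ne_empty]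
    intro h
    rw [h, Finset.empty_union] at hC'
    exact hCL (hC' ▸ hQ)
  have hQne : Q.Nonempty := by
    rw [Finset.nonempty_iff_ne_empty]
    intro h
    rw [h, Finset.union_empty] at hC'
    exact hCL (hC' ▸ hP)
  -- no vertex is adjacent to all the others
  have hNoAll : ∀ q ∈ C, ∃ b ∈ C, b ≠ q ∧ ¬ RA.Adj L q b := by
    intro q hq
    obtain ⟨a, ha, b, hb, hbD, hadj⟩ := hconn {q} (by simpa using hq) (by simp) (by
      intro h
      rw [← h] at hcard
      simp at hcard)
    rw [Finset.mem_singleton] at ha hbD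
    subst ha
    exact ⟨b, hb, hbD, hadj⟩
  have hNQP : NU3.NQ L Q P = ∅ := by
    rw [Finset.eq_empty_iff_forall_notMem]
    intro q hq
    rw [NU3.NQ, Finset.mem_filter] at hq
    obtain ⟨b, hb, hbq, hadj⟩ := hNoAll q (by rw [hC']; exact Finset.mem_union_right _ hq.1)
    rw [hC'] at hb
    rcases Finset.mem_union.1 hb with hb | hb
    · exact hadj (NU3.adj_symm (hq.2 b hb))
    · exact hadj (NU3.adj_of hL hQ hq.1 hb (fun h => hbq h.symm))
  have hNPQ : NU3.NQ L P Q = ∅ := by
    rw [Finset.eq_empty_iff_forall_notMem]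
    intro q hq
    rw [NU3.NQ, Finset.mem_filter] at hq
    obtain ⟨b, hb, hbq, hadj⟩ := hNoAll q (by rw [hC']; exact Finset.mem_union_left _ hq.1)
    rw [hC'] at hb
    rcases Finset.mem_union.1 hb with hb | hb
    · exact hadj (NU3.adj_of hL hP hq.1 hb (fun h => hbq h.symm))
    · exact hadj (NU3.adj_symm (hq.2 b hb))
  by_cases hA : ∃ P' ⊂ P, NU3.NQ L Q P' = ∅
  · right
    obtain ⟨P', hP', hN⟩ := hA
    rw [hC']
    exact NU3.stepA hL hP hQ hd hQne hP' hN
  by_cases hB : ∃ Q' ⊂ Q, NU3.NQ L P Q' = ∅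
  · right
    obtain ⟨Q', hQ', hN⟩ := hB
    rw [hC', Finset.union_comm]
    exact NU3.stepA hL hQ hP hd.symm hPne hQ' hN
  left
  push Not at hA hB
  obtain ⟨p, hp⟩ := hPne
  obtain ⟨q, hq⟩ := hA (P.erase p) (Finset.erase_ssubset hp)
  rw [NU3.NQ, Finset.mem_filter] at hq
  have hpq : ¬ RA.Adj L p q := by
    intro h
    have : q ∈ NU3.NQ L Q P := by
      rw [NU3.NQ, Finset.mem_filter]
      refine ⟨hq.1, fun a ha => ?_⟩
      by_cases hap : a = p
      · rw [hap]; exact h
      · exact hq.2 a (Finset.mem_erase.2 ⟨hap, ha⟩)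
    rw [hNQP] at this
    simp at this
  obtain ⟨p1, hp1⟩ := hB (Q.erase q) (Finset.erase_ssubset hq.1)
  rw [NU3.NQ, Finset.mem_filter] at hp1
  have hp1q : ¬ RA.Adj L q p1 := by
    intro h
    have : p1 ∈ NU3.NQ L P Q := by
      rw [NU3.NQ, Finset.mem_filter]
      refine ⟨hp1.1, fun a ha => ?_⟩
      by_cases hap : a = q
      · rw [hap]; exact h
      · exact hp1.2 a (Finset.mem_erase.2 ⟨hap, ha⟩)
    rw [hNPQ] at this
    simp at this
  have hp1p : p1 = p := by
    by_contra h
    exact hp1q (NU3.adj_symm (hq.2 p1 (Finset.mem_erase.2 ⟨h, hp1.1⟩)))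
  rw [hp1p] at hp1 hp1q
  have hne : p ≠ q := fun h => Finset.disjoint_left.1 hd hp (h ▸ hq.1)
  have hpC : p ∈ C := by rw [hC']; exact Finset.mem_union_left _ hp
  have hqC : q ∈ C := by rw [hC']; exact Finset.mem_union_right _ hq.1
  have hall : ∀ b ∈ C, b ≠ p → b ≠ q → RA.Adj L p b ∧ RA.Adj L q b := by
    intro b hb hbp hbq
    rw [hC'] at hb
    rcases Finset.mem_union.1 hb with hb | hb
    · exact ⟨NU3.adj_of hL hP hp hb (fun h => hbp h.symm),
        NU3.adj_symm (hq.2 b (Finset.mem_erase.2 ⟨hbp, hb⟩))⟩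
    · exact ⟨NU3.adj_symm (hp1.2 b (Finset.mem_erase.2 ⟨hbq, hb⟩)),
        NU3.adj_of hL hQ hq.1 hb (fun h => hbq h.symm)⟩
  have hCeq : C = {p, q} := by
    by_contra hne'
    obtain ⟨a, ha, b, hb, hbD, hadj⟩ := hconn {p, q} (by
      intro x hx
      simp only [Finset.mem_insert, Finset.mem_singleton] at hx
      rcases hx with rfl | rfl
      · exact hpC
      · exact hqC) (by simp) (fun h => hne' h.symm)
    simp only [Finset.mem_insert, Finset.mem_singleton, not_or] at ha hbD
    have := hall b hb hbD.1 hbD.2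
    rcases ha with rfl | rfl
    · exact hadj this.1
    · exact hadj this.2
  -- the computation
  have hE : (∅ : Finset ℕ) ∈ L := NU3.down hL hP (Finset.empty_subset _)
  have hpL : ({p} : Finset ℕ) ∈ L := NU3.down hL hP (by simpa using hp)
  have hqL : ({q} : Finset ℕ) ∈ L := NU3.down hL hQ (by simpa using hq.1)
  have hpqL : ({p, q} : Finset ℕ) ∉ L := fun h => hpq ⟨hne, h⟩
  unfold wN
  have hf : L.filter (fun G => ∅ ⊆ G ∧ G ⊆ C) = {∅, {p}, {q}} := by
    ext G
    simp only [Finset.mem_filter, Finset.mem_insert, Finset.mem_singleton, Finset.empty_subset,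
      true_and]
    constructor
    · rintro ⟨h1, h2⟩
      rw [hCeq] at h2
      by_cases hpG : p ∈ G <;> by_cases hqG : q ∈ G
      · exfalso
        apply hpqL
        refine NU3.down hL h1 ?_
        intro x hx
        simp only [Finset.mem_insert, Finset.mem_singleton] at hx
        rcases hx with rfl | rfl <;> assumption
      · right; left
        ext x
        simp only [Finset.mem_singleton]
        constructor
        · intro hx
          have := h2 hx
          simp only [Finset.mem_insert, Finset.mem_singleton] at this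
          rcases this with h | h
          · exact h
          · exact absurd (h ▸ hx) hqG
        · rintro rfl; exact hpG
      · right; right
        ext x
        simp only [Finset.mem_singleton]
        constructor
        · intro hx
          have := h2 hx
          simp only [Finset.mem_insert, Finset.mem_singleton] at this
          rcases this with h | h
          · exact absurd (h ▸ hx) hpG
          · exact h
        · rintro rfl; exact hqG
      · left
        rw [Finset.eq_empty_iff_forall_notMem]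
        intro x hx
        have := h2 hx
        simp only [Finset.mem_insert, Finset.mem_singleton] at this
        rcases this with h | h
        · exact hpG (h ▸ hx)
        · exact hqG (h ▸ hx)
    · rintro (rfl | rfl | rfl)
      · exact ⟨hE, Finset.empty_subset _⟩
      · exact ⟨hpL, by simpa using hpC⟩
      · exact ⟨hqL, by simpa using hqC⟩
  rw [hf, Finset.sum_insert (by simp [eq_comm]), Finset.sum_insert (by simpa using hne),
    Finset.sum_singleton]
  norm_num

end MP8a95ee.Npc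

end

section

/-!
# Item NU4: existence of the signed measure
-/

set_option autoImplicit false

namespace MP8a95ee.Npc

open Classical

namespace NU4

lemma sum_part (L : Finset (Finset ℕ)) (C E F B : Finset ℕ) (hE : E ⊆ C) (g : Finset ℕ → ℝ) :
    ∑ A ∈ C.powerset.filter (fun A => A ∩ F = B), (if A ∈ L ∧ A ⊆ E then g A else 0) =
      ∑ A ∈ L.filter (fun A => A ⊆ E ∧ A ∩ F = B), g A := by
  rw [← Finset.sum_filter]
  refine Finset.sum_congr ?_ fun _ _ => rfl
  ext A
  simp only [Finset.mem_filter, Finset.mem_powerset]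
  constructor
  · rintro ⟨⟨_, h2⟩, h3, h4⟩
    exact ⟨h3, h4, h2⟩
  · rintro ⟨h1, h2, h3⟩
    exact ⟨⟨h2.trans hE, h3⟩, h1, h2⟩

lemma sum_point (C E F B : Finset ℕ) (hE : E ⊆ C) :
    ∑ A ∈ C.powerset.filter (fun A => A ∩ F = B), (if A = E then (1 : ℝ) else 0) =
      if E ∩ F = B then 1 else 0 := by
  rw [Finset.sum_ite_eq']
  by_cases h : E ∩ F = B
  · rw [if_pos h, if_pos]
    simp only [Finset.mem_filter, Finset.mem_powerset]
    exact ⟨hE, h⟩
  · rw [if_neg h, if_neg]
    simp only [Finset.mem_filter, Finset.mem_powerset]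
    exact fun h' => h h'.2

lemma not_face (L : Finset (Finset ℕ)) (hL : FlagC L) (C : Finset ℕ) (hC : Conn L C)
    (h1 : 1 < C.card) : C ∉ L := by
  intro hCL
  obtain ⟨a, ha⟩ : C.Nonempty := Finset.card_pos.1 (by omega)
  obtain ⟨a', ha', b, hb, hba, hadj⟩ := hC {a} (by simpa using ha) ⟨a, by simp⟩
    (fun h => by rw [← h] at h1; simp at h1)
  rw [Finset.mem_singleton] at ha' hba
  subst ha'
  exact hadj ⟨fun h => hba h.symm, (hL C).1 hCL _ ha _ hb⟩

end NU4

open NU4 in
theorem prfNU4 (h1 : S_NU1) (h2 : S_NU2) (h3 : S_NU3) : S_NU4 := by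
  intro L hL C hC hcard
  have hemp : (∅ : Finset ℕ) ∈ L :=
    (hL ∅).2 fun x hx => absurd hx (Finset.notMem_empty x)
  by_cases h0 : wN L C ∅ = 0
  · refine ⟨fun A => if A ∈ L ∧ A ⊆ C then wN L C A else 0, ?_, ?_⟩
    · intro A hA
      have hA' : A ∈ L ∧ A ⊆ C := by
        by_contra h
        exact hA (if_neg h)
      refine ⟨hA'.2, Or.inl ⟨hA'.1, ?_⟩⟩
      rw [Finset.nonempty_iff_ne_empty]
      rintro rfl
      apply hA
      dsimp only
      rw [if_pos hA', h0]
    · intro F hF hFC B hB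
      rw [sum_part L C C F B (Finset.Subset.refl C) (wN L C)]
      exact h1 L hL C F hF hFC B hB
  · obtain h | ⟨A0, hA0, hA0n, hA0C, hu⟩ := h3 L hL C hC hcard
    · exact absurd h h0
    have hEC : C \ A0 ⊆ C := Finset.sdiff_subset
    have hEne : C \ A0 ≠ ∅ := by
      intro h
      rw [Finset.sdiff_eq_empty_iff_subset] at h
      have : C = A0 := Finset.Subset.antisymm h hA0C
      exact not_face L hL C hC.2.1 hcard (this ▸ hA0)
    have hCE : C \ (C \ A0) = A0 := by
      rw [Finset.sdiff_sdiff_eq_self hA0C]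
    set E := C \ A0 with hE
    set t : ℝ := wN L C ∅ / uN L E ∅ with ht
    set ν : Finset ℕ → ℝ := fun A => (if A ∈ L ∧ A ⊆ C then wN L C A else 0) +
      t * ((if A = E then 1 else 0) - (if A ∈ L ∧ A ⊆ E then uN L E A else 0)) with hν
    have hν0 : ν ∅ = 0 := by
      rw [hν]
      dsimp only
      rw [if_pos ⟨hemp, Finset.empty_subset C⟩, if_neg (fun h => hEne h.symm),
        if_pos ⟨hemp, Finset.empty_subset E⟩, ht]
      field_simp
      ring
    refine ⟨ν, ?_, ?_⟩
    · intro A hA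
      have hAne : A.Nonempty := by
        rw [Finset.nonempty_iff_ne_empty]
        rintro rfl
        exact hA hν0
      by_cases hAL : A ∈ L ∧ A ⊆ C
      · exact ⟨hAL.2, Or.inl ⟨hAL.1, hAne⟩⟩
      · have hAE : A = E := by
          by_contra hne
          apply hA
          rw [hν]
          dsimp only
          rw [if_neg hAL, if_neg hne, if_neg (fun h => hAL ⟨h.1, h.2.trans hEC⟩)]
          ring
        rw [hAE]
        exact ⟨hEC, Or.inr (by rw [hCE]; exact ⟨hA0, hA0n⟩)⟩
    · intro F hF hFC B hB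
      rw [hν]
      dsimp only
      rw [Finset.sum_add_distrib, ← Finset.mul_sum, Finset.sum_sub_distrib,
        sum_part L C C F B (Finset.Subset.refl C) (wN L C), sum_part L C E F B hEC (uN L E),
        sum_point C E F B hEC, h1 L hL C F hF hFC B hB, h2 L hL E F hF B hB]
      ring

end MP8a95ee.Npc

end

section

/-!
# P2: Part II
-/

set_option autoImplicit false

namespace MP8a95ee.Npc

namespace P2

open Classical

/-- evaluation of a boundary -/
theorem lin_bdT {S M : Type} [AddCommGroup M] [Module ℝ M] {k : ℕ} (F : (Fin k → S) → M)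
    (c : RA.Ch S (k + 1)) :
    Finsupp.linearCombination ℝ F (RA.bdT c) =
      Finsupp.linearCombination ℝ (fun s : Fin (k + 1) → S =>
        ∑ i : Fin (k + 1), ((-1 : ℝ) ^ (i : ℕ)) • F fun j => s (i.succAbove j)) c := by
  have h1 : RA.bdT c = ∑ s ∈ c.support, c s • RA.bdT0 s := by
    unfold RA.bdT
    rw [Finsupp.linearCombination_apply]
    rfl
  have h2 : ∀ G : (Fin (k + 1) → S) → M, Finsupp.linearCombination ℝ G c =
      ∑ s ∈ c.support, c s • G s := fun G => by
    rw [Finsupp.linearCombination_apply]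
    rfl
  rw [h1, h2, map_sum]
  refine Finset.sum_congr rfl fun s _ => ?_
  rw [map_smul]
  congr 1
  unfold RA.bdT0
  rw [map_sum]
  refine Finset.sum_congr rfl fun i _ => ?_
  rw [Finsupp.linearCombination_single]

/-- the boundary as a linear map -/
noncomputable def dJL (V : Finset ℕ) : JC →ₗ[ℝ] JC where
  toFun := dJ V
  map_add' x y := by
    funext σ τ
    simp only [dJ, Pi.add_apply, mul_add, Finset.sum_add_distrib]
    ring
  map_smul' r x := by
    funext σ τ
    simp only [dJ, Pi.smul_apply, smul_eq_mul, RingHom.id_apply, mul_add, Finset.mul_sum]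
    congr 1 <;> refine Finset.sum_congr rfl fun a _ => ?_ <;> ring

theorem dJL_apply (V : Finset ℕ) (c : JC) : dJL V c = dJ V c := rfl

/-- the boundary of simplicial chains as a linear map -/
noncomputable def bdL (L : Finset (Finset ℕ)) : (Finset ℕ → ℝ) →ₗ[ℝ] (Finset ℕ → ℝ) where
  toFun := RA.bdS L
  map_add' x y := by
    funext t
    simp only [RA.bdS, Pi.add_apply, mul_add, Finset.sum_add_distrib]
  map_smul' r x := by
    funext t
    simp only [RA.bdS, Pi.smul_apply, smul_eq_mul, RingHom.id_apply, Finset.mul_sum]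
    refine Finset.sum_congr rfl fun a _ => ?_
    ring

theorem bdL_apply (L : Finset (Finset ℕ)) (c : Finset ℕ → ℝ) : bdL L c = RA.bdS L c := rfl

/-- distribution as a linear map -/
noncomputable def spL (A : Finset ℕ) : (Finset ℕ → ℝ) →ₗ[ℝ] JC where
  toFun := sp A
  map_add' x y := by
    funext σ τ
    simp only [sp, Pi.add_apply, mul_add]
    split_ifs <;> simp
  map_smul' r x := by
    funext σ τ
    simp only [sp, Pi.smul_apply, smul_eq_mul, RingHom.id_apply]
    split_ifs
    · ring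
    · simp

theorem spL_apply (A : Finset ℕ) (c : Finset ℕ → ℝ) : spL A c = sp A c := rfl

/-- chains of the deleted join as a submodule -/
def JS (L : Finset (Finset ℕ)) (k : ℕ) : Submodule ℝ JC where
  carrier := {c | IsJ L k c}
  add_mem' := by
    intro x y hx hy σ τ h
    by_cases h1 : x σ τ = 0
    · refine hy σ τ fun h2 => h ?_
      rw [Pi.add_apply, Pi.add_apply, h1, h2, add_zero]
    · exact hx σ τ h1
  zero_mem' := fun σ τ h => absurd rfl h
  smul_mem' := by
    intro r x hx σ τ h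
    refine hx σ τ fun h2 => h ?_
    rw [Pi.smul_apply, Pi.smul_apply, h2, smul_zero]

theorem mem_JS {L : Finset (Finset ℕ)} {k : ℕ} {c : JC} : c ∈ JS L k ↔ IsJ L k c := Iff.rfl

theorem fin0 {S : Type} (T T' : Fin 0 → S) : T = T' := funext fun i => i.elim0

/-- the pairs of entries of a compatible tuple of singletons are faces -/
theorem pair_mem {L : Finset (Finset ℕ)} {k : ℕ} {s : Fin k → Finset ℕ}
    (hs : CmpT L s) (h1 : ∀ i, (s i).card = 1) : (∀ i, s i = {pick (s i)}) ∧
    (∀ i, s i ∈ L) ∧ ∀ i j, ({pick (s i), pick (s j)} : Finset ℕ) ∈ L := by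
  have hp : ∀ i, s i = {pick (s i)} := by
    intro i
    obtain ⟨a, ha⟩ := Finset.card_eq_one.1 (h1 i)
    rw [ha]
    unfold pick
    rw [dif_pos (Finset.singleton_nonempty a)]
    simp
  have hm : ∀ i, s i ∈ L := by
    intro i
    obtain ⟨-, -, P, hP, Q, hQ, hPQ⟩ := hs.1 i
    by_cases h : P = ∅
    · rw [h, Finset.empty_union] at hPQ
      rwa [hPQ]
    · have h2 : P = s i := by
        refine Finset.eq_of_subset_of_card_le ?_ ?_
        · rw [hPQ]; exact Finset.subset_union_left
        · rw [h1 i]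
          exact Finset.card_pos.2 (Finset.nonempty_iff_ne_empty.2 h)
      rwa [← h2]
  refine ⟨hp, hm, fun i j => ?_⟩
  have key : pick (s i) = pick (s j) ∨ RA.Adj L (pick (s i)) (pick (s j)) := by
    have hi : ∀ i u, u ∈ s i ↔ u = pick (s i) := by
      intro i u
      constructor
      · intro h
        rw [hp i] at h
        exact Finset.mem_singleton.1 h
      · intro h
        rw [hp i]
        exact Finset.mem_singleton.2 h
    rcases hs.2 i j with h | h | ⟨u, hu, h⟩ | ⟨u, hu, h⟩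
    · left; rw [h]
    · right; exact h _ ((hi _ _).2 rfl) _ ((hi _ _).2 rfl)
    · left
      have h2 := (hi j u).1 hu
      have h3 : u ∈ s i := by rw [h]; exact Finset.mem_singleton_self u
      rw [← h2, ← (hi i u).1 h3]
    · left
      have h2 := (hi i u).1 hu
      have h3 : u ∈ s j := by rw [h]; exact Finset.mem_singleton_self u
      rw [← h2, ← (hi j u).1 h3]
  rcases key with h | h
  · rw [h, Finset.pair_eq_singleton, ← hp j]
    exact hm j
  · exact h.2

/-- the tuples in the support of `zeta` have a common vertex -/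
theorem zeta_supp {L : Finset (Finset ℕ)} (hf : FlagC L) {m : ℕ} {o : (Fin (m + 1) → ℕ) → ℤ}
    (ho : IsOrient L (m + 1) o) : ∀ T ∈ (RA.zeta L o).support, RA.KG L (RA.TrivP L) T := by
  intro T hT
  unfold RA.zeta at hT
  obtain ⟨s, -, hs⟩ := Finset.mem_biUnion.1 (Finsupp.support_finsetSum hT)
  obtain ⟨B, hB, hB'⟩ := Finset.mem_biUnion.1 (Finsupp.support_finsetSum hs)
  have h1 := Finsupp.support_single_subset hB'
  rw [Finset.mem_singleton] at h1
  have h2 : o s ≠ 0 := by
    intro h0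
    rw [h0] at hB'
    simp at hB'
  rw [h1]
  exact RA.zt_KG hf _ s (ho.2.1 s h2) hB

theorem kf_of_kg {L : Finset (Finset ℕ)} {k : ℕ} {T : Fin k → Finset ℕ}
    (h : RA.KG L (RA.TrivP L) T) : KF L T := by
  refine ⟨h.1, ?_⟩
  rcases h.2 with h2 | ⟨p, hp, -, h3⟩
  · exact Or.inl h2
  · refine Or.inr ⟨p, hp, fun i => (h3 i).2, ?_, ?_⟩
    · intro q hq
      obtain ⟨a, ha⟩ := hp.2.2.1
      refine ⟨a, ha, fun i => ?_⟩
      rcases (h3 i).1 with h4 | h4
      · exact Or.inl (h4.1 ha)
      · exact Or.inr (h4.1 hq)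
    · intro q hq
      obtain ⟨a, ha⟩ := hp.2.2.2.1
      refine ⟨a, ha, fun i => ?_⟩
      rcases (h3 i).1 with h4 | h4
      · exact Or.inl (h4.1 hq)
      · exact Or.inr (h4.1 ha)

theorem kf_comp {L : Finset (Finset ℕ)} {k l : ℕ} {T : Fin k → Finset ℕ} (h : KF L T)
    (g : Fin l → Fin k) : KF L fun i => T (g i) := by
  refine ⟨fun i => h.1 _, ?_⟩
  rcases h.2 with ⟨u, hu⟩ | ⟨p, hp, h1, h2, h3⟩
  · exact Or.inl ⟨u, fun i => hu _⟩
  · refine Or.inr ⟨p, hp, fun i => h1 _, fun q hq => ?_, fun q hq => ?_⟩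
    · obtain ⟨a, ha, h4⟩ := h2 q hq
      exact ⟨a, ha, fun i => h4 _⟩
    · obtain ⟨a, ha, h4⟩ := h3 q hq
      exact ⟨a, ha, fun i => h4 _⟩

theorem lin_sum {S M : Type} [AddCommGroup M] [Module ℝ M] {k : ℕ} (F : (Fin k → S) → M)
    (c : RA.Ch S k) : Finsupp.linearCombination ℝ F c = ∑ s ∈ c.support, c s • F s := by
  rw [Finsupp.linearCombination_apply]
  rfl

theorem lin_congr {S M : Type} [AddCommGroup M] [Module ℝ M] {k : ℕ} {F G : (Fin k → S) → M}
    {c : RA.Ch S k} (h : ∀ s ∈ c.support, F s = G s) :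
    Finsupp.linearCombination ℝ F c = Finsupp.linearCombination ℝ G c := by
  rw [lin_sum, lin_sum]
  exact Finset.sum_congr rfl fun s hs => by rw [h s hs]

theorem map_lin {S M M' : Type} [AddCommGroup M] [Module ℝ M] [AddCommGroup M'] [Module ℝ M']
    {k : ℕ} (φ : M →ₗ[ℝ] M') (F : (Fin k → S) → M) (c : RA.Ch S k) :
    φ (Finsupp.linearCombination ℝ F c) = Finsupp.linearCombination ℝ (fun s => φ (F s)) c := by
  rw [lin_sum, lin_sum, map_sum]
  exact Finset.sum_congr rfl fun s _ => map_smul _ _ _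

/-- the chain of an alternating function is supported on faces of the right size -/
theorem oF_supp {L : Finset (Finset ℕ)} {n : ℕ} {o : (Fin n → ℕ) → ℤ} (ho : IsOrient L n o)
    (t : Finset ℕ) (h : RA.oF o t ≠ 0) : t ∈ L ∧ t.card = n := by
  unfold RA.oF at h
  split_ifs at h with hc
  · refine ⟨?_, hc⟩
    have h1 : o (t.orderEmbOfFin hc) ≠ 0 := fun h0 => h (by rw [h0]; simp)
    have h2 := ho.2.1 _ h1
    have h3 : Finset.univ.image (t.orderEmbOfFin hc) = t := by
      ext a
      rw [Finset.mem_image]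
      constructor
      · rintro ⟨i, -, rfl⟩
        exact Finset.orderEmbOfFin_mem t hc i
      · intro ha
        have h4 : a ∈ Set.range (t.orderEmbOfFin hc) := by
          rw [Finset.range_orderEmbOfFin]
          exact ha
        obtain ⟨i, hi⟩ := h4
        exact ⟨i, Finset.mem_univ _, hi⟩
    rwa [h3] at h2
  · exact absurd rfl h

end P2

open Classical in
theorem prfP2 (hPS : S_PS3) (hNU : S_NU4) (hT2 : S_TH2) (hT3 : S_TH3) (h3 : S_SP3)
    (h4 : S_SP4) (h5 : S_SP5) (h6 : S_SP6) (hA : S_AC2) : S_P2 := by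
  intro L hf m hS o ho hb
  obtain ⟨b, hbs, hbd⟩ := hb
  obtain ⟨Ψ, hΨ0, hΨ1, hΨ2, hΨ3⟩ := hPS L hf
  -- the measures
  obtain ⟨ν, hν⟩ : ∃ ν : Finset ℕ → Finset ℕ → ℝ, ∀ C, Cls L C → 1 < C.card → IsNu L C (ν C) := by
    refine ⟨fun C => if h : Cls L C ∧ 1 < C.card then (hNU L hf C h.1 h.2).choose else 0,
      fun C hC hC1 => ?_⟩
    simp only [dif_pos (And.intro hC hC1)]
    exact (hNU L hf C hC hC1).choose_spec
  set V := verts L with hV
  -- the map to simplicial chains
  set ψ : ∀ k, (Fin k → Finset ℕ) → Finset ℕ → ℝ := fun k T =>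
    Finsupp.linearCombination ℝ (fun s : Fin k → Finset ℕ => altV k fun i => pick (s i)) (Ψ k T)
    with hψ
  have hpsi : RA.IsPsi L ψ := by
    refine ⟨fun T => ?_, fun k T hT t ht => ?_, fun k T hT => ?_⟩
    · simp only [hψ]
      rw [hΨ0 T, Finsupp.linearCombination_single, one_smul]
      rfl
    · simp only [hψ] at ht
      rw [P2.lin_sum, Finset.sum_apply] at ht
      obtain ⟨s, hs, hs2⟩ := Finset.exists_ne_zero_of_sum_ne_zero ht
      obtain ⟨hcm, hW⟩ := hΨ2 k T (P2.kf_of_kg hT) s hs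
      obtain ⟨hp, hm, hpr⟩ := P2.pair_mem hcm (hΨ3 k T hT s hs)
      have hs3 : altV k (fun i => pick (s i)) t ≠ 0 := by
        intro h0
        rw [Pi.smul_apply, h0, smul_zero] at hs2
        exact hs2 rfl
      obtain ⟨h7, h8, h9⟩ := (h3 L hf k).2 _ hpr t hs3
      refine ⟨h7, fun a ha => ?_, h9⟩
      obtain ⟨i, -, hi⟩ := Finset.mem_image.1 (h8 ha)
      refine hW i ?_
      rw [hp i, hi]
      exact Finset.mem_singleton_self a
    · simp only [hψ]
      rw [← P2.bdL_apply, P2.map_lin]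
      have h7 : ∀ s ∈ (Ψ (k + 1) T).support,
          (P2.bdL L) (altV (k + 1) fun i => pick (s i)) = ∑ i : Fin (k + 1),
            ((-1 : ℝ) ^ (i : ℕ)) • altV k fun j => pick (s (i.succAbove j)) := by
        intro s hs
        obtain ⟨hcm, hW⟩ := hΨ2 (k + 1) T (P2.kf_of_kg hT) s hs
        obtain ⟨hp, hm, hpr⟩ := P2.pair_mem hcm (hΨ3 (k + 1) T hT s hs)
        rw [P2.bdL_apply]
        exact (h3 L hf k).1 _ hpr
      rw [P2.lin_congr h7, ← P2.lin_bdT (fun s : Fin k → Finset ℕ => altV k fun i => pick (s i)),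
        hΨ1 k T, map_sum]
      refine Finset.sum_congr rfl fun i _ => ?_
      rw [map_smul]
  have hB7 := RA.itemB7 RA.itemB7a L hf m o ho ψ hpsi
  -- the map to the deleted join
  set Φ : ∀ k, (Fin k → Finset ℕ) → JC := fun k T =>
    Finsupp.linearCombination ℝ (Th L ν) (Ψ k T) with hΦ
  have hΦbd : ∀ k (T : Fin (k + 1) → Finset ℕ), KF L T →
      dJ V (Φ (k + 1) T) = ∑ i : Fin (k + 1), ((-1 : ℝ) ^ (i : ℕ)) • Φ k fun j => T (i.succAbove j) := by
    intro k T hT
    simp only [hΦ]
    rw [← P2.dJL_apply, P2.map_lin]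
    have h7 : ∀ s ∈ (Ψ (k + 1) T).support, (P2.dJL V) (Th L ν s) = ∑ i : Fin (k + 1),
        ((-1 : ℝ) ^ (i : ℕ)) • Th L ν fun j => s (i.succAbove j) := by
      intro s hs
      rw [P2.dJL_apply]
      exact hT2 L hf ν hν k s (hΨ2 (k + 1) T hT s hs).1
    rw [P2.lin_congr h7, ← P2.lin_bdT (Th L ν), hΨ1 k T, map_sum]
    refine Finset.sum_congr rfl fun i _ => ?_
    rw [map_smul]
  have hΦJ : ∀ k (T : Fin k → Finset ℕ), KF L T → Φ k T ∈ P2.JS L k := by
    intro k T hT
    simp only [hΦ]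
    rw [P2.lin_sum]
    refine Submodule.sum_mem _ fun s hs => Submodule.smul_mem _ _ ?_
    exact hT3 L hf ν hν k s (hΨ2 k T hT s hs).1
  set Bc : JC := Finsupp.linearCombination ℝ (Φ (m + 2)) b with hBc
  have hBJ : Bc ∈ P2.JS L (m + 2) := by
    rw [hBc, P2.lin_sum]
    exact Submodule.sum_mem _ fun T hT => Submodule.smul_mem _ _ (hΦJ _ T (hbs T hT))
  have hBd : dJ V Bc = Finsupp.linearCombination ℝ (Φ (m + 1)) (RA.zeta L o) := by
    rw [hBc, ← P2.dJL_apply, P2.map_lin, ← hbd, P2.lin_bdT]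
    refine P2.lin_congr fun T hT => ?_
    rw [P2.dJL_apply]
    exact hΦbd (m + 1) T (hbs T hT)
  -- the value on zeta
  have hval : Finsupp.linearCombination ℝ (Φ (m + 1)) (RA.zeta L o) =
      (-2 : ℝ) ^ m • ∑ A ∈ V.powerset, ((1 / 2 : ℝ) ^ V.card) • sp A (RA.oF o) := by
    have h7 : ∀ T ∈ (RA.zeta L o).support, Φ (m + 1) T =
        ∑ A ∈ V.powerset, ((1 / 2 : ℝ) ^ V.card) • sp A (ψ (m + 1) T) := by
      intro T hT
      have hKG := P2.zeta_supp hf ho T hT
      have h8 : ∀ s ∈ (Ψ (m + 1) T).support, Th L ν s =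
          (∑ A ∈ V.powerset, ((1 / 2 : ℝ) ^ V.card) • P2.spL A)
            (altV (m + 1) fun i => pick (s i)) := by
        intro s hs
        obtain ⟨hcm, -⟩ := hΨ2 _ T (P2.kf_of_kg hKG) s hs
        have h1 := hΨ3 _ T hKG s hs
        obtain ⟨-, hm, -⟩ := P2.pair_mem hcm h1
        rw [h4 L hf ν (m + 1) s fun i => ⟨hm i, h1 i⟩, LinearMap.sum_apply]
        rfl
      simp only [hΦ]
      rw [P2.lin_congr h8, ← P2.map_lin, LinearMap.sum_apply]
      rfl
    rw [P2.lin_congr h7]
    have h9 : ∀ T, (∑ A ∈ V.powerset, ((1 / 2 : ℝ) ^ V.card) • sp A (ψ (m + 1) T)) =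
        (∑ A ∈ V.powerset, ((1 / 2 : ℝ) ^ V.card) • P2.spL A) (ψ (m + 1) T) := by
      intro T
      rw [LinearMap.sum_apply]
      rfl
    simp only [h9]
    rw [← P2.map_lin, hB7, map_smul, LinearMap.sum_apply]
    rfl
  have hsupp : ∀ t, RA.oF o t ≠ 0 → t ∈ L ∧ t.card = m + 1 := P2.oF_supp ho
  rw [hval, h5 L hf (RA.oF o) fun t ht => (hsupp t ht).1] at hBd
  -- the distributions given by nonempty faces bound
  have hcyc : RA.bdS L (RA.oF o) = 0 := RA.h61_oFcycle ho
  have hy : ∀ A ∈ L, A.Nonempty → ∃ y : JC, IsJ L (m + 2) y ∧ dJ V y = sp A (RA.oF o) :=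
    fun A hA hAn => h6 L hf (m + 1) (RA.oF o) hsupp hcyc A hA hAn
  have hempty : ∅ ∈ L := (hf ∅).2 fun x hx => absurd hx (Finset.notMem_empty x)
  set Y : Finset ℕ → JC := fun A => if h : A ∈ L ∧ A.Nonempty then (hy A h.1 h.2).choose else 0
    with hY
  have hY1 : ∀ A ∈ L.erase ∅, Y A ∈ P2.JS L (m + 2) ∧ dJ V (Y A) = sp A (RA.oF o) := by
    intro A hA
    rw [Finset.mem_erase] at hA
    have h : A ∈ L ∧ A.Nonempty := ⟨hA.2, Finset.nonempty_iff_ne_empty.2 hA.1⟩
    simp only [hY, dif_pos h]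
    exact (hy A h.1 h.2).choose_spec
  set Z : JC := Bc - (-2 : ℝ) ^ m • ∑ A ∈ L.erase ∅, wN L V A • Y A with hZ
  have hZJ : IsJ L (m + 2) Z := by
    rw [← P2.mem_JS, hZ]
    refine Submodule.sub_mem _ hBJ (Submodule.smul_mem _ _ ?_)
    exact Submodule.sum_mem _ fun A hA => Submodule.smul_mem _ _ (hY1 A hA).1
  have hZd : dJ V Z = ((-2 : ℝ) ^ m * wN L V ∅) • sp ∅ (RA.oF o) := by
    rw [hZ, ← P2.dJL_apply, map_sub, map_smul, map_sum, P2.dJL_apply, hBd]
    have h7 : ∑ A ∈ L.erase ∅, (P2.dJL V) (wN L V A • Y A) =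
        ∑ A ∈ L.erase ∅, wN L V A • sp A (RA.oF o) := by
      refine Finset.sum_congr rfl fun A hA => ?_
      rw [map_smul, P2.dJL_apply, (hY1 A hA).2]
    rw [h7, ← smul_sub, ← Finset.add_sum_erase L _ hempty, add_sub_cancel_right, smul_smul]
  have hfin := hA L hf m hS o ho Z hZJ _ hZd
  have h2 : (-2 : ℝ) ^ m ≠ 0 := pow_ne_zero _ (by norm_num)
  have h7 := (mul_eq_zero.1 hfin).resolve_left h2
  rw [← h7]
  unfold wN
  have h8 : L.filter (fun G => ∅ ⊆ G ∧ G ⊆ V) = L := by
    refine Finset.filter_true_of_mem fun G hG => ⟨Finset.empty_subset _, fun a ha => ?_⟩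
    rw [hV]
    unfold verts
    rw [Finset.mem_biUnion]
    exact ⟨G, hG, ha⟩
  rw [h8]
  refine Finset.sum_congr rfl fun G _ => ?_
  rw [Finset.sdiff_empty, ← mul_pow]
  norm_num

end MP8a95ee.Npc

end

section

/-!
# PS1: existence of a class for a tuple (helper61)
-/

set_option autoImplicit false

namespace MP8a95ee.Npc

open Classical

namespace PS1

theorem face_sub {L : Finset (Finset ℕ)} (hL : FlagC L) {s t : Finset ℕ} (hs : s ∈ L)
    (h : t ⊆ s) : t ∈ L := by
  rw [hL]
  intro x hx y hy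
  exact (hL s).1 hs x (h hx) y (h hy)

theorem adj_of_face {L : Finset (Finset ℕ)} (hL : FlagC L) {s : Finset ℕ} (hs : s ∈ L) {a b : ℕ}
    (ha : a ∈ s) (hb : b ∈ s) (hab : a ≠ b) : RA.Adj L a b := by
  refine ⟨hab, face_sub hL hs ?_⟩
  intro x hx
  rw [Finset.mem_insert, Finset.mem_singleton] at hx
  rcases hx with rfl | rfl
  · exact ha
  · exact hb

theorem adj_symm {L : Finset (Finset ℕ)} {a b : ℕ} (h : RA.Adj L a b) : RA.Adj L b a := by
  refine ⟨h.1.symm, ?_⟩
  rw [Finset.pair_comm]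
  exact h.2

/-- singletons are classes -/
theorem cls_single {L : Finset (Finset ℕ)} {u : ℕ} (hu : ({u} : Finset ℕ) ∈ L) : Cls L {u} := by
  refine ⟨Finset.singleton_nonempty u, ?_, {u}, hu, {u}, hu, (Finset.union_self _).symm⟩
  intro D hD hne hneq
  exact absurd ((Finset.subset_singleton_iff.1 hD).resolve_left hne.ne_empty) hneq

/-- the case of a common vertex -/
theorem cand_inK {L : Finset (Finset ℕ)} (hL : FlagC L) {k : ℕ} {T : Fin (k + 1) → Finset ℕ}
    (hT : ∀ i, T i ∈ L) {u : ℕ} (hu : ∀ i, u ∈ T i) : Cand L T {u} := by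
  refine ⟨cls_single (face_sub hL (hT 0) (Finset.singleton_subset_iff.2 (hu 0))), ?_, ?_, ?_⟩
  · intro i t ht htu c hc
    rw [Finset.mem_singleton] at htu hc
    rw [hc]
    exact adj_of_face hL (hT i) ht (hu i) htu
  · intro l g hg
    exact absurd ⟨u, fun i => hu (g i)⟩ hg
  · intro _
    exact ⟨u, rfl, hu⟩

/-- a connected closed subset -/
theorem exists_conn (L : Finset (Finset ℕ)) (C0 : Finset ℕ) (h0 : C0.Nonempty) :
    ∃ C ⊆ C0, C.Nonempty ∧ Conn L C ∧ ∀ a ∈ C, ∀ b ∈ C0, b ∉ C → RA.Adj L a b := by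
  obtain ⟨S, hS⟩ : ∃ S : Finset (Finset ℕ), S = C0.powerset.filter fun D =>
    D.Nonempty ∧ ∀ a ∈ D, ∀ b ∈ C0, b ∉ D → RA.Adj L a b := ⟨_, rfl⟩
  have memS : ∀ D, D ∈ S ↔ D ⊆ C0 ∧ D.Nonempty ∧ ∀ a ∈ D, ∀ b ∈ C0, b ∉ D → RA.Adj L a b := by
    intro D
    rw [hS, Finset.mem_filter, Finset.mem_powerset]
  have hne : S.Nonempty := ⟨C0, (memS C0).2 ⟨subset_rfl, h0, fun _ _ b hb hb' => absurd hb hb'⟩⟩
  obtain ⟨C, hC, hmin⟩ := Finset.exists_min_image S Finset.card hne
  obtain ⟨h1, h2, h3⟩ := (memS C).1 hC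
  refine ⟨C, h1, h2, ?_, h3⟩
  intro D hD hDne hDC
  by_contra hcon
  push Not at hcon
  have hDS : D ∈ S := by
    rw [memS]
    refine ⟨hD.trans h1, hDne, ?_⟩
    intro a ha b hb hbD
    by_cases hbC : b ∈ C
    · exact hcon a ha b hbC hbD
    · exact h3 a (hD ha) b hb hbC
  have h4 := hmin D hDS
  exact hDC (Finset.eq_of_subset_of_card_le hD h4)

end PS1

theorem prfPS1 : S_PS1 := by
  intro L hL k T hT
  by_cases hK : RA.InK T
  · obtain ⟨u, hu⟩ := hK
    have h := PS1.cand_inK hL (fun i => (hT.1 i).1) hu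
    exact ⟨⟨_, h⟩, fun _ => ⟨u, h⟩⟩
  · constructor
    · obtain ⟨⟨P, Q⟩, hgood, hFC⟩ := hT.2.resolve_left hK
      obtain ⟨hP, hQ, hPne, hQne, hdis⟩ := hgood
      obtain ⟨h1, h2, h3⟩ := hFC
      dsimp only at hP hQ hPne hQne hdis h1 h2 h3
      obtain ⟨C, hC0, hCne, hconn, hclo⟩ := PS1.exists_conn L (P ∪ Q) (hPne.mono
        Finset.subset_union_left)
      refine ⟨C, ⟨hCne, hconn, P ∩ C, PS1.face_sub hL hP Finset.inter_subset_left, Q ∩ C,
        PS1.face_sub hL hQ Finset.inter_subset_left, ?_⟩, ?_, ?_, fun h => absurd h hK⟩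
      · rw [← Finset.union_inter_distrib_right]
        exact (Finset.inter_eq_right.2 hC0).symm
      · intro i t ht htC c hc
        by_cases htC0 : t ∈ P ∪ Q
        · exact PS1.adj_symm (hclo c hc t htC0 htC)
        · exact h1 i t ht htC0 c (hC0 hc)
      · intro l g hg
        refine hC0.trans ?_
        intro x hx
        by_contra hxW
        have hxW' : ∀ i, x ∉ T (g i) := by
          intro i hi
          apply hxW
          unfold RA.Wt
          rw [Finset.mem_biUnion]
          exact ⟨i, Finset.mem_univ i, hi⟩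
        rcases Finset.mem_union.1 hx with hx | hx
        · obtain ⟨q, -, hq⟩ := h3 x hx
          exact hg ⟨q, fun i => (hq (g i)).resolve_left (hxW' i)⟩
        · obtain ⟨p, -, hp⟩ := h2 x hx
          exact hg ⟨p, fun i => (hp (g i)).resolve_right (hxW' i)⟩
    · intro hKG
      obtain ⟨⟨P, Q⟩, hgood, htriv, hF⟩ := hKG.2.resolve_left hK
      obtain ⟨hP, hQ, hPne, hQne, hdis⟩ := hgood
      unfold RA.TrivP at htriv
      unfold RA.FPQ at hF
      dsimp only at hP hQ hPne hQne hdis htriv hF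
      obtain ⟨p, hp⟩ := hPne
      have hpPQ : p ∈ P ∪ Q := Finset.mem_union_left _ hp
      refine ⟨p, PS1.cls_single (PS1.face_sub hL hP (Finset.singleton_subset_iff.2 hp)), ?_, ?_,
        fun h => absurd h hK⟩
      · intro i t ht htp c hc
        rw [Finset.mem_singleton] at htp hc
        rw [hc]
        by_cases ht0 : t ∈ P ∪ Q
        · exact PS1.adj_of_face hL htriv ht0 hpPQ htp
        · exact (hF i).2 t ht ht0 p hpPQ
      · intro l g hg
        rw [Finset.singleton_subset_iff]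
        by_contra hpW
        obtain ⟨q, hq⟩ := hQne
        apply hg
        refine ⟨q, fun i => ?_⟩
        rcases (hF (g i)).1 with h | h
        · exfalso
          apply hpW
          unfold RA.Wt
          rw [Finset.mem_biUnion]
          exact ⟨i, Finset.mem_univ i, h.1 hp⟩
        · exact h.1 hq

end MP8a95ee.Npc

end

section

/-!
# Nonpositively curved cubulations: PS2, the choices are compatible
-/

set_option autoImplicit false

namespace MP8a95ee.Npc

namespace PS2

theorem adj_symm {L : Finset (Finset ℕ)} {a b : ℕ} (h : RA.Adj L a b) : RA.Adj L b a := by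
  refine ⟨fun e => h.1 e.symm, ?_⟩
  rw [Finset.pair_comm]
  exact h.2

theorem mem_Wt {k : ℕ} {T : Fin k → Finset ℕ} {a : ℕ} : a ∈ RA.Wt T ↔ ∃ i, a ∈ T i := by
  simp [RA.Wt]

/-- one half of the equality of two classes which are not disjoint -/
theorem sub_of {L : Finset (Finset ℕ)} {W C C' : Finset ℕ} (hcon : Conn L C) (hC : C ⊆ W)
    (hadj : ∀ t ∈ W, t ∉ C' → ∀ c ∈ C', RA.Adj L t c) (hne : (C ∩ C').Nonempty) : C ⊆ C' := by
  classical
  by_contra hsub
  have hD : C ∩ C' ≠ C := fun e => hsub (Finset.inter_eq_left.mp e)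
  obtain ⟨a, ha, b, hb, hbD, hnad⟩ := hcon (C ∩ C') Finset.inter_subset_left hne hD
  have ha' := (Finset.mem_inter.mp ha).2
  have hb' : b ∉ C' := fun h => hbD (Finset.mem_inter.mpr ⟨hb, h⟩)
  exact hnad (adj_symm (hadj b (hC hb) hb' a ha'))

end PS2

open PS2 in
theorem prfPS2 : S_PS2 := by
  classical
  intro L _ k l T g C C' hC hC'
  obtain ⟨hcls, hout, hsub, hin⟩ := hC
  obtain ⟨hcls', hout', hsub', hin'⟩ := hC'
  by_cases hK : RA.InK (fun i => T (g i))
  · obtain ⟨u, hu, huT⟩ := hin' hK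
    by_cases huC : u ∈ C
    · exact Or.inr (Or.inr (Or.inr ⟨u, huC, hu⟩))
    · refine Or.inr (Or.inl ?_)
      intro a ha b hb
      rw [hu, Finset.mem_singleton] at hb
      rw [hb]
      exact adj_symm (hout (g 0) u (huT 0) huC a ha)
  · have h1 : C ⊆ RA.Wt (fun i => T (g i)) := hsub l g hK
    have h2 : C' ⊆ RA.Wt (fun i => T (g i)) := hsub' l id hK
    have h3 : ∀ t ∈ RA.Wt (fun i => T (g i)), t ∉ C → ∀ c ∈ C, RA.Adj L t c := by
      intro t ht
      obtain ⟨i, hi⟩ := mem_Wt.mp ht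
      exact hout (g i) t hi
    have h4 : ∀ t ∈ RA.Wt (fun i => T (g i)), t ∉ C' → ∀ c ∈ C', RA.Adj L t c := by
      intro t ht
      obtain ⟨i, hi⟩ := mem_Wt.mp ht
      exact hout' i t hi
    by_cases hne : (C ∩ C').Nonempty
    · left
      refine Finset.Subset.antisymm (sub_of hcls.2.1 h1 h4 hne) (sub_of hcls'.2.1 h2 h3 ?_)
      rwa [Finset.inter_comm]
    · refine Or.inr (Or.inl ?_)
      intro a ha b hb
      have hbC : b ∉ C := fun h => hne ⟨b, Finset.mem_inter.mpr ⟨h, hb⟩⟩
      exact adj_symm (h3 b (h2 hb) hbC a ha)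

end MP8a95ee.Npc

end

section

/-!
# SP1: distribution and multiplication
-/

set_option autoImplicit false

namespace MP8a95ee.Npc

open Classical

namespace SP1

theorem sgnA {a : ℕ} {σ τ : Finset ℕ} (ha : a ∈ τ) (hd : Disjoint σ τ) :
    RA.sgg σ τ * RA.sg a (σ ∪ τ.erase a) =
      (-1) ^ σ.card * RA.sg a (τ.erase a) * RA.sgg σ (τ.erase a) := by
  have hσ : a ∉ σ := fun h => Finset.disjoint_left.1 hd h ha
  have h1 : RA.sgg σ τ = RA.h61_gts a σ * RA.sgg σ (τ.erase a) := by
    conv_lhs => rw [← Finset.insert_erase ha]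
    exact RA.h61_right σ (Finset.notMem_erase a τ)
  have h2 : Disjoint σ (τ.erase a) := hd.mono_right (Finset.erase_subset _ _)
  rw [h1, RA.h61_union a h2, ← RA.h61_epsgts hσ]
  ring

theorem sgnP {a : ℕ} {σ τ : Finset ℕ} (ha : a ∈ σ) (hd : Disjoint σ τ) :
    RA.sgg σ τ * RA.sg a (σ.erase a ∪ τ) =
      RA.sg a (σ.erase a) * RA.sgg (σ.erase a) τ := by
  have h1 : RA.sgg σ τ = RA.sg a τ * RA.sgg (σ.erase a) τ := by
    conv_lhs => rw [← Finset.insert_erase ha]
    exact RA.h61_left τ (Finset.notMem_erase a σ)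
  have h2 : Disjoint (σ.erase a) τ := hd.mono_left (Finset.erase_subset _ _)
  rw [h1, RA.h61_union a h2]
  calc RA.sg a τ * RA.sgg (σ.erase a) τ * (RA.sg a (σ.erase a) * RA.sg a τ)
      = (RA.sg a τ * RA.sg a τ) * (RA.sg a (σ.erase a) * RA.sgg (σ.erase a) τ) := by ring
    _ = _ := by rw [RA.sg_sq, one_mul]

end SP1

theorem prfSP1 : S_SP1 := by
  intro A a c
  funext σ τ
  by_cases hA : a ∈ A
  · rw [if_pos hA]
    unfold sp wV wM
    dsimp only
    by_cases hc : Disjoint σ A ∧ τ ⊆ A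
    · rw [if_pos hc]
      have haσ : a ∉ σ := fun h => Finset.disjoint_left.1 hc.1 h hA
      by_cases hτ : a ∈ τ
      · have hd : Disjoint σ τ := hc.1.mono_right hc.2
        have he : (σ ∪ τ).erase a = σ ∪ τ.erase a := by
          rw [Finset.erase_union_distrib, Finset.erase_eq_of_notMem haσ]
        rw [if_pos (Finset.mem_union_right _ hτ), if_pos hτ,
          if_pos ⟨hc.1, (Finset.erase_subset _ _).trans hc.2⟩, he, ← mul_assoc, SP1.sgnA hτ hd]
        ring
      · rw [if_neg (by simp [haσ, hτ]), if_neg hτ, mul_zero]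
    · rw [if_neg hc]
      by_cases hτ : a ∈ τ
      · rw [if_pos hτ, if_neg, mul_zero]
        rintro ⟨h1, h2⟩
        refine hc ⟨h1, fun x hx => ?_⟩
        by_cases hxa : x = a
        · rw [hxa]; exact hA
        · exact h2 (Finset.mem_erase.2 ⟨hxa, hx⟩)
      · rw [if_neg hτ]
  · rw [if_neg hA]
    unfold sp wV wP
    dsimp only
    by_cases hc : Disjoint σ A ∧ τ ⊆ A
    · rw [if_pos hc]
      have haτ : a ∉ τ := fun h => hA (hc.2 h)
      by_cases hσ : a ∈ σ
      · have hd : Disjoint σ τ := hc.1.mono_right hc.2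
        have he : (σ ∪ τ).erase a = σ.erase a ∪ τ := by
          rw [Finset.erase_union_distrib, Finset.erase_eq_of_notMem haτ]
        rw [if_pos (Finset.mem_union_left _ hσ), if_pos hσ,
          if_pos ⟨hc.1.mono_left (Finset.erase_subset _ _), hc.2⟩, he, ← mul_assoc,
          SP1.sgnP hσ hd]
        ring
      · rw [if_neg (by simp [haτ, hσ]), if_neg hσ, mul_zero]
    · rw [if_neg hc]
      by_cases hσ : a ∈ σ
      · rw [if_pos hσ, if_neg, mul_zero]
        rintro ⟨h1, h2⟩
        refine hc ⟨Finset.disjoint_left.2 fun x hx hxA => ?_, h2⟩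
        by_cases hxa : x = a
        · exact hA (hxa ▸ hxA)
        · exact Finset.disjoint_left.1 h1 (Finset.mem_erase.2 ⟨hxa, hx⟩) hxA
      · rw [if_neg hσ]

end MP8a95ee.Npc

end

section

/-!
# SP2: distribution and boundary
-/

set_option autoImplicit false

namespace MP8a95ee.Npc

open Classical

namespace SP2

theorem sp_pos {A σ τ : Finset ℕ} (c : Finset ℕ → ℝ) (h : Disjoint σ A ∧ τ ⊆ A) :
    sp A c σ τ = RA.sgg σ τ * c (σ ∪ τ) := by
  unfold sp
  rw [if_pos h]

theorem sp_neg {A σ τ : Finset ℕ} (c : Finset ℕ → ℝ) (h : ¬ (Disjoint σ A ∧ τ ⊆ A)) :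
    sp A c σ τ = 0 := by
  unfold sp
  rw [if_neg h]

theorem first {A σ τ V : Finset ℕ} (c : Finset ℕ → ℝ) (h : Disjoint σ A ∧ τ ⊆ A) :
    ∑ a ∈ V \ σ, RA.sg a σ * sp A c (insert a σ) τ =
      ∑ a ∈ V \ (σ ∪ τ), if a ∈ A then 0 else
        RA.sgg σ τ * (RA.sg a (σ ∪ τ) * c (insert a (σ ∪ τ))) := by
  have hd : Disjoint σ τ := h.1.mono_right h.2
  symm
  rw [Finset.sum_subset (Finset.sdiff_subset_sdiff (Finset.Subset.refl V)
    (Finset.subset_union_left (s₁ := σ) (s₂ := τ)))]
  · refine Finset.sum_congr rfl fun a ha => ?_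
    have haσ : a ∉ σ := (Finset.mem_sdiff.1 ha).2
    by_cases hA : a ∈ A
    · rw [if_pos hA, sp_neg, mul_zero]
      exact fun h' => Finset.disjoint_left.1 h'.1 (Finset.mem_insert_self _ _) hA
    · rw [if_neg hA, sp_pos c ⟨Finset.disjoint_insert_left.2 ⟨hA, h.1⟩, h.2⟩,
        RA.h61_left τ haσ, RA.h61_union a hd, Finset.insert_union]
      ring
  · intro a ha hna
    rw [if_pos]
    rw [Finset.mem_sdiff] at ha hna
    by_contra hA
    exact hna ⟨ha.1, fun h' => (Finset.mem_union.1 h').elim ha.2 fun h'' => hA (h.2 h'')⟩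

theorem second {A σ τ V : Finset ℕ} (c : Finset ℕ → ℝ) (h : Disjoint σ A ∧ τ ⊆ A) :
    ∑ a ∈ V \ τ, (-1) ^ σ.card * RA.sg a τ * sp A c σ (insert a τ) =
      ∑ a ∈ V \ (σ ∪ τ), if a ∈ A then
        RA.sgg σ τ * (RA.sg a (σ ∪ τ) * c (insert a (σ ∪ τ))) else 0 := by
  have hd : Disjoint σ τ := h.1.mono_right h.2
  symm
  rw [Finset.sum_subset (Finset.sdiff_subset_sdiff (Finset.Subset.refl V)
    (Finset.subset_union_right (s₁ := σ) (s₂ := τ)))]
  · refine Finset.sum_congr rfl fun a ha => ?_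
    have haτ : a ∉ τ := (Finset.mem_sdiff.1 ha).2
    by_cases hA : a ∈ A
    · have haσ : a ∉ σ := fun h' => Finset.disjoint_left.1 h.1 h' hA
      have h2 := RA.h61_sign2 haσ haτ hd
      have h3 : ((-1 : ℝ) ^ σ.card) * (-1) ^ σ.card = 1 := by
        rw [← pow_add, ← two_mul, pow_mul]
        norm_num
      rw [if_pos hA, sp_pos c ⟨h.1, Finset.insert_subset hA h.2⟩, Finset.union_insert]
      calc RA.sgg σ τ * (RA.sg a (σ ∪ τ) * c (insert a (σ ∪ τ)))
          = (((-1 : ℝ) ^ σ.card) * (-1) ^ σ.card) *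
            (RA.sgg σ τ * (RA.sg a (σ ∪ τ) * c (insert a (σ ∪ τ)))) := by rw [h3, one_mul]
        _ = (-1) ^ σ.card * ((-1) ^ σ.card * (RA.sg a (σ ∪ τ) * RA.sgg σ τ)) *
            c (insert a (σ ∪ τ)) := by ring
        _ = _ := by rw [← h2]; ring
    · rw [if_neg hA, sp_neg, mul_zero]
      exact fun h' => hA (h'.2 (Finset.mem_insert_self _ _))
  · intro a ha hna
    rw [if_neg]
    rw [Finset.mem_sdiff] at ha hna
    intro hA
    exact hna ⟨ha.1, fun h' => (Finset.mem_union.1 h').elim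
      (fun h'' => Finset.disjoint_left.1 h.1 h'' hA) ha.2⟩

end SP2

theorem prfSP2 : S_SP2 := by
  intro L _ A c _
  funext σ τ
  unfold dJ
  by_cases h : Disjoint σ A ∧ τ ⊆ A
  · rw [SP2.first c h, SP2.second c h, ← Finset.sum_add_distrib, SP2.sp_pos _ h]
    unfold RA.bdS
    rw [Finset.mul_sum]
    refine Finset.sum_congr rfl fun a _ => ?_
    by_cases hA : a ∈ A
    · rw [if_pos hA, if_pos hA, zero_add]
    · rw [if_neg hA, if_neg hA, add_zero]
  · rw [SP2.sp_neg _ h, Finset.sum_eq_zero, Finset.sum_eq_zero, add_zero]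
    · intro a _
      rw [SP2.sp_neg, mul_zero]
      exact fun h' => h ⟨h'.1, (Finset.subset_insert _ _).trans h'.2⟩
    · intro a _
      rw [SP2.sp_neg, mul_zero]
      exact fun h' => h ⟨h'.1.mono_left (Finset.subset_insert _ _), h'.2⟩

end MP8a95ee.Npc

end

section

/-!
# SP3: tuples of vertices of `L`
-/

set_option autoImplicit false

namespace MP8a95ee.Npc

open Classical

namespace SP3

theorem wV_eq (v : ℕ) (c : Finset ℕ → ℝ) : wV v c = RA.coneS v c := by
  funext t
  unfold wV RA.coneS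
  split_ifs <;> rfl

theorem bdS_wV {L : Finset (Finset ℕ)} {v : ℕ} (hv : v ∈ verts L) (c : Finset ℕ → ℝ) :
    RA.bdS L (wV v c) = c - wV v (RA.bdS L c) := by
  rw [wV_eq, wV_eq, RA.bdS_coneS hv]
  rfl

theorem wV_smul (v : ℕ) (r : ℝ) (c : Finset ℕ → ℝ) : wV v (r • c) = r • wV v c := by
  funext t
  simp only [wV, Pi.smul_apply, smul_eq_mul]
  split_ifs
  · ring
  · ring

theorem wV_sum {ι : Type} (s : Finset ι) (v : ℕ) (c : ι → Finset ℕ → ℝ) :
    wV v (∑ i ∈ s, c i) = ∑ i ∈ s, wV v (c i) := by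
  funext t
  simp only [wV, Finset.sum_apply]
  split_ifs
  · rw [Finset.mul_sum]
  · simp

theorem alt0 (L : Finset (Finset ℕ)) (a : Fin 0 → ℕ) : RA.bdS L (altV 0 a) = 0 := by
  funext t
  unfold RA.bdS altV
  refine Finset.sum_eq_zero fun x _ => ?_
  rw [if_neg (Finset.insert_ne_empty _ _), mul_zero]

theorem bd {L : Finset (Finset ℕ)} : ∀ (k : ℕ) (a : Fin (k + 1) → ℕ),
    (∀ i, a i ∈ verts L) → RA.bdS L (altV (k + 1) a) =
      ∑ i : Fin (k + 1), ((-1 : ℝ) ^ (i : ℕ)) • altV k fun j => a (i.succAbove j) := by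
  intro k
  induction k with
  | zero =>
    intro a ha
    have h1 : altV 1 a = wV (a 0) (altV 0 fun i => a i.succ) := rfl
    rw [h1, bdS_wV (ha 0), alt0, Fin.sum_univ_one]
    have h2 : wV (a 0) (0 : Finset ℕ → ℝ) = 0 := by
      funext t
      simp [wV]
    rw [h2, sub_zero]
    funext t
    simp [altV]
  | succ k ih =>
    intro a ha
    have h1 : altV (k + 2) a = wV (a 0) (altV (k + 1) fun i => a i.succ) := rfl
    rw [h1, bdS_wV (ha 0), ih _ fun i => ha _, wV_sum]
    conv_rhs => rw [Fin.sum_univ_succ]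
    have h3 : (fun j : Fin (k + 1) => a ((0 : Fin (k + 2)).succAbove j)) = fun j => a j.succ := by
      funext j
      rw [Fin.zero_succAbove]
    rw [h3]
    simp only [Fin.val_zero, pow_zero, one_smul]
    rw [sub_eq_add_neg, ← Finset.sum_neg_distrib]
    congr 1
    refine Finset.sum_congr rfl fun i _ => ?_
    rw [wV_smul]
    have h4 : altV (k + 1) (fun j => a (i.succ.succAbove j)) =
        wV (a 0) (altV k fun j => a ((i.succAbove j).succ)) := by
      show wV (a (i.succ.succAbove 0)) (altV k fun j => a (i.succ.succAbove j.succ)) = _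
      rw [Fin.succ_succAbove_zero]
      simp only [Fin.succ_succAbove_succ]
    rw [h4, Fin.val_succ, pow_succ, mul_neg_one, neg_smul]

theorem sup : ∀ (k : ℕ) (a : Fin k → ℕ) (t : Finset ℕ),
    altV k a t ≠ 0 → t ⊆ Finset.univ.image a ∧ t.card = k := by
  intro k
  induction k with
  | zero =>
    intro a t h
    unfold altV at h
    by_cases ht : t = ∅
    · rw [ht]; simp
    · rw [if_neg ht] at h
      exact absurd rfl h
  | succ k ih =>
    intro a t h
    have h' : wV (a 0) (altV k fun i => a i.succ) t ≠ 0 := h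
    unfold wV at h'
    by_cases ht : a 0 ∈ t
    · rw [if_pos ht] at h'
      obtain ⟨h1, h2⟩ := ih _ _ (right_ne_zero_of_mul h')
      constructor
      · intro x hx
        by_cases hxa : x = a 0
        · rw [hxa]; exact Finset.mem_image_of_mem _ (Finset.mem_univ _)
        · obtain ⟨i, _, hi⟩ := Finset.mem_image.1 (h1 (Finset.mem_erase.2 ⟨hxa, hx⟩))
          exact Finset.mem_image.2 ⟨i.succ, Finset.mem_univ _, hi⟩
      · rw [← h2, Finset.card_erase_of_mem ht]
        have := Finset.card_pos.2 ⟨_, ht⟩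
        omega
    · rw [if_neg ht] at h'
      exact absurd rfl h'

end SP3

theorem prfSP3 : S_SP3 := by
  intro L hL k
  constructor
  · intro a ha
    refine SP3.bd k a fun i => ?_
    have := ha i i
    rw [Finset.pair_eq_singleton] at this
    exact Finset.mem_biUnion.2 ⟨_, this, Finset.mem_singleton_self _⟩
  · intro a ha t ht
    obtain ⟨h1, h2⟩ := SP3.sup k a t ht
    refine ⟨(hL t).2 fun x hx y hy => ?_, h1, h2⟩
    obtain ⟨i, _, hi⟩ := Finset.mem_image.1 (h1 hx)
    obtain ⟨j, _, hj⟩ := Finset.mem_image.1 (h1 hy)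
    rw [← hi, ← hj]
    exact ha i j

end MP8a95ee.Npc

end

section

set_option autoImplicit false

namespace MP8a95ee.Npc

open Classical

namespace SP4

theorem pick_singleton (a : ℕ) : pick {a} = a := by
  unfold pick
  rw [dif_pos (Finset.singleton_nonempty a)]
  simp

theorem ph_singleton (L : Finset (Finset ℕ)) (A : Finset ℕ) (a : ℕ) (ha : ({a} : Finset ℕ) ∈ L) :
    ph L A {a} = (a, decide (a ∈ A)) := by
  unfold ph
  by_cases h : a ∈ A
  · have e : A ∩ {a} = {a} := Finset.inter_singleton_of_mem h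
    rw [e, if_pos ⟨ha, Finset.singleton_nonempty a⟩, pick_singleton]
    simp [h]
  · have e : A ∩ {a} = ∅ := Finset.inter_singleton_of_notMem h
    rw [e, if_neg (fun h' => Finset.not_nonempty_empty h'.2)]
    have e' : ({a} : Finset ℕ) \ A = {a} := by
      ext x
      simp only [Finset.mem_sdiff, Finset.mem_singleton]
      constructor
      · exact fun hx => hx.1
      · rintro rfl
        exact ⟨rfl, h⟩
    rw [e', pick_singleton]
    simp [h]

theorem alt_eq (h1 : S_SP1) (L : Finset (Finset ℕ)) (A : Finset ℕ) (k : ℕ) :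
    ∀ s : Fin k → Finset ℕ, (∀ i, s i ∈ L ∧ (s i).card = 1) →
    altJ k (fun i => ph L A (s i)) = sp A (altV k fun i => pick (s i)) := by
  induction k with
  | zero =>
    intro s _
    funext σ τ
    simp only [altJ, altV, sp]
    by_cases h : σ = ∅ ∧ τ = ∅
    · obtain ⟨rfl, rfl⟩ := h
      simp [RA.sgg]
    · rw [if_neg h]
      split_ifs with h2 h3
      · exact absurd (Finset.union_eq_empty.1 h3) h
      · simp
      · rfl
  | succ k ih =>
    intro s hs
    simp only [altJ, altV]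
    rw [h1 A, ← ih (fun i => s i.succ) (fun i => hs i.succ)]
    obtain ⟨a, ha⟩ := Finset.card_eq_one.1 (hs 0).2
    have haL : ({a} : Finset ℕ) ∈ L := ha ▸ (hs 0).1
    rw [ha, ph_singleton L A a haL, pick_singleton]
    unfold wJ
    by_cases h : a ∈ A
    · simp [h]
    · simp [h]

theorem dens_eq (ν : Finset ℕ → Finset ℕ → ℝ) (V : Finset ℕ) {k : ℕ} (s : Fin k → Finset ℕ)
    (hs : ∀ i, (s i).card = 1) (A : Finset ℕ) : dens ν V s A = (1 / 2) ^ V.card := by
  unfold dens
  have e : (Finset.univ.image s).filter (fun C => 1 < C.card) = ∅ := by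
    rw [Finset.filter_eq_empty_iff]
    intro C hC
    obtain ⟨i, _, rfl⟩ := Finset.mem_image.1 hC
    rw [hs i]
    simp
  rw [e, Finset.prod_empty, mul_one]

end SP4

theorem prfSP4 (h1 : S_SP1) : S_SP4 := by
  intro L hL ν k s hs
  unfold Th
  refine Finset.sum_congr rfl fun A _ => ?_
  rw [SP4.dens_eq ν _ s (fun i => (hs i).2), SP4.alt_eq h1 L A k s hs]

end MP8a95ee.Npc

end

section

set_option autoImplicit false

namespace MP8a95ee.Npc

open Classical

namespace SP5

/-- the number of subsets of `V` which meet `E` in `τ` -/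
theorem count (V E τ : Finset ℕ) (hE : E ⊆ V) (hτ : τ ⊆ E) :
    (V.powerset.filter (fun A => A ∩ E = τ)).card = 2 ^ (V.card - E.card) := by
  have h : V.powerset.filter (fun A => A ∩ E = τ) = (V \ E).powerset.image (fun B => B ∪ τ) := by
    ext A
    simp only [Finset.mem_filter, Finset.mem_powerset, Finset.mem_image]
    constructor
    · rintro ⟨hA, hAE⟩
      refine ⟨A \ E, ?_, ?_⟩
      · intro x hx
        rw [Finset.mem_sdiff] at hx ⊢
        exact ⟨hA hx.1, hx.2⟩
      · rw [← hAE]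
        exact Finset.sdiff_union_inter A E
    · rintro ⟨B, hB, rfl⟩
      constructor
      · intro x hx
        rw [Finset.mem_union] at hx
        rcases hx with hx | hx
        · exact (Finset.mem_sdiff.1 (hB hx)).1
        · exact hE (hτ hx)
      · ext x
        simp only [Finset.mem_inter, Finset.mem_union]
        constructor
        · rintro ⟨hx | hx, hxE⟩
          · exact absurd hxE (Finset.mem_sdiff.1 (hB hx)).2
          · exact hx
        · intro hx
          exact ⟨Or.inr hx, hτ hx⟩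
  rw [h, Finset.card_image_of_injOn, Finset.card_powerset, Finset.card_sdiff_of_subset hE]
  intro B hB B' hB' hBB
  rw [Finset.mem_coe, Finset.mem_powerset] at hB hB'
  have key : ∀ B : Finset ℕ, B ⊆ V \ E → (B ∪ τ) \ E = B := by
    intro B hB
    ext x
    simp only [Finset.mem_sdiff, Finset.mem_union]
    constructor
    · rintro ⟨hx | hx, hxE⟩
      · exact hx
      · exact absurd (hτ hx) hxE
    · intro hx
      exact ⟨Or.inl hx, (Finset.mem_sdiff.1 (hB hx)).2⟩
  have h1 := key B hB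
  have h2 := key B' hB'
  simp only at hBB
  rw [← h1, hBB, h2]

theorem cond (A σ τ : Finset ℕ) (h : Disjoint σ τ) :
    (Disjoint σ A ∧ τ ⊆ A) ↔ A ∩ (σ ∪ τ) = τ := by
  constructor
  · rintro ⟨h1, h2⟩
    ext x
    simp only [Finset.mem_inter, Finset.mem_union]
    constructor
    · rintro ⟨hx, hx' | hx'⟩
      · exact absurd hx (Finset.disjoint_left.1 h1 hx')
      · exact hx'
    · intro hx
      exact ⟨h2 hx, Or.inr hx⟩
  · intro hA
    constructor
    · rw [Finset.disjoint_left]
      intro x hx hxA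
      have : x ∈ A ∩ (σ ∪ τ) := by
        simp [hxA, hx]
      rw [hA] at this
      exact Finset.disjoint_left.1 h hx this
    · intro x hx
      rw [← hA] at hx
      exact (Finset.mem_inter.1 hx).1

end SP5

theorem prfSP5 (h1 : S_NU1) : S_SP5 := by
  intro L hL c hc
  have hsub : ∀ F ∈ L, F ⊆ verts L := by
    intro F hF x hx
    exact Finset.mem_biUnion.2 ⟨F, hF, hx⟩
  funext σ τ
  rw [Finset.sum_apply, Finset.sum_apply, Finset.sum_apply, Finset.sum_apply]
  simp only [Pi.smul_apply, smul_eq_mul, sp]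
  by_cases hz : c (σ ∪ τ) = 0
  · simp [hz]
  have hE : σ ∪ τ ∈ L := hc _ hz
  by_cases hd : Disjoint σ τ
  · have e1 : ∀ A : Finset ℕ, (if Disjoint σ A ∧ τ ⊆ A then RA.sgg σ τ * c (σ ∪ τ) else 0) =
        if A ∩ (σ ∪ τ) = τ then RA.sgg σ τ * c (σ ∪ τ) else 0 := by
      intro A
      have := SP5.cond A σ τ hd
      by_cases hh : A ∩ (σ ∪ τ) = τ
      · rw [if_pos hh, if_pos (this.2 hh)]
      · rw [if_neg hh, if_neg (fun h => hh (this.1 h))]
    simp only [e1]
    have l1 : ∑ A ∈ (verts L).powerset, (1 / 2 : ℝ) ^ (verts L).card *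
        (if A ∩ (σ ∪ τ) = τ then RA.sgg σ τ * c (σ ∪ τ) else 0) =
        (1 / 2) ^ (σ ∪ τ).card * (RA.sgg σ τ * c (σ ∪ τ)) := by
      rw [← Finset.mul_sum, ← Finset.sum_filter, Finset.sum_const,
        SP5.count _ _ _ (hsub _ hE) Finset.subset_union_right, nsmul_eq_mul]
      push_cast
      rw [← mul_assoc]
      congr 1
      have hle : (σ ∪ τ).card ≤ (verts L).card := Finset.card_le_card (hsub _ hE)
      obtain ⟨d, hd'⟩ := Nat.exists_eq_add_of_le hle
      rw [hd', Nat.add_sub_cancel_left, pow_add, mul_assoc, ← mul_pow]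
      norm_num
    have l2 : ∑ A ∈ L, wN L (verts L) A *
        (if A ∩ (σ ∪ τ) = τ then RA.sgg σ τ * c (σ ∪ τ) else 0) =
        (1 / 2) ^ (σ ∪ τ).card * (RA.sgg σ τ * c (σ ∪ τ)) := by
      have := h1 L hL (verts L) (σ ∪ τ) hE (hsub _ hE) τ Finset.subset_union_right
      rw [← this, Finset.sum_mul, Finset.sum_filter]
      refine Finset.sum_congr rfl fun A hA => ?_
      by_cases hh : A ∩ (σ ∪ τ) = τ
      · rw [if_pos hh, if_pos ⟨hsub A hA, hh⟩]
      · rw [if_neg hh, if_neg (fun h => hh h.2), mul_zero]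
    rw [l1, l2]
  · have e1 : ∀ A : Finset ℕ, (if Disjoint σ A ∧ τ ⊆ A then RA.sgg σ τ * c (σ ∪ τ) else 0) = 0 := by
      intro A
      rw [if_neg]
      rintro ⟨h1, h2⟩
      apply hd
      exact Disjoint.mono_right h2 h1
    simp only [e1, mul_zero, Finset.sum_const_zero]

end MP8a95ee.Npc

end

section

/-!
# SP6: distributions given by nonempty faces bound (helper61)
-/

set_option autoImplicit false

namespace MP8a95ee.Npc

open Classical

namespace SP6

theorem face_sub {L : Finset (Finset ℕ)} (hL : FlagC L) {s t : Finset ℕ} (hs : s ∈ L)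
    (h : t ⊆ s) : t ∈ L := by
  rw [hL]
  intro x hx y hy
  exact (hL s).1 hs x (h hx) y (h hy)

theorem sub_verts {L : Finset (Finset ℕ)} {s : Finset ℕ} (hs : s ∈ L) : s ⊆ verts L :=
  Finset.subset_biUnion_of_mem id hs

theorem sp_ne {A : Finset ℕ} {c : Finset ℕ → ℝ} {s t : Finset ℕ} (h : sp A c s t ≠ 0) :
    Disjoint s A ∧ t ⊆ A ∧ c (s ∪ t) ≠ 0 := by
  unfold sp at h
  by_cases h1 : Disjoint s A ∧ t ⊆ A
  · rw [if_pos h1] at h
    exact ⟨h1.1, h1.2, right_ne_zero_of_mul h⟩
  · rw [if_neg h1] at h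
    exact absurd rfl h

end SP6

theorem prfSP6 (h1 : S_J1) (h2 : S_SP2) : S_SP6 := by
  intro L hL k c hc hcyc A hA hAne
  obtain ⟨a, ha⟩ := hAne
  have hJ := h1 (verts L) (a, true) (SP6.sub_verts hA ha) (sp A c) (by
    intro s t hst
    obtain ⟨-, -, h3⟩ := SP6.sp_ne hst
    have h4 := SP6.sub_verts (hc _ h3).1
    exact ⟨Finset.union_subset_left h4, Finset.union_subset_right h4⟩)
  have h3 := h2 L hL A c (fun t ht => (hc t ht).1)
  rw [hcyc] at h3
  have h4 : sp A 0 = 0 := by
    funext s t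
    unfold sp
    simp
  have h5 : wJ (a, true) (0 : JC) = 0 := by
    funext s t
    unfold wJ wM
    simp
  rw [h3, h4, h5, sub_zero] at hJ
  refine ⟨wJ (a, true) (sp A c), ?_, hJ⟩
  intro s t hst
  have h6 : wM a (sp A c) s t ≠ 0 := hst
  unfold wM at h6
  by_cases hat : a ∈ t
  · rw [if_pos hat] at h6
    obtain ⟨h7, h8, h9⟩ := SP6.sp_ne (right_ne_zero_of_mul h6)
    obtain ⟨h10, h11⟩ := hc _ h9
    have htA : t ⊆ A := by
      rw [← Finset.insert_erase hat]
      exact Finset.insert_subset ha h8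
    refine ⟨SP6.face_sub hL h10 Finset.subset_union_left, SP6.face_sub hL hA htA,
      h7.mono_right htA, ?_⟩
    rw [Finset.card_union_of_disjoint (h7.mono_right h8), Finset.card_erase_of_mem hat] at h11
    have h12 : 0 < t.card := Finset.card_pos.2 ⟨a, hat⟩
    omega
  · rw [if_neg hat] at h6
    exact absurd rfl h6

end MP8a95ee.Npc

end

section

/-!
# TH1: integration with a density
-/

set_option autoImplicit false

namespace MP8a95ee.Npc

open Classical

namespace TH1

theorem key {C V F : Finset ℕ} (hCV : C ⊆ V) (hFC : F ⊆ C) (ν : Finset ℕ → ℝ)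
    (hν : ∀ B ⊆ F, ∑ A ∈ C.powerset.filter (fun A => A ∩ F = B), ν A = (1 / 2) ^ F.card)
    {M : Type} [AddCommGroup M] [Module ℝ M] (G : Finset ℕ → M)
    (hG : ∀ A ⊆ V, ∀ A' ⊆ V, A \ C = A' \ C → A ∩ F = A' ∩ F → G A = G A') :
    ∑ A ∈ V.powerset, (2 ^ C.card * ν (A ∩ C)) • G A =
      ∑ K ∈ (V \ (C \ F)).powerset, ((2 : ℝ) ^ C.card * (1 / 2) ^ F.card) • G K := by
  rw [← Finset.sum_fiberwise_of_maps_to (s := V.powerset) (t := (V \ (C \ F)).powerset)
    (g := fun A => A \ (C \ F)) (fun A hA => Finset.mem_powerset.2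
      (Finset.sdiff_subset_sdiff (Finset.mem_powerset.1 hA) (Finset.Subset.refl _)))]
  refine Finset.sum_congr rfl fun K hK => ?_
  rw [Finset.mem_powerset] at hK
  have hKV : K ⊆ V := hK.trans Finset.sdiff_subset
  have h1 : ∀ A ∈ V.powerset.filter (fun A => A \ (C \ F) = K),
      (2 ^ C.card * ν (A ∩ C)) • G A = (2 ^ C.card * ν (A ∩ C)) • G K := by
    intro A hA
    rw [Finset.mem_filter, Finset.mem_powerset] at hA
    rw [hG A hA.1 K hKV]
    · rw [← hA.2]
      ext x
      simp only [Finset.mem_sdiff]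
      tauto
    · rw [← hA.2]
      ext x
      simp only [Finset.mem_inter, Finset.mem_sdiff]
      tauto
  rw [Finset.sum_congr rfl h1, ← Finset.sum_smul, ← Finset.mul_sum]
  congr 2
  rw [← hν (K ∩ F) Finset.inter_subset_right]
  refine Finset.sum_nbij' (fun A => A ∩ C) (fun D => K ∪ D) ?_ ?_ ?_ ?_ ?_
  · intro A hA
    rw [Finset.mem_filter, Finset.mem_powerset] at hA
    rw [Finset.mem_filter, Finset.mem_powerset]
    refine ⟨Finset.inter_subset_right, ?_⟩
    rw [← hA.2]
    ext x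
    have := @hFC x
    simp only [Finset.mem_inter, Finset.mem_sdiff]
    tauto
  · intro D hD
    rw [Finset.mem_filter, Finset.mem_powerset] at hD
    rw [Finset.mem_filter, Finset.mem_powerset]
    refine ⟨Finset.union_subset hKV (hD.1.trans hCV), ?_⟩
    ext x
    have h3 := @hK x
    have h4 := @hD.1 x
    have h5 : x ∈ D ∩ F ↔ x ∈ K ∩ F := by rw [hD.2]
    simp only [Finset.mem_inter, Finset.mem_sdiff, Finset.mem_union] at *
    tauto
  · intro A hA
    rw [Finset.mem_filter, Finset.mem_powerset] at hA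
    rw [← hA.2]
    ext x
    simp only [Finset.mem_inter, Finset.mem_sdiff, Finset.mem_union]
    tauto
  · intro D hD
    rw [Finset.mem_filter, Finset.mem_powerset] at hD
    ext x
    have h3 := @hK x
    have h4 := @hD.1 x
    have h5 : x ∈ D ∩ F ↔ x ∈ K ∩ F := by rw [hD.2]
    simp only [Finset.mem_inter, Finset.mem_sdiff, Finset.mem_union] at *
    tauto
  · intro A _
    rfl

theorem half_pow (n : ℕ) : (2 : ℝ) ^ n * (1 / 2) ^ n = 1 := by
  rw [← mul_pow]
  norm_num

theorem unif {C F : Finset ℕ} (hFC : F ⊆ C) (B : Finset ℕ) (hB : B ⊆ F) :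
    ∑ _A ∈ C.powerset.filter (fun A => A ∩ F = B), ((1 / 2 : ℝ) ^ C.card) =
      (1 / 2) ^ F.card := by
  rw [Finset.sum_const]
  have h1 : (C.powerset.filter (fun A => A ∩ F = B)).card = (C \ F).powerset.card := by
    refine Finset.card_nbij' (fun A => A \ F) (fun D => D ∪ B) ?_ ?_ ?_ ?_
    · intro A hA
      have hA' := Finset.mem_filter.1 (Finset.mem_coe.1 hA)
      refine Finset.mem_coe.2 (Finset.mem_powerset.2 ?_)
      exact Finset.sdiff_subset_sdiff (Finset.mem_powerset.1 hA'.1) (Finset.Subset.refl _)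
    · intro D hD
      have hD' := Finset.mem_powerset.1 (Finset.mem_coe.1 hD)
      refine Finset.mem_coe.2 (Finset.mem_filter.2 ⟨Finset.mem_powerset.2 ?_, ?_⟩)
      · exact Finset.union_subset (hD'.trans Finset.sdiff_subset) (hB.trans hFC)
      · ext x
        have h3 := @hD' x
        have h4 := @hB x
        simp only [Finset.mem_inter, Finset.mem_sdiff, Finset.mem_union] at *
        tauto
    · intro A hA
      have hA' := Finset.mem_filter.1 (Finset.mem_coe.1 hA)
      ext x
      have h5 : x ∈ A ∩ F ↔ x ∈ B := by rw [hA'.2]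
      simp only [Finset.mem_inter, Finset.mem_sdiff, Finset.mem_union] at *
      tauto
    · intro D hD
      have hD' := Finset.mem_powerset.1 (Finset.mem_coe.1 hD)
      ext x
      have h3 := @hD' x
      have h4 := @hB x
      simp only [Finset.mem_sdiff, Finset.mem_union] at *
      tauto
  rw [h1, Finset.card_powerset, Finset.card_sdiff_of_subset hFC, nsmul_eq_mul, Nat.cast_pow,
    Nat.cast_ofNat]
  have h2 : C.card = (C.card - F.card) + F.card :=
    (Nat.sub_add_cancel (Finset.card_le_card hFC)).symm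
  conv_lhs => rw [h2, pow_add (1 / 2 : ℝ), ← mul_assoc]
  rw [Nat.add_sub_cancel, half_pow, one_mul]

end TH1

theorem prfTH1 : S_TH1 := by
  intro L _ C ν hν V hCV F hF hFC M _ _ G hG
  rw [TH1.key hCV hFC ν (fun B hB => hν.2 F hF hFC B hB) G hG,
    ← TH1.key hCV hFC (fun _ => (1 / 2) ^ C.card) (fun B hB => TH1.unif hFC B hB) G hG]
  refine Finset.sum_congr rfl fun A _ => ?_
  rw [TH1.half_pow, one_smul]

end MP8a95ee.Npc

end

section

/-!
# Nonpositively curved cubulations: item TH2, the random vertex map is a chain map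
-/

set_option autoImplicit false

namespace MP8a95ee.Npc

open Classical

namespace TH2

theorem dJ_sum {ι : Type} (V : Finset ℕ) (P : Finset ι) (f : ι → JC) :
    dJ V (∑ A ∈ P, f A) = ∑ A ∈ P, dJ V (f A) := by
  funext σ τ
  simp only [dJ, Finset.sum_apply, Finset.mul_sum]
  rw [Finset.sum_comm, Finset.sum_comm (s := V \ τ), ← Finset.sum_add_distrib]

theorem dJ_smul (V : Finset ℕ) (a : ℝ) (f : JC) : dJ V (a • f) = a • dJ V f := by
  funext σ τ
  simp only [dJ, Pi.smul_apply, smul_eq_mul, mul_add, Finset.mul_sum]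
  congr 1
  · refine Finset.sum_congr rfl fun b _ => ?_
    ring
  · refine Finset.sum_congr rfl fun b _ => ?_
    ring

theorem pick_mem {C : Finset ℕ} (h : C.Nonempty) : pick C ∈ C := by
  unfold pick
  rw [dif_pos h]
  exact Finset.min'_mem _ _

theorem single_mem {L : Finset (Finset ℕ)} {u : ℕ} (h : Cls L {u}) : ({u} : Finset ℕ) ∈ L := by
  obtain ⟨_, _, P, hP, Q, hQ, e⟩ := h
  have hu : u ∈ P ∪ Q := by rw [← e]; exact Finset.mem_singleton_self u
  have hPs : P ⊆ {u} := by rw [e]; exact Finset.subset_union_left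
  have hQs : Q ⊆ {u} := by rw [e]; exact Finset.subset_union_right
  rcases Finset.mem_union.1 hu with h | h
  · have : P = {u} := Finset.Subset.antisymm hPs (Finset.singleton_subset_iff.2 h)
    rw [← this]; exact hP
  · have : Q = {u} := Finset.Subset.antisymm hQs (Finset.singleton_subset_iff.2 h)
    rw [← this]; exact hQ

theorem cls_sub {L : Finset (Finset ℕ)} {C : Finset ℕ} (h : Cls L C) : C ⊆ verts L := by
  obtain ⟨_, _, P, hP, Q, hQ, e⟩ := h
  intro a ha
  rw [e] at ha
  unfold verts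
  rw [Finset.mem_biUnion]
  rcases Finset.mem_union.1 ha with h | h
  · exact ⟨P, hP, h⟩
  · exact ⟨Q, hQ, h⟩

theorem ph_mem {L : Finset (Finset ℕ)} {ν : Finset ℕ → Finset ℕ → ℝ}
    (hν : ∀ C, Cls L C → 1 < C.card → IsNu L C (ν C)) {A C : Finset ℕ} (hC : Cls L C)
    (h : 1 < C.card → ν C (A ∩ C) ≠ 0) : (ph L A C).1 ∈ C := by
  have hne := hC.1
  unfold ph
  split_ifs with h1
  · exact Finset.inter_subset_right (pick_mem h1.2)
  · apply Finset.sdiff_subset (t := A)
    apply pick_mem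
    by_cases h2 : 1 < C.card
    · rcases ((hν C hC h2).1 (A ∩ C) (h h2)).2 with h3 | h3
      · exact absurd h3 h1
      · obtain ⟨a, ha⟩ := h3.2
        refine ⟨a, ?_⟩
        simp only [Finset.mem_sdiff, Finset.mem_inter, not_and] at ha ⊢
        exact ⟨ha.1, fun h4 => ha.2 h4 ha.1⟩
    · have h3 : C.card = 1 := by
        have := Finset.card_pos.2 hne
        omega
      obtain ⟨u, rfl⟩ := Finset.card_eq_one.1 h3
      refine ⟨u, ?_⟩
      rw [Finset.mem_sdiff]
      refine ⟨Finset.mem_singleton_self u, fun hu => h1 ?_⟩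
      have : A ∩ {u} = {u} := by
        rw [Finset.inter_eq_right]
        exact Finset.singleton_subset_iff.2 hu
      rw [this]
      exact ⟨single_mem hC, Finset.singleton_nonempty u⟩

theorem ph_congr {L : Finset (Finset ℕ)} {A A' C : Finset ℕ} (h : A ∩ C = A' ∩ C) :
    ph L A C = ph L A' C := by
  have h2 : C \ A = C \ A' := by
    ext a
    have : a ∈ A ∩ C ↔ a ∈ A' ∩ C := by rw [h]
    simp only [Finset.mem_inter] at this
    simp only [Finset.mem_sdiff]
    tauto
  unfold ph
  rw [h, h2]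

theorem dens_congr {ν : Finset ℕ → Finset ℕ → ℝ} {V : Finset ℕ} {k : ℕ}
    {t : Fin k → Finset ℕ} {A A' : Finset ℕ} (h : ∀ j, A ∩ t j = A' ∩ t j) :
    dens ν V t A = dens ν V t A' := by
  unfold dens
  congr 1
  refine Finset.prod_congr rfl fun C hC => ?_
  obtain ⟨j, _, rfl⟩ := Finset.mem_image.1 (Finset.mem_filter.1 hC).1
  rw [h j]

theorem dens_eq {ν : Finset ℕ → Finset ℕ → ℝ} {V : Finset ℕ} {k : ℕ}
    {s : Fin (k + 1) → Finset ℕ} (i : Fin (k + 1))
    (h : ¬ (1 < (s i).card) ∨ ∃ j : Fin k, s (i.succAbove j) = s i) (A : Finset ℕ) :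
    dens ν V s A = dens ν V (fun j => s (i.succAbove j)) A := by
  unfold dens
  congr 1
  refine Finset.prod_congr ?_ fun _ _ => rfl
  ext C
  simp only [Finset.mem_filter, Finset.mem_image, Finset.mem_univ, true_and]
  constructor
  · rintro ⟨⟨j, rfl⟩, hc⟩
    refine ⟨?_, hc⟩
    rcases Fin.eq_self_or_eq_succAbove i j with h1 | ⟨j', rfl⟩
    · subst h1
      rcases h with h | ⟨j', h⟩
      · exact absurd hc h
      · exact ⟨j', h⟩
    · exact ⟨j', rfl⟩
  · rintro ⟨⟨j, rfl⟩, hc⟩
    exact ⟨⟨_, rfl⟩, hc⟩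

theorem dens_insert {ν : Finset ℕ → Finset ℕ → ℝ} {V : Finset ℕ} {k : ℕ}
    {s : Fin (k + 1) → Finset ℕ} (i : Fin (k + 1)) (h1 : 1 < (s i).card)
    (h2 : ∀ j : Fin k, s (i.succAbove j) ≠ s i) (A : Finset ℕ) :
    dens ν V s A = (2 ^ (s i).card * ν (s i) (A ∩ s i)) *
      dens ν V (fun j => s (i.succAbove j)) A := by
  unfold dens
  have e : (Finset.univ.image s).filter (fun C => 1 < C.card) =
      insert (s i) ((Finset.univ.image fun j => s (i.succAbove j)).filter
        (fun C => 1 < C.card)) := by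
    ext C
    simp only [Finset.mem_filter, Finset.mem_image, Finset.mem_univ, true_and, Finset.mem_insert]
    constructor
    · rintro ⟨⟨j, rfl⟩, hc⟩
      rcases Fin.eq_self_or_eq_succAbove i j with h | ⟨j', rfl⟩
      · left; rw [h]
      · right; exact ⟨⟨j', rfl⟩, hc⟩
    · rintro (rfl | ⟨⟨j, rfl⟩, hc⟩)
      · exact ⟨⟨i, rfl⟩, h1⟩
      · exact ⟨⟨_, rfl⟩, hc⟩
  rw [e, Finset.prod_insert]
  · ring
  · simp only [Finset.mem_filter, Finset.mem_image, Finset.mem_univ, true_and, not_and]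
    rintro ⟨j, hj⟩
    exact absurd hj (h2 j)

end TH2

open TH2 in
theorem prfTH2 (h1 : S_J3) (h2 : S_TH1) : S_TH2 := by
  intro L hL ν hν k s hs
  have hcls := hs.1
  have hcmp := hs.2
  -- step 1: the boundary of each term
  have step1 : dJ (verts L) (Th L ν s) = ∑ A ∈ (verts L).powerset, dens ν (verts L) s A •
      ∑ i : Fin (k + 1), ((-1 : ℝ) ^ (i : ℕ)) •
        altJ k fun j => ph L A (s (i.succAbove j)) := by
    unfold Th
    rw [dJ_sum]
    refine Finset.sum_congr rfl fun A _ => ?_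
    rw [dJ_smul]
    by_cases hd : dens ν (verts L) s A = 0
    · rw [hd, zero_smul, zero_smul]
    · congr 1
      refine (h1 (verts L) k).1 (fun i => ph L A (s i)) fun i => ?_
      refine cls_sub (hcls i) (ph_mem hν (hcls i) fun hc => ?_)
      intro h0
      apply hd
      unfold dens
      rw [Finset.prod_eq_zero (i := s i), mul_zero]
      · simp only [Finset.mem_filter, Finset.mem_image, Finset.mem_univ, true_and]
        exact ⟨⟨i, rfl⟩, hc⟩
      · rw [h0, mul_zero]
  rw [step1]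
  have step2 : ∑ A ∈ (verts L).powerset, dens ν (verts L) s A •
      ∑ i : Fin (k + 1), ((-1 : ℝ) ^ (i : ℕ)) •
        (altJ k fun j => ph L A (s (i.succAbove j))) =
      ∑ i : Fin (k + 1), ((-1 : ℝ) ^ (i : ℕ)) • ∑ A ∈ (verts L).powerset,
        dens ν (verts L) s A • altJ k fun j => ph L A (s (i.succAbove j)) := by
    simp only [Finset.smul_sum]
    rw [Finset.sum_comm]
    refine Finset.sum_congr rfl fun i _ => Finset.sum_congr rfl fun A _ => ?_
    rw [smul_comm]
  rw [step2]
  refine Finset.sum_congr rfl fun i _ => ?_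
  congr 1
  unfold Th
  by_cases hc : ¬ (1 < (s i).card) ∨ ∃ j : Fin k, s (i.succAbove j) = s i
  · refine Finset.sum_congr rfl fun A _ => ?_
    rw [dens_eq i hc A]
  · push Not at hc
    obtain ⟨hc1, hc2⟩ := hc
    set F : Finset ℕ := (s i).filter fun u => ∃ j : Fin k, s (i.succAbove j) = {u} with hF
    have hFC : F ⊆ s i := Finset.filter_subset _ _
    have hFL : F ∈ L := by
      rw [hL F]
      intro x hx y hy
      obtain ⟨_, j, hj⟩ := Finset.mem_filter.1 hx
      obtain ⟨_, j', hj'⟩ := Finset.mem_filter.1 hy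
      have hxL : ({x} : Finset ℕ) ∈ L := by
        have := hcls (i.succAbove j)
        rw [hj] at this
        exact single_mem this
      have hxy : x = y → ({x, y} : Finset ℕ) ∈ L := by
        rintro rfl
        simpa using hxL
      have hC := hcmp (i.succAbove j) (i.succAbove j')
      rw [hj, hj'] at hC
      rcases hC with h | h | ⟨u, hu, h⟩ | ⟨u, hu, h⟩
      · exact hxy (Finset.singleton_injective h)
      · exact (h x (Finset.mem_singleton_self x) y (Finset.mem_singleton_self y)).2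
      · rw [Finset.mem_singleton] at hu
        subst hu
        exact hxy (Finset.singleton_injective h)
      · rw [Finset.mem_singleton] at hu
        subst hu
        exact hxy (Finset.singleton_injective h).symm
    have key := h2 L hL (s i) (ν (s i)) (hν (s i) (hcls i) hc1) (verts L) (cls_sub (hcls i)) F hFL
      hFC JC (fun A => dens ν (verts L) (fun j => s (i.succAbove j)) A •
        altJ k fun j => ph L A (s (i.succAbove j))) (by
        intro A _ A' _ hAC hAF
        have hint : ∀ j : Fin k, A ∩ s (i.succAbove j) = A' ∩ s (i.succAbove j) := by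
          intro j
          rcases hcmp i (i.succAbove j) with h | h | ⟨u, hu, h⟩ | ⟨u, hu, h⟩
          · exact absurd h.symm (hc2 j)
          · ext a
            simp only [Finset.mem_inter]
            have hd : a ∈ s (i.succAbove j) → a ∉ s i := fun ha hai => (h a hai a ha).1 rfl
            have : a ∈ A \ s i ↔ a ∈ A' \ s i := by rw [hAC]
            simp only [Finset.mem_sdiff] at this
            tauto
          · rw [h] at hc1
            simp at hc1
          · rw [h]
            have huF : u ∈ F := Finset.mem_filter.2 ⟨hu, j, h⟩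
            ext a
            simp only [Finset.mem_inter, Finset.mem_singleton]
            have : a ∈ A ∩ F ↔ a ∈ A' ∩ F := by rw [hAF]
            simp only [Finset.mem_inter] at this
            constructor
            · rintro ⟨ha, rfl⟩
              exact ⟨(this.1 ⟨ha, huF⟩).1, rfl⟩
            · rintro ⟨ha, rfl⟩
              exact ⟨(this.2 ⟨ha, huF⟩).1, rfl⟩
        have e1 : (fun j : Fin k => ph L A (s (i.succAbove j))) =
            fun j => ph L A' (s (i.succAbove j)) := funext fun j => ph_congr (hint j)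
        have e2 := dens_congr (ν := ν) (V := verts L) hint
        simp only [e1, e2])
    rw [← key]
    refine Finset.sum_congr rfl fun A _ => ?_
    rw [dens_insert i hc1 hc2 A, mul_smul]

end MP8a95ee.Npc

end

section

/-!
# TH3: values in the deleted join
-/

set_option autoImplicit false

namespace MP8a95ee.Npc

open Classical

namespace TH3

theorem pick_mem {C : Finset ℕ} (h : C.Nonempty) : pick C ∈ C := by
  unfold pick
  rw [dif_pos h]
  exact Finset.min'_mem _ _

theorem pairL {L : Finset (Finset ℕ)} (hL : FlagC L) {C C' D D' : Finset ℕ} (P : ℕ → Prop)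
    (hC : Cmp L C C') (hD : D ∈ L) (hD' : D' ∈ L) (h : ∀ z, z ∈ D ↔ z ∈ C ∧ P z)
    (h' : ∀ z, z ∈ D' ↔ z ∈ C' ∧ P z) {x y : ℕ} (hx : x ∈ D) (hy : y ∈ D') :
    ({x, y} : Finset ℕ) ∈ L := by
  have hx2 := (h x).1 hx
  have hy2 := (h' y).1 hy
  rcases hC with hC | hC | ⟨u, hu, hC⟩ | ⟨u, hu, hC⟩
  · exact hL.mono hD (RA.pair_sub hx ((h y).2 ⟨hC ▸ hy2.1, hy2.2⟩))
  · exact (hC x hx2.1 y hy2.1).2
  · have hxu : x = u := by
      have := hx2.1
      rw [hC] at this
      exact Finset.mem_singleton.1 this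
    exact hL.mono hD' (RA.pair_sub ((h' x).2 ⟨hxu ▸ hu, hx2.2⟩) hy)
  · have hyu : y = u := by
      have := hy2.1
      rw [hC] at this
      exact Finset.mem_singleton.1 this
    exact hL.mono hD (RA.pair_sub hx ((h y).2 ⟨hyu ▸ hu, hy2.2⟩))

theorem tr {L : Finset (Finset ℕ)} {A C : Finset ℕ} {x : ℕ} (h : (ph L A C).2 = true)
    (hx : (ph L A C).1 = x) : A ∩ C ∈ L ∧ x ∈ A ∩ C := by
  unfold ph at h hx
  split_ifs at h hx with h1
  · exact ⟨h1.1, hx ▸ pick_mem h1.2⟩

theorem fa {L : Finset (Finset ℕ)} (hL : FlagC L) {ν : Finset ℕ → Finset ℕ → ℝ}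
    (hν : ∀ C, Cls L C → 1 < C.card → IsNu L C (ν C)) {A C : Finset ℕ} (hC : Cls L C)
    (hd : 1 < C.card → ν C (A ∩ C) ≠ 0) {x : ℕ} (h : (ph L A C).2 = false)
    (hx : (ph L A C).1 = x) : C \ A ∈ L ∧ x ∈ C \ A := by
  have hne : ¬ (A ∩ C ∈ L ∧ (A ∩ C).Nonempty) := by
    intro h1
    unfold ph at h
    rw [if_pos h1] at h
    exact absurd h (by simp)
  have hx' : pick (C \ A) = x := by
    unfold ph at hx
    rw [if_neg hne] at hx
    exact hx
  have hmain : C \ A ∈ L ∧ (C \ A).Nonempty := by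
    by_cases h1 : 1 < C.card
    · rcases ((hν C hC h1).1 _ (hd h1)).2 with h2 | h2
      · exact absurd h2 hne
      · have h3 : C \ (A ∩ C) = C \ A := by
          ext z
          simp only [Finset.mem_sdiff, Finset.mem_inter]
          tauto
        rw [h3] at h2
        exact h2
    · have h2 : C.card = 1 := by
        have := Finset.card_pos.2 hC.1
        omega
      obtain ⟨u, hu⟩ := Finset.card_eq_one.1 h2
      have huL : ({u} : Finset ℕ) ∈ L := by
        obtain ⟨P, hP, Q, hQ, hPQ⟩ := hC.2.2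
        have : u ∈ P ∪ Q := by
          rw [← hPQ, hu]
          exact Finset.mem_singleton_self _
        rcases Finset.mem_union.1 this with h3 | h3
        · exact hL.mono hP (Finset.singleton_subset_iff.2 h3)
        · exact hL.mono hQ (Finset.singleton_subset_iff.2 h3)
      by_cases huA : u ∈ A
      · have h4 : A ∩ C = {u} := by
          rw [hu]
          exact Finset.inter_singleton_of_mem huA
        exact absurd ⟨h4.symm ▸ huL, h4.symm ▸ Finset.singleton_nonempty u⟩ hne
      · have h4 : C \ A = {u} := by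
          rw [hu]
          exact Finset.sdiff_eq_self_of_disjoint (Finset.disjoint_singleton_left.2 huA)
        rw [h4]
        exact ⟨huL, Finset.singleton_nonempty u⟩
  exact ⟨hmain.1, hx' ▸ pick_mem hmain.2⟩

end TH3

theorem prfTH3 (h1 : S_J3) : S_TH3 := by
  intro L hL ν hν k s hs σ τ hne
  have hex : ∃ A ∈ (verts L).powerset, (dens ν (verts L) s A • altJ k fun i => ph L A (s i)) σ τ
      ≠ 0 := by
    by_contra hcon
    push Not at hcon
    apply hne
    unfold Th
    rw [Finset.sum_apply, Finset.sum_apply]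
    exact Finset.sum_eq_zero hcon
  obtain ⟨A, _, hA⟩ := hex
  have hA' : dens ν (verts L) s A * altJ k (fun i => ph L A (s i)) σ τ ≠ 0 := hA
  have hdens := left_ne_zero_of_mul hA'
  have halt := right_ne_zero_of_mul hA'
  have hd : ∀ i, 1 < (s i).card → ν (s i) (A ∩ s i) ≠ 0 := by
    intro i hi
    unfold dens at hdens
    have h2 := right_ne_zero_of_mul hdens
    rw [Finset.prod_ne_zero_iff] at h2
    exact right_ne_zero_of_mul (h2 (s i) (Finset.mem_filter.2
      ⟨Finset.mem_image_of_mem _ (Finset.mem_univ _), hi⟩))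
  obtain ⟨hcard, hσ, hτ⟩ := (h1 (verts L) k).2 _ σ τ halt
  have hσ2 : ∀ x ∈ σ, ∃ i, s i \ A ∈ L ∧ x ∈ s i \ A := by
    intro x hx
    obtain ⟨i, hi, hix⟩ := Finset.mem_image.1 (hσ hx)
    exact ⟨i, TH3.fa hL hν (hs.1 i) (hd i) (Finset.mem_filter.1 hi).2 hix⟩
  have hτ2 : ∀ x ∈ τ, ∃ i, A ∩ s i ∈ L ∧ x ∈ A ∩ s i := by
    intro x hx
    obtain ⟨i, hi, hix⟩ := Finset.mem_image.1 (hτ hx)
    exact ⟨i, TH3.tr (Finset.mem_filter.1 hi).2 hix⟩
  refine ⟨(hL σ).2 fun x hx y hy => ?_, (hL τ).2 fun x hx y hy => ?_, ?_, hcard⟩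
  · obtain ⟨i, hi, hxi⟩ := hσ2 x hx
    obtain ⟨j, hj, hyj⟩ := hσ2 y hy
    exact TH3.pairL hL (fun z => z ∉ A) (hs.2 i j) hi hj (fun z => Finset.mem_sdiff)
      (fun z => Finset.mem_sdiff) hxi hyj
  · obtain ⟨i, hi, hxi⟩ := hτ2 x hx
    obtain ⟨j, hj, hyj⟩ := hτ2 y hy
    exact TH3.pairL hL (fun z => z ∈ A) (hs.2 i j) hi hj
      (fun z => by rw [Finset.mem_inter, and_comm])
      (fun z => by rw [Finset.mem_inter, and_comm]) hxi hyj
  · refine Finset.disjoint_left.2 fun x hx hx' => ?_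
    obtain ⟨i, _, hxi⟩ := hσ2 x hx
    obtain ⟨j, _, hxj⟩ := hτ2 x hx'
    exact (Finset.mem_sdiff.1 hxi).2 (Finset.mem_inter.1 hxj).1

end MP8a95ee.Npc

end

section

/-!
# P1: Part I
-/

set_option autoImplicit false

namespace MP8a95ee.Npc

open Classical in
theorem prfP1 (hDU : S_DU) (hFU : S_FU) (hCO : S_CO) (hTP : S_TP3) (hEV2 : S_EV2) (hEV3 : S_EV3)
    (hZ6 : S_ZC6) : S_P1 := by
  intro X hX hf Γ F hD m o ho x0 hx0 hnb
  -- a function which detects ζ
  obtain ⟨f0, hfK, hfz⟩ : ∃ f : (Fin (m + 1) → Finset ℕ) → ℝ,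
      (∀ T : Fin (m + 2) → Finset ℕ, KF (link X x0) T → RA.dl f T = 0) ∧
      Finsupp.linearCombination ℝ f (RA.zeta (link X x0) (o x0)) ≠ 0 := by
    by_contra hcon
    push Not at hcon
    exact hnb (hDU (link X x0) m (o x0) _ hcon)
  obtain ⟨f, hE, hK, ⟨C, hC⟩, hz, hx⟩ := hFU X hX hf Γ F hD m x0 hx0 f0 hfK
  obtain ⟨hV, ⟨B, hB⟩, hinv, hcoc⟩ := hCO X hX hf Γ F hD m f hE hK C hC
  obtain ⟨c, hc1, hc2, hc3⟩ := hTP X hX hf Γ F hD (m + 1) (ct X f) B hB hinv hcoc
  have hflag := ((hZ6 X hX hf).1 x0).1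
  have hor := (hZ6 X hX hf).2 Γ (m + 1) o ho x0
  set A : ℝ := 2 * (-1) ^ m * Finsupp.linearCombination ℝ f0 (RA.zeta (link X x0) (o x0)) with hA
  have hA0 : A ≠ 0 := mul_ne_zero (mul_ne_zero two_ne_zero (pow_ne_zero _ (by norm_num))) hfz
  have hev : E.ev c (fundCycle X Γ F o) = A := by
    rw [← B3.ev_eq]
    have h1 := hEV3 X hX hf Γ F (m + 1) o ho c (ct X f) hc3
    refine (Eq.trans ?_ h1).trans ?_
    · refine Finsupp.sum_congr fun σ _ => ?_
      ring
    rw [hEV2 X hX hf Γ F hD m o ho f hV hE, hA]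
    congr 1
    rw [Finset.sum_eq_single x0]
    · refine P2.lin_congr fun T hT => ?_
      exact hx T fun i => ((P2.zeta_supp hflag hor T hT).1 i).1
    · intro y hy hyx
      rw [hz y hy hyx]
      rw [P2.lin_sum]
      exact Finset.sum_eq_zero fun T _ => by rw [Pi.zero_apply, smul_zero]
    · intro h
      exact absurd hx0 h
  have hB0 : 0 ≤ B := (abs_nonneg _).trans (hB fun _ => 0)
  have hApos : 0 < |A| := abs_pos.2 hA0
  refine ⟨|A| / (B + 1), by positivity, ?_⟩
  intro Y _ g' lam z w h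
  have hbd : E.ev c (bd w) = 0 := by
    have := B3.ev_bd c hc2 w
    rw [B3.ev_eq] at this
    exact this
  have hzz : E.ev (fun σ => c (g'.comp σ)) z = lam * A := by
    rw [← MP8a95ee.F.ev_push, h, map_add, map_smul, hev, hbd, add_zero, smul_eq_mul]
  have hle := B3.ev_le (fun σ => c (g'.comp σ)) (B + 1) (fun σ => by
    have := hc1 (g'.comp σ)
    linarith) z
  rw [B3.ev_eq] at hle
  have hle' : |lam * A| ≤ (B + 1) * l1 z := by
    rw [← hzz]; exact hle
  rw [abs_mul] at hle'
  rw [div_mul_eq_mul_div, div_le_iff₀ (by positivity)]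
  linarith

end MP8a95ee.Npc

end

section

/-!
# Nonpositively curved cubulations, item UBD: the bound depends only on N and k
-/

set_option autoImplicit false

namespace MP8a95ee.Npc

open Classical

theorem prfUBD (h1 : S_MG5) (h2 : S_RAM) (h3 : S_HOM) : S_UBD := by
  intro N k
  obtain ⟨R, hR⟩ := h2 (Fintype.card (BD.Col N k)) (N + 3)
  refine ⟨R + (k + 1), fun X hX hf hN v Z hZ => ?_⟩
  obtain ⟨D⟩ := h1 X hX
  obtain ⟨e, he1, he2⟩ := BD.enumeration hf hN
  by_contra hB
  push Not at hB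
  have hcard : R ≤ (Z \ Finset.univ.image v).card := by
    have e1 := Finset.le_card_sdiff (Finset.univ.image v) Z
    have e2 : (Finset.univ.image v).card ≤ k + 1 := by
      refine Finset.card_image_le.trans ?_
      rw [Finset.card_univ, Fintype.card_fin]
    omega
  obtain ⟨g, hg, hh⟩ := hR fun a b => Fintype.equivFin (BD.Col N k)
    (BD.col D e v ((Z \ Finset.univ.image v).orderEmbOfCardLe hcard a)
      ((Z \ Finset.univ.image v).orderEmbOfCardLe hcard b))
  have hmem : ∀ p, (Z \ Finset.univ.image v).orderEmbOfCardLe hcard p ∈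
      Z \ Finset.univ.image v := fun p => Finset.orderEmbOfCardLe_mem _ hcard p
  have hom := BD.hom D (M := N + 3) (by omega) he1 he2 (v := v)
    (x := fun p => (Z \ Finset.univ.image v).orderEmbOfCardLe hcard (g p))
    (fun p q h => hg.injective (((Z \ Finset.univ.image v).orderEmbOfCardLe hcard).injective h))
    (fun p l h => by
      have := hmem (g p)
      rw [Finset.mem_sdiff] at this
      exact this.2 (Finset.mem_image.2 ⟨l, Finset.mem_univ _, h.symm⟩))
    (fun p q p' q' h h' => (Fintype.equivFin (BD.Col N k)).injective (hh p q p' q' h h'))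
  obtain ⟨p, hp⟩ := h3 X hX hf D N (N + 3) k hN le_rfl v _ e hom
  have := hmem (g p)
  rw [Finset.mem_sdiff] at this
  exact hZ _ this.1 hp

end MP8a95ee.Npc

end
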