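import Pool.Agent.Work.MP_8a95ee_gt.Npc.Stmts4
import Pool.Agent.Work.MP_8a95ee_gt.Bd.B08
import Pool.Agent.Work.MP_8a95ee_gt.Bd.B05
import Pool.Agent.Work.MP_8a95ee_gt.Bd.B10
import Pool.Agent.Work.MP_8a95ee_gt.Bd.B09
import Pool.Agent.Work.MP_8a95ee_gt.Npc.BD
import Pool.Agent.Work.MP_8a95ee_gt.Bd.B07
import Pool.Agent.Work.MP_8a95ee_gt.Npc.EV3
import Pool.Agent.Work.MP_8a95ee_gt.Npc.FU
import Pool.Agent.Work.MP_8a95ee_gt.Npc.PS3
import Pool.Agent.Work.MP_8a95ee_gt.Npc.TP1
import Pool.Agent.Work.MP_8a95ee_gt.Npc.ZC4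

/-! Bundle of small proof modules (one section per former module). -/

section

/-!
# UCO: the bounded cocycle with an explicit bound
-/

set_option autoImplicit false

namespace MP8a95ee.Npc

open Classical

open CO in
theorem prfUCO : S_UCO := by
  intro X hX hf m B hB f hK C hC v
  have hC0 : 0 ≤ C := (abs_nonneg _).trans (hC 0 (fun _ => ∅))
  have hfin : (bad X v).Finite := bad_finite (k := m + 1) (B := B) hB v
  rw [ct_eq (k := m + 1) hK (Z := hfin.toFinset) (by rw [Set.Finite.coe_toFinset])]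
  refine (Finset.abs_sum_le_sum_abs _ _).trans ?_
  refine (Finset.sum_le_sum (fun z _ => dl_le (hC z) _)).trans ?_
  rw [Finset.sum_const, nsmul_eq_mul]
  have hcard : hfin.toFinset.card ≤ B := hB v _ (fun z hz => (Set.Finite.mem_toFinset _).1 hz)
  have hcard' : (hfin.toFinset.card : ℝ) ≤ B := by exact_mod_cast hcard
  have e : ((((m + 1 : ℕ) : ℝ) + 1) * C) = ((m + 2) * C) := by push_cast; ring
  rw [e]
  have h0 : 0 ≤ (((m : ℝ) + 2) * C) := by positivity
  exact mul_le_mul_of_nonneg_right hcard' h0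

end MP8a95ee.Npc

end

section

/-!
# UOR: two orientations of a homology sphere are proportional
-/

set_option autoImplicit false

namespace MP8a95ee.Npc

open Classical

namespace UOR

theorem empty_mem {L : Finset (Finset ℕ)} (hf : FlagC L) : (∅ : Finset ℕ) ∈ L := by
  rw [hf ∅]
  intro x hx
  simp at hx

theorem bdN_empty {L : Finset (Finset ℕ)} (c : Finset ℕ → ℝ) :
    RA.bdN L ∅ c = RA.bdS L c := by
  funext u
  unfold RA.bdN RA.bdS
  simp

theorem oLk_empty {n : ℕ} (o : (Fin n → ℕ) → ℤ) (u : Finset ℕ) :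
    RA.oLk o ∅ u = RA.oF o u := by
  unfold RA.oLk RA.sgg
  simp

theorem face_mem {L : Finset (Finset ℕ)} {n : ℕ} {o : (Fin n → ℕ) → ℤ} (ho : IsOrient L n o)
    {u : Finset ℕ} (hu : RA.oF o u ≠ 0) : u ∈ L := by
  have h2 := RA.h61_oF_card hu
  have h4 : o (u.orderEmbOfFin h2) ≠ 0 := by
    intro h
    apply hu
    unfold RA.oF
    rw [dif_pos h2, h]
    norm_num
  have h5 := ho.2.1 _ h4
  have h6 : Finset.univ.image (u.orderEmbOfFin h2 : Fin n → ℕ) = u := by
    apply Finset.coe_injective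
    rw [Finset.coe_image, Finset.coe_univ, Set.image_univ, Finset.range_orderEmbOfFin]
  rwa [h6] at h5

/-- the values on injective tuples through the increasing enumeration -/
theorem val {n : ℕ} {s : Fin n → ℕ} (hs : Function.Injective s) :
    ∃ π : Equiv.Perm (Fin n), ∀ o' : (Fin n → ℕ) → ℤ,
      (∀ (s : Fin n → ℕ) (i j : Fin n), i ≠ j → o' (s ∘ Equiv.swap i j) = - o' s) →
      (o' s : ℝ) = ((Equiv.Perm.sign π : ℤ) : ℝ) * RA.oF o' (Finset.univ.image s) := by
  have hc : (Finset.univ.image s).card = n := by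
    rw [Finset.card_image_of_injective _ hs, Finset.card_univ, Fintype.card_fin]
  set g := (Finset.univ.image s).orderEmbOfFin hc with hg
  have hmem : ∀ i, ∃ j, g j = s i := by
    intro i
    have : s i ∈ Set.range g := by
      rw [hg, Finset.range_orderEmbOfFin]
      exact Finset.mem_coe.2 (Finset.mem_image_of_mem _ (Finset.mem_univ i))
    exact this
  choose p hp using hmem
  have hpi : Function.Injective p := by
    intro i j hij
    apply hs
    rw [← hp i, ← hp j, hij]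
  let π : Equiv.Perm (Fin n) := Equiv.ofBijective p (Finite.injective_iff_bijective.1 hpi)
  refine ⟨π, fun o' ho' => ?_⟩
  have e1 : s = (g : Fin n → ℕ) ∘ π := by
    funext i
    exact (hp i).symm
  have e2 := RA.h61_perm ho' π (g : Fin n → ℕ)
  rw [← e1] at e2
  rw [e2]
  unfold RA.oF
  rw [dif_pos hc]
  push_cast
  rfl

end UOR

open UOR in
theorem prfUOR : S_UOR := by
  intro L hf m hS o o' ho ho'
  have h0 := empty_mem hf
  obtain ⟨-, t, ht, -, htn⟩ := RA.itemB8a L hf (m + 1) hS ∅ h0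
  have hx : RA.LkN L (⊤ : Submodule ℝ ℝ) ∅ (m + 1) (RA.oF o') := by
    intro u
    refine ⟨fun hu => ?_, Submodule.mem_top⟩
    have h1 := face_mem ho' hu
    exact ⟨h1, Finset.disjoint_empty_left u, by rwa [Finset.empty_union], RA.h61_oF_card hu⟩
  have hb : RA.bdN L ∅ (RA.oF o') = 0 := by
    rw [bdN_empty]
    exact RA.h61_oFcycle ho'
  obtain ⟨y, -, hy⟩ := RA.itemB8c RA.itemB8a L hf (m + 1) hS o ho ℝ ⊤ ∅ h0 (m + 1)
    (by simp) (RA.oF o') hx hb
  have hy' : ∀ u, RA.oF o' u = RA.oF o u * y := by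
    intro u
    rw [hy u, oLk_empty, smul_eq_mul]
  have hinj := (t.orderEmbOfFin htn).injective
  have himg : Finset.univ.image (t.orderEmbOfFin htn : Fin (m + 1) → ℕ) = t := by
    apply Finset.coe_injective
    rw [Finset.coe_image, Finset.coe_univ, Set.image_univ, Finset.range_orderEmbOfFin]
  refine ⟨t.orderEmbOfFin htn, ho.2.2.1 _ hinj (by rwa [himg]),
    ho'.2.2.1 _ hinj (by rwa [himg]), ?_⟩
  have e1 : (o (t.orderEmbOfFin htn) : ℝ) = RA.oF o t := by
    unfold RA.oF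
    rw [dif_pos htn]
  have e2 : (o' (t.orderEmbOfFin htn) : ℝ) = RA.oF o' t := by
    unfold RA.oF
    rw [dif_pos htn]
  have key : ∀ s : Fin (m + 1) → ℕ,
      RA.oF o t * (o' s : ℝ) = RA.oF o' t * (o s : ℝ) := by
    intro s
    by_cases hs : Function.Injective s
    · obtain ⟨π, hπ⟩ := val hs
      rw [hπ o ho.1, hπ o' ho'.1, hy' t, hy' (Finset.univ.image s)]
      ring
    · have h1 : ∃ i j, s i = s j ∧ i ≠ j := by
        simp only [Function.Injective, not_forall] at hs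
        obtain ⟨i, j, hij, hne⟩ := hs
        exact ⟨i, j, hij, hne⟩
      obtain ⟨i, j, hij, hne⟩ := h1
      rw [RA.h61_noninj ho.1 s hne hij, RA.h61_noninj ho'.1 s hne hij]
      simp
  rw [e1, e2]
  unfold RA.zeta
  rw [Finset.smul_sum, Finset.smul_sum]
  refine Finset.sum_congr rfl fun s _ => ?_
  rw [Finset.smul_sum, Finset.smul_sum]
  refine Finset.sum_congr rfl fun B _ => ?_
  rw [Finsupp.smul_single, Finsupp.smul_single, smul_eq_mul, smul_eq_mul, ← mul_assoc,
    ← mul_assoc, key s]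

end MP8a95ee.Npc

end

section

set_option autoImplicit false

namespace MP8a95ee.Npc

open Classical

namespace URE

/-- the relabelled complex -/
def rl (L : Finset (Finset ℕ)) (σ : Equiv.Perm ℕ) : Finset (Finset ℕ) :=
  L.image fun s => s.image σ

theorem rl_inv (L : Finset (Finset ℕ)) (σ : Equiv.Perm ℕ) : rl (rl L σ) σ⁻¹ = L := by
  unfold rl
  rw [Finset.image_image]
  have h : ((fun s : Finset ℕ => s.image (σ⁻¹ : Equiv.Perm ℕ)) ∘ fun s : Finset ℕ => s.image σ) =
      id := by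
    funext s
    simp [Finset.image_image, Function.comp_def]
  rw [h, Finset.image_id]

theorem mem_rl (L : Finset (Finset ℕ)) (σ : Equiv.Perm ℕ) (s : Finset ℕ) (hs : s ∈ L) :
    s.image σ ∈ rl L σ := Finset.mem_image_of_mem _ hs

theorem mem_rl_iff (L : Finset (Finset ℕ)) (σ : Equiv.Perm ℕ) (s : Finset ℕ) :
    s.image σ ∈ rl L σ ↔ s ∈ L := by
  constructor
  · intro h
    obtain ⟨t, ht, hts⟩ := Finset.mem_image.1 h
    have h2 := Finset.image_injective σ.injective hts
    rw [← h2]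
    exact ht
  · exact mem_rl L σ s

theorem verts_rl (L : Finset (Finset ℕ)) (σ : Equiv.Perm ℕ) :
    verts (rl L σ) = (verts L).image σ := by
  ext x
  simp only [verts, rl, Finset.mem_biUnion, Finset.mem_image, id]
  constructor
  · rintro ⟨t, ⟨s, hs, rfl⟩, hx⟩
    obtain ⟨y, hy, rfl⟩ := Finset.mem_image.1 hx
    exact ⟨y, ⟨s, hs, hy⟩, rfl⟩
  · rintro ⟨y, ⟨s, hs, hy⟩, rfl⟩
    exact ⟨s.image σ, ⟨s, hs, rfl⟩, Finset.mem_image_of_mem _ hy⟩

theorem adj_rl (L : Finset (Finset ℕ)) (σ : Equiv.Perm ℕ) (a b : ℕ) (h : RA.Adj L a b) :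
    RA.Adj (rl L σ) (σ a) (σ b) := by
  refine ⟨fun hab => h.1 (σ.injective hab), ?_⟩
  have h2 := mem_rl L σ _ h.2
  rwa [Finset.image_insert, Finset.image_singleton] at h2

theorem KF_rl (L : Finset (Finset ℕ)) (σ : Equiv.Perm ℕ) {k : ℕ} (T : Fin k → Finset ℕ)
    (h : KF L T) : KF (rl L σ) fun i => (T i).image σ := by
  obtain ⟨h1, h2⟩ := h
  refine ⟨fun i => ⟨mem_rl L σ _ (h1 i).1, (h1 i).2.image _⟩, ?_⟩
  rcases h2 with ⟨u, hu⟩ | ⟨⟨P, Q⟩, hg, hf⟩
  · exact Or.inl ⟨σ u, fun i => Finset.mem_image_of_mem _ (hu i)⟩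
  · right
    refine ⟨(P.image σ, Q.image σ), ⟨mem_rl L σ _ hg.1, mem_rl L σ _ hg.2.1, hg.2.2.1.image _,
      hg.2.2.2.1.image _, (Finset.disjoint_image σ.injective).2 hg.2.2.2.2⟩, ?_, ?_, ?_⟩
    · intro i t ht htn c hc
      simp only at ht htn hc
      rw [← Finset.image_union] at htn hc
      obtain ⟨t0, ht0, rfl⟩ := Finset.mem_image.1 ht
      obtain ⟨c0, hc0, rfl⟩ := Finset.mem_image.1 hc
      exact adj_rl L σ _ _ (hf.1 i t0 ht0 (fun h => htn (Finset.mem_image_of_mem _ h)) c0 hc0)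
    · intro q hq
      obtain ⟨q0, hq0, rfl⟩ := Finset.mem_image.1 hq
      obtain ⟨p, hp, hpq⟩ := hf.2.1 q0 hq0
      refine ⟨σ p, Finset.mem_image_of_mem _ hp, fun i => ?_⟩
      rcases hpq i with h | h
      · exact Or.inl (Finset.mem_image_of_mem _ h)
      · exact Or.inr (Finset.mem_image_of_mem _ h)
    · intro p hp
      obtain ⟨p0, hp0, rfl⟩ := Finset.mem_image.1 hp
      obtain ⟨q, hq, hpq⟩ := hf.2.2 p0 hp0
      refine ⟨σ q, Finset.mem_image_of_mem _ hq, fun i => ?_⟩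
      rcases hpq i with h | h
      · exact Or.inl (Finset.mem_image_of_mem _ h)
      · exact Or.inr (Finset.mem_image_of_mem _ h)

theorem KF_rl_iff (L : Finset (Finset ℕ)) (σ : Equiv.Perm ℕ) {k : ℕ} (T : Fin k → Finset ℕ) :
    KF (rl L σ) (fun i => (T i).image σ) ↔ KF L T := by
  constructor
  · intro h
    have h2 := KF_rl _ σ⁻¹ _ h
    rw [rl_inv] at h2
    have h3 : (fun i => ((T i).image σ).image (σ⁻¹ : Equiv.Perm ℕ)) = T := by
      funext i
      simp [Finset.image_image, Function.comp_def]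
    rwa [h3] at h2
  · exact KF_rl L σ T

theorem img (σ : Equiv.Perm ℕ) {n : ℕ} (s : Fin n → ℕ) :
    (Finset.univ.image fun i => σ (s i)) = (Finset.univ.image s).image σ := by
  rw [Finset.image_image]
  rfl

theorem orient_rl (L : Finset (Finset ℕ)) (σ : Equiv.Perm ℕ) (m : ℕ)
    (o : (Fin (m + 1) → ℕ) → ℤ) (h : IsOrient (rl L σ) (m + 1) o) :
    IsOrient L (m + 1) fun s => o fun i => σ (s i) := by
  obtain ⟨h1, h2, h3, h4⟩ := h
  refine ⟨fun s i j hij => h1 (fun i => σ (s i)) i j hij, fun s hs => ?_, fun s hs hsL => ?_,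
    fun s i => ?_⟩
  · have h5 := h2 _ hs
    rw [img] at h5
    exact (mem_rl_iff L σ _).1 h5
  · refine h3 _ (σ.injective.comp hs) ?_
    rw [img]
    exact mem_rl L σ _ hsL
  · have h5 := h4 (fun i => σ (s i)) i
    rw [verts_rl, Finset.sum_image (fun a _ b _ hab => σ.injective hab)] at h5
    rw [← h5]
    refine Finset.sum_congr rfl fun x _ => ?_
    refine congrArg o ?_
    funext j
    by_cases hj : j = i
    · subst hj
      simp
    · simp [Function.update_of_ne hj]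

theorem zt_rl (σ : Equiv.Perm ℕ) {m : ℕ} (s : Fin (m + 1) → ℕ) (B : Finset ℕ) :
    RA.zt (fun i => σ (s i)) (B.image σ) = fun j => (RA.zt s B j).image σ := by
  funext j
  unfold RA.zt
  rw [Finset.image_insert, Finset.image_symmDiff _ _ σ.injective, Finset.image_image]
  rfl

theorem zeta_rl (L : Finset (Finset ℕ)) (σ : Equiv.Perm ℕ) (m : ℕ)
    (o : (Fin (m + 1) → ℕ) → ℤ) (f : (Fin (m + 1) → Finset ℕ) → ℝ) :
    Finsupp.linearCombination ℝ f (RA.zeta (rl L σ) o) =
      Finsupp.linearCombination ℝ (fun T => f fun i => (T i).image σ)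
        (RA.zeta L fun s => o fun i => σ (s i)) := by
  unfold RA.zeta
  rw [verts_rl, Fintype.piFinset_image]
  rw [Finset.sum_image]
  · simp only [map_sum, Finsupp.linearCombination_single]
    refine Finset.sum_congr rfl fun s _ => ?_
    have h1 : (Finset.univ.image fun i : Fin m => σ (s i.castSucc)) =
        (Finset.univ.image fun i : Fin m => s i.castSucc).image σ := img σ _
    rw [h1, Finset.powerset_image, Finset.sum_image]
    · refine Finset.sum_congr rfl fun B _ => ?_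
      rw [Finset.card_image_of_injective _ σ.injective]
      have h2 := zt_rl σ s B
      rw [h2]
    · intro a _ b _ hab
      exact Finset.image_injective σ.injective hab
  · intro a _ b _ hab
    funext i
    exact σ.injective (congrFun hab i)

end URE

theorem prfURE : S_URE := by
  intro L σ m
  refine ⟨fun {k} T => ?_, fun o h => ?_, fun o f => ?_⟩
  · exact URE.KF_rl_iff L σ T
  · exact URE.orient_rl L σ m o h
  · exact URE.zeta_rl L σ m o f

end MP8a95ee.Npc

end

section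

/-!
# The final assembly
-/

set_option autoImplicit false

namespace MP8a95ee.Npc

namespace Fin

theorem push_id {Y : Type} [TopologicalSpace Y] {n : ℕ} (z : SChain Y n) :
    push (ContinuousMap.id Y) z = z := by
  unfold push
  have h : (fun σ : SSimplex Y n => (ContinuousMap.id Y).comp σ) = id := by
    funext σ
    exact ContinuousMap.id_comp σ
  rw [h]
  exact Finsupp.mapDomain_id

end Fin

open Classical in
theorem prfMain (hCU : S_CU5) (hZ4 : S_ZC4) (hZ5 : S_ZC5) (hZ6 : S_ZC6) (hP1 : S_P1)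
    (hP2 : S_P2) : S_Main := by
  intro X hX hf m hS Γ F hD o ho
  have hchi := hZ5 X hX hf Γ F hD
  -- the local numbers
  have hkap : ∀ x ∈ F, RA.Bounds (link X x) (o x) (KF (link X x)) →
      ∑ s ∈ link X x, (-1 / 2 : ℚ) ^ s.card = 0 := by
    intro x _ hb
    have h1 := hP2 (link X x) ((hZ6 X hX hf).1 x).1 m (hS x) (o x)
      ((hZ6 X hX hf).2 Γ (m + 1) o ho x) hb
    have h2 : ((∑ s ∈ link X x, (-1 / 2 : ℚ) ^ s.card : ℚ) : ℝ) = 0 := by
      push_cast
      exact h1
    exact_mod_cast h2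
  have horb : ∀ x, ∃ y ∈ F, ∑ s ∈ link X x, (-1 / 2 : ℚ) ^ s.card =
      ∑ s ∈ link X y, (-1 / 2 : ℚ) ^ s.card := by
    intro x
    obtain ⟨y, ⟨hy, g, hg, hgx⟩, -⟩ := hD.rep x
    refine ⟨y, hy, ?_⟩
    have h1 := (hCU X hX hf g (hD.auto g hg)).2.2.2.1
    rw [← hgx]
    refine Finset.sum_bij (fun s _ => s.image g) ?_ ?_ ?_ ?_
    · intro s hs
      exact (h1 x s).2 hs
    · intro s _ t _ h
      exact Finset.image_injective g.injective h
    · intro t ht
      refine ⟨t.image g.symm, ?_, ?_⟩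
      · rw [← h1, Finset.image_image]
        have h2 : (g : ℕ → ℕ) ∘ g.symm = id := by
          funext a
          simp
        rw [h2, Finset.image_id]
        exact ht
      · rw [Finset.image_image]
        have h2 : (g : ℕ → ℕ) ∘ g.symm = id := by
          funext a
          simp
        rw [h2, Finset.image_id]
    · intro s _
      rw [Finset.card_image_of_injective _ g.injective]
  refine ⟨hZ4 X hX hf Γ F hD m o ho, hchi, fun hvol => ?_, fun hne => ?_⟩
  · have h1 : ∀ x, ∑ s ∈ link X x, (-1 / 2 : ℚ) ^ s.card = 0 := by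
      intro x
      obtain ⟨y, hy, hxy⟩ := horb x
      rw [hxy]
      refine hkap y hy ?_
      by_contra hnb
      obtain ⟨c, hc, h⟩ := hP1 X hX hf Γ F hD m o ho y hy hnb
      obtain ⟨b, hb⟩ := hvol c hc
      have h3 := h (Mfd X Γ) (ContinuousMap.id _) 1 (fundCycle X Γ F o + bd b) b (by
        rw [Fin.push_id, one_smul])
      rw [abs_one, mul_one] at h3
      exact absurd hb (not_lt.2 h3)
    refine ⟨h1, ?_⟩
    rw [Finset.sum_eq_zero fun x _ => h1 x] at hchi
    exact_mod_cast hchi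
  · have h1 : ∃ x ∈ F, ∑ s ∈ link X x, (-1 / 2 : ℚ) ^ s.card ≠ 0 := by
      rcases hne with h | ⟨x, hx⟩
      · by_contra hcon
        push Not at hcon
        rw [Finset.sum_eq_zero fun x hx => hcon x hx] at hchi
        exact h (by exact_mod_cast hchi)
      · obtain ⟨y, hy, hxy⟩ := horb x
        exact ⟨y, hy, fun h0 => hx (hxy.trans h0)⟩
    obtain ⟨x, hxF, hx⟩ := h1
    exact hP1 X hX hf Γ F hD m o ho x hxF fun hb => hx (hkap x hxF hb)

end MP8a95ee.Npc

end

section

/-!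
# The uniform main theorem
-/

set_option autoImplicit false

namespace MP8a95ee.Npc

open Classical in
theorem prfUMain (hUBD : S_UBD) (hUFU : S_UFU) (hUCO : S_UCO) (hCO : S_CO) (hTP : S_TP3)
    (hEV2 : S_EV2) (hEV3 : S_EV3) (hZ6 : S_ZC6) (hULO : S_ULO) : S_UMain := by
  intro m N
  obtain ⟨B, hB⟩ := hUBD N (m + 1)
  obtain ⟨C, hC0, hC⟩ := hULO m N
  set K : ℝ := B * ((m + 2) * C) with hK
  have hK0 : 0 ≤ K := by positivity
  refine ⟨2 / (K + 1), by positivity, ?_⟩
  intro X hX hf hN hS Γ F hD o ho Y _ g lam z w h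
  have hflag := fun x => ((hZ6 X hX hf).1 x).1
  have hor := (hZ6 X hX hf).2 Γ (m + 1) o ho
  have hloc : ∀ x, ∃ f : (Fin (m + 1) → Finset ℕ) → ℝ,
      (∀ T : Fin (m + 2) → Finset ℕ, KF (link X x) T → RA.dl f T = 0) ∧
      (∀ T : Fin (m + 1) → Finset ℕ, (∀ i, T i ∈ link X x) → |f T| ≤ C) ∧
      |∑ s ∈ link X x, (-1 / 2 : ℝ) ^ s.card| ≤
        Finsupp.linearCombination ℝ f (RA.zeta (link X x) (o x)) := by
    intro x
    refine hC (link X x) (hflag x) ?_ (hS x) (o x) (hor x)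
    rw [((hZ6 X hX hf).1 x).2.1]
    exact hN x
  choose f0 hf1 hf2 hf3 using hloc
  obtain ⟨f, hE, hV, hfC, hfx⟩ := hUFU X hX hf Γ F hD m f0 C hC0 (fun x _ => hf1 x)
    fun x _ => hf2 x
  obtain ⟨hVK, -, hinv, hcoc⟩ := hCO X hX hf Γ F hD m f hE hV C hfC
  have hbd := hUCO X hX hf m B (fun v Z hZ => hB X hX hf hN v Z hZ) f hV C hfC
  obtain ⟨c, hc1, hc2, hc3⟩ := hTP X hX hf Γ F hD (m + 1) (ct X f) K hbd hinv hcoc
  set S : ℝ := ∑ x ∈ F, |∑ s ∈ link X x, (-1 / 2 : ℝ) ^ s.card| with hSdef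
  have hS0 : 0 ≤ S := Finset.sum_nonneg fun x _ => abs_nonneg _
  set A : ℝ := 2 * (-1) ^ m * ∑ x ∈ F, Finsupp.linearCombination ℝ (f x)
    (RA.zeta (link X x) (o x)) with hA
  have hev : E.ev c (fundCycle X Γ F o) = A := by
    rw [← B3.ev_eq]
    have h1 := hEV3 X hX hf Γ F (m + 1) o ho c (ct X f) hc3
    refine (Eq.trans ?_ h1).trans ?_
    · refine Finsupp.sum_congr fun σ _ => ?_
      ring
    rw [hEV2 X hX hf Γ F hD m o ho f hVK hE, hA]
  have hsum : S ≤ ∑ x ∈ F, Finsupp.linearCombination ℝ (f x) (RA.zeta (link X x) (o x)) := by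
    refine Finset.sum_le_sum fun x hx => ?_
    refine (hf3 x).trans (le_of_eq ?_)
    refine P2.lin_congr fun T hT => ?_
    exact (hfx x hx T fun i => ((P2.zeta_supp (hflag x) (hor x) T hT).1 i).1).symm
  have hAabs : 2 * S ≤ |A| := by
    rw [hA, abs_mul, abs_mul, abs_pow, abs_neg, abs_one, one_pow, mul_one, abs_two]
    refine mul_le_mul_of_nonneg_left ?_ (by norm_num)
    exact hsum.trans (le_abs_self _)
  have hbd0 : E.ev c (bd w) = 0 := by
    have := B3.ev_bd c hc2 w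
    rw [B3.ev_eq] at this
    exact this
  have hzz : E.ev (fun σ => c (g.comp σ)) z = lam * A := by
    rw [← MP8a95ee.F.ev_push, h, map_add, map_smul, hev, hbd0, add_zero, smul_eq_mul]
  have hle := B3.ev_le (fun σ => c (g.comp σ)) (K + 1) (fun σ => by
    have := hc1 (g.comp σ)
    linarith) z
  rw [B3.ev_eq] at hle
  have hle' : |lam * A| ≤ (K + 1) * l1 z := by
    rw [← hzz]; exact hle
  rw [abs_mul] at hle'
  have h3 : |lam| * (2 * S) ≤ (K + 1) * l1 z :=
    (mul_le_mul_of_nonneg_left hAabs (abs_nonneg _)).trans hle'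
  have h4 : 2 / (K + 1) * |lam| * S = |lam| * (2 * S) / (K + 1) := by ring
  rw [h4, div_le_iff₀ (by positivity)]
  linarith

end MP8a95ee.Npc

end

section

/-!
# Everything together
-/

set_option autoImplicit false

namespace MP8a95ee.Npc

theorem allMG1 : S_MG1 := prfMG1

theorem allMG2 : S_MG2 := prfMG2 allMG1

theorem allMG3 : S_MG3 := prfMG3 allMG2

theorem allMG4 : S_MG4 := prfMG4

theorem allMG5 : S_MG5 := prfMG5 allMG1 allMG2 allMG3 allMG4

theorem allWA2 : S_WA2 := prfWA2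

theorem allWA1 : S_WA1 := prfWA1 allWA2

theorem allWA3 : S_WA3 := prfWA3 allWA2

theorem allWA6 : S_WA6 := prfWA6 allWA1 allWA2 allWA3

theorem allCU5 : S_CU5 := prfCU5 allMG5 allWA2 allWA6

theorem allCU1 : S_CU1 := prfCU1 allMG5 allWA2 allWA6

theorem allCU2 : S_CU2 := prfCU2 allMG5 allWA2 allWA6 allCU1

theorem allCU3 : S_CU3 := prfCU3 allMG5 allWA2 allWA6 allCU1

theorem allZC1 : S_ZC1 := prfZC1 allCU1 allCU2 allCU3 allCU5

theorem allPT1 : S_PT1 := prfPT1 allCU1

theorem allPT3 : S_PT3 := prfPT3 allCU1 allCU3 allCU5 allPT1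

theorem allZC2 : S_ZC2 := prfZC2 allPT3 allCU5 allZC1

theorem allPT2 : S_PT2 := prfPT2 allCU1 allCU3

theorem allZC3 : S_ZC3 := prfZC3 allCU1 allPT1 allPT2

theorem allZC4 : S_ZC4 := prfZC4 allCU5 allZC1 allZC2 allZC3

theorem allZC5 : S_ZC5 := prfZC5 allCU1 allCU2 allCU3 allCU5 allPT3

theorem allZC6 : S_ZC6 := prfZC6

theorem allDU : S_DU := prfDU

theorem allFU : S_FU := prfFU allCU5 allPT3

theorem allDEG : S_DEG := prfDEG

theorem allRAM : S_RAM := prfRAM

theorem allWA4 : S_WA4 := prfWA4 allWA1 allWA2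

theorem allHA : S_HA := prfHA allWA2 allWA4

theorem allHB : S_HB := prfHB allWA4

theorem allWA5 : S_WA5 := prfWA5

theorem allHC : S_HC := prfHC allWA3 allWA5

theorem allHD : S_HD := prfHD allWA1

theorem allHE : S_HE := prfHE allWA1 allWA2 allWA3

theorem allHOM : S_HOM := prfHOM allWA1 allWA2 allWA3 allHA allHB allHC allHD allHE

theorem allBD : S_BD := prfBD allMG5 allRAM allHOM

theorem allCO : S_CO := prfCO allCU5 allDEG allBD

theorem allTP1 : S_TP1 := prfTP1 allPT3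

theorem allTP2 : S_TP2 := prfTP2 allPT3 allTP1

theorem allTP3 : S_TP3 := prfTP3 allTP2

theorem allCU4 : S_CU4 := prfCU4 allMG5 allWA2 allWA6

theorem allEV1 : S_EV1 := prfEV1 allMG5 allWA2 allWA3 allCU1 allCU4 allZC1

theorem allEV2 : S_EV2 := prfEV2 allEV1 allZC1 allZC2 allZC6

theorem allEV3 : S_EV3 := prfEV3 allZC3

theorem allP1 : S_P1 := prfP1 allDU allFU allCO allTP3 allEV2 allEV3 allZC6

theorem allPS1 : S_PS1 := prfPS1

theorem allPS2 : S_PS2 := prfPS2

theorem allPS3 : S_PS3 := prfPS3 allPS1 allPS2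

theorem allNU1 : S_NU1 := prfNU1

theorem allNU2 : S_NU2 := prfNU2

theorem allNU3 : S_NU3 := prfNU3

theorem allNU4 : S_NU4 := prfNU4 allNU1 allNU2 allNU3

theorem allJ1 : S_J1 := prfJ1

theorem allJ3 : S_J3 := prfJ3 allJ1

theorem allTH1 : S_TH1 := prfTH1

theorem allTH2 : S_TH2 := prfTH2 allJ3 allTH1

theorem allTH3 : S_TH3 := prfTH3 allJ3

theorem allSP3 : S_SP3 := prfSP3

theorem allSP1 : S_SP1 := prfSP1

theorem allSP4 : S_SP4 := prfSP4 allSP1

theorem allSP5 : S_SP5 := prfSP5 allNU1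

theorem allSP2 : S_SP2 := prfSP2

theorem allSP6 : S_SP6 := prfSP6 allJ1 allSP2

theorem allJ2 : S_J2 := prfJ2

theorem allAC1 : S_AC1 := prfAC1

theorem allAC2 : S_AC2 := prfAC2 allJ2 allAC1

theorem allP2 : S_P2 := prfP2 allPS3 allNU4 allTH2 allTH3 allSP3 allSP4 allSP5 allSP6 allAC2

theorem allMain : S_Main := prfMain allCU5 allZC4 allZC5 allZC6 allP1 allP2

end MP8a95ee.Npc

end
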