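import Mathlib
import Pool.Agent.Work.MP_8a95ee_gt.Ref.Stmts
import Pool.Agent.Work.MP_8a95ee_gt.R.ItemB10
import Pool.Agent.Work.MP_8a95ee_gt.Bd.B05
import Pool.Agent.Work.MP_8a95ee_gt.Bd.B06

/-! Bundle of small proof modules (one section per former module). -/

section

/-!
# Elementary facts about singular chains
-/

set_option autoImplicit false

namespace MP8a95ee.Ref.Basic

/-- `bd` as a linear map -/
noncomputable def bdLin (X : Type) [TopologicalSpace X] (n : ℕ) :
    SChain X (n + 1) →ₗ[ℝ] SChain X n :=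
  Finsupp.linearCombination ℝ fun σ => ∑ i : Fin (n + 2), Finsupp.single (face σ i) ((-1 : ℝ) ^ (i : ℕ))

theorem bd_eq {X : Type} [TopologicalSpace X] {n : ℕ} (c : SChain X (n + 1)) :
    bd c = bdLin X n c := by
  unfold bd bdLin
  rw [Finsupp.linearCombination_apply]
  refine Finsupp.sum_congr fun σ _ => ?_
  rw [Finset.smul_sum]
  refine Finset.sum_congr rfl fun i _ => ?_
  rw [Finsupp.smul_single, smul_eq_mul, mul_comm]

theorem bd_add {X : Type} [TopologicalSpace X] {n : ℕ} (c c' : SChain X (n + 1)) :
    bd (c + c') = bd c + bd c' := by rw [bd_eq, bd_eq, bd_eq, map_add]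

theorem bd_smul {X : Type} [TopologicalSpace X] {n : ℕ} (r : ℝ) (c : SChain X (n + 1)) :
    bd (r • c) = r • bd c := by rw [bd_eq, bd_eq, map_smul]

theorem push_add {X Y : Type} [TopologicalSpace X] [TopologicalSpace Y] (f : C(X, Y)) {n : ℕ}
    (c c' : SChain X n) : push f (c + c') = push f c + push f c' := Finsupp.mapDomain_add

theorem face_comp {X Y : Type} [TopologicalSpace X] [TopologicalSpace Y] (f : C(X, Y)) {n : ℕ}
    (σ : SSimplex X (n + 1)) (i : Fin (n + 2)) : face (f.comp σ) i = f.comp (face σ i) := rfl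

theorem bd_push {X Y : Type} [TopologicalSpace X] [TopologicalSpace Y] (f : C(X, Y)) {n : ℕ}
    (c : SChain X (n + 1)) : bd (push f c) = push f (bd c) := by
  induction c using Finsupp.induction_linear with
  | zero => simp [bd, push]
  | add c c' h h' => rw [push_add, bd_add, h, h', bd_add, push_add]
  | single σ a =>
    unfold bd push
    rw [Finsupp.mapDomain_single, Finsupp.sum_single_index (by simp),
      Finsupp.sum_single_index (by simp), Finsupp.mapDomain_finset_sum]
    refine Finset.sum_congr rfl fun i _ => ?_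
    rw [Finsupp.mapDomain_single, face_comp]

end MP8a95ee.Ref.Basic

end

section

/-!
# A1: homology manifolds are pure
-/

set_option autoImplicit false

namespace MP8a95ee.Ref.A1P

open RA

/-- a nonempty maximal face has `n` vertices -/
theorem A1_max (L : Finset (Finset ℕ)) (hL : FlagC L) (n : ℕ) (hS : IsHMfd L n)
    (t : Finset ℕ) (ht : t ∈ L) (htn : t.Nonempty) (hmax : ∀ u ∈ L, t ⊆ u → u = t) :
    t.card = n := by
  by_contra hne
  have hempty : (∅ : Finset ℕ) ∈ L :=
    (hL ∅).2 fun x hx => absurd hx (Finset.notMem_empty x)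
  obtain ⟨c', hc', hb⟩ := (hS t ht htn).1 0 (by simpa using hne)
    (fun u => if u = ∅ then 1 else 0) (by
      intro u hu
      have : u = ∅ := by
        by_contra h
        exact hu (if_neg h)
      subst this
      exact ⟨hempty, Finset.disjoint_empty_right _, by simpa using ht, rfl⟩) (by
      funext u
      unfold bdS
      apply Finset.sum_eq_zero
      intro a _
      simp only [Finset.insert_ne_empty, if_false, mul_zero])
  have h0 : ∀ u, c' u = 0 := by
    intro u
    by_contra hu
    obtain ⟨_, hd, hu2, hcard⟩ := hc' u hu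
    have h1 := hmax _ hu2 Finset.subset_union_left
    have h2 : u ⊆ t := by
      rw [← h1]; exact Finset.subset_union_right
    have h3 : u = ∅ := by
      rw [← Finset.disjoint_self_iff_empty]
      exact hd.mono_left h2
    rw [h3] at hcard
    simp at hcard
  have h1 := congrFun hb ∅
  simp only [bdS, h0, mul_zero, Finset.sum_const_zero, if_true] at h1
  exact zero_ne_one h1

/-- A1: homology manifolds are pure -/
theorem prf : S_A1 := by
  intro L hL n hS s hs hsn
  obtain ⟨t, hst, htmax⟩ := (L.filter fun u => s ⊆ u).exists_le_maximal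
    (Finset.mem_filter.2 ⟨hs, Finset.Subset.refl s⟩)
  have ht := Finset.mem_filter.1 htmax.prop
  have hcard := A1_max L hL n hS t ht.1 (hsn.mono ht.2) (by
    intro u hu htu
    exact le_antisymm (htmax.le_of_ge (Finset.mem_filter.2 ⟨hu, ht.2.trans htu⟩) htu) htu)
  exact ⟨hcard ▸ Finset.card_le_card ht.2, t, ht.1, ht.2, hcard⟩

end MP8a95ee.Ref.A1P

end

section

/-!
# Item A10: the bound for the curvature
-/

set_option autoImplicit false

namespace MP8a95ee.Ref.A10P

open MP8a95ee.Ref
open RA

theorem prf (h7 : S_A7) (h8 : S_A8) (h9 : S_A9) : S_A10 := by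
  intro L hL hne m hM o ho hB
  obtain ⟨e, he, hfr⟩ := itemB10 L hL
  have a9 := h9 L hL (Finset (verts L) → ℝ) e he
  have a7 := h7 L hL hne m hM o ho hB (Finset (verts L) → ℝ) e he
  have a8 := h8 L hL hne (Finset (verts L) → ℝ)
  have hN : Module.finrank ℝ (Finset (verts L) → ℝ) = 2 ^ (verts L).card := by
    rw [Module.finrank_fintype_fun_eq_card, Fintype.card_finset, Fintype.card_coe]
  rw [hN] at a8
  have h1 : |∑ s ∈ L, (-1 : ℤ) ^ s.card * (Module.finrank ℝ (Es e s) : ℤ)| ≤
      2 ^ (verts L).card * (betti L : ℤ) := by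
    refine a9.trans ?_
    zify at a7 a8
    linarith
  have h2 : ((∑ s ∈ L, (-1 : ℤ) ^ s.card * (Module.finrank ℝ (Es e s) : ℤ) : ℤ) : ℚ) =
      2 ^ (verts L).card * ∑ s ∈ L, (-1 / 2 : ℚ) ^ s.card := by
    rw [Int.cast_sum, Finset.mul_sum]
    refine Finset.sum_congr rfl fun s hs => ?_
    rw [hfr s hs]
    have hsub : s ⊆ verts L := fun a ha => Finset.mem_biUnion.mpr ⟨s, hs, ha⟩
    have hc : s.card ≤ (verts L).card := Finset.card_le_card hsub
    have h3 : (2 : ℚ) ^ (verts L).card = 2 ^ ((verts L).card - s.card) * 2 ^ s.card := by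
      rw [← pow_add, Nat.sub_add_cancel hc]
    rw [h3, div_pow]
    push_cast
    field_simp
  have h4 : |((∑ s ∈ L, (-1 : ℤ) ^ s.card * (Module.finrank ℝ (Es e s) : ℤ) : ℤ) : ℚ)| ≤
      2 ^ (verts L).card * (betti L : ℚ) := by
    exact_mod_cast h1
  rw [h2, abs_mul, abs_of_pos (by positivity : (0 : ℚ) < 2 ^ (verts L).card)] at h4
  exact le_of_mul_le_mul_left h4 (by positivity)

end MP8a95ee.Ref.A10P

end

section

/-!
# A2: exactness of the links with coefficients below the top size
-/

set_option autoImplicit false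

namespace MP8a95ee.Ref.A2P

open MP8a95ee MP8a95ee.RA MP8a95ee.Ref

theorem prf : S_A2 := by
  intro L hf n hS N _ _ E s hs hsn k hk x hx hbx
  obtain ⟨h, h1, h2⟩ := h61_fill L s k ((hS s hs hsn).1 k hk)
  -- real chains obtained from functionals
  have hfx : ∀ f : Module.Dual ℝ N, LkChain L s k (fun u => f (x u)) := by
    intro f t ht
    refine (hx t).1 fun h0 => ht ?_
    change f (x t) = 0
    rw [h0, map_zero]
  have hfb : ∀ f : Module.Dual ℝ N, bdS L (fun u => f (x u)) = 0 := by
    intro f
    funext u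
    rw [h61_bdlink (hfx f)]
    have h3 := congrFun hbx u
    unfold bdN at h3
    have h4 := congrArg f h3
    rw [map_sum] at h4
    rw [Pi.zero_apply] at h4
    rw [map_zero] at h4
    rw [Pi.zero_apply, ← h4]
    exact Finset.sum_congr rfl fun a _ => by rw [map_smul, smul_eq_mul]
  set y : Finset ℕ → N := fun u => ∑ w ∈ L, (h (Pi.single w 1) u) • x w with hy
  -- functionals of `y`
  have hfy : ∀ (f : Module.Dual ℝ N) (u : Finset ℕ), f (y u) = h (fun u => f (x u)) u := by
    intro f u
    have h3 : (fun u => f (x u)) = ∑ w ∈ L, f (x w) • (Pi.single w 1 : Finset ℕ → ℝ) := by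
      funext t
      rw [Finset.sum_apply]
      by_cases ht : t ∈ L
      · rw [Finset.sum_eq_single t]
        · simp
        · intro b _ hb
          simp [hb.symm]
        · intro h; exact absurd ht h
      · have : x t = 0 := by
          by_contra h0
          exact ht ((hx t).1 h0).1
        rw [this, map_zero]
        symm
        refine Finset.sum_eq_zero fun b hb => ?_
        have : t ≠ b := fun h => ht (h ▸ hb)
        simp [this]
    have h4 : h (fun u => f (x u)) u = ∑ w ∈ L, f (x w) * h (Pi.single w 1) u := by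
      rw [h3, map_sum, Finset.sum_apply]
      exact Finset.sum_congr rfl fun w _ => by rw [map_smul, Pi.smul_apply, smul_eq_mul]
    rw [h4, hy]
    change f (∑ w ∈ L, (h (Pi.single w 1) u) • x w) = _
    rw [map_sum]
    exact Finset.sum_congr rfl fun w _ => by rw [map_smul, smul_eq_mul, mul_comm]
  refine ⟨y, ?_, ?_⟩
  · intro u
    refine ⟨?_, Submodule.sum_mem _ fun w _ => Submodule.smul_mem _ _ (hx w).2⟩
    intro hne
    by_contra hcon
    apply hne
    refine Finset.sum_eq_zero fun w _ => ?_
    have h3 : h (Pi.single w 1) u = 0 := by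
      by_contra h4
      exact hcon (h1 _ u h4)
    rw [h3, zero_smul]
  · funext u
    rw [← sub_eq_zero]
    refine h61_dual fun f => ?_
    have h3 := congrFun (h2 _ (hfx f) (hfb f)) u
    rw [h61_bdlink (h1 _)] at h3
    rw [map_sub, sub_eq_zero, ← h3]
    unfold bdN
    rw [map_sum]
    exact Finset.sum_congr rfl fun a _ => by rw [map_smul, hfy, smul_eq_mul]

end MP8a95ee.Ref.A2P

end

section

/-!
# A3: top cycles of the links with coefficients
-/

set_option autoImplicit false

namespace MP8a95ee.Ref.A3P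

open RA

theorem prf (h8a : S_A1) : S_A3 := by
  intro L hf n hS o ho N _ _ E s hs hsn k hk x hx hbx
  -- the restricted orientation
  have hoL : LkChain L s k (oLk o s) := by
    intro u hu
    have hd : Disjoint s u := by
      by_contra h
      apply hu
      unfold oLk
      rw [if_neg h]
    have h1 : oF o (s ∪ u) ≠ 0 := by
      intro h
      apply hu
      unfold oLk
      rw [if_pos hd, h, mul_zero]
    have h2 := h61_oF_card h1
    have h3 : s ∪ u ∈ L := by
      have h4 : o ((s ∪ u).orderEmbOfFin h2) ≠ 0 := by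
        intro h
        apply h1
        unfold oF
        rw [dif_pos h2, h]
        norm_num
      have h5 := ho.2.1 _ h4
      have h6 : Finset.univ.image ((s ∪ u).orderEmbOfFin h2 : Fin n → ℕ) = s ∪ u := by
        apply Finset.coe_injective
        rw [Finset.coe_image, Finset.coe_univ, Set.image_univ, Finset.range_orderEmbOfFin]
      rwa [h6] at h5
    refine ⟨hf.mono h3 Finset.subset_union_right, hd, h3, ?_⟩
    rw [Finset.card_union_of_disjoint hd] at h2
    omega
  have hoC : bdS L (oLk o s) = 0 := by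
    funext u
    rw [h61_bdlink hoL]
    by_cases hd : Disjoint s u
    · have h1 : ∀ a ∈ verts L \ (s ∪ u), sg a u * oLk o s (insert a u) =
          ((-1) ^ s.card * sgg s u) * (sg a (s ∪ u) * oF o (insert a (s ∪ u))) := by
        intro a ha
        obtain ⟨has, hau⟩ := h61_out ha
        unfold oLk
        rw [if_pos (h61_di hd has), Finset.union_insert, ← mul_assoc, h61_sign2 has hau hd]
        ring
      rw [Finset.sum_congr rfl h1, ← Finset.mul_sum]
      have h2 := congrFun (h61_oFcycle ho) (s ∪ u)
      unfold bdS at h2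
      rw [h2]
      simp
    · refine Finset.sum_eq_zero fun a ha => ?_
      unfold oLk
      rw [if_neg (fun h => hd (h.mono_right (Finset.subset_insert _ _))), mul_zero]
  obtain ⟨-, t, ht, hst, htn⟩ := h8a L hf n hS s hs hsn
  set u0 := t \ s with hu0
  have hd0 : Disjoint s u0 := Finset.disjoint_sdiff
  have ho0 : oLk o s u0 ≠ 0 := by
    unfold oLk
    rw [if_pos hd0, Finset.union_sdiff_of_subset hst]
    exact mul_ne_zero (h61_sgg_ne _ _) (h61_oF_ne ho ht htn)
  obtain ⟨z, -, -, -, hz⟩ := (hS s hs hsn).2 k hk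
  have hone : ∀ c, LkChain L s k c → bdS L c = 0 → ∃ lam : ℝ, c = lam • z := by
    intro c hc hbc
    obtain ⟨lam, c', hc', he⟩ := hz c hc hbc
    have h1 : c' = 0 := by
      funext w
      by_contra h0
      obtain ⟨-, h2, h3, h4⟩ := hc' w h0
      have h5 := (h8a L hf n hS _ h3 (hsn.mono Finset.subset_union_left)).1
      rw [Finset.card_union_of_disjoint h2] at h5
      omega
    have h2 : bdS L (0 : Finset ℕ → ℝ) = 0 := by
      funext w
      unfold bdS
      simp
    rw [h1, h2, add_zero] at he
    exact ⟨lam, he⟩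
  obtain ⟨l0, hl0⟩ := hone _ hoL hoC
  have hl0' : l0 ≠ 0 := by
    intro h
    apply ho0
    rw [hl0, h, zero_smul]
    rfl
  refine ⟨(oLk o s u0)⁻¹ • x u0, Submodule.smul_mem _ _ (hx u0).2, fun u => ?_⟩
  rw [← sub_eq_zero]
  refine h61_dual fun f => ?_
  have hfx : LkChain L s k (fun u => f (x u)) := by
    intro t' ht'
    refine (hx t').1 fun h0 => ht' ?_
    change f (x t') = 0
    rw [h0, map_zero]
  have hfb : bdS L (fun u => f (x u)) = 0 := by
    funext u
    rw [h61_bdlink hfx]
    have h3 := congrFun hbx u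
    unfold bdN at h3
    have h4 := congrArg f h3
    rw [map_sum, Pi.zero_apply, map_zero] at h4
    rw [Pi.zero_apply, ← h4]
    exact Finset.sum_congr rfl fun a _ => by rw [map_smul, smul_eq_mul]
  obtain ⟨l, hl⟩ := hone _ hfx hfb
  have hv : ∀ w, f (x w) = l * z w := fun w => congrFun hl w
  have hw : ∀ w, oLk o s w = l0 * z w := fun w => congrFun hl0 w
  have hz0 : z u0 ≠ 0 := by
    intro h
    apply ho0
    rw [hw, h, mul_zero]
  rw [map_sub, map_smul, map_smul, smul_eq_mul, smul_eq_mul, hv, hv, hw, hw]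
  field_simp
  ring

end MP8a95ee.Ref.A3P

end

section

/-!
# Block Ref, item A4: moving a filling to the top size
-/

set_option autoImplicit false

namespace MP8a95ee.Ref.A4P

open RA

private lemma b8d_dD_add (L : Finset (Finset ℕ)) {N : Type} [AddCommGroup N] [Module ℝ N]
    (e : ℕ → N →ₗ[ℝ] N) (x z : Finset ℕ → Finset ℕ → N) :
    dD L e (fun s u => x s u + z s u) = fun s u => dD L e x s u + dD L e z s u := by
  funext s u
  unfold dD
  by_cases h : Disjoint s u
  · rw [if_pos h, if_pos h, if_pos h]
    simp only [map_add, smul_add, Finset.sum_add_distrib]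
    abel
  · rw [if_neg h, if_neg h, if_neg h, add_zero]

private lemma b8d_level (L : Finset (Finset ℕ)) {N : Type} [AddCommGroup N] [Module ℝ N]
    (e : ℕ → N →ₗ[ℝ] N) (y : Finset ℕ → Finset ℕ → N) (q : ℕ)
    (hy : ∀ s u, y s u ≠ 0 → (s ∪ u).card = q + 1) (s u : Finset ℕ) (hsu : (s ∪ u).card ≤ q)
    (hd : Disjoint s u) : dD L e y s u = - bdN L s (y s) u := by
  unfold dD bdN
  rw [if_pos hd]
  have h1 : ∑ a ∈ s, sg a u • e a (y (s.erase a) (insert a u)) = 0 := by
    apply Finset.sum_eq_zero
    intro a ha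
    have h2 : y (s.erase a) (insert a u) = 0 := by
      by_contra hne
      have h3 := hy _ _ hne
      have h4 : s.erase a ∪ insert a u = s ∪ u := by
        ext b
        simp only [Finset.mem_union, Finset.mem_erase, Finset.mem_insert]
        constructor
        · rintro (h | h | h)
          · exact Or.inl h.2
          · exact Or.inl (h ▸ ha)
          · exact Or.inr h
        · rintro (h | h)
          · by_cases hb : b = a
            · exact Or.inr (Or.inl hb)
            · exact Or.inl ⟨hb, h⟩
          · exact Or.inr (Or.inr h)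
      rw [h4] at h3
      omega
    rw [h2, map_zero, smul_zero]
  rw [h1, zero_sub]

theorem prf (h8a : Ref.S_A1) (h8b : Ref.S_A2) : Ref.S_A4 := by
  have h1 : S_B1 := itemB1
  intro L hL n hH N _ _ e he x hx hx0 hdx
  have down : ∀ s t : Finset ℕ, s ⊆ t → t ∈ L → s ∈ L := fun s t hst ht =>
    (hL s).2 fun a ha b hb => (hL t).1 ht a (hst ha) b (hst hb)
  have hverts : ∀ s ∈ L, s ⊆ verts L := fun s hs a ha => by
    unfold verts
    exact Finset.mem_biUnion.2 ⟨s, hs, ha⟩
  have key : ∀ q ≤ n, ∃ x' : Finset ℕ → Finset ℕ → N, IsDD L e (verts L) x' ∧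
      dD L e x' = dD L e x ∧ (∀ u, x' ∅ u = 0) ∧ ∀ s u, (s ∪ u).card < q → x' s u = 0 := by
    intro q
    induction q with
    | zero => intro _; exact ⟨x, hx, rfl, hx0, fun s u h => absurd h (Nat.not_lt_zero _)⟩
    | succ q ih =>
      intro hq
      obtain ⟨x', hx', hdx', hx0', hlow⟩ := ih (by omega)
      have hex : ∀ s : Finset ℕ, ∃ y : Finset ℕ → N,
          (∀ u, (y u ≠ 0 → Disjoint s u ∧ s ∪ u ∈ L ∧ (s ∪ u).card = q + 1) ∧ y u ∈ Es e s) ∧
          (∀ u, Disjoint s u → (s ∪ u).card = q → bdN L s y u = x' s u) ∧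
          (s = ∅ → ∀ u, y u = 0) := by
        intro s
        by_cases hs : s ∈ L ∧ s.card ≤ q ∧ s.Nonempty
        · obtain ⟨hsL, hsq, hsne⟩ := hs
          obtain ⟨k, hk⟩ := Nat.exists_eq_add_of_le hsq
          set xs : Finset ℕ → N := fun u => if (s ∪ u).card = q then x' s u else 0 with hxs
          have hne : ∀ u, xs u ≠ 0 → (s ∪ u).card = q ∧ x' s u ≠ 0 := by
            intro u hu
            rw [hxs] at hu
            simp only at hu
            split_ifs at hu with hc
            · exact ⟨hc, hu⟩
            · exact absurd rfl hu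
          have hlk : LkN L (Es e s) s k xs := by
            intro u
            refine ⟨fun hu => ?_, ?_⟩
            · obtain ⟨hc, hu'⟩ := hne u hu
              obtain ⟨h2, h3, h4⟩ := (hx' s u).1 hu'
              refine ⟨down _ _ Finset.subset_union_right h3, h2, h3, ?_⟩
              rw [Finset.card_union_of_disjoint h2] at hc
              omega
            · rw [hxs]
              simp only
              split_ifs
              · exact (hx' s u).2
              · exact Submodule.zero_mem _
          have hbd : bdN L s xs = 0 := by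
            funext u
            rw [Pi.zero_apply]
            by_cases hd : Disjoint s u
            · by_cases hc : (s ∪ u).card + 1 = q
              · have h2 : dD L e x' s u = 0 := by
                  rw [hdx']
                  by_contra hcon
                  have := hdx s u hcon
                  omega
                have h3 : bdN L s xs u = bdN L s (x' s) u := by
                  unfold bdN
                  apply Finset.sum_congr rfl
                  intro a ha
                  have ha' : a ∉ s ∪ u := (Finset.mem_sdiff.1 ha).2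
                  have h4 : (s ∪ insert a u).card = q := by
                    rw [Finset.union_insert, Finset.card_insert_of_notMem ha']
                    exact hc
                  rw [hxs]
                  simp only [h4, if_true]
                rw [h3]
                have h5 : dD L e x' s u = - bdN L s (x' s) u := by
                  unfold dD bdN
                  rw [if_pos hd]
                  have h6 : ∑ a ∈ s, sg a u • e a (x' (s.erase a) (insert a u)) = 0 := by
                    apply Finset.sum_eq_zero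
                    intro a ha
                    have h7 : x' (s.erase a) (insert a u) = 0 := by
                      apply hlow
                      have h8 : s.erase a ∪ insert a u ⊆ s ∪ u := by
                        intro b hb
                        simp only [Finset.mem_union, Finset.mem_erase, Finset.mem_insert] at hb ⊢
                        rcases hb with h | h | h
                        · exact Or.inl h.2
                        · exact Or.inl (h ▸ ha)
                        · exact Or.inr h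
                      have := Finset.card_le_card h8
                      omega
                    rw [h7, map_zero, smul_zero]
                  rw [h6, zero_sub]
                rw [h2] at h5
                exact (neg_eq_zero.1 h5.symm)
              · unfold bdN
                apply Finset.sum_eq_zero
                intro a ha
                have ha' : a ∉ s ∪ u := (Finset.mem_sdiff.1 ha).2
                have h4 : (s ∪ insert a u).card = (s ∪ u).card + 1 := by
                  rw [Finset.union_insert, Finset.card_insert_of_notMem ha']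
                rw [hxs]
                simp only [h4, if_neg hc, smul_zero]
            · unfold bdN
              apply Finset.sum_eq_zero
              intro a ha
              have h4 : xs (insert a u) = 0 := by
                by_contra hcon
                have h5 := ((hx' s (insert a u)).1 (hne _ hcon).2).1
                exact hd (Finset.disjoint_of_subset_right (Finset.subset_insert a u) h5)
              rw [h4, smul_zero]
          obtain ⟨y, hy1, hy2⟩ := h8b L hL n hH N (Es e s) s hsL hsne k (by omega) xs hlk hbd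
          refine ⟨y, fun u => ⟨fun hu => ?_, (hy1 u).2⟩, ?_,
            fun h0 => absurd h0 hsne.ne_empty⟩
          · obtain ⟨h2, h3, h4, h5⟩ := (hy1 u).1 hu
            refine ⟨h3, h4, ?_⟩
            rw [Finset.card_union_of_disjoint h3]
            omega
          · intro u _ hc
            rw [hy2, hxs]
            simp only [hc, if_true]
        · refine ⟨fun _ => 0, fun u => ⟨fun h => absurd rfl h, Submodule.zero_mem _⟩, ?_,
            fun _ _ => rfl⟩
          intro u hd hc
          have h2 : bdN L s (fun _ => (0 : N)) u = 0 := by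
            unfold bdN
            simp
          rw [h2]
          by_contra hcon
          have h3 := ((hx' s u).1 (Ne.symm hcon)).2.1
          apply hs
          refine ⟨down _ _ Finset.subset_union_left h3, ?_, ?_⟩
          · rw [← hc]
            exact Finset.card_le_card Finset.subset_union_left
          · rw [Finset.nonempty_iff_ne_empty]
            rintro rfl
            exact hcon (hx0' u).symm
      choose y hy1 hy2 hy3 using hex
      have hyDD : IsDD L e (verts L) y := by
        intro s u
        refine ⟨fun hu => ?_, (hy1 s u).2⟩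
        obtain ⟨h2, h3, _⟩ := (hy1 s u).1 hu
        exact ⟨h2, h3, hverts _ h3⟩
      obtain ⟨hB1, hB2⟩ := h1 L hL N e he (verts L) y hyDD
      refine ⟨fun s u => x' s u + dD L e y s u, ?_, ?_, ?_, ?_⟩
      · intro s u
        refine ⟨fun hu => ?_, Submodule.add_mem _ (hx' s u).2 (hB1 s u).2⟩
        by_cases h2 : x' s u = 0
        · by_cases h3 : dD L e y s u = 0
          · exact absurd (show x' s u + dD L e y s u = 0 by rw [h2, h3, add_zero]) hu
          · exact (hB1 s u).1 h3
        · exact (hx' s u).1 h2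
      · rw [b8d_dD_add, hB2, hdx']
        funext s u
        simp
      · intro u
        show x' ∅ u + dD L e y ∅ u = 0
        rw [hx0' u, zero_add]
        unfold dD
        rw [if_pos (Finset.disjoint_empty_left u), Finset.sum_empty, zero_sub, neg_eq_zero]
        apply Finset.sum_eq_zero
        intro a _
        rw [hy3 ∅ rfl, smul_zero]
      · intro s u hlt
        have hyl : ∀ s u, y s u ≠ 0 → (s ∪ u).card = q + 1 := fun s u h => ((hy1 s u).1 h).2.2
        show x' s u + dD L e y s u = 0
        by_cases hd : Disjoint s u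
        · rw [b8d_level L e y q hyl s u (by omega) hd]
          rcases Nat.lt_or_ge (s ∪ u).card q with hc | hc
          · rw [hlow s u hc, zero_add, neg_eq_zero]
            unfold bdN
            apply Finset.sum_eq_zero
            intro a ha
            have ha' : a ∉ s ∪ u := (Finset.mem_sdiff.1 ha).2
            have h4 : (s ∪ insert a u).card = (s ∪ u).card + 1 := by
              rw [Finset.union_insert, Finset.card_insert_of_notMem ha']
            have h5 : y s (insert a u) = 0 := by
              by_contra hcon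
              have := hyl _ _ hcon
              omega
            rw [h5, smul_zero]
          · rw [hy2 s u hd (by omega), add_neg_cancel]
        · have h2 : x' s u = 0 := by
            by_contra hcon
            exact hd ((hx' s u).1 hcon).1
          rw [h2, zero_add]
          unfold dD
          rw [if_neg hd]
  obtain ⟨x', hx', hdx', hx0', hlow⟩ := key n le_rfl
  refine ⟨x', hx', hdx', hx0', fun s u hne => ?_⟩
  have h2 := ((hx' s u).1 hne).2.1
  have h3 : (s ∪ u).card ≤ n := by
    rcases (s ∪ u).eq_empty_or_nonempty with h0 | h0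
    · rw [h0]
      simp
    · exact (h8a L hL n hH _ h2 h0).1
  by_contra hcon
  exact hne (hlow s u (lt_of_le_of_ne h3 hcon))

end MP8a95ee.Ref.A4P

end

section

/-!
# A5: a filling without component at the empty face gives a primitive
-/

set_option autoImplicit false

namespace MP8a95ee.Ref.A5P

open RA

theorem mem_verts_sing {L : Finset (Finset ℕ)} (hf : FlagC L) {v : ℕ} (hv : v ∈ verts L) :
    {v} ∈ L := by
  obtain ⟨σ, hσ, hvσ⟩ := Finset.mem_biUnion.1 hv
  exact hf.mono hσ (Finset.singleton_subset_iff.2 hvσ)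

theorem prf (h1a : S_A1) (h3a : S_A3) (h4a : S_A4) : S_A5 := by
  intro L hf hvne n hM o ho N _ _ e he φ hφ hdφ x hx hx0 hdx
  have hpure : ∀ s ∈ L, s.card ≤ n ∧ ∃ t ∈ L, s ⊆ t ∧ t.card = n := by
    intro s hs
    rcases s.eq_empty_or_nonempty with rfl | hsne
    · obtain ⟨v, hv⟩ := hvne
      obtain ⟨t, ht, hvt, htc⟩ := (h1a L hf n hM {v} (mem_verts_sing hf hv)
        (Finset.singleton_nonempty v)).2
      exact ⟨Nat.zero_le _, t, ht, Finset.empty_subset _, htc⟩
    · exact h1a L hf n hM s hs hsne
  obtain ⟨x', hx', hdx', hx0', hlev⟩ := h4a L hf n hM N e he x hx hx0 (by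
    intro s u h
    rw [hdx] at h
    by_contra hc
    apply h
    unfold capU
    by_cases hd : Disjoint s u
    · rw [if_pos hd]
      have : oF o (s ∪ u) = 0 := by
        by_contra h0
        exact hc (h61_oF_card h0)
      rw [this, mul_zero, zero_smul]
    · rw [if_neg hd])
  rw [hdx] at hdx'
  have hlev0 : ∀ s u, (s ∪ u).card ≠ n → x' s u = 0 := by
    intro s u h
    by_contra h0
    exact h (hlev s u h0)
  have hcard : ∀ s u : Finset ℕ, Disjoint s u → (s ∪ u).card = s.card + u.card :=
    fun s u h => Finset.card_union_of_disjoint h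
  have hA : ∀ s, s ∈ L → ∃ y ∈ Es e s, ∀ u, x' s u = oLk o s u • y := by
    intro s hs
    have hsn := (hpure s hs).1
    rcases s.eq_empty_or_nonempty with rfl | hsne
    · exact ⟨0, Submodule.zero_mem _, fun u => by rw [hx0' u, smul_zero]⟩
    refine h3a L hf n hM o ho N (Es e s) s hs hsne (n - s.card) (by omega) (x' s) ?_ ?_
    · intro u
      refine ⟨?_, (hx' s u).2⟩
      intro h0
      obtain ⟨h1, h2, -⟩ := (hx' s u).1 h0
      have h3 := hlev s u h0
      rw [hcard s u h1] at h3
      exact ⟨hf.mono h2 Finset.subset_union_right, h1, h2, by omega⟩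
    · funext u
      change bdN L s (x' s) u = 0
      unfold bdN
      by_cases hd : Disjoint s u
      · by_cases hc : (s ∪ u).card + 1 = n
        · have h1 := congrFun (congrFun hdx' s) u
          rw [h61_dDpos e x' hd] at h1
          have h2 : ∑ a ∈ s, sg a u • e a (x' (s.erase a) (insert a u)) = 0 := by
            refine Finset.sum_eq_zero fun a ha => ?_
            rw [hlev0 _ _ (by rw [h61_eui ha]; omega), map_zero, smul_zero]
          have h3 : capU φ (oF o) s u = 0 := by
            unfold capU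
            rw [if_pos hd]
            have : oF o (s ∪ u) = 0 := by
              by_contra h0
              have := h61_oF_card h0
              omega
            rw [this, mul_zero, zero_smul]
          rw [h2, h3, zero_sub, neg_eq_zero] at h1
          exact h1
        · refine Finset.sum_eq_zero fun a ha => ?_
          obtain ⟨has, hau⟩ := h61_out ha
          rw [hlev0, smul_zero]
          rw [Finset.union_insert, Finset.card_insert_of_notMem (by
            rw [Finset.mem_union, not_or]; exact ⟨has, hau⟩)]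
          exact hc
      · refine Finset.sum_eq_zero fun a ha => ?_
        have : x' s (insert a u) = 0 := by
          by_contra h0
          exact hd (((hx' _ _).1 h0).1.mono_right (Finset.subset_insert _ _))
        rw [this, smul_zero]
  choose! ψ0 hψE hψ using hA
  set σ : ℕ → ℝ := fun p => (-1) ^ ((p + 1) * (n - p)) * (-1) ^ (p - 1) with hσ
  classical
  set ψ : Finset ℕ → N := fun s => if s ∈ L then σ (s.card + 1) • ψ0 s else 0 with hψdef
  refine ⟨ψ, ?_, ?_⟩
  · intro s
    by_cases hs : s ∈ L
    · refine ⟨fun _ => hs, ?_⟩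
      rw [hψdef]
      simp only [if_pos hs]
      exact Submodule.smul_mem _ _ (hψE s hs)
    · rw [hψdef]
      simp only [if_neg hs]
      exact ⟨fun h => absurd rfl h, Submodule.zero_mem _⟩
  · funext s
    by_cases hs : s ∈ L
    swap
    · unfold dC
      rw [if_neg hs]
      by_contra h0
      exact hs ((hφ s).1 fun h => h0 h.symm)
    -- a facet containing `s`
    obtain ⟨hsn, t, ht, hst, htn⟩ := hpure s hs
    set u := t \ s with hu
    have hd : Disjoint s u := Finset.disjoint_sdiff
    have hsu : s ∪ u = t := Finset.union_sdiff_of_subset hst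
    have huc : u.card = n - s.card := by
      have := hcard s u hd
      rw [hsu, htn] at this
      omega
    have hne : oF o t ≠ 0 := h61_oF_ne ho ht htn
    have h1 := congrFun (congrFun hdx' s) u
    rw [h61_dDpos e x' hd] at h1
    have h2 : ∑ a ∈ verts L \ (s ∪ u), sg a u • x' s (insert a u) = 0 := by
      refine Finset.sum_eq_zero fun a ha => ?_
      obtain ⟨has, hau⟩ := h61_out ha
      rw [hlev0, smul_zero]
      rw [Finset.union_insert, Finset.card_insert_of_notMem (by
        rw [Finset.mem_union, not_or]; exact ⟨has, hau⟩), hsu, htn]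
      omega
    have h3 : ∑ a ∈ s, sg a u • e a (x' (s.erase a) (insert a u)) =
        ((-1 : ℝ) ^ (s.card - 1) * (sgg s u * oF o t)) •
          ∑ a ∈ s, sg a (s.erase a) • e a (ψ0 (s.erase a)) := by
      rw [Finset.smul_sum]
      refine Finset.sum_congr rfl fun a ha => ?_
      rw [hψ (s.erase a) (hf.mono hs (Finset.erase_subset _ _))]
      unfold oLk
      rw [if_pos (h61_dei hd), h61_eui ha, hsu, map_smul, smul_smul, smul_smul, ← mul_assoc,
        h61_sign1 ha hd]
      congr 1
      ring
    have h4 : capU φ (oF o) s u =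
        ((-1 : ℝ) ^ ((s.card + 1) * u.card) * sgg s u * oF o t) • φ s := by
      unfold capU
      rw [if_pos hd, hsu]
    rw [h2, h3, h4, sub_zero] at h1
    have h5 : dC L e ψ s = σ s.card • ∑ a ∈ s, sg a (s.erase a) • e a (ψ0 (s.erase a)) := by
      unfold dC
      rw [if_pos hs, Finset.smul_sum]
      refine Finset.sum_congr rfl fun a ha => ?_
      have h6 : ψ (s.erase a) = σ s.card • ψ0 (s.erase a) := by
        rw [hψdef]
        simp only [if_pos (hf.mono hs (Finset.erase_subset a s))]
        rw [Finset.card_erase_of_mem ha, Nat.sub_add_cancel (Finset.card_pos.2 ⟨a, ha⟩)]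
      rw [h6, map_smul, smul_smul, smul_smul, mul_comm]
    rw [h5]
    -- cancel the nonzero factor
    have hk : sgg s u * oF o t ≠ 0 := mul_ne_zero (h61_sgg_ne s u) hne
    set w := ∑ a ∈ s, sg a (s.erase a) • e a (ψ0 (s.erase a)) with hw
    have hq : ∀ q : ℕ, ((-1 : ℝ) ^ q) * (-1) ^ q = 1 := by
      intro q
      rw [← pow_add, ← two_mul, pow_mul]
      norm_num
    have h7 : (sgg s u * oF o t) • (((-1 : ℝ) ^ (s.card - 1)) • w -
        ((-1 : ℝ) ^ ((s.card + 1) * u.card)) • φ s) = 0 := by
      rw [smul_sub, smul_smul, smul_smul, sub_eq_zero]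
      rw [← mul_comm ((-1 : ℝ) ^ (s.card - 1)), h1]
      congr 1
      ring
    have h8 := (smul_eq_zero.1 h7).resolve_left hk
    rw [sub_eq_zero] at h8
    have h9 : φ s = ((-1 : ℝ) ^ ((s.card + 1) * u.card)) •
        (((-1 : ℝ) ^ ((s.card + 1) * u.card)) • φ s) := by
      rw [smul_smul, hq, one_smul]
    rw [h9, ← h8, smul_smul, hσ, huc]

end MP8a95ee.Ref.A5P

end

section

set_option autoImplicit false

namespace MP8a95ee.Ref.A6P

open RA

theorem prf : S_A6' := by
  intro L hf m o ho hB0 N _ _ e he φ hφ hd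
  have hB := prfA6 L hf m o ho hB0
  obtain ⟨ψ, hψ⟩ := itemB5 L hf
  obtain ⟨Ψ, hΨ1, hΨ2, hΨ3⟩ := (itemB6 itemB3 B4_stmt) L hf N e he φ hφ hd ψ hψ
  obtain ⟨b, hb, hbd⟩ := hB
  set x : Finset ℕ → Finset ℕ → N := Finsupp.linearCombination ℝ (Ψ (m + 2)) b with hx
  have hxD : IsDD L e (verts L) x := by
    rw [hx, Finsupp.linearCombination_apply]
    refine Finset.sum_induction _ (fun y => IsDD L e (verts L) y) (fun _ _ => B9.isDD_add)
      (B9.isDD_zero _) fun T hT => ?_
    refine B9.isDD_smul _ (B9.isDD_mono (B9.verts_of fun i => ((hb T hT).1 i).1)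
      (hΨ2 _ T (hb T hT)))
  have hdx : dD L e x = capU φ ((-2 : ℝ) ^ m • oF o) := by
    have e1 : dD L e x = Finsupp.linearCombination ℝ (Ψ (m + 1)) (bdT b) := by
      rw [B9.lin_bdT, hx]
      change B9.dDl L e (Finsupp.linearCombination ℝ (Ψ (m + 2)) b) = _
      rw [Finsupp.linearCombination_apply, map_finsuppSum]
      refine Finsupp.sum_congr fun T hT => ?_
      rw [map_smul]
      congr 1
      exact hΨ3 _ T (hb T hT)
    rw [e1, hbd, ← (itemB7 itemB7a) L hf m o ho ψ hψ]
    change _ = B9.capl φ _
    simp only [zeta, map_sum, Finsupp.linearCombination_single, map_smul]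
    refine Finset.sum_congr rfl fun s _ => Finset.sum_congr rfl fun B hB => ?_
    by_cases hos : o s = 0
    · simp [hos]
    · congr 1
      exact hΨ1 _ _ (B9.kg_zt hf (ho.2.1 s hos) (Finset.mem_powerset.1 hB) _)
  have hne : ((-2 : ℝ) ^ m) ≠ 0 := pow_ne_zero _ (by norm_num)
  refine ⟨((-2 : ℝ) ^ m)⁻¹ • x, B9.isDD_smul _ hxD, ?_⟩
  change B9.dDl L e (((-2 : ℝ) ^ m)⁻¹ • x) = B9.capl φ (oF o)
  rw [map_smul]
  change ((-2 : ℝ) ^ m)⁻¹ • dD L e x = _
  rw [hdx]
  change ((-2 : ℝ) ^ m)⁻¹ • B9.capl φ ((-2 : ℝ) ^ m • oF o) = _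
  rw [map_smul, smul_smul, inv_mul_cancel₀ hne, one_smul]

end MP8a95ee.Ref.A6P

end

section

/-!
# A9: Euler characteristic and cohomology with coefficients
-/

set_option autoImplicit false

namespace MP8a95ee.Ref.A9P

open RA RA.B11 Module

theorem rn {V : Type} [AddCommGroup V] [Module ℝ V] (S : Submodule ℝ V) [FiniteDimensional ℝ S]
    (f : V →ₗ[ℝ] V) :
    finrank ℝ (S.map f) + finrank ℝ (S ⊓ LinearMap.ker f : Submodule ℝ V) = finrank ℝ S := by
  have h := LinearMap.finrank_range_add_finrank_ker (f.domRestrict S)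
  rw [LinearMap.range_domRestrict, LinearMap.ker_domRestrict,
    ← Submodule.finrank_map_subtype_eq S (Submodule.comap S.subtype (LinearMap.ker f)),
    Submodule.map_comap_subtype] at h
  exact h

theorem prf : S_A9 := by
  intro L hL N _ _ _ e he
  obtain ⟨hf0, hr0⟩ := finrank_CCp L e 0
  obtain ⟨hf1, hr1⟩ := finrank_CCp L e 1
  have h2 := itemB2
  -- the cochains are the sum of the two parities
  have hsup : CC L e = CCp L e 0 ⊔ CCp L e 1 := by
    apply le_antisymm
    · intro φ hφ
      have hφ' : IsCC L e φ := hφ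
      rw [Submodule.mem_sup]
      refine ⟨fun s => if s.card % 2 = 0 then φ s else 0, ⟨fun s => ⟨fun h => ?_, ?_⟩,
        fun s hs => if_neg hs⟩, fun s => if s.card % 2 = 1 then φ s else 0,
        ⟨fun s => ⟨fun h => ?_, ?_⟩, fun s hs => if_neg hs⟩, ?_⟩
      · refine (hφ' s).1 fun h3 => h ?_
        show (if s.card % 2 = 0 then φ s else 0) = 0
        rw [h3]; split <;> rfl
      · show (if s.card % 2 = 0 then φ s else 0) ∈ Es e s
        split
        · exact (hφ' s).2
        · exact (Es e s).zero_mem
      · refine (hφ' s).1 fun h3 => h ?_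
        show (if s.card % 2 = 1 then φ s else 0) = 0
        rw [h3]; split <;> rfl
      · show (if s.card % 2 = 1 then φ s else 0) ∈ Es e s
        split
        · exact (hφ' s).2
        · exact (Es e s).zero_mem
      · funext s
        show (if s.card % 2 = 0 then φ s else 0) + (if s.card % 2 = 1 then φ s else 0) = φ s
        rcases Nat.mod_two_eq_zero_or_one s.card with h | h
        · rw [if_pos h, if_neg (by omega), add_zero]
        · rw [if_neg (by omega), if_pos h, zero_add]
    · refine sup_le ?_ ?_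
      · intro φ hφ
        exact hφ.1
      · intro φ hφ
        exact hφ.1
  have hinf : CCp L e 0 ⊓ CCp L e 1 = ⊥ := by
    rw [eq_bot_iff]
    rintro φ ⟨h0, h1⟩
    rw [Submodule.mem_bot]
    funext s
    rcases Nat.mod_two_eq_zero_or_one s.card with h | h
    · exact h1.2 s (by omega)
    · exact h0.2 s (by omega)
  have hdim : finrank ℝ (CC L e) = finrank ℝ (CCp L e 0) + finrank ℝ (CCp L e 1) := by
    have h := Submodule.finrank_sup_add_finrank_inf_eq (CCp L e 0) (CCp L e 1)
    rw [hinf, finrank_bot, add_zero] at h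
    rw [hsup]
    exact h
  have hfin : FiniteDimensional ℝ (CC L e) := by
    rw [hsup]
    infer_instance
  -- images
  have hd0 : (CCp L e 0).map (dCl L e) ≤ CCp L e 1 ⊓ LinearMap.ker (dCl L e) := by
    rintro _ ⟨φ, hφ, rfl⟩
    exact ⟨⟨(h2 L hL N e he φ hφ.1).1, dC_par L e (by omega) hφ.2⟩,
      (h2 L hL N e he φ hφ.1).2⟩
  have hd1 : (CCp L e 1).map (dCl L e) ≤ CCp L e 0 ⊓ LinearMap.ker (dCl L e) := by
    rintro _ ⟨φ, hφ, rfl⟩
    exact ⟨⟨(h2 L hL N e he φ hφ.1).1, dC_par L e (by omega) hφ.2⟩,
      (h2 L hL N e he φ hφ.1).2⟩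
  have i0 : FiniteDimensional ℝ (CCp L e 0 ⊓ LinearMap.ker (dCl L e) : Submodule ℝ _) :=
    Submodule.finiteDimensional_inf_left _ _
  have i1 : FiniteDimensional ℝ (CCp L e 1 ⊓ LinearMap.ker (dCl L e) : Submodule ℝ _) :=
    Submodule.finiteDimensional_inf_left _ _
  have e0 := Submodule.finrank_mono hd0
  have e1 := Submodule.finrank_mono hd1
  have r0 := rn (CCp L e 0) (dCl L e)
  have r1 := rn (CCp L e 1) (dCl L e)
  have r := rn (CC L e) (dCl L e)
  have hB : finrank ℝ ((CC L e).map (dCl L e)) ≤
      finrank ℝ ((CCp L e 0).map (dCl L e)) + finrank ℝ ((CCp L e 1).map (dCl L e)) := by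
    rw [hsup, Submodule.map_sup]
    exact Submodule.finrank_add_le_finrank_add_finrank _ _
  -- the Euler characteristic
  have a1 : ∑ s ∈ L.filter (fun s => s.card % 2 = 0),
      (-1 : ℤ) ^ s.card * (Module.finrank ℝ (Es e s) : ℤ) =
      ((∑ s ∈ L.filter (fun s => s.card % 2 = 0), Module.finrank ℝ (Es e s) : ℕ) : ℤ) := by
    rw [Nat.cast_sum]
    refine Finset.sum_congr rfl fun s hs => ?_
    rw [Even.neg_one_pow (Nat.even_iff.mpr (Finset.mem_filter.mp hs).2), one_mul]
  have a2 : ∑ s ∈ L.filter (fun s => ¬ s.card % 2 = 0),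
      (-1 : ℤ) ^ s.card * (Module.finrank ℝ (Es e s) : ℤ) =
      -((∑ s ∈ L.filter (fun s => s.card % 2 = 1), Module.finrank ℝ (Es e s) : ℕ) : ℤ) := by
    have : L.filter (fun s => ¬ s.card % 2 = 0) = L.filter (fun s => s.card % 2 = 1) := by
      refine Finset.filter_congr fun s _ => ?_
      omega
    rw [this, Nat.cast_sum, ← Finset.sum_neg_distrib]
    refine Finset.sum_congr rfl fun s hs => ?_
    rw [Odd.neg_one_pow (Nat.odd_iff.mpr (Finset.mem_filter.mp hs).2), neg_one_mul]
  rw [← Finset.sum_filter_add_sum_filter_not L (fun s => s.card % 2 = 0), a1, a2, ← hr0, ← hr1,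
    abs_le]
  constructor <;> omega

end MP8a95ee.Ref.A9P

end

section

/-!
# Item B1: coverings of flag complexes are flag
-/

set_option autoImplicit false

namespace MP8a95ee.Ref.B1P

open RA

lemma mem_sub {K : Finset (Finset ℕ)} {V σ : Finset ℕ} : σ ∈ sub K V ↔ σ ∈ K ∧ σ ⊆ V := by
  unfold sub
  rw [Finset.mem_filter]

lemma mem_verts {K : Finset (Finset ℕ)} {x : ℕ} : x ∈ verts K ↔ ∃ σ ∈ K, x ∈ σ := by
  unfold verts
  rw [Finset.mem_biUnion]
  rfl

lemma mem_pre {K' : Finset (Finset ℕ)} {π : ℕ → ℕ} {V : Finset ℕ} {a : ℕ} :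
    a ∈ pre K' π V ↔ a ∈ verts K' ∧ π a ∈ V := by
  unfold pre
  rw [Finset.mem_filter]

/-- the part of a face of `K'` over a face of its image -/
lemma part_lift {K K' : Finset (Finset ℕ)} {π : ℕ → ℕ} {d : ℕ} (hc : IsCover K K' π d)
    {σ' τ : Finset ℕ} (hσ : σ' ∈ K') (hτ : τ ⊆ σ'.image π) :
    σ'.filter (fun a => π a ∈ τ) ∈ K' ∧ (σ'.filter (fun a => π a ∈ τ)).image π = τ := by
  refine ⟨hc.cx.2 σ' hσ _ (Finset.filter_subset _ _), ?_⟩
  ext y
  rw [Finset.mem_image]
  constructor
  · rintro ⟨a, ha, rfl⟩
    exact (Finset.mem_filter.mp ha).2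
  · intro hy
    obtain ⟨a, ha, hay⟩ := Finset.mem_image.mp (hτ hy)
    exact ⟨a, Finset.mem_filter.mpr ⟨ha, by rw [hay]; exact hy⟩, hay⟩

theorem prf : S_B1' := by
  intro K K' π d V hK hV hfl hd hc
  have hpre : pre K' π V ⊆ verts K' := Finset.filter_subset _ _
  refine ⟨?_, ?_, ?_, hpre⟩
  · intro σ'
    constructor
    · intro h x hx y hy
      rw [mem_sub] at h ⊢
      have hs : ({x, y} : Finset ℕ) ⊆ σ' := by
        intro z hz
        rw [Finset.mem_insert, Finset.mem_singleton] at hz
        rcases hz with rfl | rfl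
        · exact hx
        · exact hy
      exact ⟨hc.cx.2 σ' h.1 _ hs, hs.trans h.2⟩
    · intro h
      rw [mem_sub]
      have hsub : σ' ⊆ pre K' π V := by
        intro x hx
        have h1 := (mem_sub.mp (h x hx x hx)).2
        exact h1 (Finset.mem_insert_self _ _)
      refine ⟨?_, hsub⟩
      rcases σ'.eq_empty_or_nonempty with h0 | ⟨x0, hx0⟩
      · rw [h0]
        exact hc.cx.1
      · have hpair : ∀ x ∈ σ', ∀ y ∈ σ', ({x, y} : Finset ℕ) ∈ K' := fun x hx y hy =>
          (mem_sub.mp (h x hx y hy)).1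
        have hσ : σ'.image π ∈ sub K V := by
          rw [hfl]
          intro a ha b hb
          obtain ⟨x, hx, rfl⟩ := Finset.mem_image.mp ha
          obtain ⟨y, hy, rfl⟩ := Finset.mem_image.mp hb
          rw [mem_sub]
          constructor
          · have h1 := (hc.simp _ (hpair x hx y hy)).1
            rw [Finset.image_insert, Finset.image_singleton] at h1
            exact h1
          · intro z hz
            rw [Finset.mem_insert, Finset.mem_singleton] at hz
            rcases hz with rfl | rfl
            · exact (mem_pre.mp (hsub hx)).2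
            · exact (mem_pre.mp (hsub hy)).2
        have hσK : σ'.image π ∈ K := (mem_sub.mp hσ).1
        have hx0v : x0 ∈ verts K' := hpre (hsub hx0)
        obtain ⟨σ'', ⟨h1, h2, h3⟩, -⟩ := hc.lift x0 hx0v _ hσK (Finset.mem_image_of_mem π hx0)
        have hle : σ' ⊆ σ'' := by
          intro y hy
          have hp := hpair x0 hx0 y hy
          have hτK : ({π x0, π y} : Finset ℕ) ∈ K := by
            have h4 := (hc.simp _ hp).1
            rw [Finset.image_insert, Finset.image_singleton] at h4
            exact h4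
          have hτs : ({π x0, π y} : Finset ℕ) ⊆ σ''.image π := by
            rw [h3]
            intro z hz
            rw [Finset.mem_insert, Finset.mem_singleton] at hz
            rcases hz with rfl | rfl
            · exact Finset.mem_image_of_mem π hx0
            · exact Finset.mem_image_of_mem π hy
          obtain ⟨h5, h6⟩ := part_lift hc h1 hτs
          obtain ⟨ρ, -, hρ⟩ := hc.lift x0 hx0v _ hτK (Finset.mem_insert_self _ _)
          have e1 := hρ {x0, y} ⟨hp, Finset.mem_insert_self _ _, by
            rw [Finset.image_insert, Finset.image_singleton]⟩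
          have e2 := hρ _ ⟨h5, Finset.mem_filter.mpr ⟨h2, Finset.mem_insert_self _ _⟩, h6⟩
          have h7 : y ∈ ({x0, y} : Finset ℕ) :=
            Finset.mem_insert_of_mem (Finset.mem_singleton_self y)
          rw [e1, ← e2] at h7
          exact (Finset.mem_filter.mp h7).1
        exact hc.cx.2 σ'' h1 _ hle
  · ext x
    rw [mem_verts]
    constructor
    · rintro ⟨σ, hσ, hx⟩
      exact (mem_sub.mp hσ).2 hx
    · intro hx
      obtain ⟨σ, hσ, hxσ⟩ := mem_verts.mp (hpre hx)
      refine ⟨{x}, ?_, Finset.mem_singleton_self x⟩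
      rw [mem_sub]
      exact ⟨hc.cx.2 σ hσ _ (Finset.singleton_subset_iff.mpr hxσ),
        Finset.singleton_subset_iff.mpr hx⟩
  · rintro ⟨v, hv⟩
    have h1 := hc.deg v (hV hv)
    have h2 : ((verts K').filter fun a => π a = v).Nonempty := by
      rw [← Finset.card_pos, h1]
      exact hd
    obtain ⟨a, ha⟩ := h2
    rw [Finset.mem_filter] at ha
    exact ⟨a, mem_pre.mpr ⟨ha.1, by rw [ha.2]; exact hv⟩⟩

end MP8a95ee.Ref.B1P

end

section

/-!
# Item B3 of the block Ref: pullback of the orientation
-/

set_option autoImplicit false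

namespace MP8a95ee.Ref.B3P

open Finset

theorem mem_vts {L : Finset (Finset ℕ)} {x : ℕ} : x ∈ verts L ↔ ∃ σ ∈ L, x ∈ σ := by
  simp [verts]

theorem mem_sub' {K : Finset (Finset ℕ)} {V σ : Finset ℕ} : σ ∈ sub K V ↔ σ ∈ K ∧ σ ⊆ V := by
  rw [sub, mem_filter]

theorem mem_pre' {K' : Finset (Finset ℕ)} {π : ℕ → ℕ} {V : Finset ℕ} {a : ℕ} :
    a ∈ pre K' π V ↔ a ∈ verts K' ∧ π a ∈ V := by
  rw [pre, mem_filter]

theorem image_comp' {n : ℕ} (π : ℕ → ℕ) (t : Fin n → ℕ) :
    (univ.image fun i => π (t i)) = (univ.image t).image π := by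
  rw [image_image]
  rfl

theorem image_update {n : ℕ} (t : Fin n → ℕ) (i : Fin n) (x : ℕ) :
    univ.image (Function.update t i x) = insert x ((univ.filter fun k => k ≠ i).image t) := by
  ext a
  simp only [mem_image, mem_univ, true_and, mem_insert, mem_filter]
  constructor
  · rintro ⟨k, hk⟩
    by_cases h : k = i
    · subst h
      rw [Function.update_self] at hk
      exact Or.inl hk.symm
    · rw [Function.update_of_ne h] at hk
      exact Or.inr ⟨k, h, hk⟩
  · rintro (h | ⟨k, h, hk⟩)
    · exact ⟨i, by rw [Function.update_self, h]⟩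
    · exact ⟨k, by rw [Function.update_of_ne h, hk]⟩

theorem comp_update {n : ℕ} (π : ℕ → ℕ) (t : Fin n → ℕ) (i : Fin n) (x : ℕ) :
    (fun k => π (Function.update t i x k)) = Function.update (fun k => π (t k)) i (π x) := by
  funext k
  by_cases h : k = i
  · subst h
    rw [Function.update_self, Function.update_self]
  · rw [Function.update_of_ne h, Function.update_of_ne h]

theorem prf : S_B3' := by
  intro K K' π d V hK hV m hm o ho hc
  obtain ⟨oalt, osupp, onon, obd⟩ := ho
  refine ⟨?_, ?_, ?_, ?_⟩
  · intro s i j hij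
    have him : univ.image (s ∘ Equiv.swap i j) = univ.image s := by
      ext a
      simp only [mem_image, mem_univ, true_and, Function.comp]
      constructor
      · rintro ⟨k, hk⟩
        exact ⟨_, hk⟩
      · rintro ⟨k, hk⟩
        exact ⟨Equiv.swap i j k, by rw [Equiv.swap_apply_self, hk]⟩
    unfold pb
    rw [him]
    by_cases h : univ.image s ∈ K'
    · rw [if_pos h, if_pos h]
      exact oalt (fun k => π (s k)) i j hij
    · rw [if_neg h, if_neg h, neg_zero]
  · intro s hs
    unfold pb at hs
    by_cases h : univ.image s ∈ K'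
    · rw [if_pos h] at hs
      have h1 := (mem_sub'.1 (osupp _ hs)).2
      refine mem_sub'.2 ⟨h, ?_⟩
      intro a ha
      refine mem_pre'.2 ⟨mem_vts.2 ⟨_, h, ha⟩, h1 ?_⟩
      rw [image_comp']
      exact mem_image_of_mem π ha
    · rw [if_neg h] at hs
      exact absurd rfl hs
  · intro s hs h
    obtain ⟨h1, h2⟩ := mem_sub'.1 h
    unfold pb
    rw [if_pos h1]
    obtain ⟨h3, h4⟩ := hc.simp _ h1
    refine onon _ ?_ ?_
    · intro i j hij
      refine hs (h4 ?_ ?_ hij)
      · exact mem_coe.2 (mem_image_of_mem s (mem_univ i))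
      · exact mem_coe.2 (mem_image_of_mem s (mem_univ j))
    · rw [image_comp']
      refine mem_sub'.2 ⟨h3, ?_⟩
      intro b hb
      obtain ⟨a, ha, rfl⟩ := mem_image.1 hb
      exact (mem_pre'.1 (h2 ha)).2
  · intro s i
    set A : Finset ℕ := (univ.filter fun k => k ≠ i).image s with hA
    have hpb : ∀ x, pb K' π o (Function.update s i x) =
        if insert x A ∈ K' then o (Function.update (fun k => π (s k)) i (π x)) else 0 := by
      intro x
      unfold pb
      rw [image_update, comp_update]
    by_cases hAK : A ∈ K'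
    swap
    · refine sum_eq_zero fun x _ => ?_
      rw [hpb, if_neg]
      intro h
      exact hAK (hc.cx.2 _ h A (subset_insert x A))
    · obtain ⟨j, hj⟩ : ∃ j : Fin (m + 1), j ≠ i := by
        have : Nontrivial (Fin (m + 1)) := by
          rw [Fin.nontrivial_iff_two_le]
          omega
        exact exists_ne i
      have hwA : s j ∈ A := mem_image_of_mem s (mem_filter.2 ⟨mem_univ _, hj⟩)
      have hwv : s j ∈ verts K' := mem_vts.2 ⟨A, hAK, hwA⟩
      rw [← obd (fun k => π (s k)) i]
      refine sum_bij_ne_zero (fun x _ _ => π x) ?_ ?_ ?_ ?_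
      · intro x hx _
        obtain ⟨σ, hσ, hxσ⟩ := mem_vts.1 hx
        obtain ⟨h1, h2⟩ := mem_sub'.1 hσ
        refine mem_vts.2 ⟨σ.image π, mem_sub'.2 ⟨(hc.simp _ h1).1, ?_⟩, mem_image_of_mem π hxσ⟩
        intro b hb
        obtain ⟨a, ha, rfl⟩ := mem_image.1 hb
        exact (mem_pre'.1 (h2 ha)).2
      · intro x₁ _ h₁ x₂ _ h₂ he
        have g₁ : insert x₁ A ∈ K' := by
          by_contra h
          rw [hpb, if_neg h] at h₁
          exact h₁ rfl
        have g₂ : insert x₂ A ∈ K' := by
          by_contra h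
          rw [hpb, if_neg h] at h₂
          exact h₂ rfl
        have hK1 : (insert x₁ A).image π ∈ K := (hc.simp _ g₁).1
        have hw1 : π (s j) ∈ (insert x₁ A).image π :=
          mem_image_of_mem π (mem_insert_of_mem hwA)
        have heq : insert x₁ A = insert x₂ A := by
          refine (hc.lift _ hwv _ hK1 hw1).unique ⟨g₁, mem_insert_of_mem hwA, rfl⟩
            ⟨g₂, mem_insert_of_mem hwA, ?_⟩
          rw [image_insert, image_insert, he]
        refine (hc.simp _ g₁).2 (mem_coe.2 (mem_insert_self _ _)) (mem_coe.2 ?_) he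
        rw [heq]
        exact mem_insert_self _ _
      · intro y hy hne
        have h1 := mem_sub'.1 (osupp _ hne)
        rw [image_update] at h1
        set B : Finset ℕ := (univ.filter fun k => k ≠ i).image (fun k => π (s k)) with hB
        have hBA : B = A.image π := by
          rw [hB, hA, image_image]
          rfl
        have hwB : π (s j) ∈ B := by
          rw [hBA]
          exact mem_image_of_mem π hwA
        obtain ⟨σ, ⟨hσK, hwσ, hσi⟩, _⟩ := hc.lift _ hwv _ h1.1 (mem_insert_of_mem hwB)
        have hAσ : A = σ.filter fun a => π a ∈ B := by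
          have hBK : B ∈ K := by
            rw [hBA]
            exact (hc.simp _ hAK).1
          refine (hc.lift _ hwv _ hBK hwB).unique ⟨hAK, hwA, hBA.symm⟩
            ⟨hc.cx.2 _ hσK _ (filter_subset _ _), mem_filter.2 ⟨hwσ, hwB⟩, ?_⟩
          ext b
          simp only [mem_image, mem_filter]
          constructor
          · rintro ⟨a, ⟨_, h⟩, rfl⟩
            exact h
          · intro hb
            have : b ∈ σ.image π := by
              rw [hσi]
              exact mem_insert_of_mem hb
            obtain ⟨a, ha, rfl⟩ := mem_image.1 this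
            exact ⟨a, ⟨ha, hb⟩, rfl⟩
        have hAs : A ⊆ σ := by
          rw [hAσ]
          exact filter_subset _ _
        obtain ⟨x, hxσ, hxy⟩ : ∃ x ∈ σ, π x = y := by
          have : y ∈ σ.image π := by
            rw [hσi]
            exact mem_insert_self _ _
          exact mem_image.1 this
        have hxA : insert x A ∈ K' := hc.cx.2 _ hσK _ (insert_subset hxσ hAs)
        have hx1 : ({x} : Finset ℕ) ∈ K' := hc.cx.2 _ hσK _ (singleton_subset_iff.2 hxσ)
        refine ⟨x, ?_, ?_, hxy⟩
        · refine mem_vts.2 ⟨{x}, mem_sub'.2 ⟨hx1, ?_⟩, mem_singleton_self x⟩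
          rw [singleton_subset_iff]
          refine mem_pre'.2 ⟨mem_vts.2 ⟨σ, hσK, hxσ⟩, ?_⟩
          rw [hxy]
          exact h1.2 (mem_insert_self _ _)
        · rw [hpb, if_pos hxA, hxy]
          exact hne
      · intro x _ h
        have g : insert x A ∈ K' := by
          by_contra h'
          rw [hpb, if_neg h'] at h
          exact h rfl
        rw [hpb, if_pos g]

end MP8a95ee.Ref.B3P

end

section

/-!
# B4: pullback of the relative cycle
-/

set_option autoImplicit false

namespace MP8a95ee.Ref.B4P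

theorem mem_verts {K : Finset (Finset ℕ)} {v : ℕ} : v ∈ verts K ↔ ∃ σ ∈ K, v ∈ σ := by
  unfold verts
  rw [Finset.mem_biUnion]
  rfl

theorem image_snoc {m : ℕ} (s : Fin m → ℕ) (a : ℕ) :
    Finset.univ.image (Fin.snoc (α := fun _ => ℕ) s a : Fin (m + 1) → ℕ) =
      insert a (Finset.univ.image s) := by
  ext x
  simp only [Finset.mem_image, Finset.mem_univ, true_and, Finset.mem_insert]
  constructor
  · rintro ⟨i, hi⟩
    refine Fin.lastCases (motive := fun i => (Fin.snoc (α := fun _ => ℕ) s a : Fin (m + 1) → ℕ) i = x →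
      x = a ∨ ∃ a, s a = x) ?_ ?_ i hi
    · intro h
      rw [Fin.snoc_last] at h
      exact Or.inl h.symm
    · intro j h
      rw [Fin.snoc_castSucc] at h
      exact Or.inr ⟨j, h⟩
  · rintro (h | ⟨j, h⟩)
    · exact ⟨Fin.last m, by rw [Fin.snoc_last]; exact h.symm⟩
    · exact ⟨j.castSucc, by rw [Fin.snoc_castSucc]; exact h⟩

theorem comp_snoc {m : ℕ} (π : ℕ → ℕ) (s : Fin m → ℕ) (a : ℕ) :
    (fun i => π ((Fin.snoc (α := fun _ => ℕ) s a : Fin (m + 1) → ℕ) i)) =
      (Fin.snoc (α := fun _ => ℕ) (fun i => π (s i)) (π a) : Fin (m + 1) → ℕ) := by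
  funext i
  refine Fin.lastCases ?_ ?_ i
  · rw [Fin.snoc_last, Fin.snoc_last]
  · intro j
    rw [Fin.snoc_castSucc, Fin.snoc_castSucc]

theorem image_comp {m : ℕ} (π : ℕ → ℕ) (s : Fin m → ℕ) :
    Finset.univ.image (fun i => π (s i)) = (Finset.univ.image s).image π := by
  rw [Finset.image_image]
  rfl

theorem image_swap {m : ℕ} (t : Fin m → ℕ) (e : Equiv.Perm (Fin m)) :
    Finset.univ.image (t ∘ e) = Finset.univ.image t := by
  ext x
  simp only [Finset.mem_image, Finset.mem_univ, true_and, Function.comp]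
  constructor
  · rintro ⟨i, hi⟩
    exact ⟨e i, hi⟩
  · rintro ⟨i, hi⟩
    exact ⟨e.symm i, by rw [Equiv.apply_symm_apply]; exact hi⟩

theorem prf : S_B4' := by
  intro K K' π d V hK m o ho c hc hcov
  refine ⟨?_, ?_, ?_⟩
  · intro t i j hij
    unfold pb
    rw [image_swap t (Equiv.swap i j)]
    split_ifs
    · exact hc.alt (fun i => π (t i)) i j hij
    · exact neg_zero.symm
  · intro t ht
    unfold pb at ht
    by_contra h
    rw [if_neg h] at ht
    exact ht rfl
  · intro s
    by_cases hs : Finset.univ.image s ∈ K'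
    · -- the main case
      have hR : pb K' π o s = ∑ y ∈ verts K, c (Fin.snoc (α := fun _ => ℕ) (fun i => π (s i)) y) := by
        unfold pb
        rw [if_pos hs, hc.bdry]
      rw [hR]
      set τ' : Finset ℕ := Finset.univ.image s with hτ'
      set τ : Finset ℕ := τ'.image π with hτ
      have hw : s 0 ∈ τ' := Finset.mem_image_of_mem _ (Finset.mem_univ _)
      have hwv : s 0 ∈ verts K' := mem_verts.2 ⟨τ', hs, hw⟩
      have hwt : π (s 0) ∈ τ := Finset.mem_image_of_mem _ hw
      have hτK : τ ∈ K := (hcov.simp τ' hs).1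
      have h1 : ∑ a ∈ verts K', pb K' π c (Fin.snoc (α := fun _ => ℕ) s a) =
          ∑ a ∈ (verts K').filter (fun a => insert a τ' ∈ K'),
            c (Fin.snoc (α := fun _ => ℕ) (fun i => π (s i)) (π a)) := by
        rw [Finset.sum_filter]
        refine Finset.sum_congr rfl fun a _ => ?_
        unfold pb
        rw [image_snoc, comp_snoc]
      have h2 : ∑ y ∈ verts K, c (Fin.snoc (α := fun _ => ℕ) (fun i => π (s i)) y) =
          ∑ y ∈ (verts K).filter (fun y => insert y τ ∈ K),
            c (Fin.snoc (α := fun _ => ℕ) (fun i => π (s i)) y) := by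
        rw [Finset.sum_filter]
        refine Finset.sum_congr rfl fun y _ => ?_
        split_ifs with h
        · rfl
        · by_contra hne
          have := hc.supp _ hne
          rw [image_snoc, image_comp] at this
          exact h this
      rw [h1, h2]
      refine Finset.sum_nbij π ?_ ?_ ?_ (fun _ _ => rfl)
      · intro a ha
        rw [Finset.mem_filter] at ha
        have h3 := (hcov.simp _ ha.2).1
        rw [Finset.image_insert] at h3
        rw [Finset.mem_filter]
        exact ⟨mem_verts.2 ⟨_, h3, Finset.mem_insert_self _ _⟩, h3⟩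
      · intro a ha b hb hab
        rw [Finset.mem_coe, Finset.mem_filter] at ha hb
        have h3 := (hcov.simp _ ha.2).1
        have hu := hcov.lift (s 0) hwv _ h3 (Finset.mem_image_of_mem _ (Finset.mem_insert_of_mem hw))
        have e : insert a τ' = insert b τ' := by
          refine hu.unique ⟨ha.2, Finset.mem_insert_of_mem hw, rfl⟩
            ⟨hb.2, Finset.mem_insert_of_mem hw, ?_⟩
          rw [Finset.image_insert, Finset.image_insert, hab]
        refine (hcov.simp _ hb.2).2 ?_ ?_ hab
        · rw [Finset.mem_coe, ← e]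
          exact Finset.mem_insert_self _ _
        · rw [Finset.mem_coe]
          exact Finset.mem_insert_self _ _
      · intro y hy
        rw [Finset.mem_coe, Finset.mem_filter] at hy
        obtain ⟨σ', ⟨hσK, hwσ, hσi⟩, _⟩ := hcov.lift (s 0) hwv _ hy.2 (Finset.mem_insert_of_mem hwt)
        have hy' : y ∈ σ'.image π := by rw [hσi]; exact Finset.mem_insert_self _ _
        obtain ⟨a, ha, hay⟩ := Finset.mem_image.1 hy'
        have hsub : τ' ⊆ σ' := by
          have hu := hcov.lift (s 0) hwv τ hτK hwt
          have e : σ'.filter (fun b => π b ∈ τ) = τ' := by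
            refine hu.unique ⟨hcov.cx.2 σ' hσK _ (Finset.filter_subset _ _), ?_, ?_⟩ ⟨hs, hw, rfl⟩
            · rw [Finset.mem_filter]
              exact ⟨hwσ, hwt⟩
            · ext z
              rw [Finset.mem_image]
              constructor
              · rintro ⟨b, hb, rfl⟩
                exact (Finset.mem_filter.1 hb).2
              · intro hz
                have hz' : z ∈ σ'.image π := by rw [hσi]; exact Finset.mem_insert_of_mem hz
                obtain ⟨b, hb, hbz⟩ := Finset.mem_image.1 hz'
                exact ⟨b, Finset.mem_filter.2 ⟨hb, by rw [hbz]; exact hz⟩, hbz⟩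
          rw [← e]
          exact Finset.filter_subset _ _
        refine ⟨a, ?_, hay⟩
        rw [Finset.mem_coe, Finset.mem_filter]
        exact ⟨mem_verts.2 ⟨σ', hσK, ha⟩,
          hcov.cx.2 σ' hσK _ (Finset.insert_subset ha hsub)⟩
    · have hR : pb K' π o s = 0 := by
        unfold pb
        rw [if_neg hs]
      rw [hR]
      refine Finset.sum_eq_zero fun a _ => ?_
      unfold pb
      rw [if_neg]
      intro h
      rw [image_snoc] at h
      exact hs (hcov.cx.2 _ h _ (Finset.subset_insert _ _))

end MP8a95ee.Ref.B4P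

end

section

/-!
# Item B5 of the block Ref: numbers of faces of a covering
-/

set_option autoImplicit false

namespace MP8a95ee.Ref.B5P

open RA

variable {K K' : Finset (Finset ℕ)} {π : ℕ → ℕ} {d : ℕ}

theorem mem_verts' {L : Finset (Finset ℕ)} {x : ℕ} : x ∈ verts L ↔ ∃ σ ∈ L, x ∈ σ := by
  unfold verts
  rw [Finset.mem_biUnion]
  rfl

/-- every nonempty face has `d` lifts -/
theorem card_lifts (hc : IsCover K K' π d) (σ : Finset ℕ) (hσ : σ ∈ K) (hne : σ.Nonempty) :
    (K'.filter fun σ' => σ'.image π = σ).card = d := by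
  obtain ⟨v, hv⟩ := hne
  have hvK : v ∈ verts K := mem_verts'.2 ⟨σ, hσ, hv⟩
  rw [← hc.deg v hvK]
  symm
  have hlift : ∀ a (_ : a ∈ (verts K').filter fun a => π a = v),
      ∃! σ' : Finset ℕ, σ' ∈ K' ∧ a ∈ σ' ∧ σ'.image π = σ := by
    intro a ha
    rw [Finset.mem_filter] at ha
    refine hc.lift a ha.1 σ hσ ?_
    rw [ha.2]
    exact hv
  refine Finset.card_bij (fun a ha => (hlift a ha).choose) ?_ ?_ ?_
  · intro a ha
    obtain ⟨⟨h1, h2, h3⟩, -⟩ := (hlift a ha).choose_spec
    rw [Finset.mem_filter]
    exact ⟨h1, h3⟩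
  · intro a ha b hb hab
    obtain ⟨⟨h1, h2, h3⟩, -⟩ := (hlift a ha).choose_spec
    obtain ⟨⟨h4, h5, h6⟩, -⟩ := (hlift b hb).choose_spec
    rw [Finset.mem_filter] at ha hb
    have hb' : b ∈ (hlift a (Finset.mem_filter.2 ha)).choose := by
      have hab' : (hlift a (Finset.mem_filter.2 ha)).choose =
        (hlift b (Finset.mem_filter.2 hb)).choose := hab
      rw [hab']
      exact h5
    exact (hc.simp _ h1).2 (Finset.mem_coe.2 h2) (Finset.mem_coe.2 hb') (ha.2.trans hb.2.symm)
  · intro σ' hσ'
    rw [Finset.mem_filter] at hσ'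
    have hv' : v ∈ σ'.image π := by
      rw [hσ'.2]
      exact hv
    obtain ⟨a, ha, hav⟩ := Finset.mem_image.1 hv'
    have ha' : a ∈ (verts K').filter fun a => π a = v :=
      Finset.mem_filter.2 ⟨mem_verts'.2 ⟨σ', hσ'.1, ha⟩, hav⟩
    refine ⟨a, ha', ?_⟩
    obtain ⟨-, h2⟩ := (hlift a ha').choose_spec
    exact (h2 σ' ⟨hσ'.1, ha, hσ'.2⟩).symm

theorem card_image (hc : IsCover K K' π d) (σ' : Finset ℕ) (h : σ' ∈ K') :
    (σ'.image π).card = σ'.card := Finset.card_image_of_injOn (hc.simp σ' h).2

/-- sums over faces -/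
theorem sum_lifts {R : Type} [CommRing R] (hc : IsCover K K' π d) (g : ℕ → R)
    (F : Finset (Finset ℕ)) (hF : ∀ σ ∈ F, σ ∈ K ∧ σ.Nonempty) :
    ∑ σ' ∈ K'.filter (fun σ' => σ'.image π ∈ F), g σ'.card = (d : R) * ∑ σ ∈ F, g σ.card := by
  rw [← Finset.sum_fiberwise_of_maps_to (s := K'.filter (fun σ' => σ'.image π ∈ F)) (t := F)
    (g := fun σ' => σ'.image π) (fun σ' h => (Finset.mem_filter.1 h).2), Finset.mul_sum]
  refine Finset.sum_congr rfl fun σ hσ => ?_
  have h1 : ((K'.filter (fun σ' => σ'.image π ∈ F)).filter fun σ' => σ'.image π = σ) =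
      K'.filter fun σ' => σ'.image π = σ := by
    ext σ'
    simp only [Finset.mem_filter]
    constructor
    · rintro ⟨⟨h1, -⟩, h2⟩
      exact ⟨h1, h2⟩
    · rintro ⟨h1, h2⟩
      exact ⟨⟨h1, by rw [h2]; exact hσ⟩, h2⟩
  rw [h1]
  calc ∑ σ' ∈ K'.filter (fun σ' => σ'.image π = σ), g σ'.card
      = ∑ _σ' ∈ K'.filter (fun σ' => σ'.image π = σ), g σ.card := by
        refine Finset.sum_congr rfl fun σ' h => ?_
        rw [Finset.mem_filter] at h
        rw [← h.2, card_image hc σ' h.1]
    _ = (d : R) * g σ.card := by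
        rw [Finset.sum_const, card_lifts hc σ (hF σ hσ).1 (hF σ hσ).2, nsmul_eq_mul]

/-- the sum over a subcomplex minus the term of the empty face -/
theorem sub_split (L : Finset (Finset ℕ)) (h : ∅ ∈ L) (V : Finset ℕ) :
    ∑ s ∈ sub L V, (-1 / 2 : ℚ) ^ s.card - 1 =
      ∑ s ∈ (sub L V).filter (fun s => s.Nonempty), (-1 / 2 : ℚ) ^ s.card := by
  rw [← Finset.sum_filter_add_sum_filter_not (sub L V) (fun s => s.Nonempty)]
  have h1 : (sub L V).filter (fun s => ¬ s.Nonempty) = {∅} := by
    ext s
    rw [Finset.mem_filter, Finset.mem_singleton, Finset.not_nonempty_iff_eq_empty]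
    constructor
    · intro h
      exact h.2
    · intro hs
      refine ⟨?_, hs⟩
      unfold sub
      rw [Finset.mem_filter, hs]
      exact ⟨h, Finset.empty_subset _⟩
  rw [h1, Finset.sum_singleton, Finset.card_empty, pow_zero, add_sub_cancel_right]

theorem prf : S_B5' := by
  intro K K' π d V hK hc
  constructor
  · unfold chiK
    have h1 := sum_lifts hc (fun k => (-1 : ℤ) ^ (k + 1)) (K.filter fun σ => σ.Nonempty)
      (fun σ hσ => Finset.mem_filter.1 hσ)
    rw [← h1]
    refine Finset.sum_congr ?_ fun _ _ => rfl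
    ext σ'
    simp only [Finset.mem_filter]
    constructor
    · rintro ⟨h2, h3⟩
      exact ⟨h2, (hc.simp σ' h2).1, h3.image π⟩
    · rintro ⟨h2, -, h3⟩
      exact ⟨h2, Finset.image_nonempty.1 h3⟩
  · rw [sub_split K' hc.cx.1, sub_split K hK.1]
    have h1 := sum_lifts hc (fun k => (-1 / 2 : ℚ) ^ k) ((sub K V).filter fun σ => σ.Nonempty)
      (fun σ hσ => ⟨(Finset.mem_filter.1 (Finset.mem_filter.1 hσ).1).1,
        (Finset.mem_filter.1 hσ).2⟩)
    rw [← h1]
    refine Finset.sum_congr ?_ fun _ _ => rfl
    ext σ'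
    unfold sub pre
    simp only [Finset.mem_filter]
    constructor
    · rintro ⟨⟨h2, h3⟩, h4⟩
      refine ⟨h2, ⟨(hc.simp σ' h2).1, ?_⟩, h4.image π⟩
      intro x hx
      obtain ⟨a, ha, rfl⟩ := Finset.mem_image.1 hx
      exact (Finset.mem_filter.1 (h3 ha)).2
    · rintro ⟨h2, ⟨-, h3⟩, h4⟩
      refine ⟨⟨h2, fun a ha => Finset.mem_filter.2 ⟨mem_verts'.2 ⟨σ', h2, ha⟩,
        h3 (Finset.mem_image_of_mem π ha)⟩⟩, Finset.image_nonempty.1 h4⟩

end MP8a95ee.Ref.B5P

end

section

/-!
# Item C3: affine simplices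
-/

set_option autoImplicit false

namespace MP8a95ee.Ref.C3P

open RA

/-! ### the boundary as a linear map -/

/-- the boundary of singular chains as a linear map -/
noncomputable def bdl {X : Type} [TopologicalSpace X] {n : ℕ} :
    SChain X (n + 1) →ₗ[ℝ] SChain X n :=
  Finsupp.linearCombination ℝ fun σ => ∑ i : Fin (n + 2), Finsupp.single (face σ i)
    ((-1 : ℝ) ^ (i : ℕ))

theorem bd_eq {X : Type} [TopologicalSpace X] {n : ℕ} (c : SChain X (n + 1)) : bd c = bdl c := by
  unfold bd bdl
  rw [Finsupp.linearCombination_apply]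
  refine Finsupp.sum_congr fun σ _ => ?_
  rw [Finset.smul_sum]
  refine Finset.sum_congr rfl fun i _ => ?_
  rw [Finsupp.smul_single, smul_eq_mul, mul_comm]

theorem bdl_single {X : Type} [TopologicalSpace X] {n : ℕ} (σ : SSimplex X (n + 1)) :
    bdl (Finsupp.single σ (1 : ℝ)) = ∑ i : Fin (n + 2), Finsupp.single (face σ i)
      ((-1 : ℝ) ^ (i : ℕ)) := by
  unfold bdl
  rw [Finsupp.linearCombination_single, one_smul]

/-! ### affine simplices -/

theorem abs_corner (T : Finset ℕ) (v : ℕ) : |cornerPt T v| = 1 := by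
  unfold cornerPt
  split_ifs <;> simp

theorem mem_RZ (L : Finset (Finset ℕ)) {k : ℕ} (p : Fin (k + 1) → ℕ → ℝ) (hp : Gd L p)
    (τ : stdSimplex ℝ (Fin (k + 1))) : affS p τ ∈ RZ L := by
  obtain ⟨σ, hσ, T, hT, h⟩ := hp
  have h0 : ∀ i, 0 ≤ (τ i : ℝ) := fun i => τ.2.1 i
  have h1 : ∑ i, (τ i : ℝ) = 1 := τ.2.2
  have hc : ∀ v, v ∉ σ → affS p τ v = cornerPt T v := by
    intro v hv
    unfold affS
    rw [Finset.sum_congr rfl fun i _ => by rw [(h i v).2 hv], ← Finset.sum_mul, h1, one_mul]
  refine ⟨fun v => ?_, fun v hv => ?_, σ, hσ, fun v hv => ?_⟩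
  · unfold affS
    calc |∑ i, τ i * p i v| ≤ ∑ i, |τ i * p i v| := Finset.abs_sum_le_sum_abs _ _
      _ ≤ ∑ i, (τ i : ℝ) := by
          refine Finset.sum_le_sum fun i _ => ?_
          rw [abs_mul, abs_of_nonneg (h0 i)]
          exact mul_le_of_le_one_right (h0 i) (h i v).1
      _ = 1 := h1
  · have hv1 : v ∉ σ := fun hvs => hv (Finset.mem_biUnion.mpr ⟨σ, hσ, hvs⟩)
    rw [hc v hv1]
    unfold cornerPt
    rw [if_neg fun hvT => hv (hT hvT)]
  · by_contra hvs
    rw [hc v hvs, abs_corner] at hv
    exact lt_irrefl _ hv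

theorem Gd_face (L : Finset (Finset ℕ)) {k : ℕ} (p : Fin (k + 1) → ℕ → ℝ) (hp : Gd L p)
    (i : Fin (k + 1)) : Gd L fun j : Fin k => p (i.succAbove j) := by
  obtain ⟨σ, hσ, T, hT, h⟩ := hp
  exact ⟨σ, hσ, T, hT, fun j v => h _ v⟩

/-- the affine simplex as a singular simplex -/
noncomputable def sx (L : Finset (Finset ℕ)) {k : ℕ} (p : Fin (k + 1) → ℕ → ℝ)
    (h : ∀ τ, affS p τ ∈ RZ L) : SSimplex (RZ L) k :=
  ⟨fun τ => ⟨affS p τ, h τ⟩, (continuous_affS p).subtype_mk _⟩

theorem affL_single (L : Finset (Finset ℕ)) {k : ℕ} (p : Fin (k + 1) → ℕ → ℝ)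
    (h : ∀ τ, affS p τ ∈ RZ L) (r : ℝ) : affL L (Finsupp.single p r) =
      Finsupp.single (sx L p h) r := by
  unfold affL
  rw [Finsupp.linearCombination_single, dif_pos h, Finsupp.smul_single, smul_eq_mul, mul_one]
  rfl

theorem affL_single_neg (L : Finset (Finset ℕ)) {k : ℕ} (p : Fin (k + 1) → ℕ → ℝ)
    (h : ¬ ∀ τ, affS p τ ∈ RZ L) (r : ℝ) : affL L (Finsupp.single p r) = 0 := by
  unfold affL
  rw [Finsupp.linearCombination_single, dif_neg h, smul_zero]

theorem affS_map {k : ℕ} (p : Fin (k + 2) → ℕ → ℝ) (i : Fin (k + 2))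
    (τ : stdSimplex ℝ (Fin (k + 1))) :
    affS p (stdSimplex.map i.succAbove τ) = affS (fun j => p (i.succAbove j)) τ := by
  funext v
  unfold affS
  have h1 : ∀ j, (stdSimplex.map i.succAbove τ) j =
      ∑ l : Fin (k + 1), if i.succAbove l = j then (τ l : ℝ) else 0 := by
    intro j
    have : (stdSimplex.map i.succAbove τ) j =
        FunOnFinite.linearMap ℝ ℝ i.succAbove (τ : Fin (k + 1) → ℝ) j := by
      rw [← stdSimplex.map_coe]
    rw [this, FunOnFinite.linearMap_apply_apply, Finset.sum_filter]
  rw [Finset.sum_congr rfl fun j _ => by rw [h1 j, Finset.sum_mul], Finset.sum_comm]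
  refine Finset.sum_congr rfl fun l _ => ?_
  rw [Finset.sum_eq_single (i.succAbove l)]
  · rw [if_pos rfl]
  · intro j _ hj
    rw [if_neg fun h => hj h.symm, zero_mul]
  · intro h
    exact absurd (Finset.mem_univ _) h

theorem face_sx (L : Finset (Finset ℕ)) {k : ℕ} (p : Fin (k + 2) → ℕ → ℝ)
    (h : ∀ τ, affS p τ ∈ RZ L) (i : Fin (k + 2))
    (h' : ∀ τ, affS (fun j => p (i.succAbove j)) τ ∈ RZ L) :
    face (sx L p h) i = sx L (fun j => p (i.succAbove j)) h' := by
  ext τ v
  exact congrFun (affS_map p i τ) v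

theorem part2 (L : Finset (Finset ℕ)) (k : ℕ) (x : Ch (ℕ → ℝ) (k + 2))
    (hx : ∀ p ∈ x.support, Gd L p) : bd (affL L x) = affL L (bdT x) := by
  rw [bd_eq]
  have hxs : x = ∑ p ∈ x.support, Finsupp.single p (x p) := (Finsupp.sum_single x).symm
  rw [hxs]
  simp only [map_sum]
  refine Finset.sum_congr rfl fun p hp => ?_
  have hg := hx p hp
  have e : Finsupp.single p (x p) = x p • Finsupp.single p (1 : ℝ) := by
    rw [Finsupp.smul_single, smul_eq_mul, mul_one]
  rw [e]
  simp only [map_smul]
  congr 1
  rw [affL_single L p (mem_RZ L p hg) 1, bdl_single]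
  unfold bdT
  rw [Finsupp.linearCombination_single, one_smul]
  unfold bdT0
  rw [map_sum]
  refine Finset.sum_congr rfl fun i _ => ?_
  have hgi := mem_RZ L _ (Gd_face L p hg i)
  rw [affL_single L _ hgi, face_sx L p (mem_RZ L p hg) i hgi]

/-! ### the moment cycle -/

theorem act_corner (T A : Finset ℕ) : act T (cornerPt A) = cornerPt (symmDiff T A) := by
  funext v
  unfold act cornerPt
  by_cases h1 : v ∈ T <;> by_cases h2 : v ∈ A <;> simp [Finset.mem_symmDiff, h1, h2]

theorem affPt_eq (T : Finset ℕ) {n : ℕ} (s : Fin n → ℕ) :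
    affPt T s = affS (fun j => act T (cornerPt (fst s j))) := by
  funext τ v
  unfold affPt affS
  refine Finset.sum_congr rfl fun j _ => ?_
  beta_reduce
  rw [act_corner]
  rfl

theorem affChain_eq (L : Finset (Finset ℕ)) (T : Finset ℕ) {n : ℕ} (s : Fin n → ℕ) :
    affChain L T s =
      affL L (Finsupp.single (fun j => act T (cornerPt (fst s j))) (1 : ℝ)) := by
  by_cases h : ∀ τ, affPt T s τ ∈ RZ L
  · have h' : ∀ τ, affS (fun j => act T (cornerPt (fst s j))) τ ∈ RZ L := by
      rw [← affPt_eq]
      exact h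
    rw [affL_single L _ h']
    unfold affChain
    rw [dif_pos h]
    congr 1
    ext τ v
    exact congrFun (congrFun (affPt_eq T s) τ) v
  · have h' : ¬ ∀ τ, affS (fun j => act T (cornerPt (fst s j))) τ ∈ RZ L := by
      rw [← affPt_eq]
      exact h
    rw [affL_single_neg L _ h']
    unfold affChain
    rw [dif_neg h]

theorem part3 (L : Finset (Finset ℕ)) (n : ℕ) (o : (Fin n → ℕ) → ℤ) : momentCycle L n o =
    affL L (Anti (verts L) (muC (verts L) fun s => (o s : ℝ))) := by
  unfold momentCycle Anti
  rw [LinearMap.sum_apply, map_sum]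
  refine Finset.sum_congr rfl fun T _ => ?_
  rw [LinearMap.smul_apply, map_smul]
  unfold muC
  rw [map_sum, map_sum, Finset.smul_sum]
  refine Finset.sum_congr rfl fun s _ => ?_
  rw [affChain_eq]
  have e1 : actC T (Finsupp.single (fun j => cornerPt (fst s j)) (o s : ℝ)) =
      Finsupp.single (fun j => act T (cornerPt (fst s j))) (o s : ℝ) := by
    unfold actC
    rw [Finsupp.lmapDomain_apply, Finsupp.mapDomain_single]
  have e2 : Finsupp.single (fun j => act T (cornerPt (fst s j))) (o s : ℝ) =
      (o s : ℝ) • Finsupp.single (fun j => act T (cornerPt (fst s j))) (1 : ℝ) := by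
    rw [Finsupp.smul_single, smul_eq_mul, mul_one]
  rw [e1, e2, map_smul, smul_smul]

theorem prf : S_C3 := by
  intro L _
  exact ⟨fun k p hp τ => mem_RZ L p hp τ, fun k x hx => part2 L k x hx, fun n o => part3 L n o⟩

end MP8a95ee.Ref.C3P

end

section

/-!
# C4: the simplices lie in the space
-/

set_option autoImplicit false

namespace MP8a95ee.Ref.C4P

open MP8a95ee.Ref

theorem fl_nonempty {n : ℕ} (t : Fin n → ℕ) (j : Fin n) : (fl t j).Nonempty :=
  ⟨t j, Finset.mem_image.mpr ⟨j, by simp, rfl⟩⟩

theorem fl_sub {n : ℕ} (t : Fin n → ℕ) (j : Fin n) : fl t j ⊆ Finset.univ.image t :=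
  Finset.image_subset_image (Finset.filter_subset _ _)

theorem fl_mono {n : ℕ} (t : Fin n → ℕ) {i j : Fin n} (h : i ≤ j) : fl t i ⊆ fl t j := by
  refine Finset.image_subset_image ?_
  intro a ha
  simp only [Finset.mem_filter, Finset.mem_univ, true_and] at ha ⊢
  exact le_trans ha h

theorem prf : S_C4 := by
  intro K V T hK hTV n t ht τ
  have h0 : ∀ j, 0 ≤ τ j := fun j => τ.2.1 j
  have h1 : ∑ j, τ j = 1 := τ.2.2
  have hflK : ∀ j, fl t j ∈ K := fun j => hK.2 _ ht _ (fl_sub t j)
  have hsum : ∀ A : Finset (Finset ℕ), ∑ σ ∈ A, (simPt K V T t τ).1 σ =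
      ∑ j, if fl t j ∈ A then τ j else 0 := by
    intro A
    simp only [simPt]
    rw [Finset.sum_comm]
    refine Finset.sum_congr rfl fun j _ => ?_
    rw [Finset.sum_ite_eq]
  have hex : ∀ σ, (simPt K V T t τ).1 σ ≠ 0 → ∃ j, fl t j = σ := by
    intro σ hσ
    have hσ' : (∑ j, if fl t j = σ then τ j else 0) ≠ 0 := hσ
    obtain ⟨j, -, hj⟩ := Finset.exists_ne_zero_of_sum_ne_zero hσ'
    refine ⟨j, ?_⟩
    by_contra hne
    exact hj (if_neg hne)
  refine ⟨⟨?_, ?_, ?_, ?_⟩, ?_, ?_⟩
  · intro σ
    show 0 ≤ ∑ j, if fl t j = σ then τ j else 0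
    refine Finset.sum_nonneg fun j _ => ?_
    split_ifs
    · exact h0 j
    · exact le_rfl
  · intro σ hσ
    obtain ⟨j, rfl⟩ := hex σ hσ
    exact ⟨hflK j, fl_nonempty t j⟩
  · intro σ σ' hσ hσ'
    obtain ⟨j, rfl⟩ := hex σ hσ
    obtain ⟨j', rfl⟩ := hex σ' hσ'
    rcases le_total j j' with h | h
    · exact Or.inl (fl_mono t h)
    · exact Or.inr (fl_mono t h)
  · rw [hsum K, ← h1]
    exact Finset.sum_congr rfl fun j _ => if_pos (hflK j)
  · intro i
    rw [hsum]
    set S : ℝ := ∑ j, if fl t j ∈ sub K V ∧ i ∈ fl t j then τ j else 0 with hS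
    have e1 : (∑ j, if fl t j ∈ (sub K V).filter (fun σ => i ∈ σ) then τ j else 0) = S := by
      rw [hS]
      refine Finset.sum_congr rfl fun j _ => ?_
      simp only [Finset.mem_filter]
    rw [e1]
    have hS1 : S ≤ 1 := by
      rw [hS, ← h1]
      refine Finset.sum_le_sum fun j _ => ?_
      split_ifs
      · exact le_rfl
      · exact h0 j
    have e2 : (simPt K V T t τ).2 i = cornerPt T i * (1 - S) := rfl
    have e3 : |cornerPt T i| = 1 := by
      unfold cornerPt
      split_ifs <;> simp
    rw [e2, abs_mul, e3, abs_of_nonneg (by linarith)]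
    ring
  · intro i hi
    have e2 : (simPt K V T t τ).2 i = cornerPt T i *
        (1 - ∑ j, if fl t j ∈ sub K V ∧ i ∈ fl t j then τ j else 0) := rfl
    rw [e2]
    have e3 : cornerPt T i = 1 := by
      unfold cornerPt
      rw [if_neg (fun h => hi (hTV h))]
    have e4 : (∑ j, if fl t j ∈ sub K V ∧ i ∈ fl t j then τ j else 0) = 0 := by
      refine Finset.sum_eq_zero fun j _ => if_neg ?_
      rintro ⟨h2, h3⟩
      unfold sub at h2
      exact hi ((Finset.mem_filter.mp h2).2 h3)
    rw [e3, e4]
    norm_num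

end MP8a95ee.Ref.C4P

end

section

/-!
# Item D1: the space is compact
-/

set_option autoImplicit false

namespace MP8a95ee.Ref.D1P

open MP8a95ee.Ref

theorem isClosed_Pt (K : Finset (Finset ℕ)) : IsClosed (Pt K) := by
  have h1 : IsClosed {l : Finset ℕ → ℝ | ∀ σ, 0 ≤ l σ} := by
    simp only [Set.ofPred_forall]
    exact isClosed_iInter fun σ => isClosed_le continuous_const (continuous_apply σ)
  have h2 : IsClosed {l : Finset ℕ → ℝ | ∀ σ, l σ ≠ 0 → σ ∈ K ∧ σ.Nonempty} := by
    simp only [Set.ofPred_forall]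
    refine isClosed_iInter fun σ => ?_
    by_cases h : σ ∈ K ∧ σ.Nonempty
    · simp [h.1, h.2]
    · have : {l : Finset ℕ → ℝ | l σ ≠ 0 → σ ∈ K ∧ σ.Nonempty} = {l | l σ = 0} := by
        ext l
        constructor
        · intro hl
          by_contra h0
          exact h (hl h0)
        · intro hl h0
          exact absurd hl h0
      have h3 : IsClosed {l : Finset ℕ → ℝ | l σ = 0} :=
        isClosed_eq (continuous_apply σ) continuous_const
      rw [← this] at h3
      exact h3
  have h3 : IsClosed {l : Finset ℕ → ℝ | ∀ σ τ, l σ ≠ 0 → l τ ≠ 0 → σ ⊆ τ ∨ τ ⊆ σ} := by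
    have h4 : {l : Finset ℕ → ℝ | ∀ σ τ, l σ ≠ 0 → l τ ≠ 0 → σ ⊆ τ ∨ τ ⊆ σ} =
        ⋂ σ : Finset ℕ, ⋂ τ : Finset ℕ,
          {l : Finset ℕ → ℝ | l σ ≠ 0 → l τ ≠ 0 → σ ⊆ τ ∨ τ ⊆ σ} := by
      ext l
      simp only [Set.mem_ofPred_eq, Set.mem_iInter]
    rw [h4]
    refine isClosed_iInter fun σ => isClosed_iInter fun τ => ?_
    by_cases h : σ ⊆ τ ∨ τ ⊆ σ
    · have : {l : Finset ℕ → ℝ | l σ ≠ 0 → l τ ≠ 0 → σ ⊆ τ ∨ τ ⊆ σ} = Set.univ := by
        ext l
        constructor
        · intro _
          trivial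
        · intro _ _ _
          exact h
      rw [this]
      exact isClosed_univ
    · have : {l : Finset ℕ → ℝ | l σ ≠ 0 → l τ ≠ 0 → σ ⊆ τ ∨ τ ⊆ σ} =
          {l | l σ = 0} ∪ {l | l τ = 0} := by
        ext l
        constructor
        · intro hl
          by_cases ha : l σ = 0
          · exact Or.inl ha
          · by_cases hb : l τ = 0
            · exact Or.inr hb
            · exact absurd (hl ha hb) h
        · rintro (hl | hl) ha hb
          · exact absurd hl ha
          · exact absurd hl hb
      rw [this]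
      exact (isClosed_eq (continuous_apply σ) continuous_const).union
        (isClosed_eq (continuous_apply τ) continuous_const)
  have h4 : IsClosed {l : Finset ℕ → ℝ | ∑ σ ∈ K, l σ = 1} :=
    isClosed_eq (continuous_finsetSum _ fun σ _ => continuous_apply σ) continuous_const
  have h5 := h1.inter (h2.inter (h3.inter h4))
  have h6 : Pt K = {l : Finset ℕ → ℝ | ∀ σ, 0 ≤ l σ} ∩
      ({l : Finset ℕ → ℝ | ∀ σ, l σ ≠ 0 → σ ∈ K ∧ σ.Nonempty} ∩
        ({l : Finset ℕ → ℝ | ∀ σ τ, l σ ≠ 0 → l τ ≠ 0 → σ ⊆ τ ∨ τ ⊆ σ} ∩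
          {l : Finset ℕ → ℝ | ∑ σ ∈ K, l σ = 1})) := by
    ext l
    constructor
    · intro h
      exact ⟨h.1, h.2.1, h.2.2.1, h.2.2.2⟩
    · intro h
      exact ⟨h.1, h.2.1, h.2.2.1, h.2.2.2⟩
  rw [h6]
  exact h5

theorem isClosed_Mf (K : Finset (Finset ℕ)) (V : Finset ℕ) : IsClosed (Mf K V) := by
  have h1 : IsClosed {p : (Finset ℕ → ℝ) × (ℕ → ℝ) | p.1 ∈ Pt K} :=
    (isClosed_Pt K).preimage continuous_fst
  have h2 : IsClosed {p : (Finset ℕ → ℝ) × (ℕ → ℝ) |
      ∀ i, |p.2 i| + ∑ σ ∈ (sub K V).filter (fun σ => i ∈ σ), p.1 σ = 1} := by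
    simp only [Set.ofPred_forall]
    refine isClosed_iInter fun i => isClosed_eq ?_ continuous_const
    refine (((continuous_apply i).comp continuous_snd).abs).add ?_
    exact continuous_finsetSum _ fun σ _ => (continuous_apply σ).comp continuous_fst
  have h3 : IsClosed {p : (Finset ℕ → ℝ) × (ℕ → ℝ) | ∀ i, i ∉ V → p.2 i = 1} := by
    have h4 : {p : (Finset ℕ → ℝ) × (ℕ → ℝ) | ∀ i, i ∉ V → p.2 i = 1} =
        ⋂ i : ℕ, {p : (Finset ℕ → ℝ) × (ℕ → ℝ) | i ∉ V → p.2 i = 1} := by
      ext p
      simp only [Set.mem_ofPred_eq, Set.mem_iInter]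
    rw [h4]
    refine isClosed_iInter fun i => ?_
    by_cases h : i ∈ V
    · have : {p : (Finset ℕ → ℝ) × (ℕ → ℝ) | i ∉ V → p.2 i = 1} = Set.univ := by
        ext p
        constructor
        · intro _
          trivial
        · intro _ h'
          exact absurd h h'
      rw [this]
      exact isClosed_univ
    · have : {p : (Finset ℕ → ℝ) × (ℕ → ℝ) | i ∉ V → p.2 i = 1} = {p | p.2 i = 1} := by
        ext p
        constructor
        · intro hp
          exact hp h
        · intro hp _
          exact hp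
      rw [this]
      exact isClosed_eq ((continuous_apply i).comp continuous_snd) continuous_const
  exact h1.inter (h2.inter h3)

theorem prf : S_D1 := by
  intro K V
  have hc : IsCompact ((Set.univ.pi fun _ : Finset ℕ => Set.Icc (0 : ℝ) 1) ×ˢ
      (Set.univ.pi fun _ : ℕ => Set.Icc (-1 : ℝ) 1)) :=
    (isCompact_univ_pi fun _ => isCompact_Icc).prod (isCompact_univ_pi fun _ => isCompact_Icc)
  refine hc.of_isClosed_subset (isClosed_Mf K V) ?_
  rintro p ⟨⟨h1, h2, _, h4⟩, h5, _⟩
  refine ⟨?_, ?_⟩
  · intro σ _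
    refine ⟨h1 σ, ?_⟩
    by_cases hσ : σ ∈ K
    · rw [← h4]
      exact Finset.single_le_sum (fun τ _ => h1 τ) hσ
    · by_cases h0 : p.1 σ = 0
      · rw [h0]
        exact zero_le_one
      · exact absurd (h2 σ h0).1 hσ
  · intro i _
    have h6 : 0 ≤ ∑ σ ∈ (sub K V).filter (fun σ => i ∈ σ), p.1 σ :=
      Finset.sum_nonneg fun τ _ => h1 τ
    have h7 : |p.2 i| ≤ 1 := by
      have := h5 i
      linarith
    exact abs_le.mp h7

end MP8a95ee.Ref.D1P

end
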