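import Mathlib
import Pool.Agent.Work.MP_8a95ee_gt.Ref.Stmts
import Pool.Agent.Work.MP_8a95ee_gt.Bd.B12
import Pool.Agent.Work.MP_8a95ee_gt.R.P13

/-! Bundle of small proof modules (one section per former module). -/

section

/-!
# Item D10: the transfer of the fundamental cycle
-/

set_option autoImplicit false

namespace MP8a95ee.Ref.D10P

open MP8a95ee MP8a95ee.RA MP8a95ee.Ref

theorem inj_of_alt {n : ℕ} {c : (Fin n → ℕ) → ℤ}
    (halt : ∀ (t : Fin n → ℕ) (i j : Fin n), i ≠ j → c (t ∘ Equiv.swap i j) = - c t)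
    {t : Fin n → ℕ} (ht : c t ≠ 0) : Function.Injective t := by
  intro i j hij
  by_contra hne
  apply ht
  have h := halt t i j hne
  have h' : t ∘ Equiv.swap i j = t := by
    funext k
    rw [Function.comp_apply]
    rcases eq_or_ne k i with rfl | h1
    · rw [Equiv.swap_apply_left]
      exact hij.symm
    rcases eq_or_ne k j with rfl | h2
    · rw [Equiv.swap_apply_right]
      exact hij
    rw [Equiv.swap_apply_of_ne_of_ne h1 h2]
  rw [h'] at h
  omega

/-- the simplex -/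
noncomputable def sx {K : Finset (Finset ℕ)} {V T : Finset ℕ} {n : ℕ} (t : Fin (n + 1) → ℕ)
    (h : ∀ τ, simPt K V T t τ ∈ Mf K V) : SSimplex (Mf K V) n :=
  ⟨fun τ => ⟨simPt K V T t τ, h τ⟩, (continuous_simPt K V T t).subtype_mk _⟩

theorem simCh_eq {K : Finset (Finset ℕ)} {V T : Finset ℕ} {n : ℕ} (t : Fin (n + 1) → ℕ)
    (h : ∀ τ, simPt K V T t τ ∈ Mf K V) : simCh K V T t = Finsupp.single (sx t h) 1 := by
  unfold simCh
  rw [dif_pos h]
  rfl

instance preconn (n : ℕ) : PreconnectedSpace (stdSimplex ℝ (Fin (n + 1))) :=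
  Subtype.preconnectedSpace (convex_stdSimplex ℝ (Fin (n + 1))).isPreconnected

theorem sign_par (K' : Finset (Finset ℕ)) (π : ℕ → ℕ) (V T' : Finset ℕ)
    (hT' : T' ⊆ pre K' π V) : (-1 : ℝ) ^ (par π V T').card = (-1 : ℝ) ^ T'.card := by
  have h1 : T'.card = ∑ v ∈ V, (T'.filter fun a => π a = v).card := by
    rw [← Finset.card_eq_sum_card_fiberwise]
    intro a ha
    exact (Finset.mem_filter.1 (hT' ha)).2
  rw [h1, ← Finset.prod_pow_eq_pow_sum]
  unfold par
  rw [Finset.card_filter, ← Finset.prod_pow_eq_pow_sum]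
  refine Finset.prod_congr rfl fun v _ => ?_
  by_cases h : Odd (T'.filter fun a => π a = v).card
  · rw [if_pos h, h.neg_one_pow, pow_one]
  · rw [if_neg h, pow_zero, (Nat.not_odd_iff_even.1 h).neg_one_pow]

theorem par_sub (π : ℕ → ℕ) (V T' : Finset ℕ) : par π V T' ⊆ V := Finset.filter_subset _ _

theorem key (hC4 : S_C4) (hD5 : S_D5) (hD7 : S_D7) (hD8 : S_D8) (hD9 : S_D9)
    (K K' : Finset (Finset ℕ)) (π : ℕ → ℕ) (d : ℕ) (V : Finset ℕ) (hK : IsCx K)
    (hV : V ⊆ verts K) (hcov : IsCover K K' π d)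
    (q : C(Mf K' (pre K' π V), Mf K V)) (hq : IsQ K' π q)
    (τ : ∀ k, SChain (Mf K V) k →ₗ[ℝ] SChain (Mf K' (pre K' π V)) k) (hτ : IsTransfer q τ)
    {n : ℕ} {T : Finset ℕ} (hT : T ⊆ V) {t : Fin (n + 1) → ℕ} (ht : Function.Injective t)
    (htK : Finset.univ.image t ∈ K) (htV : ¬ Finset.univ.image t ⊆ V)
    (P : Finset (Finset ℕ × (Fin (n + 1) → ℕ)))
    (hP : ∀ p, p ∈ P ↔ p.1 ⊆ pre K' π V ∧ par π V p.1 = T ∧ (∀ i, π (p.2 i) = t i) ∧
      Finset.univ.image p.2 ∈ K') :
    τ n (simCh K V T t) = ∑ p ∈ P, simCh K' (pre K' π V) p.1 p.2 := by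
  classical
  have hmem : ∀ s, simPt K V T t s ∈ Mf K V := fun s => hC4 K V T hK hT n t htK s
  have hmem' : ∀ p ∈ P, ∀ s, simPt K' (pre K' π V) p.1 p.2 s ∈ Mf K' (pre K' π V) := by
    intro p hp s
    obtain ⟨h1, -, -, h4⟩ := (hP p).1 hp
    exact hC4 K' _ p.1 hcov.cx h1 n p.2 h4 s
  have hcomp : ∀ (p : Finset ℕ × (Fin (n + 1) → ℕ)) (hp : p ∈ P),
      q.comp (sx p.2 (hmem' p hp)) = sx t hmem := by
    intro p hp
    obtain ⟨h1, h2, h3, h4⟩ := (hP p).1 hp
    refine ContinuousMap.ext fun s => ?_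
    apply Subtype.ext
    have h7 := hD7 K K' π d V hK hV hcov p.1 h1 n p.2 h4 s
    have hqs := hq (sx p.2 (hmem' p hp) s)
    have hπ : (fun i => π (p.2 i)) = t := funext h3
    rw [h2, hπ] at h7
    show ((q (sx p.2 (hmem' p hp) s) : Mf K V) : (Finset ℕ → ℝ) × (ℕ → ℝ)) = simPt K V T t s
    refine Prod.ext (funext fun σ => ?_) (funext fun i => ?_)
    · rw [hqs.1 σ, h7.1 σ]
      rfl
    · rw [hqs.2 i, h7.2 i]
      rfl
  have hinj : ∀ p ∈ P, Function.Injective p.2 := by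
    intro p hp i j hij
    obtain ⟨h1, h2, h3, h4⟩ := (hP p).1 hp
    apply ht
    rw [← h3 i, ← h3 j, hij]
  have hnot : ∀ p ∈ P, ¬ Finset.univ.image p.2 ⊆ pre K' π V := by
    intro p hp hsub
    obtain ⟨h1, h2, h3, h4⟩ := (hP p).1 hp
    apply htV
    intro x hx
    obtain ⟨i, -, rfl⟩ := Finset.mem_image.1 hx
    rw [← h3 i]
    exact (Finset.mem_filter.1 (hsub (Finset.mem_image_of_mem _ (Finset.mem_univ i)))).2
  rw [simCh_eq t hmem]
  obtain ⟨f, hf⟩ : ∃ f : {p // p ∈ P} → SSimplex (Mf K' (pre K' π V)) n,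
      ∀ p, f p = sx p.1.2 (hmem' p.1 p.2) := ⟨fun p => sx p.1.2 (hmem' p.1 p.2), fun _ => rfl⟩
  have hS : ∀ ρ, ρ ∈ P.attach.image f ↔ q.comp ρ = sx t hmem := by
    intro ρ
    constructor
    · intro h
      obtain ⟨p, -, rfl⟩ := Finset.mem_image.1 h
      rw [hf]
      exact hcomp p.1 p.2
    · intro h
      have hb : ((q (ρ (bary n)) : Mf K V) : (Finset ℕ → ℝ) × (ℕ → ℝ)) =
          simPt K V T t (bary n) := by
        have := congrArg (fun f : SSimplex (Mf K V) n =>
          ((f (bary n) : Mf K V) : (Finset ℕ → ℝ) × (ℕ → ℝ))) h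
        exact this
      obtain ⟨T', t', h1, h2, h3, h4, h5⟩ := hD8 K K' π d V hK hV hcov q hq T hT n t ht htK htV
        (ρ (bary n)) hb
      have hp : ((T', t') : Finset ℕ × (Fin (n + 1) → ℕ)) ∈ P := (hP _).2 ⟨h1, h2, h3, h4⟩
      have hm' : ∀ s, simPt K' (pre K' π V) T' t' s ∈ Mf K' (pre K' π V) := hmem' (T', t') hp
      have hc : q.comp (sx t' hm') = sx t hmem := hcomp (T', t') hp
      have hfeq : f ⟨(T', t'), hp⟩ = ρ := by
        have hf1 : f ⟨(T', t'), hp⟩ = sx t' hm' := hf _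
        rw [hf1]
        obtain ⟨g, hg⟩ : ∃ g : SSimplex (Mf K' (pre K' π V)) n, g = sx t' hm' := ⟨_, rfl⟩
        have hgb : g (bary n) = ρ (bary n) := by
          rw [hg]
          apply Subtype.ext
          exact h5.symm
        rw [← hg] at hc ⊢
        have hfun : (q ∘ g : _ → Mf K V) = q ∘ ρ := by
          funext s
          have e1 : (q.comp g) s = (q.comp ρ) s := by rw [hc, h]
          exact e1
        have heq := (hD5 K K' π d V hK hV hcov q hq).eq_of_comp_eq g.continuous ρ.continuous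
          hfun (bary n) hgb
        exact ContinuousMap.ext fun s => congrFun heq s
      exact Finset.mem_image.2 ⟨⟨(T', t'), hp⟩, Finset.mem_attach _ _, hfeq⟩
  rw [hτ n (sx t hmem) _ hS, Finset.sum_image, ← Finset.sum_attach P]
  · refine Finset.sum_congr rfl fun p _ => ?_
    rw [simCh_eq p.1.2 (hmem' p.1 p.2), hf]
  · intro a _ b _ hab
    rw [hf, hf] at hab
    have hb : simPt K' (pre K' π V) a.1.1 a.1.2 (bary n) =
        simPt K' (pre K' π V) b.1.1 b.1.2 (bary n) := by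
      have := congrArg (fun f : SSimplex (Mf K' (pre K' π V)) n =>
        ((f (bary n) : Mf K' (pre K' π V)) : (Finset ℕ → ℝ) × (ℕ → ℝ))) hab
      exact this
    obtain ⟨a1, a2, a3, a4⟩ := (hP a.1).1 a.2
    obtain ⟨b1, b2, b3, b4⟩ := (hP b.1).1 b.2
    have := hD9 K' (pre K' π V) a.1.1 b.1.1 hcov.cx a1 b1 n a.1.2 b.1.2 (hinj _ a.2)
      (hinj _ b.2) a4 b4 (hnot _ a.2) hb
    exact Subtype.ext (Prod.ext this.1 this.2)

theorem prf (hA1 : S_A1) (hC4 : S_C4) (hD5 : S_D5) (hD7 : S_D7) (hD8 : S_D8) (hD9 : S_D9) :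
    S_D10 := by
  classical
  intro K K' π d V hK hV hcov m hflag hhm o c hc q hq τ hτ
  set A : Finset (Finset ℕ × (Fin (m + 1 + 1) → ℕ)) :=
    ((pre K' π V).powerset ×ˢ Fintype.piFinset (fun _ : Fin (m + 1 + 1) => verts K')).filter
      (fun p => Finset.univ.image p.2 ∈ K') with hA
  set g : Finset ℕ × (Fin (m + 1 + 1) → ℕ) → Finset ℕ × (Fin (m + 1 + 1) → ℕ) :=
    fun p => (par π V p.1, fun i => π (p.2 i)) with hg
  set F : Finset ℕ × (Fin (m + 1 + 1) → ℕ) → SChain (Mf K' (pre K' π V)) (m + 1) :=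
    fun p => ((-1 : ℝ) ^ p.1.card * (c (fun i => π (p.2 i)) : ℝ)) •
      simCh K' (pre K' π V) p.1 p.2 with hF
  have hmaps : ∀ p ∈ A, g p ∈ V.powerset ×ˢ
      Fintype.piFinset (fun _ : Fin (m + 1 + 1) => verts K) := by
    intro p hp
    rw [hA, Finset.mem_filter] at hp
    rw [Finset.mem_product, Finset.mem_powerset, Fintype.mem_piFinset]
    refine ⟨par_sub _ _ _, fun i => ?_⟩
    have h := (hcov.simp _ hp.2).1
    unfold verts
    rw [Finset.mem_biUnion]
    exact ⟨_, h, Finset.mem_image_of_mem _ (Finset.mem_image_of_mem _ (Finset.mem_univ i))⟩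
  have hR : fundCh K' (pre K' π V) (pb K' π c) = ∑ p ∈ A, F p := by
    unfold fundCh
    rw [← Finset.sum_product', hA, Finset.sum_filter]
    refine Finset.sum_congr rfl fun p _ => ?_
    unfold pb
    by_cases h : Finset.univ.image p.2 ∈ K'
    · rw [if_pos h, if_pos h]
    · rw [if_neg h, if_neg h, Int.cast_zero, mul_zero, zero_smul]
  rw [hR, ← Finset.sum_fiberwise_of_maps_to hmaps]
  unfold fundCh
  rw [← Finset.sum_product', map_sum]
  refine Finset.sum_congr rfl fun x hx => ?_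
  obtain ⟨T, t⟩ := x
  rw [Finset.mem_product, Finset.mem_powerset, Fintype.mem_piFinset] at hx
  obtain ⟨hT, htv⟩ := hx
  simp only at hT htv
  have hsum : ∑ p ∈ A with g p = (T, t), F p = ((-1 : ℝ) ^ T.card * (c t : ℝ)) •
      ∑ p ∈ A with g p = (T, t), simCh K' (pre K' π V) p.1 p.2 := by
    rw [Finset.smul_sum]
    refine Finset.sum_congr rfl fun p hp => ?_
    rw [Finset.mem_filter, hA, Finset.mem_filter, Finset.mem_product, Finset.mem_powerset] at hp
    obtain ⟨⟨⟨hp1, -⟩, -⟩, hp2⟩ := hp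
    have e1 : par π V p.1 = T := congrArg Prod.fst hp2
    have e2 : (fun i => π (p.2 i)) = t := congrArg Prod.snd hp2
    rw [hF]
    simp only
    rw [e2, ← sign_par K' π V p.1 hp1, e1]
  rw [hsum, map_smul]
  by_cases hct : c t = 0
  · show ((-1 : ℝ) ^ T.card * (c t : ℝ)) • _ = _
    rw [hct, Int.cast_zero, mul_zero, zero_smul, zero_smul]
  · have hinj := inj_of_alt hc.alt hct
    have htK := hc.supp t hct
    have htV : ¬ Finset.univ.image t ⊆ V := by
      intro hsub
      have hmem : Finset.univ.image t ∈ sub K V := Finset.mem_filter.2 ⟨htK, hsub⟩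
      have h1 := (hA1 (sub K V) hflag (m + 1) hhm _ hmem
        ⟨t 0, Finset.mem_image_of_mem _ (Finset.mem_univ 0)⟩).1
      rw [Finset.card_image_of_injective _ hinj, Finset.card_univ, Fintype.card_fin] at h1
      omega
    show ((-1 : ℝ) ^ T.card * (c t : ℝ)) • τ (m + 1) (simCh K V T t) = _
    congr 1
    refine key hC4 hD5 hD7 hD8 hD9 K K' π d V hK hV hcov q hq τ hτ hT hinj htK htV _ ?_
    intro p
    rw [Finset.mem_filter, hA, Finset.mem_filter, Finset.mem_product, Finset.mem_powerset,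
      Fintype.mem_piFinset]
    constructor
    · rintro ⟨⟨⟨h1, h2⟩, h3⟩, h4⟩
      exact ⟨h1, congrArg Prod.fst h4, fun i => congrFun (congrArg Prod.snd h4) i, h3⟩
    · rintro ⟨h1, h2, h3, h4⟩
      refine ⟨⟨⟨h1, fun i => ?_⟩, h4⟩, Prod.ext h2 (funext h3)⟩
      unfold verts
      rw [Finset.mem_biUnion]
      exact ⟨_, h4, Finset.mem_image_of_mem _ (Finset.mem_univ i)⟩

end MP8a95ee.Ref.D10P

end

section

/-!
# D2: the map induced by a covering
-/

set_option autoImplicit false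

namespace MP8a95ee.Ref.D2P

open Finset

/-- the formula for the map -/
private noncomputable def qf (K' : Finset (Finset ℕ)) (π : ℕ → ℕ)
    (p : (Finset ℕ → ℝ) × (ℕ → ℝ)) : (Finset ℕ → ℝ) × (ℕ → ℝ) :=
  (fun σ => ∑ σ' ∈ K'.filter (fun σ' => σ'.image π = σ), p.1 σ',
   fun i => ∏ a ∈ (verts K').filter (fun a => π a = i), p.2 a)

private theorem continuous_qf (K' : Finset (Finset ℕ)) (π : ℕ → ℕ) : Continuous (qf K' π) := by
  unfold qf
  refine Continuous.prodMk ?_ ?_
  · refine continuous_pi fun σ => continuous_finsetSum _ fun σ' _ => ?_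
    exact (continuous_apply σ').comp continuous_fst
  · refine continuous_pi fun i => continuous_finsetProd _ fun a _ => ?_
    exact (continuous_apply a).comp continuous_snd

private theorem mem_verts (K : Finset (Finset ℕ)) (a : ℕ) : a ∈ verts K ↔ ∃ σ ∈ K, a ∈ σ := by
  unfold verts
  simp

/-- product and sum when at most one term is nonzero -/
private theorem prod_one_sub (A : Finset ℕ) (s : ℕ → ℝ)
    (h : ∀ a ∈ A, ∀ b ∈ A, s a ≠ 0 → s b ≠ 0 → a = b) :
    ∏ a ∈ A, (1 - s a) = 1 - ∑ a ∈ A, s a := by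
  by_cases h0 : ∀ a ∈ A, s a = 0
  · rw [Finset.sum_eq_zero h0, Finset.prod_eq_one]
    · ring
    · intro a ha
      rw [h0 a ha, sub_zero]
  · push Not at h0
    obtain ⟨a0, ha0, hs0⟩ := h0
    have h1 : ∀ b ∈ A, b ≠ a0 → s b = 0 := by
      intro b hb hne
      by_contra hsb
      exact hne (h b hb a0 ha0 hsb hs0)
    rw [Finset.prod_eq_single_of_mem a0 ha0 (fun b hb hne => by rw [h1 b hb hne, sub_zero]),
      Finset.sum_eq_single_of_mem a0 ha0 h1]

variable {K K' : Finset (Finset ℕ)} {π : ℕ → ℕ} {V : Finset ℕ}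

private theorem sub_iff (σ : Finset ℕ) (hσ : σ ∈ K') :
    σ ∈ sub K' (pre K' π V) ↔ σ.image π ⊆ V := by
  unfold sub
  rw [Finset.mem_filter]
  constructor
  · rintro ⟨_, h⟩ i hi
    rw [Finset.mem_image] at hi
    obtain ⟨a, ha, rfl⟩ := hi
    exact (Finset.mem_filter.mp (h ha)).2
  · intro h
    refine ⟨hσ, fun a ha => ?_⟩
    unfold pre
    rw [Finset.mem_filter, mem_verts]
    exact ⟨⟨σ, hσ, ha⟩, h (Finset.mem_image_of_mem π ha)⟩

private theorem mem_Mf (hsimp : ∀ σ ∈ K', σ.image π ∈ K ∧ Set.InjOn π (σ : Set ℕ))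
    (p : (Finset ℕ → ℝ) × (ℕ → ℝ)) (hp : p ∈ Mf K' (pre K' π V)) : qf K' π p ∈ Mf K V := by
  classical
  obtain ⟨⟨hnn, hsup, hch, hsum⟩, hab, hout⟩ := hp
  refine ⟨⟨?_, ?_, ?_, ?_⟩, ?_, ?_⟩
  · intro σ
    exact Finset.sum_nonneg fun σ' _ => hnn σ'
  · intro σ hσ
    obtain ⟨σ', hσ', hne⟩ := Finset.exists_ne_zero_of_sum_ne_zero hσ
    rw [Finset.mem_filter] at hσ'
    obtain ⟨hK, hne'⟩ := hsup σ' hne
    rw [← hσ'.2]
    exact ⟨(hsimp σ' hK).1, hne'.image π⟩
  · intro σ τ hσ hτ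
    obtain ⟨σ', hσ', hneσ⟩ := Finset.exists_ne_zero_of_sum_ne_zero hσ
    obtain ⟨τ', hτ', hneτ⟩ := Finset.exists_ne_zero_of_sum_ne_zero hτ
    rw [Finset.mem_filter] at hσ' hτ'
    rw [← hσ'.2, ← hτ'.2]
    rcases hch σ' τ' hneσ hneτ with h | h
    · exact Or.inl (Finset.image_subset_image h)
    · exact Or.inr (Finset.image_subset_image h)
  · change ∑ σ ∈ K, ∑ σ' ∈ K'.filter (fun σ' => σ'.image π = σ), p.1 σ' = 1
    rw [Finset.sum_fiberwise_of_maps_to (fun σ' hσ' => (hsimp σ' hσ').1)]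
    exact hsum
  · intro i
    change |∏ a ∈ (verts K').filter (fun a => π a = i), p.2 a| +
      ∑ σ ∈ (sub K V).filter (fun σ => i ∈ σ),
        ∑ σ' ∈ K'.filter (fun σ' => σ'.image π = σ), p.1 σ' = 1
    set A : Finset ℕ := (verts K').filter (fun a => π a = i) with hA
    set s : ℕ → ℝ := fun a => ∑ σ' ∈ (sub K' (pre K' π V)).filter (fun σ' => a ∈ σ'), p.1 σ'
      with hs
    have habs : ∀ a, |p.2 a| = 1 - s a := fun a => by
      have := hab a
      rw [hs]
      linarith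
    have hprod : |∏ a ∈ A, p.2 a| = 1 - ∑ a ∈ A, s a := by
      rw [Finset.abs_prod, Finset.prod_congr rfl fun a _ => habs a]
      refine prod_one_sub A s ?_
      intro a ha b hb hsa hsb
      obtain ⟨σ', hσ', hneσ⟩ := Finset.exists_ne_zero_of_sum_ne_zero hsa
      obtain ⟨τ', hτ', hneτ⟩ := Finset.exists_ne_zero_of_sum_ne_zero hsb
      rw [Finset.mem_filter] at hσ' hτ'
      rw [hA, Finset.mem_filter] at ha hb
      have hπ : π a = π b := by rw [ha.2, hb.2]
      rcases hch σ' τ' hneσ hneτ with h | h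
      · exact (hsimp τ' (hsup τ' hneτ).1).2 (Finset.mem_coe.mpr (h hσ'.2))
          (Finset.mem_coe.mpr hτ'.2) hπ
      · exact (hsimp σ' (hsup σ' hneσ).1).2 (Finset.mem_coe.mpr hσ'.2)
          (Finset.mem_coe.mpr (h hτ'.2)) hπ
    -- double counting
    have hcount : ∑ σ ∈ (sub K V).filter (fun σ => i ∈ σ),
        ∑ σ' ∈ K'.filter (fun σ' => σ'.image π = σ), p.1 σ' = ∑ a ∈ A, s a := by
      have h1 : ∀ σ ∈ (sub K V).filter (fun σ => i ∈ σ),
          K'.filter (fun σ' => σ'.image π = σ) =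
          ((sub K' (pre K' π V)).filter (fun σ' => i ∈ σ'.image π)).filter
            (fun σ' => σ'.image π = σ) := by
        intro σ hσ
        rw [Finset.mem_filter] at hσ
        ext σ'
        simp only [Finset.mem_filter]
        constructor
        · rintro ⟨hK, him⟩
          have hV : σ'.image π ⊆ V := by rw [him]; exact (Finset.mem_filter.mp hσ.1).2
          exact ⟨⟨(sub_iff σ' hK).mpr hV, by rw [him]; exact hσ.2⟩, him⟩
        · rintro ⟨⟨hK, _⟩, him⟩
          exact ⟨(Finset.mem_filter.mp hK).1, him⟩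
      rw [Finset.sum_congr rfl fun σ hσ => by rw [h1 σ hσ]]
      rw [Finset.sum_fiberwise_of_maps_to]
      · have h2 : ∀ a ∈ A, s a = ∑ σ' ∈ sub K' (pre K' π V), if a ∈ σ' then p.1 σ' else 0 := by
          intro a _
          exact Finset.sum_filter _ _
        rw [Finset.sum_congr rfl h2, Finset.sum_comm, Finset.sum_filter]
        refine Finset.sum_congr rfl fun σ' hσ' => ?_
        have hK : σ' ∈ K' := (Finset.mem_filter.mp hσ').1
        by_cases hi : i ∈ σ'.image π
        · rw [if_pos hi]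
          rw [Finset.mem_image] at hi
          obtain ⟨a, ha, hai⟩ := hi
          have haA : a ∈ A := by
            rw [hA, Finset.mem_filter, mem_verts]
            exact ⟨⟨σ', hK, ha⟩, hai⟩
          rw [Finset.sum_eq_single_of_mem a haA, if_pos ha]
          intro b hb hne
          rw [if_neg]
          intro hbσ
          rw [hA, Finset.mem_filter] at hb
          exact hne ((hsimp σ' hK).2 (Finset.mem_coe.mpr hbσ) (Finset.mem_coe.mpr ha)
            (by rw [hb.2, hai]))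
        · rw [if_neg hi]
          refine (Finset.sum_eq_zero fun a ha => ?_).symm
          rw [if_neg]
          intro haσ
          rw [hA, Finset.mem_filter] at ha
          exact hi (Finset.mem_image.mpr ⟨a, haσ, ha.2⟩)
      · intro σ' hσ'
        rw [Finset.mem_filter] at hσ'
        have hK : σ' ∈ K' := (Finset.mem_filter.mp hσ'.1).1
        rw [Finset.mem_filter]
        refine ⟨?_, hσ'.2⟩
        unfold sub
        rw [Finset.mem_filter]
        exact ⟨(hsimp σ' hK).1, (sub_iff σ' hK).mp hσ'.1⟩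
    rw [hprod, hcount]
    ring
  · intro i hi
    change ∏ a ∈ (verts K').filter (fun a => π a = i), p.2 a = 1
    refine Finset.prod_eq_one fun a ha => ?_
    rw [Finset.mem_filter] at ha
    apply hout
    unfold pre
    rw [Finset.mem_filter]
    rintro ⟨_, h⟩
    rw [ha.2] at h
    exact hi h

theorem prf : S_D2 := by
  intro K K' π d V _ _ hcov
  refine ⟨⟨fun p => ⟨qf K' π p, mem_Mf hcov.simp p p.2⟩,
    ((continuous_qf K' π).comp continuous_subtype_val).subtype_mk _⟩, ?_⟩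
  intro p
  exact ⟨fun σ => rfl, fun i => rfl⟩

end MP8a95ee.Ref.D2P

end

section

/-!
# Item D3: finite fibres
-/

set_option autoImplicit false

namespace MP8a95ee.Ref.D3P

open MP8a95ee.Ref

/-- the value at a face of the support is the value of the image -/
theorem val_eq (K K' : Finset (Finset ℕ)) (π : ℕ → ℕ) (d : ℕ) (hc : IsCover K K' π d)
    (l : Finset ℕ → ℝ) (hl : l ∈ Pt K') (σ' : Finset ℕ) (h0 : l σ' ≠ 0) :
    ∑ τ' ∈ K'.filter (fun τ' => τ'.image π = σ'.image π), l τ' = l σ' := by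
  obtain ⟨_, h2, h3, _⟩ := hl
  have hσK : σ' ∈ K' := (h2 σ' h0).1
  refine Finset.sum_eq_single_of_mem σ' (Finset.mem_filter.mpr ⟨hσK, rfl⟩) ?_
  intro τ' hτ hne
  rw [Finset.mem_filter] at hτ
  by_contra hτ0
  have hcard : τ'.card = σ'.card := by
    have h4 : (τ'.image π).card = τ'.card := Finset.card_image_of_injOn (hc.simp τ' hτ.1).2
    have h5 : (σ'.image π).card = σ'.card := Finset.card_image_of_injOn (hc.simp σ' hσK).2
    rw [← h4, ← h5, hτ.2]
  rcases h3 τ' σ' hτ0 h0 with h | h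
  · exact hne (Finset.eq_of_subset_of_card_le h hcard.ge)
  · exact hne (Finset.eq_of_subset_of_card_le h hcard.le).symm

open Classical in
/-- combinatorial data of a point -/
noncomputable def dat (K' : Finset (Finset ℕ)) (p : (Finset ℕ → ℝ) × (ℕ → ℝ)) :
    Finset (Finset ℕ) × Finset ℕ :=
  (K'.filter (fun σ => p.1 σ ≠ 0), (verts K').filter (fun a => p.2 a < 0))

theorem prf : S_D3 := by
  classical
  intro K K' π d V _ _ hc q hq
  have hfin : (↑(K'.powerset ×ˢ (verts K').powerset) : Set (Finset (Finset ℕ) × Finset ℕ)).Finite :=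
    Finset.finite_toSet _
  refine ⟨(K'.powerset ×ˢ (verts K').powerset).card, fun y => ?_⟩
  have hmaps : ∀ p ∈ q ⁻¹' {y}, dat K' (p : (Finset ℕ → ℝ) × (ℕ → ℝ)) ∈
      (↑(K'.powerset ×ˢ (verts K').powerset) : Set (Finset (Finset ℕ) × Finset ℕ)) := by
    intro p _
    rw [Finset.mem_coe, Finset.mem_product, Finset.mem_powerset, Finset.mem_powerset]
    exact ⟨Finset.filter_subset _ _, Finset.filter_subset _ _⟩
  have hinj : Set.InjOn (fun p : Mf K' (pre K' π V) =>
      dat K' (p : (Finset ℕ → ℝ) × (ℕ → ℝ))) (q ⁻¹' {y}) := by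
    intro p hp p' hp' hpp
    have hqp : q p = y := hp
    have hqp' : q p' = y := hp'
    have hA : K'.filter (fun σ => (p : (Finset ℕ → ℝ) × (ℕ → ℝ)).1 σ ≠ 0) =
        K'.filter (fun σ => (p' : (Finset ℕ → ℝ) × (ℕ → ℝ)).1 σ ≠ 0) := congrArg Prod.fst hpp
    have hB : (verts K').filter (fun a => (p : (Finset ℕ → ℝ) × (ℕ → ℝ)).2 a < 0) =
        (verts K').filter (fun a => (p' : (Finset ℕ → ℝ) × (ℕ → ℝ)).2 a < 0) :=
      congrArg Prod.snd hpp
    have hP := p.2
    have hP' := p'.2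
    have h1 : (p : (Finset ℕ → ℝ) × (ℕ → ℝ)).1 = (p' : (Finset ℕ → ℝ) × (ℕ → ℝ)).1 := by
      funext σ
      by_cases h0 : (p : (Finset ℕ → ℝ) × (ℕ → ℝ)).1 σ = 0
      · by_cases h0' : (p' : (Finset ℕ → ℝ) × (ℕ → ℝ)).1 σ = 0
        · rw [h0, h0']
        · exfalso
          have hK : σ ∈ K' := (hP'.1.2.1 σ h0').1
          have h5 : σ ∈ K'.filter (fun σ => (p' : (Finset ℕ → ℝ) × (ℕ → ℝ)).1 σ ≠ 0) :=
            Finset.mem_filter.mpr ⟨hK, h0'⟩
          rw [← hA] at h5
          exact (Finset.mem_filter.mp h5).2 h0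
      · have hK : σ ∈ K' := (hP.1.2.1 σ h0).1
        have h5 : σ ∈ K'.filter (fun σ => (p : (Finset ℕ → ℝ) × (ℕ → ℝ)).1 σ ≠ 0) :=
          Finset.mem_filter.mpr ⟨hK, h0⟩
        rw [hA] at h5
        have h0' := (Finset.mem_filter.mp h5).2
        rw [← val_eq K K' π d hc _ hP.1 σ h0, ← val_eq K K' π d hc _ hP'.1 σ h0',
          ← (hq p).1 (σ.image π), ← (hq p').1 (σ.image π), hqp, hqp']
    have h2 : (p : (Finset ℕ → ℝ) × (ℕ → ℝ)).2 = (p' : (Finset ℕ → ℝ) × (ℕ → ℝ)).2 := by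
      funext a
      by_cases ha : a ∈ verts K'
      · have h3 : |(p : (Finset ℕ → ℝ) × (ℕ → ℝ)).2 a| =
            |(p' : (Finset ℕ → ℝ) × (ℕ → ℝ)).2 a| := by
          have h4 := hP.2.1 a
          have h4' := hP'.2.1 a
          rw [h1] at h4
          linarith
        have h6 : (p : (Finset ℕ → ℝ) × (ℕ → ℝ)).2 a < 0 ↔
            (p' : (Finset ℕ → ℝ) × (ℕ → ℝ)).2 a < 0 := by
          constructor
          · intro h
            have h5 : a ∈ (verts K').filter
                (fun a => (p : (Finset ℕ → ℝ) × (ℕ → ℝ)).2 a < 0) :=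
              Finset.mem_filter.mpr ⟨ha, h⟩
            rw [hB] at h5
            exact (Finset.mem_filter.mp h5).2
          · intro h
            have h5 : a ∈ (verts K').filter
                (fun a => (p' : (Finset ℕ → ℝ) × (ℕ → ℝ)).2 a < 0) :=
              Finset.mem_filter.mpr ⟨ha, h⟩
            rw [← hB] at h5
            exact (Finset.mem_filter.mp h5).2
        by_cases h : (p : (Finset ℕ → ℝ) × (ℕ → ℝ)).2 a < 0
        · have h' := h6.mp h
          rw [abs_of_neg h, abs_of_neg h'] at h3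
          linarith
        · have h' : ¬ (p' : (Finset ℕ → ℝ) × (ℕ → ℝ)).2 a < 0 := fun h' => h (h6.mpr h')
          rw [abs_of_nonneg (not_lt.mp h), abs_of_nonneg (not_lt.mp h')] at h3
          exact h3
      · have hpre : a ∉ pre K' π V := fun h => ha (Finset.mem_filter.mp h).1
        rw [hP.2.2 a hpre, hP'.2.2 a hpre]
    exact Subtype.ext (Prod.ext h1 h2)
  refine ⟨Set.Finite.of_injOn hmaps hinj hfin, ?_⟩
  have h := Set.ncard_le_ncard_of_injOn _ hmaps hinj hfin
  rwa [Set.ncard_coe_finset] at h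

end MP8a95ee.Ref.D3P

end

section

/-!
# D5: the induced map is a covering map
-/

set_option autoImplicit false

namespace MP8a95ee.Ref.D5P

theorem prf (h1 : S_D1) (h4 : S_D4) : S_D5 := by
  intro K K' π d V hK hV hc q hq
  have hcomp : CompactSpace (Mf K' (pre K' π V)) := isCompact_iff_compactSpace.mp (h1 K' _)
  intro y
  exact IsEvenlyCovered.of_openPartialHomeomorph q.continuous
    (fun e _ => h4 K K' π d V hK hV hc q hq e)

end MP8a95ee.Ref.D5P

end

section

/-!
# D6: the transfer of a finite covering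
-/

set_option autoImplicit false

namespace MP8a95ee.Ref.D6P

section lin

variable {X : Type} [TopologicalSpace X]

theorem bd_sing {n : ℕ} (σ : SSimplex X (n + 1)) (a : ℝ) :
    bd (Finsupp.single σ a) =
      ∑ i : Fin (n + 2), Finsupp.single (face σ i) ((-1 : ℝ) ^ (i : ℕ) * a) := by
  unfold bd
  rw [Finsupp.sum_single_index]
  simp

theorem bd_add' {n : ℕ} (x y : SChain X (n + 1)) : bd (x + y) = bd x + bd y := by
  unfold bd
  rw [Finsupp.sum_add_index']
  · intro σ
    simp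
  · intro σ a b
    simp only [mul_add, Finsupp.single_add, Finset.sum_add_distrib]

theorem bd_zero' {n : ℕ} : bd (0 : SChain X (n + 1)) = 0 := by
  unfold bd
  simp

theorem bd_smul' {n : ℕ} (r : ℝ) (x : SChain X (n + 1)) : bd (r • x) = r • bd x := by
  unfold bd
  rw [Finsupp.sum_smul_index' (fun σ => by simp), Finsupp.smul_sum]
  refine Finsupp.sum_congr fun σ _ => ?_
  rw [Finset.smul_sum]
  refine Finset.sum_congr rfl fun i _ => ?_
  rw [Finsupp.smul_single, smul_eq_mul, smul_eq_mul]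
  congr 1
  ring

theorem bd_sum' {n : ℕ} {ι : Type} (s : Finset ι) (f : ι → SChain X (n + 1)) :
    bd (∑ i ∈ s, f i) = ∑ i ∈ s, bd (f i) := by
  classical
  induction s using Finset.induction_on with
  | empty => simp [bd_zero']
  | insert a s ha ih => rw [Finset.sum_insert ha, Finset.sum_insert ha, bd_add', ih]

theorem l1_add_le {n : ℕ} (x y : SChain X n) : l1 (x + y) ≤ l1 x + l1 y := by
  classical
  unfold l1
  have h1 : (x + y).sum (fun _ a => |a|) = ∑ σ ∈ x.support ∪ y.support, |(x + y) σ| :=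
    Finsupp.sum_of_support_subset _ Finsupp.support_add _ (fun _ _ => abs_zero)
  have h2 : x.sum (fun _ a => |a|) = ∑ σ ∈ x.support ∪ y.support, |x σ| :=
    Finsupp.sum_of_support_subset _ Finset.subset_union_left _ (fun _ _ => abs_zero)
  have h3 : y.sum (fun _ a => |a|) = ∑ σ ∈ x.support ∪ y.support, |y σ| :=
    Finsupp.sum_of_support_subset _ Finset.subset_union_right _ (fun _ _ => abs_zero)
  rw [h1, h2, h3, ← Finset.sum_add_distrib]
  exact Finset.sum_le_sum fun σ _ => by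
    rw [Finsupp.add_apply]
    exact abs_add_le _ _

theorem l1_zero' {n : ℕ} : l1 (0 : SChain X n) = 0 := by
  unfold l1
  simp

theorem l1_smul' {n : ℕ} (r : ℝ) (x : SChain X n) : l1 (r • x) = |r| * l1 x := by
  unfold l1
  rw [Finsupp.sum_smul_index' (fun σ => abs_zero), Finsupp.mul_sum]
  refine Finsupp.sum_congr fun σ _ => ?_
  rw [smul_eq_mul, abs_mul]

theorem l1_sum_le {n : ℕ} {ι : Type} (s : Finset ι) (f : ι → SChain X n) :
    l1 (∑ i ∈ s, f i) ≤ ∑ i ∈ s, l1 (f i) := by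
  classical
  induction s using Finset.induction_on with
  | empty => simp [l1_zero']
  | insert a s ha ih =>
    rw [Finset.sum_insert ha, Finset.sum_insert ha]
    exact (l1_add_le _ _).trans (by linarith)

theorem l1_sing {n : ℕ} (σ : SSimplex X n) (a : ℝ) : l1 (Finsupp.single σ a) = |a| := by
  unfold l1
  rw [Finsupp.sum_single_index abs_zero]

end lin

section lifts

variable {E B : Type} [TopologicalSpace E] [TopologicalSpace B] {q : C(E, B)}

/-- the lifts of a simplex -/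
def lifts (q : C(E, B)) {k : ℕ} (σ : SSimplex B k) : Set (SSimplex E k) := {ρ | q.comp ρ = σ}

theorem lifts_inj (hq : IsCoveringMap q) {k : ℕ} {σ : SSimplex B k} {ρ ρ' : SSimplex E k}
    (h : q.comp ρ = σ) (h' : q.comp ρ' = σ) (t : stdSimplex ℝ (Fin (k + 1))) (ht : ρ t = ρ' t) :
    ρ = ρ' := by
  have h1 : (fun x => ρ x) = fun x => ρ' x := by
    refine hq.eq_of_comp_eq ρ.continuous ρ'.continuous (funext fun x => ?_) t ht
    change q (ρ x) = q (ρ' x)
    rw [← ContinuousMap.comp_apply, ← ContinuousMap.comp_apply, h, h']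
  exact ContinuousMap.ext fun x => congrFun h1 x

theorem lifts_ex (hq : IsCoveringMap q) {k : ℕ} (σ : SSimplex B k)
    (t : stdSimplex ℝ (Fin (k + 1))) (e : E) (he : q e = σ t) :
    ∃ ρ : SSimplex E k, q.comp ρ = σ ∧ ρ t = e := by
  obtain ⟨ρ, ⟨h1, h2⟩, _⟩ := hq.existsUnique_continuousMap_lifts σ t e he
  exact ⟨ρ, ContinuousMap.ext fun x => congrFun h2 x, h1⟩

theorem lifts_maps {k : ℕ} (σ : SSimplex B k) :
    ∀ ρ ∈ lifts q σ, ρ (vtx 0) ∈ q ⁻¹' {σ (vtx 0)} := by
  intro ρ hρ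
  have h : q.comp ρ = σ := hρ
  change q (ρ (vtx 0)) = σ (vtx 0)
  rw [← h]
  rfl

theorem lifts_injOn (hq : IsCoveringMap q) {k : ℕ} (σ : SSimplex B k) :
    Set.InjOn (fun ρ : SSimplex E k => ρ (vtx 0)) (lifts q σ) := by
  intro ρ hρ ρ' hρ' h
  exact lifts_inj hq hρ hρ' (vtx 0) h

theorem lifts_fin (hq : IsCoveringMap q) (hf : ∀ y, (q ⁻¹' {y}).Finite) {k : ℕ}
    (σ : SSimplex B k) : (lifts q σ).Finite := by
  refine Set.Finite.of_injOn (f := fun ρ : SSimplex E k => ρ (vtx 0)) (t := q ⁻¹' {σ (vtx 0)})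
    ?_ (lifts_injOn hq σ) (hf _)
  intro ρ hρ
  exact lifts_maps σ ρ hρ

theorem lifts_card (hq : IsCoveringMap q) (D : ℕ)
    (hf : ∀ y, (q ⁻¹' {y}).Finite ∧ (q ⁻¹' {y}).ncard ≤ D) {k : ℕ}
    (σ : SSimplex B k) : (lifts q σ).ncard ≤ D := by
  refine le_trans ?_ (hf (σ (vtx 0))).2
  exact Set.ncard_le_ncard_of_injOn (fun ρ : SSimplex E k => ρ (vtx 0)) (lifts_maps σ)
    (lifts_injOn hq σ) (hf _).1

theorem face_lift {k : ℕ} {σ : SSimplex B (k + 1)} {ρ : SSimplex E (k + 1)} (h : q.comp ρ = σ)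
    (i : Fin (k + 2)) : q.comp (face ρ i) = face σ i := by
  rw [← h]
  rfl

end lifts

theorem prf : S_D6 := by
  classical
  intro E B _ _ q hq D hf
  have hfin : ∀ (k : ℕ) (σ : SSimplex B k), (lifts q σ).Finite := fun k σ =>
    lifts_fin hq (fun y => (hf y).1) σ
  let Lf : ∀ k, SSimplex B k → Finset (SSimplex E k) := fun k σ => (hfin k σ).toFinset
  have hmem : ∀ k (σ : SSimplex B k) ρ, ρ ∈ Lf k σ ↔ q.comp ρ = σ := fun k σ ρ =>
    (hfin k σ).mem_toFinset
  have hcard : ∀ k (σ : SSimplex B k), (Lf k σ).card ≤ D := fun k σ => by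
    have := lifts_card hq D hf σ
    rwa [Set.ncard_eq_toFinset_card _ (hfin k σ)] at this
  let τ : ∀ k, SChain B k →ₗ[ℝ] SChain E k := fun k =>
    Finsupp.linearCombination ℝ fun σ => ∑ ρ ∈ Lf k σ, Finsupp.single ρ (1 : ℝ)
  have hτ : ∀ k (σ : SSimplex B k) (a : ℝ), τ k (Finsupp.single σ a) =
      a • ∑ ρ ∈ Lf k σ, Finsupp.single ρ (1 : ℝ) := fun k σ a =>
    Finsupp.linearCombination_single ℝ a σ
  refine ⟨τ, ?_, ?_, ?_⟩
  · intro k σ S hS
    rw [hτ, one_smul]
    congr 1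
    ext ρ
    rw [hmem, hS]
  · intro k z
    induction z using Finsupp.induction_linear with
    | zero => rw [map_zero, bd_zero', bd_zero', map_zero]
    | add x y hx hy => rw [map_add, bd_add', bd_add', map_add, hx, hy]
    | single σ a =>
      rw [hτ, bd_smul', bd_sum', bd_sing, map_sum]
      have h1 : ∀ i : Fin (k + 2), τ k (Finsupp.single (face σ i) ((-1 : ℝ) ^ (i : ℕ) * a)) =
          a • ∑ ρ ∈ Lf (k + 1) σ, Finsupp.single (face ρ i) ((-1 : ℝ) ^ (i : ℕ) * 1) := by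
        intro i
        have h2 : ∑ ρ ∈ Lf (k + 1) σ, Finsupp.single (face ρ i) (1 : ℝ) =
            ∑ ρ ∈ Lf k (face σ i), Finsupp.single ρ (1 : ℝ) := by
          refine Finset.sum_nbij (fun ρ => face ρ i) ?_ ?_ ?_ (fun ρ _ => rfl)
          · intro ρ hρ
            rw [hmem] at hρ ⊢
            exact face_lift hρ i
          · intro ρ hρ ρ' hρ' h
            have e1 := (hmem _ _ _).mp (Finset.mem_coe.mp hρ)
            have e2 := (hmem _ _ _).mp (Finset.mem_coe.mp hρ')
            exact lifts_inj hq e1 e2 (stdSimplex.map i.succAbove (vtx 0))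
              (DFunLike.congr_fun h (vtx 0))
          · intro ρ' hρ'
            have e1 := (hmem _ _ _).mp (Finset.mem_coe.mp hρ')
            obtain ⟨ρ, e2, e3⟩ := lifts_ex hq σ (stdSimplex.map i.succAbove (vtx 0))
              (ρ' (vtx 0)) (DFunLike.congr_fun e1 (vtx 0))
            refine ⟨ρ, Finset.mem_coe.mpr ((hmem _ _ _).mpr e2), ?_⟩
            exact lifts_inj hq (face_lift e2 i) e1 (vtx 0) e3
        rw [hτ, ← h2, mul_comm, mul_smul, Finset.smul_sum]
        congr 1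
        refine Finset.sum_congr rfl fun ρ _ => ?_
        rw [Finsupp.smul_single, smul_eq_mul]
      rw [Finset.sum_congr rfl fun i _ => h1 i, ← Finset.smul_sum, Finset.sum_comm]
      congr 1
      exact Finset.sum_congr rfl fun ρ _ => bd_sing ρ 1
  · intro k z
    have h1 : τ k z = ∑ σ ∈ z.support, z σ • ∑ ρ ∈ Lf k σ, Finsupp.single ρ (1 : ℝ) :=
      Finsupp.linearCombination_apply ℝ z
    rw [h1]
    refine (l1_sum_le _ _).trans ?_
    unfold l1
    rw [Finsupp.sum, Finset.mul_sum]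
    refine Finset.sum_le_sum fun σ _ => ?_
    have h2 : l1 (∑ ρ ∈ Lf k σ, Finsupp.single ρ (1 : ℝ)) ≤ D := by
      refine (l1_sum_le _ _).trans ?_
      rw [Finset.sum_congr rfl fun ρ _ => l1_sing ρ 1, abs_one, Finset.sum_const, nsmul_eq_mul,
        mul_one]
      exact_mod_cast hcard k σ
    have h3 := l1_smul' (z σ) (∑ ρ ∈ Lf k σ, Finsupp.single ρ (1 : ℝ))
    unfold l1 at h2 h3
    rw [h3, mul_comm]
    exact mul_le_mul_of_nonneg_right h2 (abs_nonneg _)

end MP8a95ee.Ref.D6P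

end

section

/-!
# D9: the simplices of the space are different
-/

set_option autoImplicit false

namespace MP8a95ee.Ref.D9P

theorem card_fl {n : ℕ} (t : Fin (n + 1) → ℕ) (ht : Function.Injective t) (j : Fin (n + 1)) :
    (fl t j).card = (j : ℕ) + 1 := by
  unfold fl
  rw [Finset.card_image_of_injective _ ht]
  have : (Finset.univ.filter fun i : Fin (n + 1) => i ≤ j) = Finset.Iic j := by
    ext i
    simp
  rw [this, Fin.card_Iic]

theorem mem_fl {n : ℕ} (t : Fin (n + 1) → ℕ) (j : Fin (n + 1)) (a : ℕ) :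
    a ∈ fl t j ↔ ∃ i ≤ j, t i = a := by
  unfold fl
  simp only [Finset.mem_image, Finset.mem_filter, Finset.mem_univ, true_and]

theorem bary_pos (n : ℕ) (j : Fin (n + 1)) : 0 < (bary n j : ℝ) := by
  change (0 : ℝ) < 1 / ((n : ℝ) + 1)
  positivity

theorem fl_sub {n : ℕ} (t₁ t₂ : Fin (n + 1) → ℕ) (h₁ : Function.Injective t₁)
    (h₂ : Function.Injective t₂)
    (h : ∀ σ : Finset ℕ, (∑ j, if fl t₁ j = σ then (bary n j : ℝ) else 0)
      = ∑ j, if fl t₂ j = σ then (bary n j : ℝ) else 0) (j : Fin (n + 1)) :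
    fl t₁ j = fl t₂ j := by
  have h3 := h (fl t₁ j)
  have h4 : 0 < ∑ i, if fl t₁ i = fl t₁ j then (bary n i : ℝ) else 0 := by
    refine Finset.sum_pos' (fun i _ => ?_) ⟨j, Finset.mem_univ _, ?_⟩
    · split_ifs
      · exact (bary_pos n i).le
      · exact le_rfl
    · rw [if_pos rfl]
      exact bary_pos n j
  rw [h3] at h4
  by_contra hne
  have h5 : ∑ i, (if fl t₂ i = fl t₁ j then (bary n i : ℝ) else 0) = 0 := by
    refine Finset.sum_eq_zero fun i _ => ?_
    rw [if_neg]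
    intro he
    have hc := congrArg Finset.card he
    rw [card_fl t₂ h₂, card_fl t₁ h₁] at hc
    have : i = j := Fin.ext (by omega)
    rw [this] at he
    exact hne he.symm
  rw [h5] at h4
  exact lt_irrefl _ h4

theorem prf : S_D9 := by
  intro K V T₁ T₂ _ _ _ n t₁ t₂ h₁ h₂ _ _ hV heq
  have hfst : ∀ σ : Finset ℕ, (∑ j, if fl t₁ j = σ then (bary n j : ℝ) else 0)
      = ∑ j, if fl t₂ j = σ then (bary n j : ℝ) else 0 := fun σ =>
    congrFun (congrArg Prod.fst heq) σ
  have hfl := fl_sub t₁ t₂ h₁ h₂ hfst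
  have ht : t₁ = t₂ := by
    funext j
    have h3 : t₁ j ∈ fl t₂ j := by
      rw [← hfl j, mem_fl]
      exact ⟨j, le_rfl, rfl⟩
    obtain ⟨i, hij, hi⟩ := (mem_fl t₂ j _).1 h3
    rcases hij.lt_or_eq with hlt | rfl
    · exfalso
      have h4 : t₂ i ∈ fl t₁ i := by
        rw [hfl i, mem_fl]
        exact ⟨i, le_rfl, rfl⟩
      obtain ⟨k, hki, hk⟩ := (mem_fl t₁ i _).1 h4
      rw [hi] at hk
      have := h₁ hk
      rw [this] at hki
      exact absurd hlt (not_lt.2 hki)
    · exact hi.symm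
  refine ⟨?_, ht⟩
  subst ht
  have hsnd : ∀ i : ℕ, cornerPt T₁ i * (1 - ∑ j, if fl t₁ j ∈ sub K V ∧ i ∈ fl t₁ j then
        (bary n j : ℝ) else 0) =
      cornerPt T₂ i * (1 - ∑ j, if fl t₁ j ∈ sub K V ∧ i ∈ fl t₁ j then
        (bary n j : ℝ) else 0) := fun i => congrFun (congrArg Prod.snd heq) i
  have hlast : fl t₁ (Fin.last n) = Finset.univ.image t₁ := by
    unfold fl
    congr 1
    ext i
    simp [Fin.le_last]
  have hfac : ∀ i : ℕ, 0 < 1 - ∑ j, if fl t₁ j ∈ sub K V ∧ i ∈ fl t₁ j then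
      (bary n j : ℝ) else 0 := by
    intro i
    have h3 : ∑ j, (bary n j : ℝ) = 1 := (bary n).2.2
    rw [← h3, ← Finset.sum_sub_distrib]
    refine Finset.sum_pos' (fun j _ => ?_) ⟨Fin.last n, Finset.mem_univ _, ?_⟩
    · split_ifs
      · rw [sub_self]
      · rw [sub_zero]
        exact (bary_pos n j).le
    · rw [if_neg, sub_zero]
      · exact bary_pos n _
      · rintro ⟨h4, -⟩
        rw [hlast] at h4
        exact hV (Finset.mem_filter.1 h4).2
  ext i
  have h5 := mul_right_cancel₀ (hfac i).ne' (hsnd i)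
  unfold cornerPt at h5
  by_cases ha : i ∈ T₁
  · by_cases hb : i ∈ T₂
    · exact iff_of_true ha hb
    · rw [if_pos ha, if_neg hb] at h5
      norm_num at h5
  · by_cases hb : i ∈ T₂
    · rw [if_neg ha, if_pos hb] at h5
      norm_num at h5
    · exact iff_of_false ha hb

end MP8a95ee.Ref.D9P

end

section

/-!
# Assembly of the block Ref
-/

set_option autoImplicit false

namespace MP8a95ee.Ref.Asm

open RA Basic

theorem asm (hA10 : S_A10) (hB1 : S_B1') (hB2 : S_B2') (hB3 : S_B3') (hB4 : S_B4')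
    (hB5 : S_B5') (hB6 : S_B6') (hB7 : S_B7') (hC5 : S_C5) (hC6 : S_C6) (hD2 : S_D2)
    (hD3 : S_D3) (hD5 : S_D5) (hD6 : S_D6) (hD10 : S_D10) : S_Main := by
  intro m hm K hK V hV hVK hfl hL o ho c hc
  refine ⟨hC5 K V hK hVK m o ho c hc, ?_⟩
  intro hsmall K' π d hd hcov
  obtain ⟨hfl', hverts', hne', hVK'⟩ := hB1 K K' π d V hK hVK hfl hd hcov
  have hL' : IsHMfd (sub K' (pre K' π V)) (m + 1) := hB2 K K' π d V hK hVK (m + 1) hL hcov
  have ho' : IsOrient (sub K' (pre K' π V)) (m + 1) (pb K' π o) :=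
    hB3 K K' π d V hK hVK m hm o ho hcov
  have hc' : IsRelCycle K' (m + 1) (pb K' π o) (pb K' π c) :=
    hB4 K K' π d V hK m o ho c hc hcov
  have hbd : Bounds (sub K' (pre K' π V)) (pb K' π o)
      (KG (sub K' (pre K' π V)) fun _ => True) := by
    by_contra hnb
    obtain ⟨C, hC, hP⟩ := P13.prf (sub K' (pre K' π V)) hfl' m (pb K' π o) ho' hnb
    obtain ⟨q, hq⟩ := hD2 K K' π d V hK hVK hcov
    obtain ⟨D, hD⟩ := hD3 K K' π d V hK hVK hcov q hq
    have hcm : IsCoveringMap q := hD5 K K' π d V hK hVK hcov q hq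
    obtain ⟨τ, hτ, hτbd, hτl1⟩ := hD6 (Mf K' (pre K' π V)) (Mf K V) q hcm D hD
    have hfund := hD10 K K' π d V hK hVK hcov m hfl hL o c hc q hq τ hτ
    obtain ⟨f, hf, lam, w, hlam, hpush⟩ :=
      hC6 K' (pre K' π V) hcov.cx hVK' hfl' m (pb K' π o) ho' (pb K' π c) hc'
    have key : ∀ ε : ℝ, 0 < ε → C * |lam| ≤ D * ε := by
      intro ε hε
      obtain ⟨b, hb⟩ := hsmall ε hε
      have h1 := hP (Mf K' (pre K' π V)) f lam (τ (m + 1) (fundCh K V c + bd b))
        (w + push f (τ (m + 2) b)) (by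
          rw [map_add, ← hτbd, hfund, push_add, hpush, bd_add, bd_push, add_assoc])
      calc C * |lam| ≤ l1 (τ (m + 1) (fundCh K V c + bd b)) := h1
        _ ≤ D * l1 (fundCh K V c + bd b) := hτl1 _ _
        _ ≤ D * ε := by
          exact mul_le_mul_of_nonneg_left hb.le (Nat.cast_nonneg D)
    have hpos : 0 < C * |lam| := mul_pos hC (abs_pos.mpr hlam)
    have h2 := key (C * |lam| / (2 * ((D : ℝ) + 1))) (by positivity)
    have h3 : (D : ℝ) * (C * |lam| / (2 * ((D : ℝ) + 1))) < C * |lam| := by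
      rw [← mul_div_assoc, div_lt_iff₀ (by positivity)]
      nlinarith [Nat.cast_nonneg (α := ℝ) D]
    linarith
  by_cases hVn : V.Nonempty
  swap
  · exact absurd hV hVn
  have hne : (verts (sub K' (pre K' π V))).Nonempty := by
    rw [hverts']
    exact hne' hV
  have hk := hA10 (sub K' (pre K' π V)) hfl' hne m hL' (pb K' π o) ho' hbd
  have h5 := hB5 K K' π d V hK hcov
  have h6 := hB6 K V hK hVK
  have h7 := hB7 K' hcov.cx
  have h7' : |((chiK K' : ℤ) : ℚ)| ≤ (betti K' : ℚ) := by exact_mod_cast h7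
  set kap' : ℚ := ∑ s ∈ sub K' (pre K' π V), (-1 / 2 : ℚ) ^ s.card with hkap'
  have hmain : (d : ℚ) * (chiM K V : ℚ) = 2 ^ V.card * ((chiK K' : ℚ) + kap' - 1) := by
    rw [h6]
    have h51 : ((chiK K' : ℤ) : ℚ) = (d : ℚ) * ((chiK K : ℤ) : ℚ) := by
      rw [h5.1]
      push_cast
      ring
    rw [h51, add_sub_assoc, add_sub_assoc, h5.2]
    ring
  have hfin : (d : ℚ) * |(chiM K V : ℚ)| ≤
      2 ^ V.card * ((betti K' : ℚ) + (betti (sub K' (pre K' π V)) : ℚ) + 1) := by
    have hd0 : (0 : ℚ) ≤ (d : ℚ) := Nat.cast_nonneg d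
    have habs : (d : ℚ) * |(chiM K V : ℚ)| = |(d : ℚ) * (chiM K V : ℚ)| := by
      rw [abs_mul, abs_of_nonneg hd0]
    rw [habs, hmain, abs_mul, abs_of_nonneg (by positivity : (0 : ℚ) ≤ 2 ^ V.card)]
    refine mul_le_mul_of_nonneg_left ?_ (by positivity)
    calc |(chiK K' : ℚ) + kap' - 1| ≤ |(chiK K' : ℚ) + kap'| + |(1 : ℚ)| := abs_sub _ _
      _ ≤ |(chiK K' : ℚ)| + |kap'| + |(1 : ℚ)| := by
        have := abs_add_le (chiK K' : ℚ) kap'
        linarith
      _ ≤ _ := by
        rw [abs_one]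
        linarith
  exact_mod_cast hfin

end MP8a95ee.Ref.Asm

end
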