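import Pool.Agent.Work.MP_8a95ee_gt.Ref.Stmts

/-! Bundle of small proof modules (one section per former module). -/

section

/-!
# D7: the induced map on simplices
-/

set_option autoImplicit false

namespace MP8a95ee.Ref.D7P

open MP8a95ee MP8a95ee.Ref

lemma mem_fl {n : ℕ} {t : Fin n → ℕ} {j : Fin n} {x : ℕ} :
    x ∈ fl t j ↔ ∃ i, i ≤ j ∧ t i = x := by
  simp [fl]

lemma fl_image {n : ℕ} (π : ℕ → ℕ) (t : Fin n → ℕ) (j : Fin n) :
    fl (fun i => π (t i)) j = (fl t j).image π := by
  unfold fl
  rw [Finset.image_image]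
  rfl

lemma fl_sub {n : ℕ} (t : Fin n → ℕ) (j : Fin n) : fl t j ⊆ Finset.univ.image t := by
  intro x hx
  obtain ⟨i, -, h⟩ := mem_fl.1 hx
  exact Finset.mem_image.2 ⟨i, Finset.mem_univ _, h⟩

lemma mem_verts {K : Finset (Finset ℕ)} {x : ℕ} : x ∈ verts K ↔ ∃ σ ∈ K, x ∈ σ := by
  simp [verts]

lemma mem_sub {K : Finset (Finset ℕ)} {V σ : Finset ℕ} : σ ∈ sub K V ↔ σ ∈ K ∧ σ ⊆ V := by
  simp [sub]

lemma prod_corner (s T' : Finset ℕ) :
    ∏ a ∈ s, cornerPt T' a = (-1 : ℝ) ^ (s.filter fun a => a ∈ T').card := by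
  unfold cornerPt
  rw [Finset.prod_ite, Finset.prod_const, Finset.prod_const_one, mul_one]

lemma fib {K' : Finset (Finset ℕ)} {π : ℕ → ℕ} {V T' : Finset ℕ} (h : T' ⊆ pre K' π V) (i : ℕ) :
    (((verts K').filter fun a => π a = i).filter fun a => a ∈ T') =
      T'.filter fun a => π a = i := by
  ext a
  simp only [Finset.mem_filter]
  constructor
  · rintro ⟨⟨-, h1⟩, h2⟩
    exact ⟨h2, h1⟩
  · rintro ⟨h1, h2⟩
    have h3 := h h1
    simp only [pre, Finset.mem_filter] at h3
    exact ⟨⟨h3.1, h2⟩, h1⟩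

lemma corner_par {K' : Finset (Finset ℕ)} {π : ℕ → ℕ} {V T' : Finset ℕ} (h : T' ⊆ pre K' π V)
    (i : ℕ) : cornerPt (par π V T') i =
      ∏ a ∈ (verts K').filter (fun a => π a = i), cornerPt T' a := by
  rw [prod_corner, fib h]
  simp only [cornerPt, par, Finset.mem_filter]
  by_cases hi : i ∈ V
  · rcases Nat.even_or_odd (T'.filter fun a => π a = i).card with h1 | h1
    · rw [if_neg (fun h2 => (Nat.not_odd_iff_even.2 h1) h2.2), h1.neg_one_pow]
    · rw [if_pos ⟨hi, h1⟩, h1.neg_one_pow]
  · rw [if_neg fun h2 => hi h2.1]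
    have h1 : (T'.filter fun a => π a = i) = ∅ := by
      rw [Finset.filter_eq_empty_iff]
      intro a ha h2
      have h3 := h ha
      simp only [pre, Finset.mem_filter] at h3
      exact hi (h2 ▸ h3.2)
    rw [h1, Finset.card_empty, pow_zero]

lemma sub_iff {K K' : Finset (Finset ℕ)} {π : ℕ → ℕ} {d : ℕ} {V : Finset ℕ}
    (hc : IsCover K K' π d) {ρ : Finset ℕ} (hρ : ρ ∈ K') :
    ρ ∈ sub K' (pre K' π V) ↔ ρ.image π ∈ sub K V := by
  rw [mem_sub, mem_sub]
  constructor
  · rintro ⟨-, h⟩
    refine ⟨(hc.simp ρ hρ).1, fun y hy => ?_⟩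
    obtain ⟨x, hx, rfl⟩ := Finset.mem_image.1 hy
    have h3 := h hx
    simp only [pre, Finset.mem_filter] at h3
    exact h3.2
  · rintro ⟨-, h⟩
    refine ⟨hρ, fun x hx => ?_⟩
    simp only [pre, Finset.mem_filter]
    exact ⟨mem_verts.2 ⟨ρ, hρ, hx⟩, h (Finset.mem_image_of_mem _ hx)⟩

theorem prf : S_D7 := by
  intro K K' π d V _ _ hc T' hT' n t' ht' τ
  have hfl : ∀ j, fl t' j ∈ K' := fun j => hc.cx.2 _ ht' _ (fl_sub t' j)
  have hinj := (hc.simp _ ht').2
  constructor
  · intro σ
    simp only [simPt]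
    rw [Finset.sum_comm]
    refine Finset.sum_congr rfl fun j _ => ?_
    rw [Finset.sum_ite_eq]
    simp only [Finset.mem_filter, hfl j, true_and, fl_image]
  · intro i
    simp only [simPt]
    rw [Finset.prod_mul_distrib, corner_par (K' := K') hT' i]
    congr 1
    by_cases hex : ∃ a, a ∈ (verts K').filter (fun a => π a = i) ∧ a ∈ Finset.univ.image t'
    · obtain ⟨a, ha, hat⟩ := hex
      have hai : π a = i := (Finset.mem_filter.1 ha).2
      rw [Finset.prod_eq_single a]
      · congr 1
        refine Finset.sum_congr rfl fun j _ => ?_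
        congr 1
        apply propext
        rw [sub_iff hc (hfl j), fl_image]
        refine and_congr_right fun _ => ?_
        constructor
        · intro h
          obtain ⟨x, hx, hx2⟩ := Finset.mem_image.1 h
          have : x = a := hinj (Finset.mem_coe.2 (fl_sub t' j hx)) (Finset.mem_coe.2 hat)
            (hx2.trans hai.symm)
          exact this ▸ hx
        · intro h
          exact Finset.mem_image.2 ⟨a, h, hai⟩
      · intro b hb hba
        have hbt : b ∉ Finset.univ.image t' := fun h =>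
          hba (hinj (Finset.mem_coe.2 h) (Finset.mem_coe.2 hat)
            ((Finset.mem_filter.1 hb).2.trans hai.symm))
        rw [Finset.sum_eq_zero, sub_zero]
        intro j _
        rw [if_neg fun h => hbt (fl_sub t' j h.2)]
      · intro h
        exact absurd ha h
    · push Not at hex
      rw [Finset.prod_eq_one, Finset.sum_eq_zero, sub_zero]
      · intro j _
        rw [if_neg]
        rintro ⟨-, h⟩
        rw [fl_image] at h
        obtain ⟨x, hx, hx2⟩ := Finset.mem_image.1 h
        exact hex x (Finset.mem_filter.2 ⟨mem_verts.2 ⟨_, hfl j, hx⟩, hx2⟩) (fl_sub t' j hx)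
      · intro b hb
        rw [Finset.sum_eq_zero, sub_zero]
        intro j _
        rw [if_neg fun h => hex b hb (fl_sub t' j h.2)]

end MP8a95ee.Ref.D7P

end

section

/-!
# D8: the points over a barycenter
-/

set_option autoImplicit false

namespace MP8a95ee.Ref.D8P

open MP8a95ee MP8a95ee.Ref D7P

lemma card_fl {n : ℕ} {t : Fin n → ℕ} (ht : Function.Injective t) (j : Fin n) :
    (fl t j).card = (j : ℕ) + 1 := by
  unfold fl
  rw [Finset.card_image_of_injective _ ht]
  have : (Finset.univ.filter fun i : Fin n => i ≤ j) = Finset.Iic j := by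
    ext i; simp
  rw [this, Fin.card_Iic]

lemma fl_inj {n : ℕ} {t : Fin n → ℕ} (ht : Function.Injective t) {j k : Fin n}
    (h : fl t j = fl t k) : j = k := by
  have h1 := card_fl ht j
  rw [h, card_fl ht k] at h1
  exact Fin.ext (by omega)

lemma fl_last {n : ℕ} (t : Fin (n + 1) → ℕ) : fl t (Fin.last n) = Finset.univ.image t := by
  unfold fl
  congr 1
  ext i
  simp [Fin.le_last]

lemma bary_apply (n : ℕ) (j : Fin (n + 1)) :
    ((bary n : stdSimplex ℝ (Fin (n + 1))) : Fin (n + 1) → ℝ) j = 1 / ((n : ℝ) + 1) := rfl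

theorem prf : S_D8 := by
  intro K K' π d V _ _ hc q hq T hT n t ht htK htV p hp
  obtain ⟨hq1, hq2⟩ := hq p
  rw [hp] at hq1 hq2
  obtain ⟨⟨⟨hl0, hlK, hlc, hl1⟩, hx1, hx2⟩, hpe⟩ :
      (p : (Finset ℕ → ℝ) × (ℕ → ℝ)) ∈ Mf K' (pre K' π V) ∧ True := ⟨p.2, trivial⟩
  set l := (p : (Finset ℕ → ℝ) × (ℕ → ℝ)).1 with hl
  set x := (p : (Finset ℕ → ℝ) × (ℕ → ℝ)).2 with hx
  set c : ℝ := 1 / ((n : ℝ) + 1) with hcdef
  have hc0 : 0 < c := by positivity
  -- the first component of the barycenter
  have hb1 : ∀ σ, (simPt K V T t (bary n)).1 σ = ∑ j, if fl t j = σ then c else 0 := fun σ => rfl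
  have hb1a : ∀ j, (simPt K V T t (bary n)).1 (fl t j) = c := by
    intro j
    rw [hb1, Finset.sum_eq_single j]
    · rw [if_pos rfl]
    · intro k _ hk
      rw [if_neg fun h => hk (fl_inj ht h)]
    · intro h
      exact absurd (Finset.mem_univ _) h
  have hinj : ∀ σ, l σ ≠ 0 → Set.InjOn π (σ : Set ℕ) := fun σ h => (hc.simp _ (hlK σ h).1).2
  have hcard : ∀ σ, l σ ≠ 0 → (σ.image π).card = σ.card := fun σ h =>
    Finset.card_image_of_injOn (hinj σ h)
  -- images of the support
  have hA1 : ∀ σ, l σ ≠ 0 → ∃ j, σ.image π = fl t j := by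
    intro σ h
    have h1 := hq1 (σ.image π)
    have h2 : l σ ≤ ∑ σ' ∈ K'.filter (fun σ' => σ'.image π = σ.image π), l σ' :=
      Finset.single_le_sum (fun σ' _ => hl0 σ') (Finset.mem_filter.2 ⟨(hlK σ h).1, rfl⟩)
    have h3 : 0 < l σ := lt_of_le_of_ne (hl0 σ) (Ne.symm h)
    rw [← h1, hb1] at h2
    by_contra hne
    push Not at hne
    rw [Finset.sum_eq_zero] at h2
    · linarith
    · intro j _
      rw [if_neg fun h4 => hne j h4.symm]
  have huniq : ∀ σ σ', l σ ≠ 0 → l σ' ≠ 0 → σ.image π = σ'.image π → σ = σ' := by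
    intro σ σ' h h' he
    have h1 := hcard σ h
    have h2 := hcard σ' h'
    rw [he] at h1
    rcases hlc σ σ' h h' with h3 | h3
    · exact Finset.eq_of_subset_of_card_le h3 (by omega)
    · exact (Finset.eq_of_subset_of_card_le h3 (by omega)).symm
  have hex : ∀ j, ∃ σ, l σ ≠ 0 ∧ σ.image π = fl t j := by
    intro j
    have h1 := hq1 (fl t j)
    rw [hb1a] at h1
    by_contra hne
    push Not at hne
    rw [Finset.sum_eq_zero] at h1
    · linarith
    · intro σ' h'
      by_contra h2
      exact hne σ' h2 (Finset.mem_filter.1 h').2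
  choose s hs1 hs2 using hex
  have hlc' : ∀ j, l (s j) = c := by
    intro j
    have h1 := hq1 (fl t j)
    rw [hb1a, Finset.sum_eq_single (s j)] at h1
    · exact h1.symm
    · intro σ h2 h3
      by_contra h4
      exact h3 (huniq σ (s j) h4 (hs1 j) ((Finset.mem_filter.1 h2).2.trans (hs2 j).symm))
    · intro h2
      exact absurd (Finset.mem_filter.2 ⟨(hlK _ (hs1 j)).1, hs2 j⟩) h2
  have hscard : ∀ j, (s j).card = (j : ℕ) + 1 := by
    intro j
    rw [← hcard _ (hs1 j), hs2, card_fl ht]
  have hmono : ∀ j, s j ⊆ s (Fin.last n) := by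
    intro j
    rcases hlc _ _ (hs1 j) (hs1 (Fin.last n)) with h | h
    · exact h
    · have h1 := hscard j
      have h2 := hscard (Fin.last n)
      have h3 : (j : ℕ) ≤ n := Nat.lt_succ_iff.1 j.2
      rw [Fin.val_last] at h2
      rw [Finset.eq_of_subset_of_card_le h (by omega)]
  have hlift : ∀ i, ∃ a ∈ s (Fin.last n), π a = t i := by
    intro i
    have h1 : t i ∈ (s (Fin.last n)).image π := by
      rw [hs2, fl_last]
      exact Finset.mem_image_of_mem _ (Finset.mem_univ _)
    exact Finset.mem_image.1 h1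
  choose t' ht1 ht2 using hlift
  have hIn := hinj _ (hs1 (Fin.last n))
  have hfl : ∀ j, fl t' j = s j := by
    intro j
    have e : (fl t' j).image π = (s j).image π := by
      rw [← fl_image, hs2]
      congr 1
      funext i
      exact ht2 i
    have hsub : ∀ y ∈ fl t' j, y ∈ s (Fin.last n) := by
      intro y hy
      obtain ⟨i, -, rfl⟩ := mem_fl.1 hy
      exact ht1 i
    ext y
    constructor
    · intro hy
      have h1 : π y ∈ (s j).image π := e ▸ Finset.mem_image_of_mem _ hy
      obtain ⟨z, hz, hz2⟩ := Finset.mem_image.1 h1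
      have := hIn (Finset.mem_coe.2 (hmono j hz)) (Finset.mem_coe.2 (hsub y hy)) hz2
      exact this ▸ hz
    · intro hy
      have h1 : π y ∈ (fl t' j).image π := e.symm ▸ Finset.mem_image_of_mem _ hy
      obtain ⟨z, hz, hz2⟩ := Finset.mem_image.1 h1
      have := hIn (Finset.mem_coe.2 (hsub z hz)) (Finset.mem_coe.2 (hmono j hy)) hz2
      exact this ▸ hz
  have himg : Finset.univ.image t' = s (Fin.last n) := by
    rw [← fl_last, hfl]
  -- the first component
  have hl2 : ∀ σ, l σ = ∑ j, if fl t' j = σ then c else 0 := by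
    intro σ
    by_cases h : l σ = 0
    · rw [h, Finset.sum_eq_zero]
      intro j _
      rw [if_neg]
      intro h1
      rw [hfl] at h1
      exact hs1 j (h1 ▸ h)
    · obtain ⟨j, hj⟩ := hA1 σ h
      have h1 : σ = s j := huniq σ (s j) h (hs1 j) (hj.trans (hs2 j).symm)
      rw [Finset.sum_eq_single j]
      · rw [hfl, if_pos h1.symm, h1, hlc']
      · intro k _ hk
        rw [if_neg]
        intro h2
        rw [hfl, h1] at h2
        apply hk
        have h3 := hscard k
        rw [h2, hscard j] at h3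
        exact Fin.ext (by omega)
      · intro h2
        exact absurd (Finset.mem_univ _) h2
  have hsum : ∀ F : Finset (Finset ℕ), ∑ σ ∈ F, l σ = ∑ j, if fl t' j ∈ F then c else 0 := by
    intro F
    rw [Finset.sum_congr rfl fun σ _ => hl2 σ, Finset.sum_comm]
    refine Finset.sum_congr rfl fun j _ => ?_
    rw [Finset.sum_ite_eq]
  have hS : ∀ a, ∑ σ ∈ (sub K' (pre K' π V)).filter (fun σ => a ∈ σ), l σ =
      ∑ j, if fl t' j ∈ sub K' (pre K' π V) ∧ a ∈ fl t' j then c else 0 := by
    intro a
    rw [hsum]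
    simp only [Finset.mem_filter]
  have habs : ∀ a, |x a| = 1 - ∑ j, if fl t' j ∈ sub K' (pre K' π V) ∧ a ∈ fl t' j then c
      else 0 := by
    intro a
    have h1 := hx1 a
    rw [hS] at h1
    linarith
  have hn1 : ((n : ℝ) + 1) * c = 1 := by
    rw [hcdef]
    field_simp
  have hlastnot : fl t' (Fin.last n) ∉ sub K' (pre K' π V) := by
    rw [sub_iff hc (by rw [hfl]; exact (hlK _ (hs1 _)).1), hfl, hs2, fl_last, mem_sub]
    exact fun h => htV h.2
  have hSle : ∀ (Q : Fin (n + 1) → Prop) [DecidablePred Q], ¬ Q (Fin.last n) →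
      (∑ j, if Q j then c else 0) ≤ 1 - c := by
    intro Q _ hQ
    have h1 : (∑ j, if Q j then c else 0) ≤ ∑ j : Fin (n + 1), if j = Fin.last n then 0 else c := by
      refine Finset.sum_le_sum fun j _ => ?_
      by_cases h2 : j = Fin.last n
      · rw [h2, if_neg hQ, if_pos rfl]
      · rw [if_neg h2]
        split_ifs
        · exact le_refl _
        · exact hc0.le
    have h2 : (∑ j : Fin (n + 1), if j = Fin.last n then 0 else c) = 1 - c := by
      have h3 : ∀ j : Fin (n + 1), (if j = Fin.last n then 0 else c) =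
          c - (if j = Fin.last n then c else 0) := by
        intro j
        split_ifs <;> simp
      rw [Finset.sum_congr rfl fun j _ => h3 j, Finset.sum_sub_distrib, Finset.sum_ite_eq',
        if_pos (Finset.mem_univ _), Finset.sum_const, Finset.card_univ, Fintype.card_fin,
        nsmul_eq_mul]
      push_cast
      rw [hn1]
    linarith
  have habs0 : ∀ a, 0 < |x a| := by
    intro a
    have h1 := hSle (fun j => fl t' j ∈ sub K' (pre K' π V) ∧ a ∈ fl t' j)
      (fun h => hlastnot h.1)
    rw [habs a]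
    linarith
  -- the copy
  set T' : Finset ℕ := (pre K' π V).filter fun a => x a < 0 with hT'def
  have hT'sub : T' ⊆ pre K' π V := Finset.filter_subset _ _
  have hcor : ∀ a, x a = cornerPt T' a * |x a| := by
    intro a
    unfold cornerPt
    by_cases h : x a < 0
    · have h1 : a ∈ pre K' π V := by
        by_contra h2
        have := hx2 a h2
        linarith
      rw [if_pos (Finset.mem_filter.2 ⟨h1, h⟩), abs_of_neg h]
      ring
    · have h1 : a ∉ T' := fun h1 => h (Finset.mem_filter.1 h1).2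
      rw [if_neg h1, abs_of_nonneg (not_lt.1 h), one_mul]
  refine ⟨T', t', hT'sub, ?_, ht2, ?_, ?_⟩
  · -- par
    have hpar : ∀ v, cornerPt (par π V T') v = cornerPt T v := by
      intro v
      have h1 := hq2 v
      have h2 : (simPt K V T t (bary n)).2 v = cornerPt T v *
        (1 - ∑ j, if fl t j ∈ sub K V ∧ v ∈ fl t j then c else 0) := rfl
      rw [h2, Finset.prod_congr rfl fun a _ => hcor a, Finset.prod_mul_distrib,
        ← corner_par hT'sub v] at h1
      have h3 : 0 < 1 - ∑ j, if fl t j ∈ sub K V ∧ v ∈ fl t j then c else 0 := by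
        have h4 := hSle (fun j => fl t j ∈ sub K V ∧ v ∈ fl t j) (fun h => by
          have h5 := h.1
          rw [fl_last, mem_sub] at h5
          exact htV h5.2)
        linarith
      have h4 : 0 < ∏ a ∈ (verts K').filter (fun a => π a = v), |x a| :=
        Finset.prod_pos fun a _ => habs0 a
      revert h1
      unfold cornerPt
      split_ifs <;> intro h1 <;> first | rfl | (exfalso; nlinarith)
    have hmem : ∀ (S : Finset ℕ) v, v ∈ S ↔ cornerPt S v = -1 := by
      intro S v
      unfold cornerPt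
      split_ifs with h
      · exact ⟨fun _ => rfl, fun _ => h⟩
      · exact ⟨fun h' => absurd h' h, fun h' => by norm_num at h'⟩
    ext v
    rw [hmem, hmem, hpar]
  · rw [himg]
    exact (hlK _ (hs1 _)).1
  · apply Prod.ext
    · funext σ
      exact hl2 σ
    · funext a
      change x a = cornerPt T' a * (1 - ∑ j, if fl t' j ∈ sub K' (pre K' π V) ∧ a ∈ fl t' j then c
        else 0)
      rw [← habs a]
      exact hcor a

end MP8a95ee.Ref.D8P

end
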